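import Pool.Agent.Work.MP_4a14ce_an.Claims
import Pool.Agent.Work.MP_4a14ce_an.Wiener

/-! Bundle of small proof modules (one section per former module). -/

section

/-!
# Library claims: one period integrals, jointly smooth functions, identities of constrained curves
-/

open Set MeasureTheory Topology Filter
open scoped ContDiff

namespace Pool.Agent.Work.MP_4a14ce_an

/-! ## integrals over a period (scalar functions) -/

def PerDeriv : Prop := ∀ f : ℝ → ℝ, ContDiff ℝ 1 f → Function.Periodic f (2 * Real.pi) →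
  per (deriv f) = 0

def PerIbp : Prop := ∀ f g : ℝ → ℝ, ContDiff ℝ 1 f → ContDiff ℝ 1 g →
  Function.Periodic f (2 * Real.pi) → Function.Periodic g (2 * Real.pi) →
  per (fun x => deriv f x * g x) = - per (fun x => f x * deriv g x)

def PerCS : Prop := ∀ f g : ℝ → ℝ, Continuous f → Continuous g →
  per (fun x => f x * g x) ^ 2 ≤ per (fun x => f x ^ 2) * per (fun x => g x ^ 2)

/-- `‖f'‖² ≤ ‖f‖ ‖f''‖` -/
def PerInterp : Prop := ∀ f : ℝ → ℝ, ContDiff ℝ 2 f → Function.Periodic f (2 * Real.pi) →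
  per (fun x => deriv f x ^ 2) ^ 2 ≤ per (fun x => f x ^ 2) * per (fun x => iteratedDeriv 2 f x ^ 2)

/-- `‖f'‖_∞² ≤ 2 ‖f'‖ ‖f''‖` -/
def Agmon : Prop := ∀ f : ℝ → ℝ, ContDiff ℝ 2 f → Function.Periodic f (2 * Real.pi) →
  ∀ x, deriv f x ^ 4 ≤ 4 * (per (fun x => deriv f x ^ 2) * per (fun x => iteratedDeriv 2 f x ^ 2))

def SupLe : Prop := ∀ f : ℝ → ℝ, ContDiff ℝ 1 f → Function.Periodic f (2 * Real.pi) →
  ∀ x, f x ^ 2 ≤ 2 * (per (fun x => f x ^ 2) + per (fun x => deriv f x ^ 2))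

/-- `‖g'‖ ≥ ‖g‖` for mean zero `g`, here `g = f'` -/
def Poincare : Prop := ∀ f : ℝ → ℝ, ContDiff ℝ 2 f → Function.Periodic f (2 * Real.pi) →
  per (fun x => deriv f x ^ 2) ≤ per (fun x => iteratedDeriv 2 f x ^ 2)

/-! ## jointly smooth functions on `I × ℝ` -/

def ItvBasic : Prop := ∀ I : Set ℝ, Itv I → UniqueDiffOn ℝ I ∧ Convex ℝ I ∧ IsClosed I

/-- restriction to a time slice, `x`-derivatives -/
def JSSlice : Prop := ∀ (n : ℕ) (I : Set ℝ) (u : ℝ → ℝ → Fin n → ℝ), Itv I → JS I u →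
  (∀ t ∈ I, ContDiff ℝ ∞ (u t)) ∧ ∀ j : ℕ, JS I (fun t => iteratedDeriv j (u t))

def JSSlice1 : Prop := ∀ (I : Set ℝ) (u : ℝ → ℝ → ℝ), Itv I → JS I u →
  (∀ t ∈ I, ContDiff ℝ ∞ (u t)) ∧ ∀ j : ℕ, JS I (fun t => iteratedDeriv j (u t))

/-- time derivative, commutes with `x`-derivatives -/
def JSDt : Prop := ∀ (n : ℕ) (I : Set ℝ) (u : ℝ → ℝ → Fin n → ℝ), Itv I → JS I u →
  ∃ ut : ℝ → ℝ → Fin n → ℝ, JS I ut ∧
    ∀ j : ℕ, ∀ t ∈ I, ∀ x, HasDerivWithinAt (fun s => iteratedDeriv j (u s) x)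
      (iteratedDeriv j (ut t) x) I t

def JSDt1 : Prop := ∀ (I : Set ℝ) (u : ℝ → ℝ → ℝ), Itv I → JS I u →
  ∃ ut : ℝ → ℝ → ℝ, JS I ut ∧
    ∀ j : ℕ, ∀ t ∈ I, ∀ x, HasDerivWithinAt (fun s => iteratedDeriv j (u s) x)
      (iteratedDeriv j (ut t) x) I t

/-- `C^(k+1)` from `C^k` partial derivatives (vector valued) -/
def PartialsC : Prop := ∀ (n k : ℕ) (I : Set ℝ) (u ut ux : ℝ → ℝ → Fin n → ℝ), Itv I →
  (∀ t ∈ I, ∀ x, HasDerivWithinAt (fun s => u s x) (ut t x) I t) →
  (∀ t ∈ I, ∀ x, HasDerivAt (u t) (ux t x) x) →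
  ContDiffOn ℝ k (fun z : ℝ × ℝ => ut z.1 z.2) (I ×ˢ univ) →
  ContDiffOn ℝ k (fun z : ℝ × ℝ => ux z.1 z.2) (I ×ˢ univ) →
  ContDiffOn ℝ (k + 1) (fun z : ℝ × ℝ => u z.1 z.2) (I ×ˢ univ)

def PartialsC1 : Prop := ∀ (k : ℕ) (I : Set ℝ) (u ut ux : ℝ → ℝ → ℝ), Itv I →
  (∀ t ∈ I, ∀ x, HasDerivWithinAt (fun s => u s x) (ut t x) I t) →
  (∀ t ∈ I, ∀ x, HasDerivAt (u t) (ux t x) x) →
  ContDiffOn ℝ k (fun z : ℝ × ℝ => ut z.1 z.2) (I ×ˢ univ) →
  ContDiffOn ℝ k (fun z : ℝ × ℝ => ux z.1 z.2) (I ×ˢ univ) →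
  ContDiffOn ℝ (k + 1) (fun z : ℝ × ℝ => u z.1 z.2) (I ×ˢ univ)

/-- integrals in `x` from `0` of a jointly smooth function -/
def JSInt0x : Prop := ∀ (I : Set ℝ) (f : ℝ → ℝ → ℝ), Itv I → JS I f →
  JS I (fun t x => ∫ y in (0 : ℝ)..x, f t y)

/-- integrals over a period: smooth in `t`, derivative under the integral -/
def JSPer : Prop := ∀ (I : Set ℝ) (f ft : ℝ → ℝ → ℝ), Itv I → JS I f → JS I ft →
  (∀ t ∈ I, ∀ x, HasDerivWithinAt (fun s => f s x) (ft t x) I t) →
  ContDiffOn ℝ ∞ (fun t => per (f t)) I ∧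
    ∀ t ∈ I, HasDerivWithinAt (fun s => per (f s)) (per (ft t)) I t

/-- integrals in `t` from `a` (finite order of smoothness and smooth) -/
def IntTC : Prop := ∀ (k : ℕ) (I : Set ℝ) (a : ℝ) (f : ℝ → ℝ → ℝ), Itv I → a ∈ I →
  ContDiffOn ℝ k (fun z : ℝ × ℝ => f z.1 z.2) (I ×ˢ univ) →
  ContDiffOn ℝ k (fun z : ℝ × ℝ => ∫ s in a..z.1, f s z.2) (I ×ˢ univ)

/-- composition in the space variable -/
def JSComp : Prop := ∀ (n : ℕ) (I : Set ℝ) (u : ℝ → ℝ → Fin n → ℝ) (Y : ℝ → ℝ → ℝ), JS I u →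
  JS I Y → JS I (fun t x => u t (Y t x))

/-- smoothness is local in time (relatively open cover of `[0, b]` resp. `[0, ∞)`) -/
def JSLocal : Prop := ∀ (n : ℕ) (I : Set ℝ) (u : ℝ → ℝ → Fin n → ℝ),
  (∀ t ∈ I, ∃ (J : Set ℝ) (v : ℝ → ℝ → Fin n → ℝ), IsOpen J ∧ t ∈ J ∧ JS (I ∩ J) v ∧
    ∀ s ∈ I ∩ J, ∀ x, u s x = v s x) → JS I u

/-! ## identities of constrained curves -/

/-- consequences of `B(u,u)=σ`, `B(u',u')=p`; `D j` denotes `iteratedDeriv j u` -/
def ConIds : Prop := ∀ (n : ℕ) (σ p : ℝ) (u : ℝ → V n), Sgn σ → Con σ p u → ∀ x,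
  B σ (u x) (u x) = σ ∧
  B σ (u x) (iteratedDeriv 1 u x) = 0 ∧
  B σ (iteratedDeriv 1 u x) (iteratedDeriv 1 u x) = p ∧
  B σ (u x) (iteratedDeriv 2 u x) = -p ∧
  B σ (iteratedDeriv 1 u x) (iteratedDeriv 2 u x) = 0 ∧
  B σ (u x) (iteratedDeriv 3 u x) = 0 ∧
  B σ (iteratedDeriv 1 u x) (iteratedDeriv 3 u x) =
    - B σ (iteratedDeriv 2 u x) (iteratedDeriv 2 u x) ∧
  B σ (u x) (iteratedDeriv 4 u x) = B σ (iteratedDeriv 2 u x) (iteratedDeriv 2 u x) ∧
  B σ (iteratedDeriv 1 u x) (iteratedDeriv 4 u x) =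
    -3 * B σ (iteratedDeriv 2 u x) (iteratedDeriv 3 u x)

/-- bilinearity and derivative rules of `B` -/
def BRules : Prop := ∀ (n : ℕ) (σ : ℝ),
  (∀ x y : V n, B σ x y = B σ y x) ∧
  (∀ x y z : V n, B σ (x + y) z = B σ x z + B σ y z) ∧
  (∀ (c : ℝ) (x y : V n), B σ (c • x) y = c * B σ x y) ∧
  (∀ (f g f' g' : ℝ → V n) (s : Set ℝ) (x : ℝ), HasDerivWithinAt f (f' x) s x →
    HasDerivWithinAt g (g' x) s x →
    HasDerivWithinAt (fun y => B σ (f y) (g y)) (B σ (f' x) (g x) + B σ (f x) (g' x)) s x) ∧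
  (∀ x y : V n, Sgn σ → |B σ x y| ≤ Real.sqrt (nsq x) * Real.sqrt (nsq y))

end Pool.Agent.Work.MP_4a14ce_an

end

section

/-!
# A priori bound, uniform in time, modulo isometries
-/

open Set MeasureTheory Topology Filter
open scoped ContDiff

namespace Pool.Agent.Work.MP_4a14ce_an

namespace Apriori

variable {n : ℕ} {σ : ℝ}

lemma iso_comp {g h : V n →ₗ[ℝ] V n} (hg : IsIso σ g) (hh : IsIso σ h) :
    IsIso σ (g.comp h) :=
  ⟨fun x y => by rw [LinearMap.comp_apply, LinearMap.comp_apply, hg.form, hh.form],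
    fun x hx => hg.mem _ (hh.mem x hx)⟩

lemma csol_mono {u : ℝ → ℝ → V n} {p : ℝ → ℝ} {I J : Set ℝ} (h : CSol σ I u p) (hJ : J ⊆ I) :
    CSol σ J u p := by
  refine ⟨⟨?_, h.sol.psmooth.mono hJ, h.sol.msmooth.mono hJ, fun t ht => h.sol.periodic t (hJ ht),
    fun t ht x => (h.sol.eqn t (hJ ht) x).mono hJ, fun t ht => (h.sol.peqn t (hJ ht)).mono hJ,
    fun t ht => (h.sol.meqn t (hJ ht)).mono hJ⟩, fun t ht => h.con t (hJ ht)⟩
  exact ContDiffOn.mono h.sol.smooth (prod_mono hJ Subset.rfl)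

lemma nsq_cont : Continuous (nsq : V n → ℝ) := by
  unfold nsq
  fun_prop

lemma cont_D {u : ℝ → V n} (hu : ContDiff ℝ ∞ u) (j : ℕ) : Continuous (iteratedDeriv j u) :=
  hu.continuous_iteratedDeriv j (by exact_mod_cast le_top)

/-- change of frame -/
lemma frame {u : ℝ → V n} {A M : ℝ} {g h k : V n →ₗ[ℝ] V n}
    (hu : ContDiff ℝ ∞ (fun y => h (u y)))
    (h1 : ∀ x, iteratedDeriv 4 (fun y => g (u y)) x = k (iteratedDeriv 4 (fun y => h (u y)) x))
    (hA : 0 ≤ A) (hk : ∀ x, nsq (k x) ≤ A * nsq x)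
    (hM : per (fun x => nsq (iteratedDeriv 4 (fun y => h (u y)) x)) ≤ M) :
    per (fun x => nsq (iteratedDeriv 4 (fun y => g (u y)) x)) ≤ A * M := by
  have hkc : Continuous k := LinearMap.continuous_of_finiteDimensional k
  have hc : Continuous (fun x => nsq (iteratedDeriv 4 (fun y => h (u y)) x)) :=
    nsq_cont.comp (cont_D hu 4)
  have hc' : Continuous (fun x => nsq (k (iteratedDeriv 4 (fun y => h (u y)) x))) :=
    nsq_cont.comp (hkc.comp (cont_D hu 4))
  have h2 : per (fun x => nsq (iteratedDeriv 4 (fun y => g (u y)) x)) =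
      per (fun x => nsq (k (iteratedDeriv 4 (fun y => h (u y)) x))) := by
    congr 1
    funext x
    rw [h1 x]
  rw [h2]
  calc per (fun x => nsq (k (iteratedDeriv 4 (fun y => h (u y)) x)))
      ≤ per (fun x => A * nsq (iteratedDeriv 4 (fun y => h (u y)) x)) := by
        refine intervalIntegral.integral_mono_on (by positivity) (hc'.intervalIntegrable _ _)
          ((hc.const_mul A).intervalIntegrable _ _) fun x _ => hk _
    _ = A * per (fun x => nsq (iteratedDeriv 4 (fun y => h (u y)) x)) :=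
        intervalIntegral.integral_const_mul _ _
    _ ≤ A * M := mul_le_mul_of_nonneg_left hM hA

end Apriori

open Apriori

theorem claimApriori (hEn : ClaimEnergy) (hSta : ClaimStatic) (hSta2 : ClaimStatic2)
    (hIso : ClaimIso) (hInv : ClaimInv) (hDr : ClaimDrift) (hH4 : ClaimH4) (hTan : ClaimTan)
    (hVel : ClaimVelTan) : ClaimApriori := by
  intro n σ E0 Y0 hσ
  obtain ⟨K0, hK0, hS⟩ := hSta n σ E0 hσ
  obtain ⟨K1, hK1, hD⟩ := hDr n σ E0 hσ
  obtain ⟨K2, hK2, hS2⟩ := hSta2 n σ E0 K1 hσ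
  set K : ℝ := max K0 (max K1 K2) with hKdef
  have hK0K : K0 ≤ K := le_max_left _ _
  have hK1K : K1 ≤ K := (le_max_left _ _).trans (le_max_right _ _)
  have hK2K : K2 ≤ K := (le_max_right _ _).trans (le_max_right _ _)
  have hK : 0 < K := hK0.trans_le hK0K
  obtain ⟨C, hC⟩ := hH4 n σ K hσ hK
  obtain ⟨hiso1, hiso2, -, A, hA, hAg⟩ := hIso n σ (max K1 (nsq (e0 n))) hσ
  refine ⟨max K0 (A * max (C * (1 + 1⁻¹)) (max Y0 C)), ?_⟩
  intro T u p hT hu hE0 hex t ht g hg hge
  obtain ⟨g0, hg0, hg0e, hg0Y⟩ := hex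
  have itvT : Itv (Icc (0 : ℝ) T) := Or.inr ⟨0, T, hT, rfl⟩
  have h0T : (0 : ℝ) ∈ Icc (0 : ℝ) T := ⟨le_rfl, hT.le⟩
  -- the energy decreases
  have hen : ∀ s ∈ Icc (0 : ℝ) T, en σ (p s) (u s) ≤ E0 := by
    have hder := hEn n σ (Icc 0 T) u p hσ itvT hu
    have hanti : AntitoneOn (fun s => en σ (p s) (u s)) (Icc 0 T) := by
      refine antitoneOn_of_hasDerivWithinAt_nonpos (convex_Icc 0 T)
        (f' := fun t => -((p t * Real.sqrt (p t))⁻¹ * dis σ (p t) (u t)))
        (fun t ht => (hder t ht).continuousWithinAt) (fun t ht => ?_) (fun t ht => ?_)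
      · exact (hder t (interior_subset ht)).mono interior_subset
      · have ht' : t ∈ Icc (0 : ℝ) T := interior_subset ht
        have hpos := (hu.con t ht').pos
        have hdis : 0 ≤ dis σ (p t) (u t) := by
          refine intervalIntegral.integral_nonneg (by positivity) fun x _ => ?_
          exact (hTan n σ 0 hσ).1 _ ((hu.con t ht').mem x) _ ((hVel n σ (p t) (u t) hσ
            (hu.con t ht')) x).1
        have : 0 ≤ (p t * Real.sqrt (p t))⁻¹ * dis σ (p t) (u t) := by positivity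
        linarith
    intro s hs
    exact (hanti h0T hs hs.1).trans hE0
  -- the bound for the fourth derivative on a short interval in the frame of the left end point
  have hshort : ∀ a b : ℝ, 0 ≤ a → a < b → b ≤ a + 1 → b ≤ T → ∀ ga : V n →ₗ[ℝ] V n,
      IsIso σ ga → ga (u a 0) = e0 n →
      nsq (ga (u b 0)) ≤ K1 ∧
      per (fun x => nsq (iteratedDeriv 4 (fun y => ga (u b y)) x)) ≤ C * (1 + (b - a)⁻¹) ∧
      per (fun x => nsq (iteratedDeriv 4 (fun y => ga (u b y)) x)) ≤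
        max (per (fun x => nsq (iteratedDeriv 4 (fun y => ga (u a y)) x))) C := by
    intro a b ha hab hab1 hbT ga hga hgae
    obtain ⟨-, hinv2, hinv3⟩ := hInv n σ ga hσ hga
    have hsub : Icc a b ⊆ Icc (0 : ℝ) T := Icc_subset_Icc ha hbT
    have hv : CSol σ (Icc a b) (fun t y => ga (u t y)) p := hinv3 _ u p (csol_mono hu hsub)
    have haI : a ∈ Icc a b := ⟨le_rfl, hab.le⟩
    have henv : ∀ s ∈ Icc a b, en σ (p s) (fun y => ga (u s y)) ≤ E0 := fun s hs => by
      rw [(hinv2 (u s) (p s) (hu.con s (hsub hs))).2.1]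
      exact hen s (hsub hs)
    have hpos := hD a b (fun t y => ga (u t y)) p hab hab1 hv (henv a haI) hgae
    have hb : b ∈ Ioc a b := ⟨hab, le_rfl⟩
    obtain ⟨h1, h2⟩ := hC a b (fun t y => ga (u t y)) p hab hv (fun s hs => by
      have hc := hv.con s hs
      have hs1 := hS (u s) (p s) (hu.con s (hsub hs)) (hen s (hsub hs))
      have hs2 := hS2 (fun y => ga (u s y)) (p s) hc (henv s hs) (hpos s hs)
      refine ⟨le_trans (inv_anti₀ hK0 hK0K) hs1.1, hs1.2.1.trans hK0K,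
        fun x => (hpos s hs x).trans hK1K, hs2.trans hK2K⟩) b hb
    exact ⟨hpos b ⟨hab.le, le_rfl⟩ 0, h1, h2⟩
  have hcont := hu.con t ht
  obtain ⟨hinv1, hinv2, -⟩ := hInv n σ g hσ hg
  have hcong := hinv2 (u t) (p t) hcont
  refine ⟨fun x => ?_, ?_⟩
  · refine le_trans ?_ (le_max_left _ _)
    exact (hS (fun y => g (u t y)) (p t) hcong.1 (by rw [hcong.2.1]; exact hen t ht)).2.2.2
      hge x
  · refine le_trans ?_ (le_max_right _ _)
    -- a good frame
    have hgood : ∃ ga : V n →ₗ[ℝ] V n, IsIso σ ga ∧ nsq (ga (u t 0)) ≤ max K1 (nsq (e0 n)) ∧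
        per (fun x => nsq (iteratedDeriv 4 (fun y => ga (u t y)) x)) ≤
          max (C * (1 + 1⁻¹)) (max Y0 C) := by
      rcases eq_or_lt_of_le ht.1 with h0 | h0
      · refine ⟨g0, hg0, ?_, ?_⟩
        · rw [← h0, hg0e]
          exact le_max_right _ _
        · rw [← h0]
          exact hg0Y.trans ((le_max_left _ _).trans (le_max_right _ _))
      · rcases le_or_gt t 1 with h1 | h1
        · obtain ⟨h2, -, h4⟩ := hshort 0 t le_rfl h0 (by linarith) ht.2 g0 hg0 hg0e
          refine ⟨g0, hg0, h2.trans (le_max_left _ _), h4.trans ?_⟩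
          exact (max_le_max hg0Y le_rfl).trans (le_max_right _ _)
        · have ha : t - 1 ∈ Icc (0 : ℝ) T := ⟨by linarith, by linarith [ht.2]⟩
          obtain ⟨ga, hga, hgae⟩ := hiso1 (u (t - 1) 0) ((hu.con _ ha).mem 0)
          obtain ⟨h2, h3, -⟩ := hshort (t - 1) t ha.1 (by linarith) (by linarith) ht.2 ga hga hgae
          refine ⟨ga, hga, h2.trans (le_max_left _ _), ?_⟩
          have h5 : t - (t - 1) = 1 := by ring
          rw [h5] at h3
          exact h3.trans (le_max_left _ _)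
    obtain ⟨ga, hga, hq, hM⟩ := hgood
    obtain ⟨h, hh, hh1, -⟩ := hiso2 ga hga
    have hk : IsIso σ (g.comp h) := iso_comp hg hh
    have hke : (g.comp h) (ga (u t 0)) = e0 n := by
      rw [LinearMap.comp_apply, hh1, hge]
    obtain ⟨hinva, hinvb, -⟩ := hInv n σ ga hσ hga
    refine frame (h := ga) (k := g.comp h) (hinvb (u t) (p t) hcont).1.smooth (fun x => ?_) hA.le
      (hAg (g.comp h) hk (ga (u t 0)) hq hke) hM
    rw [hinv1 (u t) hcont.smooth 4 x, hinva (u t) hcont.smooth 4 x, LinearMap.comp_apply, hh1]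

end Pool.Agent.Work.MP_4a14ce_an

end

section

/-!
# Constant speed reparametrisation of a smooth family of closed curves
-/

open Set MeasureTheory Topology Filter
open scoped ContDiff

namespace Pool.Agent.Work.MP_4a14ce_an

namespace Arc

lemma two_pi_pos : 0 < 2 * Real.pi := by positivity

lemma itv0 : Itv (Ici (0 : ℝ)) := Or.inl ⟨0, rfl⟩

lemma uS : UniqueDiffOn ℝ ((Ici (0 : ℝ)) ×ˢ (univ : Set ℝ)) :=
  (uniqueDiffOn_Ici 0).prod uniqueDiffOn_univ

section

variable {E : Type*} [NormedAddCommGroup E] [NormedSpace ℝ E] {u : ℝ → ℝ → E}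

lemma slice (hu : JS (Ici 0) u) {t : ℝ} (ht : t ∈ Ici (0 : ℝ)) : ContDiff ℝ ∞ (u t) :=
  ContDiffOn.comp_contDiff (g := fun z : ℝ × ℝ => u z.1 z.2) (f := fun x => (t, x)) hu
    (by fun_prop) (fun x => ⟨ht, mem_univ _⟩)

/-- the joint derivative -/
noncomputable def FD (u : ℝ → ℝ → E) (z : ℝ × ℝ) : ℝ × ℝ →L[ℝ] E :=
  fderivWithin ℝ (fun z : ℝ × ℝ => u z.1 z.2) (Ici 0 ×ˢ univ) z

lemma hasF (hu : JS (Ici 0) u) {z : ℝ × ℝ} (hz : z.1 ∈ Ici (0 : ℝ)) :
    HasFDerivWithinAt (fun z : ℝ × ℝ => u z.1 z.2) (FD u z) (Ici 0 ×ˢ univ) z :=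
  ((hu z ⟨hz, mem_univ _⟩).differentiableWithinAt (by simp)).hasFDerivWithinAt

lemma hasDx (hu : JS (Ici 0) u) {t : ℝ} (ht : t ∈ Ici (0 : ℝ)) (x : ℝ) :
    HasDerivAt (u t) (FD u (t, x) (0, 1)) x := by
  have h1 := hasF hu (z := (t, x)) ht
  have h2 : HasDerivAt (fun y : ℝ => ((t, y) : ℝ × ℝ)) (0, 1) x :=
    (hasDerivAt_const x t).prodMk (hasDerivAt_id x)
  have hst : MapsTo (fun y : ℝ => ((t, y) : ℝ × ℝ)) univ (Ici 0 ×ˢ univ) :=
    fun y _ => ⟨ht, mem_univ _⟩
  have h3 := h1.comp_hasDerivWithinAt x (h2.hasDerivWithinAt (s := univ)) hst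
  exact hasDerivWithinAt_univ.mp h3

lemma hasDt (hu : JS (Ici 0) u) {t : ℝ} (ht : t ∈ Ici (0 : ℝ)) (x : ℝ) :
    HasDerivWithinAt (fun s => u s x) (FD u (t, x) (1, 0)) (Ici 0) t := by
  have h1 := hasF hu (z := (t, x)) ht
  have h2 : HasDerivWithinAt (fun y : ℝ => ((y, x) : ℝ × ℝ)) (1, 0) (Ici 0) t :=
    (hasDerivWithinAt_id t _).prodMk (hasDerivWithinAt_const t _ x)
  have hst : MapsTo (fun y : ℝ => ((y, x) : ℝ × ℝ)) (Ici 0) (Ici 0 ×ˢ univ) :=
    fun y hy => ⟨hy, mem_univ _⟩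
  exact h1.comp_hasDerivWithinAt t h2 hst

lemma FD_smooth (hu : JS (Ici 0) u) : ContDiffOn ℝ ∞ (FD u) (Ici 0 ×ˢ univ) :=
  ContDiffOn.fderivWithin hu uS (by simp)

lemma JSt (hu : JS (Ici 0) u) : JS (Ici 0) (fun t x => FD u (t, x) (1, 0)) :=
  (FD_smooth hu).clm_apply contDiffOn_const

lemma JSx (hu : JS (Ici 0) u) : JS (Ici 0) (fun t => deriv (u t)) := by
  have h : ContDiffOn ℝ ∞ (fun z : ℝ × ℝ => FD u z (0, 1)) (Ici 0 ×ˢ univ) :=
    (FD_smooth hu).clm_apply contDiffOn_const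
  refine h.congr fun z hz => ?_
  exact (hasDx hu hz.1 z.2).deriv

end

/-- smooth inverse of a smooth family of reparametrisations -/
lemma inv_JS {Y : ℝ → ℝ → ℝ} (hY : JS (Ici 0) Y)
    (hR : ∀ t ∈ Ici (0 : ℝ), IsReparam (Y t)) :
    ∃ X : ℝ → ℝ → ℝ, JS (Ici 0) X ∧ ∀ t ∈ Ici (0 : ℝ), IsReparam (X t) ∧
      (∀ x, X t (Y t x) = x ∧ Y t (X t x) = x) ∧
      ∀ y, HasDerivAt (X t) (deriv (Y t) (X t y))⁻¹ y := by
  have hmono : ∀ t ∈ Ici (0 : ℝ), StrictMono (Y t) := fun t ht =>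
    strictMono_of_deriv_pos (hR t ht).deriv_pos
  have hcont : ∀ t ∈ Ici (0 : ℝ), Continuous (Y t) := fun t ht => (hR t ht).smooth.continuous
  have hshift : ∀ t ∈ Ici (0 : ℝ), ∀ (k : ℕ) (x : ℝ),
      Y t (x + k * (2 * Real.pi)) = Y t x + k * (2 * Real.pi) := by
    intro t ht k
    induction k with
    | zero => intro x; simp
    | succ k ih =>
      intro x
      have e : x + ((k + 1 : ℕ) : ℝ) * (2 * Real.pi) =
          (x + k * (2 * Real.pi)) + 2 * Real.pi := by
        push_cast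
        ring
      rw [e, (hR t ht).shift, ih]
      push_cast
      ring
  have hshift' : ∀ t ∈ Ici (0 : ℝ), ∀ (k : ℕ) (x : ℝ),
      Y t (x - k * (2 * Real.pi)) = Y t x - k * (2 * Real.pi) := by
    intro t ht k x
    have := hshift t ht k (x - k * (2 * Real.pi))
    rw [sub_add_cancel] at this
    linarith
  have hsurj : ∀ t ∈ Ici (0 : ℝ), Function.Surjective (Y t) := by
    intro t ht y
    have hp := two_pi_pos
    obtain ⟨k, hk⟩ := exists_nat_gt (|y - Y t 0| / (2 * Real.pi))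
    rw [div_lt_iff₀ hp] at hk
    have h1 := hshift t ht k 0
    have h2 := hshift' t ht k 0
    have h3 := abs_lt.mp hk
    have h4 : y ∈ Icc (Y t (0 - k * (2 * Real.pi))) (Y t (0 + k * (2 * Real.pi))) := by
      rw [h1, h2]
      constructor <;> linarith [h3.1, h3.2]
    have h5 : (0 : ℝ) - k * (2 * Real.pi) ≤ 0 + k * (2 * Real.pi) := by
      have : 0 ≤ (k : ℝ) * (2 * Real.pi) := by positivity
      linarith
    obtain ⟨x, -, hx⟩ := intermediate_value_Icc h5 (hcont t ht).continuousOn h4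
    exact ⟨x, hx⟩
  set X : ℝ → ℝ → ℝ := fun t => Function.invFun (Y t) with hXdef
  have hYX : ∀ t ∈ Ici (0 : ℝ), ∀ y, Y t (X t y) = y := fun t ht y =>
    Function.invFun_eq (hsurj t ht y)
  have hXY : ∀ t ∈ Ici (0 : ℝ), ∀ x, X t (Y t x) = x := fun t ht x =>
    Function.leftInverse_invFun (hmono t ht).injective x
  -- joint continuity
  have hXc : ContinuousOn (fun z : ℝ × ℝ => X z.1 z.2) (Ici 0 ×ˢ univ) := by
    rintro ⟨t, y⟩ ⟨ht, -⟩
    have ht' : t ∈ Ici (0 : ℝ) := ht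
    rw [ContinuousWithinAt, Metric.tendsto_nhds]
    intro ε hε
    have h1 : Y t (X t y - ε) < y := by
      conv_rhs => rw [← hYX t ht' y]
      exact hmono t ht' (by linarith)
    have h2 : y < Y t (X t y + ε) := by
      conv_lhs => rw [← hYX t ht' y]
      exact hmono t ht' (by linarith)
    have hc1 : ContinuousWithinAt (fun z : ℝ × ℝ => Y z.1 (X t y - ε) - z.2) (Ici 0 ×ˢ univ)
        (t, y) := by
      have h3 : ContinuousWithinAt (fun z : ℝ × ℝ => Y z.1 z.2) (Ici 0 ×ˢ univ)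
          (t, X t y - ε) := hY.continuousOn (t, X t y - ε) ⟨ht', mem_univ _⟩
      have h4 : ContinuousWithinAt (fun z : ℝ × ℝ => ((z.1, X t y - ε) : ℝ × ℝ))
          (Ici 0 ×ˢ univ) (t, y) := by fun_prop
      have hst : MapsTo (fun z : ℝ × ℝ => ((z.1, X t y - ε) : ℝ × ℝ)) (Ici 0 ×ˢ univ)
          (Ici 0 ×ˢ univ) := fun z hz => ⟨hz.1, mem_univ _⟩
      have h5 : ContinuousWithinAt (fun z : ℝ × ℝ => Y z.1 (X t y - ε)) (Ici 0 ×ˢ univ)
          (t, y) := ContinuousWithinAt.comp (g := fun z : ℝ × ℝ => Y z.1 z.2)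
            (f := fun z : ℝ × ℝ => ((z.1, X t y - ε) : ℝ × ℝ)) (x := (t, y)) h3 h4 hst
      exact h5.sub (by fun_prop)
    have hc2 : ContinuousWithinAt (fun z : ℝ × ℝ => Y z.1 (X t y + ε) - z.2) (Ici 0 ×ˢ univ)
        (t, y) := by
      have h3 : ContinuousWithinAt (fun z : ℝ × ℝ => Y z.1 z.2) (Ici 0 ×ˢ univ)
          (t, X t y + ε) := hY.continuousOn (t, X t y + ε) ⟨ht', mem_univ _⟩
      have h4 : ContinuousWithinAt (fun z : ℝ × ℝ => ((z.1, X t y + ε) : ℝ × ℝ))
          (Ici 0 ×ˢ univ) (t, y) := by fun_prop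
      have hst : MapsTo (fun z : ℝ × ℝ => ((z.1, X t y + ε) : ℝ × ℝ)) (Ici 0 ×ˢ univ)
          (Ici 0 ×ˢ univ) := fun z hz => ⟨hz.1, mem_univ _⟩
      have h5 : ContinuousWithinAt (fun z : ℝ × ℝ => Y z.1 (X t y + ε)) (Ici 0 ×ˢ univ)
          (t, y) := ContinuousWithinAt.comp (g := fun z : ℝ × ℝ => Y z.1 z.2)
            (f := fun z : ℝ × ℝ => ((z.1, X t y + ε) : ℝ × ℝ)) (x := (t, y)) h3 h4 hst
      exact h5.sub (by fun_prop)
    have e1 := hc1.eventually_lt (g := fun _ => (0 : ℝ)) continuousWithinAt_const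
      (by simpa using h1)
    have e2 := (continuousWithinAt_const (b := (0 : ℝ))).eventually_lt hc2 (by simpa using h2)
    filter_upwards [e1, e2, self_mem_nhdsWithin] with z hz1 hz2 hz3
    have hzt : z.1 ∈ Ici (0 : ℝ) := hz3.1
    have h5 : X t y - ε < X z.1 z.2 := by
      rw [← (hmono z.1 hzt).lt_iff_lt, hYX z.1 hzt]
      linarith
    have h6 : X z.1 z.2 < X t y + ε := by
      rw [← (hmono z.1 hzt).lt_iff_lt, hYX z.1 hzt]
      linarith
    rw [Real.dist_eq, abs_lt]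
    exact ⟨by linarith, by linarith⟩
  -- the derivative
  have hyx : ∀ z : ℝ × ℝ, z.1 ∈ Ici (0 : ℝ) → 0 < FD Y z (0, 1) := by
    intro z hz
    have h1 := (hasDx hY hz z.2).deriv
    have h2 := (hR z.1 hz).deriv_pos z.2
    rw [h1] at h2
    exact h2
  have hXd : ∀ z : ℝ × ℝ, z ∈ (Ici (0 : ℝ)) ×ˢ (univ : Set ℝ) →
      HasFDerivWithinAt (fun z : ℝ × ℝ => X z.1 z.2)
        ((-(FD Y (z.1, X z.1 z.2) (1, 0) / FD Y (z.1, X z.1 z.2) (0, 1))) •
            ContinuousLinearMap.fst ℝ ℝ ℝ +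
          (FD Y (z.1, X z.1 z.2) (0, 1))⁻¹ • ContinuousLinearMap.snd ℝ ℝ ℝ)
        (Ici 0 ×ˢ univ) z := by
    rintro ⟨t, y⟩ ⟨ht, -⟩
    have ht' : t ∈ Ici (0 : ℝ) := ht
    set a := FD Y (t, X t y) (1, 0) with ha
    set b := FD Y (t, X t y) (0, 1) with hb
    have hb0 : b ≠ 0 := (hyx (t, X t y) ht').ne'
    have hD : FD Y (t, X t y) = a • ContinuousLinearMap.fst ℝ ℝ ℝ +
        b • ContinuousLinearMap.snd ℝ ℝ ℝ := by
      ext
      · simp [ha]
      · simp [hb]
    set A : ℝ × ℝ →L[ℝ] ℝ × ℝ := (ContinuousLinearMap.fst ℝ ℝ ℝ).prod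
      (a • ContinuousLinearMap.fst ℝ ℝ ℝ + b • ContinuousLinearMap.snd ℝ ℝ ℝ) with hA
    set A' : ℝ × ℝ →L[ℝ] ℝ × ℝ := (ContinuousLinearMap.fst ℝ ℝ ℝ).prod
      ((-(a / b)) • ContinuousLinearMap.fst ℝ ℝ ℝ + b⁻¹ • ContinuousLinearMap.snd ℝ ℝ ℝ) with hA'
    have hl : Function.LeftInverse A' A := by
      rintro ⟨v, w⟩
      simp only [hA, hA', ContinuousLinearMap.prod_apply, ContinuousLinearMap.coe_fst',
        add_apply, smul_apply,
        ContinuousLinearMap.coe_snd', smul_eq_mul, Prod.mk.injEq, true_and]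
      field_simp
      ring
    have hr : Function.RightInverse A' A := by
      rintro ⟨v, w⟩
      simp only [hA, hA', ContinuousLinearMap.prod_apply, ContinuousLinearMap.coe_fst',
        add_apply, smul_apply,
        ContinuousLinearMap.coe_snd', smul_eq_mul, Prod.mk.injEq, true_and]
      field_simp
      ring
    set Aeq : (ℝ × ℝ) ≃L[ℝ] (ℝ × ℝ) := ContinuousLinearEquiv.equivOfInverse A A' hl hr with hAeq
    have hYf : HasFDerivWithinAt (fun z : ℝ × ℝ => (z.1, Y z.1 z.2)) (Aeq : ℝ × ℝ →L[ℝ] ℝ × ℝ)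
        (Ici 0 ×ˢ univ) (t, X t y) := by
      have h1 := hasF hY (z := (t, X t y)) ht'
      rw [hD] at h1
      exact hasFDerivWithinAt_fst.prodMk h1
    have htend : Tendsto (fun z : ℝ × ℝ => (z.1, X z.1 z.2)) (𝓝[Ici 0 ×ˢ univ] (t, y))
        (𝓝[Ici 0 ×ˢ univ] (t, X t y)) := by
      refine tendsto_nhdsWithin_of_tendsto_nhds_of_eventually_within _ ?_ ?_
      · have h1 : ContinuousWithinAt (fun z : ℝ × ℝ => (z.1, X z.1 z.2)) (Ici 0 ×ˢ univ)
            (t, y) := continuousWithinAt_fst.prodMk (hXc (t, y) ⟨ht', mem_univ _⟩)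
        exact h1
      · filter_upwards [self_mem_nhdsWithin] with z hz
        exact ⟨hz.1, mem_univ _⟩
    have hΨ := HasFDerivWithinAt.of_local_left_inverse
      (g := fun z : ℝ × ℝ => (z.1, X z.1 z.2)) (f := fun z : ℝ × ℝ => (z.1, Y z.1 z.2))
      (s := Ici 0 ×ˢ univ) (t := Ici 0 ×ˢ univ) (a := (t, y)) htend hYf ⟨ht', mem_univ _⟩
      (by
        filter_upwards [self_mem_nhdsWithin] with z hz
        show (z.1, Y z.1 (X z.1 z.2)) = z
        rw [hYX z.1 hz.1])
    have h2 := hasFDerivAt_snd (𝕜 := ℝ) (p := ((t, X t y) : ℝ × ℝ))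
    have h3 := h2.comp_hasFDerivWithinAt (t, y) hΨ
    refine h3.congr_fderiv ?_
    have e : ((Aeq.symm : (ℝ × ℝ) ≃L[ℝ] (ℝ × ℝ)) : ℝ × ℝ →L[ℝ] ℝ × ℝ) = A' := rfl
    rw [e, hA']
    ext <;> simp
  -- smoothness
  have hXs : JS (Ici 0) X := by
    have hk : ∀ k : ℕ, ContDiffOn ℝ k (fun z : ℝ × ℝ => X z.1 z.2) (Ici 0 ×ˢ univ) := by
      intro k
      induction k with
      | zero => exact contDiffOn_zero.mpr hXc
      | succ k ih =>
        have hΨ : ContDiffOn ℝ k (fun z : ℝ × ℝ => ((z.1, X z.1 z.2) : ℝ × ℝ))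
            (Ici 0 ×ˢ univ) := contDiffOn_fst.prodMk ih
        have hD : ContDiffOn ℝ k (fun z : ℝ × ℝ => FD Y (z.1, X z.1 z.2)) (Ici 0 ×ˢ univ) :=
          ContDiffOn.comp (g := FD Y) ((FD_smooth hY).of_le (by exact_mod_cast le_top)) hΨ
            (fun z hz => ⟨hz.1, mem_univ _⟩)
        have hD1 : ContDiffOn ℝ k (fun z : ℝ × ℝ => FD Y (z.1, X z.1 z.2) (1, 0))
            (Ici 0 ×ˢ univ) := hD.clm_apply contDiffOn_const
        have hD2 : ContDiffOn ℝ k (fun z : ℝ × ℝ => FD Y (z.1, X z.1 z.2) (0, 1))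
            (Ici 0 ×ˢ univ) := hD.clm_apply contDiffOn_const
        have hne : ∀ z ∈ (Ici (0 : ℝ)) ×ˢ (univ : Set ℝ), FD Y (z.1, X z.1 z.2) (0, 1) ≠ 0 :=
          fun z hz => (hyx (z.1, X z.1 z.2) hz.1).ne'
        push_cast
        rw [contDiffOn_succ_iff_hasFDerivWithinAt_of_uniqueDiffOn uS]
        refine ⟨by simp, _, ?_, hXd⟩
        exact ((hD1.div hD2 hne).neg.smul contDiffOn_const).add
          ((hD2.inv hne).smul contDiffOn_const)
    exact contDiffOn_infty.mpr hk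
  refine ⟨X, hXs, fun t ht => ?_⟩
  have hder : ∀ y, HasDerivAt (X t) (deriv (Y t) (X t y))⁻¹ y := by
    intro y
    have h1 : HasDerivAt (Y t) (deriv (Y t) (X t y)) (X t y) :=
      ((hR t ht).smooth.differentiable (by simp) _).hasDerivAt
    exact HasDerivAt.of_local_left_inverse ((slice hXs ht).continuous.continuousAt) h1
      ((hR t ht).deriv_pos _).ne' (Eventually.of_forall (hYX t ht))
  refine ⟨⟨slice hXs ht, fun y => ?_, fun y => ?_⟩, fun x => ⟨hXY t ht x, hYX t ht x⟩, hder⟩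
  · apply (hmono t ht).injective
    rw [hYX t ht, (hR t ht).shift, hYX t ht]
  · rw [(hder y).deriv]
    exact inv_pos.mpr ((hR t ht).deriv_pos _)

lemma B_smooth {n : ℕ} (σ : ℝ) {f g : ℝ × ℝ → V n} {s : Set (ℝ × ℝ)}
    (hf : ContDiffOn ℝ ∞ f s) (hg : ContDiffOn ℝ ∞ g s) :
    ContDiffOn ℝ ∞ (fun z => B σ (f z) (g z)) s := by
  unfold B
  have hf' := contDiffOn_pi.mp hf
  have hg' := contDiffOn_pi.mp hg
  exact (contDiffOn_const.mul ((hf' 0).mul (hg' 0))).add
    (ContDiffOn.sum fun i _ => (hf' i.succ).mul (hg' i.succ))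

lemma B_pos (hB : BRules) (hT : ClaimTan) {n : ℕ} {σ : ℝ} (hσ : Sgn σ) {γ : ℝ → V n}
    (h : IsClosedCurve σ γ) (x : ℝ) : 0 < B σ (deriv γ x) (deriv γ x) := by
  obtain ⟨hsym, -, -, hder, -⟩ := hB n σ
  have h1 : HasDerivAt γ (deriv γ x) x := (h.smooth.differentiable (by simp) x).hasDerivAt
  have h2 : HasDerivAt (fun y => B σ (γ y) (γ y))
      (B σ (deriv γ x) (γ x) + B σ (γ x) (deriv γ x)) x := by
    have := hder γ γ (deriv γ) (deriv γ) univ x h1.hasDerivWithinAt h1.hasDerivWithinAt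
    exact hasDerivWithinAt_univ.mp this
  have h3 : (fun y => B σ (γ y) (γ y)) = fun _ => σ := funext fun y => (h.mem y).1
  rw [h3] at h2
  have h4 := h2.unique (hasDerivAt_const x σ)
  rw [hsym (γ x) (deriv γ x)] at h4
  have h5 : B σ (deriv γ x) (γ x) = 0 := by linarith
  obtain ⟨-, C, hC, hK⟩ := hT n σ (nsq (γ x)) hσ
  have h6 := hK (γ x) (h.mem x) le_rfl (deriv γ x) h5
  have h7 : 0 < nsq (deriv γ x) := by
    obtain ⟨i, hi⟩ : ∃ i, deriv γ x i ≠ 0 := by
      by_contra hcon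
      push Not at hcon
      exact h.regular x (funext hcon)
    unfold nsq
    exact Finset.sum_pos' (fun j _ => sq_nonneg _) ⟨i, Finset.mem_univ _, by positivity⟩
  by_contra hcon
  push Not at hcon
  nlinarith

end Arc

open Arc

theorem claimArc (hI : JSInt0x) (hP : JSPer) (hB : BRules) (hT : ClaimTan) : ClaimArc := by
  intro n σ γ hσ hγ hcl
  have hp := two_pi_pos
  -- the speed
  set s : ℝ → ℝ → ℝ := fun t x => vnorm σ (deriv (γ t) x) with hsdef
  have hBpos : ∀ t ∈ Ici (0 : ℝ), ∀ x, 0 < B σ (deriv (γ t) x) (deriv (γ t) x) :=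
    fun t ht x => B_pos hB hT hσ (hcl t ht) x
  have hspos : ∀ t ∈ Ici (0 : ℝ), ∀ x, 0 < s t x := fun t ht x => Real.sqrt_pos.mpr (hBpos t ht x)
  have hs : JS (Ici 0) s := by
    have h1 := JSx hγ
    have h2 := B_smooth σ h1 h1
    exact ContDiffOn.sqrt h2 fun z hz => (hBpos z.1 hz.1 z.2).ne'
  have hsc : ∀ t ∈ Ici (0 : ℝ), Continuous (s t) := fun t ht => (slice hs ht).continuous
  have hsp : ∀ t ∈ Ici (0 : ℝ), Function.Periodic (s t) (2 * Real.pi) := by
    intro t ht x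
    have h1 : deriv (γ t) (x + 2 * Real.pi) = deriv (γ t) x := by
      have h2 : (fun y => γ t (y + 2 * Real.pi)) = γ t := funext (hcl t ht).periodic
      have h3 := deriv_comp_add_const (γ t) (2 * Real.pi) x
      rw [h2] at h3
      exact h3.symm
    show vnorm σ (deriv (γ t) (x + 2 * Real.pi)) = vnorm σ (deriv (γ t) x)
    rw [h1]
  -- the length
  set L : ℝ → ℝ := fun t => per (s t) with hL
  have hLs : ContDiffOn ℝ ∞ L (Ici 0) :=
    (hP (Ici 0) s _ itv0 hs (JSt hs) fun t ht x => hasDt hs ht x).1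
  have hLpos : ∀ t ∈ Ici (0 : ℝ), 0 < L t := fun t ht =>
    intervalIntegral.intervalIntegral_pos_of_pos ((hsc t ht).intervalIntegrable _ _)
      (hspos t ht) hp
  -- the arclength
  have hprim : JS (Ici 0) (fun t x => ∫ y in (0 : ℝ)..x, s t y) := hI (Ici 0) s itv0 hs
  have hYe : ∀ t x, arcY σ (γ t) x = 2 * Real.pi / L t * ∫ y in (0 : ℝ)..x, s t y :=
    fun t x => rfl
  have hY : JS (Ici 0) (fun t => arcY σ (γ t)) := by
    have h1 : ContDiffOn ℝ ∞ (fun z : ℝ × ℝ => 2 * Real.pi / L z.1) (Ici 0 ×ˢ univ) := by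
      refine contDiffOn_const.div ?_ fun z hz => (hLpos z.1 hz.1).ne'
      exact ContDiffOn.comp (g := L) hLs contDiffOn_fst fun z hz => hz.1
    exact h1.mul hprim
  have hYd : ∀ t ∈ Ici (0 : ℝ), ∀ x,
      HasDerivAt (arcY σ (γ t)) (2 * Real.pi / L t * s t x) x := by
    intro t ht x
    have h1 := (intervalIntegral.integral_hasDerivAt_right
      ((hsc t ht).intervalIntegrable 0 x)
      ((hsc t ht).stronglyMeasurableAtFilter _ _) (hsc t ht).continuousAt)
    exact h1.const_mul (2 * Real.pi / L t)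
  have hYR : ∀ t ∈ Ici (0 : ℝ), IsReparam (arcY σ (γ t)) := by
    intro t ht
    refine ⟨slice hY ht, fun x => ?_, fun x => ?_⟩
    · rw [hYe, hYe, ← intervalIntegral.integral_add_adjacent_intervals
        ((hsc t ht).intervalIntegrable 0 x)
        ((hsc t ht).intervalIntegrable x (x + 2 * Real.pi)),
        (hsp t ht).intervalIntegral_add_eq x 0, zero_add, mul_add]
      congr 1
      show 2 * Real.pi / L t * L t = 2 * Real.pi
      have := (hLpos t ht).ne'
      field_simp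
    · rw [(hYd t ht x).deriv]
      have := hLpos t ht
      have := hspos t ht x
      positivity
  obtain ⟨X, hX, hXR⟩ := inv_JS hY hYR
  refine ⟨X, fun t => (L t / (2 * Real.pi)) ^ 2, hY, hX, (hLs.div_const _).pow 2,
    fun t ht => ⟨hYR t ht, (hXR t ht).1, ?_, (hXR t ht).2.1, ?_⟩⟩
  · rw [hYe, intervalIntegral.integral_same, mul_zero]
  · obtain ⟨hRX, -, hXd⟩ := hXR t ht
    have hLt := hLpos t ht
    refine ⟨(hcl t ht).smooth.comp hRX.smooth, fun y => ?_, fun y => (hcl t ht).mem _,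
      fun y => ?_, by positivity⟩
    · show γ t (X t (y + 2 * Real.pi)) = γ t (X t y)
      rw [hRX.shift, (hcl t ht).periodic]
    · have h1 : HasDerivAt (γ t) (deriv (γ t) (X t y)) (X t y) :=
        ((hcl t ht).smooth.differentiable (by simp) _).hasDerivAt
      have h2 := h1.scomp y (hXd y)
      have h3 : deriv (fun y => γ t (X t y)) y =
          (deriv (arcY σ (γ t)) (X t y))⁻¹ • deriv (γ t) (X t y) := h2.deriv
      rw [h3, (hYd t ht _).deriv]
      obtain ⟨hsym, -, hsm, -, -⟩ := hB n σ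
      rw [hsm, hsym, hsm]
      have h4 : s t (X t y) ^ 2 = B σ (deriv (γ t) (X t y)) (deriv (γ t) (X t y)) :=
        Real.sq_sqrt (hBpos t ht _).le
      rw [← h4]
      have h5 := (hspos t ht (X t y)).ne'
      field_simp

end Pool.Agent.Work.MP_4a14ce_an

end

section

/-!
# Uniform bounds for global solutions modulo isometries
-/

open Set MeasureTheory Topology Filter
open scoped ContDiff

namespace Pool.Agent.Work.MP_4a14ce_an

namespace Bounds

variable {n : ℕ} {σ : ℝ}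

lemma iso_comp {g h : V n →ₗ[ℝ] V n} (hg : IsIso σ g) (hh : IsIso σ h) :
    IsIso σ (g.comp h) :=
  ⟨fun x y => by rw [LinearMap.comp_apply, LinearMap.comp_apply, hg.form, hh.form],
    fun x hx => hg.mem _ (hh.mem x hx)⟩

lemma sol_shift {u : ℝ → ℝ → V n} {p m : ℝ → ℝ} (h : Sol σ (Ici 0) u p m) {a T : ℝ}
    (ha : 0 ≤ a) : Sol σ (Icc 0 T) (fun s => u (a + s)) (fun s => p (a + s))
      (fun s => m (a + s)) := by
  have hmem : ∀ s ∈ Icc 0 T, a + s ∈ Ici (0 : ℝ) := fun s hs => by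
    have := hs.1
    show 0 ≤ a + s
    linarith
  have hmaps : MapsTo (fun s : ℝ => a + s) (Icc 0 T) (Ici 0) := hmem
  have hd : ∀ t : ℝ, HasDerivWithinAt (fun s : ℝ => a + s) 1 (Icc 0 T) t := fun t =>
    (hasDerivWithinAt_id t _).const_add a
  refine ⟨?_, ?_, ?_, fun t ht => h.periodic _ (hmem t ht), fun t ht x => ?_, fun t ht => ?_,
    fun t ht => ?_⟩
  · have h1 : ContDiffOn ℝ ∞ (fun z : ℝ × ℝ => ((a + z.1, z.2) : ℝ × ℝ)) (Icc 0 T ×ˢ univ) := by
      fun_prop
    exact ContDiffOn.comp (g := fun z : ℝ × ℝ => u z.1 z.2) h.smooth h1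
      fun z hz => ⟨hmem z.1 hz.1, mem_univ _⟩
  · exact ContDiffOn.comp (g := p) h.psmooth (by fun_prop) hmaps
  · exact ContDiffOn.comp (g := m) h.msmooth (by fun_prop) hmaps
  · have := (h.eqn (a + t) (hmem t ht) x).scomp t (hd t) hmaps
    rw [one_smul] at this
    exact this
  · have := (h.peqn (a + t) (hmem t ht)).scomp t (hd t) hmaps
    rw [one_smul] at this
    exact this
  · have := (h.meqn (a + t) (hmem t ht)).scomp t (hd t) hmaps
    rw [one_smul] at this
    exact this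

lemma csol_shift {u : ℝ → ℝ → V n} {p : ℝ → ℝ} (h : CSol σ (Ici 0) u p) {a T : ℝ}
    (ha : 0 ≤ a) : CSol σ (Icc 0 T) (fun s => u (a + s)) (fun s => p (a + s)) :=
  ⟨sol_shift h.sol ha, fun t ht => h.con _ (by
    have := ht.1
    show 0 ≤ a + t
    linarith)⟩

lemma csol_restrict {u : ℝ → ℝ → V n} {p : ℝ → ℝ} (h : CSol σ (Ici 0) u p) {T : ℝ} :
    CSol σ (Icc 0 T) u p := by
  have := csol_shift h (T := T) le_rfl
  simpa only [zero_add] using this

lemma nsq_cont : Continuous (nsq : V n → ℝ) := by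
  unfold nsq
  fun_prop

lemma per_D {u : ℝ → V n} (hu : Function.Periodic u (2 * Real.pi)) (j : ℕ) :
    Function.Periodic (iteratedDeriv j u) (2 * Real.pi) := by
  have h1 := iteratedDeriv_comp_add_const j u (2 * Real.pi)
  have h2 : (fun z => u (z + 2 * Real.pi)) = u := funext hu
  rw [h2] at h1
  intro x
  exact (congrFun h1 x).symm

end Bounds

open Bounds

theorem claimBounds (hLoc : ClaimLocal) (hUni : ClaimUnique) (hApr : ClaimApriori)
    (hSta : ClaimStatic) (hIso : ClaimIso) (hInv : ClaimInv) (hEn : ClaimEnergy)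
    (hVel : ClaimVelTan) (hTan : ClaimTan) (hSl : JSSlice) : ClaimBounds := by
  intro n σ u p hσ hu
  have itv0 : Itv (Ici (0 : ℝ)) := Or.inl ⟨0, rfl⟩
  have h0 : (0 : ℝ) ∈ Ici (0 : ℝ) := self_mem_Ici
  -- the energy decreases
  have hen : ∀ t ∈ Ici (0 : ℝ), en σ (p t) (u t) ≤ en σ (p 0) (u 0) := by
    have hder := hEn n σ (Ici 0) u p hσ itv0 hu
    have hanti : AntitoneOn (fun s => en σ (p s) (u s)) (Ici 0) := by
      refine antitoneOn_of_hasDerivWithinAt_nonpos (convex_Ici 0)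
        (f' := fun t => -((p t * Real.sqrt (p t))⁻¹ * dis σ (p t) (u t)))
        (fun t ht => (hder t ht).continuousWithinAt) (fun t ht => ?_) (fun t ht => ?_)
      · have ht' : t ∈ Ici (0 : ℝ) := interior_subset ht
        exact (hder t ht').mono interior_subset
      · have ht' : t ∈ Ici (0 : ℝ) := interior_subset ht
        have hpos := (hu.con t ht').pos
        have hdis : 0 ≤ dis σ (p t) (u t) := by
          refine intervalIntegral.integral_nonneg (by positivity) fun x _ => ?_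
          exact (hTan n σ 0 hσ).1 _ ((hu.con t ht').mem x) _ ((hVel n σ (p t) (u t) hσ
            (hu.con t ht')) x).1
        have : 0 ≤ (p t * Real.sqrt (p t))⁻¹ * dis σ (p t) (u t) := by positivity
        linarith
    intro t ht
    exact hanti h0 ht ht
  obtain ⟨K, hK, hKs⟩ := hSta n σ (en σ (p 0) (u 0)) hσ
  have hpK : ∀ t ∈ Ici (0 : ℝ), K⁻¹ ≤ p t ∧ p t ≤ K := fun t ht =>
    ⟨(hKs (u t) (p t) (hu.con t ht) (hen t ht)).1, (hKs (u t) (p t) (hu.con t ht) (hen t ht)).2.1⟩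
  refine ⟨⟨K, hK, hpK⟩, ?_⟩
  -- a priori bound
  obtain ⟨hiso1, hiso2, -, -⟩ := hIso n σ 0 hσ
  obtain ⟨g0, hg0, hg0e⟩ := hiso1 (u 0 0) ((hu.con 0 h0).mem 0)
  obtain ⟨R, hR⟩ := hApr n σ (en σ (p 0) (u 0))
    (per (fun x => nsq (iteratedDeriv 4 (fun y => g0 (u 0 y)) x))) hσ
  have hbd : ∀ t ∈ Ici (0 : ℝ), ∀ g : V n →ₗ[ℝ] V n, IsIso σ g → g (u t 0) = e0 n →
      (∀ x, nsq (g (u t x)) ≤ R) ∧
      per (fun x => nsq (iteratedDeriv 4 (fun y => g (u t y)) x)) ≤ R := by
    intro t ht g hg hge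
    have ht0 : (0 : ℝ) ≤ t := ht
    exact hR (t + 1) u p (by linarith) (csol_restrict hu) le_rfl ⟨g0, hg0, hg0e, le_rfl⟩ t
      ⟨ht0, by linarith⟩ g hg hge
  set R' : ℝ := max R K with hR'
  obtain ⟨T, hT, C, hC⟩ := hLoc n σ R' hσ
  -- late times, special frame
  have hlate : ∀ a ∈ Ici (0 : ℝ), ∀ g : V n →ₗ[ℝ] V n, IsIso σ g → g (u a 0) = e0 n →
      ∀ j x, nsq (iteratedDeriv j (fun y => g (u (a + T / 2) y)) x) ≤ C j := by
    intro a ha g hg hge j x
    obtain ⟨h1, h2⟩ := hbd a ha g hg hge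
    obtain ⟨-, -, hinv3⟩ := hInv n σ g hσ hg
    have hgu : CSol σ (Ici 0) (fun t y => g (u t y)) p := hinv3 _ u p hu
    have hgs := sol_shift hgu.sol (T := T) ha
    have hcon := hgu.con a ha
    have hp1 := hpK a ha
    have hpp := hcon.pos
    obtain ⟨v, q, l, hv, hv0, hq0, hl0, hvC⟩ := hC (fun y => g (u a y)) (p a) (p a)⁻¹
      hcon.smooth hcon.periodic (fun x => (h1 x).trans (le_max_left _ _))
      (h2.trans (le_max_left _ _))
      (by
        rw [abs_of_pos hpp]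
        exact hp1.2.trans (le_max_right _ _))
      (by
        rw [abs_of_pos (inv_pos.mpr hpp)]
        refine le_trans ?_ (le_max_right _ _)
        rw [inv_le_comm₀ hpp hK]
        exact hp1.1)
    have huni := hUni n σ T v (fun s y => g (u (a + s) y)) q l (fun s => p (a + s))
      (fun s => (p (a + s))⁻¹) hσ hT hv hgs
      (by
        rw [hv0]
        funext y
        rw [add_zero])
      (by rw [hq0, add_zero]) (by rw [hl0, add_zero]) (T / 2) ⟨by linarith, by linarith⟩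
    have h3 := hvC j (T / 2) ⟨le_rfl, by linarith⟩ x
    rw [huni.1] at h3
    exact h3
  -- bounds on the compact time interval
  have hcomp : ∀ j : ℕ, ∃ M : ℝ, ∀ t ∈ Icc (0 : ℝ) (T / 2), ∀ x,
      nsq (iteratedDeriv j (u t) x) ≤ M := by
    intro j
    have h1 : JS (Ici 0) (fun t => iteratedDeriv j (u t)) :=
      (hSl (n + 1) (Ici 0) u itv0 hu.sol.smooth).2 j
    have h2 : ContinuousOn (fun z : ℝ × ℝ => nsq (iteratedDeriv j (u z.1) z.2))
        (Icc (0 : ℝ) (T / 2) ×ˢ Icc 0 (2 * Real.pi)) := by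
      refine nsq_cont.comp_continuousOn (h1.continuousOn.mono ?_)
      exact prod_mono Icc_subset_Ici_self (subset_univ _)
    obtain ⟨M, hM⟩ := (isCompact_Icc.prod isCompact_Icc).exists_bound_of_continuousOn h2
    refine ⟨M, fun t ht x => ?_⟩
    have ht' : t ∈ Ici (0 : ℝ) := ht.1
    obtain ⟨y, hy, hxy⟩ := (per_D (hu.con t ht').periodic j).exists_mem_Ico₀
      (by positivity : 0 < 2 * Real.pi) x
    rw [hxy]
    exact (le_abs_self _).trans (hM (t, y) ⟨ht, hy.1, hy.2.le⟩)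
  obtain ⟨M0, hM0⟩ := hcomp 0
  obtain ⟨-, -, -, A, hA, hAg⟩ := hIso n σ M0 hσ
  obtain ⟨-, -, -, A', hA', hAg'⟩ := hIso n σ (C 0) hσ
  intro j
  obtain ⟨M, hM⟩ := hcomp j
  refine ⟨max (A * M) (A' * C j), fun t ht g hg hge x => ?_⟩
  have ht0 : (0 : ℝ) ≤ t := ht
  have husm := (hu.con t ht).smooth
  rcases le_total t (T / 2) with htT | htT
  · have h1 : iteratedDeriv j (fun y => g (u t y)) x = g (iteratedDeriv j (u t) x) :=
      (hInv n σ g hσ hg).1 (u t) husm j x
    rw [h1]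
    have h2 : nsq (u t 0) ≤ M0 := by
      have := hM0 t ⟨ht0, htT⟩ 0
      rwa [iteratedDeriv_zero] at this
    calc nsq (g (iteratedDeriv j (u t) x)) ≤ A * nsq (iteratedDeriv j (u t) x) :=
          hAg g hg (u t 0) h2 hge _
      _ ≤ A * M := mul_le_mul_of_nonneg_left (hM t ⟨ht0, htT⟩ x) hA.le
      _ ≤ _ := le_max_left _ _
  · have ha : t - T / 2 ∈ Ici (0 : ℝ) := by
      show 0 ≤ t - T / 2
      linarith
    obtain ⟨ga, hga, hgae⟩ := hiso1 (u (t - T / 2) 0) ((hu.con _ ha).mem 0)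
    obtain ⟨h, hh, hh1, -⟩ := hiso2 ga hga
    have hl := hlate (t - T / 2) ha ga hga hgae
    rw [sub_add_cancel] at hl
    have hk : IsIso σ (g.comp h) := iso_comp hg hh
    have hke : (g.comp h) (ga (u t 0)) = e0 n := by
      rw [LinearMap.comp_apply, hh1, hge]
    have hq : nsq (ga (u t 0)) ≤ C 0 := by
      have := hl 0 0
      rwa [iteratedDeriv_zero] at this
    have h1 : iteratedDeriv j (fun y => g (u t y)) x =
        (g.comp h) (iteratedDeriv j (fun y => ga (u t y)) x) := by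
      rw [(hInv n σ g hσ hg).1 (u t) husm j x, (hInv n σ ga hσ hga).1 (u t) husm j x,
        LinearMap.comp_apply, hh1]
    rw [h1]
    calc _ ≤ A' * nsq (iteratedDeriv j (fun y => ga (u t y)) x) :=
          hAg' (g.comp h) hk (ga (u t 0)) hq hke _
      _ ≤ A' * C j := mul_le_mul_of_nonneg_left (hl j x) hA'.le
      _ ≤ _ := le_max_right _ _

end Pool.Agent.Work.MP_4a14ce_an

end

section

/-!
# MP_4a14ce_an, item E3: compactness of bounded sets of smooth closed curves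
-/

open Set MeasureTheory Topology Filter
open scoped ContDiff

namespace Pool.Agent.Work.MP_4a14ce_an

theorem compact_norm_le {n : ℕ} {v : V n} {C : ℝ} (h : nsq v ≤ C) : ‖v‖ ≤ Real.sqrt C := by
  rw [pi_norm_le_iff_of_nonneg (Real.sqrt_nonneg C)]
  intro i
  rw [Real.norm_eq_abs]
  refine Real.abs_le_sqrt (le_trans ?_ h)
  exact Finset.single_le_sum (f := fun i => v i ^ 2) (fun i _ => sq_nonneg _) (Finset.mem_univ i)

theorem compact_periodic {n : ℕ} {f : ℝ → V n} {T : ℝ} (h : Function.Periodic f T) (j : ℕ) :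
    Function.Periodic (iteratedDeriv j f) T := by
  intro x
  have h1 : (fun y => f (y + T)) = f := funext h
  have h2 := congrFun (iteratedDeriv_comp_add_const j f T) x
  rw [h1] at h2
  exact h2.symm

theorem claimCompact : ClaimCompact := by
  intro n f hf hper hbd
  have hpi : (0 : ℝ) < 2 * Real.pi := by positivity
  set K : Set ℝ := Icc 0 (2 * Real.pi) with hK
  choose C hC using hbd
  -- the derivatives
  have hcont : ∀ j k, Continuous (iteratedDeriv j (f k)) := fun j k =>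
    (hf k).continuous_iteratedDeriv j (by exact_mod_cast le_top)
  have hder : ∀ j k x, HasDerivAt (iteratedDeriv j (f k)) (iteratedDeriv (j + 1) (f k) x) x := by
    intro j k x
    have h1 : Differentiable ℝ (iteratedDeriv j (f k)) :=
      (hf k).differentiable_iteratedDeriv j (by exact_mod_cast ENat.natCast_lt_top j)
    rw [iteratedDeriv_succ]
    exact (h1 x).hasDerivAt
  have hbound : ∀ j k x, ‖iteratedDeriv j (f k) x‖ ≤ Real.sqrt (C j) := fun j k x =>
    compact_norm_le (hC j k x)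
  have hlip : ∀ j k, LipschitzWith (Real.toNNReal (Real.sqrt (C (j + 1))))
      (iteratedDeriv j (f k)) := by
    intro j k
    refine lipschitzWith_of_nnnorm_deriv_le (fun x => (hder j k x).differentiableAt) fun x => ?_
    rw [(hder j k x).deriv]
    rw [← NNReal.coe_le_coe, coe_nnnorm, Real.coe_toNNReal _ (Real.sqrt_nonneg _)]
    exact hbound (j + 1) k x
  -- the sequences in the function spaces
  set F : ℕ → ℕ → BoundedContinuousFunction K (V n) := fun k j =>
    BoundedContinuousFunction.mkOfCompact ⟨fun x => iteratedDeriv j (f k) x,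
      (hcont j k).comp continuous_subtype_val⟩ with hF
  have hcomp : ∀ j, IsCompact (closure (range fun k => F k j)) := by
    intro j
    refine BoundedContinuousFunction.arzela_ascoli (Metric.closedBall 0 (Real.sqrt (C j)))
      (isCompact_closedBall _ _) _ ?_ ?_
    · rintro g x ⟨k, rfl⟩
      rw [mem_closedBall_zero_iff]
      exact hbound j k x
    · have h1 : ∀ g : range fun k => F k j,
          LipschitzWith (Real.toNNReal (Real.sqrt (C (j + 1)))) (g : K → V n) := by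
        rintro ⟨g, k, rfl⟩
        have h2 := (hlip j k).comp (LipschitzWith.subtype_val K)
        rw [mul_one] at h2
        exact h2
      exact (LipschitzWith.uniformEquicontinuous _ _ h1).equicontinuous
  have hseq : IsSeqCompact (Set.pi univ fun j => closure (range fun k => F k j)) :=
    (isCompact_univ_pi hcomp).isSeqCompact
  obtain ⟨G, _, φ, hφ, hlim⟩ := hseq (x := F) fun k j _ => subset_closure ⟨k, rfl⟩
  rw [tendsto_pi_nhds] at hlim
  -- the limits on the line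
  set r : ℝ → K := fun x => ⟨toIcoMod hpi 0 x, by
    have h := toIcoMod_mem_Ico hpi 0 x
    rw [zero_add] at h
    exact ⟨h.1, h.2.le⟩⟩ with hr
  set g : ℕ → ℝ → V n := fun j x => G j (r x) with hg
  have hper' : ∀ j k x, iteratedDeriv j (f k) x = F k j (r x) := by
    intro j k x
    have h1 := compact_periodic (hper k) j
    have h2 : toIcoMod hpi 0 x = x - toIcoDiv hpi 0 x • (2 * Real.pi) := rfl
    show iteratedDeriv j (f k) x = iteratedDeriv j (f k) (toIcoMod hpi 0 x)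
    rw [h2, h1.sub_zsmul_eq]
  have hunif : ∀ j, TendstoUniformly (fun k x => iteratedDeriv j (f (φ k)) x) (g j) atTop := by
    intro j
    have h1 := BoundedContinuousFunction.tendsto_iff_tendstoUniformly.1 (hlim j)
    rw [Metric.tendstoUniformly_iff] at h1 ⊢
    intro ε hε
    filter_upwards [h1 ε hε] with k hk x
    have := hk (r x)
    rw [hper' j (φ k) x]
    exact this
  have hgder : ∀ j x, HasDerivAt (g j) (g (j + 1) x) x := by
    intro j x
    refine hasDerivAt_of_tendstoUniformly (hunif (j + 1))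
      (Eventually.of_forall fun k x => hder j (φ k) x) (fun x => (hunif j).tendsto_at x) x
  have hit : ∀ j, iteratedDeriv j (g 0) = g j := by
    intro j
    induction j with
    | zero => simp
    | succ j ih =>
      rw [iteratedDeriv_succ, ih]
      funext x
      exact (hgder j x).deriv
  refine ⟨φ, g 0, hφ, ?_, ?_, ?_⟩
  · refine contDiff_of_differentiable_iteratedDeriv (n := ⊤) fun m _ => ?_
    rw [hit m]
    exact fun x => (hgder m x).differentiableAt
  · intro x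
    show G 0 (r (x + 2 * Real.pi)) = G 0 (r x)
    have : r (x + 2 * Real.pi) = r x := by
      rw [hr]
      simp [toIcoMod_add_right]
    rw [this]
  · intro j
    rw [hit j]
    exact hunif j

end Pool.Agent.Work.MP_4a14ce_an

end

section

/-!
# Rules for the bilinear form and identities of constrained curves
-/

open Set MeasureTheory Topology Filter
open scoped ContDiff

namespace Pool.Agent.Work.MP_4a14ce_an

variable {n : ℕ}

theorem ConId_comm (σ : ℝ) (x y : V n) : B σ x y = B σ y x := by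
  unfold B
  simp only [mul_comm]

theorem ConId_add_left (σ : ℝ) (x y z : V n) : B σ (x + y) z = B σ x z + B σ y z := by
  unfold B
  simp only [Pi.add_apply, add_mul, Finset.sum_add_distrib, mul_add]
  ring

theorem ConId_smul_left (σ c : ℝ) (x y : V n) : B σ (c • x) y = c * B σ x y := by
  unfold B
  simp only [Pi.smul_apply, smul_eq_mul, mul_add, Finset.mul_sum]
  congr 1
  · ring
  · refine Finset.sum_congr rfl (fun i _ => ?_)
    ring

theorem ConId_deriv (σ : ℝ) (f g f' g' : ℝ → V n) (s : Set ℝ) (x : ℝ)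
    (hf : HasDerivWithinAt f (f' x) s x) (hg : HasDerivWithinAt g (g' x) s x) :
    HasDerivWithinAt (fun y => B σ (f y) (g y)) (B σ (f' x) (g x) + B σ (f x) (g' x)) s x := by
  have hf1 := hasDerivWithinAt_pi.1 hf
  have hg1 := hasDerivWithinAt_pi.1 hg
  unfold B
  have h0 := ((hf1 0).mul (hg1 0)).const_mul σ
  have h1 : HasDerivWithinAt (fun y => ∑ i : Fin n, f y i.succ * g y i.succ)
      (∑ i : Fin n, (f' x i.succ * g x i.succ + f x i.succ * g' x i.succ)) s x :=
    HasDerivWithinAt.fun_sum (fun i _ => (hf1 i.succ).mul (hg1 i.succ))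
  refine (h0.add h1).congr_deriv ?_
  rw [Finset.sum_add_distrib]
  ring

theorem ConId_abs (σ : ℝ) (hσ : Sgn σ) (x y : V n) :
    |B σ x y| ≤ Real.sqrt (nsq x) * Real.sqrt (nsq y) := by
  have hs : σ ^ 2 = 1 := by rcases hσ with rfl | rfl <;> norm_num
  set z : V n := Fin.cons (σ * y 0) (fun i : Fin n => y i.succ) with hz
  have h1 : B σ x y = ∑ i, x i * z i := by
    rw [Fin.sum_univ_succ]
    unfold B
    rw [hz]
    simp only [Fin.cons_zero, Fin.cons_succ]
    ring
  have h2 : ∑ i, z i ^ 2 = nsq y := by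
    unfold nsq
    rw [Fin.sum_univ_succ, Fin.sum_univ_succ, hz]
    simp only [Fin.cons_zero, Fin.cons_succ, mul_pow, hs, one_mul]
  have h3 : (B σ x y) ^ 2 ≤ nsq x * nsq y := by
    rw [h1, ← h2]
    exact Finset.sum_mul_sq_le_sq_mul_sq _ _ _
  rw [← Real.sqrt_mul (by unfold nsq; positivity)]
  exact Real.abs_le_sqrt h3

theorem bRules : BRules := fun _ σ => ⟨fun x y => ConId_comm σ x y,
  fun x y z => ConId_add_left σ x y z, fun c x y => ConId_smul_left σ c x y,
  fun f g f' g' s x hf hg => ConId_deriv σ f g f' g' s x hf hg,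
  fun x y hσ => ConId_abs σ hσ x y⟩

/-- derivative of the iterated derivatives -/
theorem ConId_hasDeriv {u : ℝ → V n} (hu : ContDiff ℝ ∞ u) (j : ℕ) (x : ℝ) :
    HasDerivAt (iteratedDeriv j u) (iteratedDeriv (j + 1) u x) x := by
  have h1 : Differentiable ℝ (iteratedDeriv j u) :=
    hu.differentiable_iteratedDeriv j (by exact_mod_cast WithTop.coe_lt_top _)
  rw [iteratedDeriv_succ]
  exact (h1 x).hasDerivAt

theorem ConId_hasDerivB {u : ℝ → V n} (hu : ContDiff ℝ ∞ u) (σ : ℝ) (j k : ℕ) (x : ℝ) :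
    HasDerivAt (fun y => B σ (iteratedDeriv j u y) (iteratedDeriv k u y))
      (B σ (iteratedDeriv (j + 1) u x) (iteratedDeriv k u x) +
        B σ (iteratedDeriv j u x) (iteratedDeriv (k + 1) u x)) x := by
  rw [← hasDerivWithinAt_univ]
  exact ConId_deriv σ _ _ (iteratedDeriv (j + 1) u) (iteratedDeriv (k + 1) u) univ x
    (ConId_hasDeriv hu j x).hasDerivWithinAt (ConId_hasDeriv hu k x).hasDerivWithinAt

theorem ConId_continuousB {u : ℝ → V n} (hu : ContDiff ℝ ∞ u) (σ : ℝ) (j k : ℕ) :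
    Continuous (fun y => B σ (iteratedDeriv j u y) (iteratedDeriv k u y)) :=
  continuous_iff_continuousAt.2 (fun x => (ConId_hasDerivB hu σ j k x).continuousAt)

theorem ConId_const {f : ℝ → ℝ} {f' c x : ℝ} (h : HasDerivAt f f' x) (hc : ∀ y, f y = c) :
    f' = 0 := by
  have h1 : f = fun _ => c := funext hc
  rw [h1] at h
  exact h.unique (hasDerivAt_const x c)

theorem conIds : ConIds := by
  intro n σ p u hσ hu
  have hs := hu.smooth
  set D : ℕ → ℝ → V n := fun j => iteratedDeriv j u with hD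
  have hB := fun j k x => ConId_hasDerivB hs σ j k x
  have hc := fun x y : V n => ConId_comm σ x y
  have h00 : ∀ x, B σ (iteratedDeriv 0 u x) (iteratedDeriv 0 u x) = σ := fun x => by
    rw [iteratedDeriv_zero]; exact (hu.mem x).1
  have h11 : ∀ x, B σ (iteratedDeriv 1 u x) (iteratedDeriv 1 u x) = p := fun x => by
    rw [iteratedDeriv_one]; exact hu.speed x
  have h01 : ∀ x, B σ (iteratedDeriv 0 u x) (iteratedDeriv 1 u x) = 0 := fun x => by
    have := ConId_const (hB 0 0 x) h00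
    rw [hc (iteratedDeriv (0 + 1) u x)] at this
    simp only [zero_add] at this
    linarith
  have h12 : ∀ x, B σ (iteratedDeriv 1 u x) (iteratedDeriv 2 u x) = 0 := fun x => by
    have := ConId_const (hB 1 1 x) h11
    rw [hc (iteratedDeriv (1 + 1) u x)] at this
    simp only [show 1 + 1 = 2 from rfl] at this
    linarith
  have h02 : ∀ x, B σ (iteratedDeriv 0 u x) (iteratedDeriv 2 u x) = -p := fun x => by
    have := ConId_const (hB 0 1 x) h01
    simp only [zero_add, show 1 + 1 = 2 from rfl] at this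
    linarith [h11 x]
  have h03 : ∀ x, B σ (iteratedDeriv 0 u x) (iteratedDeriv 3 u x) = 0 := fun x => by
    have := ConId_const (hB 0 2 x) h02
    simp only [zero_add, show 2 + 1 = 3 from rfl] at this
    linarith [h12 x]
  have h13 : ∀ x, B σ (iteratedDeriv 1 u x) (iteratedDeriv 3 u x) =
      - B σ (iteratedDeriv 2 u x) (iteratedDeriv 2 u x) := fun x => by
    have := ConId_const (hB 1 2 x) h12
    simp only [show 1 + 1 = 2 from rfl, show 2 + 1 = 3 from rfl] at this
    linarith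
  have h04 : ∀ x, B σ (iteratedDeriv 0 u x) (iteratedDeriv 4 u x) =
      B σ (iteratedDeriv 2 u x) (iteratedDeriv 2 u x) := fun x => by
    have := ConId_const (hB 0 3 x) h03
    simp only [zero_add, show 3 + 1 = 4 from rfl] at this
    linarith [h13 x]
  have h14 : ∀ x, B σ (iteratedDeriv 1 u x) (iteratedDeriv 4 u x) =
      -3 * B σ (iteratedDeriv 2 u x) (iteratedDeriv 3 u x) := fun x => by
    have h1 := (hB 1 3 x).add (hB 2 2 x)
    have h2 := ConId_const h1 (c := 0) (fun y => by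
      simp only [Pi.add_apply]
      linarith [h13 y])
    simp only [show 1 + 1 = 2 from rfl, show 3 + 1 = 4 from rfl, show 2 + 1 = 3 from rfl] at h2
    rw [hc (iteratedDeriv 3 u x) (iteratedDeriv 2 u x)] at h2
    linarith
  intro x
  refine ⟨by simpa [iteratedDeriv_zero] using h00 x, by simpa [iteratedDeriv_zero] using h01 x,
    h11 x, by simpa [iteratedDeriv_zero] using h02 x, h12 x,
    by simpa [iteratedDeriv_zero] using h03 x, h13 x, by simpa [iteratedDeriv_zero] using h04 x,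
    h14 x⟩

end Pool.Agent.Work.MP_4a14ce_an

end

section

/-!
# Item A5: propagation of the constraints
-/

open Set MeasureTheory Topology Filter
open scoped ContDiff

namespace Pool.Agent.Work.MP_4a14ce_an

variable {n : ℕ} {σ : ℝ}

/-! ### The bilinear form -/

lemma cstr_B_symm (x y : V n) : B σ x y = B σ y x := by
  simp only [B]
  congr 1
  · ring
  · exact Finset.sum_congr rfl (fun i _ => mul_comm _ _)

lemma cstr_B_add (z x y : V n) : B σ z (x + y) = B σ z x + B σ z y := by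
  simp only [B, Pi.add_apply, mul_add, Finset.sum_add_distrib]
  ring

lemma cstr_B_smul (c : ℝ) (z x : V n) : B σ z (c • x) = c * B σ z x := by
  simp only [B, Pi.smul_apply, smul_eq_mul, mul_add, Finset.mul_sum]
  congr 1
  · ring
  · exact Finset.sum_congr rfl (fun i _ => by ring)

lemma cstr_B_sub (z x y : V n) : B σ z (x - y) = B σ z x - B σ z y := by
  have : x - y = x + (-1 : ℝ) • y := by simp [sub_eq_add_neg]
  rw [this, cstr_B_add, cstr_B_smul]
  ring

lemma cstr_B_le (hσ : Sgn σ) (x y : V n) : |B σ x y| ≤ (n + 1) * (‖x‖ * ‖y‖) := by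
  have hs : |σ| = 1 := by rcases hσ with h | h <;> simp [h]
  have h1 : ∀ i : Fin (n + 1), |x i * y i| ≤ ‖x‖ * ‖y‖ := by
    intro i
    rw [abs_mul]
    have h2 : |x i| ≤ ‖x‖ := norm_le_pi_norm x i
    have h3 : |y i| ≤ ‖y‖ := norm_le_pi_norm y i
    exact mul_le_mul h2 h3 (abs_nonneg _) (norm_nonneg _)
  have h4 : |∑ i : Fin n, x i.succ * y i.succ| ≤ n * (‖x‖ * ‖y‖) := by
    refine (Finset.abs_sum_le_sum_abs _ _).trans ?_
    refine (Finset.sum_le_sum (fun i _ => h1 i.succ)).trans ?_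
    simp
  have h5 : |σ * (x 0 * y 0)| ≤ ‖x‖ * ‖y‖ := by
    rw [abs_mul, hs, one_mul]; exact h1 0
  calc |B σ x y| ≤ |σ * (x 0 * y 0)| + |∑ i : Fin n, x i.succ * y i.succ| := abs_add_le _ _
    _ ≤ ‖x‖ * ‖y‖ + n * (‖x‖ * ‖y‖) := add_le_add h5 h4
    _ = _ := by ring

lemma cstr_B_hasDerivWithinAt {f g : ℝ → V n} {f' g' : V n} {s : Set ℝ} {x : ℝ}
    (hf : HasDerivWithinAt f f' s x) (hg : HasDerivWithinAt g g' s x) :
    HasDerivWithinAt (fun y => B σ (f y) (g y)) (B σ f' (g x) + B σ (f x) g') s x := by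
  rw [hasDerivWithinAt_pi] at hf hg
  have h0 := ((hf 0).mul (hg 0)).const_mul σ
  have h1 : HasDerivWithinAt (fun y => ∑ i : Fin n, f y i.succ * g y i.succ)
      (∑ i : Fin n, (f' i.succ * g x i.succ + f x i.succ * g' i.succ)) s x :=
    HasDerivWithinAt.fun_sum (fun i _ => (hf i.succ).mul (hg i.succ))
  have h2 := h0.add h1
  simp only [B]
  refine h2.congr_deriv ?_
  rw [Finset.sum_add_distrib]
  ring

lemma cstr_B_hasDerivAt {f g : ℝ → V n} {f' g' : V n} {x : ℝ}
    (hf : HasDerivAt f f' x) (hg : HasDerivAt g g' x) :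
    HasDerivAt (fun y => B σ (f y) (g y)) (B σ f' (g x) + B σ (f x) g') x := by
  rw [← hasDerivWithinAt_univ] at hf hg ⊢
  exact cstr_B_hasDerivWithinAt hf hg

/-! ### One curve -/

section slice

variable {p m : ℝ} {u : ℝ → V n}

lemma cstr_D (hu : ContDiff ℝ ∞ u) (j : ℕ) (x : ℝ) :
    HasDerivAt (iteratedDeriv j u) (iteratedDeriv (j + 1) u x) x := by
  rw [iteratedDeriv_succ]
  apply DifferentiableAt.hasDerivAt
  exact (hu.differentiable_iteratedDeriv j (by exact_mod_cast (WithTop.coe_lt_top j))) x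

lemma cstr_b (hu : ContDiff ℝ ∞ u) (i j : ℕ) (x : ℝ) :
    HasDerivAt (fun y => B σ (iteratedDeriv i u y) (iteratedDeriv j u y))
      (B σ (iteratedDeriv (i + 1) u x) (iteratedDeriv j u x) +
        B σ (iteratedDeriv i u x) (iteratedDeriv (j + 1) u x)) x :=
  cstr_B_hasDerivAt (cstr_D hu i x) (cstr_D hu j x)

lemma cstr_b_cont (hu : ContDiff ℝ ∞ u) (i j : ℕ) :
    Continuous (fun y => B σ (iteratedDeriv i u y) (iteratedDeriv j u y)) :=
  continuous_iff_continuousAt.mpr (fun x => (cstr_b hu i j x).continuousAt)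

lemma cstr_rho (hu : ContDiff ℝ ∞ u) (x : ℝ) : HasDerivAt (rho σ p u) (rhox σ u x) x := by
  have h := (cstr_b (σ := σ) hu 2 2 x).sub_const (σ * p ^ 2)
  refine h.congr_deriv ?_
  rw [rhox, cstr_B_symm (iteratedDeriv (2 + 1) u x)]
  ring

lemma cstr_rhox (hu : ContDiff ℝ ∞ u) (x : ℝ) : HasDerivAt (rhox σ u)
    (2 * (B σ (iteratedDeriv 3 u x) (iteratedDeriv 3 u x) +
      B σ (iteratedDeriv 2 u x) (iteratedDeriv 4 u x))) x :=
  (cstr_b (σ := σ) hu 2 3 x).const_mul 2

lemma cstr_rho_cont (hu : ContDiff ℝ ∞ u) : Continuous (rho σ p u) :=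
  continuous_iff_continuousAt.mpr (fun x => (cstr_rho hu x).continuousAt)

lemma cstr_hh_cont (hu : ContDiff ℝ ∞ u) : Continuous (hh σ p m u) := by
  have h1 : Continuous (eta σ p u) :=
    ((cstr_b_cont hu 3 3).sub (continuous_const.mul (cstr_b_cont hu 2 2))).add continuous_const
  have h2 : Continuous (rho σ p u) := cstr_rho_cont hu
  exact ((continuous_const.mul h1).sub (continuous_const.mul (h2.pow 2))).sub
    (continuous_const.mul h2)

/-- derivative of `alpha` -/
noncomputable def cstrAx (σ p m : ℝ) (u : ℝ → V n) (x : ℝ) : ℝ :=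
  -4 * m * (2 * (B σ (iteratedDeriv 3 u x) (iteratedDeriv 3 u x) +
      B σ (iteratedDeriv 2 u x) (iteratedDeriv 4 u x))) + (hh σ p m u x - mu σ p m u)

lemma cstr_alpha (hu : ContDiff ℝ ∞ u) (x : ℝ) :
    HasDerivAt (alpha σ p m u) (cstrAx σ p m u x) x := by
  have h1 := (cstr_rhox (σ := σ) hu x).const_mul (-4 * m)
  have hc : Continuous (fun y => hh σ p m u y - mu σ p m u) :=
    (cstr_hh_cont hu).sub continuous_const
  have h2 : HasDerivAt (fun x => ∫ y in (0 : ℝ)..x, (hh σ p m u y - mu σ p m u))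
      (hh σ p m u x - mu σ p m u) x :=
    intervalIntegral.integral_hasDerivAt_right (hc.intervalIntegrable _ _)
      (hc.stronglyMeasurableAtFilter _ _) hc.continuousAt
  have h3 := (h1.add_const (m * rhox σ u 0)).add h2
  exact h3

lemma cstr_beta (hu : ContDiff ℝ ∞ u) (x : ℝ) :
    HasDerivAt (beta σ p m u) (3 * m * rhox σ u x) x :=
  ((cstr_rho (σ := σ) (p := p) hu x).const_mul (3 * m)).add_const ((2 * σ - 1) * p)

/-- derivative of `rhs` -/
noncomputable def cstrRx (σ p m : ℝ) (u : ℝ → V n) (x : ℝ) : V n :=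
  -(2 : ℝ) • iteratedDeriv 5 u x - (2 * σ * p) • iteratedDeriv 3 u x
    + (alpha σ p m u x • iteratedDeriv 2 u x + cstrAx σ p m u x • iteratedDeriv 1 u x)
    + ((2 * σ * rho σ p u x) • iteratedDeriv 1 u x + (2 * σ * rhox σ u x) • iteratedDeriv 0 u x)
    - (beta σ p m u x • (iteratedDeriv 3 u x + (σ * p) • iteratedDeriv 1 u x)
      + (3 * m * rhox σ u x) • (iteratedDeriv 2 u x + (σ * p) • iteratedDeriv 0 u x))

lemma cstr_rhs (hu : ContDiff ℝ ∞ u) (x : ℝ) :
    HasDerivAt (rhs σ p m u) (cstrRx σ p m u x) x := by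
  have h0 : HasDerivAt u (iteratedDeriv 1 u x) x := by
    have := cstr_D hu 0 x
    rwa [iteratedDeriv_zero] at this
  have h1 := (cstr_D hu 4 x).const_smul (-(2 : ℝ))
  have h2 := (cstr_D hu 2 x).const_smul (2 * σ * p)
  have h3 := (cstr_alpha (σ := σ) (p := p) (m := m) hu x).smul (cstr_D hu 1 x)
  have h4 := ((cstr_rho (σ := σ) (p := p) hu x).const_mul (2 * σ)).smul h0
  have h5 := (cstr_beta (σ := σ) (p := p) (m := m) hu x).smul
    ((cstr_D hu 2 x).add (h0.const_smul (σ * p)))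
  have h6 := (((h1.sub h2).add h3).add h4).sub h5
  rw [cstrRx, iteratedDeriv_zero]
  exact h6

/-- the defects -/
noncomputable def cstrF (σ p : ℝ) (u : ℝ → V n) (x : ℝ) : Fin 2 → ℝ :=
  ![B σ (u x) (u x) - σ, B σ (iteratedDeriv 1 u x) (iteratedDeriv 1 u x) - p]

noncomputable def cstrF1 (σ : ℝ) (u : ℝ → V n) (x : ℝ) : Fin 2 → ℝ :=
  ![2 * B σ (iteratedDeriv 0 u x) (iteratedDeriv 1 u x),
    2 * B σ (iteratedDeriv 1 u x) (iteratedDeriv 2 u x)]

noncomputable def cstrF2 (σ : ℝ) (u : ℝ → V n) (x : ℝ) : Fin 2 → ℝ :=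
  ![2 * B σ (iteratedDeriv 0 u x) (iteratedDeriv 2 u x) +
      2 * B σ (iteratedDeriv 1 u x) (iteratedDeriv 1 u x),
    2 * B σ (iteratedDeriv 1 u x) (iteratedDeriv 3 u x) +
      2 * B σ (iteratedDeriv 2 u x) (iteratedDeriv 2 u x)]

noncomputable def cstrF3 (σ : ℝ) (u : ℝ → V n) (x : ℝ) : Fin 2 → ℝ :=
  ![2 * B σ (iteratedDeriv 0 u x) (iteratedDeriv 3 u x) +
      6 * B σ (iteratedDeriv 1 u x) (iteratedDeriv 2 u x),
    2 * B σ (iteratedDeriv 1 u x) (iteratedDeriv 4 u x) +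
      6 * B σ (iteratedDeriv 2 u x) (iteratedDeriv 3 u x)]

noncomputable def cstrF4 (σ : ℝ) (u : ℝ → V n) (x : ℝ) : Fin 2 → ℝ :=
  ![2 * B σ (iteratedDeriv 0 u x) (iteratedDeriv 4 u x) +
      8 * B σ (iteratedDeriv 1 u x) (iteratedDeriv 3 u x) +
      6 * B σ (iteratedDeriv 2 u x) (iteratedDeriv 2 u x),
    2 * B σ (iteratedDeriv 1 u x) (iteratedDeriv 5 u x) +
      8 * B σ (iteratedDeriv 2 u x) (iteratedDeriv 4 u x) +
      6 * B σ (iteratedDeriv 3 u x) (iteratedDeriv 3 u x)]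

lemma cstr_vec {a b : ℝ → ℝ} {a' b' x : ℝ} (ha : HasDerivAt a a' x) (hb : HasDerivAt b b' x) :
    HasDerivAt (fun y => ![a y, b y]) ![a', b'] x := by
  rw [hasDerivAt_pi]
  intro i
  fin_cases i
  · exact ha
  · exact hb

lemma cstr_F (hu : ContDiff ℝ ∞ u) (x : ℝ) : HasDerivAt (cstrF σ p u) (cstrF1 σ u x) x := by
  have h0 := (cstr_b (σ := σ) hu 0 0 x).sub_const σ
  have h1 := (cstr_b (σ := σ) hu 1 1 x).sub_const p
  rw [iteratedDeriv_zero] at h0
  refine (cstr_vec h0 h1).congr_deriv ?_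
  rw [cstrF1, iteratedDeriv_zero]
  simp only [zero_add]
  rw [cstr_B_symm (iteratedDeriv 1 u x) (u x), cstr_B_symm (iteratedDeriv (1 + 1) u x)]
  ext i
  fin_cases i
  · simp only [Fin.zero_eta, Matrix.cons_val_zero]; ring
  · simp only [Fin.mk_one, Matrix.cons_val_one, Matrix.cons_val_fin_one]; ring

lemma cstr_F1 (hu : ContDiff ℝ ∞ u) (x : ℝ) : HasDerivAt (cstrF1 σ u) (cstrF2 σ u x) x := by
  have h0 := (cstr_b (σ := σ) hu 0 1 x).const_mul 2
  have h1 := (cstr_b (σ := σ) hu 1 2 x).const_mul 2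
  refine (cstr_vec h0 h1).congr_deriv ?_
  rw [cstrF2]
  ext i
  fin_cases i
  · simp only [Fin.zero_eta, Matrix.cons_val_zero]; ring
  · simp only [Fin.mk_one, Matrix.cons_val_one, Matrix.cons_val_fin_one]; ring

lemma cstr_F2 (hu : ContDiff ℝ ∞ u) (x : ℝ) : HasDerivAt (cstrF2 σ u) (cstrF3 σ u x) x := by
  have h0 := ((cstr_b (σ := σ) hu 0 2 x).const_mul 2).add
    ((cstr_b (σ := σ) hu 1 1 x).const_mul 2)
  have h1 := ((cstr_b (σ := σ) hu 1 3 x).const_mul 2).add
    ((cstr_b (σ := σ) hu 2 2 x).const_mul 2)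
  refine (cstr_vec h0 h1).congr_deriv ?_
  rw [cstrF3]
  rw [cstr_B_symm (iteratedDeriv (1 + 1) u x) (iteratedDeriv 1 u x),
    cstr_B_symm (iteratedDeriv (2 + 1) u x) (iteratedDeriv 2 u x)]
  ext i
  fin_cases i
  · simp only [Fin.zero_eta, Matrix.cons_val_zero]; ring
  · simp only [Fin.mk_one, Matrix.cons_val_one, Matrix.cons_val_fin_one]; ring

lemma cstr_F3 (hu : ContDiff ℝ ∞ u) (x : ℝ) : HasDerivAt (cstrF3 σ u) (cstrF4 σ u x) x := by
  have h0 := ((cstr_b (σ := σ) hu 0 3 x).const_mul 2).add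
    ((cstr_b (σ := σ) hu 1 2 x).const_mul 6)
  have h1 := ((cstr_b (σ := σ) hu 1 4 x).const_mul 2).add
    ((cstr_b (σ := σ) hu 2 3 x).const_mul 6)
  refine (cstr_vec h0 h1).congr_deriv ?_
  rw [cstrF4]
  ext i
  fin_cases i
  · simp only [Fin.zero_eta, Matrix.cons_val_zero]; ring
  · simp only [Fin.mk_one, Matrix.cons_val_one, Matrix.cons_val_fin_one]; ring

lemma cstr_iter (hu : ContDiff ℝ ∞ u) :
    iteratedDeriv 1 (cstrF σ p u) = cstrF1 σ u ∧ iteratedDeriv 2 (cstrF σ p u) = cstrF2 σ u ∧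
      iteratedDeriv 4 (cstrF σ p u) = cstrF4 σ u := by
  have h1 : iteratedDeriv 1 (cstrF σ p u) = cstrF1 σ u := by
    rw [iteratedDeriv_one]; exact funext (fun x => (cstr_F hu x).deriv)
  have h2 : iteratedDeriv 2 (cstrF σ p u) = cstrF2 σ u := by
    rw [iteratedDeriv_succ, h1]; exact funext (fun x => (cstr_F1 hu x).deriv)
  have h3 : iteratedDeriv 3 (cstrF σ p u) = cstrF3 σ u := by
    rw [iteratedDeriv_succ, h2]; exact funext (fun x => (cstr_F2 hu x).deriv)
  have h4 : iteratedDeriv 4 (cstrF σ p u) = cstrF4 σ u := by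
    rw [iteratedDeriv_succ, h3]; exact funext (fun x => (cstr_F3 hu x).deriv)
  exact ⟨h1, h2, h4⟩

/-- the time derivative of the defects -/
noncomputable def cstrFt (σ p m : ℝ) (u : ℝ → V n) (x : ℝ) : Fin 2 → ℝ :=
  ![2 * B σ (u x) (rhs σ p m u x),
    2 * B σ (iteratedDeriv 1 u x) (cstrRx σ p m u x) + 2 * p * mu σ p m u]

lemma cstr_id0 (hσ : Sgn σ) (x : ℝ) :
    (cstrFt σ p m u x + (2 : ℝ) • cstrF4 σ u x) 0 =
      (4 * σ * rho σ p u x - 2 * beta σ p m u x * (σ * p)) * cstrF σ p u x 0 +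
      alpha σ p m u x * cstrF1 σ u x 0 +
      (-(2 * σ * p) - beta σ p m u x) * cstrF2 σ u x 0 +
      (4 * σ * p + 2 * beta σ p m u x) * cstrF σ p u x 1 + 0 * cstrF1 σ u x 1 +
      8 * cstrF2 σ u x 1 := by
  have hs : σ ^ 2 = 1 := by rcases hσ with h | h <;> simp [h]
  simp only [cstrFt, cstrF4, cstrF, cstrF1, cstrF2, rhs, iteratedDeriv_zero, cstr_B_add,
    cstr_B_sub, cstr_B_smul, Pi.add_apply, Pi.smul_apply, smul_eq_mul, Matrix.cons_val_zero,
    Matrix.cons_val_one, Matrix.cons_val_fin_one, rho]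
  linear_combination (4 * B σ (iteratedDeriv 2 u x) (iteratedDeriv 2 u x) -
    4 * σ * p ^ 2 - 2 * beta σ p m u x * p) * hs

lemma cstr_id1 (hσ : Sgn σ) (hpm : p * m = 1) (x : ℝ) :
    (cstrFt σ p m u x + (2 : ℝ) • cstrF4 σ u x) 1 =
      0 * cstrF σ p u x 0 +
      (2 * σ * rhox σ u x - 3 * m * rhox σ u x * (σ * p)) * cstrF1 σ u x 0 +
      0 * cstrF2 σ u x 0 +
      (2 * cstrAx σ p m u x + 4 * σ * rho σ p u x - 2 * beta σ p m u x * (σ * p)) *
        cstrF σ p u x 1 +
      (alpha σ p m u x - 3 * m * rhox σ u x) * cstrF1 σ u x 1 +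
      (-(2 * σ * p) - beta σ p m u x) * cstrF2 σ u x 1 := by
  have hs : σ ^ 2 = 1 := by rcases hσ with h | h <;> simp [h]
  have h10 : B σ (iteratedDeriv 1 u x) (u x) = B σ (u x) (iteratedDeriv 1 u x) :=
    cstr_B_symm _ _
  simp only [cstrFt, cstrF4, cstrF, cstrF1, cstrF2, cstrRx, iteratedDeriv_zero, cstr_B_add,
    cstr_B_sub, cstr_B_smul, Pi.add_apply, Pi.smul_apply, smul_eq_mul, Matrix.cons_val_zero,
    Matrix.cons_val_one, Matrix.cons_val_fin_one, h10]
  simp only [cstrAx, beta, hh, eta, rho]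
  linear_combination (-(16 * B σ (iteratedDeriv 2 u x) (iteratedDeriv 4 u x) +
    12 * B σ (iteratedDeriv 3 u x) (iteratedDeriv 3 u x) +
    6 * m * (B σ (iteratedDeriv 2 u x) (iteratedDeriv 2 u x) - σ * p ^ 2) ^ 2 +
    8 * σ * p * B σ (iteratedDeriv 2 u x) (iteratedDeriv 2 u x) - 4 * p ^ 3)) * hpm -
    4 * p ^ 3 * hs

end slice


/-! ### Bounded coefficients -/

/-- bounded on `[0, T] × [0, 2π]` -/
def CstrBd (T : ℝ) (f : ℝ → ℝ → ℝ) : Prop :=
  ∃ C, 0 ≤ C ∧ ∀ t ∈ Icc 0 T, ∀ x ∈ Icc 0 (2 * Real.pi), |f t x| ≤ C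

section bd

variable {T : ℝ} {f g : ℝ → ℝ → ℝ}

lemma CstrBd.const (c : ℝ) : CstrBd T (fun _ _ => c) := ⟨|c|, abs_nonneg _, fun _ _ _ _ => le_refl _⟩

lemma CstrBd.add (hf : CstrBd T f) (hg : CstrBd T g) : CstrBd T (fun t x => f t x + g t x) := by
  obtain ⟨C, hC, h1⟩ := hf
  obtain ⟨D, hD, h2⟩ := hg
  exact ⟨C + D, by positivity, fun t ht x hx => (abs_add_le _ _).trans
    (add_le_add (h1 t ht x hx) (h2 t ht x hx))⟩

lemma CstrBd.mul (hf : CstrBd T f) (hg : CstrBd T g) : CstrBd T (fun t x => f t x * g t x) := by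
  obtain ⟨C, hC, h1⟩ := hf
  obtain ⟨D, hD, h2⟩ := hg
  refine ⟨C * D, by positivity, fun t ht x hx => ?_⟩
  rw [abs_mul]
  exact mul_le_mul (h1 t ht x hx) (h2 t ht x hx) (abs_nonneg _) hC

lemma CstrBd.neg (hf : CstrBd T f) : CstrBd T (fun t x => -f t x) := by
  obtain ⟨C, hC, h1⟩ := hf
  exact ⟨C, hC, fun t ht x hx => by rw [abs_neg]; exact h1 t ht x hx⟩

lemma CstrBd.sub (hf : CstrBd T f) (hg : CstrBd T g) : CstrBd T (fun t x => f t x - g t x) := by
  have := hf.add hg.neg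
  simpa only [sub_eq_add_neg] using this

lemma CstrBd.pow (hf : CstrBd T f) (k : ℕ) : CstrBd T (fun t x => f t x ^ k) := by
  induction k with
  | zero => simpa using CstrBd.const (T := T) 1
  | succ k ih => simpa only [pow_succ] using ih.mul hf

lemma CstrBd.integral (hf : CstrBd T f) : CstrBd T (fun t x => ∫ y in (0 : ℝ)..x, f t y) := by
  obtain ⟨C, hC, h1⟩ := hf
  refine ⟨C * (2 * Real.pi), by positivity, fun t ht x hx => ?_⟩
  have h2 : ‖∫ y in (0 : ℝ)..x, f t y‖ ≤ C * |x - 0| := by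
    apply intervalIntegral.norm_integral_le_of_norm_le_const
    intro y hy
    rw [uIoc_of_le hx.1] at hy
    exact h1 t ht y ⟨hy.1.le, hy.2.trans hx.2⟩
  rw [Real.norm_eq_abs, sub_zero, abs_of_nonneg hx.1] at h2
  exact h2.trans (mul_le_mul_of_nonneg_left hx.2 hC)

lemma CstrBd.per (hf : CstrBd T f) : CstrBd T (fun t _ => per (f t)) := by
  obtain ⟨C, hC, h1⟩ := hf.integral
  exact ⟨C, hC, fun t ht x hx => h1 t ht (2 * Real.pi) ⟨by positivity, le_refl _⟩⟩

lemma CstrBd.of_continuousOn {a : ℝ → ℝ} (ha : ContinuousOn a (Icc 0 T)) :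
    CstrBd T (fun t _ => a t) := by
  obtain ⟨C, hC⟩ := isCompact_Icc.exists_bound_of_continuousOn ha
  exact ⟨max C 0, le_max_right _ _, fun t ht x _ => (hC t ht).trans (le_max_left _ _)⟩

lemma CstrBd.le (hf : CstrBd T f) : ∃ C, 0 ≤ C ∧ ∀ t ∈ Icc 0 T, ∀ x ∈ Icc 0 (2 * Real.pi),
    |f t x| ≤ C := hf

end bd

/-! ### Jointly smooth functions -/

lemma cstr_JS_B {I : Set ℝ} {f g : ℝ → ℝ → V n} (hf : JS I f) (hg : JS I g) :
    JS I (fun t x => B σ (f t x) (g t x)) := by
  have hf' := contDiffOn_pi.mp hf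
  have hg' := contDiffOn_pi.mp hg
  have h1 := (contDiffOn_const (c := σ)).mul ((hf' 0).mul (hg' 0))
  have h2 : ContDiffOn ℝ ∞ (fun z : ℝ × ℝ => ∑ i : Fin n, f z.1 z.2 i.succ * g z.1 z.2 i.succ)
      (I ×ˢ univ) := ContDiffOn.sum (fun i _ => (hf' i.succ).mul (hg' i.succ))
  exact h1.add h2

lemma cstr_Bd_B {T : ℝ} {f g : ℝ → ℝ → V n} (hf : JS (Icc 0 T) f) (hg : JS (Icc 0 T) g) :
    CstrBd T (fun t x => B σ (f t x) (g t x)) := by
  have h1 : ContinuousOn (fun z : ℝ × ℝ => B σ (f z.1 z.2) (g z.1 z.2))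
      (Icc 0 T ×ˢ univ) := (cstr_JS_B (σ := σ) hf hg).continuousOn
  have h2 := h1.mono (prod_mono (le_refl (Icc 0 T)) (subset_univ (Icc 0 (2 * Real.pi))))
  obtain ⟨C, hC⟩ := (isCompact_Icc.prod isCompact_Icc).exists_bound_of_continuousOn h2
  exact ⟨max C 0, le_max_right _ _, fun t ht x hx => (hC (t, x) ⟨ht, hx⟩).trans (le_max_left _ _)⟩

lemma cstr_periodic_iter {E : Type*} [NormedAddCommGroup E] [NormedSpace ℝ E] {f : ℝ → E} {c : ℝ}
    (hf : Function.Periodic f c) (j : ℕ) : Function.Periodic (iteratedDeriv j f) c := by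
  intro x
  have h1 : (fun y => f (y + c)) = f := funext hf
  have h2 := iteratedDeriv_comp_add_const j f c
  rw [h1] at h2
  exact (congrFun h2 x).symm


lemma cstr_lin {K N z1 z2 z3 z4 z5 z6 c1 c2 c3 c4 c5 c6 : ℝ} (hK : 0 ≤ K)
    (h1 : |z1| ≤ N) (h2 : |z2| ≤ N) (h3 : |z3| ≤ N) (h4 : |z4| ≤ N) (h5 : |z5| ≤ N)
    (h6 : |z6| ≤ N) (k1 : |c1| ≤ K) (k2 : |c2| ≤ K) (k3 : |c3| ≤ K) (k4 : |c4| ≤ K)
    (k5 : |c5| ≤ K) (k6 : |c6| ≤ K) :
    |c1 * z1 + c2 * z2 + c3 * z3 + c4 * z4 + c5 * z5 + c6 * z6| ≤ 6 * K * N := by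
  have key : ∀ {c z : ℝ}, |z| ≤ N → |c| ≤ K → |c * z| ≤ K * N := fun hz hc => by
    rw [abs_mul]
    exact mul_le_mul hc hz (abs_nonneg _) hK
  have e1 := key h1 k1
  have e2 := key h2 k2
  have e3 := key h3 k3
  have e4 := key h4 k4
  have e5 := key h5 k5
  have e6 := key h6 k6
  have t1 := abs_add_le (c1 * z1) (c2 * z2)
  have t2 := abs_add_le (c1 * z1 + c2 * z2) (c3 * z3)
  have t3 := abs_add_le (c1 * z1 + c2 * z2 + c3 * z3) (c4 * z4)
  have t4 := abs_add_le (c1 * z1 + c2 * z2 + c3 * z3 + c4 * z4) (c5 * z5)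
  have t5 := abs_add_le (c1 * z1 + c2 * z2 + c3 * z3 + c4 * z4 + c5 * z5) (c6 * z6)
  linarith

lemma cstr_coef {T : ℝ} {u : ℝ → ℝ → V n} {p m : ℝ → ℝ}
    (hjs : ∀ j : ℕ, JS (Icc 0 T) (fun t => iteratedDeriv j (u t)))
    (hp : ContinuousOn p (Icc 0 T)) (hm : ContinuousOn m (Icc 0 T)) :
    ∃ K, 0 ≤ K ∧ ∀ t ∈ Icc 0 T, ∀ x ∈ Icc 0 (2 * Real.pi),
      |4 * σ * rho σ (p t) (u t) x - 2 * beta σ (p t) (m t) (u t) x * (σ * p t)| ≤ K ∧
      |alpha σ (p t) (m t) (u t) x| ≤ K ∧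
      |-(2 * σ * p t) - beta σ (p t) (m t) (u t) x| ≤ K ∧
      |4 * σ * p t + 2 * beta σ (p t) (m t) (u t) x| ≤ K ∧
      |2 * σ * rhox σ (u t) x - 3 * m t * rhox σ (u t) x * (σ * p t)| ≤ K ∧
      |2 * cstrAx σ (p t) (m t) (u t) x + 4 * σ * rho σ (p t) (u t) x -
        2 * beta σ (p t) (m t) (u t) x * (σ * p t)| ≤ K ∧
      |alpha σ (p t) (m t) (u t) x - 3 * m t * rhox σ (u t) x| ≤ K ∧ 8 ≤ K := by
  have hb : ∀ i j : ℕ, CstrBd T
      (fun t x => B σ (iteratedDeriv i (u t) x) (iteratedDeriv j (u t) x)) :=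
    fun i j => cstr_Bd_B (hjs i) (hjs j)
  have bp : CstrBd T (fun t _ => p t) := CstrBd.of_continuousOn hp
  have bm : CstrBd T (fun t _ => m t) := CstrBd.of_continuousOn hm
  have c : ∀ a : ℝ, CstrBd T (fun _ _ => a) := fun a => CstrBd.const a
  have brho : CstrBd T (fun t x => rho σ (p t) (u t) x) := (hb 2 2).sub ((c σ).mul (bp.pow 2))
  have brhox : CstrBd T (fun t x => rhox σ (u t) x) := (c 2).mul (hb 2 3)
  have brhoxx : CstrBd T (fun t x => 2 * (B σ (iteratedDeriv 3 (u t) x) (iteratedDeriv 3 (u t) x) +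
      B σ (iteratedDeriv 2 (u t) x) (iteratedDeriv 4 (u t) x))) := (c 2).mul ((hb 3 3).add (hb 2 4))
  have beta' : CstrBd T (fun t x => eta σ (p t) (u t) x) :=
    ((hb 3 3).sub (((c (2 * σ)).mul bp).mul (hb 2 2))).add (bp.pow 3)
  have bbeta : CstrBd T (fun t x => beta σ (p t) (m t) (u t) x) :=
    (((c 3).mul bm).mul brho).add ((c (2 * σ - 1)).mul bp)
  have bhh : CstrBd T (fun t x => hh σ (p t) (m t) (u t) x) :=
    ((((c 2).mul bm).mul beta').sub (((c 3).mul (bm.pow 2)).mul (brho.pow 2))).sub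
      ((c (2 * σ - 1)).mul brho)
  have bmu : CstrBd T (fun t _ => mu σ (p t) (m t) (u t)) := (c (2 * Real.pi)⁻¹).mul bhh.per
  have balpha : CstrBd T (fun t x => alpha σ (p t) (m t) (u t) x) := by
    have h0 : CstrBd T (fun t _ => rhox σ (u t) 0) := by
      obtain ⟨C, hC, h⟩ := brhox
      exact ⟨C, hC, fun t ht x hx => h t ht 0 ⟨le_refl _, by positivity⟩⟩
    exact ((((c (-4)).mul bm).mul brhox).add (bm.mul h0)).add (bhh.sub bmu).integral
  have bax : CstrBd T (fun t x => cstrAx σ (p t) (m t) (u t) x) :=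
    (((c (-4)).mul bm).mul brhoxx).add (bhh.sub bmu)
  obtain ⟨K1, hK1, h1⟩ := ((c (4 * σ)).mul brho).sub (((c 2).mul bbeta).mul ((c σ).mul bp))
  obtain ⟨K2, hK2, h2⟩ := balpha
  obtain ⟨K3, hK3, h3⟩ := ((c (2 * σ)).mul bp).neg.sub bbeta
  obtain ⟨K4, hK4, h4⟩ := ((c (4 * σ)).mul bp).add ((c 2).mul bbeta)
  obtain ⟨K5, hK5, h5⟩ := ((c (2 * σ)).mul brhox).sub
    ((((c 3).mul bm).mul brhox).mul ((c σ).mul bp))
  obtain ⟨K6, hK6, h6⟩ := (((c 2).mul bax).add ((c (4 * σ)).mul brho)).sub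
    (((c 2).mul bbeta).mul ((c σ).mul bp))
  have balpha2 : CstrBd T (fun t x => alpha σ (p t) (m t) (u t) x) := ⟨K2, hK2, h2⟩
  obtain ⟨K7, hK7, h7⟩ := balpha2.sub (((c 3).mul bm).mul brhox)
  refine ⟨K1 + K2 + K3 + K4 + K5 + K6 + K7 + 8, by positivity, fun t ht x hx => ?_⟩
  have i1 := h1 t ht x hx
  have i2 := h2 t ht x hx
  have i3 := h3 t ht x hx
  have i4 := h4 t ht x hx
  have i5 := h5 t ht x hx
  have i6 := h6 t ht x hx
  have i7 := h7 t ht x hx
  refine ⟨i1.trans ?_, i2.trans ?_, i3.trans ?_, i4.trans ?_, i5.trans ?_, i6.trans ?_,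
    i7.trans ?_, ?_⟩ <;> linarith

/-- Propagation of the constraints. -/
theorem claimConstraint (h : ClaimLin) (hSl : JSSlice) (hDt : JSDt) : ClaimConstraint := by
  intro n σ T u p m hσ hT hsol hcon hm0
  have hI : Itv (Icc 0 T) := Or.inr ⟨0, T, hT, rfl⟩
  have hU : UniqueDiffOn ℝ (Icc 0 T) := uniqueDiffOn_Icc hT
  obtain ⟨hsm, hjs⟩ := hSl (n + 1) (Icc 0 T) u hI hsol.smooth
  obtain ⟨ut, _, hut⟩ := hDt (n + 1) (Icc 0 T) u hI hsol.smooth
  have h0I : (0 : ℝ) ∈ Icc 0 T := ⟨le_refl _, hT.le⟩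
  -- `p m = 1`
  have hpm : ∀ t ∈ Icc 0 T, p t * m t = 1 := by
    have hd : ∀ t ∈ Icc 0 T, HasDerivWithinAt (fun t => p t * m t) 0 (Icc 0 T) t := by
      intro t ht
      refine ((hsol.peqn t ht).mul (hsol.meqn t ht)).congr_deriv ?_
      ring
    have h1 : ∀ t ∈ Icc 0 T, (fun t => p t * m t) t = (fun t => p t * m t) 0 :=
      constant_of_derivWithin_zero (fun t ht => (hd t ht).differentiableWithinAt)
        (fun t ht => (hd t ⟨ht.1, ht.2.le⟩).derivWithin (hU t ⟨ht.1, ht.2.le⟩))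
    intro t ht
    have h2 := h1 t ht
    simp only at h2
    rw [h2, hm0, mul_inv_cancel₀ hcon.pos.ne']
  have hmt : ∀ t ∈ Icc 0 T, m t = (p t)⁻¹ := fun t ht => (inv_eq_of_mul_eq_one_right (hpm t ht)).symm
  have hpne : ∀ t ∈ Icc 0 T, p t ≠ 0 := fun t ht h0 => by
    have := hpm t ht
    rw [h0, zero_mul] at this
    exact zero_ne_one this
  have hpc : ContinuousOn p (Icc 0 T) := hsol.psmooth.continuousOn
  have hmc : ContinuousOn m (Icc 0 T) := hsol.msmooth.continuousOn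
  -- a continuous nonvanishing function on the interval keeps its sign
  have hsign : ∀ f : ℝ → ℝ, ContinuousOn f (Icc 0 T) → (∀ t ∈ Icc 0 T, f t ≠ 0) → 0 < f 0 →
      ∀ t ∈ Icc 0 T, 0 < f t := by
    intro f hf hne h0 t ht
    by_contra hcon'
    push Not at hcon'
    have hsub : Icc 0 t ⊆ Icc 0 T := Icc_subset_Icc_right ht.2
    obtain ⟨s, hs, hs0⟩ := intermediate_value_Icc' ht.1 (hf.mono hsub) ⟨hcon', h0.le⟩
    exact hne s (hsub hs) hs0
  have hppos : ∀ t ∈ Icc 0 T, 0 < p t := hsign p hpc hpne hcon.pos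
  -- the time derivative
  have hutr : ∀ t ∈ Icc 0 T, ut t = rhs σ (p t) (m t) (u t) := by
    intro t ht
    funext x
    have h1 := hut 0 t ht x
    simp only [iteratedDeriv_zero] at h1
    exact (hU t ht).eq_deriv _ h1 (hsol.eqn t ht x)
  have hut1 : ∀ t ∈ Icc 0 T, ∀ x, HasDerivWithinAt (fun s => iteratedDeriv 1 (u s) x)
      (cstrRx σ (p t) (m t) (u t) x) (Icc 0 T) t := by
    intro t ht x
    have h1 := hut 1 t ht x
    rw [hutr t ht, iteratedDeriv_one, (cstr_rhs (hsm t ht) x).deriv] at h1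
    exact h1
  -- the defects
  have hwJS : JS (Icc 0 T) (fun t => cstrF σ (p t) (u t)) := by
    have hj1 := hjs 1
    have hpJ : ContDiffOn ℝ ∞ (fun z : ℝ × ℝ => p z.1) (Icc 0 T ×ˢ univ) :=
      hsol.psmooth.comp contDiffOn_fst (fun z hz => hz.1)
    refine contDiffOn_pi.mpr (fun i => ?_)
    fin_cases i
    · exact (cstr_JS_B (σ := σ) hsol.smooth hsol.smooth).sub contDiffOn_const
    · exact (cstr_JS_B (σ := σ) hj1 hj1).sub hpJ
  have hwper : ∀ t ∈ Icc 0 T, Function.Periodic (cstrF σ (p t) (u t)) (2 * Real.pi) := by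
    intro t ht x
    have h1 := hsol.periodic t ht x
    have h2 := cstr_periodic_iter (hsol.periodic t ht) 1 x
    simp only [cstrF, h1, h2]
  have hwt : ∀ t ∈ Icc 0 T, ∀ x, HasDerivWithinAt (fun s => cstrF σ (p s) (u s) x)
      (cstrFt σ (p t) (m t) (u t) x) (Icc 0 T) t := by
    intro t ht x
    rw [hasDerivWithinAt_pi]
    intro i
    fin_cases i
    · have h1 := (cstr_B_hasDerivWithinAt (σ := σ) (hsol.eqn t ht x) (hsol.eqn t ht x)).sub_const σ
      refine h1.congr_deriv ?_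
      simp only [cstrFt, Fin.zero_eta, Matrix.cons_val_zero]
      rw [cstr_B_symm (rhs σ (p t) (m t) (u t) x)]
      ring
    · have h1 := (cstr_B_hasDerivWithinAt (σ := σ) (hut1 t ht x) (hut1 t ht x)).sub
        (hsol.peqn t ht)
      refine h1.congr_deriv ?_
      simp only [cstrFt, Fin.mk_one, Matrix.cons_val_one, Matrix.cons_val_fin_one]
      rw [cstr_B_symm (cstrRx σ (p t) (m t) (u t) x)]
      ring
  obtain ⟨K, hK0, hK⟩ := cstr_coef (σ := σ) hjs hpc hmc
  -- the differential inequality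
  have hineq : ∀ t ∈ Icc 0 T, ∀ x, ‖cstrFt σ (p t) (m t) (u t) x +
      (2 : ℝ) • iteratedDeriv 4 (cstrF σ (p t) (u t)) x‖ ≤
      6 * K * (‖cstrF σ (p t) (u t) x‖ + ‖iteratedDeriv 1 (cstrF σ (p t) (u t)) x‖ +
        ‖iteratedDeriv 2 (cstrF σ (p t) (u t)) x‖) := by
    intro t ht
    have hloc : ∀ x ∈ Icc 0 (2 * Real.pi), ‖cstrFt σ (p t) (m t) (u t) x +
        (2 : ℝ) • iteratedDeriv 4 (cstrF σ (p t) (u t)) x‖ ≤
        6 * K * (‖cstrF σ (p t) (u t) x‖ + ‖iteratedDeriv 1 (cstrF σ (p t) (u t)) x‖ +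
          ‖iteratedDeriv 2 (cstrF σ (p t) (u t)) x‖) := by
      intro x hx
      obtain ⟨i1, i2, i4⟩ := cstr_iter (σ := σ) (p := p t) (hsm t ht)
      rw [i1, i2, i4]
      set N := ‖cstrF σ (p t) (u t) x‖ + ‖cstrF1 σ (u t) x‖ + ‖cstrF2 σ (u t) x‖ with hN
      have hN0 : 0 ≤ N := by positivity
      have a0 : ∀ i, |cstrF σ (p t) (u t) x i| ≤ N := fun i => by
        have h1 : |cstrF σ (p t) (u t) x i| ≤ ‖cstrF σ (p t) (u t) x‖ := norm_le_pi_norm (cstrF σ (p t) (u t) x) i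
        have h2 := norm_nonneg (cstrF1 σ (u t) x)
        have h3 := norm_nonneg (cstrF2 σ (u t) x)
        linarith
      have a1 : ∀ i, |cstrF1 σ (u t) x i| ≤ N := fun i => by
        have h1 : |cstrF1 σ (u t) x i| ≤ ‖cstrF1 σ (u t) x‖ := norm_le_pi_norm (cstrF1 σ (u t) x) i
        have h2 := norm_nonneg (cstrF σ (p t) (u t) x)
        have h3 := norm_nonneg (cstrF2 σ (u t) x)
        linarith
      have a2 : ∀ i, |cstrF2 σ (u t) x i| ≤ N := fun i => by
        have h1 : |cstrF2 σ (u t) x i| ≤ ‖cstrF2 σ (u t) x‖ := norm_le_pi_norm (cstrF2 σ (u t) x) i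
        have h2 := norm_nonneg (cstrF1 σ (u t) x)
        have h3 := norm_nonneg (cstrF σ (p t) (u t) x)
        linarith
      obtain ⟨k1, k2, k3, k4, k5, k6, k7, k8⟩ := hK t ht x hx
      have hz : |(0 : ℝ)| ≤ K := by rw [abs_zero]; exact hK0
      have h8 : |(8 : ℝ)| ≤ K := by rw [abs_of_pos (by norm_num)]; exact k8
      rw [pi_norm_le_iff_of_nonneg (by positivity)]
      intro i
      fin_cases i
      · have := cstr_id0 (p := p t) (m := m t) (u := u t) hσ x
        simp only [Fin.zero_eta]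
        rw [this, Real.norm_eq_abs]
        exact cstr_lin hK0 (a0 0) (a1 0) (a2 0) (a0 1) (a1 1) (a2 1) k1 k2 k3 k4 hz h8
      · have := cstr_id1 (p := p t) (m := m t) (u := u t) hσ (hpm t ht) x
        simp only [Fin.mk_one]
        rw [this, Real.norm_eq_abs]
        exact cstr_lin hK0 (a0 0) (a1 0) (a2 0) (a0 1) (a1 1) (a2 1) hz k5 hz k6 k7 k3
    intro x
    -- periodicity
    have hper : Function.Periodic (fun x => (cstrFt σ (p t) (m t) (u t) x,
        iteratedDeriv 4 (cstrF σ (p t) (u t)) x, cstrF σ (p t) (u t) x,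
        iteratedDeriv 1 (cstrF σ (p t) (u t)) x, iteratedDeriv 2 (cstrF σ (p t) (u t)) x))
        (2 * Real.pi) := by
      intro y
      have e1 : cstrFt σ (p t) (m t) (u t) (y + 2 * Real.pi) = cstrFt σ (p t) (m t) (u t) y := by
        have h1 := hwt t ht (y + 2 * Real.pi)
        have h2 := hwt t ht y
        have h3 : HasDerivWithinAt (fun s => cstrF σ (p s) (u s) y)
            (cstrFt σ (p t) (m t) (u t) (y + 2 * Real.pi)) (Icc 0 T) t :=
          h1.congr (fun s hs => (hwper s hs y).symm) (hwper t ht y).symm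
        exact (hU t ht).eq_deriv _ h3 h2
      have e2 := cstr_periodic_iter (hwper t ht) 4 y
      have e3 := hwper t ht y
      have e4 := cstr_periodic_iter (hwper t ht) 1 y
      have e5 := cstr_periodic_iter (hwper t ht) 2 y
      simp only [e1, e2, e3, e4, e5]
    obtain ⟨y, hy, hxy⟩ := hper.exists_mem_Ico₀ (by positivity) x
    simp only [Prod.mk.injEq] at hxy
    obtain ⟨e1, e2, e3, e4, e5⟩ := hxy
    rw [e1, e2, e3, e4, e5]
    exact hloc y ⟨hy.1, hy.2.le⟩
  have hzero := h 2 T (6 * K) (fun t => cstrF σ (p t) (u t))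
    (fun t => cstrFt σ (p t) (m t) (u t)) hT hwJS hwper hwt hineq (by
      intro x
      have h1 := (hcon.mem x).1
      have h2 := hcon.speed x
      ext i
      fin_cases i
      · simp only [cstrF, Fin.zero_eta, Matrix.cons_val_zero, h1, sub_self, Pi.zero_apply]
      · simp only [cstrF, Fin.mk_one, Matrix.cons_val_one, Matrix.cons_val_fin_one,
          iteratedDeriv_one, h2, sub_self, Pi.zero_apply])
  have hr : ∀ t ∈ Icc 0 T, ∀ x, B σ (u t x) (u t x) = σ := by
    intro t ht x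
    have h1 := congrFun (hzero t ht x) 0
    simp only [cstrF, Matrix.cons_val_zero, Pi.zero_apply] at h1
    linarith
  have hq : ∀ t ∈ Icc 0 T, ∀ x, B σ (iteratedDeriv 1 (u t) x) (iteratedDeriv 1 (u t) x) = p t := by
    intro t ht x
    have h1 := congrFun (hzero t ht x) 1
    simp only [cstrF, Matrix.cons_val_one, Matrix.cons_val_fin_one, Pi.zero_apply] at h1
    linarith
  intro t ht
  refine ⟨⟨hsm t ht, hsol.periodic t ht, fun x => ⟨hr t ht x, fun hneg => ?_⟩, fun x => ?_,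
    hppos t ht⟩, hmt t ht⟩
  · -- the sign of the first coordinate
    have hσ1 : σ = -1 := by
      rcases hσ with h1 | h1
      · rw [h1] at hneg; norm_num at hneg
      · exact h1
    have hc : ContinuousOn (fun s => u s x 0) (Icc 0 T) := by
      have h1 := (contDiffOn_pi.mp hsol.smooth 0).continuousOn
      have h2 : ContinuousOn (fun s : ℝ => ((s, x) : ℝ × ℝ)) (Icc 0 T) := by fun_prop
      exact h1.comp h2 (fun s hs => ⟨hs, mem_univ _⟩)
    refine hsign (fun s => u s x 0) hc ?_ ((hcon.mem x).2 hneg) t ht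
    intro s hs h0
    have h1 := hr s hs x
    rw [B, h0, hσ1] at h1
    have h2 : 0 ≤ ∑ i : Fin n, u s x i.succ * u s x i.succ :=
      Finset.sum_nonneg (fun i _ => mul_self_nonneg _)
    linarith
  · have h1 := hq t ht x
    rw [iteratedDeriv_one] at h1
    exact h1

end Pool.Agent.Work.MP_4a14ce_an

end

section

/-!
# E6 part A: elementary lemmas, limits, the velocity bound
-/

open Set MeasureTheory Topology Filter
open scoped ContDiff

namespace Pool.Agent.Work.MP_4a14ce_an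

variable {n : ℕ}

theorem Conv_nsq_nonneg (v : V n) : 0 ≤ nsq v := by
  unfold nsq
  positivity

theorem Conv_nsq_smul (c : ℝ) (v : V n) : nsq (c • v) = c ^ 2 * nsq v := by
  unfold nsq
  rw [Finset.mul_sum]
  refine Finset.sum_congr rfl fun i _ => ?_
  simp only [Pi.smul_apply, smul_eq_mul]
  ring

theorem Conv_nsq_add_le (a b : V n) : nsq (a + b) ≤ 2 * nsq a + 2 * nsq b := by
  unfold nsq
  rw [Finset.mul_sum, Finset.mul_sum, ← Finset.sum_add_distrib]
  refine Finset.sum_le_sum fun i _ => ?_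
  simp only [Pi.add_apply]
  nlinarith [sq_nonneg (a i - b i)]

theorem Conv_nsq_neg (a : V n) : nsq (-a) = nsq a := by
  unfold nsq
  simp

theorem Conv_nsq_sub_le (a b : V n) : nsq (a - b) ≤ 2 * nsq a + 2 * nsq b := by
  have := Conv_nsq_add_le a (-b)
  rwa [Conv_nsq_neg, ← sub_eq_add_neg] at this

theorem Conv_nsq_zero : nsq (0 : V n) = 0 := by
  unfold nsq
  simp

theorem Conv_nsq_eq_zero {v : V n} (h : nsq v ≤ 0) : v = 0 := by
  have h0 : nsq v = 0 := le_antisymm h (Conv_nsq_nonneg v)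
  unfold nsq at h0
  rw [Finset.sum_eq_zero_iff_of_nonneg (fun i _ => sq_nonneg _)] at h0
  funext i
  have := h0 i (Finset.mem_univ i)
  simpa using this

@[fun_prop] theorem Conv_nsq_cont : Continuous (nsq : V n → ℝ) := by
  unfold nsq
  fun_prop

theorem Conv_norm_sq_le (v : V n) : ‖v‖ ^ 2 ≤ nsq v := by
  have h : ‖v‖ ≤ Real.sqrt (nsq v) := by
    rw [pi_norm_le_iff_of_nonneg (Real.sqrt_nonneg _)]
    intro i
    rw [Real.norm_eq_abs]
    refine Real.abs_le_sqrt ?_
    unfold nsq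
    exact Finset.single_le_sum (f := fun i => v i ^ 2) (fun i _ => sq_nonneg _)
      (Finset.mem_univ i)
  calc ‖v‖ ^ 2 ≤ Real.sqrt (nsq v) ^ 2 := pow_le_pow_left₀ (norm_nonneg _) h 2
    _ = nsq v := Real.sq_sqrt (Conv_nsq_nonneg v)

theorem Conv_nsq_le_norm (v : V n) : nsq v ≤ (n + 1) * ‖v‖ ^ 2 := by
  unfold nsq
  have : ∀ i ∈ (Finset.univ : Finset (Fin (n + 1))), v i ^ 2 ≤ ‖v‖ ^ 2 := by
    intro i _
    have h := norm_le_pi_norm v i
    rw [Real.norm_eq_abs] at h
    calc v i ^ 2 = |v i| ^ 2 := (sq_abs _).symm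
      _ ≤ ‖v‖ ^ 2 := pow_le_pow_left₀ (abs_nonneg _) h 2
  have := Finset.sum_le_card_nsmul _ _ _ this
  simpa using this

@[fun_prop] theorem Conv_B_cont (σ : ℝ) : Continuous (fun z : V n × V n => B σ z.1 z.2) := by
  unfold B
  fun_prop

theorem Conv_B_cont2 (σ : ℝ) {α : Type*} [TopologicalSpace α] {f g : α → V n}
    (hf : Continuous f) (hg : Continuous g) : Continuous (fun x => B σ (f x) (g x)) :=
  (Conv_B_cont σ).comp (hf.prodMk hg)

theorem Conv_cont_iter {u : ℝ → V n} (hu : ContDiff ℝ ∞ u) (j : ℕ) :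
    Continuous (iteratedDeriv j u) :=
  hu.continuous_iteratedDeriv j (by exact_mod_cast le_top)

theorem Conv_per_iter {u : ℝ → V n} (hu : Function.Periodic u (2 * Real.pi)) (j : ℕ) :
    Function.Periodic (iteratedDeriv j u) (2 * Real.pi) := by
  intro x
  have h := iteratedDeriv_comp_add_const j u (2 * Real.pi)
  have e : (fun z => u (z + 2 * Real.pi)) = u := funext fun z => hu z
  rw [e] at h
  have := congrFun h x
  exact this.symm

theorem Conv_per_nonneg {f : ℝ → ℝ} (h : ∀ x, 0 ≤ f x) : 0 ≤ per f := by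
  unfold per
  exact intervalIntegral.integral_nonneg (by positivity) fun x _ => h x

theorem Conv_per_mono {f g : ℝ → ℝ} (hf : Continuous f) (hg : Continuous g)
    (h : ∀ x ∈ Icc (0 : ℝ) (2 * Real.pi), f x ≤ g x) : per f ≤ per g := by
  unfold per
  exact intervalIntegral.integral_mono_on (by positivity) (hf.intervalIntegrable _ _)
    (hg.intervalIntegrable _ _) h

theorem Conv_per_add {f g : ℝ → ℝ} (hf : Continuous f) (hg : Continuous g) :
    per (fun x => f x + g x) = per f + per g := by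
  unfold per
  exact intervalIntegral.integral_add (hf.intervalIntegrable _ _) (hg.intervalIntegrable _ _)

theorem Conv_per_mul (c : ℝ) (f : ℝ → ℝ) : per (fun x => c * f x) = c * per f := by
  unfold per
  exact intervalIntegral.integral_const_mul _ _

theorem Conv_per_const (c : ℝ) : per (fun _ => c) = 2 * Real.pi * c := by
  unfold per
  simp

/-- Cauchy-Schwarz for vector valued functions. -/
theorem Conv_CS (hCS : PerCS) (f g : ℝ → V n) (hf : Continuous f) (hg : Continuous g) :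
    per (fun x => ∑ i, f x i * g x i) ≤
      Real.sqrt (per (fun x => nsq (f x))) * Real.sqrt (per (fun x => nsq (g x))) := by
  have h1 : per (fun x => ∑ i, f x i * g x i) ≤
      per (fun x => Real.sqrt (nsq (f x)) * Real.sqrt (nsq (g x))) := by
    refine Conv_per_mono (by fun_prop) (by fun_prop) fun x _ => ?_
    exact Real.sum_mul_le_sqrt_mul_sqrt Finset.univ (f x) (g x)
  have h2 := hCS (fun x => Real.sqrt (nsq (f x))) (fun x => Real.sqrt (nsq (g x)))
    (by fun_prop) (by fun_prop)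
  have e1 : (fun x => Real.sqrt (nsq (f x)) ^ 2) = fun x => nsq (f x) := by
    funext x
    exact Real.sq_sqrt (Conv_nsq_nonneg _)
  have e2 : (fun x => Real.sqrt (nsq (g x)) ^ 2) = fun x => nsq (g x) := by
    funext x
    exact Real.sq_sqrt (Conv_nsq_nonneg _)
  rw [e1, e2] at h2
  refine h1.trans ?_
  rw [← Real.sqrt_mul (Conv_per_nonneg fun x => Conv_nsq_nonneg _)]
  exact Real.le_sqrt_of_sq_le h2

/-! ### continuity of the velocity and of the energy in the derivatives -/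

/-- data of a curve at a point -/
abbrev Conv_E (n : ℕ) : Type := (ℝ × ℝ) × (V n × V n × V n × V n × V n)

/-- `vel` as a continuous function of the data. -/
noncomputable def Conv_Phi (σ : ℝ) (z : Conv_E n) : V n :=
  -(2 : ℝ) • z.2.2.2.2.2 - (2 * σ * z.1.1) • z.2.2.2.1
    - (3 * z.1.2 * (2 * B σ z.2.2.2.1 z.2.2.2.2.1)) • z.2.2.1
    + (2 * σ * (B σ z.2.2.2.1 z.2.2.2.1 - σ * z.1.1 ^ 2)) • z.2.1
    - (3 * z.1.2 * (B σ z.2.2.2.1 z.2.2.2.1 - σ * z.1.1 ^ 2) + (2 * σ - 1) * z.1.1) •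
      (z.2.2.2.1 + (σ * z.1.1) • z.2.1)

theorem Conv_Phi_cont (σ : ℝ) : Continuous (Conv_Phi (n := n) σ) := by
  have h1 : Continuous (fun z : Conv_E n => B σ z.2.2.2.1 z.2.2.2.2.1) :=
    Conv_B_cont2 σ (by fun_prop) (by fun_prop)
  have h2 : Continuous (fun z : Conv_E n => B σ z.2.2.2.1 z.2.2.2.1) :=
    Conv_B_cont2 σ (by fun_prop) (by fun_prop)
  unfold Conv_Phi
  fun_prop

/-- the data -/
noncomputable def Conv_dat (p : ℝ) (u : ℝ → V n) (x : ℝ) : Conv_E n :=
  ((p, p⁻¹), (u x, iteratedDeriv 1 u x, iteratedDeriv 2 u x, iteratedDeriv 3 u x,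
    iteratedDeriv 4 u x))

theorem Conv_vel_eq (σ p : ℝ) (u : ℝ → V n) (x : ℝ) :
    vel σ p p⁻¹ u x = Conv_Phi σ (Conv_dat p u x) := by
  simp only [vel, Conv_Phi, Conv_dat, rhox, rho, beta]

theorem Conv_dat_cont {u : ℝ → V n} (hu : ContDiff ℝ ∞ u) (p : ℝ) :
    Continuous (Conv_dat p u) := by
  unfold Conv_dat
  have h0 := hu.continuous
  have h1 := Conv_cont_iter hu 1
  have h2 := Conv_cont_iter hu 2
  have h3 := Conv_cont_iter hu 3
  have h4 := Conv_cont_iter hu 4
  fun_prop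

theorem Conv_vel_cont (σ p : ℝ) {u : ℝ → V n} (hu : ContDiff ℝ ∞ u) :
    Continuous (vel σ p p⁻¹ u) := by
  have e : vel σ p p⁻¹ u = fun x => Conv_Phi σ (Conv_dat p u x) := funext fun x =>
    Conv_vel_eq σ p u x
  rw [e]
  exact (Conv_Phi_cont σ).comp (Conv_dat_cont hu p)

/-- limits under pointwise convergence of the data and uniform bounds -/
theorem Conv_lim {ι : Type*} {l : Filter ι} [l.IsCountablyGenerated] (Ψ : Conv_E n → ℝ)
    (hΨ : Continuous Ψ) (f : ι → ℝ → V n) (P : ι → ℝ) (v : ℝ → V n) (q : ℝ) (hq : q ≠ 0)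
    (hf : ∀ i, ContDiff ℝ ∞ (f i)) (hP : Tendsto P l (𝓝 q))
    (hlim : ∀ j ≤ 4, ∀ x, Tendsto (fun i => iteratedDeriv j (f i) x) l
      (𝓝 (iteratedDeriv j v x)))
    (K : ℝ) (hK : ∀ᶠ i in l, ∀ j ≤ 4, ∀ x, nsq (iteratedDeriv j (f i) x) ≤ K) :
    Tendsto (fun i => per (fun x => Ψ (Conv_dat (P i) (f i) x))) l
      (𝓝 (per (fun x => Ψ (Conv_dat q v x)))) := by
  have hPinv : Tendsto (fun i => (P i)⁻¹) l (𝓝 q⁻¹) := hP.inv₀ hq
  have hpt : ∀ x, Tendsto (fun i => Ψ (Conv_dat (P i) (f i) x)) l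
      (𝓝 (Ψ (Conv_dat q v x))) := by
    intro x
    refine (hΨ.tendsto _).comp ?_
    unfold Conv_dat
    have h0 := hlim 0 (by norm_num) x
    simp only [iteratedDeriv_zero] at h0
    exact (hP.prodMk_nhds hPinv).prodMk_nhds (h0.prodMk_nhds
      ((hlim 1 (by norm_num) x).prodMk_nhds ((hlim 2 (by norm_num) x).prodMk_nhds
        ((hlim 3 (by norm_num) x).prodMk_nhds (hlim 4 (by norm_num) x)))))
  -- uniform bound
  have hPb : ∀ᶠ i in l, |P i| ≤ |q| + 1 := by
    have := hP.abs.eventually (eventually_le_nhds (show |q| < |q| + 1 by linarith))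
    exact this
  have hPib : ∀ᶠ i in l, |(P i)⁻¹| ≤ |q⁻¹| + 1 := by
    have := hPinv.abs.eventually (eventually_le_nhds (show |q⁻¹| < |q⁻¹| + 1 by linarith))
    exact this
  set R := |q| + 1 + (|q⁻¹| + 1) + (|K| + 1) with hR
  have hKc : IsCompact (Metric.closedBall (0 : Conv_E n) R) := isCompact_closedBall _ _
  obtain ⟨C, hC⟩ := hKc.exists_bound_of_continuousOn hΨ.continuousOn
  have hnorm : ∀ w : V n, nsq w ≤ K → ‖w‖ ≤ R := by
    intro w hw
    have h1 := Conv_norm_sq_le w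
    have h2 : ‖w‖ ^ 2 ≤ (|K| + 1) ^ 2 := by nlinarith [le_abs_self K, abs_nonneg K]
    have h3 : ‖w‖ ≤ |K| + 1 := by
      exact (sq_le_sq₀ (norm_nonneg _) (by positivity)).1 h2
    have : 0 ≤ |q| := abs_nonneg _
    have : 0 ≤ |q⁻¹| := abs_nonneg _
    linarith
  have hbound : ∀ᶠ i in l, ∀ x, ‖Ψ (Conv_dat (P i) (f i) x)‖ ≤ C := by
    filter_upwards [hPb, hPib, hK] with i h1 h2 h3 x
    refine hC _ ?_
    rw [mem_closedBall_zero_iff]
    have a1 : ‖P i‖ ≤ R := by
      rw [Real.norm_eq_abs]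
      linarith [abs_nonneg q⁻¹, abs_nonneg K]
    have a2 : ‖(P i)⁻¹‖ ≤ R := by
      rw [Real.norm_eq_abs]
      linarith [abs_nonneg q, abs_nonneg K]
    have b0 := hnorm _ (h3 0 (by norm_num) x)
    simp only [iteratedDeriv_zero] at b0
    have b1 := hnorm _ (h3 1 (by norm_num) x)
    have b2 := hnorm _ (h3 2 (by norm_num) x)
    have b3 := hnorm _ (h3 3 (by norm_num) x)
    have b4 := hnorm _ (h3 4 (by norm_num) x)
    unfold Conv_dat
    simp only [Prod.norm_def, sup_le_iff]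
    exact ⟨⟨a1, a2⟩, b0, b1, b2, b3, b4⟩
  unfold per
  refine intervalIntegral.tendsto_integral_filter_of_dominated_convergence (fun _ => C) ?_ ?_ ?_ ?_
  · refine Eventually.of_forall fun i => ?_
    exact (hΨ.comp (Conv_dat_cont (hf i) (P i))).aestronglyMeasurable
  · filter_upwards [hbound] with i hi
    exact Eventually.of_forall fun x _ => hi x
  · exact intervalIntegrable_const
  · exact Eventually.of_forall fun x _ => hpt x

theorem Conv_lim_dis (σ : ℝ) {ι : Type*} {l : Filter ι} [l.IsCountablyGenerated]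
    (f : ι → ℝ → V n) (P : ι → ℝ) (v : ℝ → V n) (q : ℝ) (hq : q ≠ 0)
    (hf : ∀ i, ContDiff ℝ ∞ (f i)) (hP : Tendsto P l (𝓝 q))
    (hlim : ∀ j ≤ 4, ∀ x, Tendsto (fun i => iteratedDeriv j (f i) x) l
      (𝓝 (iteratedDeriv j v x)))
    (K : ℝ) (hK : ∀ᶠ i in l, ∀ j ≤ 4, ∀ x, nsq (iteratedDeriv j (f i) x) ≤ K) :
    Tendsto (fun i => dis σ (P i) (f i)) l (𝓝 (dis σ q v)) := by
  have h := Conv_lim (fun z => B σ (Conv_Phi σ z) (Conv_Phi σ z))
    (Conv_B_cont2 σ (Conv_Phi_cont σ) (Conv_Phi_cont σ)) f P v q hq hf hP hlim K hK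
  simp only [← Conv_vel_eq] at h
  exact h

theorem Conv_lim_en (σ : ℝ) {ι : Type*} {l : Filter ι} [l.IsCountablyGenerated]
    (f : ι → ℝ → V n) (P : ι → ℝ) (v : ℝ → V n) (q : ℝ) (hq : 0 < q)
    (hf : ∀ i, ContDiff ℝ ∞ (f i)) (hP : Tendsto P l (𝓝 q))
    (hlim : ∀ j ≤ 4, ∀ x, Tendsto (fun i => iteratedDeriv j (f i) x) l
      (𝓝 (iteratedDeriv j v x)))
    (K : ℝ) (hK : ∀ᶠ i in l, ∀ j ≤ 4, ∀ x, nsq (iteratedDeriv j (f i) x) ≤ K) :
    Tendsto (fun i => en σ (P i) (f i)) l (𝓝 (en σ q v)) := by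
  have h := Conv_lim (fun z => B σ z.2.2.2.1 z.2.2.2.1)
    (Conv_B_cont2 σ (by fun_prop) (by fun_prop)) f P v q hq.ne' hf hP hlim K hK
  simp only [Conv_dat] at h
  unfold en
  have hs : Tendsto (fun i => Real.sqrt (P i)) l (𝓝 (Real.sqrt q)) :=
    (Real.continuous_sqrt.tendsto q).comp hP
  have hne : q * Real.sqrt q ≠ 0 := by positivity
  exact (((hP.mul hs).inv₀ hne).mul h).add ((hs.const_mul _))

end Pool.Agent.Work.MP_4a14ce_an

end

section

/-!
# Item G5: short time control of the position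
-/

open Set MeasureTheory Topology Filter
open scoped ContDiff

namespace Pool.Agent.Work.MP_4a14ce_an

/-! ## algebra -/

theorem Drift_cs {n : ℕ} {q X : V n} (hq : B (-1) q q = -1) (hX : B (-1) X q = 0) :
    0 ≤ B (-1) X X ∧ X 0 ^ 2 ≤ B (-1) X X * q 0 ^ 2 := by
  unfold B at *
  have hcs := Finset.sum_mul_sq_le_sq_mul_sq Finset.univ (fun i : Fin n => X i.succ)
    (fun i : Fin n => q i.succ)
  have e1 : ∑ i : Fin n, X i.succ * X i.succ = ∑ i : Fin n, X i.succ ^ 2 := by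
    apply Finset.sum_congr rfl; intro i _; ring
  have e2 : ∑ i : Fin n, q i.succ * q i.succ = ∑ i : Fin n, q i.succ ^ 2 := by
    apply Finset.sum_congr rfl; intro i _; ring
  rw [e1]
  rw [e2] at hq
  set S1 := ∑ i : Fin n, X i.succ * q i.succ
  set S2 := ∑ i : Fin n, X i.succ ^ 2
  set S3 := ∑ i : Fin n, q i.succ ^ 2
  have hS2 : 0 ≤ S2 := Finset.sum_nonneg (fun i _ => sq_nonneg _)
  have hS3 : 0 ≤ S3 := Finset.sum_nonneg (fun i _ => sq_nonneg _)
  have h3 : S3 = q 0 ^ 2 - 1 := by linarith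
  have h1 : S1 = X 0 * q 0 := by linarith
  rw [h1, h3] at hcs
  have hq1 : 1 ≤ q 0 ^ 2 := by linarith
  have hX2 : X 0 ^ 2 ≤ S2 := by nlinarith
  constructor
  · nlinarith
  · nlinarith

theorem Drift_nsq {n : ℕ} (σ : ℝ) (q : V n) : nsq q = B σ q q + (1 - σ) * q 0 ^ 2 := by
  unfold nsq B
  rw [Fin.sum_univ_succ]
  have e1 : ∑ i : Fin n, q i.succ * q i.succ = ∑ i : Fin n, q i.succ ^ 2 := by
    apply Finset.sum_congr rfl; intro i _; ring
  rw [e1]; ring

theorem Drift_abs0 {n : ℕ} {q X : V n} (hq : B (-1) q q = -1) (hq0 : 0 < q 0)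
    (hX : B (-1) X q = 0) : |X 0| ≤ (1 + B (-1) X X) / 2 * q 0 := by
  obtain ⟨h1, h2⟩ := Drift_cs hq hX
  apply abs_le_of_sq_le_sq _ (by positivity)
  refine h2.trans ?_
  rw [mul_pow]
  apply mul_le_mul_of_nonneg_right _ (sq_nonneg _)
  nlinarith [sq_nonneg (1 - B (-1) X X)]

theorem Drift_absB (hB : BRules) {n : ℕ} {q X Y : V n} (hq : B (-1) q q = -1)
    (hX : B (-1) X q = 0) (hY : B (-1) Y q = 0) :
    |B (-1) X Y| ≤ (B (-1) X X + B (-1) Y Y) / 2 := by
  obtain ⟨hc, ha, hs, -, -⟩ := hB n (-1)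
  have h1 := (Drift_cs (X := X + Y) hq (by rw [ha, hX, hY]; ring)).1
  have h2 := (Drift_cs (X := X + (-1 : ℝ) • Y) hq (by rw [ha, hs, hX, hY]; ring)).1
  have e1 : B (-1) (X + Y) (X + Y) = B (-1) X X + 2 * B (-1) X Y + B (-1) Y Y := by
    rw [ha, hc X (X + Y), hc Y (X + Y), ha, ha, hc Y X]; ring
  have e2 : B (-1) (X + (-1 : ℝ) • Y) (X + (-1 : ℝ) • Y) =
      B (-1) X X - 2 * B (-1) X Y + B (-1) Y Y := by
    rw [ha, hc X (X + (-1 : ℝ) • Y), hs, hc Y (X + (-1 : ℝ) • Y), ha, ha, hs, hs, hc Y X]; ring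
  rw [abs_le]
  constructor <;> linarith

theorem Drift_rhs (σ p m : ℝ) {n : ℕ} (u : ℝ → V n) (x : ℝ) :
    rhs σ p m u x = vel σ p m u x + xi σ p m u x • iteratedDeriv 1 u x := by
  unfold rhs vel xi
  module

/-! ## continuity -/

theorem Drift_contB (σ : ℝ) {n : ℕ} {f g : ℝ → V n} (hf : Continuous f) (hg : Continuous g) :
    Continuous (fun x => B σ (f x) (g x)) := by
  unfold B
  fun_prop

theorem Drift_contD {n : ℕ} {u : ℝ → V n} (hu : ContDiff ℝ ∞ u) (j : ℕ) :
    Continuous (iteratedDeriv j u) :=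
  hu.continuous_iteratedDeriv j (by exact_mod_cast le_top)

theorem Drift_contrho (σ p : ℝ) {n : ℕ} {u : ℝ → V n} (hu : ContDiff ℝ ∞ u) :
    Continuous (rho σ p u) :=
  (Drift_contB σ (Drift_contD hu 2) (Drift_contD hu 2)).sub continuous_const

theorem Drift_contrhox (σ : ℝ) {n : ℕ} {u : ℝ → V n} (hu : ContDiff ℝ ∞ u) :
    Continuous (rhox σ u) :=
  continuous_const.mul (Drift_contB σ (Drift_contD hu 2) (Drift_contD hu 3))

theorem Drift_conteta (σ p : ℝ) {n : ℕ} {u : ℝ → V n} (hu : ContDiff ℝ ∞ u) :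
    Continuous (eta σ p u) := by
  have h1 := Drift_contB σ (Drift_contD hu 3) (Drift_contD hu 3)
  have h2 := Drift_contB σ (Drift_contD hu 2) (Drift_contD hu 2)
  unfold eta
  fun_prop

theorem Drift_conthh (σ p m : ℝ) {n : ℕ} {u : ℝ → V n} (hu : ContDiff ℝ ∞ u) :
    Continuous (hh σ p m u) := by
  have h1 := Drift_conteta σ p hu
  have h2 := Drift_contrho σ p hu
  unfold hh
  fun_prop

theorem Drift_contbeta (σ p m : ℝ) {n : ℕ} {u : ℝ → V n} (hu : ContDiff ℝ ∞ u) :
    Continuous (beta σ p m u) := by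
  have h2 := Drift_contrho σ p hu
  unfold beta
  fun_prop

theorem Drift_contvel (σ p m : ℝ) {n : ℕ} {u : ℝ → V n} (hu : ContDiff ℝ ∞ u) :
    Continuous (vel σ p m u) := by
  have h0 := hu.continuous
  have h1 := Drift_contD hu 1
  have h2 := Drift_contD hu 2
  have h4 := Drift_contD hu 4
  have h5 := Drift_contrho σ p hu
  have h6 := Drift_contrhox σ hu
  have h7 := Drift_contbeta σ p m hu
  unfold vel
  fun_prop

/-! ## growth of positive functions -/

theorem Drift_growth {g g' : ℝ → ℝ} {c : ℝ} (hg : ∀ x, HasDerivAt g (g' x) x)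
    (hpos : ∀ x, 0 < g x) (hb : ∀ x, |g' x| ≤ c * g x) (x y : ℝ) :
    g x ≤ g y * Real.exp (c * |x - y|) := by
  have h1 : ∀ z ∈ (univ : Set ℝ), HasDerivWithinAt (fun z => Real.log (g z)) (g' z / g z) univ z :=
    fun z _ => ((hg z).log (hpos z).ne').hasDerivWithinAt
  have h2 := Convex.norm_image_sub_le_of_norm_hasDerivWithin_le (C := c) h1 (fun z _ => by
    rw [Real.norm_eq_abs, abs_div, abs_of_pos (hpos z), div_le_iff₀ (hpos z)]
    exact hb z) convex_univ (mem_univ y) (mem_univ x)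
  rw [Real.norm_eq_abs, Real.norm_eq_abs] at h2
  have h3 : Real.log (g x) ≤ Real.log (g y) + c * |x - y| := by
    have := (le_abs_self _).trans h2
    linarith
  calc g x = Real.exp (Real.log (g x)) := (Real.exp_log (hpos x)).symm
    _ ≤ Real.exp (Real.log (g y) + c * |x - y|) := Real.exp_le_exp.mpr h3
    _ = g y * Real.exp (c * |x - y|) := by rw [Real.exp_add, Real.exp_log (hpos y)]

theorem Drift_sup {g g' : ℝ → ℝ} {c : ℝ} (hc : 0 ≤ c) (hg : ∀ x, HasDerivAt g (g' x) x)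
    (hpos : ∀ x, 0 < g x) (hb : ∀ x, |g' x| ≤ c * g x) (hper : Function.Periodic g (2 * Real.pi))
    (x : ℝ) : g x ≤ Real.exp (c * (2 * Real.pi)) * per g ∧
      per g ≤ 2 * Real.pi * (Real.exp (c * (2 * Real.pi)) * g 0) := by
  have hpi := Real.pi_pos
  have hcont : Continuous g := continuous_iff_continuousAt.mpr (fun x => (hg x).continuousAt)
  have key : ∀ x ∈ Icc 0 (2 * Real.pi), ∀ y ∈ Icc 0 (2 * Real.pi),
      g x ≤ Real.exp (c * (2 * Real.pi)) * g y := by
    intro x hx y hy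
    refine (Drift_growth hg hpos hb x y).trans ?_
    rw [mul_comm]
    apply mul_le_mul_of_nonneg_right _ (hpos y).le
    apply Real.exp_le_exp.mpr
    apply mul_le_mul_of_nonneg_left _ hc
    rw [abs_le]
    constructor <;> linarith [hx.1, hx.2, hy.1, hy.2]
  constructor
  · obtain ⟨y, hy, hxy⟩ := hper.exists_mem_Ico₀ (by positivity) x
    rw [hxy]
    have hy' : y ∈ Icc 0 (2 * Real.pi) := ⟨hy.1, hy.2.le⟩
    have h1 : ∫ z in (0 : ℝ)..(2 * Real.pi), g y ≤
        ∫ z in (0 : ℝ)..(2 * Real.pi), Real.exp (c * (2 * Real.pi)) * g z := by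
      apply intervalIntegral.integral_mono_on (by positivity)
      · exact continuous_const.intervalIntegrable _ _
      · exact (continuous_const.mul hcont).intervalIntegrable _ _
      · intro z hz; exact key y hy' z hz
    rw [intervalIntegral.integral_const, intervalIntegral.integral_const_mul] at h1
    rw [smul_eq_mul] at h1
    have h2 : (1 : ℝ) ≤ 2 * Real.pi - 0 := by linarith [Real.pi_gt_three]
    have h3 := hpos y
    unfold per
    nlinarith
  · have h1 : ∫ z in (0 : ℝ)..(2 * Real.pi), g z ≤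
        ∫ z in (0 : ℝ)..(2 * Real.pi), Real.exp (c * (2 * Real.pi)) * g 0 := by
      apply intervalIntegral.integral_mono_on (by positivity)
      · exact hcont.intervalIntegrable _ _
      · exact continuous_const.intervalIntegrable _ _
      · intro z hz; exact key z hz 0 ⟨le_rfl, by positivity⟩
    rw [intervalIntegral.integral_const, smul_eq_mul] at h1
    unfold per
    simpa using h1

/-! ## estimates at a fixed time -/

theorem Drift_mem {n : ℕ} {p : ℝ} {u : ℝ → V n} (hcon : Con (-1) p u) (x : ℝ) :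
    B (-1) (u x) (u x) = -1 ∧ 0 < u x 0 := by
  obtain ⟨h1, h2⟩ := hcon.mem x
  exact ⟨h1, h2 (by norm_num)⟩

theorem Drift_deriv0 {n : ℕ} {u : ℝ → V n} (hu : ContDiff ℝ ∞ u) (x : ℝ) :
    HasDerivAt (fun y => u y 0) (iteratedDeriv 1 u x 0) x := by
  have h1 : HasDerivAt u (deriv u x) x :=
    ((hu.differentiable (by norm_num)) x).hasDerivAt
  rw [iteratedDeriv_one]
  exact (hasDerivAt_pi.mp h1) 0

theorem Drift_u1 (hIds : ConIds) {n : ℕ} {p : ℝ} {u : ℝ → V n} (hcon : Con (-1) p u) (x : ℝ) :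
    |iteratedDeriv 1 u x 0| ≤ (1 + p) / 2 * u x 0 := by
  obtain ⟨h1, h2⟩ := Drift_mem hcon x
  obtain ⟨-, i2, i3, -⟩ := hIds n (-1) p u (Or.inr rfl) hcon x
  have i2' : B (-1) (iteratedDeriv 1 u x) (u x) = 0 := by
    rw [← i2]; unfold B
    congr 1
    · ring
    · apply Finset.sum_congr rfl; intro i _; ring
  have := Drift_abs0 h1 h2 i2'
  rwa [i3] at this

/-- the constant in the comparison of the maximum and the mean -/
noncomputable def DriftE (p : ℝ) : ℝ := Real.exp ((1 + p) / 2 * (2 * Real.pi))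

theorem Drift_range (hIds : ConIds) {n : ℕ} {p : ℝ} {u : ℝ → V n} (hcon : Con (-1) p u) (x : ℝ) :
    u x 0 ≤ DriftE p * per (fun y => u y 0) ∧
      per (fun y => u y 0) ≤ 2 * Real.pi * (DriftE p * u 0 0) := by
  apply Drift_sup (c := (1 + p) / 2) (g := fun y => u y 0)
    (by have := hcon.pos; linarith) (Drift_deriv0 hcon.smooth) (fun y => (Drift_mem hcon y).2)
    (Drift_u1 hIds hcon)
  intro y
  simp only [hcon.periodic y]

theorem Drift_perpos (hIds : ConIds) {n : ℕ} {p : ℝ} {u : ℝ → V n} (hcon : Con (-1) p u) :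
    0 < per (fun y => u y 0) := by
  have h1 := (Drift_range hIds hcon 0).1
  have h2 := (Drift_mem hcon 0).2
  have h3 : 0 < DriftE p := Real.exp_pos _
  by_contra hle
  push Not at hle
  nlinarith

theorem Drift_mu {n : ℕ} {p : ℝ} {u : ℝ → V n} (hcon : Con (-1) p u) :
    xi (-1) p p⁻¹ u (2 * Real.pi) = 0 := by
  have hc := Drift_conthh (-1) p p⁻¹ hcon.smooth
  have hper : rhox (-1) u (2 * Real.pi) = rhox (-1) u 0 := by
    have h2 : ∀ j, iteratedDeriv j u (2 * Real.pi) = iteratedDeriv j u 0 := by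
      intro j
      have e : (fun x => u (x + 2 * Real.pi)) = u := by
        funext x; exact hcon.periodic x
      have := iteratedDeriv_comp_add_const j u (2 * Real.pi)
      rw [e] at this
      have h3 := congrFun this 0
      simp only [zero_add] at h3
      exact h3.symm
    unfold rhox
    rw [h2, h2]
  have hint : ∫ y in (0 : ℝ)..(2 * Real.pi), (hh (-1) p p⁻¹ u y - mu (-1) p p⁻¹ u) = 0 := by
    rw [intervalIntegral.integral_sub (hc.intervalIntegrable _ _)
      (continuous_const.intervalIntegrable _ _), intervalIntegral.integral_const, smul_eq_mul]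
    unfold mu per
    have := Real.pi_pos
    field_simp
    ring
  unfold xi alpha
  rw [hint, hper]
  ring

theorem Drift_rate (hB : BRules) (hVT : ClaimVelTan) (hXi : ClaimXi) (hIds : ConIds) {n : ℕ}
    {p : ℝ} {u : ℝ → V n} (hcon : Con (-1) p u) :
    0 ≤ dis (-1) p u ∧
    |per (fun x => rhs (-1) p p⁻¹ u x 0)| ≤ DriftE p * per (fun y => u y 0) *
      (Real.pi + dis (-1) p u / 2 + p⁻¹ * (dis (-1) p u + per (rho (-1) p u))) := by
  have hpi := Real.pi_pos
  have hp := hcon.pos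
  have hp' : 0 < p⁻¹ := inv_pos.mpr hp
  set v : ℝ → V n := vel (-1) p p⁻¹ u with hv
  set w : ℝ → V n := fun x => iteratedDeriv 2 u x + ((-1 : ℝ) * p) • u x with hw
  set M : ℝ := mu (-1) p p⁻¹ u with hM
  set S : ℝ := DriftE p * per (fun y => u y 0) with hS
  have hvc : Continuous v := Drift_contvel (-1) p p⁻¹ hcon.smooth
  have hwc : Continuous w := by
    have h2 := Drift_contD hcon.smooth 2
    have h0 := hcon.smooth.continuous
    simp only [hw]
    fun_prop
  have hvv : Continuous (fun x => B (-1) (v x) (v x)) := Drift_contB (-1) hvc hvc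
  have hvw : Continuous (fun x => B (-1) (v x) (w x)) := Drift_contB (-1) hvc hwc
  have hrc : Continuous (rho (-1) p u) := Drift_contrho (-1) p hcon.smooth
  have hgc : Continuous (fun x => u x 0) := (continuous_apply 0).comp hcon.smooth.continuous
  have hv0 : Continuous (fun x => v x 0) := (continuous_apply 0).comp hvc
  obtain ⟨hc, ha, hs, -, -⟩ := hB n (-1)
  have hvt : ∀ x, B (-1) (v x) (u x) = 0 := fun x => (hVT n (-1) p u (Or.inr rfl) hcon x).1
  have hwt : ∀ x, B (-1) (w x) (u x) = 0 := by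
    intro x
    obtain ⟨i1, -, -, i4, -⟩ := hIds n (-1) p u (Or.inr rfl) hcon x
    simp only [hw]
    rw [ha, hs, hc (iteratedDeriv 2 u x) (u x), i4, i1]; ring
  have hww : ∀ x, B (-1) (w x) (w x) = rho (-1) p u x := by
    intro x
    obtain ⟨i1, -, -, i4, -⟩ := hIds n (-1) p u (Or.inr rfl) hcon x
    have h1 : B (-1) (w x) (w x) = B (-1) (iteratedDeriv 2 u x) (w x) := by
      conv_lhs => rw [show w x = iteratedDeriv 2 u x + ((-1 : ℝ) * p) • u x from rfl]
      rw [ha, hs, hc (u x) _]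
      rw [show iteratedDeriv 2 u x + ((-1 : ℝ) * p) • u x = w x from rfl, hwt x]; ring
    rw [h1, hc]
    simp only [hw]
    rw [ha, hs, i4]
    unfold rho
    ring
  have hpos : ∀ x, 0 < u x 0 := fun x => (Drift_mem hcon x).2
  have hsup : ∀ x, u x 0 ≤ S := fun x => (Drift_range hIds hcon x).1
  have hvv0 : ∀ x, 0 ≤ B (-1) (v x) (v x) := fun x => (Drift_cs (Drift_mem hcon x).1 (hvt x)).1
  have hww0 : ∀ x, 0 ≤ B (-1) (w x) (w x) := fun x => (Drift_cs (Drift_mem hcon x).1 (hwt x)).1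
  have hD0 : 0 ≤ dis (-1) p u := by
    unfold dis per
    exact intervalIntegral.integral_nonneg (by positivity) (fun x _ => hvv0 x)
  refine ⟨hD0, ?_⟩
  obtain ⟨hx0, hxd⟩ := hXi n (-1) p u (Or.inr rfl) hcon
  have hx1 := Drift_mu hcon
  have hxd' : ∀ x, HasDerivAt (xi (-1) p p⁻¹ u) (p⁻¹ * B (-1) (v x) (w x) - M) x := hxd
  have hxc : Continuous (xi (-1) p p⁻¹ u) :=
    continuous_iff_continuousAt.mpr (fun x => (hxd' x).continuousAt)
  have hxdc : Continuous (fun x => p⁻¹ * B (-1) (v x) (w x) - M) :=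
    (continuous_const.mul hvw).sub continuous_const
  -- the mean of `mu`
  have hmean : p⁻¹ * per (fun x => B (-1) (v x) (w x)) - 2 * Real.pi * M = 0 := by
    have h1 := intervalIntegral.integral_eq_sub_of_hasDerivAt (a := 0) (b := 2 * Real.pi)
      (fun x _ => hxd' x) (hxdc.intervalIntegrable _ _)
    have hcm : Continuous (fun x => p⁻¹ * B (-1) (v x) (w x)) := by fun_prop
    rw [hx0, hx1, intervalIntegral.integral_sub (hcm.intervalIntegrable _ _)
      (continuous_const.intervalIntegrable _ _), intervalIntegral.integral_const_mul,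
      intervalIntegral.integral_const, smul_eq_mul] at h1
    unfold per
    linarith
  have habs : ∀ x, |B (-1) (v x) (w x)| ≤ (B (-1) (v x) (v x) + rho (-1) p u x) / 2 := by
    intro x
    rw [← hww x]
    exact Drift_absB hB (Drift_mem hcon x).1 (hvt x) (hwt x)
  have hperB : |per (fun x => B (-1) (v x) (w x))| ≤
      (dis (-1) p u + per (rho (-1) p u)) / 2 := by
    unfold per
    refine (intervalIntegral.abs_integral_le_integral_abs (by positivity)).trans ?_
    have h1 : ∫ x in (0 : ℝ)..(2 * Real.pi), |B (-1) (v x) (w x)| ≤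
        ∫ x in (0 : ℝ)..(2 * Real.pi), (B (-1) (v x) (v x) + rho (-1) p u x) / 2 := by
      apply intervalIntegral.integral_mono_on (by positivity)
      · exact hvw.abs.intervalIntegrable _ _
      · exact ((hvv.add hrc).div_const 2).intervalIntegrable _ _
      · intro x _; exact habs x
    refine h1.trans (le_of_eq ?_)
    rw [intervalIntegral.integral_div, intervalIntegral.integral_add (hvv.intervalIntegrable _ _)
      (hrc.intervalIntegrable _ _)]
    rfl
  have hMb : 2 * Real.pi * |M| ≤ p⁻¹ * ((dis (-1) p u + per (rho (-1) p u)) / 2) := by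
    have h1 : 2 * Real.pi * |M| = p⁻¹ * |per (fun x => B (-1) (v x) (w x))| := by
      have h2 : 2 * Real.pi * M = p⁻¹ * per (fun x => B (-1) (v x) (w x)) := by linarith
      rw [← abs_of_pos (show (0 : ℝ) < 2 * Real.pi by positivity), ← abs_mul, h2, abs_mul,
        abs_of_pos hp']
    rw [h1]
    exact mul_le_mul_of_nonneg_left hperB hp'.le
  -- integration by parts
  have hmain : per (fun x => rhs (-1) p p⁻¹ u x 0) =
      ∫ x in (0 : ℝ)..(2 * Real.pi), (v x 0 - (p⁻¹ * B (-1) (v x) (w x) - M) * u x 0) := by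
    have h1c : Continuous (fun x => iteratedDeriv 1 u x 0) :=
      (continuous_apply 0).comp (Drift_contD hcon.smooth 1)
    have hibp := intervalIntegral.integral_mul_deriv_eq_deriv_mul (a := 0) (b := 2 * Real.pi)
      (u := xi (-1) p p⁻¹ u) (v := fun x => u x 0)
      (u' := fun x => p⁻¹ * B (-1) (v x) (w x) - M) (v' := fun x => iteratedDeriv 1 u x 0)
      (fun x _ => hxd' x) (fun x _ => Drift_deriv0 hcon.smooth x) (hxdc.intervalIntegrable _ _)
      (h1c.intervalIntegrable _ _)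
    rw [hx0, hx1] at hibp
    unfold per
    have hpr : Continuous (fun x => (p⁻¹ * B (-1) (v x) (w x) - M) * u x 0) := hxdc.mul hgc
    have hxm : Continuous (fun x => xi (-1) p p⁻¹ u x * iteratedDeriv 1 u x 0) := hxc.mul h1c
    rw [intervalIntegral.integral_sub (hv0.intervalIntegrable _ _)
      (hpr.intervalIntegrable _ _)]
    have e : (fun x => rhs (-1) p p⁻¹ u x 0) =
        fun x => v x 0 + xi (-1) p p⁻¹ u x * iteratedDeriv 1 u x 0 := by
      funext x
      rw [Drift_rhs]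
      simp [hv]
    rw [e, intervalIntegral.integral_add (hv0.intervalIntegrable _ _)
      (hxm.intervalIntegrable _ _), hibp]
    ring
  rw [hmain]
  refine (intervalIntegral.abs_integral_le_integral_abs (by positivity)).trans ?_
  have h1 : ∫ x in (0 : ℝ)..(2 * Real.pi), |v x 0 - (p⁻¹ * B (-1) (v x) (w x) - M) * u x 0| ≤
      ∫ x in (0 : ℝ)..(2 * Real.pi), S * ((1 + B (-1) (v x) (v x)) / 2 +
        (p⁻¹ * ((B (-1) (v x) (v x) + rho (-1) p u x) / 2) + |M|)) := by
    apply intervalIntegral.integral_mono_on (by positivity)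
    · exact ((hv0.sub (hxdc.mul hgc)).abs).intervalIntegrable _ _
    · apply Continuous.intervalIntegrable
      fun_prop
    · intro x _
      have a1 := Drift_abs0 (Drift_mem hcon x).1 (hpos x) (hvt x)
      have a2 := habs x
      have a3 : |(p⁻¹ * B (-1) (v x) (w x) - M) * u x 0| ≤
          (p⁻¹ * ((B (-1) (v x) (v x) + rho (-1) p u x) / 2) + |M|) * u x 0 := by
        rw [abs_mul, abs_of_pos (hpos x)]
        apply mul_le_mul_of_nonneg_right _ (hpos x).le
        refine (abs_sub _ _).trans ?_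
        rw [abs_mul, abs_of_pos hp']
        gcongr
      have a4 : 0 ≤ (1 + B (-1) (v x) (v x)) / 2 +
          (p⁻¹ * ((B (-1) (v x) (v x) + rho (-1) p u x) / 2) + |M|) := by
        have b1 := hvv0 x
        have b2 := hww0 x
        rw [hww x] at b2
        positivity
      calc |v x 0 - (p⁻¹ * B (-1) (v x) (w x) - M) * u x 0|
          ≤ |v x 0| + |(p⁻¹ * B (-1) (v x) (w x) - M) * u x 0| := abs_sub _ _
        _ ≤ ((1 + B (-1) (v x) (v x)) / 2 +
          (p⁻¹ * ((B (-1) (v x) (v x) + rho (-1) p u x) / 2) + |M|)) * u x 0 := by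
            rw [add_mul]; exact add_le_add a1 a3
        _ ≤ _ := by
            rw [mul_comm]
            exact mul_le_mul_of_nonneg_right (hsup x) a4
  refine h1.trans ?_
  rw [intervalIntegral.integral_const_mul]
  have hS0 : 0 ≤ S := (hpos 0).le.trans (hsup 0)
  apply mul_le_mul_of_nonneg_left _ hS0
  have h2 : ∫ x in (0 : ℝ)..(2 * Real.pi), ((1 + B (-1) (v x) (v x)) / 2 +
        (p⁻¹ * ((B (-1) (v x) (v x) + rho (-1) p u x) / 2) + |M|)) =
      Real.pi + dis (-1) p u / 2 + (p⁻¹ * ((dis (-1) p u + per (rho (-1) p u)) / 2) +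
        2 * Real.pi * |M|) := by
    rw [intervalIntegral.integral_add, intervalIntegral.integral_add,
      intervalIntegral.integral_const_mul, intervalIntegral.integral_div,
      intervalIntegral.integral_div, intervalIntegral.integral_add, intervalIntegral.integral_add,
      intervalIntegral.integral_const, intervalIntegral.integral_const, smul_eq_mul, smul_eq_mul]
    · unfold dis per
      ring
    all_goals (apply Continuous.intervalIntegrable; fun_prop)
  rw [h2]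
  linarith

/-! ## the item -/

theorem Drift_anti {a b : ℝ} {f f' : ℝ → ℝ}
    (hf : ∀ t ∈ Icc a b, HasDerivWithinAt f (f' t) (Icc a b) t)
    (h0 : ∀ t ∈ Icc a b, f' t ≤ 0) : ∀ t ∈ Icc a b, f t ≤ f a := by
  intro t ht
  have hanti : AntitoneOn f (Icc a b) := by
    apply antitoneOn_of_hasDerivWithinAt_nonpos (convex_Icc a b) (f' := f')
    · exact fun x hx => (hf x hx).continuousWithinAt
    · intro x hx
      exact (hf x (interior_subset hx)).mono interior_subset
    · intro x hx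
      exact h0 x (interior_subset hx)
  exact hanti ⟨le_rfl, ht.1.trans ht.2⟩ ht ht.1

theorem Drift_R {n : ℕ} {p K E0 : ℝ} {u : ℝ → V n} (hcon : Con (-1) p u) (hpK : p ≤ K)
    (hen : en (-1) p u ≤ E0) (hE0 : 0 ≤ E0) :
    per (rho (-1) p u) ≤ K * Real.sqrt K * E0 + 2 * Real.pi * K ^ 2 := by
  have hp := hcon.pos
  have hpi := Real.pi_pos
  have hsq : 0 < Real.sqrt p := Real.sqrt_pos.mpr hp
  have hc := Drift_contB (-1) (Drift_contD hcon.smooth 2) (Drift_contD hcon.smooth 2)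
  have h1 : per (rho (-1) p u) =
      per (fun x => B (-1) (iteratedDeriv 2 u x) (iteratedDeriv 2 u x)) + 2 * Real.pi * p ^ 2 := by
    unfold per rho
    rw [intervalIntegral.integral_sub (hc.intervalIntegrable _ _)
      (continuous_const.intervalIntegrable _ _), intervalIntegral.integral_const, smul_eq_mul]
    ring
  have h2 : per (fun x => B (-1) (iteratedDeriv 2 u x) (iteratedDeriv 2 u x)) ≤
      p * Real.sqrt p * E0 := by
    have h3 : (p * Real.sqrt p)⁻¹ *
        per (fun x => B (-1) (iteratedDeriv 2 u x) (iteratedDeriv 2 u x)) ≤ E0 := by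
      have h4 : 0 ≤ 2 * Real.pi * (1 - (-1)) * Real.sqrt p := by positivity
      unfold en at hen
      linarith
    have hpp : 0 < p * Real.sqrt p := by positivity
    rw [inv_mul_le_iff₀ hpp] at h3
    exact h3
  have hK0 : 0 ≤ K := hp.le.trans hpK
  have h5 : p * Real.sqrt p ≤ K * Real.sqrt K := by
    have := Real.sqrt_le_sqrt hpK
    gcongr
  have h6 : p ^ 2 ≤ K ^ 2 := by gcongr
  rw [h1]
  have h7 : p * Real.sqrt p * E0 ≤ K * Real.sqrt K * E0 := mul_le_mul_of_nonneg_right h5 hE0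
  have h8 : 2 * Real.pi * p ^ 2 ≤ 2 * Real.pi * K ^ 2 := by gcongr
  linarith

theorem claimDrift (hB : BRules) (hIds : ConIds) (hVT : ClaimVelTan) (hXi : ClaimXi)
    (hE : ClaimEnergy) (hSt : ClaimStatic) (hItv : ItvBasic) (hDt : JSDt) (hPer : JSPer) :
    ClaimDrift := by
  intro n σ E0 hσ
  rcases hσ with rfl | rfl
  · refine ⟨1, one_pos, ?_⟩
    intro a b u p hab hba hsol hen h0 t ht x
    have := (hsol.con t ht).mem x
    rw [Drift_nsq 1, this.1]; norm_num
  · obtain ⟨K, hK, hst⟩ := hSt n (-1) E0 (Or.inr rfl)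
    have hpi := Real.pi_pos
    set c1 : ℝ := K * Real.sqrt K with hc1
    set R0 : ℝ := c1 * |E0| + 2 * Real.pi * K ^ 2 with hR0
    set A : ℝ := DriftE K * (Real.pi + 1 / 2 + K + K * R0) with hA
    set U : ℝ := DriftE K * (2 * Real.pi * DriftE K * Real.exp (A + A * c1 * |E0|)) with hU
    have hc1' : 0 < c1 := by
      have := Real.sqrt_pos.mpr hK
      positivity
    have hR0' : 0 < R0 := by positivity
    have hEK : 0 < DriftE K := Real.exp_pos _
    have hA' : 0 < A := by positivity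
    refine ⟨2 * U ^ 2 + 1, by positivity, ?_⟩
    intro a b u p hab hba hsol hen h0 t ht x
    have hI : Itv (Icc a b) := Or.inr ⟨a, b, hab, rfl⟩
    have haI : a ∈ Icc a b := ⟨le_rfl, hab.le⟩
    -- dissipation
    have hdis : ∀ s ∈ Icc a b, 0 ≤ dis (-1) (p s) (u s) := fun s hs =>
      (Drift_rate hB hVT hXi hIds (hsol.con s hs)).1
    have hppos : ∀ s ∈ Icc a b, 0 < p s * Real.sqrt (p s) := fun s hs => by
      have h1 := (hsol.con s hs).pos
      have h2 := Real.sqrt_pos.mpr h1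
      positivity
    have hen' := hE n (-1) (Icc a b) u p (Or.inr rfl) hI hsol
    have henle : ∀ s ∈ Icc a b, en (-1) (p s) (u s) ≤ E0 := fun s hs =>
      (Drift_anti hen' (fun s hs => by
        have h1 := hdis s hs
        have h2 := hppos s hs
        have h3 := inv_pos.mpr h2
        nlinarith [mul_nonneg h3.le h1]) s hs).trans hen
    have hbd : ∀ s ∈ Icc a b, K⁻¹ ≤ p s ∧ p s ≤ K ∧ 0 ≤ en (-1) (p s) (u s) := fun s hs => by
      obtain ⟨h1, h2, h3, -⟩ := hst (u s) (p s) (hsol.con s hs) (henle s hs)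
      exact ⟨h1, h2, h3⟩
    have hE0 : 0 ≤ E0 := (hbd a haI).2.2.trans hen
    have hEE : |E0| = E0 := abs_of_nonneg hE0
    have hDE : ∀ s ∈ Icc a b, DriftE (p s) ≤ DriftE K := fun s hs => by
      have := (hbd s hs).2.1
      unfold DriftE
      apply Real.exp_le_exp.mpr
      gcongr
    -- the mean height
    set f : ℝ → ℝ := fun s => per (fun y => u s y 0) with hf
    have hfpos : ∀ s ∈ Icc a b, 0 < f s := fun s hs => Drift_perpos hIds (hsol.con s hs)
    obtain ⟨ut, hut, hutd⟩ := hDt (n + 1) (Icc a b) u hI hsol.sol.smooth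
    have hut0 : ∀ s ∈ Icc a b, ∀ y, ut s y = rhs (-1) (p s) (p s)⁻¹ (u s) y := by
      intro s hs y
      have h1 := hutd 0 s hs y
      simp only [iteratedDeriv_zero] at h1
      exact ((hItv _ hI).1 s hs).eq_deriv _ h1 (hsol.sol.eqn s hs y)
    have hfd : ∀ s ∈ Icc a b, HasDerivWithinAt f
        (per (fun y => rhs (-1) (p s) (p s)⁻¹ (u s) y 0)) (Icc a b) s := by
      intro s hs
      have h1 : JS (Icc a b) (fun s y => u s y 0) := (contDiffOn_pi.mp hsol.sol.smooth) 0
      have h2 : JS (Icc a b) (fun s y => ut s y 0) := (contDiffOn_pi.mp hut) 0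
      have h3 := (hPer (Icc a b) (fun s y => u s y 0) (fun s y => ut s y 0) hI h1 h2 (by
        intro s hs y
        have h1 := hutd 0 s hs y
        simp only [iteratedDeriv_zero] at h1
        exact (hasDerivWithinAt_pi.mp h1) 0)).2 s hs
      have e : (fun y => ut s y 0) = fun y => rhs (-1) (p s) (p s)⁻¹ (u s) y 0 := by
        funext y; rw [hut0 s hs y]
      rw [e] at h3
      exact h3
    have hrate : ∀ s ∈ Icc a b, |per (fun y => rhs (-1) (p s) (p s)⁻¹ (u s) y 0)| ≤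
        A * (1 + dis (-1) (p s) (u s)) * f s := by
      intro s hs
      have h1 := (Drift_rate hB hVT hXi hIds (hsol.con s hs)).2
      refine h1.trans ?_
      have hD := hdis s hs
      set D := dis (-1) (p s) (u s) with hDdef
      have hR : per (rho (-1) (p s) (u s)) ≤ R0 := by
        rw [hR0, hEE]
        exact Drift_R (hsol.con s hs) (hbd s hs).2.1 (henle s hs) hE0
      have hps := (hsol.con s hs).pos
      have hpi' : (p s)⁻¹ ≤ K := by
        rw [inv_le_comm₀ hps hK]; exact (hbd s hs).1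
      have h2 : (p s)⁻¹ * (D + per (rho (-1) (p s) (u s))) ≤ K * (D + R0) :=
        calc (p s)⁻¹ * (D + per (rho (-1) (p s) (u s))) ≤ (p s)⁻¹ * (D + R0) := by gcongr
          _ ≤ K * (D + R0) := by gcongr
      have h3 : Real.pi + D / 2 + (p s)⁻¹ * (D + per (rho (-1) (p s) (u s))) ≤
          (Real.pi + 1 / 2 + K + K * R0) * (1 + D) := by
        have : 0 ≤ K * R0 * D := by positivity
        nlinarith [mul_nonneg hpi.le hD]
      have hfs : 0 < f s := hfpos s hs
      have h4 : DriftE (p s) * f s ≤ DriftE K * f s :=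
        mul_le_mul_of_nonneg_right (hDE s hs) hfs.le
      calc DriftE (p s) * f s * (Real.pi + D / 2 +
            (p s)⁻¹ * (D + per (rho (-1) (p s) (u s))))
          ≤ DriftE (p s) * f s * ((Real.pi + 1 / 2 + K + K * R0) * (1 + D)) := by
            apply mul_le_mul_of_nonneg_left h3
            have : 0 < DriftE (p s) := Real.exp_pos _
            positivity
        _ ≤ DriftE K * f s * ((Real.pi + 1 / 2 + K + K * R0) * (1 + D)) := by
            apply mul_le_mul_of_nonneg_right h4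
            positivity
        _ = A * (1 + D) * f s := by rw [hA]; ring
    -- monotone quantity
    have hG := Drift_anti (a := a) (b := b)
      (f := fun s => Real.log (f s) - A * s + A * c1 * en (-1) (p s) (u s))
      (f' := fun s => per (fun y => rhs (-1) (p s) (p s)⁻¹ (u s) y 0) / f s - A * 1 +
        A * c1 * (-((p s * Real.sqrt (p s))⁻¹ * dis (-1) (p s) (u s))))
      (fun s hs => (((hfd s hs).log (hfpos s hs).ne').sub
        ((hasDerivWithinAt_id s _).const_mul A)).add ((hen' s hs).const_mul (A * c1)))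
      (by
        intro s hs
        have hD := hdis s hs
        have h1 := hrate s hs
        have hfs := hfpos s hs
        have h2 : per (fun y => rhs (-1) (p s) (p s)⁻¹ (u s) y 0) / f s ≤
            A * (1 + dis (-1) (p s) (u s)) := by
          rw [div_le_iff₀ hfs]
          exact (le_abs_self _).trans h1
        have h3 : 1 ≤ c1 * (p s * Real.sqrt (p s))⁻¹ := by
          have h4 := hppos s hs
          rw [← div_eq_mul_inv, le_div_iff₀ h4, one_mul, hc1]
          have h5 := (hbd s hs).2.1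
          have h6 := Real.sqrt_le_sqrt h5
          have h7 := (hsol.con s hs).pos
          gcongr
        have h8 : A * dis (-1) (p s) (u s) ≤
            A * (c1 * (p s * Real.sqrt (p s))⁻¹) * dis (-1) (p s) (u s) := by
          apply mul_le_mul_of_nonneg_right _ hD
          exact le_mul_of_one_le_right hA'.le h3
        nlinarith) t ht
    have hfa : f a ≤ 2 * Real.pi * DriftE K := by
      have h1 := (Drift_range hIds (hsol.con a haI) 0).2
      have h2 : u a 0 0 = 1 := by rw [h0]; simp [e0]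
      rw [h2, mul_one] at h1
      refine h1.trans ?_
      have := hDE a haI
      gcongr
    have hft : f t ≤ 2 * Real.pi * DriftE K * Real.exp (A + A * c1 * |E0|) := by
      have h1 : Real.log (f t) ≤ Real.log (f a) + (A + A * c1 * |E0|) := by
        have h2 : A * (t - a) ≤ A * 1 := by
          apply mul_le_mul_of_nonneg_left _ hA'.le
          linarith [ht.2]
        have h3 : A * c1 * en (-1) (p a) (u a) ≤ A * c1 * |E0| := by
          rw [hEE]
          apply mul_le_mul_of_nonneg_left hen (by positivity)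
        have h4 : 0 ≤ A * c1 * en (-1) (p t) (u t) :=
          mul_nonneg (by positivity) (hbd t ht).2.2
        linarith
      calc f t = Real.exp (Real.log (f t)) := (Real.exp_log (hfpos t ht)).symm
        _ ≤ Real.exp (Real.log (f a) + (A + A * c1 * |E0|)) := Real.exp_le_exp.mpr h1
        _ = f a * Real.exp (A + A * c1 * |E0|) := by
            rw [Real.exp_add, Real.exp_log (hfpos a haI)]
        _ ≤ _ := mul_le_mul_of_nonneg_right hfa (Real.exp_pos _).le
    have hux : u t x 0 ≤ U := by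
      refine (Drift_range hIds (hsol.con t ht) x).1.trans ?_
      have h1 : DriftE (p t) * f t ≤ DriftE K * f t :=
        mul_le_mul_of_nonneg_right (hDE t ht) (hfpos t ht).le
      refine h1.trans ?_
      rw [hU]
      exact mul_le_mul_of_nonneg_left hft hEK.le
    obtain ⟨m1, m2⟩ := Drift_mem (hsol.con t ht) x
    rw [Drift_nsq (-1), m1]
    have : u t x 0 ^ 2 ≤ U ^ 2 := by gcongr
    linarith

end Pool.Agent.Work.MP_4a14ce_an

end

section

/-!
# The energy identity in the constant speed gauge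
-/

open Set MeasureTheory Topology Filter
open scoped ContDiff

namespace Pool.Agent.Work.MP_4a14ce_an

variable {n : ℕ}

/-! ## the bilinear form -/

lemma energy_B_symm (σ : ℝ) (x y : V n) : B σ x y = B σ y x := by
  unfold B
  congr 1
  · ring
  · exact Finset.sum_congr rfl fun i _ => mul_comm _ _

lemma energy_B_add (σ : ℝ) (x y z : V n) : B σ (x + y) z = B σ x z + B σ y z := by
  unfold B
  simp only [Pi.add_apply, add_mul, Finset.sum_add_distrib]
  ring

lemma energy_B_smul (σ c : ℝ) (x z : V n) : B σ (c • x) z = c * B σ x z := by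
  unfold B
  simp only [Pi.smul_apply, smul_eq_mul, mul_add, Finset.mul_sum]
  congr 1
  · ring
  · exact Finset.sum_congr rfl fun i _ => by ring

lemma energy_B_neg (σ : ℝ) (x z : V n) : B σ (-x) z = - B σ x z := by
  have := energy_B_smul σ (-1) x z
  simpa using this

lemma energy_B_sub (σ : ℝ) (x y z : V n) : B σ (x - y) z = B σ x z - B σ y z := by
  rw [sub_eq_add_neg, energy_B_add, energy_B_neg]
  ring

lemma energy_B_add' (σ : ℝ) (x y z : V n) : B σ z (x + y) = B σ z x + B σ z y := by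
  rw [energy_B_symm, energy_B_add, energy_B_symm σ x z, energy_B_symm σ y z]

lemma energy_B_smul' (σ c : ℝ) (x z : V n) : B σ z (c • x) = c * B σ z x := by
  rw [energy_B_symm, energy_B_smul, energy_B_symm σ x z]

lemma energy_B_neg' (σ : ℝ) (x z : V n) : B σ z (-x) = - B σ z x := by
  rw [energy_B_symm, energy_B_neg, energy_B_symm σ x z]

lemma energy_B_sub' (σ : ℝ) (x y z : V n) : B σ z (x - y) = B σ z x - B σ z y := by
  rw [energy_B_symm, energy_B_sub, energy_B_symm σ x z, energy_B_symm σ y z]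

lemma energy_B_cont (σ : ℝ) {X : Type*} [TopologicalSpace X] {F G : X → V n} (hF : Continuous F)
    (hG : Continuous G) : Continuous (fun x => B σ (F x) (G x)) := by
  unfold B
  fun_prop

lemma energy_B_deriv (σ : ℝ) {f g : ℝ → V n} {f' g' : V n} {s : Set ℝ} {x : ℝ}
    (hf : HasDerivWithinAt f f' s x) (hg : HasDerivWithinAt g g' s x) :
    HasDerivWithinAt (fun y => B σ (f y) (g y)) (B σ f' (g x) + B σ (f x) g') s x := by
  have hf' := hasDerivWithinAt_pi.1 hf
  have hg' := hasDerivWithinAt_pi.1 hg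
  unfold B
  have h0 := ((hf' 0).mul (hg' 0)).const_mul σ
  have h1 : HasDerivWithinAt (fun y => ∑ i : Fin n, f y i.succ * g y i.succ)
      (∑ i : Fin n, (f' i.succ * g x i.succ + f x i.succ * g' i.succ)) s x :=
    HasDerivWithinAt.fun_sum fun i _ => (hf' i.succ).mul (hg' i.succ)
  refine (h0.add h1).congr_deriv ?_
  rw [Finset.sum_add_distrib]
  ring

lemma energy_B_JS (σ : ℝ) {I : Set ℝ} {F G : ℝ → ℝ → V n} (hF : JS I F) (hG : JS I G) :
    JS I (fun t x => B σ (F t x) (G t x)) := by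
  unfold JS at *
  have hF' := contDiffOn_pi.1 hF
  have hG' := contDiffOn_pi.1 hG
  unfold B
  refine ContDiffOn.add (contDiffOn_const.mul ((hF' 0).mul (hG' 0))) ?_
  exact ContDiffOn.sum fun i _ => (hF' i.succ).mul (hG' i.succ)

/-! ## one variable calculus -/

lemma energy_iter_deriv {f : ℝ → V n} (hf : ContDiff ℝ ∞ f) (j : ℕ) (x : ℝ) :
    HasDerivAt (iteratedDeriv j f) (iteratedDeriv (j + 1) f x) x := by
  rw [iteratedDeriv_succ]
  refine DifferentiableAt.hasDerivAt ?_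
  have h1 : ContDiff ℝ (j + 1 : ℕ) f := hf.of_le (by exact_mod_cast le_top)
  exact (h1.differentiable_iteratedDeriv j (by exact_mod_cast Nat.lt_succ_self j)) x

lemma energy_iter_cont {f : ℝ → V n} (hf : ContDiff ℝ ∞ f) (j : ℕ) :
    Continuous (iteratedDeriv j f) :=
  continuous_iff_continuousAt.2 fun x => (energy_iter_deriv hf j x).continuousAt

lemma energy_iter_per {f : ℝ → V n} (hf : Function.Periodic f (2 * Real.pi)) (j : ℕ) :
    Function.Periodic (iteratedDeriv j f) (2 * Real.pi) := by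
  induction j with
  | zero => simpa using hf
  | succ j ih =>
    intro x
    rw [iteratedDeriv_succ]
    have h1 : deriv (iteratedDeriv j f) (x + 2 * Real.pi) =
        deriv (fun y => iteratedDeriv j f (y + 2 * Real.pi)) x := by
      rw [deriv_comp_add_const]
    rw [h1]
    congr 1
    funext y
    exact ih y

/-- integration by parts over a period -/
lemma energy_ibp (σ : ℝ) {F G F' G' : ℝ → V n} (hF : ∀ x, HasDerivAt F (F' x) x)
    (hG : ∀ x, HasDerivAt G (G' x) x) (hF' : Continuous F') (hG' : Continuous G')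
    (pF : Function.Periodic F (2 * Real.pi)) (pG : Function.Periodic G (2 * Real.pi)) :
    per (fun x => B σ (F' x) (G x)) = - per (fun x => B σ (F x) (G' x)) := by
  have cF : Continuous F := continuous_iff_continuousAt.2 fun x => (hF x).continuousAt
  have cG : Continuous G := continuous_iff_continuousAt.2 fun x => (hG x).continuousAt
  have c1 := energy_B_cont σ hF' cG
  have c2 := energy_B_cont σ cF hG'
  have h1 : ∀ x ∈ uIcc 0 (2 * Real.pi), HasDerivAt (fun y => B σ (F y) (G y))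
      (B σ (F' x) (G x) + B σ (F x) (G' x)) x := by
    intro x _
    have := energy_B_deriv σ (s := univ) (hF x).hasDerivWithinAt (hG x).hasDerivWithinAt
    rwa [hasDerivWithinAt_univ] at this
  have h2 := intervalIntegral.integral_eq_sub_of_hasDerivAt h1
    ((c1.add c2).intervalIntegrable _ _)
  have e1 : F (2 * Real.pi) = F 0 := by simpa using pF 0
  have e2 : G (2 * Real.pi) = G 0 := by simpa using pG 0
  rw [e1, e2, sub_self] at h2
  unfold per
  rw [intervalIntegral.integral_add (c1.intervalIntegrable _ _) (c2.intervalIntegrable _ _)] at h2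
  linarith

theorem claimEnergy (h1 : ClaimVelTan) (h2 : ClaimXi) (hIB : ItvBasic) (hSl : JSSlice)
    (hDt : JSDt) (hJP : JSPer) (hCI : ConIds) : ClaimEnergy := by
  intro n σ I u p hσ hI hC t ht
  obtain ⟨hU, -, -⟩ := hIB I hI
  have hJu := hC.sol.smooth
  obtain ⟨ut, hJut, hut⟩ := hDt (n + 1) I u hI hJu
  have hcon := hC.con t ht
  obtain ⟨hs, hper, hmem, hspeed, hppos⟩ := hcon
  -- the time derivative
  have hut0 : ∀ x, ut t x = rhs σ (p t) (p t)⁻¹ (u t) x := by
    intro x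
    have a1 := hut 0 t ht x
    simp only [iteratedDeriv_zero] at a1
    exact (hU t ht).eq_deriv _ a1 (hC.sol.eqn t ht x)
  have hutper : Function.Periodic (ut t) (2 * Real.pi) := by
    intro x
    have a1 := hut 0 t ht x
    have a2 := hut 0 t ht (x + 2 * Real.pi)
    simp only [iteratedDeriv_zero] at a1 a2
    have a3 : HasDerivWithinAt (fun s => u s x) (ut t (x + 2 * Real.pi)) I t := by
      refine a2.congr (fun s hs => ?_) ?_
      · exact (hC.sol.periodic s hs x).symm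
      · exact (hC.sol.periodic t ht x).symm
    exact (hU t ht).eq_deriv _ a3 a1
  have huts : ContDiff ℝ ∞ (ut t) := (hSl (n + 1) I ut hI hJut).1 t ht
  -- abbreviations
  set P : ℝ := p t with hP
  set U : ℝ → V n := u t with hUdef
  set m : ℝ := P⁻¹ with hm
  set M : ℝ := mu σ P m U with hM
  have hPm : P * m = 1 := by rw [hm]; exact mul_inv_cancel₀ hppos.ne'
  have D := energy_iter_deriv hs
  have cD := energy_iter_cont hs
  have pD := energy_iter_per hper
  have cU : Continuous U := hs.continuous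
  -- derivative of the quadratic functional
  have hder : HasDerivWithinAt
      (fun s => per (fun x => B σ (iteratedDeriv 2 (u s) x) (iteratedDeriv 2 (u s) x)))
      (per (fun x => 2 * B σ (iteratedDeriv 4 U x) (ut t x))) I t := by
    have j2 := (hSl (n + 1) I u hI hJu).2 2
    have jt2 := (hSl (n + 1) I ut hI hJut).2 2
    have a1 := (hJP I (fun s x => B σ (iteratedDeriv 2 (u s) x) (iteratedDeriv 2 (u s) x))
      (fun s x => B σ (iteratedDeriv 2 (ut s) x) (iteratedDeriv 2 (u s) x) +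
        B σ (iteratedDeriv 2 (u s) x) (iteratedDeriv 2 (ut s) x)) hI
      (energy_B_JS σ j2 j2) ((energy_B_JS σ jt2 j2).add (energy_B_JS σ j2 jt2))
      (fun s hs x => energy_B_deriv σ (hut 2 s hs x) (hut 2 s hs x))).2 t ht
    refine a1.congr_deriv ?_
    have b1 := energy_ibp σ (F := iteratedDeriv 3 U) (G := ut t) (F' := iteratedDeriv 4 U)
      (G' := iteratedDeriv 1 (ut t)) (D 3) (fun x => by
        have := energy_iter_deriv huts 0 x
        simpa [iteratedDeriv_zero] using this) (cD 4) (energy_iter_cont huts 1) (pD 3) hutper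
    have b2 := energy_ibp σ (F := iteratedDeriv 2 U) (G := iteratedDeriv 1 (ut t))
      (F' := iteratedDeriv 3 U) (G' := iteratedDeriv 2 (ut t)) (D 2)
      (energy_iter_deriv huts 1) (cD 3) (energy_iter_cont huts 2) (pD 2)
      (energy_iter_per hutper 1)
    have b3 : per (fun x => B σ (iteratedDeriv 2 U x) (iteratedDeriv 2 (ut t) x)) =
        per (fun x => B σ (iteratedDeriv 4 U x) (ut t x)) := by
      rw [b1, b2, neg_neg]
    have b4 : ∀ x, B σ (iteratedDeriv 2 (ut t) x) (iteratedDeriv 2 U x) +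
        B σ (iteratedDeriv 2 U x) (iteratedDeriv 2 (ut t) x) =
        2 * B σ (iteratedDeriv 2 U x) (iteratedDeriv 2 (ut t) x) := by
      intro x
      rw [energy_B_symm σ (iteratedDeriv 2 (ut t) x)]
      ring
    have b5 : per (fun x => B σ (iteratedDeriv 2 (ut t) x) (iteratedDeriv 2 U x) +
        B σ (iteratedDeriv 2 U x) (iteratedDeriv 2 (ut t) x)) =
        2 * per (fun x => B σ (iteratedDeriv 2 U x) (iteratedDeriv 2 (ut t) x)) := by
      unfold per
      simp_rw [b4]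
      rw [intervalIntegral.integral_const_mul]
    have b6 : per (fun x => 2 * B σ (iteratedDeriv 4 U x) (ut t x)) =
        2 * per (fun x => B σ (iteratedDeriv 4 U x) (ut t x)) := by
      unfold per
      rw [intervalIntegral.integral_const_mul]
    rw [b6, ← b3]
    exact b5
  -- continuity
  have crho : Continuous (rho σ P U) := by
    unfold rho
    exact (energy_B_cont σ (cD 2) (cD 2)).sub continuous_const
  have crhox : Continuous (rhox σ U) := by
    unfold rhox
    exact continuous_const.mul (energy_B_cont σ (cD 2) (cD 3))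
  have ceta : Continuous (eta σ P U) := by
    unfold eta
    exact ((energy_B_cont σ (cD 3) (cD 3)).sub (continuous_const.mul
      (energy_B_cont σ (cD 2) (cD 2)))).add continuous_const
  have chh : Continuous (hh σ P m U) := by
    unfold hh
    fun_prop
  have cbeta : Continuous (beta σ P m U) := by
    unfold beta
    fun_prop
  have d1 := cD 1
  have d2 := cD 2
  have d4 := cD 4
  have cvel : Continuous (fun x => vel σ P m U x) := by
    unfold vel
    fun_prop
  have drho : ∀ x, HasDerivAt (rho σ P U) (rhox σ U x) x := by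
    intro x
    have a1 := energy_B_deriv σ (s := univ) (D 2 x).hasDerivWithinAt (D 2 x).hasDerivWithinAt
    rw [hasDerivWithinAt_univ] at a1
    have a2 := a1.sub_const (σ * P ^ 2)
    refine a2.congr_deriv ?_
    unfold rhox
    rw [energy_B_symm σ (iteratedDeriv (2 + 1) U x)]
    ring
  -- the tangential part
  obtain ⟨xi0, dxi⟩ := h2 n σ P U hσ (hC.con t ht)
  have hvt := h1 n σ P U hσ (hC.con t ht)
  have hci := hCI n σ P U hσ (hC.con t ht)
  simp only [← hm, ← hM] at xi0 dxi hvt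
  have hMper : per (hh σ P m U) = 2 * Real.pi * M := by
    rw [hM]
    unfold mu
    have : (0:ℝ) < 2 * Real.pi := by positivity
    field_simp
  have prhox : rhox σ U (2 * Real.pi) = rhox σ U 0 := by
    unfold rhox
    have a1 : iteratedDeriv 2 U (2 * Real.pi) = iteratedDeriv 2 U 0 := by simpa using pD 2 0
    have a2 : iteratedDeriv 3 U (2 * Real.pi) = iteratedDeriv 3 U 0 := by simpa using pD 3 0
    rw [a1, a2]
  have xi2 : xi σ P m U (2 * Real.pi) = 0 := by
    unfold xi alpha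
    rw [prhox, ← hM, intervalIntegral.integral_sub (chh.intervalIntegrable _ _)
      (continuous_const.intervalIntegrable _ _), intervalIntegral.integral_const]
    have a1 : (∫ y in (0:ℝ)..(2 * Real.pi), hh σ P m U y) = 2 * Real.pi * M := hMper
    rw [a1, smul_eq_mul]
    ring
  have dK : ∀ x, HasDerivAt
      (fun y => (4 * σ - 1) * P ^ 2 * xi σ P m U y + 3 * (xi σ P m U y * rho σ P U y))
      ((4 * σ - 1) * P ^ 2 * (m * B σ (vel σ P m U x) (iteratedDeriv 2 U x + (σ * P) • U x) - M) +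
        3 * ((m * B σ (vel σ P m U x) (iteratedDeriv 2 U x + (σ * P) • U x) - M) * rho σ P U x +
          xi σ P m U x * rhox σ U x)) x := fun x =>
    ((dxi x).const_mul _).add (((dxi x).mul (drho x)).const_mul 3)
  have cxi : Continuous (xi σ P m U) :=
    continuous_iff_continuousAt.2 fun x => (dxi x).continuousAt
  have cw : Continuous (fun x => B σ (vel σ P m U x) (iteratedDeriv 2 U x + (σ * P) • U x)) :=
    energy_B_cont σ cvel (by fun_prop)
  have cK : Continuous fun x =>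
      ((4 * σ - 1) * P ^ 2 * (m * B σ (vel σ P m U x) (iteratedDeriv 2 U x + (σ * P) • U x) - M) +
        3 * ((m * B σ (vel σ P m U x) (iteratedDeriv 2 U x + (σ * P) • U x) - M) * rho σ P U x +
          xi σ P m U x * rhox σ U x)) := by
    fun_prop
  have iK := intervalIntegral.integral_eq_sub_of_hasDerivAt (a := 0) (b := 2 * Real.pi)
    (fun x _ => dK x) (cK.intervalIntegrable _ _)
  rw [xi0, xi2] at iK
  -- the pointwise identity
  have hpt : ∀ x, 2 * B σ (iteratedDeriv 4 U x) (ut t x) =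
      - B σ (vel σ P m U x) (vel σ P m U x)
        + (-3 * M) * B σ (iteratedDeriv 2 U x) (iteratedDeriv 2 U x) + (1 - σ) * P ^ 2 * M
        - ((4 * σ - 1) * P ^ 2 * (m * B σ (vel σ P m U x) (iteratedDeriv 2 U x + (σ * P) • U x) - M)
          + 3 * ((m * B σ (vel σ P m U x) (iteratedDeriv 2 U x + (σ * P) • U x) - M) * rho σ P U x
            + xi σ P m U x * rhox σ U x)) := by
    intro x
    obtain ⟨v, hv⟩ : ∃ v, v = vel σ P m U x := ⟨_, rfl⟩
    have e1 : ut t x = v + xi σ P m U x • iteratedDeriv 1 U x := by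
      rw [hut0 x, hv]
      unfold rhs vel xi
      module
    have hv0 : B σ v (U x) = 0 := by rw [hv]; exact (hvt x).1
    have hv1 : B σ v (iteratedDeriv 1 U x) = 0 := by
      rw [hv, iteratedDeriv_one]
      exact (hvt x).2
    have e2 : B σ v (vel σ P m U x) = -2 * B σ v (iteratedDeriv 4 U x)
        - 2 * σ * P * B σ v (iteratedDeriv 2 U x)
        - beta σ P m U x * B σ v (iteratedDeriv 2 U x) := by
      unfold vel
      rw [energy_B_sub', energy_B_add', energy_B_sub', energy_B_sub', energy_B_smul',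
        energy_B_smul', energy_B_smul', energy_B_smul', energy_B_smul', energy_B_add',
        energy_B_smul', hv0, hv1]
      ring
    have e3 : B σ (iteratedDeriv 4 U x) (iteratedDeriv 1 U x) =
        -3 * B σ (iteratedDeriv 2 U x) (iteratedDeriv 3 U x) := by
      rw [energy_B_symm]
      exact (hci x).2.2.2.2.2.2.2.2
    rw [← hv] at e2 ⊢
    rw [e1, energy_B_add', energy_B_smul', e3, energy_B_add', energy_B_smul', hv0, e2,
      energy_B_symm σ (iteratedDeriv 4 U x) v]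
    unfold beta rhox rho
    linear_combination ((4 * σ - 1) * P * B σ v (iteratedDeriv 2 U x)) * hPm
  have cvv := energy_B_cont σ cvel cvel
  have c22 := energy_B_cont σ d2 d2
  have hval : per (fun x => 2 * B σ (iteratedDeriv 4 U x) (ut t x)) =
      - dis σ P U + (-3 * M) *
        per (fun x => B σ (iteratedDeriv 2 U x) (iteratedDeriv 2 U x))
        + 2 * Real.pi * ((1 - σ) * P ^ 2 * M) := by
    unfold per dis per
    simp_rw [hpt]
    rw [← hm, intervalIntegral.integral_sub, iK, intervalIntegral.integral_add,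
      intervalIntegral.integral_add, intervalIntegral.integral_neg,
      intervalIntegral.integral_const_mul, intervalIntegral.integral_const, smul_eq_mul]
    · ring
    · exact cvv.neg.intervalIntegrable _ _
    · exact (continuous_const.mul c22).intervalIntegrable _ _
    · exact (cvv.neg.add (continuous_const.mul c22)).intervalIntegrable _ _
    · exact continuous_const.intervalIntegrable _ _
    · exact ((cvv.neg.add (continuous_const.mul c22)).add continuous_const).intervalIntegrable _ _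
    · exact cK.intervalIntegrable _ _
  rw [hval] at hder
  -- derivative of the energy
  have hp : HasDerivWithinAt p (-(2 * P * M)) I t := hC.sol.peqn t ht
  have hsq : HasDerivWithinAt (fun s => Real.sqrt (p s)) (-(2 * P * M) / (2 * Real.sqrt P)) I t :=
    hp.sqrt hppos.ne'
  have hr0 : 0 < Real.sqrt P := Real.sqrt_pos.2 hppos
  have hr2 : Real.sqrt P * Real.sqrt P = P := Real.mul_self_sqrt hppos.le
  have hinv := (hp.mul hsq).inv (mul_pos hppos hr0).ne'
  have htot := (hinv.mul hder).add (hsq.const_mul (2 * Real.pi * (1 - σ)))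
  unfold en
  refine htot.congr_deriv ?_
  simp only [Pi.inv_apply, Pi.mul_apply]
  rw [← hP, ← hUdef]
  generalize per (fun x => B σ (iteratedDeriv 2 U x) (iteratedDeriv 2 U x)) = Q
  generalize dis σ P U = d
  clear_value M
  obtain ⟨r, hr⟩ : ∃ r, r = Real.sqrt P := ⟨_, rfl⟩
  rw [← hr] at hr0 hr2 ⊢
  have hr3 : r ≠ 0 := hr0.ne'
  rw [← hr2]
  field_simp
  ring

end Pool.Agent.Work.MP_4a14ce_an

end

section

/-!
# Global existence in the constant speed gauge
-/

open Set MeasureTheory Topology Filter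
open scoped ContDiff

namespace Pool.Agent.Work.MP_4a14ce_an

namespace Glob

variable {n : ℕ} {σ : ℝ}

lemma csol_mono {u : ℝ → ℝ → V n} {p : ℝ → ℝ} {I J : Set ℝ} (h : CSol σ I u p) (hJ : J ⊆ I) :
    CSol σ J u p := by
  refine ⟨⟨?_, h.sol.psmooth.mono hJ, h.sol.msmooth.mono hJ, fun t ht => h.sol.periodic t (hJ ht),
    fun t ht x => (h.sol.eqn t (hJ ht) x).mono hJ, fun t ht => (h.sol.peqn t (hJ ht)).mono hJ,
    fun t ht => (h.sol.meqn t (hJ ht)).mono hJ⟩, fun t ht => h.con t (hJ ht)⟩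
  exact ContDiffOn.mono h.sol.smooth (prod_mono hJ Subset.rfl)

lemma csol_shift {u : ℝ → ℝ → V n} {p : ℝ → ℝ} {I I' : Set ℝ} (h : CSol σ I u p) (c : ℝ)
    (hmem : ∀ s ∈ I', c + s ∈ I) :
    CSol σ I' (fun s => u (c + s)) (fun s => p (c + s)) := by
  have hmaps : MapsTo (fun s : ℝ => c + s) I' I := hmem
  have hd : ∀ t : ℝ, HasDerivWithinAt (fun s : ℝ => c + s) 1 I' t := fun t =>
    (hasDerivWithinAt_id t _).const_add c
  refine ⟨⟨?_, ?_, ?_, fun t ht => h.sol.periodic _ (hmem t ht), fun t ht x => ?_,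
    fun t ht => ?_, fun t ht => ?_⟩, fun t ht => h.con _ (hmem t ht)⟩
  · have h1 : ContDiffOn ℝ ∞ (fun z : ℝ × ℝ => ((c + z.1, z.2) : ℝ × ℝ)) (I' ×ˢ univ) := by
      fun_prop
    exact ContDiffOn.comp (g := fun z : ℝ × ℝ => u z.1 z.2) h.sol.smooth h1
      fun z hz => ⟨hmem z.1 hz.1, mem_univ _⟩
  · exact ContDiffOn.comp (g := p) h.sol.psmooth (by fun_prop) hmaps
  · exact ContDiffOn.comp (g := fun t => (p t)⁻¹) h.sol.msmooth (by fun_prop) hmaps
  · have := (h.sol.eqn (c + t) (hmem t ht) x).scomp t (hd t) hmaps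
    rw [one_smul] at this
    exact this
  · have := (h.sol.peqn (c + t) (hmem t ht)).scomp t (hd t) hmaps
    rw [one_smul] at this
    exact this
  · have := (h.sol.meqn (c + t) (hmem t ht)).scomp t (hd t) hmaps
    rw [one_smul] at this
    exact this

/-- being a constrained solution is local in time -/
lemma csol_local (hL : JSLocal) {I : Set ℝ} {w : ℝ → ℝ → V n} {P : ℝ → ℝ}
    (h : ∀ t ∈ I, ∃ (J : Set ℝ) (v : ℝ → ℝ → V n) (q : ℝ → ℝ), IsOpen J ∧ t ∈ J ∧
      CSol σ (I ∩ J) v q ∧ ∀ s ∈ I ∩ J, w s = v s ∧ P s = q s) : CSol σ I w P := by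
  have key : ∀ {E : Type} [NormedAddCommGroup E] [NormedSpace ℝ E] (J : Set ℝ) (t : ℝ)
      (f g : ℝ → E) (f' : E), IsOpen J → t ∈ I → t ∈ J → (∀ s ∈ I ∩ J, f s = g s) →
      HasDerivWithinAt g f' (I ∩ J) t → HasDerivWithinAt f f' I t := by
    intro E _ _ J t f g f' hJ htI htJ hfg hg
    have h1 : HasDerivWithinAt f f' (I ∩ J) t := hg.congr hfg (hfg t ⟨htI, htJ⟩)
    exact (hasDerivWithinAt_inter (hJ.mem_nhds htJ)).1 h1
  have keyC : ∀ (J : Set ℝ) (t : ℝ) (f g : ℝ → ℝ), IsOpen J → t ∈ I → t ∈ J →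
      (∀ s ∈ I ∩ J, f s = g s) → ContDiffOn ℝ ∞ g (I ∩ J) → ContDiffWithinAt ℝ ∞ f I t := by
    intro J t f g hJ htI htJ hfg hg
    have h1 : ContDiffWithinAt ℝ ∞ f (I ∩ J) t :=
      (hg t ⟨htI, htJ⟩).congr hfg (hfg t ⟨htI, htJ⟩)
    exact (contDiffWithinAt_inter (hJ.mem_nhds htJ)).1 h1
  refine ⟨⟨?_, ?_, ?_, ?_, ?_, ?_, ?_⟩, ?_⟩
  · apply hL (n + 1)
    intro t ht
    obtain ⟨J, v, q, hJ, htJ, hv, hvw⟩ := h t ht
    exact ⟨J, v, hJ, htJ, hv.sol.smooth, fun s hs x => congrFun (hvw s hs).1 x⟩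
  · intro t ht
    obtain ⟨J, v, q, hJ, htJ, hv, hvw⟩ := h t ht
    exact keyC J t P q hJ ht htJ (fun s hs => (hvw s hs).2) hv.sol.psmooth
  · intro t ht
    obtain ⟨J, v, q, hJ, htJ, hv, hvw⟩ := h t ht
    exact keyC J t _ (fun s => (q s)⁻¹) hJ ht htJ (fun s hs => by
      show (P s)⁻¹ = (q s)⁻¹
      rw [(hvw s hs).2]) hv.sol.msmooth
  · intro t ht
    obtain ⟨J, v, q, hJ, htJ, hv, hvw⟩ := h t ht
    rw [(hvw t ⟨ht, htJ⟩).1]
    exact hv.sol.periodic t ⟨ht, htJ⟩
  · intro t ht x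
    obtain ⟨J, v, q, hJ, htJ, hv, hvw⟩ := h t ht
    have h1 := hv.sol.eqn t ⟨ht, htJ⟩ x
    rw [(hvw t ⟨ht, htJ⟩).1, (hvw t ⟨ht, htJ⟩).2]
    exact key J t (fun s => w s x) (fun s => v s x) _ hJ ht htJ
      (fun s hs => congrFun (hvw s hs).1 x) h1
  · intro t ht
    obtain ⟨J, v, q, hJ, htJ, hv, hvw⟩ := h t ht
    have h1 := hv.sol.peqn t ⟨ht, htJ⟩
    rw [(hvw t ⟨ht, htJ⟩).1, (hvw t ⟨ht, htJ⟩).2]
    exact key J t P q _ hJ ht htJ (fun s hs => (hvw s hs).2) h1
  · intro t ht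
    obtain ⟨J, v, q, hJ, htJ, hv, hvw⟩ := h t ht
    have h1 := hv.sol.meqn t ⟨ht, htJ⟩
    simp only [(hvw t ⟨ht, htJ⟩).1, (hvw t ⟨ht, htJ⟩).2]
    exact key J t (fun s => (P s)⁻¹) (fun s => (q s)⁻¹) _ hJ ht htJ (fun s hs => by
      show (P s)⁻¹ = (q s)⁻¹
      rw [(hvw s hs).2]) h1
  · intro t ht
    obtain ⟨J, v, q, hJ, htJ, hv, hvw⟩ := h t ht
    rw [(hvw t ⟨ht, htJ⟩).1, (hvw t ⟨ht, htJ⟩).2]
    exact hv.con t ⟨ht, htJ⟩

lemma csol_unique (hU : ClaimUnique) (hσ : Sgn σ) {a b : ℝ} {u v : ℝ → ℝ → V n} {p q : ℝ → ℝ}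
    (hu : CSol σ (Icc 0 a) u p) (hv : CSol σ (Icc 0 b) v q) (h0 : u 0 = v 0) (hp : p 0 = q 0)
    {t : ℝ} (h1 : 0 ≤ t) (h2 : t ≤ a) (h3 : t ≤ b) : u t = v t ∧ p t = q t := by
  rcases h1.eq_or_lt with h | h
  · rw [← h]; exact ⟨h0, hp⟩
  · have hu' : CSol σ (Icc 0 t) u p := csol_mono hu (Icc_subset_Icc_right h2)
    have hv' : CSol σ (Icc 0 t) v q := csol_mono hv (Icc_subset_Icc_right h3)
    have := hU n σ t u v p _ q _ hσ h hu'.sol hv'.sol h0 hp (by rw [hp]) t ⟨h1, le_rfl⟩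
    exact ⟨this.1, this.2.1⟩

/-- the local theorem for constrained data -/
lemma local_con (hC : ClaimConstraint) (hσ : Sgn σ) {T R : ℝ} (hT : 0 < T)
    (hLoc : ∀ (u0 : ℝ → V n) (p0 m0 : ℝ), ContDiff ℝ ∞ u0 →
      Function.Periodic u0 (2 * Real.pi) →
      (∀ x, nsq (u0 x) ≤ R) → per (fun x => nsq (iteratedDeriv 4 u0 x)) ≤ R →
      |p0| ≤ R → |m0| ≤ R →
      ∃ (u : ℝ → ℝ → V n) (p m : ℝ → ℝ), Sol σ (Icc 0 T) u p m ∧ u 0 = u0 ∧ p 0 = p0 ∧ m 0 = m0)
    {u0 : ℝ → V n} {p0 : ℝ} (hcon : Con σ p0 u0) (h1 : ∀ x, nsq (u0 x) ≤ R)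
    (h2 : per (fun x => nsq (iteratedDeriv 4 u0 x)) ≤ R) (h3 : p0 ≤ R) (h4 : p0⁻¹ ≤ R) :
    ∃ (u : ℝ → ℝ → V n) (p : ℝ → ℝ), CSol σ (Icc 0 T) u p ∧ u 0 = u0 ∧ p 0 = p0 := by
  have hp := hcon.pos
  obtain ⟨u, p, m, hs, hu0, hp0, hm0⟩ := hLoc u0 p0 p0⁻¹ hcon.smooth hcon.periodic h1 h2
    (by rwa [abs_of_pos hp]) (by rwa [abs_of_pos (inv_pos.mpr hp)])
  have hc := hC n σ T u p m hσ hT hs (by rw [hu0, hp0]; exact hcon) (by rw [hm0, hp0])
  refine ⟨u, p, ⟨⟨hs.smooth, hs.psmooth, ?_, hs.periodic, fun t ht x => ?_, fun t ht => ?_,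
    fun t ht => ?_⟩, fun t ht => (hc t ht).1⟩, hu0, hp0⟩
  · exact hs.msmooth.congr (fun t ht => (hc t ht).2.symm)
  · have := hs.eqn t ht x
    rw [(hc t ht).2] at this
    exact this
  · have := hs.peqn t ht
    rw [(hc t ht).2] at this
    exact this
  · have := hs.meqn t ht
    rw [(hc t ht).2] at this
    exact this.congr (fun s hs' => (hc s hs').2.symm) (hc t ht).2.symm

end Glob

open Glob in
theorem claimGlobal (hLoc : ClaimLocal) (hU : ClaimUnique) (hC : ClaimConstraint)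
    (hAp : ClaimApriori) (hSt : ClaimStatic) (hIso : ClaimIso) (hInv : ClaimInv)
    (hEn : ClaimEnergy) (hVT : ClaimVelTan) (hTan : ClaimTan) (hL : JSLocal) :
    ClaimGlobal := by
  intro n σ u0 p0 hσ hcon0
  set E0 : ℝ := en σ p0 u0 with hE0
  have hu00 : u0 0 ∈ space σ n := hcon0.mem 0
  obtain ⟨g0, hg0, hg0e⟩ := (hIso n σ 0 hσ).1 (u0 0) hu00
  set Y0 : ℝ := per (fun x => nsq (iteratedDeriv 4 (fun y => g0 (u0 y)) x)) with hY0
  obtain ⟨R, hR⟩ := hAp n σ E0 Y0 hσ
  obtain ⟨K, hK, hKst⟩ := hSt n σ E0 hσ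
  set M : ℝ := max (max R K) Y0 with hM
  have hRM : R ≤ M := (le_max_left _ _).trans (le_max_left _ _)
  have hKM : K ≤ M := (le_max_right _ _).trans (le_max_left _ _)
  have hYM : Y0 ≤ M := le_max_right _ _
  obtain ⟨T, hT, Cb, hloc⟩ := hLoc n σ M hσ
  -- local solutions in a good frame
  have hframe : ∀ (c : ℝ → V n) (r : ℝ) (g : V n →ₗ[ℝ] V n), IsIso σ g → Con σ r c →
      r ≤ K → K⁻¹ ≤ r → (∀ x, nsq (g (c x)) ≤ M) →
      per (fun x => nsq (iteratedDeriv 4 (fun y => g (c y)) x)) ≤ M →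
      ∃ (u : ℝ → ℝ → V n) (p : ℝ → ℝ), CSol σ (Icc 0 T) u p ∧ u 0 = c ∧ p 0 = r := by
    intro c r g hg hc hr1 hr2 h1 h2
    have hgc : Con σ r (fun y => g (c y)) := ((hInv n σ g hσ hg).2.1 c r hc).1
    obtain ⟨w, q, hw, hw0, hq0⟩ := local_con hC hσ hT (fun u0 p0 m0 a1 a2 a3 a4 a5 a6 => by
      obtain ⟨u, p, m, b1, b2, b3, b4, -⟩ := hloc u0 p0 m0 a1 a2 a3 a4 a5 a6
      exact ⟨u, p, m, b1, b2, b3, b4⟩) hgc h1 h2 (hr1.trans hKM)
      ((inv_le_of_inv_le₀ hK hr2).trans hKM)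
    obtain ⟨h, hh, hh1, -⟩ := (hIso n σ 0 hσ).2.1 g hg
    refine ⟨fun t y => h (w t y), q, (hInv n σ h hσ hh).2.2 _ w q hw, ?_, hq0⟩
    funext y
    show h (w 0 y) = c y
    rw [hw0]
    exact hh1 _
  -- energy bound along constrained solutions
  have hen : ∀ (a : ℝ) (u : ℝ → ℝ → V n) (p : ℝ → ℝ), 0 < a → CSol σ (Icc 0 a) u p →
      u 0 = u0 → p 0 = p0 → ∀ t ∈ Icc 0 a, en σ (p t) (u t) ≤ E0 := by
    intro a u p ha hu hu0' hp0' t ht
    have hanti : AntitoneOn (fun s => en σ (p s) (u s)) (Icc 0 a) := by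
      have hder := hEn n σ (Icc 0 a) u p hσ (Or.inr ⟨0, a, ha, rfl⟩) hu
      apply antitoneOn_of_deriv_nonpos (convex_Icc 0 a)
      · exact fun s hs => (hder s hs).continuousWithinAt
      · intro s hs
        rw [interior_Icc] at hs
        exact ((hder s (Ioo_subset_Icc_self hs)).hasDerivAt
          (Icc_mem_nhds hs.1 hs.2)).differentiableAt.differentiableWithinAt
      · intro s hs
        rw [interior_Icc] at hs
        have hs' := Ioo_subset_Icc_self hs
        rw [((hder s hs').hasDerivAt (Icc_mem_nhds hs.1 hs.2)).deriv]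
        have hps := (hu.con s hs').pos
        have hd0 : 0 ≤ dis σ (p s) (u s) := by
          unfold dis per
          apply intervalIntegral.integral_nonneg (by positivity)
          intro x _
          exact (hTan n σ 0 hσ).1 (u s x) ((hu.con s hs').mem x) _
            ((hVT n σ (p s) (u s) hσ (hu.con s hs')) x).1
        have : 0 ≤ (p s * Real.sqrt (p s))⁻¹ * dis σ (p s) (u s) := by positivity
        linarith
    have := hanti (left_mem_Icc.mpr ha.le) ht ht.1
    simp only [hu0', hp0'] at this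
    exact this
  -- restart at any time
  have hrestart : ∀ (a : ℝ) (u : ℝ → ℝ → V n) (p : ℝ → ℝ), 0 < a → CSol σ (Icc 0 a) u p →
      u 0 = u0 → p 0 = p0 → ∀ s ∈ Icc 0 a,
      ∃ (v : ℝ → ℝ → V n) (q : ℝ → ℝ), CSol σ (Icc 0 T) v q ∧ v 0 = u s ∧ q 0 = p s := by
    intro a u p ha hu hu0' hp0' s hs
    have hcs := hu.con s hs
    obtain ⟨g, hg, hge⟩ := (hIso n σ 0 hσ).1 (u s 0) (hcs.mem 0)
    obtain ⟨b1, b2⟩ := hR a u p ha hu (by rw [hu0', hp0']) ⟨g0, hg0, by rw [hu0']; exact hg0e,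
      by rw [hu0']⟩ s hs g hg hge
    obtain ⟨c1, c2, -, -⟩ := hKst (u s) (p s) hcs (hen a u p ha hu hu0' hp0' s hs)
    exact hframe (u s) (p s) g hg hcs c2 c1 (fun x => (b1 x).trans hRM) (b2.trans hRM)
  -- the first solution
  have hstart : ∃ (u : ℝ → ℝ → V n) (p : ℝ → ℝ), CSol σ (Icc 0 T) u p ∧ u 0 = u0 ∧ p 0 = p0 := by
    obtain ⟨c1, c2, -, -⟩ := hKst u0 p0 hcon0 le_rfl
    have hgc := (hInv n σ g0 hσ hg0).2.1 u0 p0 hcon0
    obtain ⟨-, -, -, c4⟩ := hKst (fun y => g0 (u0 y)) p0 hgc.1 (by rw [hgc.2.1])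
    exact hframe u0 p0 g0 hg0 hcon0 c2 c1 (fun x => (c4 hg0e x).trans hKM) hYM
  -- extension step
  have hstep : ∀ a : ℝ, T / 2 ≤ a →
      (∃ (u : ℝ → ℝ → V n) (p : ℝ → ℝ), CSol σ (Icc 0 a) u p ∧ u 0 = u0 ∧ p 0 = p0) →
      ∃ (u : ℝ → ℝ → V n) (p : ℝ → ℝ), CSol σ (Icc 0 (a + T / 2)) u p ∧ u 0 = u0 ∧ p 0 = p0 := by
    rintro a haT ⟨u, p, hu, hu0', hp0'⟩
    have ha : 0 < a := by linarith
    set s : ℝ := a - T / 2 with hs
    have hs0 : 0 ≤ s := by rw [hs]; linarith
    have hsa : s < a := by rw [hs]; linarith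
    obtain ⟨v, q, hv, hv0, hq0⟩ := hrestart a u p ha hu hu0' hp0' s ⟨hs0, hsa.le⟩
    have hus : CSol σ (Icc 0 (T / 2)) (fun τ => u (s + τ)) (fun τ => p (s + τ)) :=
      csol_shift hu s (fun τ hτ => ⟨by have := hτ.1; linarith, by
        have := hτ.2
        rw [hs]; linarith⟩)
    have hvs : CSol σ (Icc s (a + T / 2)) (fun t => v (-s + t)) (fun t => q (-s + t)) :=
      csol_shift hv (-s) (fun τ hτ => ⟨by have := hτ.1; linarith, by
        have := hτ.2
        rw [hs]; rw [hs] at *; linarith⟩)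
    have hagree : ∀ t ∈ Icc s a, u t = v (-s + t) ∧ p t = q (-s + t) := by
      intro t ht
      have h1 := csol_unique hU hσ hus hv (t := -s + t) (by
        show u (s + 0) = v 0
        rw [add_zero, hv0]) (by
        show p (s + 0) = q 0
        rw [add_zero, hq0]) (by linarith [ht.1]) (by rw [hs]; linarith [ht.2])
        (by rw [hs]; linarith [ht.2])
      have h2 : s + (-s + t) = t := by ring
      simp only [h2] at h1
      exact h1
    refine ⟨fun t => if t < a then u t else v (-s + t), fun t => if t < a then p t else q (-s + t),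
      ?_, by simp only [ha, if_true]; exact hu0', by simp only [ha, if_true]; exact hp0'⟩
    apply csol_local hL
    intro t ht
    by_cases hta : t < a
    · refine ⟨Iio a, u, p, isOpen_Iio, hta, csol_mono hu (fun x hx => ⟨hx.1.1, hx.2.le⟩), ?_⟩
      intro x hx
      have hx2 : x < a := hx.2
      simp only [hx2, if_true]
      exact ⟨trivial, trivial⟩
    · refine ⟨Ioi s, fun t => v (-s + t), fun t => q (-s + t), isOpen_Ioi, ?_,
        csol_mono hvs (fun x hx => ⟨hx.2.le, hx.1.2⟩), ?_⟩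
      · exact hsa.trans_le (not_lt.mp hta)
      · intro x hx
        by_cases hxa : x < a
        · have := hagree x ⟨hx.2.le, hxa.le⟩
          simp only [hxa, if_true]
          exact this
        · simp only [hxa, if_false]
          exact ⟨trivial, trivial⟩
  have hall : ∀ k : ℕ, ∃ (u : ℝ → ℝ → V n) (p : ℝ → ℝ), CSol σ (Icc 0 (T + k * (T / 2))) u p ∧
      u 0 = u0 ∧ p 0 = p0 := by
    intro k
    induction k with
    | zero => simpa using hstart
    | succ k ih =>
      have h1 : T / 2 ≤ T + k * (T / 2) := by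
        have : 0 ≤ (k : ℝ) * (T / 2) := by positivity
        linarith
      have h2 := hstep _ h1 ih
      have h3 : T + (k : ℝ) * (T / 2) + T / 2 = T + ((k + 1 : ℕ) : ℝ) * (T / 2) := by
        push_cast; ring
      rw [h3] at h2
      exact h2
  choose U P hUP hU0 hP0 using hall
  have hagr : ∀ (k l : ℕ) (t : ℝ), 0 ≤ t → t ≤ T + k * (T / 2) → t ≤ T + l * (T / 2) →
      U k t = U l t ∧ P k t = P l t := fun k l t h1 h2 h3 =>
    csol_unique hU hσ (hUP k) (hUP l) (by rw [hU0, hU0]) (by rw [hP0, hP0]) h1 h2 h3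
  let kk : ℝ → ℕ := fun t => ⌈t / (T / 2)⌉₊
  have hkk : ∀ t : ℝ, t < T + kk t * (T / 2) := by
    intro t
    have h1 : t / (T / 2) ≤ kk t := Nat.le_ceil _
    have h2 : 0 < T / 2 := by linarith
    rw [div_le_iff₀ h2] at h1
    linarith
  refine ⟨fun t => U (kk t) t, fun t => P (kk t) t, ?_, hU0 _, hP0 _⟩
  apply csol_local hL
  intro t ht
  refine ⟨Iio (T + kk t * (T / 2)), U (kk t), P (kk t), isOpen_Iio, hkk t,
    csol_mono (hUP (kk t)) (fun x hx => ⟨hx.1, hx.2.le⟩), ?_⟩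
  intro s hs
  have h1 : s < T + kk t * (T / 2) := hs.2
  exact hagr (kk s) (kk t) s hs.1 (hkk s).le h1.le

end Pool.Agent.Work.MP_4a14ce_an

end

section

/-!
# MP_4a14ce_an, T2: the gradient of the energy at constant speed curves
-/

open Set MeasureTheory Topology Filter
open scoped ContDiff

namespace Pool.Agent.Work.MP_4a14ce_an

/-- The integrand of the energy in terms of the first two derivatives. -/
noncomputable def gradconF (σ : ℝ) {n : ℕ} (P Q : V n) : ℝ :=
  (B σ Q Q * B σ P P - B σ P Q ^ 2) / (B σ P P ^ 2 * Real.sqrt (B σ P P))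
    + (1 - σ) * Real.sqrt (B σ P P)

lemma gradcon_deriv (hb : BRules) {n : ℕ} (σ : ℝ) {f g : ℝ → V n} {f' g' : V n} {x : ℝ}
    (hf : HasDerivAt f f' x) (hg : HasDerivAt g g' x) :
    HasDerivAt (fun y => B σ (f y) (g y)) (B σ f' (g x) + B σ (f x) g') x := by
  have h := (hb n σ).2.2.2.1 f g (fun _ => f') (fun _ => g') univ x hf.hasDerivWithinAt
    hg.hasDerivWithinAt
  exact h.hasDerivAt Filter.univ_mem

lemma gradcon_iter {E : Type*} [NormedAddCommGroup E] [NormedSpace ℝ E] {f : ℝ → E}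
    (hf : ContDiff ℝ ∞ f) (j : ℕ) : ContDiff ℝ ∞ (iteratedDeriv j f) := by
  induction j with
  | zero => simpa [iteratedDeriv_zero] using hf
  | succ j ih =>
    rw [iteratedDeriv_succ]
    exact (contDiff_infty_iff_deriv.mp ih).2

lemma gradcon_iter_deriv {E : Type*} [NormedAddCommGroup E] [NormedSpace ℝ E] {f : ℝ → E}
    (hf : ContDiff ℝ ∞ f) (j : ℕ) (x : ℝ) :
    HasDerivAt (iteratedDeriv j f) (iteratedDeriv (j + 1) f x) x := by
  rw [iteratedDeriv_succ]
  exact ((contDiff_infty_iff_deriv.mp (gradcon_iter hf j)).1 x).hasDerivAt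

lemma gradcon_iter_periodic {E : Type*} [NormedAddCommGroup E] [NormedSpace ℝ E] {f : ℝ → E}
    {c : ℝ} (hf : Function.Periodic f c) (j : ℕ) : Function.Periodic (iteratedDeriv j f) c := by
  intro x
  have h := congrFun (iteratedDeriv_comp_add_const j f c) x
  rw [← h]
  congr 1
  ext y
  exact hf y

lemma gradcon_B_cont {n : ℕ} (σ : ℝ) {X : Type*} [NormedAddCommGroup X] [NormedSpace ℝ X]
    {s : Set X} {f g : X → V n} (hf : ContDiffOn ℝ ∞ f s) (hg : ContDiffOn ℝ ∞ g s) :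
    ContDiffOn ℝ ∞ (fun x => B σ (f x) (g x)) s := by
  rw [contDiffOn_pi] at hf hg
  unfold B
  apply ContDiffOn.add
  · exact contDiffOn_const.mul ((hf 0).mul (hg 0))
  · apply ContDiffOn.sum
    intro i _
    exact (hf _).mul (hg _)

/-- The integrand of the energy. -/
lemma gradcon_integrand (hb : BRules) (ht : ClaimTan) {n : ℕ} {σ : ℝ} (hσ : Sgn σ) {c : ℝ → V n}
    (hc : IsClosedCurve σ c) (x : ℝ) :
    0 < B σ (iteratedDeriv 1 c x) (iteratedDeriv 1 c x) ∧
    (B σ (kap σ c x) (kap σ c x) + 1) * vnorm σ (deriv c x) =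
      gradconF σ (iteratedDeriv 1 c x) (iteratedDeriv 2 c x) := by
  obtain ⟨hsym, hadd, hsmul, -, -⟩ := hb n σ
  have hadd' : ∀ x y z : V n, B σ x (y + z) = B σ x y + B σ x z := by
    intro x y z
    rw [hsym, hadd, hsym y x, hsym z x]
  have hsmul' : ∀ (c : ℝ) (x y : V n), B σ x (c • y) = c * B σ x y := by
    intro c x y
    rw [hsym, hsmul, hsym]
  have hσ2 : σ ^ 2 = 1 := by rcases hσ with h | h <;> rw [h] <;> norm_num
  set P := iteratedDeriv 1 c with hP
  set Q := iteratedDeriv 2 c with hQ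
  have hPd : deriv c = P := by rw [hP, iteratedDeriv_one]
  have hc0 : ∀ y, HasDerivAt c (P y) y := by
    intro y
    have := gradcon_iter_deriv hc.smooth 0 y
    rwa [iteratedDeriv_zero] at this
  have hP1 : ∀ y, HasDerivAt P (Q y) y := fun y => gradcon_iter_deriv hc.smooth 1 y
  have hcc : ∀ y, B σ (c y) (c y) = σ := fun y => (hc.mem y).1
  have hPc : ∀ y, B σ (P y) (c y) = 0 := by
    intro y
    have h1 := gradcon_deriv hb σ (hc0 y) (hc0 y)
    have h2 : HasDerivAt (fun y => B σ (c y) (c y)) 0 y := by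
      have : (fun y => B σ (c y) (c y)) = fun _ => σ := funext hcc
      rw [this]
      exact hasDerivAt_const y σ
    have h3 := h1.unique h2
    rw [hsym (c y) (P y)] at h3
    linarith
  have hQc : ∀ y, B σ (Q y) (c y) = - B σ (P y) (P y) := by
    intro y
    have h1 := gradcon_deriv hb σ (hP1 y) (hc0 y)
    have h2 : HasDerivAt (fun y => B σ (P y) (c y)) 0 y := by
      have : (fun y => B σ (P y) (c y)) = fun _ => 0 := funext hPc
      rw [this]
      exact hasDerivAt_const y 0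
    have h3 := h1.unique h2
    linarith
  have hPpos : ∀ y, 0 < B σ (P y) (P y) := by
    intro y
    obtain ⟨C, hC, hC2⟩ := (ht n σ (nsq (c y)) hσ).2
    have h1 := hC2 (c y) (hc.mem y) le_rfl (P y) (hPc y)
    have h2 : 0 < nsq (P y) := by
      have h3 : P y ≠ 0 := by
        rw [← hPd]
        exact hc.regular y
      obtain ⟨i, hi⟩ := Function.ne_iff.mp h3
      unfold nsq
      have h4 : 0 < (P y i) ^ 2 := by
        have : P y i ≠ 0 := hi
        positivity
      exact lt_of_lt_of_le h4 (Finset.single_le_sum (f := fun i => (P y i) ^ 2)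
        (fun i _ => sq_nonneg _) (Finset.mem_univ i))
    by_contra h5
    push Not at h5
    have : C * B σ (P y) (P y) ≤ 0 := mul_nonpos_of_nonneg_of_nonpos hC.le h5
    linarith
  refine ⟨hPpos x, ?_⟩
  set r : ℝ → ℝ := fun y => Real.sqrt (B σ (P y) (P y)) with hr
  have hrpos : ∀ y, 0 < r y := fun y => Real.sqrt_pos.mpr (hPpos y)
  have hr2 : ∀ y, B σ (P y) (P y) = r y ^ 2 := fun y => (Real.sq_sqrt (hPpos y).le).symm
  have hrd : HasDerivAt r (B σ (P x) (Q x) / r x) x := by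
    have h1 := (gradcon_deriv hb σ (hP1 x) (hP1 x)).sqrt (hPpos x).ne'
    have h2 : (B σ (Q x) (P x) + B σ (P x) (Q x)) / (2 * Real.sqrt (B σ (P x) (P x))) =
        B σ (P x) (Q x) / r x := by
      rw [hsym (Q x) (P x)]
      have : Real.sqrt (B σ (P x) (P x)) ≠ 0 := (hrpos x).ne'
      simp only [hr]
      field_simp
      ring
    rw [h2] at h1
    exact h1
  have htau : tau σ c = fun y => (r y)⁻¹ • P y := by
    ext1 y
    unfold tau ds vnorm
    rw [hPd]
  have htd : HasDerivAt (tau σ c) ((r x)⁻¹ • Q x + (-(B σ (P x) (Q x) / r x) / r x ^ 2) • P x) x := by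
    rw [htau]
    exact (hrd.fun_inv (hrpos x).ne').smul (hP1 x)
  have hkap : kap σ c x = ((r x)⁻¹ * (r x)⁻¹) • Q x +
      (((r x)⁻¹ * (-(B σ (P x) (Q x) / r x) / r x ^ 2)) • P x + σ • c x) := by
    unfold kap nabla
    have h1 : ds σ c (tau σ c) x = ((r x)⁻¹ * (r x)⁻¹) • Q x +
        ((r x)⁻¹ * (-(B σ (P x) (Q x) / r x) / r x ^ 2)) • P x := by
      unfold ds vnorm
      rw [htd.deriv, hPd, smul_add, smul_smul, smul_smul]
    rw [h1, hadd, hsmul, hsmul, hQc, hPc, hr2]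
    have h2 : σ * ((r x)⁻¹ * (r x)⁻¹ * -r x ^ 2 +
        (r x)⁻¹ * (-(B σ (P x) (Q x) / r x) / r x ^ 2) * 0) = -σ := by
      have : r x ≠ 0 := (hrpos x).ne'
      field_simp
      ring
    rw [h2, neg_smul, sub_neg_eq_add, add_assoc]
  have hv : vnorm σ (deriv c x) = r x := by
    rw [hPd]
    rfl
  rw [hkap, hv]
  unfold gradconF
  simp only [hadd, hadd', hsmul, hsmul']
  rw [hsym (c x) (Q x), hsym (c x) (P x), hQc, hPc, hcc, hsym (Q x) (P x), hr2]
  have h3 : Real.sqrt (r x ^ 2) = r x := Real.sqrt_sq (hrpos x).le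
  rw [h3]
  have h4 : r x ≠ 0 := (hrpos x).ne'
  field_simp
  ring_nf
  have h5 : σ ^ 3 = σ := by rw [pow_succ, hσ2, one_mul]
  rw [h5]
  ring

lemma gradcon_F_smooth {n : ℕ} (σ : ℝ) {X : Type*} [NormedAddCommGroup X] [NormedSpace ℝ X]
    {s : Set X} {f g : X → V n} (hf : ContDiffOn ℝ ∞ f s) (hg : ContDiffOn ℝ ∞ g s)
    (hpos : ∀ x ∈ s, 0 < B σ (f x) (f x)) :
    ContDiffOn ℝ ∞ (fun x => gradconF σ (f x) (g x)) s := by
  unfold gradconF
  have h1 := gradcon_B_cont σ hf hf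
  have h2 := gradcon_B_cont σ hf hg
  have h3 := gradcon_B_cont σ hg hg
  have h4 : ContDiffOn ℝ ∞ (fun x => Real.sqrt (B σ (f x) (f x))) s :=
    h1.sqrt (fun x hx => (hpos x hx).ne')
  apply ContDiffOn.add
  · apply ContDiffOn.div ((h3.mul h1).sub (h2.pow 2)) ((h1.pow 2).mul h4)
    intro x hx
    have := hpos x hx
    have : 0 < Real.sqrt (B σ (f x) (f x)) := Real.sqrt_pos.mpr this
    positivity
  · exact contDiffOn_const.mul h4

/-- T2: the gradient of the energy at constant speed curves. -/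
theorem claimGradCon (hb : BRules) (ht : ClaimTan) (hvt : ClaimVelTan) (hci : ConIds)
    (hsl : JSSlice) (hdt : JSDt) (hdt1 : JSDt1) (hper : JSPer) (hpd : PerDeriv) :
    ClaimGradCon := by
  intro n σ p u hσ hu
  obtain ⟨hsym, hadd, hsmul, -, -⟩ := hb n σ
  have hadd' : ∀ x y z : V n, B σ x (y + z) = B σ x y + B σ x z := by
    intro x y z
    rw [hsym, hadd, hsym y x, hsym z x]
  have hsmul' : ∀ (c : ℝ) (x y : V n), B σ x (c • y) = c * B σ x y := by
    intro c x y
    rw [hsym, hsmul, hsym]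
  have hneg : ∀ x y : V n, B σ (-x) y = - B σ x y := by
    intro x y
    rw [← neg_one_smul ℝ x, hsmul]
    ring
  have hsub : ∀ x y z : V n, B σ (x - y) z = B σ x z - B σ y z := by
    intro x y z
    rw [sub_eq_add_neg, hadd, hneg]
    ring
  have hσ2 : σ ^ 2 = 1 := by rcases hσ with h | h <;> rw [h] <;> norm_num
  have hU : ∀ j, ContDiff ℝ ∞ (iteratedDeriv j u) := gradcon_iter hu.smooth
  have hBs : ∀ i j, ContDiff ℝ ∞ (fun x => B σ (iteratedDeriv i u x) (iteratedDeriv j u x)) := by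
    intro i j
    rw [← contDiffOn_univ]
    exact gradcon_B_cont σ (hU i).contDiffOn (hU j).contDiffOn
  have hrho : ContDiff ℝ ∞ (rho σ p u) := by
    unfold rho
    exact (hBs 2 2).sub contDiff_const
  have hrhox : ContDiff ℝ ∞ (rhox σ u) := by
    unfold rhox
    exact contDiff_const.mul (hBs 2 3)
  have hbeta : ContDiff ℝ ∞ (beta σ p p⁻¹ u) := by
    unfold beta
    exact (contDiff_const.mul hrho).add contDiff_const
  have hvel : ContDiff ℝ ∞ (vel σ p p⁻¹ u) := by
    unfold vel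
    have hu0 := hu.smooth
    have h1 := hU 1
    have h2 := hU 2
    have h4 := hU 4
    exact ((((h4.const_smul (-(2 : ℝ))).sub (h2.const_smul (2 * σ * p))).sub
      ((contDiff_const.mul hrhox).smul h1)).add ((contDiff_const.mul hrho).smul hu0)).sub
      (hbeta.smul (h2.add (hu0.const_smul (σ * p))))
  have hPer : ∀ j, Function.Periodic (iteratedDeriv j u) (2 * Real.pi) :=
    gradcon_iter_periodic hu.periodic
  have hW : ContDiff ℝ ∞ (fun x => -((p ^ 2)⁻¹ • vel σ p p⁻¹ u x)) :=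
    (hvel.const_smul ((p ^ 2)⁻¹)).neg
  refine ⟨hW, ?_, ?_, ?_, ?_⟩
  · intro x
    have h0 : u (x + 2 * Real.pi) = u x := hu.periodic x
    simp only [vel, beta, rho, rhox]
    simp only [(hPer 1) x, (hPer 2) x, (hPer 3) x, (hPer 4) x, h0]
  · intro x
    rw [hneg, hsmul, (hvt n σ p u hσ hu x).1]
    ring
  · intro x
    rw [hneg, hsmul, (hvt n σ p u hσ hu x).2]
    ring
  · intro δ Γ hΓ hnorm
    have hδ := hΓ.pos
    set I : Set ℝ := Icc (-(δ / 2)) (δ / 2) with hI
    have hItv : Itv I := Or.inr ⟨_, _, by linarith, rfl⟩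
    have hI0 : (0 : ℝ) ∈ I := ⟨by linarith, by linarith⟩
    have hInhds : I ∈ 𝓝 (0 : ℝ) := Icc_mem_nhds (by linarith) (by linarith)
    have hIsub : I ⊆ Ioo (-δ) δ := fun t h => ⟨by linarith [h.1], by linarith [h.2]⟩
    have hJS : JS I Γ := hΓ.smooth.mono (prod_mono hIsub subset_rfl)
    obtain ⟨hJS1, hJS2⟩ := hsl (n + 1) I Γ hItv hJS
    obtain ⟨ut, hut, hd⟩ := hdt (n + 1) I Γ hItv hJS
    obtain ⟨hut1, -⟩ := hsl (n + 1) I ut hItv hut
    have hcl : ∀ t ∈ I, IsClosedCurve σ (Γ t) := fun t h => hΓ.closed t (hIsub h)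
    set f : ℝ → ℝ → ℝ := fun t x => gradconF σ (iteratedDeriv 1 (Γ t) x)
      (iteratedDeriv 2 (Γ t) x) with hf
    have hfJS : JS I f := by
      apply gradcon_F_smooth σ (hJS2 1) (hJS2 2)
      intro z hz
      exact (gradcon_integrand hb ht hσ (hcl z.1 hz.1) z.2).1
    obtain ⟨ft, hftJS, hftd⟩ := hdt1 I f hItv hfJS
    have hftd0 : ∀ t ∈ I, ∀ x, HasDerivWithinAt (fun s => f s x) (ft t x) I t := by
      intro t h x
      have := hftd 0 t h x
      simpa only [iteratedDeriv_zero] using this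
    have hmain := ((hper I f ft hItv hfJS hftJS hftd0).2 0 hI0).hasDerivAt hInhds
    have hen : (fun s => per (f s)) =ᶠ[𝓝 0] fun ε => energy σ (Γ ε) := by
      filter_upwards [hInhds] with t h
      unfold per energy
      congr 1
      ext x
      exact ((gradcon_integrand hb ht hσ (hcl t h) x).2).symm
    have hmain2 := hmain.congr_of_eventuallyEq hen.symm
    -- the variation field
    set X : ℝ → V n := ut 0 with hX
    have hXs : ContDiff ℝ ∞ X := hut1 0 hI0
    have hdj : ∀ j x, HasDerivAt (fun s => iteratedDeriv j (Γ s) x) (iteratedDeriv j X x) 0 :=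
      fun j x => (hd j 0 hI0 x).hasDerivAt hInhds
    have hvf : varField Γ = X := by
      ext1 x
      have h1 := hdj 0 x
      simp only [iteratedDeriv_zero] at h1
      exact h1.deriv
    have hΓ0 : Γ 0 = u := hΓ.start
    -- constraints on X
    have hXper : Function.Periodic X (2 * Real.pi) := by
      intro x
      have h1 := hdj 0 x
      have h2 := hdj 0 (x + 2 * Real.pi)
      simp only [iteratedDeriv_zero] at h1 h2
      have h3 : (fun s => Γ s (x + 2 * Real.pi)) =ᶠ[𝓝 0] fun s => Γ s x := by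
        filter_upwards [hInhds] with t h
        exact (hcl t h).periodic x
      exact (h2.congr_of_eventuallyEq h3.symm).unique h1
    have hXu : ∀ x, B σ (X x) (u x) = 0 := by
      intro x
      have h1 := hdj 0 x
      simp only [iteratedDeriv_zero] at h1
      have h2 := gradcon_deriv hb σ h1 h1
      have h3 : (fun s => B σ (Γ s x) (Γ s x)) =ᶠ[𝓝 0] fun _ => σ := by
        filter_upwards [hInhds] with t h
        exact ((hcl t h).mem x).1
      have h4 := (hasDerivAt_const (0 : ℝ) σ).congr_of_eventuallyEq h3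
      have h5 := h2.unique h4
      rw [hΓ0, hsym (u x) (X x)] at h5
      linarith
    have hXu1 : ∀ x, B σ (iteratedDeriv 1 u x) (X x) = 0 := by
      intro x
      have := hnorm x
      rw [hvf, ← iteratedDeriv_one] at this
      rw [hsym]
      exact this
    have hXj : ∀ j x, HasDerivAt (iteratedDeriv j X) (iteratedDeriv (j + 1) X x) x :=
      gradcon_iter_deriv hXs
    have huj : ∀ j x, HasDerivAt (iteratedDeriv j u) (iteratedDeriv (j + 1) u x) x :=
      gradcon_iter_deriv hu.smooth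
    have hX0 : ∀ x, HasDerivAt X (iteratedDeriv 1 X x) x := by
      intro x
      have := hXj 0 x
      rwa [iteratedDeriv_zero] at this
    have hXu2 : ∀ x, B σ (iteratedDeriv 1 u x) (iteratedDeriv 1 X x) =
        - B σ (iteratedDeriv 2 u x) (X x) := by
      intro x
      have h1 := gradcon_deriv hb σ (huj 1 x) (hX0 x)
      have h2 : (fun x => B σ (iteratedDeriv 1 u x) (X x)) = fun _ => 0 := funext hXu1
      rw [h2] at h1
      have h3 := h1.unique (hasDerivAt_const x 0)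
      linarith
    -- the value of ft at 0
    set r := Real.sqrt p with hr
    have hp := hu.pos
    have hrpos : 0 < r := Real.sqrt_pos.mpr hp
    have hr2 : p = r ^ 2 := (Real.sq_sqrt hp.le).symm
    have hft0 : ∀ x, ft 0 x = 2 / r ^ 3 * B σ (iteratedDeriv 2 u x) (iteratedDeriv 2 X x) +
        3 / r ^ 5 * B σ (iteratedDeriv 2 u x) (iteratedDeriv 2 u x) *
          B σ (iteratedDeriv 2 u x) (X x) -
        (1 - σ) / r * B σ (iteratedDeriv 2 u x) (X x) := by
      intro x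
      obtain ⟨-, -, i11, -, i12, -, -, -, -⟩ := hci n σ p u hσ hu x
      have h1 := (hftd0 0 hI0 x).hasDerivAt hInhds
      have hP := hdj 1 x
      have hQ := hdj 2 x
      have hPP := gradcon_deriv hb σ hP hP
      have hPQ := gradcon_deriv hb σ hP hQ
      have hQQ := gradcon_deriv hb σ hQ hQ
      have hPP0 : B σ (iteratedDeriv 1 (Γ 0) x) (iteratedDeriv 1 (Γ 0) x) ≠ 0 := by
        rw [hΓ0, i11]
        exact hp.ne'
      have hS := hPP.sqrt hPP0
      have hden : B σ (iteratedDeriv 1 (Γ 0) x) (iteratedDeriv 1 (Γ 0) x) ^ 2 *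
          Real.sqrt (B σ (iteratedDeriv 1 (Γ 0) x) (iteratedDeriv 1 (Γ 0) x)) ≠ 0 := by
        rw [hΓ0, i11]
        have := hrpos.ne'
        positivity
      have h2 := (((hQQ.mul hPP).sub (hPQ.pow 2)).div ((hPP.pow 2).mul hS) hden).add
        (hS.const_mul (1 - σ))
      have h3 := h1.unique h2
      rw [h3]
      simp only [Pi.mul_apply, Pi.sub_apply, Pi.pow_apply]
      rw [hΓ0, i11, i12, hsym (iteratedDeriv 2 X x) (iteratedDeriv 2 u x),
        hsym (iteratedDeriv 1 X x) (iteratedDeriv 1 u x), hXu2, ← hr, hr2]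
      have hr0 := hrpos.ne'
      field_simp
      ring
    -- the integration by parts
    set h : ℝ → ℝ := fun x => 2 / r ^ 3 * (B σ (iteratedDeriv 2 u x) (iteratedDeriv 1 X x) -
      B σ (iteratedDeriv 3 u x) (X x)) with hh
    have hhd : ∀ x, HasDerivAt h (2 / r ^ 3 * (B σ (iteratedDeriv 2 u x) (iteratedDeriv 2 X x) -
        B σ (iteratedDeriv 4 u x) (X x))) x := by
      intro x
      have h1 := gradcon_deriv hb σ (huj 2 x) (hXj 1 x)
      have h2 := gradcon_deriv hb σ (huj 3 x) (hX0 x)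
      have h3 := (h1.sub h2).const_mul (2 / r ^ 3)
      refine h3.congr_deriv ?_
      ring
    have hhs : ContDiff ℝ ∞ h := by
      rw [← contDiffOn_univ]
      exact contDiffOn_const.mul ((gradcon_B_cont σ (hU 2).contDiffOn
        (gradcon_iter hXs 1).contDiffOn).sub (gradcon_B_cont σ (hU 3).contDiffOn
        hXs.contDiffOn))
    have hhp : Function.Periodic h (2 * Real.pi) := by
      intro x
      have e1 := hPer 2 x
      have e2 := hPer 3 x
      have e3 := gradcon_iter_periodic hXper 1 x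
      have e4 := hXper x
      simp only [hh, e1, e2, e3, e4]
    have hh0 := hpd h (hhs.of_le (by exact_mod_cast le_top)) hhp
    have hTs : Continuous (fun x => B σ (-((p ^ 2)⁻¹ • vel σ p p⁻¹ u x)) (X x) * r) := by
      have : ContDiff ℝ ∞ (fun x => B σ (-((p ^ 2)⁻¹ • vel σ p p⁻¹ u x)) (X x)) := by
        rw [← contDiffOn_univ]
        exact gradcon_B_cont σ hW.contDiffOn hXs.contDiffOn
      exact this.continuous.mul continuous_const
    have hdc : Continuous (deriv h) := (contDiff_infty_iff_deriv.mp hhs).2.continuous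
    have hvn : ∀ x, vnorm σ (deriv u x) = r := by
      intro x
      unfold vnorm
      rw [hu.speed x]
    have hval : per (ft 0) = ∫ x in (0 : ℝ)..(2 * Real.pi),
        B σ (-((p ^ 2)⁻¹ • vel σ p p⁻¹ u x)) (varField Γ x) * vnorm σ (deriv u x) := by
      have h1 : per (ft 0) = per (fun x => B σ (-((p ^ 2)⁻¹ • vel σ p p⁻¹ u x)) (X x) * r +
          deriv h x) := by
        congr 1
        ext1 x
        rw [hft0, (hhd x).deriv, hneg, hsmul]
        unfold vel beta rho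
        simp only [hadd, hsub, hsmul, hXu1]
        rw [hsym (u x) (X x), hXu, hr2]
        have hr0 := hrpos.ne'
        field_simp
        ring
      rw [h1]
      unfold per
      rw [intervalIntegral.integral_add (hTs.intervalIntegrable _ _)
        (hdc.intervalIntegrable _ _)]
      have h2 : (∫ x in (0 : ℝ)..(2 * Real.pi), deriv h x) = 0 := hh0
      rw [h2, add_zero]
      simp only [hvf, hvn]
    rw [← hval]
    exact hmain2

end Pool.Agent.Work.MP_4a14ce_an

end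

section

/-!
# Reparametrisation invariance of the energy and of the gradient
-/

open Set MeasureTheory Topology Filter
open scoped ContDiff

namespace Pool.Agent.Work.MP_4a14ce_an

variable {n : ℕ}

lemma gradRep_B_smul_left (σ c : ℝ) (x y : V n) : B σ (c • x) y = c * B σ x y := by
  simp only [B, Pi.smul_apply, smul_eq_mul, mul_add, Finset.mul_sum]
  congr 1
  · ring
  · exact Finset.sum_congr rfl fun i _ => by ring

lemma gradRep_B_smul_right (σ c : ℝ) (x y : V n) : B σ x (c • y) = c * B σ x y := by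
  simp only [B, Pi.smul_apply, smul_eq_mul, mul_add, Finset.mul_sum]
  congr 1
  · ring
  · exact Finset.sum_congr rfl fun i _ => by ring

lemma gradRep_vnorm_smul (σ c : ℝ) (hc : 0 ≤ c) (v : V n) :
    vnorm σ (c • v) = c * vnorm σ v := by
  unfold vnorm
  rw [gradRep_B_smul_left, gradRep_B_smul_right, ← mul_assoc, Real.sqrt_mul (mul_self_nonneg c),
    Real.sqrt_mul_self hc]

/-! ### The inverse of a reparametrisation -/

lemma gradRep_strictMono {Y : ℝ → ℝ} (hY : IsReparam Y) : StrictMono Y :=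
  strictMono_of_deriv_pos hY.deriv_pos

lemma gradRep_shift_nat {Y : ℝ → ℝ} (hY : IsReparam Y) (k : ℕ) :
    Y (k * (2 * Real.pi)) = Y 0 + k * (2 * Real.pi) := by
  induction k with
  | zero => simp
  | succ k ih =>
    have h := hY.shift (k * (2 * Real.pi))
    rw [ih] at h
    push_cast
    rw [show ((k : ℝ) + 1) * (2 * Real.pi) = k * (2 * Real.pi) + 2 * Real.pi by ring, h]
    ring

lemma gradRep_shift_neg {Y : ℝ → ℝ} (hY : IsReparam Y) (k : ℕ) :
    Y (-(k * (2 * Real.pi))) = Y 0 - k * (2 * Real.pi) := by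
  induction k with
  | zero => simp
  | succ k ih =>
    have h := hY.shift (-(((k + 1 : ℕ) : ℝ) * (2 * Real.pi)))
    rw [show -(((k + 1 : ℕ) : ℝ) * (2 * Real.pi)) + 2 * Real.pi = -(k * (2 * Real.pi)) by
      push_cast; ring, ih] at h
    push_cast at h ⊢
    linarith

lemma gradRep_surjective {Y : ℝ → ℝ} (hY : IsReparam Y) : Function.Surjective Y := by
  intro y
  have hpi : 0 < 2 * Real.pi := Real.two_pi_pos
  obtain ⟨k, hk⟩ := exists_nat_gt ((y - Y 0) / (2 * Real.pi))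
  obtain ⟨l, hl⟩ := exists_nat_gt ((Y 0 - y) / (2 * Real.pi))
  rw [div_lt_iff₀ hpi] at hk hl
  have h1 := gradRep_shift_nat hY k
  have h2 := gradRep_shift_neg hY l
  have hle : -((l : ℝ) * (2 * Real.pi)) ≤ k * (2 * Real.pi) := by
    have : (0 : ℝ) ≤ k * (2 * Real.pi) := by positivity
    have : (0 : ℝ) ≤ l * (2 * Real.pi) := by positivity
    linarith
  have hiv := intermediate_value_Icc hle (hY.smooth.continuous.continuousOn)
  have hy : y ∈ Icc (Y (-((l : ℝ) * (2 * Real.pi)))) (Y (k * (2 * Real.pi))) := by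
    rw [h1, h2]; constructor <;> linarith
  obtain ⟨x, -, hx⟩ := hiv hy
  exact ⟨x, hx⟩

/-- the inverse of a reparametrisation -/
lemma gradRep_exists_inv {Y : ℝ → ℝ} (hY : IsReparam Y) :
    ∃ Z : ℝ → ℝ, IsReparam Z ∧ (∀ x, Z (Y x) = x) ∧ (∀ x, Y (Z x) = x) := by
  let e : ℝ ≃o ℝ := (gradRep_strictMono hY).orderIsoOfSurjective Y (gradRep_surjective hY)
  let f : ℝ ≃ₜ ℝ := e.toHomeomorph
  have hf : ∀ x, f x = Y x := fun x => rfl
  have hder : ∀ x, HasDerivAt Y (deriv Y x) x := fun x =>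
    ((hY.smooth.differentiable (by simp)) x).hasDerivAt
  have hsm : ContDiff ℝ ∞ (f.symm : ℝ → ℝ) :=
    f.contDiff_symm_deriv (fun x => (hY.deriv_pos x).ne') hder hY.smooth
  have h1 : ∀ x, f.symm (Y x) = x := fun x => f.symm_apply_apply x
  have h2 : ∀ x, Y (f.symm x) = x := fun x => f.apply_symm_apply x
  refine ⟨f.symm, ⟨hsm, ?_, ?_⟩, h1, h2⟩
  · intro x
    apply (gradRep_strictMono hY).injective
    rw [hY.shift, h2, h2]
  · intro x
    have hd : HasDerivAt (f.symm : ℝ → ℝ) (deriv f.symm x) x :=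
      ((hsm.differentiable (by simp)) x).hasDerivAt
    have hc := (hder (f.symm x)).comp x hd
    have hid : (Y ∘ f.symm) = id := by
      ext x; exact h2 x
    rw [hid] at hc
    have := hc.unique (hasDerivAt_id x)
    have hpos := hY.deriv_pos (f.symm x)
    by_contra hcon
    push Not at hcon
    have : deriv Y (f.symm x) * deriv f.symm x ≤ 0 :=
      mul_nonpos_of_nonneg_of_nonpos hpos.le hcon
    linarith

lemma gradRep_hasDerivAt {Y : ℝ → ℝ} (hY : IsReparam Y) (x : ℝ) :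
    HasDerivAt Y (deriv Y x) x := ((hY.smooth.differentiable (by simp)) x).hasDerivAt

/-- chain rule without any assumption on `X` -/
lemma gradRep_deriv_comp {E : Type*} [NormedAddCommGroup E] [NormedSpace ℝ E] {Y : ℝ → ℝ}
    (hY : IsReparam Y) (X : ℝ → E) (x : ℝ) :
    deriv (fun y => X (Y y)) x = deriv Y x • deriv X (Y x) := by
  by_cases h : DifferentiableAt ℝ X (Y x)
  · exact (HasDerivAt.scomp x h.hasDerivAt (gradRep_hasDerivAt hY x)).deriv
  · rw [deriv_zero_of_not_differentiableAt h, smul_zero]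
    apply deriv_zero_of_not_differentiableAt
    intro h'
    apply h
    obtain ⟨Z, hZ, h1, h2⟩ := gradRep_exists_inv hY
    have hd : DifferentiableAt ℝ (fun y => (fun z => X (Y z)) (Z y)) (Y x) := by
      have := (gradRep_hasDerivAt hZ (Y x)).differentiableAt
      have h'' : DifferentiableAt ℝ (fun z => X (Y z)) (Z (Y x)) := by rw [h1]; exact h'
      exact h''.comp (Y x) this
    have he : (fun y => (fun z => X (Y z)) (Z y)) = X := by
      funext y; simp [h2]
    rwa [he] at hd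

lemma gradRep_ds {Y : ℝ → ℝ} (σ : ℝ) (hY : IsReparam Y) (c X : ℝ → V n) (x : ℝ) :
    ds σ (fun y => c (Y y)) (fun y => X (Y y)) x = ds σ c X (Y x) := by
  have hpos := hY.deriv_pos x
  unfold ds
  rw [gradRep_deriv_comp hY c, gradRep_deriv_comp hY X, gradRep_vnorm_smul σ _ hpos.le,
    smul_smul, mul_inv, mul_assoc, mul_comm (vnorm σ (deriv c (Y x)))⁻¹, ← mul_assoc,
    inv_mul_cancel₀ hpos.ne', one_mul]

lemma gradRep_tau {Y : ℝ → ℝ} (σ : ℝ) (hY : IsReparam Y) (c : ℝ → V n) :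
    tau σ (fun y => c (Y y)) = fun x => tau σ c (Y x) := by
  funext x
  exact gradRep_ds σ hY c c x

lemma gradRep_nabla {Y : ℝ → ℝ} (σ : ℝ) (hY : IsReparam Y) (c X : ℝ → V n) (x : ℝ) :
    nabla σ (fun y => c (Y y)) (fun y => X (Y y)) x = nabla σ c X (Y x) := by
  unfold nabla
  rw [gradRep_ds]
  exact hY

lemma gradRep_kap {Y : ℝ → ℝ} (σ : ℝ) (hY : IsReparam Y) (c : ℝ → V n) (x : ℝ) :
    kap σ (fun y => c (Y y)) x = kap σ c (Y x) := by
  unfold kap
  rw [gradRep_tau σ hY]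
  exact gradRep_nabla σ hY c _ x

/-- substitution for periodic functions, no regularity assumption -/
lemma gradRep_subst {Y : ℝ → ℝ} (hY : IsReparam Y) (F : ℝ → ℝ)
    (hF : Function.Periodic F (2 * Real.pi)) :
    ∫ x in (0 : ℝ)..(2 * Real.pi), F (Y x) * deriv Y x = ∫ x in (0 : ℝ)..(2 * Real.pi), F x := by
  have hpi : (0 : ℝ) ≤ 2 * Real.pi := Real.two_pi_pos.le
  have hmono := gradRep_strictMono hY
  have himg : Y '' Ioc 0 (2 * Real.pi) = Ioc (Y 0) (Y (2 * Real.pi)) := by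
    ext y
    constructor
    · rintro ⟨x, hx, rfl⟩
      exact ⟨hmono hx.1, hmono.monotone hx.2⟩
    · intro hy
      obtain ⟨x, rfl⟩ := gradRep_surjective hY y
      exact ⟨x, ⟨hmono.lt_iff_lt.1 hy.1, hmono.le_iff_le.1 hy.2⟩, rfl⟩
  have h := integral_image_eq_integral_abs_deriv_smul (s := Ioc 0 (2 * Real.pi)) (f := Y)
    (f' := deriv Y) measurableSet_Ioc (fun x _ => (gradRep_hasDerivAt hY x).hasDerivWithinAt)
    hmono.injective.injOn F
  rw [himg] at h
  have hsh : Y (2 * Real.pi) = Y 0 + 2 * Real.pi := by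
    have := hY.shift 0; rwa [zero_add] at this
  rw [intervalIntegral.integral_of_le hpi]
  calc ∫ x in Ioc 0 (2 * Real.pi), F (Y x) * deriv Y x
      = ∫ x in Ioc 0 (2 * Real.pi), |deriv Y x| • F (Y x) := by
        apply integral_congr_ae
        filter_upwards with x
        rw [abs_of_pos (hY.deriv_pos x), smul_eq_mul, mul_comm]
    _ = ∫ x in Ioc (Y 0) (Y (2 * Real.pi)), F x := h.symm
    _ = ∫ x in (Y 0)..(Y 0 + 2 * Real.pi), F x := by
        rw [hsh, intervalIntegral.integral_of_le (by linarith)]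
    _ = ∫ x in (0 : ℝ)..(0 + 2 * Real.pi), F x := hF.intervalIntegral_add_eq _ _
    _ = ∫ x in (0 : ℝ)..(2 * Real.pi), F x := by rw [zero_add]

lemma gradRep_deriv_periodic {E : Type*} [NormedAddCommGroup E] [NormedSpace ℝ E] {X : ℝ → E}
    {T : ℝ} (hX : Function.Periodic X T) : Function.Periodic (deriv X) T := by
  intro x
  have h : (fun y => X (y + T)) = X := funext hX
  have := deriv_comp_add_const X T x
  rw [h] at this
  exact this.symm

lemma gradRep_ds_periodic (σ : ℝ) {c X : ℝ → V n} {T : ℝ} (hc : Function.Periodic c T)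
    (hX : Function.Periodic X T) : Function.Periodic (ds σ c X) T := by
  intro x
  unfold ds
  rw [gradRep_deriv_periodic hc, gradRep_deriv_periodic hX]

lemma gradRep_kap_periodic (σ : ℝ) {c : ℝ → V n} {T : ℝ} (hc : Function.Periodic c T) :
    Function.Periodic (kap σ c) T := by
  have ht : Function.Periodic (tau σ c) T := gradRep_ds_periodic σ hc hc
  intro x
  unfold kap nabla
  rw [gradRep_ds_periodic σ hc ht, hc]

theorem closed_rep {σ : ℝ} {c : ℝ → V n} {Z : ℝ → ℝ} (hc : IsClosedCurve σ c)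
    (hZ : IsReparam Z) : IsClosedCurve σ (fun x => c (Z x)) where
  smooth := hc.smooth.comp hZ.smooth
  periodic := fun x => by
    show c (Z (x + 2 * Real.pi)) = c (Z x)
    rw [hZ.shift, hc.periodic]
  mem := fun x => hc.mem _
  regular := fun x => by
    rw [gradRep_deriv_comp hZ]
    exact smul_ne_zero (hZ.deriv_pos x).ne' (hc.regular _)

/-- the energy is invariant under reparametrisations -/
theorem energy_rep {σ : ℝ} {c : ℝ → V n} {Z : ℝ → ℝ}
    (hc : Function.Periodic c (2 * Real.pi)) (hZ : IsReparam Z) :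
    energy σ (fun x => c (Z x)) = energy σ c := by
  unfold energy
  have hper : Function.Periodic
      (fun x => (B σ (kap σ c x) (kap σ c x) + 1) * vnorm σ (deriv c x)) (2 * Real.pi) := by
    intro x
    show (B σ (kap σ c (x + 2 * Real.pi)) (kap σ c (x + 2 * Real.pi)) + 1) *
      vnorm σ (deriv c (x + 2 * Real.pi)) = _
    rw [gradRep_kap_periodic σ hc, gradRep_deriv_periodic hc]
  rw [← gradRep_subst hZ _ hper]
  apply intervalIntegral.integral_congr
  intro x _
  show (B σ (kap σ (fun x => c (Z x)) x) (kap σ (fun x => c (Z x)) x) + 1) *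
    vnorm σ (deriv (fun x => c (Z x)) x) = (B σ (kap σ c (Z x)) (kap σ c (Z x)) + 1) *
      vnorm σ (deriv c (Z x)) * deriv Z x
  rw [gradRep_kap σ hZ, gradRep_deriv_comp hZ, gradRep_vnorm_smul σ _ (hZ.deriv_pos x).le]
  ring

theorem variation_rep {σ : ℝ} {γ : ℝ → V n} {Y Z : ℝ → ℝ} (hZ : IsReparam Z)
    (h2 : ∀ x, Y (Z x) = x) {δ : ℝ} {Γ : ℝ → ℝ → V n}
    (hΓ : IsVariation σ (fun x => γ (Y x)) δ Γ) : IsVariation σ γ δ (fun ε x => Γ ε (Z x)) where
  pos := hΓ.pos
  smooth := by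
    have hmap : ContDiffOn ℝ ∞ (fun z : ℝ × ℝ => (z.1, Z z.2)) (Ioo (-δ) δ ×ˢ univ) :=
      (contDiff_fst.prodMk (hZ.smooth.comp contDiff_snd)).contDiffOn
    exact hΓ.smooth.comp hmap (fun z hz => ⟨hz.1, mem_univ _⟩)
  closed := fun ε hε => closed_rep (hΓ.closed ε hε) hZ
  start := by
    funext x
    show Γ 0 (Z x) = γ x
    rw [hΓ.start]
    show γ (Y (Z x)) = γ x
    rw [h2]

theorem claimGradRep : ClaimGradRep := by
  intro n σ γ W Y _ hγ hY hW
  obtain ⟨Z, hZ, h1, h2⟩ := gradRep_exists_inv hY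
  refine ⟨hW.smooth.comp hY.smooth, ?_, fun x => hW.tangent _, ?_, ?_⟩
  · intro x
    show W (Y (x + 2 * Real.pi)) = W (Y x)
    rw [hY.shift, hW.periodic]
  · intro x
    rw [gradRep_deriv_comp hY, gradRep_B_smul_right, hW.normal, mul_zero]
  · intro δ Γ hΓ hn
    have hvf : ∀ x, varField (fun ε y => Γ ε (Z y)) x = varField Γ (Z x) := fun x => rfl
    have hvar := variation_rep hZ h2 hΓ
    have hn' : ∀ x, B σ (varField (fun ε y => Γ ε (Z y)) x) (deriv γ x) = 0 := by
      intro x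
      have h := hn (Z x)
      rw [gradRep_deriv_comp hY, gradRep_B_smul_right, h2] at h
      rw [hvf]
      rcases mul_eq_zero.1 h with h | h
      · exact absurd h (hY.deriv_pos _).ne'
      · exact h
    have hg := hW.grad δ _ hvar hn'
    have hint : ∫ x in (0 : ℝ)..(2 * Real.pi), B σ (W x)
          (varField (fun ε y => Γ ε (Z y)) x) * vnorm σ (deriv γ x) =
        ∫ x in (0 : ℝ)..(2 * Real.pi), B σ (W (Y x)) (varField Γ x) *
          vnorm σ (deriv (fun y => γ (Y y)) x) := by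
      have hΓper : Function.Periodic (varField Γ) (2 * Real.pi) := by
        intro x
        unfold varField
        apply Filter.EventuallyEq.deriv_eq
        filter_upwards [Ioo_mem_nhds (neg_lt_zero.2 hΓ.pos) hΓ.pos] with ε hε
        exact (hΓ.closed ε hε).periodic x
      have hper : Function.Periodic (fun x => B σ (W x)
          (varField (fun ε y => Γ ε (Z y)) x) * vnorm σ (deriv γ x)) (2 * Real.pi) := by
        intro x
        show B σ (W (x + 2 * Real.pi)) (varField Γ (Z (x + 2 * Real.pi))) *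
          vnorm σ (deriv γ (x + 2 * Real.pi)) = B σ (W x) (varField Γ (Z x)) * _
        rw [hZ.shift, hΓper, hW.periodic, gradRep_deriv_periodic hγ.periodic]
      rw [← gradRep_subst hY _ hper]
      apply intervalIntegral.integral_congr
      intro x _
      show B σ (W (Y x)) (varField Γ (Z (Y x))) * vnorm σ (deriv γ (Y x)) * deriv Y x =
        B σ (W (Y x)) (varField Γ x) * vnorm σ (deriv (fun y => γ (Y y)) x)
      rw [h1, gradRep_deriv_comp hY, gradRep_vnorm_smul σ _ (hY.deriv_pos x).le]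
      ring
    rw [hint] at hg
    refine hg.congr_of_eventuallyEq ?_
    filter_upwards [Ioo_mem_nhds (neg_lt_zero.2 hΓ.pos) hΓ.pos] with ε hε
    exact (energy_rep (hΓ.closed ε hε).periodic hZ).symm

end Pool.Agent.Work.MP_4a14ce_an

end

section

/-!
# Uniqueness of the gradient of the elastic energy
-/

open Set MeasureTheory Topology Filter
open scoped ContDiff

namespace Pool.Agent.Work.MP_4a14ce_an

variable {n : ℕ} {σ : ℝ}

lemma gradUnique_add (x y z : V n) : B σ (x + y) z = B σ x z + B σ y z := by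
  simp only [B, Pi.add_apply, add_mul, Finset.sum_add_distrib, mul_add]
  ring

lemma gradUnique_smul (c : ℝ) (x z : V n) : B σ (c • x) z = c * B σ x z := by
  simp only [B, Pi.smul_apply, smul_eq_mul, Finset.mul_sum, mul_add]
  congr 1
  · ring
  · exact Finset.sum_congr rfl fun i _ => by ring

lemma gradUnique_comm (x y : V n) : B σ x y = B σ y x := by
  simp only [B]
  congr 1
  · ring
  · exact Finset.sum_congr rfl fun i _ => by ring

lemma gradUnique_contDiff {E : Type*} [NormedAddCommGroup E] [NormedSpace ℝ E] {f g : E → V n}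
    (hf : ContDiff ℝ ∞ f) (hg : ContDiff ℝ ∞ g) : ContDiff ℝ ∞ (fun x => B σ (f x) (g x)) := by
  have hf' := contDiff_pi.mp hf
  have hg' := contDiff_pi.mp hg
  unfold B
  exact (contDiff_const.mul ((hf' 0).mul (hg' 0))).add
    (ContDiff.sum fun i _ => (hf' i.succ).mul (hg' i.succ))

lemma gradUnique_continuous {E : Type*} [TopologicalSpace E] {f g : E → V n}
    (hf : Continuous f) (hg : Continuous g) : Continuous (fun x => B σ (f x) (g x)) := by
  have hf' := continuous_pi_iff.mp hf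
  have hg' := continuous_pi_iff.mp hg
  unfold B
  exact (continuous_const.mul ((hf' 0).mul (hg' 0))).add
    (continuous_finsetSum _ fun i _ => (hf' i.succ).mul (hg' i.succ))

lemma gradUnique_tube {F : ℝ × ℝ → ℝ} (hF : Continuous F)
    (hp : ∀ ε x, F (ε, x + 2 * Real.pi) = F (ε, x)) (h0 : ∀ x, 0 < F (0, x)) :
    ∃ δ > 0, ∀ ε ∈ Ioo (-δ) δ, ∀ x, 0 < F (ε, x) := by
  have hopen : IsOpen {z | 0 < F z} := isOpen_lt continuous_const hF
  have hK : IsCompact (Icc (0 : ℝ) (2 * Real.pi)) := isCompact_Icc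
  obtain ⟨U, V', hU, hV, hsU, hsV, hUV⟩ := generalized_tube_lemma
    (isCompact_singleton (x := (0 : ℝ))) hK hopen (by
      rintro ⟨a, b⟩ ⟨ha, hb⟩
      simp only [mem_singleton_iff] at ha
      subst ha
      exact h0 b)
  obtain ⟨δ, hδ, hball⟩ := Metric.isOpen_iff.mp hU 0 (hsU rfl)
  refine ⟨δ, hδ, fun ε hε x => ?_⟩
  have hper : Function.Periodic (fun x => F (ε, x)) (2 * Real.pi) := hp ε
  obtain ⟨y, hy, hxy⟩ := hper.exists_mem_Ico₀ Real.two_pi_pos x
  have hxy' : F (ε, x) = F (ε, y) := hxy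
  rw [hxy']
  have h1 : ε ∈ U := hball (by rw [Metric.mem_ball, Real.dist_eq, sub_zero, abs_lt]; exact hε)
  have h2 : y ∈ V' := hsV ⟨hy.1, hy.2.le⟩
  exact hUV (mk_mem_prod h1 h2)

lemma gradUnique_periodic_deriv {E : Type*} [NormedAddCommGroup E] [NormedSpace ℝ E] {f : ℝ → E}
    {c : ℝ} (hf : Function.Periodic f c) : Function.Periodic (deriv f) c := by
  intro x
  have h := deriv_comp_add_const f c x
  rw [← h]
  congr 1
  funext y
  exact hf y

/-- The variation with variation field `X`. -/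
noncomputable def gradUniqueVar (σ : ℝ) (γ X : ℝ → V n) (ε x : ℝ) : V n :=
  (Real.sqrt (1 + σ * ε ^ 2 * B σ (X x) (X x)))⁻¹ • (γ x + ε • X x)

lemma gradUnique_field (γ X : ℝ → V n) (x : ℝ) :
    HasDerivAt (fun ε => gradUniqueVar σ γ X ε x) (X x) 0 := by
  have h1 : HasDerivAt (fun ε : ℝ => 1 + σ * ε ^ 2 * B σ (X x) (X x)) 0 0 := by
    have := ((((hasDerivAt_id (0 : ℝ)).pow 2).const_mul σ).mul_const (B σ (X x) (X x))).const_add 1
    simpa using this
  have h2 : HasDerivAt (fun ε : ℝ => Real.sqrt (1 + σ * ε ^ 2 * B σ (X x) (X x))) 0 0 := by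
    have := h1.sqrt (by simp)
    simpa using this
  have h3 : HasDerivAt (fun ε : ℝ => (Real.sqrt (1 + σ * ε ^ 2 * B σ (X x) (X x)))⁻¹) 0 0 := by
    have := h2.fun_inv (by simp)
    simpa using this
  have h4 : HasDerivAt (fun ε : ℝ => γ x + ε • X x) (X x) 0 := by
    have := ((hasDerivAt_id (0 : ℝ)).smul_const (X x)).const_add (γ x)
    simpa using this
  have h5 := h3.smul h4
  have h6 : HasDerivAt (fun ε => gradUniqueVar σ γ X ε x)
      ((Real.sqrt (1 + σ * (0 : ℝ) ^ 2 * B σ (X x) (X x)))⁻¹ • X x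
        + (0 : ℝ) • (γ x + (0 : ℝ) • X x)) 0 := h5
  simpa using h6

lemma gradUnique_form {γ X : ℝ → V n} (hσ : Sgn σ) {x ε : ℝ} (hγ : B σ (γ x) (γ x) = σ)
    (hX : B σ (X x) (γ x) = 0) (hq : 0 < 1 + σ * ε ^ 2 * B σ (X x) (X x)) :
    B σ (gradUniqueVar σ γ X ε x) (gradUniqueVar σ γ X ε x) = σ := by
  have hσ2 : σ * σ = 1 := by rcases hσ with h | h <;> rw [h] <;> norm_num
  have hs : Real.sqrt (1 + σ * ε ^ 2 * B σ (X x) (X x)) ^ 2 =
    1 + σ * ε ^ 2 * B σ (X x) (X x) := Real.sq_sqrt hq.le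
  have hs0 : Real.sqrt (1 + σ * ε ^ 2 * B σ (X x) (X x)) ≠ 0 := (Real.sqrt_pos.mpr hq).ne'
  have e1 : B σ (γ x + ε • X x) (γ x + ε • X x) = σ + ε ^ 2 * B σ (X x) (X x) := by
    rw [gradUnique_add, gradUnique_smul, gradUnique_comm (γ x), gradUnique_comm (X x),
      gradUnique_add, gradUnique_add, gradUnique_smul, gradUnique_smul, hγ,
      gradUnique_comm (γ x) (X x), hX]
    ring
  unfold gradUniqueVar
  rw [gradUnique_smul, gradUnique_comm (γ x + ε • X x), gradUnique_smul, e1]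
  set s := Real.sqrt (1 + σ * ε ^ 2 * B σ (X x) (X x)) with hsd
  have : σ + ε ^ 2 * B σ (X x) (X x) = σ * s ^ 2 := by
    rw [hs]
    linear_combination (- (ε ^ 2 * B σ (X x) (X x))) * hσ2
  rw [this]
  field_simp

lemma gradUnique_regular {γ X : ℝ → V n} (hγ : ContDiff ℝ ∞ γ) (hX : ContDiff ℝ ∞ X) {x ε : ℝ}
    (hq : 0 < 1 + σ * ε ^ 2 * B σ (X x) (X x))
    (hN : 0 < ‖(1 + σ * ε ^ 2 * B σ (X x) (X x)) • (deriv γ x + ε • deriv X x)
      - (σ * ε ^ 2 * deriv (fun y => B σ (X y) (X y)) x / 2) • (γ x + ε • X x)‖) :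
    deriv (gradUniqueVar σ γ X ε) x ≠ 0 := by
  intro h
  have hb : HasDerivAt (fun y => B σ (X y) (X y)) (deriv (fun y => B σ (X y) (X y)) x) x :=
    ((gradUnique_contDiff (σ := σ) hX hX).differentiable (by simp) x).hasDerivAt
  set b' := deriv (fun y => B σ (X y) (X y)) x with hb'
  have h1 : HasDerivAt (fun y => 1 + σ * ε ^ 2 * B σ (X y) (X y)) (σ * ε ^ 2 * b') x :=
    (hb.const_mul (σ * ε ^ 2)).const_add 1
  have h2 := (h1.sqrt hq.ne').inv (Real.sqrt_pos.mpr hq).ne'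
  have h4 : HasDerivAt (fun y => γ y + ε • X y) (deriv γ x + ε • deriv X x) x :=
    ((hγ.differentiable (by simp) x).hasDerivAt).add
      (((hX.differentiable (by simp) x).hasDerivAt).const_smul ε)
  have h5 := h2.smul h4
  have h6 : deriv (gradUniqueVar σ γ X ε) x = _ := h5.deriv
  rw [h6] at h
  set q := 1 + σ * ε ^ 2 * B σ (X x) (X x) with hqd
  have hs : Real.sqrt q ^ 2 = q := Real.sq_sqrt hq.le
  have hs0 : Real.sqrt q ≠ 0 := (Real.sqrt_pos.mpr hq).ne'
  apply hN.ne'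
  rw [norm_eq_zero]
  have h7 : (Real.sqrt q ^ 3) • ((Real.sqrt q)⁻¹ • (deriv γ x + ε • deriv X x) +
      (-(σ * ε ^ 2 * b' / (2 * Real.sqrt q)) / Real.sqrt q ^ 2) • (γ x + ε • X x)) = 0 := by
    have h8 : ((Real.sqrt q)⁻¹ • (deriv γ x + ε • deriv X x) +
      (-(σ * ε ^ 2 * b' / (2 * Real.sqrt q)) / Real.sqrt q ^ 2) • (γ x + ε • X x)) = 0 := h
    rw [h8, smul_zero]
  rw [smul_add, smul_smul, smul_smul] at h7
  rw [← h7, sub_eq_add_neg, ← neg_smul]
  congr 2
  · field_simp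
    rw [hs]
  · field_simp

lemma gradUnique_smooth {γ X : ℝ → V n} (hγ : ContDiff ℝ ∞ γ) (hX : ContDiff ℝ ∞ X) {δ : ℝ}
    (hq : ∀ ε ∈ Ioo (-δ) δ, ∀ x, 0 < 1 + σ * ε ^ 2 * B σ (X x) (X x)) :
    ContDiffOn ℝ ∞ (fun z : ℝ × ℝ => gradUniqueVar σ γ X z.1 z.2) (Ioo (-δ) δ ×ˢ univ) := by
  have hX2 : ContDiff ℝ ∞ (fun z : ℝ × ℝ => X z.2) := hX.comp contDiff_snd
  have hγ2 : ContDiff ℝ ∞ (fun z : ℝ × ℝ => γ z.2) := hγ.comp contDiff_snd
  have h1 : ContDiff ℝ ∞ (fun z : ℝ × ℝ => 1 + σ * z.1 ^ 2 * B σ (X z.2) (X z.2)) :=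
    contDiff_const.add ((contDiff_const.mul (contDiff_fst.pow 2)).mul
      (gradUnique_contDiff hX2 hX2))
  have h2 : ContDiffOn ℝ ∞ (fun z : ℝ × ℝ => Real.sqrt (1 + σ * z.1 ^ 2 * B σ (X z.2) (X z.2)))
      (Ioo (-δ) δ ×ˢ univ) := h1.contDiffOn.sqrt fun z hz => (hq z.1 hz.1 z.2).ne'
  have h3 := h2.inv fun z hz => (Real.sqrt_pos.mpr (hq z.1 hz.1 z.2)).ne'
  exact h3.smul (hγ2.add (contDiff_fst.smul hX2)).contDiffOn

lemma gradUnique_slice {γ X : ℝ → V n} (hγ : ContDiff ℝ ∞ γ) (hX : ContDiff ℝ ∞ X) {ε : ℝ}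
    (hq : ∀ x, 0 < 1 + σ * ε ^ 2 * B σ (X x) (X x)) :
    ContDiff ℝ ∞ (gradUniqueVar σ γ X ε) := by
  have h1 : ContDiff ℝ ∞ (fun x => 1 + σ * ε ^ 2 * B σ (X x) (X x)) :=
    contDiff_const.add (contDiff_const.mul (gradUnique_contDiff hX hX))
  have h2 : ContDiff ℝ ∞ (fun x => Real.sqrt (1 + σ * ε ^ 2 * B σ (X x) (X x))) :=
    h1.sqrt fun x => (hq x).ne'
  have h3 := h2.inv fun x => (Real.sqrt_pos.mpr (hq x)).ne'
  exact h3.smul (hγ.add (hX.const_smul ε))

lemma gradUnique_periodic {γ X : ℝ → V n} (hγ : Function.Periodic γ (2 * Real.pi))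
    (hX : Function.Periodic X (2 * Real.pi)) (ε : ℝ) :
    Function.Periodic (gradUniqueVar σ γ X ε) (2 * Real.pi) := by
  intro x
  simp only [gradUniqueVar, hγ x, hX x]

lemma gradUnique_isVariation (hσ : Sgn σ) {γ X : ℝ → V n} (hγ : IsClosedCurve σ γ)
    (hX : ContDiff ℝ ∞ X) (hXp : Function.Periodic X (2 * Real.pi))
    (hXt : ∀ x, B σ (X x) (γ x) = 0) : ∃ δ, IsVariation σ γ δ (gradUniqueVar σ γ X) := by
  have hXc := hX.continuous
  have hγc := hγ.smooth.continuous
  have hXc' : Continuous (deriv X) := hX.continuous_deriv (by simp)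
  have hγc' : Continuous (deriv γ) := hγ.smooth.continuous_deriv (by simp)
  have hb : ContDiff ℝ ∞ (fun y => B σ (X y) (X y)) := gradUnique_contDiff hX hX
  have hbc' : Continuous (deriv (fun y => B σ (X y) (X y))) := hb.continuous_deriv (by simp)
  have hbp : Function.Periodic (fun y => B σ (X y) (X y)) (2 * Real.pi) := fun x => by
    simp only [hXp x]
  obtain ⟨δ1, hδ1, h1⟩ := gradUnique_tube
    (F := fun z : ℝ × ℝ => 1 + σ * z.1 ^ 2 * B σ (X z.2) (X z.2))
    (continuous_const.add ((continuous_const.mul (continuous_fst.pow 2)).mul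
      (gradUnique_continuous (hXc.comp continuous_snd) (hXc.comp continuous_snd))))
    (fun ε x => by simp only [hXp x]) (fun x => by simp)
  obtain ⟨δ2, hδ2, h2⟩ := gradUnique_tube
    (F := fun z : ℝ × ℝ => ‖(1 + σ * z.1 ^ 2 * B σ (X z.2) (X z.2)) •
        (deriv γ z.2 + z.1 • deriv X z.2)
      - (σ * z.1 ^ 2 * deriv (fun y => B σ (X y) (X y)) z.2 / 2) • (γ z.2 + z.1 • X z.2)‖)
    (by
      refine continuous_norm.comp (((continuous_const.add ((continuous_const.mul
        (continuous_fst.pow 2)).mul (gradUnique_continuous (hXc.comp continuous_snd)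
        (hXc.comp continuous_snd)))).smul ((hγc'.comp continuous_snd).add
        (continuous_fst.smul (hXc'.comp continuous_snd)))).sub
        ((((continuous_const.mul (continuous_fst.pow 2)).mul
        (hbc'.comp continuous_snd)).div_const 2).smul ((hγc.comp continuous_snd).add
        (continuous_fst.smul (hXc.comp continuous_snd)))))
      )
    (fun ε x => by
      simp only [hXp x, hγ.periodic x, gradUnique_periodic_deriv hγ.periodic x,
        gradUnique_periodic_deriv hXp x, gradUnique_periodic_deriv hbp x])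
    (fun x => by simpa using hγ.regular x)
  obtain ⟨δ3, hδ3, h3⟩ : ∃ δ3 > 0, ∀ ε ∈ Ioo (-δ3) δ3, ∀ x, σ < 0 → 0 < γ x 0 + ε * X x 0 := by
    by_cases hs : σ < 0
    · obtain ⟨δ3, hδ3, h3⟩ := gradUnique_tube
        (F := fun z : ℝ × ℝ => γ z.2 0 + z.1 * X z.2 0)
        ((((continuous_apply 0).comp hγc).comp continuous_snd).add
          (continuous_fst.mul (((continuous_apply 0).comp hXc).comp continuous_snd)))
        (fun ε x => by simp only [hXp x, hγ.periodic x])
        (fun x => by simpa using (hγ.mem x).2 hs)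
      exact ⟨δ3, hδ3, fun ε hε x _ => h3 ε hε x⟩
    · exact ⟨1, one_pos, fun ε _ x h => absurd h hs⟩
  have hle : ∀ ε, ε ∈ Ioo (-(min δ1 (min δ2 δ3))) (min δ1 (min δ2 δ3)) →
      ε ∈ Ioo (-δ1) δ1 ∧ ε ∈ Ioo (-δ2) δ2 ∧ ε ∈ Ioo (-δ3) δ3 := by
    intro ε hε
    have a1 : min δ1 (min δ2 δ3) ≤ δ1 := min_le_left _ _
    have a2 : min δ1 (min δ2 δ3) ≤ δ2 := (min_le_right _ _).trans (min_le_left _ _)
    have a3 : min δ1 (min δ2 δ3) ≤ δ3 := (min_le_right _ _).trans (min_le_right _ _)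
    obtain ⟨c1, c2⟩ := hε
    refine ⟨⟨?_, ?_⟩, ⟨?_, ?_⟩, ⟨?_, ?_⟩⟩ <;> linarith
  refine ⟨min δ1 (min δ2 δ3), lt_min hδ1 (lt_min hδ2 hδ3),
    gradUnique_smooth hγ.smooth hX fun ε hε x => h1 ε (hle ε hε).1 x, ?_, ?_⟩
  · intro ε hε
    obtain ⟨e1, e2, e3⟩ := hle ε hε
    refine ⟨gradUnique_slice hγ.smooth hX (h1 ε e1), gradUnique_periodic hγ.periodic hXp ε, ?_,
      fun x => gradUnique_regular hγ.smooth hX (h1 ε e1 x) (h2 ε e2 x)⟩
    intro x
    refine ⟨gradUnique_form hσ (hγ.mem x).1 (hXt x) (h1 ε e1 x), fun hs => ?_⟩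
    have h4 := h3 ε e3 x hs
    have h5 : 0 < (Real.sqrt (1 + σ * ε ^ 2 * B σ (X x) (X x)))⁻¹ :=
      inv_pos.mpr (Real.sqrt_pos.mpr (h1 ε e1 x))
    simpa [gradUniqueVar] using mul_pos h5 h4
  · funext x
    simp [gradUniqueVar]

theorem claimGradUnique (hTan : ClaimTan) : ClaimGradUnique := by
  intro n σ γ W W' hσ hγ hW hW'
  set X : ℝ → V n := fun x => W x - W' x with hXd
  have hX : ContDiff ℝ ∞ X := hW.smooth.sub hW'.smooth
  have hXp : Function.Periodic X (2 * Real.pi) := fun x => by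
    simp only [hXd, hW.periodic x, hW'.periodic x]
  have hsub : ∀ a b c : V n, B σ (a - b) c = B σ a c - B σ b c := by
    intro a b c
    have h : a - b = a + (-1 : ℝ) • b := by rw [neg_one_smul, sub_eq_add_neg]
    rw [h, gradUnique_add, gradUnique_smul]
    ring
  have hXt : ∀ x, B σ (X x) (γ x) = 0 := fun x => by
    rw [hXd]
    simp only [hsub, hW.tangent x, hW'.tangent x, sub_zero]
  have hXn : ∀ x, B σ (X x) (deriv γ x) = 0 := fun x => by
    rw [hXd]
    simp only [hsub, hW.normal x, hW'.normal x, sub_zero]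
  obtain ⟨δ, hvar⟩ := gradUnique_isVariation hσ hγ hX hXp hXt
  have hfield : ∀ x, varField (gradUniqueVar σ γ X) x = X x := fun x =>
    (gradUnique_field γ X x).deriv
  have hn : ∀ x, B σ (varField (gradUniqueVar σ γ X) x) (deriv γ x) = 0 := fun x => by
    rw [hfield x, hXn x]
  have hg := (hW.grad δ _ hvar hn).unique (hW'.grad δ _ hvar hn)
  simp only [hfield] at hg
  have hγc' : Continuous (deriv γ) := hγ.smooth.continuous_deriv (by simp)
  have hv : Continuous (fun x => vnorm σ (deriv γ x)) := by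
    unfold vnorm
    exact Real.continuous_sqrt.comp (gradUnique_continuous hγc' hγc')
  have hWc : Continuous (fun x => B σ (W x) (X x) * vnorm σ (deriv γ x)) :=
    (gradUnique_continuous hW.smooth.continuous hX.continuous).mul hv
  have hWc' : Continuous (fun x => B σ (W' x) (X x) * vnorm σ (deriv γ x)) :=
    (gradUnique_continuous hW'.smooth.continuous hX.continuous).mul hv
  have hXXc : Continuous (fun x => B σ (X x) (X x) * vnorm σ (deriv γ x)) :=
    (gradUnique_continuous hX.continuous hX.continuous).mul hv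
  have hint : ∫ x in (0 : ℝ)..(2 * Real.pi), B σ (X x) (X x) * vnorm σ (deriv γ x) = 0 := by
    have e : (fun x => B σ (X x) (X x) * vnorm σ (deriv γ x)) = fun x =>
        B σ (W x) (X x) * vnorm σ (deriv γ x) - B σ (W' x) (X x) * vnorm σ (deriv γ x) := by
      funext x
      have : B σ (X x) (X x) = B σ (W x) (X x) - B σ (W' x) (X x) := by
        conv_lhs => rw [show X x = W x - W' x from rfl]
        rw [hsub]
      rw [this]
      ring
    rw [e, intervalIntegral.integral_sub (hWc.intervalIntegrable _ _)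
      (hWc'.intervalIntegrable _ _), hg, sub_self]
  -- pointwise facts
  have hXX0 : ∀ x, 0 ≤ B σ (X x) (X x) := fun x =>
    (hTan n σ (nsq (γ x)) hσ).1 (γ x) (hγ.mem x) (X x) (hXt x)
  have hγt : ∀ x, B σ (deriv γ x) (γ x) = 0 := by
    intro x
    have h1 : HasDerivAt γ (deriv γ x) x := (hγ.smooth.differentiable (by simp) x).hasDerivAt
    have h1' := hasDerivAt_pi.mp h1
    have h2 : HasDerivAt (fun y => B σ (γ y) (γ y)) (2 * B σ (deriv γ x) (γ x)) x := by
      have h3 : HasDerivAt (fun y => σ * (γ y 0 * γ y 0) + ∑ i : Fin n, γ y i.succ * γ y i.succ)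
        (σ * (deriv γ x 0 * γ x 0 + γ x 0 * deriv γ x 0) + ∑ i : Fin n,
          (deriv γ x i.succ * γ x i.succ + γ x i.succ * deriv γ x i.succ)) x :=
        (((h1' 0).mul (h1' 0)).const_mul σ).add
          (HasDerivAt.fun_sum fun i _ => (h1' i.succ).mul (h1' i.succ))
      refine h3.congr_deriv ?_
      simp only [B, mul_add, Finset.mul_sum]
      congr 1
      · ring
      · exact Finset.sum_congr rfl fun i _ => by ring
    have h4 : (fun y => B σ (γ y) (γ y)) = fun _ => σ := funext fun y => (hγ.mem y).1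
    rw [h4] at h2
    have := h2.unique (hasDerivAt_const x σ)
    linarith
  have hvpos : ∀ x, 0 < vnorm σ (deriv γ x) := by
    intro x
    obtain ⟨C, hC, hC'⟩ := (hTan n σ (nsq (γ x)) hσ).2
    have h1 := hC' (γ x) (hγ.mem x) le_rfl (deriv γ x) (hγt x)
    have h2 : 0 < nsq (deriv γ x) := by
      rcases Function.ne_iff.mp (hγ.regular x) with ⟨i, hi⟩
      unfold nsq
      refine lt_of_lt_of_le ?_ (Finset.single_le_sum (f := fun i => deriv γ x i ^ 2)
        (fun j _ => sq_nonneg _) (Finset.mem_univ i))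
      exact (sq_nonneg _).lt_of_ne (Ne.symm (pow_ne_zero 2 (by simpa using hi)))
    have h3 : 0 < B σ (deriv γ x) (deriv γ x) := by
      by_contra hcon
      push Not at hcon
      nlinarith
    exact Real.sqrt_pos.mpr h3
  have hzero : ∀ x ∈ Icc (0 : ℝ) (2 * Real.pi), B σ (X x) (X x) = 0 := by
    intro x hx
    by_contra hne
    have hpos : 0 < B σ (X x) (X x) * vnorm σ (deriv γ x) :=
      mul_pos (lt_of_le_of_ne (hXX0 x) (Ne.symm hne)) (hvpos x)
    have := intervalIntegral.integral_pos Real.two_pi_pos hXXc.continuousOn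
      (fun y _ => mul_nonneg (hXX0 y) (hvpos y).le) ⟨x, hx, hpos⟩
    linarith
  have hX0 : ∀ x, X x = 0 := by
    intro x
    obtain ⟨y, hy, hxy⟩ := hXp.exists_mem_Ico₀ Real.two_pi_pos x
    rw [hxy]
    obtain ⟨C, hC, hC'⟩ := (hTan n σ (nsq (γ y)) hσ).2
    have h1 := hC' (γ y) (hγ.mem y) le_rfl (X y) (hXt y)
    rw [hzero y ⟨hy.1, hy.2.le⟩, mul_zero] at h1
    funext i
    have h2 : X y i ^ 2 ≤ nsq (X y) := Finset.single_le_sum (f := fun i => X y i ^ 2)
        (fun j _ => sq_nonneg _) (Finset.mem_univ i)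
    have h3 : X y i ^ 2 = 0 := le_antisymm (h2.trans h1) (sq_nonneg _)
    simpa using h3
  funext x
  have := hX0 x
  exact sub_eq_zero.mp this

end Pool.Agent.Work.MP_4a14ce_an

end

section

/-!
# Sub-project S (Lojasiewicz-Simon inequality): definitions and interfaces

`WV n` plays two roles.  As the domain `X` an element `U` represents the map `u` with Fourier
coefficients `(1+|k|)^{-4} U_k`, and `DV n j U` (`j ≤ 4`) is the element of `WV n` (Fourier
coefficients) of `∂^j u`.  `J3 n U = (u, u', u'', u''')`.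
`FX` extends the energy, `MX` is its gradient:
`dF(U) H = 2π mean B(M(U), h)` with `h = DV n 0 H`.
-/

open Set MeasureTheory Topology Filter
open scoped ContDiff

namespace Pool.Agent.Work.MP_4a14ce_an

/-- scalar Wiener algebra -/
abbrev WC : Type := Wien ℂ

abbrev WV (n : ℕ) : Type := Fin (n + 1) → WC

/-- symbol of `∂^j` relative to the weight `(1+|k|)^4` -/
noncomputable def dm (j : ℕ) (k : ℤ) : ℂ :=
  if j ≤ 4 then (Complex.I * k) ^ j / ((1 + |(k : ℝ)| : ℝ) : ℂ) ^ 4 else 0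

theorem dm_le (j : ℕ) (k : ℤ) : ‖dm j k‖ ≤ 1 := by
  unfold dm
  split_ifs with h
  · rw [norm_div, norm_pow, norm_pow, norm_mul, Complex.norm_I, one_mul, Complex.norm_real,
      Complex.norm_intCast, Real.norm_eq_abs, abs_of_pos (by positivity : 0 < 1 + |(k : ℝ)|)]
    rw [div_le_one (by positivity)]
    calc |(k : ℝ)| ^ j ≤ (1 + |(k : ℝ)|) ^ j := by
          apply pow_le_pow_left₀ (abs_nonneg _); linarith [abs_nonneg (k : ℝ)]
      _ ≤ (1 + |(k : ℝ)|) ^ 4 := by
          apply pow_le_pow_right₀ _ h; linarith [abs_nonneg (k : ℝ)]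
  · simp

/-- `∂^j` from the weighted space, `j ≤ 4` (scalar) -/
noncomputable def DW (j : ℕ) : WC →L[ℂ] WC := Wien.mult (dm j) 1 (dm_le j)

/-- `∂^j` from the weighted space, `j ≤ 4` -/
noncomputable def DV (n j : ℕ) : WV n →L[ℂ] WV n :=
  ContinuousLinearMap.pi fun i => (DW j).comp (ContinuousLinearMap.proj i)

theorem DV_apply (n j : ℕ) (U : WV n) (i : Fin (n + 1)) : DV n j U i = DW j (U i) := rfl

theorem DW_apply (j : ℕ) (f : WC) (k : ℤ) : DW j f k = dm j k * f k := rfl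

/-- the 3-jet `(u, u', u'', u''')` -/
noncomputable def J3 (n : ℕ) : WV n →L[ℂ] (Fin 4 → WV n) :=
  ContinuousLinearMap.pi fun j => DV n (j : ℕ)

theorem J3_apply (n : ℕ) (U : WV n) (j : Fin 4) : J3 n U j = DV n (j : ℕ) U := rfl

/-- the bilinear form with values in the Wiener algebra -/
noncomputable def BW (σ : ℝ) {n : ℕ} (x y : WV n) : WC :=
  (σ : ℂ) • (x 0 * y 0) + ∑ i : Fin n, x i.succ * y i.succ

/-- mean value -/
noncomputable def mn : WC →L[ℂ] ℂ := Wien.coef 0

section scalars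

variable (σ : ℝ) {n : ℕ} (z : Fin 4 → WV n)

noncomputable def zP : ℂ := mn (BW σ (z 1) (z 1))
noncomputable def zm : ℂ := mn (BW σ (z 2) (z 2))
noncomputable def za : ℂ := mn (BW σ (z 1) (z 1) * BW σ (z 2) (z 2))
noncomputable def zb : ℂ := mn (BW σ (z 0) (z 0) * BW σ (z 2) (z 2))
noncomputable def zc : ℂ := mn (BW σ (z 0) (z 0))
/-- `√p` -/
noncomputable def zs : ℂ := (zP σ z) ^ (1 / 2 : ℂ)

noncomputable def zF : ℂ :=
  2 * Real.pi * (2 * (zs σ z)⁻¹ ^ 3 * zm σ z - 3 / 2 * (zs σ z)⁻¹ ^ 5 * za σ z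
    + σ / 2 * (zs σ z)⁻¹ ^ 3 * zb σ z + 1 / 2 * (1 - σ) * zs σ z * (zc σ z + 2 - σ))

noncomputable def zq : ℂ :=
  -3 * (zs σ z)⁻¹ ^ 5 * zm σ z + 15 / 4 * (zs σ z)⁻¹ ^ 7 * za σ z
    - 3 * σ / 4 * (zs σ z)⁻¹ ^ 5 * zb σ z + 1 / 4 * (1 - σ) * (zs σ z)⁻¹ * (zc σ z + 2 - σ)

noncomputable def coefW : WC :=
  (4 * (zs σ z)⁻¹ ^ 3) • (1 : WC) - (3 * (zs σ z)⁻¹ ^ 5) • BW σ (z 1) (z 1)
    + (σ * (zs σ z)⁻¹ ^ 3) • BW σ (z 0) (z 0)

noncomputable def M3 (i : Fin (n + 1)) : WC :=
  -((3 / 2 * (zs σ z)⁻¹ ^ 5) • ((-4 : ℂ) • (BW σ (z 2) (z 3) * z 1 i)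
      + (2 : ℂ) • (BW σ (z 2) (z 2) * z 2 i) + (8 : ℂ) • (BW σ (z 1) (z 2) * z 3 i)
      + (4 : ℂ) • (BW σ (z 1) (z 3) * z 2 i)))
    + (σ / 2 * (zs σ z)⁻¹ ^ 3) • ((2 : ℂ) • (BW σ (z 2) (z 2) * z 0 i)
      + (8 : ℂ) • (BW σ (z 0) (z 1) * z 3 i)
      + (4 : ℂ) • ((BW σ (z 1) (z 1) + BW σ (z 0) (z 2)) * z 2 i))
    + ((1 - σ) * zs σ z) • z 0 i - (2 * zq σ z) • z 2 i

/-- the gradient as a function of the jet and the fourth derivative -/
noncomputable def GM (w : WV n) : WV n := fun i => coefW σ z * w i + M3 σ z i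

end scalars

/-- the extended energy -/
noncomputable def FX (σ : ℝ) {n : ℕ} (U : WV n) : ℂ := zF σ (J3 n U)

/-- its gradient -/
noncomputable def MX (σ : ℝ) {n : ℕ} (U : WV n) : WV n := GM σ (J3 n U) (DV n 4 U)

/-- Fourier coefficients of a `2π`-periodic function -/
noncomputable def fco (f : ℝ → ℂ) (k : ℤ) : ℂ :=
  (2 * Real.pi : ℂ)⁻¹ * ∫ x in (0 : ℝ)..(2 * Real.pi), Wien.ee x (-k) * f x

open Classical in
/-- the element of the weighted space that represents a smooth periodic map -/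
noncomputable def toX {n : ℕ} (u : ℝ → V n) : WV n := fun i =>
  if h : Summable (fun k : ℤ =>
      ‖((1 + |(k : ℝ)| : ℝ) : ℂ) ^ 4 * fco (fun x => ((u x i : ℝ) : ℂ)) k‖) then
    Wien.mk (fun k : ℤ => ((1 + |(k : ℝ)| : ℝ) : ℂ) ^ 4 * fco (fun x => ((u x i : ℝ) : ℂ)) k) h
  else 0

/-! ## the claims -/

/-- S1: abstract Lojasiewicz-Simon inequality (elimination of all but finitely many directions) -/
def ClaimSAbs : Prop := ∀ (X Y : Type) [NormedAddCommGroup X] [NormedSpace ℝ X] [CompleteSpace X]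
  [NormedAddCommGroup Y] [NormedSpace ℝ Y] (F : X → ℝ) (M : X → Y) (x0 : X)
  (P : X →L[ℝ] X) (L : Y →L[ℝ] X) (e : X ≃L[ℝ] X) (M' : X →L[ℝ] Y) (C : ℝ),
  AnalyticAt ℝ F x0 → AnalyticAt ℝ M x0 → HasFDerivAt M M' x0 →
  (e : X →L[ℝ] X) = P + L.comp M' → FiniteDimensional ℝ (LinearMap.range P.toLinearMap) →
  M x0 = 0 → (∀ᶠ x in 𝓝 x0, ‖fderiv ℝ F x‖ ≤ C * ‖M x‖) →
  ∃ θ ∈ Ioo (0 : ℝ) 1, ∃ C' > 0, ∀ᶠ x in 𝓝 x0, |F x - F x0| ^ θ ≤ C' * ‖M x‖

/-- S2: the linearisation is invertible after elimination of finitely many frequencies -/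
def ClaimSCpt : Prop := ∀ (n : ℕ) (T : (Fin 4 → WV n) →L[ℂ] WV n) (c : ℂ), c ≠ 0 →
  ∃ (P L : WV n →L[ℂ] WV n) (e : WV n ≃L[ℂ] WV n),
    FiniteDimensional ℂ (LinearMap.range P.toLinearMap) ∧
    (e : WV n →L[ℂ] WV n) = P + L.comp (c • DV n 4 + T.comp (J3 n))

/-- S3: `MX` is the gradient of `FX` -/
def ClaimSGrad : Prop := ∀ (n : ℕ) (σ : ℝ) (U : WV n), Sgn σ →
  zP σ (J3 n U) ∈ Complex.slitPlane →
  ∃ L : WV n →L[ℂ] ℂ, HasFDerivAt (FX σ) L U ∧
    ∀ H, L H = 2 * Real.pi * mn (BW σ (MX σ U) (DV n 0 H))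

/-- S4: analyticity and the form of the linearisation -/
def ClaimSAn : Prop := ∀ (n : ℕ) (σ : ℝ) (U : WV n), zP σ (J3 n U) ∈ Complex.slitPlane →
  AnalyticAt ℂ (FX σ) U ∧ AnalyticAt ℂ (MX σ) U ∧
  ∀ c : ℂ, coefW σ (J3 n U) = c • (1 : WC) →
    ∃ T : (Fin 4 → WV n) →L[ℂ] WV n, HasFDerivAt (MX σ) (c • DV n 4 + T.comp (J3 n)) U

/-- S5: Fourier coefficients of evaluations -/
def ClaimSFco : Prop := ∀ (w : WC) (k : ℤ), w k = fco (fun x => Wien.evL x w) k

/-- S5: derivatives of the embedded map -/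
def ClaimSEv : Prop := ∀ (n : ℕ) (u : ℝ → V n), ContDiff ℝ ∞ u →
  Function.Periodic u (2 * Real.pi) → ∀ j ≤ 4, ∀ (i : Fin (n + 1)) (x : ℝ),
    Wien.evL x (DV n j (toX u) i) = ((iteratedDeriv j u x i : ℝ) : ℂ)

/-- S6: closeness -/
def ClaimSClose : Prop := ∀ n : ℕ, ∃ C : ℝ, ∀ (u v : ℝ → V n) (δ : ℝ), ContDiff ℝ ∞ u →
  Function.Periodic u (2 * Real.pi) → ContDiff ℝ ∞ v → Function.Periodic v (2 * Real.pi) →
  (∀ j ≤ 6, ∀ x, nsq (iteratedDeriv j u x - iteratedDeriv j v x) ≤ δ) →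
  ‖toX u - toX v‖ ≤ C * Real.sqrt δ

/-- S7: values at constant speed curves -/
def ClaimSVal : Prop := ∀ (n : ℕ) (σ p : ℝ) (u : ℝ → V n), Sgn σ → Con σ p u →
  zP σ (J3 n (toX u)) = (p : ℂ) ∧
  coefW σ (J3 n (toX u)) = ((2 * (p * Real.sqrt p)⁻¹ : ℝ) : ℂ) • (1 : WC) ∧
  FX σ (toX u) = ((en σ p u : ℝ) : ℂ) ∧
  ∀ i x, Wien.evL x (MX σ (toX u) i) = ((-((p * Real.sqrt p)⁻¹ * vel σ p p⁻¹ u x i) : ℝ) : ℂ)

/-- S8: all derivatives of the velocity are bounded -/
def ClaimSVelBd : Prop := ∀ (n N : ℕ) (σ K : ℝ), ∃ C : ℝ, ∀ (u : ℝ → V n) (p : ℝ), Con σ p u →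
  K⁻¹ ≤ p → p ≤ K → (∀ j ≤ N + 4, ∀ x, nsq (iteratedDeriv j u x) ≤ K) →
  ContDiff ℝ ∞ (vel σ p p⁻¹ u) ∧ Function.Periodic (vel σ p p⁻¹ u) (2 * Real.pi) ∧
  ∀ j ≤ N, ∀ x, nsq (iteratedDeriv j (vel σ p p⁻¹ u) x) ≤ C

/-- S9: interpolation -/
def ClaimSInt : Prop := ∀ (n m : ℕ) (σ : ℝ), Sgn σ → 1 ≤ m → ∃ N : ℕ, ∀ K : ℝ, ∃ C : ℝ,
  ∀ (u : ℝ → V n) (p : ℝ), Con σ p u → K⁻¹ ≤ p → p ≤ K →
    (∀ j ≤ N, ∀ x, nsq (iteratedDeriv j u x) ≤ K) →
    ‖MX σ (toX u)‖ ≤ C * (Real.sqrt (dis σ p u)) ^ (1 - 1 / (m : ℝ))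

end Pool.Agent.Work.MP_4a14ce_an

end
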