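import Pool.Agent.Work.MP_4a14ce_an.Bd.B01

/-! Bundle of small proof modules (one section per former module). -/

section

/-!
# The fourth order energy estimate
-/

open Set MeasureTheory Topology Filter
open scoped ContDiff

namespace Pool.Agent.Work.MP_4a14ce_an

theorem h4_periodic_iter {E : Type*} [NormedAddCommGroup E] [NormedSpace ℝ E] {f : ℝ → E} {c : ℝ}
    (hf : Function.Periodic f c) (j : ℕ) : Function.Periodic (iteratedDeriv j f) c := by
  intro x
  have h := congrFun (iteratedDeriv_comp_add_const j f c) x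
  have h2 : (fun z => f (z + c)) = f := funext hf
  rw [h2] at h
  exact h.symm

/-- components of the iterated derivatives -/
theorem h4_hasDerivAt {n : ℕ} {f : ℝ → V n} (hf : ContDiff ℝ ∞ f) (j : ℕ) (i : Fin (n + 1))
    (x : ℝ) : HasDerivAt (fun y => iteratedDeriv j f y i) (iteratedDeriv (j + 1) f x i) x := by
  have h1 : ContDiff ℝ ∞ (iteratedDeriv j f) := by
    have := ContDiff.iterate_deriv (𝕜 := ℝ) j hf
    rwa [← iteratedDeriv_eq_iterate] at this
  have h2 : HasDerivAt (iteratedDeriv j f) (iteratedDeriv (j + 1) f x) x := by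
    rw [iteratedDeriv_succ]
    exact ((h1.differentiable (by simp)) x).hasDerivAt
  exact (hasDerivAt_pi.1 h2) i

theorem h4_contDiff {n : ℕ} {f : ℝ → V n} (hf : ContDiff ℝ ∞ f) (j : ℕ) :
    ContDiff ℝ ∞ (iteratedDeriv j f) := by
  have := ContDiff.iterate_deriv (𝕜 := ℝ) j hf
  rwa [← iteratedDeriv_eq_iterate] at this

theorem h4_contDiff_comp {n : ℕ} {f : ℝ → V n} (hf : ContDiff ℝ ∞ f) (j : ℕ) (i : Fin (n + 1)) :
    ContDiff ℝ ∞ (fun y => iteratedDeriv j f y i) :=
  contDiff_pi.1 (h4_contDiff hf j) i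

theorem h4_periodic_comp {n : ℕ} {f : ℝ → V n} (hf : Function.Periodic f (2 * Real.pi)) (j : ℕ)
    (i : Fin (n + 1)) : Function.Periodic (fun y => iteratedDeriv j f y i) (2 * Real.pi) := by
  intro x
  show iteratedDeriv j f (x + 2 * Real.pi) i = _
  rw [h4_periodic_iter hf j x]

/-- one integration by parts -/
theorem h4_ibp (hB : PerIbp) {n : ℕ} {f g : ℝ → V n} (hf : ContDiff ℝ ∞ f) (hg : ContDiff ℝ ∞ g)
    (pf : Function.Periodic f (2 * Real.pi)) (pg : Function.Periodic g (2 * Real.pi)) (j k : ℕ)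
    (i : Fin (n + 1)) :
    per (fun x => iteratedDeriv (j + 1) f x i * iteratedDeriv k g x i) =
      - per (fun x => iteratedDeriv j f x i * iteratedDeriv (k + 1) g x i) := by
  have h := hB (fun x => iteratedDeriv j f x i) (fun x => iteratedDeriv k g x i)
    ((h4_contDiff_comp hf j i).of_le (by simp)) ((h4_contDiff_comp hg k i).of_le (by simp))
    (h4_periodic_comp pf j i) (h4_periodic_comp pg k i)
  have e1 : (deriv fun x => iteratedDeriv j f x i) = fun x => iteratedDeriv (j + 1) f x i :=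
    funext fun x => (h4_hasDerivAt hf j i x).deriv
  have e2 : (deriv fun x => iteratedDeriv k g x i) = fun x => iteratedDeriv (k + 1) g x i :=
    funext fun x => (h4_hasDerivAt hg k i x).deriv
  rw [e1, e2] at h
  exact h

theorem h4_ibp2 (hB : PerIbp) {n : ℕ} {f g : ℝ → V n} (hf : ContDiff ℝ ∞ f) (hg : ContDiff ℝ ∞ g)
    (pf : Function.Periodic f (2 * Real.pi)) (pg : Function.Periodic g (2 * Real.pi)) (j k : ℕ)
    (i : Fin (n + 1)) :
    per (fun x => iteratedDeriv (j + 2) f x i * iteratedDeriv k g x i) =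
      per (fun x => iteratedDeriv j f x i * iteratedDeriv (k + 2) g x i) := by
  rw [h4_ibp hB hf hg pf pg (j + 1) k i, h4_ibp hB hf hg pf pg j (k + 1) i, neg_neg]

theorem h4_cont {n : ℕ} {f : ℝ → V n} (hf : ContDiff ℝ ∞ f) (j : ℕ) (i : Fin (n + 1)) :
    Continuous (fun x => iteratedDeriv j f x i) := (h4_contDiff_comp hf j i).continuous

theorem h4_per_sum {n : ℕ} (F : Fin (n + 1) → ℝ → ℝ) (hF : ∀ i, Continuous (F i)) :
    per (fun x => ∑ i, F i x) = ∑ i, per (F i) := by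
  unfold per
  exact intervalIntegral.integral_finsetSum (fun i _ => (hF i).intervalIntegrable _ _)

theorem h4_per_sum_mul {n : ℕ} {f g : ℝ → V n} (hf : ContDiff ℝ ∞ f) (hg : ContDiff ℝ ∞ g)
    (j k : ℕ) : per (fun x => ∑ i, iteratedDeriv j f x i * iteratedDeriv k g x i) =
      ∑ i, per (fun x => iteratedDeriv j f x i * iteratedDeriv k g x i) :=
  h4_per_sum (fun i x => iteratedDeriv j f x i * iteratedDeriv k g x i)
    (fun i => (h4_cont hf j i).mul (h4_cont hg k i))

theorem h4_per_mono {f g : ℝ → ℝ} (hf : Continuous f) (hg : Continuous g) (h : ∀ x, f x ≤ g x) :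
    per f ≤ per g := by
  unfold per
  exact intervalIntegral.integral_mono_on (by positivity) (hf.intervalIntegrable _ _)
    (hg.intervalIntegrable _ _) (fun x _ => h x)

theorem h4_per_nonneg {f : ℝ → ℝ} (h : ∀ x, 0 ≤ f x) : 0 ≤ per f := by
  unfold per
  exact intervalIntegral.integral_nonneg (by positivity) (fun x _ => h x)

theorem h4_per_add {f g : ℝ → ℝ} (hf : Continuous f) (hg : Continuous g) :
    per (fun x => f x + g x) = per f + per g := by
  unfold per
  exact intervalIntegral.integral_add (hf.intervalIntegrable _ _) (hg.intervalIntegrable _ _)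

theorem h4_per_const_mul (c : ℝ) (f : ℝ → ℝ) :
    per (fun x => c * f x) = c * per f := by
  unfold per
  exact intervalIntegral.integral_const_mul c f

theorem h4_nsq_cont {n : ℕ} {f : ℝ → V n} (hf : ContDiff ℝ ∞ f) (j : ℕ) :
    Continuous (fun x => nsq (iteratedDeriv j f x)) := by
  unfold nsq
  exact continuous_finsetSum _ (fun i _ => (h4_cont hf j i).pow 2)

theorem h4_nsq_nonneg {n : ℕ} (v : V n) : 0 ≤ nsq v := by
  unfold nsq
  exact Finset.sum_nonneg (fun i _ => sq_nonneg _)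

/-- `y² ≤ K Y` -/
theorem h4_interp (hB : PerIbp) {n : ℕ} {f : ℝ → V n} (hf : ContDiff ℝ ∞ f)
    (pf : Function.Periodic f (2 * Real.pi)) {K : ℝ} (hK : 0 < K)
    (h2 : per (fun x => nsq (iteratedDeriv 2 f x)) ≤ K) :
    per (fun x => nsq (iteratedDeriv 4 f x)) ^ 2 ≤
      K * per (fun x => nsq (iteratedDeriv 6 f x)) := by
  set y := per (fun x => nsq (iteratedDeriv 4 f x)) with hy
  set Y := per (fun x => nsq (iteratedDeriv 6 f x)) with hY
  have hY0 : 0 ≤ Y := h4_per_nonneg (fun x => h4_nsq_nonneg _)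
  have hy0 : 0 ≤ y := h4_per_nonneg (fun x => h4_nsq_nonneg _)
  have e1 : y = per (fun x => ∑ i, iteratedDeriv 2 f x i * iteratedDeriv 6 f x i) := by
    have a1 : y = ∑ i, per (fun x => iteratedDeriv 4 f x i * iteratedDeriv 4 f x i) := by
      rw [hy, ← h4_per_sum_mul hf hf 4 4]
      congr 1
      funext x
      unfold nsq
      exact Finset.sum_congr rfl (fun i _ => by ring)
    rw [a1, h4_per_sum_mul hf hf 2 6]
    exact Finset.sum_congr rfl (fun i _ => h4_ibp2 hB hf hf pf pf 2 4 i)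
  have key : ∀ ε : ℝ, 0 < ε → 2 * y ≤ K / ε + ε * Y := by
    intro ε hε
    have b1 : y ≤ per (fun x => (1 / (2 * ε)) * nsq (iteratedDeriv 2 f x)
        + (ε / 2) * nsq (iteratedDeriv 6 f x)) := by
      rw [e1]
      refine h4_per_mono ?_ ?_ ?_
      · exact continuous_finsetSum _ (fun i _ => (h4_cont hf 2 i).mul (h4_cont hf 6 i))
      · exact (continuous_const.mul (h4_nsq_cont hf 2)).add
          (continuous_const.mul (h4_nsq_cont hf 6))
      · intro x
        unfold nsq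
        rw [Finset.mul_sum, Finset.mul_sum, ← Finset.sum_add_distrib]
        refine Finset.sum_le_sum (fun i _ => ?_)
        set a := iteratedDeriv 2 f x i
        set b := iteratedDeriv 6 f x i
        have : 0 ≤ (a - ε * b) ^ 2 / (2 * ε) := by positivity
        have e : (a - ε * b) ^ 2 / (2 * ε) = 1 / (2 * ε) * a ^ 2 + ε / 2 * b ^ 2 - a * b := by
          field_simp
          ring
        linarith
    have b0 : per (fun x => (1 / (2 * ε)) * nsq (iteratedDeriv 2 f x)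
        + (ε / 2) * nsq (iteratedDeriv 6 f x)) =
        (1 / (2 * ε)) * per (fun x => nsq (iteratedDeriv 2 f x)) + (ε / 2) * Y := by
      rw [hY, ← h4_per_const_mul, ← h4_per_const_mul]
      exact h4_per_add (continuous_const.mul (h4_nsq_cont hf 2))
        (continuous_const.mul (h4_nsq_cont hf 6))
    rw [b0] at b1
    have b2 : 1 / (2 * ε) * per (fun x => nsq (iteratedDeriv 2 f x)) ≤ 1 / (2 * ε) * K :=
      mul_le_mul_of_nonneg_left h2 (by positivity)
    have b3 : 2 * (1 / (2 * ε) * K) = K / ε := by field_simp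
    have b4 : 2 * (ε / 2 * Y) = ε * Y := by ring
    linarith
  rcases hy0.eq_or_lt with h0 | h0
  · rw [← h0]
    have : 0 ≤ K * Y := by positivity
    simpa using this
  · have h := key (K / y) (by positivity)
    have e : K / (K / y) = y := by field_simp
    rw [e] at h
    have h' : y ≤ K / y * Y := by linarith
    have h'' : y * y ≤ (K / y * Y) * y := mul_le_mul_of_nonneg_right h' hy0
    have e' : (K / y * Y) * y = K * Y := by field_simp
    rw [e'] at h''
    nlinarith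

/-- Young inequality for the exponent 7/8 -/
theorem h4_young {C s : ℝ} (hC : 0 ≤ C) (hs : 1 ≤ s) : C * s ^ ((7 : ℝ) / 8) ≤ s + C ^ 8 := by
  have hs0 : 0 < s := by linarith
  have e1 : s ^ ((7 : ℝ) / 8) * s ^ ((1 : ℝ) / 8) = s := by
    rw [← Real.rpow_add hs0]
    norm_num
  have p7 : 0 ≤ s ^ ((7 : ℝ) / 8) := Real.rpow_nonneg hs0.le _
  by_cases h : C ≤ s ^ ((1 : ℝ) / 8)
  · have : C * s ^ ((7 : ℝ) / 8) ≤ s ^ ((1 : ℝ) / 8) * s ^ ((7 : ℝ) / 8) :=
      mul_le_mul_of_nonneg_right h p7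
    have h8 : 0 ≤ C ^ 8 := by positivity
    nlinarith
  · push Not at h
    have h1 : s ^ ((7 : ℝ) / 8) = (s ^ ((1 : ℝ) / 8)) ^ 7 := by
      rw [← Real.rpow_natCast, ← Real.rpow_mul hs0.le]
      norm_num
    have h2 : (s ^ ((1 : ℝ) / 8)) ^ 7 ≤ C ^ 7 :=
      pow_le_pow_left₀ (Real.rpow_nonneg hs0.le _) h.le 7
    have h3 : C * s ^ ((7 : ℝ) / 8) ≤ C * C ^ 7 := by
      rw [h1]
      exact mul_le_mul_of_nonneg_left h2 hC
    have h4 : C * C ^ 7 = C ^ 8 := by ring
    linarith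

/-- comparison lemma -/
theorem h4_compare {a b c D M : ℝ} (hc : 0 < c) (hM0 : 0 < M) (hM : D < c * M ^ 2)
    {y y' : ℝ → ℝ} (hy : ContinuousOn y (Icc a b))
    (hd : ∀ t ∈ Icc a b, HasDerivWithinAt y (y' t) (Icc a b) t)
    (hle : ∀ t ∈ Icc a b, y' t ≤ -(c * y t ^ 2) + D) :
    ∀ t ∈ Ioc a b, y t ≤ M + (c * (t - a))⁻¹ ∧ y t ≤ max (y a) M := by
  have hdr : ∀ s t, a ≤ s → s ≤ t → t < b → HasDerivWithinAt y (y' t) (Ici t) t := by
    intro s t has hst htb
    have h := hd t ⟨has.trans hst, htb.le⟩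
    refine h.mono_of_mem_nhdsWithin ?_
    have : Icc t b ∈ 𝓝[Ici t] t := Icc_mem_nhdsGE htb
    exact mem_of_superset this (Icc_subset_Icc (has.trans hst) le_rfl)
  intro t ht
  constructor
  · -- bound of y
    obtain ⟨M0, hM0'⟩ : ∃ M0, ∀ x ∈ Icc a b, y x ≤ M0 := by
      obtain ⟨x, hx, hx'⟩ := isCompact_Icc.exists_isMaxOn ⟨t, ht.1.le, ht.2⟩ hy
      exact ⟨y x, fun z hz => hx' hz⟩
    -- starting point
    obtain ⟨s, hs1, hs2, hs3⟩ : ∃ s, a < s ∧ s ≤ t ∧ y s ≤ M + (c * (s - a))⁻¹ := by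
      refine ⟨a + min (t - a) ((c * (|M0| + 1))⁻¹), ?_, ?_, ?_⟩
      · have : 0 < min (t - a) ((c * (|M0| + 1))⁻¹) :=
          lt_min (by linarith [ht.1]) (by positivity)
        linarith
      · have := min_le_left (t - a) ((c * (|M0| + 1))⁻¹)
        linarith
      · set r := min (t - a) ((c * (|M0| + 1))⁻¹) with hr
        have hr0 : 0 < r := lt_min (by linarith [ht.1]) (by positivity)
        have hr1 : r ≤ (c * (|M0| + 1))⁻¹ := min_le_right _ _
        have hr2 : r ≤ t - a := min_le_left _ _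
        have e : c * (a + r - a) = c * r := by ring
        rw [e]
        have h1 : c * r ≤ (|M0| + 1)⁻¹ := by
          calc c * r ≤ c * (c * (|M0| + 1))⁻¹ := mul_le_mul_of_nonneg_left hr1 hc.le
            _ = (|M0| + 1)⁻¹ := by field_simp
        have h2 : |M0| + 1 ≤ (c * r)⁻¹ := by
          rw [le_inv_comm₀ (by positivity) (by positivity)]
          exact h1
        have h3 := hM0' (a + r) ⟨by linarith, by linarith [ht.2]⟩
        have h4 := le_abs_self M0
        linarith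
    have hcmp := image_le_of_deriv_right_lt_deriv_boundary' (f := y) (f' := y') (a := s) (b := b)
      (B := fun x => M + (c * (x - a))⁻¹) (B' := fun x => -(c / (c * (x - a)) ^ 2))
      (hy.mono (Icc_subset_Icc hs1.le le_rfl))
      (fun x hx => hdr s x hs1.le hx.1 hx.2) hs3
      (fun x hx => by
        have hx0 : c * (x - a) ≠ 0 := by
          have : 0 < x - a := by linarith [hx.1]
          positivity
        exact (continuousAt_const.add ((continuousAt_const.mul
          (continuousAt_id.sub continuousAt_const)).inv₀ hx0)).continuousWithinAt)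
      (fun x hx => by
        have hx0 : c * (x - a) ≠ 0 := by
          have : 0 < x - a := by linarith [hx.1]
          positivity
        have h1 : HasDerivAt (fun x : ℝ => c * (x - a)) c x := by
          simpa using ((hasDerivAt_id x).sub_const a).const_mul c
        have h2 := (h1.fun_inv hx0).const_add M
        have h3 : -c / (c * (x - a)) ^ 2 = -(c / (c * (x - a)) ^ 2) := by ring
        rw [h3] at h2
        exact h2.hasDerivWithinAt)
      (fun x hx hxe => by
        have hxa : 0 < x - a := by linarith [hx.1]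
        have h1 := hle x ⟨by linarith [hx.1], hx.2.le⟩
        rw [hxe] at h1
        set z := (c * (x - a))⁻¹ with hz
        have hz0 : 0 < z := by positivity
        have e : c / (c * (x - a)) ^ 2 = c * z ^ 2 := by
          rw [hz]
          field_simp
        show y' x < -(c / (c * (x - a)) ^ 2)
        rw [e]
        nlinarith [mul_pos (mul_pos hc hM0) hz0])
    exact hcmp ⟨hs2, ht.2⟩
  · have hcmp := image_le_of_deriv_right_lt_deriv_boundary' (f := y) (f' := y') (a := a) (b := b)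
      (B := fun _ => max (y a) M) (B' := fun _ => 0) hy
      (fun x hx => hdr a x le_rfl hx.1 hx.2) (le_max_left _ _)
      continuousOn_const
      (fun x _ => hasDerivWithinAt_const _ _ _)
      (fun x hx hxe => by
        have h1 := hle x ⟨hx.1, hx.2.le⟩
        have h2 : M ≤ y x := by
          rw [hxe]
          exact le_max_right _ _
        have h3 : M ^ 2 ≤ y x ^ 2 := pow_le_pow_left₀ hM0.le h2 2
        nlinarith)
    exact hcmp ⟨ht.1.le, ht.2⟩

/-- joint smoothness of components -/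
theorem h4_js_comp {n : ℕ} {I : Set ℝ} {u : ℝ → ℝ → V n} (h : JS I u) (i : Fin (n + 1)) :
    ContDiffOn ℝ ∞ (fun z : ℝ × ℝ => u z.1 z.2 i) (I ×ˢ univ) :=
  contDiffOn_pi.1 h i

theorem h4_iter_two {n : ℕ} (f : ℝ → V n) :
    iteratedDeriv 2 (iteratedDeriv 4 f) = iteratedDeriv 6 f := by
  rw [iteratedDeriv_succ (n := 1), iteratedDeriv_one, iteratedDeriv_succ (n := 5) (f := f),
    iteratedDeriv_succ (n := 4) (f := f)]

theorem h4_energy (hI : ItvBasic) (hS : JSSlice) (hT : JSDt) (hP : JSPer) (hB : PerIbp)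
    {n : ℕ} {σ K C0 : ℝ} (hK : 0 < K)
    (hC : ∀ (u : ℝ → V n) (p : ℝ),
      ContDiff ℝ ∞ u → Function.Periodic u (2 * Real.pi) → K⁻¹ ≤ p → p ≤ K →
      (∀ x, nsq (u x) ≤ K) → per (fun x => nsq (iteratedDeriv 2 u x)) ≤ K →
      per (fun x => nsq (iteratedDeriv 2
        (fun y => rhs σ p p⁻¹ u y + (2 : ℝ) • iteratedDeriv 4 u y) x)) ≤
        C0 * (1 + per (fun x => nsq (iteratedDeriv 6 u x))) ^ ((7 : ℝ) / 8))
    {a b : ℝ} (hab : a < b) {u : ℝ → ℝ → V n} {p : ℝ → ℝ} (hc : CSol σ (Icc a b) u p)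
    (hb : ∀ t ∈ Icc a b, K⁻¹ ≤ p t ∧ p t ≤ K ∧ (∀ x, nsq (u t x) ≤ K) ∧
      per (fun x => nsq (iteratedDeriv 2 (u t) x)) ≤ K) :
    ContinuousOn (fun t => per (fun x => nsq (iteratedDeriv 4 (u t) x))) (Icc a b) ∧
    ∃ y' : ℝ → ℝ, (∀ t ∈ Icc a b, HasDerivWithinAt
      (fun t => per (fun x => nsq (iteratedDeriv 4 (u t) x))) (y' t) (Icc a b) t) ∧
      ∀ t ∈ Icc a b, y' t ≤ -(2 / K * (per (fun x => nsq (iteratedDeriv 4 (u t) x))) ^ 2)
        + (1 + |C0| ^ 8) := by
  set I := Icc a b with hIdef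
  have hItv : Itv I := Or.inr ⟨a, b, hab, hIdef⟩
  have hJ : JS I u := hc.sol.smooth
  obtain ⟨hu, hJu⟩ := hS (n + 1) I u hItv hJ
  obtain ⟨ut, hJt, hut⟩ := hT (n + 1) I u hItv hJ
  obtain ⟨hut1, hJut⟩ := hS (n + 1) I ut hItv hJt
  have huniq := (hI I hItv).1
  -- the time derivative is the right hand side
  have hR : ∀ t ∈ I, ut t = fun x => rhs σ (p t) (p t)⁻¹ (u t) x := by
    intro t ht
    funext x
    have h1 := hut 0 t ht x
    simp only [iteratedDeriv_zero] at h1
    exact (huniq t ht).eq_deriv _ h1 (hc.sol.eqn t ht x)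
  have hper : ∀ t ∈ I, Function.Periodic (u t) (2 * Real.pi) := hc.sol.periodic
  have hperut : ∀ t ∈ I, Function.Periodic (ut t) (2 * Real.pi) := by
    intro t ht x
    have h1 := hut 0 t ht (x + 2 * Real.pi)
    have h2 := hut 0 t ht x
    simp only [iteratedDeriv_zero] at h1 h2
    have h3 : HasDerivWithinAt (fun s => u s x) (ut t (x + 2 * Real.pi)) I t :=
      h1.congr (fun s hs => (hper s hs x).symm) (hper t ht x).symm
    exact (huniq t ht).eq_deriv _ h3 h2
  -- the energy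
  set ft : ℝ → ℝ → ℝ := fun t x =>
    ∑ i, 2 * (iteratedDeriv 4 (u t) x i * iteratedDeriv 4 (ut t) x i) with hft
  have hJf : JS I (fun t x => nsq (iteratedDeriv 4 (u t) x)) := by
    unfold JS nsq
    exact ContDiffOn.sum (fun i _ => (h4_js_comp (hJu 4) i).pow 2)
  have hJft : JS I ft := by
    unfold JS
    rw [hft]
    exact ContDiffOn.sum (fun i _ => contDiffOn_const.mul
      ((h4_js_comp (hJu 4) i).mul (h4_js_comp (hJut 4) i)))
  have hder : ∀ t ∈ I, ∀ x, HasDerivWithinAt (fun s => nsq (iteratedDeriv 4 (u s) x))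
      (ft t x) I t := by
    intro t ht x
    have h1 := hut 4 t ht x
    have h2 : ∀ i, HasDerivWithinAt (fun s => iteratedDeriv 4 (u s) x i)
        (iteratedDeriv 4 (ut t) x i) I t := fun i => (hasDerivWithinAt_pi.1 h1) i
    unfold nsq
    rw [hft]
    refine HasDerivWithinAt.fun_sum (fun i _ => ?_)
    have h3 := (h2 i).fun_pow 2
    have e : ((2 : ℕ) : ℝ) * iteratedDeriv 4 (u t) x i ^ (2 - 1) * iteratedDeriv 4 (ut t) x i =
        2 * (iteratedDeriv 4 (u t) x i * iteratedDeriv 4 (ut t) x i) := by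
      norm_num
      ring
    rw [e] at h3
    exact h3
  obtain ⟨hcont, hD⟩ := hP I (fun t x => nsq (iteratedDeriv 4 (u t) x)) ft hItv hJf hJft hder
  refine ⟨hcont.continuousOn, fun t => per (ft t), hD, ?_⟩
  intro t ht
  obtain ⟨hp1, hp2, hb1, hb2⟩ := hb t ht
  have hu0 := hu t ht
  have hv0 := hut1 t ht
  set N : ℝ → V n := fun y => rhs σ (p t) (p t)⁻¹ (u t) y + (2 : ℝ) • iteratedDeriv 4 (u t) y
    with hN
  have hN' : N = ut t + (2 : ℝ) • iteratedDeriv 4 (u t) := by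
    funext y
    rw [hN, hR t ht]
    rfl
  have hNs : ContDiff ℝ ∞ N := by
    rw [hN']
    exact hv0.add (contDiff_const.smul (h4_contDiff hu0 4))
  have hN2 : ∀ x i, iteratedDeriv 2 (ut t) x i =
      iteratedDeriv 2 N x i - 2 * iteratedDeriv 6 (u t) x i := by
    intro x i
    have h1 : iteratedDeriv 2 N x = iteratedDeriv 2 (ut t) x +
        (2 : ℝ) • iteratedDeriv 6 (u t) x := by
      have hsm : ContDiff ℝ ∞ ((2 : ℝ) • iteratedDeriv 4 (u t)) :=
        (h4_contDiff hu0 4).const_smul (2 : ℝ)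
      rw [hN', iteratedDeriv_add ((contDiff_infty.1 hv0 2).contDiffAt)
        ((contDiff_infty.1 hsm 2).contDiffAt)]
      rw [iteratedDeriv_const_smul (n := 2)
        ((contDiff_infty.1 (h4_contDiff hu0 4) 2).contDiffAt), h4_iter_two]
    rw [h1]
    simp
  set y := per (fun x => nsq (iteratedDeriv 4 (u t) x)) with hy
  set Y := per (fun x => nsq (iteratedDeriv 6 (u t) x)) with hY
  have hY0 : 0 ≤ Y := h4_per_nonneg (fun x => h4_nsq_nonneg _)
  have hint : y ^ 2 ≤ K * Y := h4_interp hB hu0 (hper t ht) hK hb2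
  have hNb := hC (u t) (p t) hu0 (hper t ht) hp1 hp2 hb1 hb2
  have e1 : per (ft t) = per (fun x => ∑ i, 2 * (iteratedDeriv 6 (u t) x i
      * iteratedDeriv 2 (ut t) x i)) := by
    have a1 : per (ft t) = 2 * per (fun x => ∑ i, iteratedDeriv 4 (u t) x i
        * iteratedDeriv 4 (ut t) x i) := by
      rw [← h4_per_const_mul]
      congr 1
      funext x
      rw [hft, Finset.mul_sum]
    have a2 : per (fun x => ∑ i, 2 * (iteratedDeriv 6 (u t) x i
        * iteratedDeriv 2 (ut t) x i)) = 2 * per (fun x => ∑ i, iteratedDeriv 6 (u t) x i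
        * iteratedDeriv 2 (ut t) x i) := by
      rw [← h4_per_const_mul]
      congr 1
      funext x
      rw [Finset.mul_sum]
    rw [a1, a2, h4_per_sum_mul hu0 hv0 4 4, h4_per_sum_mul hu0 hv0 6 2]
    congr 1
    exact Finset.sum_congr rfl
      (fun i _ => (h4_ibp2 hB hu0 hv0 (hper t ht) (hperut t ht) 4 2 i).symm)
  have e2 : per (ft t) ≤ per (fun x => (-3) * nsq (iteratedDeriv 6 (u t) x)
      + nsq (iteratedDeriv 2 N x)) := by
    rw [e1]
    refine h4_per_mono ?_ ?_ ?_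
    · exact continuous_finsetSum _ (fun i _ => continuous_const.mul
        ((h4_cont hu0 6 i).mul (h4_cont hv0 2 i)))
    · exact (continuous_const.mul (h4_nsq_cont hu0 6)).add (h4_nsq_cont hNs 2)
    · intro x
      unfold nsq
      rw [Finset.mul_sum, ← Finset.sum_add_distrib]
      refine Finset.sum_le_sum (fun i _ => ?_)
      rw [hN2 x i]
      nlinarith [sq_nonneg (iteratedDeriv 6 (u t) x i - iteratedDeriv 2 N x i)]
  have e3 : per (fun x => (-3) * nsq (iteratedDeriv 6 (u t) x)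
      + nsq (iteratedDeriv 2 N x)) = (-3) * Y + per (fun x => nsq (iteratedDeriv 2 N x)) := by
    rw [hY, ← h4_per_const_mul]
    exact h4_per_add (continuous_const.mul (h4_nsq_cont hu0 6)) (h4_nsq_cont hNs 2)
  have h1Y : (1 : ℝ) ≤ 1 + Y := by linarith
  have hpow : 0 ≤ (1 + Y) ^ ((7 : ℝ) / 8) := Real.rpow_nonneg (by linarith) _
  have hyoung := h4_young (abs_nonneg C0) h1Y
  have hCle : C0 * (1 + Y) ^ ((7 : ℝ) / 8) ≤ |C0| * (1 + Y) ^ ((7 : ℝ) / 8) :=
    mul_le_mul_of_nonneg_right (le_abs_self C0) hpow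
  have hYy : y ^ 2 / K ≤ Y := by
    rw [div_le_iff₀ hK]
    linarith
  have e4 : 2 / K * y ^ 2 = 2 * (y ^ 2 / K) := by ring
  rw [e4]
  show per (ft t) ≤ _
  linarith

theorem claimH4 (h : ClaimH4a) (hI : ItvBasic) (hS : JSSlice) (hT : JSDt) (hP : JSPer)
    (hB : PerIbp) : ClaimH4 := by
  intro n σ K hσ hK
  obtain ⟨C0, hC0⟩ := h n σ K hσ hK
  set D := 1 + |C0| ^ 8 with hDdef
  have hD1 : 1 ≤ D := by
    have : 0 ≤ |C0| ^ 8 := by positivity
    linarith
  set M := D * K + 1 with hM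
  have hM0 : 0 < M := by
    have : 0 < D * K := mul_pos (by linarith) hK
    linarith
  refine ⟨M + K / 2, ?_⟩
  intro a b u p hab hc hb
  obtain ⟨hcont, y', hd, hle⟩ := h4_energy hI hS hT hP hB hK hC0 hab hc hb
  have hc0 : 0 < 2 / K := by positivity
  have hMD : D < 2 / K * M ^ 2 := by
    have h1 : 2 / K * M ^ 2 = 2 * (M ^ 2 / K) := by ring
    rw [h1]
    have h2 : D ≤ M ^ 2 / K := by
      rw [le_div_iff₀ hK]
      have : 0 < D * K := mul_pos (by linarith) hK
      nlinarith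
    have h3 : 0 < M ^ 2 / K := by positivity
    linarith
  have hcmp := h4_compare hc0 hM0 hMD hcont hd hle
  intro t ht
  obtain ⟨h1, h2⟩ := hcmp t ht
  have hta : 0 < t - a := by linarith [ht.1]
  constructor
  · refine h1.trans ?_
    have e : (2 / K * (t - a))⁻¹ = K / 2 * (t - a)⁻¹ := by
      field_simp
    rw [e]
    have h3 : 0 ≤ M * (t - a)⁻¹ := by positivity
    have h4 : 0 ≤ K / 2 := by positivity
    nlinarith
  · refine h2.trans (max_le_max le_rfl ?_)
    have h4 : 0 ≤ K / 2 := by positivity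
    linarith

end Pool.Agent.Work.MP_4a14ce_an

end

section

/-!
# Product estimates, part A: derivatives and interpolation
-/

open Set MeasureTheory Topology Filter
open scoped ContDiff

set_option autoImplicit false

namespace Pool.Agent.Work.MP_4a14ce_an

variable {n : ℕ}

theorem H4a_nsq_nonneg (v : V n) : 0 ≤ nsq v := Finset.sum_nonneg fun _ _ => sq_nonneg _

theorem H4a_normsq_le (v : V n) : ‖v‖ ^ 2 ≤ nsq v := by
  have h : ‖v‖ ≤ Real.sqrt (nsq v) := by
    refine (pi_norm_le_iff_of_nonneg (Real.sqrt_nonneg _)).2 fun i => ?_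
    refine Real.le_sqrt_of_sq_le ?_
    rw [Real.norm_eq_abs, sq_abs]
    exact Finset.single_le_sum (f := fun i => v i ^ 2) (fun _ _ => sq_nonneg _) (Finset.mem_univ i)
  calc ‖v‖ ^ 2 ≤ Real.sqrt (nsq v) ^ 2 := pow_le_pow_left₀ (norm_nonneg _) h 2
    _ = nsq v := Real.sq_sqrt (H4a_nsq_nonneg v)

theorem H4a_nsq_le (v : V n) : nsq v ≤ (n + 1) * ‖v‖ ^ 2 := by
  unfold nsq
  calc ∑ i, v i ^ 2 ≤ ∑ _i : Fin (n + 1), ‖v‖ ^ 2 := by
        refine Finset.sum_le_sum fun i _ => ?_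
        rw [← sq_abs]
        exact pow_le_pow_left₀ (abs_nonneg _) (norm_le_pi_norm v i) 2
    _ = (n + 1) * ‖v‖ ^ 2 := by simp

theorem H4a_B_le {σ : ℝ} (hσ : Sgn σ) (x y : V n) : |B σ x y| ≤ (n + 1) * (‖x‖ * ‖y‖) := by
  have h1 : ∀ i, |x i * y i| ≤ ‖x‖ * ‖y‖ := fun i => by
    rw [abs_mul]
    exact mul_le_mul (norm_le_pi_norm x i) (norm_le_pi_norm y i) (abs_nonneg _) (norm_nonneg _)
  have h0 : |σ| = 1 := by rcases hσ with h | h <;> simp [h]
  unfold B
  calc |σ * (x 0 * y 0) + ∑ i : Fin n, x i.succ * y i.succ|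
      ≤ |σ * (x 0 * y 0)| + |∑ i : Fin n, x i.succ * y i.succ| := abs_add_le _ _
    _ ≤ ‖x‖ * ‖y‖ + ∑ i : Fin n, ‖x‖ * ‖y‖ := by
        refine add_le_add ?_ ?_
        · rw [abs_mul, h0, one_mul]; exact h1 0
        · exact (Finset.abs_sum_le_sum_abs _ _).trans (Finset.sum_le_sum fun i _ => h1 _)
    _ = (n + 1) * (‖x‖ * ‖y‖) := by simp; ring

theorem H4a_der {u : ℝ → V n} (hu : ContDiff ℝ ∞ u) (j : ℕ) (x : ℝ) :
    HasDerivAt (iteratedDeriv j u) (iteratedDeriv (j + 1) u x) x := by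
  rw [iteratedDeriv_succ]
  have h : Differentiable ℝ (iteratedDeriv j u) :=
    hu.differentiable_iteratedDeriv j (by exact_mod_cast WithTop.coe_lt_top _)
  exact (h x).hasDerivAt

theorem H4a_smooth {u : ℝ → V n} (hu : ContDiff ℝ ∞ u) (j : ℕ) : ContDiff ℝ ∞ (iteratedDeriv j u) := by
  induction j with
  | zero => simpa [iteratedDeriv_zero] using hu
  | succ j ih =>
    rw [iteratedDeriv_succ]
    exact (contDiff_infty_iff_deriv.1 ih).2

theorem H4a_per {u : ℝ → V n} (hp : Function.Periodic u (2 * Real.pi)) (j : ℕ) :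
    Function.Periodic (iteratedDeriv j u) (2 * Real.pi) := by
  induction j with
  | zero => simpa [iteratedDeriv_zero] using hp
  | succ j ih =>
    rw [iteratedDeriv_succ]
    intro x
    have := deriv_comp_add_const (iteratedDeriv j u) (2 * Real.pi) x
    rw [← this]
    congr 1
    funext y
    exact ih y

/-- components -/
theorem H4a_comp_der {u : ℝ → V n} (hu : ContDiff ℝ ∞ u) (j : ℕ) (i : Fin (n + 1)) :
    deriv (fun x => iteratedDeriv j u x i) = fun x => iteratedDeriv (j + 1) u x i := by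
  funext x
  exact ((hasDerivAt_pi.1 (H4a_der hu j x)) i).deriv

theorem H4a_comp_der2 {u : ℝ → V n} (hu : ContDiff ℝ ∞ u) (j : ℕ) (i : Fin (n + 1)) :
    iteratedDeriv 2 (fun x => iteratedDeriv j u x i) = fun x => iteratedDeriv (j + 2) u x i := by
  rw [iteratedDeriv_succ, iteratedDeriv_one, H4a_comp_der hu, H4a_comp_der hu]

theorem H4a_comp_smooth {u : ℝ → V n} (hu : ContDiff ℝ ∞ u) (j : ℕ) (i : Fin (n + 1)) :
    ContDiff ℝ ∞ (fun x => iteratedDeriv j u x i) :=
  (contDiff_pi.1 (H4a_smooth hu j)) i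

/-- square of the `L²` norm of the `j`-th derivative -/
noncomputable def H4a_a (u : ℝ → V n) (j : ℕ) : ℝ := per (fun x => nsq (iteratedDeriv j u x))

theorem H4a_a_sum {u : ℝ → V n} (hu : ContDiff ℝ ∞ u) (j : ℕ) :
    H4a_a u j = ∑ i, per (fun x => (iteratedDeriv j u x i) ^ 2) := by
  unfold H4a_a per nsq
  rw [intervalIntegral.integral_finsetSum]
  intro i _
  exact ((H4a_comp_smooth hu j i).continuous.pow 2).intervalIntegrable _ _

theorem H4a_per_nonneg {f : ℝ → ℝ} (hf : ∀ x, 0 ≤ f x) : 0 ≤ per f :=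
  intervalIntegral.integral_nonneg (by positivity) fun x _ => hf x

theorem H4a_a_nonneg (u : ℝ → V n) (j : ℕ) : 0 ≤ H4a_a u j :=
  H4a_per_nonneg fun _ => H4a_nsq_nonneg _

theorem H4a_interp (hI : PerInterp) {u : ℝ → V n} (hu : ContDiff ℝ ∞ u)
    (hp : Function.Periodic u (2 * Real.pi)) (j : ℕ) :
    H4a_a u (j + 1) ^ 2 ≤ H4a_a u j * H4a_a u (j + 2) := by
  rw [H4a_a_sum hu, H4a_a_sum hu, H4a_a_sum hu]
  refine Finset.sum_sq_le_sum_mul_sum_of_sq_le_mul _ (fun i _ => H4a_per_nonneg fun x => sq_nonneg _)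
    (fun i _ => H4a_per_nonneg fun x => sq_nonneg _) fun i _ => ?_
  have h := hI (fun x => iteratedDeriv j u x i) (by exact_mod_cast (contDiff_infty.1 (H4a_comp_smooth hu j i)) 2) (fun x => by
      show iteratedDeriv j u (x + 2 * Real.pi) i = _
      rw [H4a_per hp j x])
  rw [H4a_comp_der hu, H4a_comp_der2 hu] at h
  exact h

theorem H4a_agmon (hA : Agmon) {u : ℝ → V n} (hu : ContDiff ℝ ∞ u)
    (hp : Function.Periodic u (2 * Real.pi)) (j : ℕ) (x : ℝ) :
    nsq (iteratedDeriv (j + 1) u x) ^ 2 ≤ 4 * (H4a_a u (j + 1) * H4a_a u (j + 2)) := by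
  have h1 : nsq (iteratedDeriv (j + 1) u x) ^ 2 ≤
      (∑ i, 2 * per (fun x => (iteratedDeriv (j + 1) u x i) ^ 2)) *
        (∑ i, 2 * per (fun x => (iteratedDeriv (j + 2) u x i) ^ 2)) := by
    unfold nsq
    refine Finset.sum_sq_le_sum_mul_sum_of_sq_le_mul _
      (fun i _ => mul_nonneg (by norm_num) (H4a_per_nonneg fun x => sq_nonneg _))
      (fun i _ => mul_nonneg (by norm_num) (H4a_per_nonneg fun x => sq_nonneg _)) fun i _ => ?_
    have h := hA (fun x => iteratedDeriv j u x i) (by exact_mod_cast (contDiff_infty.1 (H4a_comp_smooth hu j i)) 2) (fun x => by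
        show iteratedDeriv j u (x + 2 * Real.pi) i = _
        rw [H4a_per hp j x]) x
    rw [H4a_comp_der hu, H4a_comp_der2 hu] at h
    calc ((iteratedDeriv (j + 1) u x i) ^ 2) ^ 2 = iteratedDeriv (j + 1) u x i ^ 4 := by ring
      _ ≤ _ := h
      _ = _ := by ring
  rw [← Finset.mul_sum, ← Finset.mul_sum, ← H4a_a_sum hu, ← H4a_a_sum hu] at h1
  linarith

/-- the interpolated bounds -/
theorem H4a_bounds (hI : PerInterp) (hA : Agmon) {u : ℝ → V n} (hu : ContDiff ℝ ∞ u)
    (hp : Function.Periodic u (2 * Real.pi)) {K y : ℝ} (hK : 1 ≤ K) (hy : 1 ≤ y)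
    (h0 : ∀ x, nsq (u x) ≤ K) (h2 : H4a_a u 2 ≤ K) (h6 : H4a_a u 6 ≤ y ^ 16) :
    H4a_a u 3 ≤ K * y ^ 4 ∧ H4a_a u 4 ≤ K * y ^ 8 ∧ H4a_a u 5 ≤ K * y ^ 12 ∧
    ∀ x, ‖u x‖ ≤ 2 * K ∧ ‖iteratedDeriv 1 u x‖ ≤ 2 * K ∧ ‖iteratedDeriv 2 u x‖ ≤ 2 * K * y ∧
      ‖iteratedDeriv 3 u x‖ ≤ 2 * K * y ^ 3 := by
  have hy0 : 0 < y := lt_of_lt_of_le one_pos hy
  have hK0 : 0 < K := lt_of_lt_of_le one_pos hK
  have n0 := H4a_a_nonneg u 0
  have n1 := H4a_a_nonneg u 1
  have n2 := H4a_a_nonneg u 2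
  have n3 := H4a_a_nonneg u 3
  have n4 := H4a_a_nonneg u 4
  have n5 := H4a_a_nonneg u 5
  have n6 := H4a_a_nonneg u 6
  have i1 := H4a_interp hI hu hp 0
  have i3 := H4a_interp hI hu hp 2
  have i4 := H4a_interp hI hu hp 3
  have i5 := H4a_interp hI hu hp 4
  simp only [Nat.reduceAdd, zero_add] at i1 i3 i4 i5
  -- a4 ^ 2 ≤ K y^16
  have a4sq : H4a_a u 4 ^ 2 ≤ K * y ^ 16 := by
    rcases n4.lt_or_eq with h | h
    · have h1 : (H4a_a u 4 ^ 2) ^ 2 ≤ (H4a_a u 3 * H4a_a u 5) ^ 2 :=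
        pow_le_pow_left₀ (sq_nonneg _) i4 2
      have h2' : (H4a_a u 3 * H4a_a u 5) ^ 2 ≤ (H4a_a u 2 * H4a_a u 4) * (H4a_a u 4 * H4a_a u 6) := by
        rw [mul_pow]
        exact mul_le_mul i3 i5 (sq_nonneg _) (mul_nonneg n2 n4)
      have h3 : H4a_a u 4 ^ 2 * H4a_a u 4 ^ 2 ≤ (H4a_a u 2 * H4a_a u 6) * H4a_a u 4 ^ 2 := by
        nlinarith
      have h4 : H4a_a u 4 ^ 2 ≤ H4a_a u 2 * H4a_a u 6 := le_of_mul_le_mul_right h3 (by positivity)
      exact h4.trans (mul_le_mul h2 h6 n6 hK0.le)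
    · have h9 : 0 ≤ K * y ^ 16 := by positivity
      rw [← h]; simpa using h9
  have a4 : H4a_a u 4 ≤ K * y ^ 8 := by
    refine abs_le_of_sq_le_sq' ?_ (by positivity) |>.2
    calc H4a_a u 4 ^ 2 ≤ K * y ^ 16 := a4sq
      _ ≤ K ^ 2 * y ^ 16 := by
          have : K ≤ K ^ 2 := by nlinarith
          exact mul_le_mul_of_nonneg_right this (by positivity)
      _ = (K * y ^ 8) ^ 2 := by ring
  have a3 : H4a_a u 3 ≤ K * y ^ 4 := by
    refine abs_le_of_sq_le_sq' ?_ (by positivity) |>.2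
    calc H4a_a u 3 ^ 2 ≤ H4a_a u 2 * H4a_a u 4 := i3
      _ ≤ K * (K * y ^ 8) := mul_le_mul h2 a4 n4 hK0.le
      _ = (K * y ^ 4) ^ 2 := by ring
  have a5 : H4a_a u 5 ≤ K * y ^ 12 := by
    refine abs_le_of_sq_le_sq' ?_ (by positivity) |>.2
    calc H4a_a u 5 ^ 2 ≤ H4a_a u 4 * H4a_a u 6 := i5
      _ ≤ (K * y ^ 8) * y ^ 16 := mul_le_mul a4 h6 n6 (by positivity)
      _ ≤ (K ^ 2 * y ^ 8) * y ^ 16 := by
          have : K ≤ K ^ 2 := by nlinarith
          gcongr
      _ = (K * y ^ 12) ^ 2 := by ring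
  have a0 : H4a_a u 0 ≤ 7 * K := by
    have h := intervalIntegral.integral_mono_on (a := 0) (b := 2 * Real.pi)
      (f := fun x => nsq (iteratedDeriv 0 u x)) (g := fun _ => K) (μ := volume) (by positivity)
      (by
        have : Continuous fun x => nsq (iteratedDeriv 0 u x) := by
          unfold nsq
          exact continuous_finsetSum _ fun i _ => (H4a_comp_smooth hu 0 i).continuous.pow 2
        exact this.intervalIntegrable _ _)
      (continuous_const.intervalIntegrable _ _) (fun x _ => by rw [iteratedDeriv_zero]; exact h0 x)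
    rw [intervalIntegral.integral_const, sub_zero, smul_eq_mul] at h
    have hpi := Real.pi_lt_d2
    have : H4a_a u 0 ≤ 2 * Real.pi * K := h
    nlinarith
  have a1 : H4a_a u 1 ≤ 3 * K := by
    refine abs_le_of_sq_le_sq' ?_ (by positivity) |>.2
    calc H4a_a u 1 ^ 2 ≤ H4a_a u 0 * H4a_a u 2 := i1
      _ ≤ (7 * K) * K := mul_le_mul a0 h2 n2 (by positivity)
      _ ≤ (3 * K) ^ 2 := by nlinarith
  refine ⟨a3, a4, a5, fun x => ?_⟩
  have hK2 : K ≤ K ^ 2 := by nlinarith
  have key : ∀ (v : V n) (c : ℝ), 0 ≤ c → nsq v ^ 2 ≤ 4 * (4 * K ^ 2) * (c ^ 2) ^ 2 →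
      ‖v‖ ≤ 2 * K * c := by
    intro v c hc h
    have h1 : nsq v ≤ 4 * K * c ^ 2 := by
      refine abs_le_of_sq_le_sq' ?_ (by positivity) |>.2
      calc nsq v ^ 2 ≤ 4 * (4 * K ^ 2) * (c ^ 2) ^ 2 := h
        _ = (4 * K * c ^ 2) ^ 2 := by ring
    refine abs_le_of_sq_le_sq' ?_ (by positivity) |>.2
    calc ‖v‖ ^ 2 ≤ nsq v := H4a_normsq_le v
      _ ≤ 4 * K * c ^ 2 := h1
      _ ≤ 4 * K ^ 2 * c ^ 2 := by gcongr
      _ = (2 * K * c) ^ 2 := by ring
  refine ⟨?_, ?_, ?_, ?_⟩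
  · refine abs_le_of_sq_le_sq' ?_ (by positivity) |>.2
    calc ‖u x‖ ^ 2 ≤ nsq (u x) := H4a_normsq_le _
      _ ≤ K := h0 x
      _ ≤ (2 * K) ^ 2 := by nlinarith
  · have h := H4a_agmon hA hu hp 0 x
    simp only [zero_add] at h
    have := key (iteratedDeriv 1 u x) 1 (by norm_num) (by
      calc nsq (iteratedDeriv 1 u x) ^ 2 ≤ 4 * (H4a_a u 1 * H4a_a u 2) := h
        _ ≤ 4 * ((3 * K) * K) := by gcongr
        _ ≤ 4 * (4 * K ^ 2) * (1 ^ 2) ^ 2 := by nlinarith)
    simpa using this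
  · have h := H4a_agmon hA hu hp 1 x
    simp only [Nat.reduceAdd] at h
    refine key _ _ hy0.le ?_
    calc nsq (iteratedDeriv 2 u x) ^ 2 ≤ 4 * (H4a_a u 2 * H4a_a u 3) := h
      _ ≤ 4 * (K * (K * y ^ 4)) := by gcongr
      _ = 4 * (K ^ 2) * (y ^ 2) ^ 2 := by ring
      _ ≤ 4 * (4 * K ^ 2) * (y ^ 2) ^ 2 := by gcongr; nlinarith
  · have h := H4a_agmon hA hu hp 2 x
    simp only [Nat.reduceAdd] at h
    refine key _ _ (by positivity) ?_
    calc nsq (iteratedDeriv 3 u x) ^ 2 ≤ 4 * (H4a_a u 3 * H4a_a u 4) := h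
      _ ≤ 4 * ((K * y ^ 4) * (K * y ^ 8)) := by gcongr
      _ = 4 * (K ^ 2) * ((y ^ 3) ^ 2) ^ 2 := by ring
      _ ≤ 4 * (4 * K ^ 2) * ((y ^ 3) ^ 2) ^ 2 := by gcongr; nlinarith

end Pool.Agent.Work.MP_4a14ce_an

end

section

/-!
# Interpolation between `L²` and high norms
-/

open Set MeasureTheory Topology Filter
open scoped ContDiff

namespace Pool.Agent.Work.MP_4a14ce_an

/-- A log-convex sequence of nonnegative numbers is bounded by its end values. -/
theorem interp_max (M : ℕ) (b : ℕ → ℝ) (hb : ∀ j, 0 ≤ b j)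
    (h : ∀ j < M, b (j + 1) ^ 2 ≤ b j * b (j + 2)) :
    ∀ j ≤ M, b j ≤ max (b 0) (b (M + 1)) := by
  have step : ∀ j < M, b j ≤ b (j + 1) → b (j + 1) ≤ b (j + 2) := by
    intro j hj hle
    rcases (hb (j + 1)).eq_or_lt with h0 | h0
    · rw [← h0]
      exact hb _
    · have h1 : b (j + 1) * b (j + 1) ≤ b (j + 1) * b (j + 2) := by
        calc b (j + 1) * b (j + 1) = b (j + 1) ^ 2 := by ring
          _ ≤ b j * b (j + 2) := h j hj
          _ ≤ b (j + 1) * b (j + 2) := mul_le_mul_of_nonneg_right hle (hb _)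
      exact le_of_mul_le_mul_left h1 h0
  have hQ : ∀ j ≤ M, b j ≤ b 0 ∨ b j ≤ b (j + 1) := by
    intro j
    induction j with
    | zero => exact fun _ => Or.inl le_rfl
    | succ j ih =>
      intro hj
      rcases le_total (b j) (b (j + 1)) with h1 | h1
      · exact Or.inr (step j (by omega) h1)
      · rcases ih (by omega) with h2 | h2
        · exact Or.inl (h1.trans h2)
        · exact Or.inr (step j (by omega) h2)
  have hmono : ∀ j k, j + k ≤ M → b j ≤ b (j + 1) → b j ≤ b (j + k + 1) ∧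
      b (j + k) ≤ b (j + k + 1) := by
    intro j k
    induction k with
    | zero => exact fun _ h1 => ⟨h1, h1⟩
    | succ k ih =>
      intro hk h1
      obtain ⟨h2, h3⟩ := ih (by omega) h1
      have h4 := step (j + k) (by omega) h3
      exact ⟨h2.trans h4, h4⟩
  intro j hj
  rcases hQ j hj with h1 | h1
  · exact h1.trans (le_max_left _ _)
  · have := (hmono j (M - j) (by omega) h1).1
    rw [show j + (M - j) + 1 = M + 1 by omega] at this
    exact this.trans (le_max_right _ _)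

/-- Smallness of all members of a log-convex sequence. -/
theorem interp_small (M : ℕ) (A η : ℝ) (hη : 0 < η) : ∃ ε > 0, ∀ a : ℕ → ℝ, (∀ j, 0 ≤ a j) →
    (∀ j < M, a (j + 1) ^ 2 ≤ a j * a (j + 2)) → a 0 ≤ ε → a (M + 1) ≤ A →
    ∀ j ≤ M, a j ≤ η := by
  obtain ⟨l, hl0, hl1, hlA⟩ : ∃ l : ℝ, 0 < l ∧ l ≤ 1 ∧ l * |A| ≤ η := by
    refine ⟨min 1 (η / (|A| + 1)), lt_min one_pos (by positivity), min_le_left _ _, ?_⟩
    have h1 : min 1 (η / (|A| + 1)) ≤ η / (|A| + 1) := min_le_right _ _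
    calc min 1 (η / (|A| + 1)) * |A| ≤ η / (|A| + 1) * |A| :=
          mul_le_mul_of_nonneg_right h1 (abs_nonneg _)
      _ ≤ η / (|A| + 1) * (|A| + 1) := by
          refine mul_le_mul_of_nonneg_left (by linarith) (by positivity)
      _ = η := by
          field_simp
  refine ⟨η * l ^ M, by positivity, fun a ha hc h0 h1 j hj => ?_⟩
  have hb := interp_max M (fun i => a i * l ^ i) (fun i => mul_nonneg (ha i) (by positivity))
    (fun i hi => by
      calc (a (i + 1) * l ^ (i + 1)) ^ 2 = a (i + 1) ^ 2 * (l ^ (i + 1)) ^ 2 := by ring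
        _ ≤ a i * a (i + 2) * (l ^ (i + 1)) ^ 2 :=
            mul_le_mul_of_nonneg_right (hc i hi) (by positivity)
        _ = a i * l ^ i * (a (i + 2) * l ^ (i + 2)) := by ring) j hj
  simp only [pow_zero, mul_one] at hb
  have hlj : 0 < l ^ j := by positivity
  have hl2 : l ^ M ≤ l ^ j := pow_le_pow_of_le_one hl0.le hl1 hj
  have hl3 : l ^ (M + 1) ≤ l * l ^ j := by
    rw [pow_succ']
    exact mul_le_mul_of_nonneg_left hl2 hl0.le
  rcases max_cases (a 0) (a (M + 1) * l ^ (M + 1)) with ⟨h2, _⟩ | ⟨h2, _⟩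
  · rw [h2] at hb
    have : a j * l ^ j ≤ η * l ^ j :=
      hb.trans (h0.trans (mul_le_mul_of_nonneg_left hl2 hη.le))
    exact le_of_mul_le_mul_right this hlj
  · rw [h2] at hb
    have h3 : a (M + 1) * l ^ (M + 1) ≤ η * l ^ j := by
      calc a (M + 1) * l ^ (M + 1) ≤ |A| * (l * l ^ j) :=
            mul_le_mul (h1.trans (le_abs_self A)) hl3 (by positivity) (abs_nonneg _)
        _ = l * |A| * l ^ j := by ring
        _ ≤ η * l ^ j := mul_le_mul_of_nonneg_right hlA hlj.le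
    exact le_of_mul_le_mul_right (hb.trans h3) hlj

theorem interp_comp_contDiff {n : ℕ} (f : ℝ → V n) (hf : ContDiff ℝ ∞ f) (i : Fin (n + 1)) :
    ContDiff ℝ ∞ (fun x => f x i) := by
  rw [contDiff_pi] at hf
  exact hf i

theorem interp_comp_deriv {n : ℕ} (f : ℝ → V n) (hf : ContDiff ℝ ∞ f) (i : Fin (n + 1)) (j : ℕ)
    (x : ℝ) : iteratedDeriv j (fun y => f y i) x = iteratedDeriv j f x i := by
  induction j generalizing x with
  | zero => simp
  | succ j ih =>
    rw [iteratedDeriv_succ, iteratedDeriv_succ]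
    have h1 : iteratedDeriv j (fun y => f y i) = fun y => iteratedDeriv j f y i := by
      funext y
      exact ih y
    rw [h1]
    have h2 : DifferentiableAt ℝ (iteratedDeriv j f) x :=
      (hf.differentiable_iteratedDeriv j (by exact_mod_cast WithTop.coe_lt_top _)).differentiableAt
    have h3 := h2.hasDerivAt
    rw [hasDerivAt_pi] at h3
    exact (h3 i).deriv

theorem interp_two_le : (2 : WithTop ℕ∞) ≤ ∞ := by
  have : ((2 : ℕ∞) : WithTop ℕ∞) ≤ ((⊤ : ℕ∞) : WithTop ℕ∞) := WithTop.coe_le_coe.2 le_top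
  exact this

theorem interp_one_le : (1 : WithTop ℕ∞) ≤ ∞ := by
  have : ((1 : ℕ∞) : WithTop ℕ∞) ≤ ((⊤ : ℕ∞) : WithTop ℕ∞) := WithTop.coe_le_coe.2 le_top
  exact this

theorem interp_periodic {g : ℝ → ℝ} (c : ℝ) (hg : Function.Periodic g c) (j : ℕ) :
    Function.Periodic (iteratedDeriv j g) c := by
  intro x
  have h : (fun y => g (y + c)) = g := by
    funext y
    exact hg y
  have := congrFun (iteratedDeriv_comp_add_const j g c) x
  rw [h] at this
  exact this.symm

theorem claimInterp (hI : PerInterp) (hS : SupLe) : ClaimInterp := by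
  intro n N K δ hδ
  have hη : 0 < δ / (4 * (n + 1)) := by positivity
  obtain ⟨ε, hε, H⟩ := interp_small (N + 1) (2 * Real.pi * |K|) (δ / (4 * (n + 1))) hη
  refine ⟨ε, hε, fun f hf hper hK h0 j hj x => ?_⟩
  have hcont : ∀ (i : Fin (n + 1)) (k : ℕ), Continuous (iteratedDeriv k (fun y => f y i)) :=
    fun i k => (interp_comp_contDiff f hf i).continuous_iteratedDeriv k
      (by exact_mod_cast le_top)
  have hnsq : ∀ k, Continuous fun y => nsq (iteratedDeriv k f y) := by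
    intro k
    unfold nsq
    refine continuous_finsetSum _ fun i _ => ?_
    have h1 : (fun y => iteratedDeriv k f y i ^ 2) = fun y =>
        (iteratedDeriv k (fun z => f z i) y) ^ 2 := by
      funext y
      rw [interp_comp_deriv f hf i k y]
    rw [h1]
    exact (hcont i k).pow 2
  have hpi : (0 : ℝ) ≤ 2 * Real.pi := by positivity
  have hle : ∀ (i : Fin (n + 1)) (k : ℕ),
      per (fun y => iteratedDeriv k (fun z => f z i) y ^ 2) ≤
        per (fun y => nsq (iteratedDeriv k f y)) := by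
    intro i k
    refine intervalIntegral.integral_mono hpi (((hcont i k).pow 2).intervalIntegrable _ _)
      ((hnsq k).intervalIntegrable _ _) fun y => ?_
    show iteratedDeriv k (fun z => f z i) y ^ 2 ≤ nsq (iteratedDeriv k f y)
    rw [interp_comp_deriv f hf i k y]
    exact Finset.single_le_sum (f := fun i => iteratedDeriv k f y i ^ 2)
      (fun _ _ => sq_nonneg _) (Finset.mem_univ i)
  have key : ∀ i : Fin (n + 1), iteratedDeriv j f x i ^ 2 ≤ δ / (n + 1) := by
    intro i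
    set g : ℝ → ℝ := fun z => f z i with hg
    have hgs : ContDiff ℝ ∞ g := interp_comp_contDiff f hf i
    have hgp : Function.Periodic g (2 * Real.pi) := fun y => by
      simp only [hg]
      rw [hper y]
    have hgd : ∀ k, ContDiff ℝ ∞ (iteratedDeriv k g) := fun k => by
      have := hgs.iterate_deriv k
      rwa [← iteratedDeriv_eq_iterate] at this
    have hsucc : ∀ k, deriv (iteratedDeriv k g) = iteratedDeriv (k + 1) g := fun k =>
      iteratedDeriv_succ.symm
    have hsucc2 : ∀ k, iteratedDeriv 2 (iteratedDeriv k g) = iteratedDeriv (k + 2) g := by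
      intro k
      rw [iteratedDeriv_succ, iteratedDeriv_one, hsucc, hsucc]
    have h1 := H (fun k => per (fun y => iteratedDeriv k g y ^ 2))
      (fun k => intervalIntegral.integral_nonneg hpi fun y _ => sq_nonneg _)
      (fun k _ => by
        have := hI (iteratedDeriv k g) ((hgd k).of_le interp_two_le)
          (interp_periodic _ hgp k)
        rw [hsucc, hsucc2] at this
        exact this) ?_ ?_
    · have h2 := h1 j (by omega)
      have h3 := h1 (j + 1) (by omega)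
      have h4 := hS (iteratedDeriv j g) ((hgd j).of_le interp_one_le)
        (interp_periodic _ hgp j) x
      rw [hsucc, hg, interp_comp_deriv f hf i j x] at h4
      have h5 : δ / (n + 1) = 4 * (δ / (4 * (n + 1))) := by
        field_simp
      rw [h5]
      rw [hg] at h2 h3
      have h2' : per (fun y => iteratedDeriv j (fun z => f z i) y ^ 2) ≤
        δ / (4 * (n + 1)) := h2
      have h3' : per (fun y => iteratedDeriv (j + 1) (fun z => f z i) y ^ 2) ≤
        δ / (4 * (n + 1)) := h3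
      linarith
    · have := hle i 0
      simp only [iteratedDeriv_zero] at this ⊢
      exact this.trans h0
    · refine (hle i (N + 1 + 1)).trans ?_
      have h6 : per (fun y => nsq (iteratedDeriv (N + 1 + 1) f y)) ≤ per (fun _ => |K|) :=
        intervalIntegral.integral_mono hpi ((hnsq _).intervalIntegrable _ _)
          (continuous_const.intervalIntegrable _ _) fun y => (hK y).trans (le_abs_self K)
      refine h6.trans (le_of_eq ?_)
      unfold per
      rw [intervalIntegral.integral_const]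
      simp
  calc nsq (iteratedDeriv j f x) ≤ ∑ _i : Fin (n + 1), δ / (n + 1) :=
        Finset.sum_le_sum fun i _ => key i
    _ = δ := by
        rw [Finset.sum_const, Finset.card_univ, Fintype.card_fin, nsmul_eq_mul]
        push_cast
        field_simp

end Pool.Agent.Work.MP_4a14ce_an

end

section

/-!
# Linear isometries of the model spaces
-/

open Set MeasureTheory Topology Filter
open scoped ContDiff

namespace Pool.Agent.Work.MP_4a14ce_an

theorem iso_B_comm (σ : ℝ) {n : ℕ} (x y : V n) : B σ x y = B σ y x := by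
  unfold B
  simp only [mul_comm]

theorem iso_B_add (σ : ℝ) {n : ℕ} (x y z : V n) : B σ (x + y) z = B σ x z + B σ y z := by
  unfold B
  simp only [Pi.add_apply, add_mul, Finset.sum_add_distrib, mul_add]
  ring

theorem iso_B_smul (σ : ℝ) {n : ℕ} (c : ℝ) (x y : V n) : B σ (c • x) y = c * B σ x y := by
  unfold B
  simp only [Pi.smul_apply, smul_eq_mul, mul_assoc, Finset.mul_sum, mul_add]
  rw [show c * (σ * (x 0 * y 0)) = σ * (c * (x 0 * y 0)) by ring]

theorem iso_B_sub (σ : ℝ) {n : ℕ} (x y z : V n) : B σ (x - y) z = B σ x z - B σ y z := by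
  have h : x - y = x + (-1 : ℝ) • y := by
    rw [neg_one_smul, sub_eq_add_neg]
  rw [h, iso_B_add, iso_B_smul]
  ring

theorem iso_B_e0 (σ : ℝ) {n : ℕ} (x : V n) : B σ x (e0 n) = σ * x 0 := by
  unfold B e0
  simp

theorem iso_e0_zero (n : ℕ) : e0 n 0 = 1 := by
  simp [e0]

theorem iso_B_e0_e0 (σ : ℝ) (n : ℕ) : B σ (e0 n) (e0 n) = σ := by
  rw [iso_B_e0, iso_e0_zero, mul_one]

theorem iso_B_eq (σ : ℝ) {n : ℕ} (x : V n) : B σ x x = nsq x + (σ - 1) * x 0 ^ 2 := by
  unfold B nsq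
  rw [Fin.sum_univ_succ]
  simp only [pow_two]
  ring

/-- Cauchy-Schwarz for `nsq`. -/
theorem iso_CS {n : ℕ} (x y : V n) : (∑ i, x i * y i) ^ 2 ≤ nsq x * nsq y :=
  Finset.sum_mul_sq_le_sq_mul_sq _ _ _

theorem iso_B_neg_eq {n : ℕ} (x y : V n) : B (-1) x y = (∑ i, x i * y i) - 2 * (x 0 * y 0) := by
  unfold B
  rw [Fin.sum_univ_succ]
  ring

/-- Non-degeneracy. -/
theorem iso_nondeg {σ : ℝ} (hσ : Sgn σ) {n : ℕ} (x : V n) (h : ∀ y, B σ x y = 0) : x = 0 := by
  have hs : σ ≠ 0 := by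
    rcases hσ with rfl | rfl <;> norm_num
  funext i
  refine Fin.cases ?_ (fun j => ?_) i
  · have := h (e0 n)
    rw [iso_B_e0] at this
    rcases mul_eq_zero.1 this with h | h
    · exact absurd h hs
    · simpa using h
  · have := h (Pi.single j.succ 1)
    unfold B at this
    simpa [Pi.single_apply] using this

/-- Time-like vectors of the same sheet have `B ≤ -1 < 0`. -/
theorem iso_sheet {n : ℕ} {p q : V n} (hp : p ∈ space (-1) n) (hq : q ∈ space (-1) n) :
    B (-1) p q < 0 := by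
  obtain ⟨hp1, hp2⟩ := hp
  obtain ⟨hq1, hq2⟩ := hq
  have hp0 := hp2 (by norm_num)
  have hq0 := hq2 (by norm_num)
  have hCS : (∑ i : Fin n, p i.succ * q i.succ) ^ 2 ≤
      (∑ i : Fin n, p i.succ ^ 2) * ∑ i : Fin n, q i.succ ^ 2 :=
    Finset.sum_mul_sq_le_sq_mul_sq _ _ _
  have e1 : (∑ i : Fin n, p i.succ ^ 2) = p 0 ^ 2 - 1 := by
    have : B (-1) p p = (∑ i : Fin n, p i.succ ^ 2) - p 0 ^ 2 := by
      unfold B
      simp only [pow_two]
      ring
    linarith
  have e2 : (∑ i : Fin n, q i.succ ^ 2) = q 0 ^ 2 - 1 := by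
    have : B (-1) q q = (∑ i : Fin n, q i.succ ^ 2) - q 0 ^ 2 := by
      unfold B
      simp only [pow_two]
      ring
    linarith
  have e3 : B (-1) p q = (∑ i : Fin n, p i.succ * q i.succ) - p 0 * q 0 := by
    unfold B
    ring
  have hP : (0 : ℝ) ≤ ∑ i : Fin n, p i.succ ^ 2 := Finset.sum_nonneg fun i _ => sq_nonneg _
  have hQ : (0 : ℝ) ≤ ∑ i : Fin n, q i.succ ^ 2 := Finset.sum_nonneg fun i _ => sq_nonneg _
  rw [e1, e2] at hCS
  rw [e1] at hP
  rw [e2] at hQ
  rw [e3]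
  have h1 : (∑ i : Fin n, p i.succ * q i.succ) ^ 2 < (p 0 * q 0) ^ 2 := by
    nlinarith
  have h2 := abs_lt_of_sq_lt_sq h1 (mul_nonneg hp0.le hq0.le)
  have h3 := (abs_lt.1 h2).2
  linarith

/-- An isometry of the form that maps one point of the space into the space is an isometry of
the space. -/
theorem iso_of_form {σ : ℝ} (hσ : Sgn σ) {n : ℕ} (g : V n →ₗ[ℝ] V n)
    (hg : ∀ x y, B σ (g x) (g y) = B σ x y) (q : V n) (hq : q ∈ space σ n)
    (hgq : g q ∈ space σ n) : IsIso σ g := by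
  refine ⟨hg, fun x hx => ⟨by rw [hg]; exact hx.1, fun hneg => ?_⟩⟩
  rcases hσ with rfl | rfl
  · exact absurd hneg (by norm_num)
  · have h1 : B (-1) (g x) (g x) = -1 := by
      rw [hg]
      exact hx.1
    have h2 : B (-1) (g x) (g q) < 0 := by
      rw [hg]
      exact iso_sheet hx hq
    by_contra hcon
    have hS : (0 : ℝ) ≤ ∑ i : Fin n, g x i.succ ^ 2 := Finset.sum_nonneg fun i _ => sq_nonneg _
    have h3 : B (-1) (g x) (g x) = (∑ i : Fin n, g x i.succ ^ 2) - g x 0 ^ 2 := by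
      unfold B
      simp only [pow_two]
      ring
    have h4 : g x 0 ≠ 0 := by
      intro h0
      rw [h0] at h3
      nlinarith
    have h5 : g x 0 < 0 := lt_of_le_of_ne (not_lt.1 hcon) h4
    have h6 : (-1 : ℝ) • g x ∈ space (-1) n := by
      refine ⟨?_, fun _ => ?_⟩
      · rw [iso_B_smul, iso_B_comm, iso_B_smul, h1]
        norm_num
      · simp only [Pi.smul_apply, smul_eq_mul]
        linarith
    have h7 := iso_sheet h6 hgq
    rw [iso_B_smul] at h7
    linarith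

/-- The reflection in the hyperplane orthogonal to `w`. -/
noncomputable def isoRefl (σ : ℝ) {n : ℕ} (w : V n) : V n →ₗ[ℝ] V n where
  toFun x := x - (2 * B σ x w / B σ w w) • w
  map_add' x y := by
    rw [iso_B_add]
    have : 2 * (B σ x w + B σ y w) / B σ w w = 2 * B σ x w / B σ w w + 2 * B σ y w / B σ w w := by
      ring
    rw [this, add_smul]
    abel
  map_smul' c x := by
    rw [iso_B_smul]
    have : 2 * (c * B σ x w) / B σ w w = c * (2 * B σ x w / B σ w w) := by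
      ring
    rw [this, mul_smul, RingHom.id_apply, smul_sub]

theorem isoRefl_apply (σ : ℝ) {n : ℕ} (w x : V n) :
    isoRefl σ w x = x - (2 * B σ x w / B σ w w) • w := rfl

theorem isoRefl_form (σ : ℝ) {n : ℕ} (w : V n) (hw : B σ w w ≠ 0) (x y : V n) :
    B σ (isoRefl σ w x) (isoRefl σ w y) = B σ x y := by
  rw [isoRefl_apply, isoRefl_apply, iso_B_sub, iso_B_smul,
    iso_B_comm σ x (y - (2 * B σ y w / B σ w w) • w),
    iso_B_comm σ w (y - (2 * B σ y w / B σ w w) • w),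
    iso_B_sub, iso_B_sub, iso_B_smul, iso_B_smul, iso_B_comm σ w x, iso_B_comm σ y x]
  field_simp
  ring

theorem iso_eq_e0 {σ : ℝ} {n : ℕ} (q : V n) (hq : q ∈ space σ n) (h : q 0 = 1) :
    q = e0 n := by
  have h1 : B σ q q = σ := hq.1
  have h2 : B σ q q = σ * (q 0 * q 0) + ∑ i : Fin n, q i.succ ^ 2 := by
    unfold B
    simp only [pow_two]
  have h3 : ∑ i : Fin n, q i.succ ^ 2 = 0 := by
    rw [h] at h2
    linarith
  have h4 := (Finset.sum_eq_zero_iff_of_nonneg (fun i _ => sq_nonneg (q (Fin.succ i)))).1 h3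
  funext i
  refine Fin.cases ?_ (fun j => ?_) i
  · rw [h, iso_e0_zero]
  · have := h4 j (Finset.mem_univ j)
    rw [pow_eq_zero_iff (by norm_num)] at this
    rw [this]
    simp [e0]

theorem iso_e0_mem {σ : ℝ} (n : ℕ) : e0 n ∈ space σ n :=
  ⟨iso_B_e0_e0 σ n, fun _ => by rw [iso_e0_zero]; exact one_pos⟩

/-- Transitivity. -/
theorem iso_trans {σ : ℝ} (hσ : Sgn σ) {n : ℕ} (q : V n) (hq : q ∈ space σ n) :
    ∃ g : V n →ₗ[ℝ] V n, IsIso σ g ∧ g q = e0 n := by
  by_cases h : q 0 = 1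
  · refine ⟨LinearMap.id, ⟨fun _ _ => rfl, fun _ hx => hx⟩, ?_⟩
    rw [LinearMap.id_apply]
    exact iso_eq_e0 q hq h
  · have hs : σ ≠ 0 := by
      rcases hσ with rfl | rfl <;> norm_num
    have h1 : B σ (q - e0 n) (q - e0 n) = 2 * (σ * (1 - q 0)) := by
      rw [iso_B_sub, iso_B_comm σ q, iso_B_comm σ (e0 n) (q - e0 n), iso_B_sub, iso_B_sub,
        iso_B_e0_e0, iso_B_e0, hq.1, iso_B_comm σ (e0 n) q, iso_B_e0]
      ring
    have h2 : B σ q (q - e0 n) = σ * (1 - q 0) := by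
      rw [iso_B_comm, iso_B_sub, hq.1, iso_B_comm σ (e0 n) q, iso_B_e0]
      ring
    have h3 : σ * (1 - q 0) ≠ 0 := mul_ne_zero hs (sub_ne_zero.2 (Ne.symm h))
    have h4 : isoRefl σ (q - e0 n) q = e0 n := by
      rw [isoRefl_apply, h2, h1, div_self (mul_ne_zero two_ne_zero h3), one_smul]
      abel
    refine ⟨isoRefl σ (q - e0 n), iso_of_form hσ _ (isoRefl_form σ _ ?_) q hq ?_, h4⟩
    · rw [h1]
      exact mul_ne_zero two_ne_zero h3
    · rw [h4]
      exact iso_e0_mem n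

/-- Inverses. -/
theorem iso_inv {σ : ℝ} (hσ : Sgn σ) {n : ℕ} (g : V n →ₗ[ℝ] V n) (hg : IsIso σ g) :
    ∃ h : V n →ₗ[ℝ] V n, IsIso σ h ∧ (∀ x, h (g x) = x) ∧ (∀ x, g (h x) = x) := by
  have hinj : Function.Injective g := by
    rw [injective_iff_map_eq_zero]
    intro x hx
    refine iso_nondeg hσ x fun y => ?_
    rw [← hg.form x y, hx]
    have := iso_B_smul σ 0 (0 : V n) (g y)
    simpa using this
  let e := LinearEquiv.ofInjectiveEndo g hinj
  have he : ∀ x, e x = g x := fun x => rfl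
  have h1 : ∀ x, e.symm (g x) = x := fun x => by
    rw [← he]
    exact e.symm_apply_apply x
  have h2 : ∀ x, g (e.symm x) = x := fun x => by
    rw [← he]
    exact e.apply_symm_apply x
  refine ⟨e.symm.toLinearMap, iso_of_form hσ _ (fun x y => ?_) (g (e0 n))
    (hg.mem _ (iso_e0_mem n)) ?_, h1, h2⟩
  · have := hg.form (e.symm x) (e.symm y)
    rw [h2, h2] at this
    exact this.symm
  · show e.symm (g (e0 n)) ∈ space σ n
    rw [h1]
    exact iso_e0_mem n

theorem iso_B_one {n : ℕ} (x : V n) : B 1 x x = nsq x := by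
  rw [iso_B_eq]
  ring

/-- `B` is bounded by the Euclidean norms. -/
theorem iso_B_sq_le {n : ℕ} (x y : V n) : B (-1) x y ^ 2 ≤ nsq x * nsq y := by
  have h : ∀ z : V n, nsq z = ∑ i, (if i = 0 then - z i else z i) ^ 2 := by
    intro z
    unfold nsq
    refine Finset.sum_congr rfl fun i _ => ?_
    split_ifs <;> ring
  have h2 : B (-1) x y = ∑ i, x i * (if i = 0 then - y i else y i) := by
    unfold B
    rw [Fin.sum_univ_succ]
    simp
  rw [h2, h y]
  exact Finset.sum_mul_sq_le_sq_mul_sq _ _ _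

theorem iso_inv_e0 {n : ℕ} (g h : V n →ₗ[ℝ] V n) (hg : IsIso (-1) g)
    (hh : IsIso (-1) h) (h1 : ∀ x, g (h x) = x) : nsq (h (e0 n)) = nsq (g (e0 n)) := by
  have e1 := iso_B_eq (-1) (h (e0 n))
  have e2 := iso_B_eq (-1) (g (e0 n))
  rw [hh.form] at e1
  rw [hg.form] at e2
  have e3 : B (-1) (h (e0 n)) (e0 n) = B (-1) (e0 n) (g (e0 n)) := by
    rw [← hg.form, h1]
  rw [iso_B_e0, iso_B_comm (-1) (e0 n), iso_B_e0] at e3
  have e4 : h (e0 n) 0 = g (e0 n) 0 := by linarith
  rw [e4] at e1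
  linarith

theorem iso_bound {n : ℕ} (g h : V n →ₗ[ℝ] V n) (hg : IsIso (-1) g) (K : ℝ)
    (h1 : ∀ x, g (h x) = x) (hK : nsq (h (e0 n)) ≤ K) (x : V n) :
    nsq (g x) ≤ (1 + 2 * |K|) * nsq x := by
  have e1 := iso_B_eq (-1) (g x)
  have e2 := iso_B_eq (-1) x
  rw [hg.form] at e1
  have e3 : B (-1) x (h (e0 n)) = B (-1) (g x) (e0 n) := by
    rw [← hg.form, h1]
  rw [iso_B_e0] at e3
  have e4 := iso_B_sq_le x (h (e0 n))
  rw [e3] at e4
  have e5 : 0 ≤ nsq x := Finset.sum_nonneg fun i _ => sq_nonneg _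
  have e6 : nsq x * nsq (h (e0 n)) ≤ nsq x * |K| :=
    mul_le_mul_of_nonneg_left (hK.trans (le_abs_self K)) e5
  have e7 := sq_nonneg (x 0)
  nlinarith

theorem claimIso : ClaimIso := by
  intro n σ K hσ
  refine ⟨fun q hq => iso_trans hσ q hq, fun g hg => iso_inv hσ g hg, ?_, ?_⟩
  · rcases hσ with rfl | rfl
    · refine ⟨1, one_pos, fun g hg _ x => ?_⟩
      rw [← iso_B_one, hg.form, iso_B_one, one_mul]
    · refine ⟨1 + 2 * |K|, by positivity, fun g hg hK x => ?_⟩
      obtain ⟨h, hh, h1, h2⟩ := iso_inv (Or.inr rfl) g hg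
      refine iso_bound g h hg K h2 ?_ x
      rw [iso_inv_e0 g h hg hh h2]
      exact hK
  · rcases hσ with rfl | rfl
    · refine ⟨1, one_pos, fun g hg q _ _ x => ?_⟩
      rw [← iso_B_one, hg.form, iso_B_one, one_mul]
    · refine ⟨1 + 2 * |K|, by positivity, fun g hg q hK hq x => ?_⟩
      obtain ⟨h, hh, h1, h2⟩ := iso_inv (Or.inr rfl) g hg
      refine iso_bound g h hg K h2 ?_ x
      rw [← hq, h1]
      exact hK

end Pool.Agent.Work.MP_4a14ce_an

end

section

/-!
# MP_4a14ce_an: jointly smooth functions, slices and time derivatives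
-/

open Set MeasureTheory Topology Filter
open scoped ContDiff

namespace Pool.Agent.Work.MP_4a14ce_an

section JS1

variable {E : Type*} [NormedAddCommGroup E] [NormedSpace ℝ E]

theorem itvBasic : ItvBasic := by
  intro I hI
  rcases hI with ⟨a, rfl⟩ | ⟨a, b, hab, rfl⟩
  · exact ⟨uniqueDiffOn_Ici a, convex_Ici a, isClosed_Ici⟩
  · exact ⟨uniqueDiffOn_Icc hab, convex_Icc a b, isClosed_Icc⟩

theorem js1_closure (I : Set ℝ) (hI : Itv I) : I ⊆ closure (interior I) := by
  rcases hI with ⟨a, rfl⟩ | ⟨a, b, hab, rfl⟩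
  · rw [interior_Ici, closure_Ioi]
  · rw [interior_Icc, closure_Ioo hab.ne]

theorem js1_ud (I : Set ℝ) (hI : Itv I) : UniqueDiffOn ℝ (I ×ˢ (univ : Set ℝ)) :=
  (itvBasic I hI).1.prod uniqueDiffOn_univ

/-- the `x`-derivative as a component of the Frechet derivative -/
noncomputable def js1_dx (I : Set ℝ) (u : ℝ → ℝ → E) (t x : ℝ) : E :=
  fderivWithin ℝ (fun z : ℝ × ℝ => u z.1 z.2) (I ×ˢ univ) (t, x) (0, 1)

/-- the `t`-derivative as a component of the Frechet derivative -/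
noncomputable def js1_dt (I : Set ℝ) (u : ℝ → ℝ → E) (t x : ℝ) : E :=
  fderivWithin ℝ (fun z : ℝ × ℝ => u z.1 z.2) (I ×ˢ univ) (t, x) (1, 0)

theorem js1_congr (I : Set ℝ) (u v : ℝ → ℝ → E) (hu : JS I u)
    (h : ∀ t ∈ I, ∀ x, v t x = u t x) : JS I v :=
  ContDiffOn.congr hu (fun z hz => h z.1 hz.1 z.2)

theorem js1_dx_js (I : Set ℝ) (hI : Itv I) (u : ℝ → ℝ → E) (hu : JS I u) :
    JS I (js1_dx I u) := by
  have h1 : ContDiffOn ℝ ∞ (fderivWithin ℝ (fun z : ℝ × ℝ => u z.1 z.2) (I ×ˢ univ))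
      (I ×ˢ univ) := ContDiffOn.fderivWithin hu (js1_ud I hI) (by simp)
  exact h1.clm_apply contDiffOn_const

theorem js1_dt_js (I : Set ℝ) (hI : Itv I) (u : ℝ → ℝ → E) (hu : JS I u) :
    JS I (js1_dt I u) := by
  have h1 : ContDiffOn ℝ ∞ (fderivWithin ℝ (fun z : ℝ × ℝ => u z.1 z.2) (I ×ˢ univ))
      (I ×ˢ univ) := ContDiffOn.fderivWithin hu (js1_ud I hI) (by simp)
  exact h1.clm_apply contDiffOn_const

theorem js1_hasFDeriv (I : Set ℝ) (u : ℝ → ℝ → E) (hu : JS I u) (t x : ℝ) (ht : t ∈ I) :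
    HasFDerivWithinAt (fun z : ℝ × ℝ => u z.1 z.2)
      (fderivWithin ℝ (fun z : ℝ × ℝ => u z.1 z.2) (I ×ˢ univ) (t, x)) (I ×ˢ univ) (t, x) :=
  (hu.differentiableOn (by simp) (t, x) ⟨ht, mem_univ _⟩).hasFDerivWithinAt

theorem js1_hasDerivAt (I : Set ℝ) (u : ℝ → ℝ → E) (hu : JS I u) (t x : ℝ) (ht : t ∈ I) :
    HasDerivAt (u t) (js1_dx I u t x) x := by
  have h1 : HasDerivWithinAt (fun y : ℝ => ((t, y) : ℝ × ℝ)) (0, 1) univ x :=
    ((hasDerivAt_const x t).prodMk (hasDerivAt_id x)).hasDerivWithinAt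
  have h2 := HasFDerivWithinAt.comp_hasDerivWithinAt (f := fun y : ℝ => ((t, y) : ℝ × ℝ)) x
    (js1_hasFDeriv I u hu t x ht) h1 (fun y _ => ⟨ht, mem_univ _⟩)
  exact h2.hasDerivAt univ_mem

theorem js1_hasDerivWithinAt (I : Set ℝ) (u : ℝ → ℝ → E) (hu : JS I u) (t x : ℝ) (ht : t ∈ I) :
    HasDerivWithinAt (fun s => u s x) (js1_dt I u t x) I t := by
  have h1 : HasDerivWithinAt (fun y : ℝ => ((y, x) : ℝ × ℝ)) (1, 0) I t :=
    ((hasDerivAt_id t).prodMk (hasDerivAt_const t x)).hasDerivWithinAt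
  exact HasFDerivWithinAt.comp_hasDerivWithinAt (f := fun y : ℝ => ((y, x) : ℝ × ℝ)) t
    (js1_hasFDeriv I u hu t x ht) h1 (fun y hy => ⟨hy, mem_univ _⟩)

theorem js1_slice (I : Set ℝ) (u : ℝ → ℝ → E) (hu : JS I u) (t : ℝ) (ht : t ∈ I) :
    ContDiff ℝ ∞ (u t) := by
  rw [← contDiffOn_univ]
  have h1 : ContDiffOn ℝ ∞ (fun y : ℝ => ((t, y) : ℝ × ℝ)) univ :=
    contDiffOn_const.prodMk contDiffOn_id
  exact ContDiffOn.comp (g := fun z : ℝ × ℝ => u z.1 z.2) (t := I ×ˢ univ) hu h1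
    (fun y _ => ⟨ht, mem_univ _⟩)

theorem js1_iter_succ (I : Set ℝ) (u : ℝ → ℝ → E) (j : ℕ)
    (hu : JS I (fun t => iteratedDeriv j (u t))) (t x : ℝ) (ht : t ∈ I) :
    iteratedDeriv (j + 1) (u t) x = js1_dx I (fun t => iteratedDeriv j (u t)) t x := by
  rw [iteratedDeriv_succ]
  exact (js1_hasDerivAt I (fun t => iteratedDeriv j (u t)) hu t x ht).deriv

theorem js1_iter (I : Set ℝ) (hI : Itv I) (u : ℝ → ℝ → E) (hu : JS I u) (j : ℕ) :
    JS I (fun t => iteratedDeriv j (u t)) := by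
  induction j with
  | zero => simpa [iteratedDeriv_zero] using hu
  | succ j ih =>
    exact js1_congr I _ _ (js1_dx_js I hI _ ih) (fun t ht x => js1_iter_succ I u j ih t x ht)

theorem js1_comm (I : Set ℝ) (hI : Itv I) (u : ℝ → ℝ → E) (hu : JS I u) (t x : ℝ) (ht : t ∈ I) :
    js1_dx I (js1_dt I u) t x = js1_dt I (js1_dx I u) t x := by
  set U : ℝ × ℝ → E := fun z => u z.1 z.2 with hU
  set S : Set (ℝ × ℝ) := I ×ˢ univ with hS
  have hz : ((t, x) : ℝ × ℝ) ∈ S := ⟨ht, mem_univ _⟩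
  have hud := js1_ud I hI
  have h1 : ContDiffOn ℝ ∞ (fderivWithin ℝ U S) S := ContDiffOn.fderivWithin hu hud (by simp)
  have h2 : HasFDerivWithinAt (fderivWithin ℝ U S) (fderivWithin ℝ (fderivWithin ℝ U S) S (t, x))
      S (t, x) := (h1.differentiableOn (by simp) (t, x) hz).hasFDerivWithinAt
  have h3 : ∀ v : ℝ × ℝ, HasFDerivWithinAt (fun z => fderivWithin ℝ U S z v)
      ((ContinuousLinearMap.apply ℝ E v).comp (fderivWithin ℝ (fderivWithin ℝ U S) S (t, x)))
      S (t, x) := fun v =>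
    (ContinuousLinearMap.apply ℝ E v).hasFDerivAt.comp_hasFDerivWithinAt (t, x) h2
  have h4 : ∀ v : ℝ × ℝ, fderivWithin ℝ (fun z => fderivWithin ℝ U S z v) S (t, x) =
      (ContinuousLinearMap.apply ℝ E v).comp (fderivWithin ℝ (fderivWithin ℝ U S) S (t, x)) :=
    fun v => (h3 v).fderivWithin (hud _ hz)
  have hsymm : IsSymmSndFDerivWithinAt ℝ U S (t, x) := by
    apply ContDiffWithinAt.isSymmSndFDerivWithinAt (n := ∞) (hu (t, x) hz)
    · rw [minSmoothness_of_isRCLikeNormedField]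
      exact WithTop.coe_le_coe.mpr le_top
    · exact hud
    · rw [interior_prod_eq, closure_prod_eq, interior_univ, closure_univ]
      exact ⟨js1_closure I hI ht, mem_univ _⟩
    · exact hz
  have e1 : js1_dx I (js1_dt I u) t x =
      fderivWithin ℝ (fun z => fderivWithin ℝ U S z (1, 0)) S (t, x) (0, 1) := rfl
  have e2 : js1_dt I (js1_dx I u) t x =
      fderivWithin ℝ (fun z => fderivWithin ℝ U S z (0, 1)) S (t, x) (1, 0) := rfl
  rw [e1, e2, h4, h4]
  simp only [ContinuousLinearMap.comp_apply, ContinuousLinearMap.apply_apply]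
  exact hsymm (0, 1) (1, 0)

theorem js1_dt_congr (I : Set ℝ) (u v : ℝ → ℝ → E) (h : ∀ t ∈ I, ∀ x, v t x = u t x) (t x : ℝ)
    (ht : t ∈ I) : js1_dt I v t x = js1_dt I u t x := by
  unfold js1_dt
  rw [fderivWithin_congr (f₁ := fun z : ℝ × ℝ => v z.1 z.2) (f := fun z : ℝ × ℝ => u z.1 z.2)
    (fun z hz => h z.1 hz.1 z.2) (h t ht x)]

theorem js1_dt_iter (I : Set ℝ) (hI : Itv I) (u : ℝ → ℝ → E) (hu : JS I u) (j : ℕ) :
    ∀ t ∈ I, ∀ x, iteratedDeriv j (js1_dt I u t) x =
      js1_dt I (fun t => iteratedDeriv j (u t)) t x := by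
  induction j with
  | zero => intro t _ x; simp [iteratedDeriv_zero]
  | succ j ih =>
    intro t ht x
    have hj := js1_iter I hI u hu j
    rw [iteratedDeriv_succ]
    have h1 : iteratedDeriv j (js1_dt I u t) = js1_dt I (fun t => iteratedDeriv j (u t)) t :=
      funext (ih t ht)
    rw [h1]
    have h2 : deriv (js1_dt I (fun t => iteratedDeriv j (u t)) t) x =
        js1_dx I (js1_dt I (fun t => iteratedDeriv j (u t))) t x :=
      (js1_hasDerivAt I _ (js1_dt_js I hI _ hj) t x ht).deriv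
    rw [h2, js1_comm I hI _ hj t x ht]
    exact (js1_dt_congr I _ _ (fun t ht x => js1_iter_succ I u j hj t x ht) t x ht).symm

theorem js1_dt_main (I : Set ℝ) (hI : Itv I) (u : ℝ → ℝ → E) (hu : JS I u) :
    ∃ ut : ℝ → ℝ → E, JS I ut ∧
      ∀ j : ℕ, ∀ t ∈ I, ∀ x, HasDerivWithinAt (fun s => iteratedDeriv j (u s) x)
        (iteratedDeriv j (ut t) x) I t := by
  refine ⟨js1_dt I u, js1_dt_js I hI u hu, ?_⟩
  intro j t ht x
  rw [js1_dt_iter I hI u hu j t ht x]
  exact js1_hasDerivWithinAt I (fun t => iteratedDeriv j (u t)) (js1_iter I hI u hu j) t x ht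

end JS1

theorem jsSlice : JSSlice := fun _ I u hI hu =>
  ⟨fun t ht => js1_slice I u hu t ht, fun j => js1_iter I hI u hu j⟩

theorem jsSlice1 : JSSlice1 := fun I u hI hu =>
  ⟨fun t ht => js1_slice I u hu t ht, fun j => js1_iter I hI u hu j⟩

theorem jsDt : JSDt := fun _ I u hI hu => js1_dt_main I hI u hu

theorem jsDt1 : JSDt1 := fun I u hI hu => js1_dt_main I hI u hu

end Pool.Agent.Work.MP_4a14ce_an

end

section

/-!
# Jointly smooth functions: partial derivatives, locality, composition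
-/

open Set MeasureTheory Topology Filter
open scoped ContDiff

namespace Pool.Agent.Work.MP_4a14ce_an

/-- Total derivative from continuous partial derivatives, one-sided in the first variable. -/
theorem js2_hasFDeriv {E : Type*} [NormedAddCommGroup E] [NormedSpace ℝ E] {I : Set ℝ}
    {u ut ux : ℝ → ℝ → E}
    (ht : ∀ t ∈ I, ∀ x, HasDerivWithinAt (fun s => u s x) (ut t x) I t)
    (hx : ∀ t ∈ I, ∀ x, HasDerivAt (u t) (ux t x) x)
    (hc : ContinuousOn (fun z : ℝ × ℝ => ux z.1 z.2) (I ×ˢ univ)) {z : ℝ × ℝ}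
    (hz : z ∈ I ×ˢ (univ : Set ℝ)) :
    HasFDerivWithinAt (fun z : ℝ × ℝ => u z.1 z.2)
      (ContinuousLinearMap.smulRightL ℝ (ℝ × ℝ) E (ContinuousLinearMap.fst ℝ ℝ ℝ) (ut z.1 z.2) +
        ContinuousLinearMap.smulRightL ℝ (ℝ × ℝ) E (ContinuousLinearMap.snd ℝ ℝ ℝ) (ux z.1 z.2))
      (I ×ˢ univ) z := by
  obtain ⟨t0, x0⟩ := z
  have ht0 : t0 ∈ I := hz.1
  rw [hasFDerivWithinAt_iff_isLittleO, Asymptotics.isLittleO_iff]
  intro c hc0
  have hc2 : 0 < c / 2 := by positivity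
  -- time part
  have h1 := (ht t0 ht0 x0).hasFDerivWithinAt
  rw [hasFDerivWithinAt_iff_isLittleO, Asymptotics.isLittleO_iff] at h1
  have h1 := h1 hc2
  have h1' : ∀ᶠ z : ℝ × ℝ in 𝓝[I ×ˢ univ] (t0, x0),
      ‖u z.1 x0 - u t0 x0 - (z.1 - t0) • ut t0 x0‖ ≤ c / 2 * ‖z.1 - t0‖ := by
    have hten : Tendsto Prod.fst (𝓝[I ×ˢ univ] ((t0, x0) : ℝ × ℝ)) (𝓝[I] t0) := by
      refine tendsto_nhdsWithin_of_tendsto_nhds_of_eventually_within _ ?_ ?_
      · exact (continuous_fst.tendsto _).mono_left nhdsWithin_le_nhds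
      · filter_upwards [self_mem_nhdsWithin] with z hz
        exact hz.1
    have := hten.eventually h1
    simpa using this
  -- space part
  have h2 := (Metric.continuousWithinAt_iff.1 (hc (t0, x0) hz)) (c / 2) hc2
  obtain ⟨δ, hδ, h2⟩ := h2
  have h2' : ∀ᶠ z : ℝ × ℝ in 𝓝[I ×ˢ univ] (t0, x0),
      ‖u z.1 z.2 - u z.1 x0 - (z.2 - x0) • ux t0 x0‖ ≤ c / 2 * ‖z.2 - x0‖ := by
    have hball : ∀ᶠ z : ℝ × ℝ in 𝓝[I ×ˢ univ] (t0, x0), z ∈ Metric.ball ((t0, x0) : ℝ × ℝ) δ :=
      nhdsWithin_le_nhds (Metric.ball_mem_nhds _ hδ)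
    filter_upwards [hball, self_mem_nhdsWithin] with z hz1 hz2
    have hz1' := hz1
    rw [Metric.mem_ball, Prod.dist_eq, max_lt_iff] at hz1'
    have hmv := Convex.norm_image_sub_le_of_norm_hasDerivWithin_le (𝕜 := ℝ)
      (f := fun y => u z.1 y - y • ux t0 x0) (f' := fun y => ux z.1 y - ux t0 x0)
      (s := uIcc x0 z.2) (x := x0) (y := z.2) (C := c / 2)
      (fun y _ => ((hx z.1 hz2.1 y).sub (by
        simpa using (hasDerivAt_id y).smul_const (ux t0 x0))).hasDerivWithinAt)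
      (fun y hy => ?_) (convex_uIcc _ _) left_mem_uIcc right_mem_uIcc
    · have e : u z.1 z.2 - z.2 • ux t0 x0 - (u z.1 x0 - x0 • ux t0 x0) =
          u z.1 z.2 - u z.1 x0 - (z.2 - x0) • ux t0 x0 := by
        rw [sub_smul]
        abel
      rw [← e]
      exact hmv
    · have hyd : dist y x0 ≤ dist z.2 x0 := by
        rw [Real.dist_eq, Real.dist_eq]
        exact abs_sub_left_of_mem_uIcc hy
      have := h2 (x := (z.1, y)) ⟨hz2.1, mem_univ _⟩ (by
        rw [Prod.dist_eq, max_lt_iff]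
        exact ⟨hz1'.1, lt_of_le_of_lt hyd hz1'.2⟩)
      rw [dist_eq_norm] at this
      exact this.le
  filter_upwards [h1', h2'] with z hz1 hz2
  have e : u z.1 z.2 - u t0 x0 - (ContinuousLinearMap.smulRightL ℝ (ℝ × ℝ) E
      (ContinuousLinearMap.fst ℝ ℝ ℝ) (ut t0 x0) +
        ContinuousLinearMap.smulRightL ℝ (ℝ × ℝ) E (ContinuousLinearMap.snd ℝ ℝ ℝ) (ux t0 x0))
          (z - (t0, x0)) = (u z.1 z.2 - u z.1 x0 - (z.2 - x0) • ux t0 x0) +
            (u z.1 x0 - u t0 x0 - (z.1 - t0) • ut t0 x0) := by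
    simp
    abel
  show ‖u z.1 z.2 - u t0 x0 - _‖ ≤ _
  rw [e]
  have n1 : ‖z.1 - t0‖ ≤ ‖z - (t0, x0)‖ := norm_fst_le (z - (t0, x0))
  have n2 : ‖z.2 - x0‖ ≤ ‖z - (t0, x0)‖ := norm_snd_le (z - (t0, x0))
  calc _ ≤ c / 2 * ‖z.2 - x0‖ + c / 2 * ‖z.1 - t0‖ := (norm_add_le _ _).trans (add_le_add hz2 hz1)
    _ ≤ c / 2 * ‖z - (t0, x0)‖ + c / 2 * ‖z - (t0, x0)‖ := by gcongr
    _ = c * ‖z - (t0, x0)‖ := by ring

theorem js2_partials {E : Type*} [NormedAddCommGroup E] [NormedSpace ℝ E] (k : ℕ) {I : Set ℝ}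
    {u ut ux : ℝ → ℝ → E}
    (ht : ∀ t ∈ I, ∀ x, HasDerivWithinAt (fun s => u s x) (ut t x) I t)
    (hx : ∀ t ∈ I, ∀ x, HasDerivAt (u t) (ux t x) x)
    (hct : ContDiffOn ℝ k (fun z : ℝ × ℝ => ut z.1 z.2) (I ×ˢ univ))
    (hcx : ContDiffOn ℝ k (fun z : ℝ × ℝ => ux z.1 z.2) (I ×ˢ univ)) :
    ContDiffOn ℝ (k + 1) (fun z : ℝ × ℝ => u z.1 z.2) (I ×ˢ univ) := by
  rw [contDiffOn_succ_iff_hasFDerivWithinAt (by exact_mod_cast (ENat.natCast_ne_top k))]
  intro z hz
  refine ⟨I ×ˢ univ, ?_, ?_, fun z =>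
    ContinuousLinearMap.smulRightL ℝ (ℝ × ℝ) E (ContinuousLinearMap.fst ℝ ℝ ℝ) (ut z.1 z.2) +
      ContinuousLinearMap.smulRightL ℝ (ℝ × ℝ) E (ContinuousLinearMap.snd ℝ ℝ ℝ) (ux z.1 z.2),
    fun z hz => js2_hasFDeriv ht hx hcx.continuousOn hz, ?_⟩
  · rw [insert_eq_of_mem hz]
    exact self_mem_nhdsWithin
  · intro h
    exact absurd h (by exact_mod_cast WithTop.natCast_ne_top k)
  · exact ((ContinuousLinearMap.contDiff _).comp_contDiffOn hct).add
      ((ContinuousLinearMap.contDiff _).comp_contDiffOn hcx)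

theorem partialsC : PartialsC := fun _ k _ _ _ _ _ ht hx hct hcx =>
  js2_partials k ht hx hct hcx

theorem partialsC1 : PartialsC1 := fun k _ _ _ _ _ ht hx hct hcx =>
  js2_partials k ht hx hct hcx

theorem jsLocal : JSLocal := by
  intro n I u h z hz
  obtain ⟨J, v, hJ, htJ, hv, huv⟩ := h z.1 hz.1
  have hset : (I ∩ J) ×ˢ (univ : Set ℝ) = (I ×ˢ univ) ∩ (J ×ˢ univ) := by
    ext w
    simp only [mem_prod, mem_inter_iff, mem_univ, and_true]
  have h1 : ContDiffWithinAt ℝ ∞ (fun z : ℝ × ℝ => v z.1 z.2) ((I ∩ J) ×ˢ univ) z :=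
    hv z ⟨⟨hz.1, htJ⟩, mem_univ _⟩
  have h2 : ContDiffWithinAt ℝ ∞ (fun z : ℝ × ℝ => u z.1 z.2) ((I ∩ J) ×ˢ univ) z :=
    h1.congr (fun w hw => huv w.1 hw.1 w.2) (huv z.1 ⟨hz.1, htJ⟩ z.2)
  rw [hset] at h2
  exact (contDiffWithinAt_inter ((hJ.prod isOpen_univ).mem_nhds ⟨htJ, mem_univ _⟩)).1 h2

theorem jsComp : JSComp := by
  intro n I u Y hu hY
  have h1 : ContDiffOn ℝ ∞ (fun z : ℝ × ℝ => (z.1, Y z.1 z.2)) (I ×ˢ univ) :=
    contDiffOn_fst.prodMk hY
  exact ContDiffOn.comp (g := fun z : ℝ × ℝ => u z.1 z.2) hu h1 fun z hz => ⟨hz.1, mem_univ _⟩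

end Pool.Agent.Work.MP_4a14ce_an

end

section

/-!
# Group L: the finite dimensional Lojasiewicz gradient inequality (definitions and interfaces)

Local monomialisation with ramification (elementary). `LRes LMono f a`: near `a` the function `f`
becomes a monomial times a unit after finitely many towers of analytic charts on compact sets.
-/

open Set Topology Filter

namespace Pool.Agent.Work.MP_4a14ce_an

/-- `f` is a monomial in `x - b` times a unit near `b`. -/
def LMono {n : ℕ} (f : (Fin n → ℝ) → ℝ) (b : Fin n → ℝ) : Prop :=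
  ∃ (a : Fin n → ℕ) (u : (Fin n → ℝ) → ℝ), AnalyticAt ℝ u b ∧ u b ≠ 0 ∧
    ∀ᶠ x in 𝓝 b, f x = (∏ i, (x i - b i) ^ a i) * u x

/-- the same for functions of `(y, t)` in `ℝ^n × ℝ` -/
def LMonoP {n : ℕ} (f : (Fin n → ℝ) × ℝ → ℝ) (p : (Fin n → ℝ) × ℝ) : Prop :=
  ∃ (a : Fin n → ℕ) (c : ℕ) (u : (Fin n → ℝ) × ℝ → ℝ), AnalyticAt ℝ u p ∧ u p ≠ 0 ∧
    ∀ᶠ q in 𝓝 p, f q = (∏ i, (q.1 i - p.1 i) ^ a i) * (q.2 - p.2) ^ c * u q

/-- `f` has the local property `M` at `a` after a tower of analytic charts -/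
inductive LRes {E : Type} [NormedAddCommGroup E] [NormedSpace ℝ E] (M : (E → ℝ) → E → Prop) :
    (E → ℝ) → E → Prop
  | base (f : E → ℝ) (a : E) : M f a → LRes M f a
  | tower (f : E → ℝ) (a : E) (N : ℕ) (φ : Fin N → E → E) (K : Fin N → Set E) :
      (∀ i, IsCompact (K i)) → (∀ i, ∀ x ∈ K i, AnalyticAt ℝ (φ i) x) →
      (⋃ i, φ i '' K i) ∈ 𝓝 a →
      (∀ i, ∀ x ∈ K i, φ i x = a → LRes M (fun y => f (φ i y)) x) → LRes M f a

/-- the Lojasiewicz gradient inequality at `a` -/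
def Loj {E : Type} [NormedAddCommGroup E] [NormedSpace ℝ E] (f : E → ℝ) (a : E) : Prop :=
  ∃ θ ∈ Ioo (0 : ℝ) 1, ∃ C > 0, ∀ᶠ x in 𝓝 a, |f x - f a| ^ θ ≤ C * ‖fderiv ℝ f x‖

/-- L1: Hadamard's lemma for analytic functions: division by a linear coordinate. -/
def LHad : Prop := ∀ (E : Type) [NormedAddCommGroup E] [NormedSpace ℝ E] (l : E →L[ℝ] ℝ) (e : E),
  l e = 1 → ∀ (F : E → ℝ) (b : E), AnalyticAt ℝ F b →
    ∃ G : E → ℝ, AnalyticAt ℝ G b ∧ ∀ᶠ x in 𝓝 b, F x = F (x - l (x - b) • e) + l (x - b) * G x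

/-- L2a: a factor of a monomial times a unit is a monomial times a unit. -/
def LFactor : Prop := ∀ (n : ℕ) (f g : (Fin n → ℝ) → ℝ) (b : Fin n → ℝ), AnalyticAt ℝ f b →
  AnalyticAt ℝ g b → LMono (fun x => f x * g x) b → LMono f b

/-- L2b: an analytic function dominated by a monomial is divisible by it. -/
def LDom : Prop := ∀ (n : ℕ) (c : (Fin n → ℝ) → ℝ) (b : Fin n → ℝ) (e : Fin n → ℕ) (C : ℝ),
  AnalyticAt ℝ c b → (∀ᶠ x in 𝓝 b, |c x| ≤ C * |∏ i, (x i - b i) ^ e i|) →
    ∃ v : (Fin n → ℝ) → ℝ, AnalyticAt ℝ v b ∧ ∀ᶠ x in 𝓝 b, c x = (∏ i, (x i - b i) ^ e i) * v x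

/-- L2c: the ring of germs is an integral domain. -/
def LDomain : Prop := ∀ (E : Type) [NormedAddCommGroup E] [NormedSpace ℝ E] (f g : E → ℝ) (b : E),
  AnalyticAt ℝ f b → AnalyticAt ℝ g b → (∀ᶠ x in 𝓝 b, f x * g x = 0) →
    (∀ᶠ x in 𝓝 b, f x = 0) ∨ (∀ᶠ x in 𝓝 b, g x = 0)

/-- L3a: the gradient inequality for a monomial times a unit. -/
def LMonoLoj : Prop := ∀ (n : ℕ) (f : (Fin n → ℝ) → ℝ) (a : Fin n → ℝ), AnalyticAt ℝ f a →
  f a = 0 → LMono f a → Loj f a

/-- L3b: the gradient inequality descends along towers of charts. -/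
def LTransfer : Prop := ∀ (n : ℕ) (f : (Fin n → ℝ) → ℝ) (a : Fin n → ℝ), AnalyticAt ℝ f a →
  f a = 0 → LRes LMono f a → Loj f a

/-- L4: implicit function theorem and Taylor expansion: normal form of a function of exact order
`k + 1` in the last variable. -/
def LNormal : Prop := ∀ (n k : ℕ) (g : (Fin n → ℝ) × ℝ → ℝ) (b : Fin n → ℝ) (s : ℝ),
  AnalyticAt ℝ g (b, s) → (∀ j ≤ k, iteratedDeriv j (fun t => g (b, t)) s = 0) →
  iteratedDeriv (k + 1) (fun t => g (b, t)) s ≠ 0 →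
  ∃ (h : (Fin n → ℝ) → ℝ) (c : ℕ → (Fin n → ℝ) → ℝ) (U : (Fin n → ℝ) × ℝ → ℝ),
    AnalyticAt ℝ h b ∧ h b = s ∧ (∀ j, AnalyticAt ℝ (c j) b) ∧ AnalyticAt ℝ U (b, 0) ∧
    U (b, 0) ≠ 0 ∧
    ∀ᶠ p in 𝓝 (b, (0 : ℝ)), g (p.1, p.2 + h p.1) =
      ∑ j ∈ Finset.range k, c j p.1 * p.2 ^ j + p.2 ^ (k + 1) * U p

/-- functions of `n` variables can be monomialised -/
def LM (n : ℕ) : Prop := ∀ (f : (Fin n → ℝ) → ℝ) (b : Fin n → ℝ), AnalyticAt ℝ f b →
  (¬ ∀ᶠ y in 𝓝 b, f y = 0) → LRes LMono f b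

/-- functions `m(y) g(y,t)`, `g` of order at most `k` in `t`, can be monomialised -/
def LV (n k : ℕ) : Prop := ∀ (g : (Fin n → ℝ) × ℝ → ℝ) (m : (Fin n → ℝ) → ℝ) (b : Fin n → ℝ)
  (s : ℝ), AnalyticAt ℝ g (b, s) → AnalyticAt ℝ m b →
  (∃ j ≤ k, iteratedDeriv j (fun t => g (b, t)) s ≠ 0) → (¬ ∀ᶠ y in 𝓝 b, m y = 0) →
  LRes LMonoP (fun p => m p.1 * g p) (b, s)

/-- L5: the blow-up step. -/
def LCore : Prop := ∀ (n k : ℕ), LV n k → ∀ (α β : Fin n → ℕ) (v : ℕ → (Fin n → ℝ) → ℝ)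
  (U W : (Fin n → ℝ) × ℝ → ℝ), (∀ j, AnalyticAt ℝ (v j) 0) → AnalyticAt ℝ U (0, 0) →
  U (0, 0) ≠ 0 → AnalyticAt ℝ W (0, 0) → W (0, 0) ≠ 0 → (∃ j < k, v j 0 ≠ 0) →
  LRes LMonoP (fun p => (∏ i, p.1 i ^ β i) * W p *
    (∑ j ∈ Finset.range k, (∏ i, p.1 i ^ ((k + 1 - j) * α i)) * v j p.1 * p.2 ^ j +
      p.2 ^ (k + 1) * U p)) (0, 0)

/-- L6: the ramification step. -/
def LStep : Prop := ∀ (n k : ℕ), LM n → LV n k → LV n (k + 1)

/-- order zero -/
def LV0 : Prop := ∀ n : ℕ, LM n → LV n 0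

/-- L7: it is enough to treat the charts over a monomialisation of a function of `y`. -/
def LLift : Prop := ∀ (n : ℕ) (m : (Fin n → ℝ) → ℝ) (b : Fin n → ℝ), LRes LMono m b →
  ∀ (H : (Fin n → ℝ) × ℝ → ℝ) (s : ℝ),
  (∀ (φ : (Fin n → ℝ) → (Fin n → ℝ)) (b' : Fin n → ℝ), AnalyticAt ℝ φ b' → φ b' = b →
    LMono (fun y => m (φ y)) b' → LRes LMonoP (fun p => H (φ p.1, p.2)) (b', s)) →
  LRes LMonoP H (b, s)

/-- L8: the induction on the dimension. -/
def LDim : Prop := ∀ n : ℕ, (∀ k, LV n k) → LM (n + 1)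

end Pool.Agent.Work.MP_4a14ce_an

end

section

/-!
# MP_4a14ce_an: the linear parabolic energy estimate
-/

open Set MeasureTheory Topology Filter
open scoped ContDiff

namespace Pool.Agent.Work.MP_4a14ce_an

/-- components of iterated derivatives -/
theorem lin_comp {k : ℕ} (f : ℝ → Fin k → ℝ) (hf : ContDiff ℝ ∞ f) (i : Fin k) (j : ℕ) :
    iteratedDeriv j (fun y => f y i) = fun x => iteratedDeriv j f x i := by
  induction j with
  | zero => simp [iteratedDeriv_zero]
  | succ j ih =>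
    rw [iteratedDeriv_succ, ih]
    ext x
    rw [iteratedDeriv_succ]
    have hd : DifferentiableAt ℝ (iteratedDeriv j f) x :=
      (hf.differentiable_iteratedDeriv j (by exact_mod_cast WithTop.coe_lt_top _)) x
    exact (hasDerivAt_pi.mp hd.hasDerivAt i).deriv

theorem lin_iter_contDiff (f : ℝ → ℝ) (hf : ContDiff ℝ ∞ f) (j : ℕ) :
    ContDiff ℝ ∞ (iteratedDeriv j f) := by
  induction j with
  | zero => simpa [iteratedDeriv_zero] using hf
  | succ j ih =>
    rw [iteratedDeriv_succ]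
    exact (contDiff_infty_iff_deriv.mp ih).2

theorem lin_iter_periodic (f : ℝ → ℝ) (c : ℝ) (hf : Function.Periodic f c) (j : ℕ) :
    Function.Periodic (iteratedDeriv j f) c := by
  induction j with
  | zero => simpa [iteratedDeriv_zero] using hf
  | succ j ih =>
    rw [iteratedDeriv_succ]
    intro x
    have h1 : (fun y => iteratedDeriv j f (y + c)) = iteratedDeriv j f := funext ih
    have h2 := deriv_comp_add_const (iteratedDeriv j f) c x
    rw [h1] at h2
    exact h2.symm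

/-- `∫ f f'''' = ∫ (f'')²` -/
theorem lin_ibp (hP : PerIbp) (f : ℝ → ℝ) (hf : ContDiff ℝ ∞ f)
    (hp : Function.Periodic f (2 * Real.pi)) :
    per (fun x => f x * iteratedDeriv 4 f x) = per (fun x => iteratedDeriv 2 f x ^ 2) := by
  have hc : ∀ j, ContDiff ℝ 1 (iteratedDeriv j f) := fun j =>
    (lin_iter_contDiff f hf j).of_le (by exact_mod_cast le_top)
  have hpp := lin_iter_periodic f (2 * Real.pi) hp
  have hf1 : ContDiff ℝ 1 f := hf.of_le (by exact_mod_cast le_top)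
  have h1 := hP f (iteratedDeriv 3 f) hf1 (hc 3) hp (hpp 3)
  have h2 := hP (iteratedDeriv 1 f) (iteratedDeriv 2 f) (hc 1) (hc 2) (hpp 1) (hpp 2)
  have e1 : deriv f = iteratedDeriv 1 f := by rw [iteratedDeriv_one]
  have e2 : deriv (iteratedDeriv 1 f) = iteratedDeriv 2 f := (iteratedDeriv_succ).symm
  have e3 : deriv (iteratedDeriv 2 f) = iteratedDeriv 3 f := (iteratedDeriv_succ).symm
  have e4 : deriv (iteratedDeriv 3 f) = iteratedDeriv 4 f := (iteratedDeriv_succ).symm
  rw [e1, e4] at h1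
  rw [e2, e3] at h2
  have h3 : per (fun x => iteratedDeriv 2 f x ^ 2) =
      per (fun x => iteratedDeriv 2 f x * iteratedDeriv 2 f x) := by
    congr 1; ext x; ring
  rw [h3]
  linarith

theorem lin_young (f : ℝ → ℝ) (hI : PerInterp) (hf : ContDiff ℝ ∞ f)
    (hp : Function.Periodic f (2 * Real.pi)) :
    per (fun x => iteratedDeriv 1 f x ^ 2) ≤
      per (fun x => f x ^ 2) + per (fun x => iteratedDeriv 2 f x ^ 2) := by
  have h := hI f (contDiff_infty.mp hf 2) hp
  rw [iteratedDeriv_one]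
  have h1 : 0 ≤ per (fun x => f x ^ 2) :=
    intervalIntegral.integral_nonneg (by positivity) (fun x _ => sq_nonneg _)
  have h2 : 0 ≤ per (fun x => iteratedDeriv 2 f x ^ 2) :=
    intervalIntegral.integral_nonneg (by positivity) (fun x _ => sq_nonneg _)
  have h3 : 0 ≤ per (fun x => deriv f x ^ 2) :=
    intervalIntegral.integral_nonneg (by positivity) (fun x _ => sq_nonneg _)
  by_contra hc
  push Not at hc
  nlinarith

/-- pointwise inequality -/
theorem lin_pointwise {k : ℕ} (N : ℝ) (hN : 0 ≤ N) (a b c r : Fin k → ℝ)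
    (h : ∀ i, |r i| ≤ N * (‖a‖ + ‖b‖ + ‖c‖)) :
    ∑ i, 2 * a i * r i ≤ (2 * (k * N) + 2 * (k * N) ^ 2) * ∑ i, a i ^ 2 +
      (∑ i, b i ^ 2 + ∑ i, c i ^ 2) := by
  have hsq : ∀ v : Fin k → ℝ, ‖v‖ ^ 2 ≤ ∑ i, v i ^ 2 := by
    intro v
    have h0 : 0 ≤ ∑ i, v i ^ 2 := Finset.sum_nonneg (fun i _ => sq_nonneg _)
    have h1 : ‖v‖ ≤ Real.sqrt (∑ i, v i ^ 2) := by
      rw [pi_norm_le_iff_of_nonneg (Real.sqrt_nonneg _)]
      intro i
      rw [Real.norm_eq_abs]
      apply Real.abs_le_sqrt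
      exact Finset.single_le_sum (f := fun i => v i ^ 2) (fun i _ => sq_nonneg _)
        (Finset.mem_univ i)
    calc ‖v‖ ^ 2 ≤ (Real.sqrt (∑ i, v i ^ 2)) ^ 2 := pow_le_pow_left₀ (norm_nonneg _) h1 2
      _ = _ := Real.sq_sqrt h0
  have ha : ∀ i, |a i| ≤ ‖a‖ := fun i => by
    rw [← Real.norm_eq_abs]; exact norm_le_pi_norm a i
  have h1 : ∀ i, 2 * a i * r i ≤ 2 * (‖a‖ * (N * (‖a‖ + ‖b‖ + ‖c‖))) := by
    intro i
    calc 2 * a i * r i ≤ |2 * a i * r i| := le_abs_self _
      _ = 2 * (|a i| * |r i|) := by rw [abs_mul, abs_mul, abs_two]; ring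
      _ ≤ 2 * (‖a‖ * (N * (‖a‖ + ‖b‖ + ‖c‖))) := by
        apply mul_le_mul_of_nonneg_left _ (by norm_num)
        exact mul_le_mul (ha i) (h i) (abs_nonneg _) (norm_nonneg _)
  have h2 : ∑ i, 2 * a i * r i ≤ k * (2 * (‖a‖ * (N * (‖a‖ + ‖b‖ + ‖c‖)))) := by
    calc ∑ i, 2 * a i * r i ≤ ∑ _i : Fin k, 2 * (‖a‖ * (N * (‖a‖ + ‖b‖ + ‖c‖))) :=
          Finset.sum_le_sum (fun i _ => h1 i)
      _ = _ := by simp
  have hkN : 0 ≤ (k : ℝ) * N := by positivity
  have hA := hsq a
  have hB := hsq b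
  have hC := hsq c
  set M := (k : ℝ) * N with hM
  have h3 : (k : ℝ) * (2 * (‖a‖ * (N * (‖a‖ + ‖b‖ + ‖c‖)))) =
      2 * M * ‖a‖ ^ 2 + 2 * (M * ‖a‖) * ‖b‖ + 2 * (M * ‖a‖) * ‖c‖ := by
    rw [hM]; ring
  have h4 : 2 * (M * ‖a‖) * ‖b‖ ≤ M ^ 2 * ‖a‖ ^ 2 + ‖b‖ ^ 2 := by
    nlinarith [sq_nonneg (M * ‖a‖ - ‖b‖)]
  have h5 : 2 * (M * ‖a‖) * ‖c‖ ≤ M ^ 2 * ‖a‖ ^ 2 + ‖c‖ ^ 2 := by
    nlinarith [sq_nonneg (M * ‖a‖ - ‖c‖)]
  have h6 : (2 * M + 2 * M ^ 2) * ‖a‖ ^ 2 ≤ (2 * M + 2 * M ^ 2) * ∑ i, a i ^ 2 :=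
    mul_le_mul_of_nonneg_left hA (by positivity)
  nlinarith

/-- Gronwall: `y' ≤ M y`, `y 0 = 0` imply `y ≤ 0`. -/
theorem lin_gronwall (T M : ℝ) (y y' : ℝ → ℝ) (hy0 : y 0 = 0)
    (hy : ∀ t ∈ Icc 0 T, HasDerivWithinAt y (y' t) (Icc 0 T) t)
    (hle : ∀ t ∈ Icc 0 T, y' t ≤ M * y t) : ∀ t ∈ Icc 0 T, y t ≤ 0 := by
  intro t ht
  have hT : 0 ≤ T := ht.1.trans ht.2
  set g : ℝ → ℝ := fun s => y s * Real.exp (-(M * s)) with hg
  have hgd : ∀ s ∈ Icc 0 T, HasDerivWithinAt g
      (y' s * Real.exp (-(M * s)) + y s * (Real.exp (-(M * s)) * (-(M * 1)))) (Icc 0 T) s := by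
    intro s hs
    have h1 : HasDerivAt (fun s : ℝ => Real.exp (-(M * s)))
        (Real.exp (-(M * s)) * (-(M * 1))) s :=
      (((hasDerivAt_id s).const_mul M).neg).exp
    exact (hy s hs).mul h1.hasDerivWithinAt
  have hanti : AntitoneOn g (Icc 0 T) := by
    apply antitoneOn_of_deriv_nonpos (convex_Icc 0 T)
    · exact fun s hs => (hgd s hs).continuousWithinAt
    · intro s hs
      exact ((hgd s (interior_subset hs)).mono interior_subset).differentiableWithinAt
    · intro s hs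
      have hs' := interior_subset hs
      have h2 : HasDerivAt g
          (y' s * Real.exp (-(M * s)) + y s * (Real.exp (-(M * s)) * (-(M * 1)))) s :=
        (hgd s hs').hasDerivAt (mem_interior_iff_mem_nhds.mp hs)
      rw [h2.deriv]
      have h3 := hle s hs'
      have h4 : 0 < Real.exp (-(M * s)) := Real.exp_pos _
      nlinarith
  have h5 := hanti (left_mem_Icc.mpr hT) ht ht.1
  simp only [hg, hy0, zero_mul] at h5
  have h6 : 0 < Real.exp (-(M * t)) := Real.exp_pos _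
  by_contra hc
  push Not at hc
  nlinarith [mul_pos hc h6]

theorem claimLin (hS : JSSlice) (hD : JSDt) (hJ : JSPer) (hP : PerIbp)
    (hI : PerInterp) : ClaimLin := by
  intro k T C w wt hT hw hper hder hest h0
  have hItv : Itv (Icc 0 T) := Or.inr ⟨0, T, hT, rfl⟩
  obtain ⟨hws, -⟩ := hS k (Icc 0 T) w hItv hw
  obtain ⟨ut, hut, hutd⟩ := hD k (Icc 0 T) w hItv hw
  obtain ⟨huts, -⟩ := hS k (Icc 0 T) ut hItv hut
  have hud : UniqueDiffOn ℝ (Icc 0 T) := uniqueDiffOn_Icc hT
  have hutd0 : ∀ t ∈ Icc 0 T, ∀ x, HasDerivWithinAt (fun s => w s x) (ut t x) (Icc 0 T) t := by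
    intro t ht x
    have := hutd 0 t ht x
    simpa [iteratedDeriv_zero] using this
  have heq : ∀ t ∈ Icc 0 T, ∀ x, ut t x = wt t x := fun t ht x =>
    UniqueDiffWithinAt.eq_deriv _ (hud t ht) (hutd0 t ht x) (hder t ht x)
  -- components
  have hwi : ∀ i, JS (Icc 0 T) (fun t x => w t x i) := fun i => contDiffOn_pi.mp hw i
  have huti : ∀ i, JS (Icc 0 T) (fun t x => ut t x i) := fun i => contDiffOn_pi.mp hut i
  have hsm : ∀ t ∈ Icc 0 T, ∀ i, ContDiff ℝ ∞ (fun x => w t x i) := fun t ht i =>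
    contDiff_pi.mp (hws t ht) i
  have hutsm : ∀ t ∈ Icc 0 T, ∀ i, ContDiff ℝ ∞ (fun x => ut t x i) := fun t ht i =>
    contDiff_pi.mp (huts t ht) i
  have hpi : ∀ t ∈ Icc 0 T, ∀ i, Function.Periodic (fun x => w t x i) (2 * Real.pi) := by
    intro t ht i x
    exact congrFun (hper t ht x) i
  -- the energy
  set y : ℝ → ℝ := fun t => ∑ i, per (fun x => w t x i ^ 2) with hy
  have hyd : ∀ t ∈ Icc 0 T, HasDerivWithinAt y
      (∑ i, per (fun x => 2 * w t x i * ut t x i)) (Icc 0 T) t := by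
    intro t ht
    apply HasDerivWithinAt.fun_sum
    intro i _
    have h1 : JS (Icc 0 T) (fun t x => w t x i ^ 2) := ContDiffOn.pow (hwi i) 2
    have h2 : JS (Icc 0 T) (fun t x => 2 * w t x i * ut t x i) :=
      ContDiffOn.mul (ContDiffOn.mul contDiffOn_const (hwi i)) (huti i)
    refine (hJ (Icc 0 T) (fun t x => w t x i ^ 2) (fun t x => 2 * w t x i * ut t x i) hItv h1 h2
      ?_).2 t ht
    intro s hs x
    have h3 : HasDerivWithinAt (fun s => w s x i) (ut s x i) (Icc 0 T) s :=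
      hasDerivWithinAt_pi.mp (hutd0 s hs x) i
    have h4 := h3.fun_pow 2
    simpa using h4
  have hmain : ∀ t ∈ Icc 0 T, (∑ i, per (fun x => 2 * w t x i * ut t x i)) ≤
      (2 * (k * |C|) + 2 * (k * |C|) ^ 2 + 1) * y t := by
    intro t ht
    have hc : ∀ i j, Continuous (iteratedDeriv j (fun x => w t x i)) := fun i j =>
      (lin_iter_contDiff _ (hsm t ht i) j).continuous
    have hc0 : ∀ i, Continuous (fun x => w t x i) := fun i => (hsm t ht i).continuous
    have hcu : ∀ i, Continuous (fun x => ut t x i) := fun i => (hutsm t ht i).continuous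
    set M := 2 * (k * |C|) + 2 * (k * |C|) ^ 2 with hM
    have hpt : ∀ x, ∑ i, 2 * w t x i * ut t x i ≤ M * ∑ i, w t x i ^ 2 +
        (∑ i, iteratedDeriv 1 (fun x => w t x i) x ^ 2 +
          ∑ i, iteratedDeriv 2 (fun x => w t x i) x ^ 2)
        - 4 * ∑ i, w t x i * iteratedDeriv 4 (fun x => w t x i) x := by
      intro x
      have hr : ∀ i, |ut t x i + 2 * iteratedDeriv 4 (w t) x i| ≤
          |C| * (‖w t x‖ + ‖iteratedDeriv 1 (w t) x‖ + ‖iteratedDeriv 2 (w t) x‖) := by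
        intro i
        have h1 := hest t ht x
        rw [← heq t ht x] at h1
        have h2 := norm_le_pi_norm (ut t x + (2 : ℝ) • iteratedDeriv 4 (w t) x) i
        rw [Real.norm_eq_abs] at h2
        refine (h2.trans h1).trans ?_
        exact mul_le_mul_of_nonneg_right (le_abs_self C) (by positivity)
      have h3 := lin_pointwise |C| (abs_nonneg C) (w t x) (iteratedDeriv 1 (w t) x)
        (iteratedDeriv 2 (w t) x) (fun i => ut t x i + 2 * iteratedDeriv 4 (w t) x i) hr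
      simp only [lin_comp (w t) (hws t ht)]
      have h4 : ∑ i, 2 * w t x i * (ut t x i + 2 * iteratedDeriv 4 (w t) x i) =
          ∑ i, 2 * w t x i * ut t x i + 4 * ∑ i, w t x i * iteratedDeriv 4 (w t) x i := by
        rw [Finset.mul_sum, ← Finset.sum_add_distrib]
        exact Finset.sum_congr rfl (fun i _ => by ring)
      rw [h4] at h3
      linarith
    have hint : per (fun x => ∑ i, 2 * w t x i * ut t x i) ≤
        per (fun x => M * ∑ i, w t x i ^ 2 +
        (∑ i, iteratedDeriv 1 (fun x => w t x i) x ^ 2 +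
          ∑ i, iteratedDeriv 2 (fun x => w t x i) x ^ 2)
        - 4 * ∑ i, w t x i * iteratedDeriv 4 (fun x => w t x i) x) := by
      apply intervalIntegral.integral_mono_on (by positivity)
      · apply Continuous.intervalIntegrable
        exact continuous_finsetSum _ (fun i _ => (continuous_const.mul (hc0 i)).mul (hcu i))
      · apply Continuous.intervalIntegrable
        refine ((continuous_const.mul (continuous_finsetSum _ (fun i _ => (hc0 i).pow 2))).add
          ((continuous_finsetSum _ (fun i _ => (hc i 1).pow 2)).add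
          (continuous_finsetSum _ (fun i _ => (hc i 2).pow 2)))).sub
          (continuous_const.mul (continuous_finsetSum _ (fun i _ => (hc0 i).mul (hc i 4))))
      · intro x _
        exact hpt x
    have hsum : ∀ g : Fin k → ℝ → ℝ, (∀ i, Continuous (g i)) →
        per (fun x => ∑ i, g i x) = ∑ i, per (g i) := by
      intro g hg
      exact intervalIntegral.integral_finsetSum (fun i _ => (hg i).intervalIntegrable _ _)
    have hR : per (fun x => M * ∑ i, w t x i ^ 2 +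
        (∑ i, iteratedDeriv 1 (fun x => w t x i) x ^ 2 +
          ∑ i, iteratedDeriv 2 (fun x => w t x i) x ^ 2)
        - 4 * ∑ i, w t x i * iteratedDeriv 4 (fun x => w t x i) x) =
        M * ∑ i, per (fun x => w t x i ^ 2) +
        (∑ i, per (fun x => iteratedDeriv 1 (fun x => w t x i) x ^ 2) +
          ∑ i, per (fun x => iteratedDeriv 2 (fun x => w t x i) x ^ 2))
        - 4 * ∑ i, per (fun x => w t x i * iteratedDeriv 4 (fun x => w t x i) x) := by
      rw [← hsum (fun i x => w t x i ^ 2) (fun i => (hc0 i).pow 2),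
        ← hsum (fun i x => iteratedDeriv 1 (fun x => w t x i) x ^ 2) (fun i => (hc i 1).pow 2),
        ← hsum (fun i x => iteratedDeriv 2 (fun x => w t x i) x ^ 2) (fun i => (hc i 2).pow 2),
        ← hsum (fun i x => w t x i * iteratedDeriv 4 (fun x => w t x i) x)
          (fun i => (hc0 i).mul (hc i 4))]
      unfold per
      rw [intervalIntegral.integral_sub, intervalIntegral.integral_add,
        intervalIntegral.integral_add, intervalIntegral.integral_const_mul,
        intervalIntegral.integral_const_mul]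
      all_goals apply Continuous.intervalIntegrable
      · exact continuous_finsetSum _ (fun i _ => (hc i 1).pow 2)
      · exact continuous_finsetSum _ (fun i _ => (hc i 2).pow 2)
      · exact continuous_const.mul (continuous_finsetSum _ (fun i _ => (hc0 i).pow 2))
      · exact (continuous_finsetSum _ (fun i _ => (hc i 1).pow 2)).add
          (continuous_finsetSum _ (fun i _ => (hc i 2).pow 2))
      · exact (continuous_const.mul (continuous_finsetSum _ (fun i _ => (hc0 i).pow 2))).add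
          ((continuous_finsetSum _ (fun i _ => (hc i 1).pow 2)).add
          (continuous_finsetSum _ (fun i _ => (hc i 2).pow 2)))
      · exact continuous_const.mul (continuous_finsetSum _ (fun i _ => (hc0 i).mul (hc i 4)))
    have hL := hsum (fun i x => 2 * w t x i * ut t x i)
      (fun i => (continuous_const.mul (hc0 i)).mul (hcu i))
    rw [hL, hR] at hint
    have hb1 : ∑ i, per (fun x => w t x i * iteratedDeriv 4 (fun x => w t x i) x) =
        ∑ i, per (fun x => iteratedDeriv 2 (fun x => w t x i) x ^ 2) :=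
      Finset.sum_congr rfl (fun i _ => lin_ibp hP _ (hsm t ht i) (hpi t ht i))
    have hb2 : ∑ i, per (fun x => iteratedDeriv 1 (fun x => w t x i) x ^ 2) ≤
        ∑ i, per (fun x => w t x i ^ 2) +
        ∑ i, per (fun x => iteratedDeriv 2 (fun x => w t x i) x ^ 2) := by
      rw [← Finset.sum_add_distrib]
      exact Finset.sum_le_sum (fun i _ => lin_young _ hI (hsm t ht i) (hpi t ht i))
    have hb3 : 0 ≤ ∑ i, per (fun x => iteratedDeriv 2 (fun x => w t x i) x ^ 2) :=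
      Finset.sum_nonneg (fun i _ =>
        intervalIntegral.integral_nonneg (by positivity) (fun x _ => sq_nonneg _))
    rw [hb1] at hint
    have hyt : y t = ∑ i, per (fun x => w t x i ^ 2) := rfl
    rw [hyt]
    nlinarith
  have hy0 : y 0 = 0 := by
    simp only [hy]
    apply Finset.sum_eq_zero
    intro i _
    simp [per, h0]
  have hle := lin_gronwall T _ y _ hy0 hyd hmain
  intro t ht x
  ext i
  by_contra hne
  simp only [Pi.zero_apply] at hne
  have hy1 := hle t ht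
  have hnn : ∀ j, 0 ≤ per (fun x => w t x j ^ 2) := fun j =>
    intervalIntegral.integral_nonneg (by positivity) (fun x _ => sq_nonneg _)
  have hpos : 0 < per (fun x => w t x i ^ 2) := by
    obtain ⟨z, hz, hz2⟩ := (hpi t ht i).exists_mem_Ico₀ (by positivity) x
    apply intervalIntegral.integral_pos (by positivity)
    · exact ((hsm t ht i).continuous.pow 2).continuousOn
    · intro s _
      positivity
    · refine ⟨z, ⟨hz.1, hz.2.le⟩, ?_⟩
      have hz3 : w t z i ≠ 0 := by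
        rw [← hz2]; exact hne
      positivity
  have h7 : per (fun x => w t x i ^ 2) ≤ y t :=
    Finset.single_le_sum (f := fun j => per (fun x => w t x j ^ 2)) (fun j _ => hnn j)
      (Finset.mem_univ i)
  linarith

end Pool.Agent.Work.MP_4a14ce_an

end

section

/-!
# Lipschitz estimate for the nonlinearity in the `C³` norm
-/

open Set MeasureTheory Topology Filter
open scoped ContDiff

namespace Pool.Agent.Work.MP_4a14ce_an

namespace Lip

/-- All admissible data for given `n` and `K`. -/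
structure Dat (n : ℕ) (K : ℝ) where
  u : ℝ → V n
  v : ℝ → V n
  p : ℝ
  m : ℝ
  q : ℝ
  l : ℝ
  S : ℝ
  hu : ContDiff ℝ ∞ u
  hv : ContDiff ℝ ∞ v
  pu : Function.Periodic u (2 * Real.pi)
  pv : Function.Periodic v (2 * Real.pi)
  hK : ∀ j ≤ 3, ∀ x, ‖iteratedDeriv j u x‖ ≤ K ∧ ‖iteratedDeriv j v x‖ ≤ K
  hp : |p| ≤ K
  hm : |m| ≤ K
  hq : |q| ≤ K
  hl : |l| ≤ K
  hS : ∀ j ≤ 3, ∀ x, ‖iteratedDeriv j u x - iteratedDeriv j v x‖ ≤ S
  hpq : |p - q| ≤ S
  hml : |m - l| ≤ S

variable {n : ℕ} {K : ℝ}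

lemma Dat.S_nonneg (d : Dat n K) : 0 ≤ d.S := (abs_nonneg _).trans d.hpq

/-- Uniformly bounded and Lipschitz pairs. -/
def Good {E : Type*} [NormedAddCommGroup E] (F G : Dat n K → ℝ → E) : Prop :=
  ∃ c : ℝ, 0 ≤ c ∧ ∀ d x, ‖F d x‖ ≤ c ∧ ‖G d x‖ ≤ c ∧ ‖F d x - G d x‖ ≤ c * d.S

section

variable {E : Type*} [NormedAddCommGroup E] {F G F' G' : Dat n K → ℝ → E}

lemma Good.congr (h : Good F G) (h1 : ∀ d x, F' d x = F d x) (h2 : ∀ d x, G' d x = G d x) :
    Good F' G' := by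
  obtain ⟨c, hc, h⟩ := h
  refine ⟨c, hc, fun d x => ?_⟩
  rw [h1, h2]
  exact h d x

lemma Good.add (h : Good F G) (h' : Good F' G') :
    Good (fun d x => F d x + F' d x) (fun d x => G d x + G' d x) := by
  obtain ⟨c, hc, h⟩ := h
  obtain ⟨c', hc', h'⟩ := h'
  refine ⟨c + c', by positivity, fun d x => ⟨?_, ?_, ?_⟩⟩
  · exact (norm_add_le _ _).trans (add_le_add (h d x).1 (h' d x).1)
  · exact (norm_add_le _ _).trans (add_le_add (h d x).2.1 (h' d x).2.1)
  · have e : F d x + F' d x - (G d x + G' d x) = (F d x - G d x) + (F' d x - G' d x) := by abel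
    rw [e]
    calc _ ≤ ‖F d x - G d x‖ + ‖F' d x - G' d x‖ := norm_add_le _ _
      _ ≤ c * d.S + c' * d.S := add_le_add (h d x).2.2 (h' d x).2.2
      _ = (c + c') * d.S := by ring

lemma Good.neg (h : Good F G) : Good (fun d x => - F d x) (fun d x => - G d x) := by
  obtain ⟨c, hc, h⟩ := h
  refine ⟨c, hc, fun d x => ⟨?_, ?_, ?_⟩⟩
  · rw [norm_neg]
    exact (h d x).1
  · rw [norm_neg]
    exact (h d x).2.1
  · have e : - F d x - - G d x = -(F d x - G d x) := by abel
    rw [e, norm_neg]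
    exact (h d x).2.2

lemma Good.sub (h : Good F G) (h' : Good F' G') :
    Good (fun d x => F d x - F' d x) (fun d x => G d x - G' d x) :=
  (h.add h'.neg).congr (fun _ _ => sub_eq_add_neg _ _) (fun _ _ => sub_eq_add_neg _ _)

lemma Good.smul [NormedSpace ℝ E] {f g : Dat n K → ℝ → ℝ} (h : Good f g) (h' : Good F G) :
    Good (fun d x => f d x • F d x) (fun d x => g d x • G d x) := by
  obtain ⟨c, hc, h⟩ := h
  obtain ⟨c', hc', h'⟩ := h'
  refine ⟨2 * c * c', by positivity, fun d x => ?_⟩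
  obtain ⟨h1, h2, h3⟩ := h d x
  obtain ⟨h1', h2', h3'⟩ := h' d x
  have hS := d.S_nonneg
  refine ⟨?_, ?_, ?_⟩
  · rw [norm_smul]
    have : ‖f d x‖ * ‖F d x‖ ≤ c * c' := mul_le_mul h1 h1' (norm_nonneg _) hc
    nlinarith [mul_nonneg hc hc']
  · rw [norm_smul]
    have : ‖g d x‖ * ‖G d x‖ ≤ c * c' := mul_le_mul h2 h2' (norm_nonneg _) hc
    nlinarith [mul_nonneg hc hc']
  · have e : f d x • F d x - g d x • G d x =
        f d x • (F d x - G d x) + (f d x - g d x) • G d x := by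
      rw [smul_sub, sub_smul]
      abel
    rw [e]
    calc _ ≤ ‖f d x • (F d x - G d x)‖ + ‖(f d x - g d x) • G d x‖ := norm_add_le _ _
      _ = ‖f d x‖ * ‖F d x - G d x‖ + ‖f d x - g d x‖ * ‖G d x‖ := by
          rw [norm_smul, norm_smul]
      _ ≤ c * (c' * d.S) + (c * d.S) * c' := by
          refine add_le_add (mul_le_mul h1 h3' (norm_nonneg _) hc)
            (mul_le_mul h3 h2' (norm_nonneg _) (by positivity))
      _ = 2 * c * c' * d.S := by ring

lemma Good.mul {f g f' g' : Dat n K → ℝ → ℝ} (h : Good f g) (h' : Good f' g') :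
    Good (fun d x => f d x * f' d x) (fun d x => g d x * g' d x) := h.smul h'

lemma good_const (a : E) : Good (fun (_ : Dat n K) _ => a) (fun _ _ => a) := by
  refine ⟨‖a‖, norm_nonneg _, fun d x => ⟨le_rfl, le_rfl, ?_⟩⟩
  rw [sub_self, norm_zero]
  exact mul_nonneg (norm_nonneg _) d.S_nonneg

lemma good_of (hF : ∀ d x, ‖F d x‖ ≤ K) (hG : ∀ d x, ‖G d x‖ ≤ K)
    (hFG : ∀ d x, ‖F d x - G d x‖ ≤ d.S) : Good F G := by
  refine ⟨|K| + 1, by positivity, fun d x => ⟨?_, ?_, ?_⟩⟩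
  · linarith [hF d x, le_abs_self K]
  · linarith [hG d x, le_abs_self K]
  · have := hFG d x
    have hS := d.S_nonneg
    nlinarith [abs_nonneg K]

end

lemma good_D (j : ℕ) (hj : j ≤ 3) :
    Good (fun (d : Dat n K) x => iteratedDeriv j d.u x) (fun d x => iteratedDeriv j d.v x) :=
  good_of (fun d x => (d.hK j hj x).1) (fun d x => (d.hK j hj x).2) fun d x => d.hS j hj x

lemma good_u : Good (fun (d : Dat n K) x => d.u x) (fun d x => d.v x) :=
  (good_D 0 (by norm_num)).congr (fun d x => by simp) (fun d x => by simp)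

lemma good_p : Good (fun (d : Dat n K) _ => d.p) (fun d _ => d.q) :=
  good_of (fun d _ => d.hp) (fun d _ => d.hq) fun d _ => d.hpq

lemma good_m : Good (fun (d : Dat n K) _ => d.m) (fun d _ => d.l) :=
  good_of (fun d _ => d.hm) (fun d _ => d.hl) fun d _ => d.hml

/-- coordinates -/
lemma Good.coord {F G : Dat n K → ℝ → V n} (h : Good F G) (i : Fin (n + 1)) :
    Good (fun d x => F d x i) (fun d x => G d x i) := by
  obtain ⟨c, hc, h⟩ := h
  refine ⟨c, hc, fun d x => ⟨?_, ?_, ?_⟩⟩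
  · exact (norm_le_pi_norm _ i).trans (h d x).1
  · exact (norm_le_pi_norm _ i).trans (h d x).2.1
  · exact (norm_le_pi_norm (F d x - G d x) i).trans (h d x).2.2

lemma Good.sum {ι : Type*} (s : Finset ι) {f g : ι → Dat n K → ℝ → ℝ}
    (h : ∀ i, Good (f i) (g i)) :
    Good (fun d x => ∑ i ∈ s, f i d x) (fun d x => ∑ i ∈ s, g i d x) := by
  classical
  induction s using Finset.induction_on with
  | empty => exact (good_const (0 : ℝ)).congr (fun d x => by simp) (fun d x => by simp)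
  | insert a s ha ih =>
    exact ((h a).add ih).congr (fun d x => Finset.sum_insert ha) (fun d x => Finset.sum_insert ha)

lemma Good.B {F G F' G' : Dat n K → ℝ → V n} (σ : ℝ) (h : Good F G) (h' : Good F' G') :
    Good (fun d x => B σ (F d x) (F' d x)) (fun d x => B σ (G d x) (G' d x)) :=
  ((good_const σ).mul ((h.coord 0).mul (h'.coord 0))).add
    (Good.sum Finset.univ fun i : Fin n => (h.coord i.succ).mul (h'.coord i.succ))

lemma two_pi_pos : 0 < 2 * Real.pi := by positivity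

lemma Good.per {F G : Dat n K → ℝ → ℝ} (h : Good F G) (hF : ∀ d, Continuous (F d))
    (hG : ∀ d, Continuous (G d)) :
    Good (fun d _ => per (F d)) (fun d _ => per (G d)) := by
  obtain ⟨c, hc, h⟩ := h
  have hp := two_pi_pos
  refine ⟨c * (2 * Real.pi), by positivity, fun d _ => ⟨?_, ?_, ?_⟩⟩
  · have := intervalIntegral.norm_integral_le_of_norm_le_const (a := 0) (b := 2 * Real.pi)
      (f := F d) (C := c) (fun x _ => (h d x).1)
    rwa [sub_zero, abs_of_pos hp] at this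
  · have := intervalIntegral.norm_integral_le_of_norm_le_const (a := 0) (b := 2 * Real.pi)
      (f := G d) (C := c) (fun x _ => (h d x).2.1)
    rwa [sub_zero, abs_of_pos hp] at this
  · unfold MP_4a14ce_an.per
    rw [← intervalIntegral.integral_sub ((hF d).intervalIntegrable _ _)
      ((hG d).intervalIntegrable _ _)]
    have := intervalIntegral.norm_integral_le_of_norm_le_const (a := 0) (b := 2 * Real.pi)
      (f := fun x => F d x - G d x) (C := c * d.S) (fun x _ => (h d x).2.2)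
    rw [sub_zero, abs_of_pos hp] at this
    linarith

/-- the mean free primitive is periodic -/
lemma prim_periodic {f : ℝ → ℝ} (hf : Continuous f) (hp : Function.Periodic f (2 * Real.pi)) :
    Function.Periodic (fun x => ∫ y in (0 : ℝ)..x, (f y - (2 * Real.pi)⁻¹ * per f))
      (2 * Real.pi) := by
  intro x
  have hg : Function.Periodic (fun y => f y - (2 * Real.pi)⁻¹ * per f) (2 * Real.pi) :=
    fun y => by simp only [hp y]
  have hgc : Continuous (fun y => f y - (2 * Real.pi)⁻¹ * per f) := hf.sub continuous_const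
  have h0 : ∫ y in x..x + 2 * Real.pi, (f y - (2 * Real.pi)⁻¹ * per f) = 0 := by
    rw [hg.intervalIntegral_add_eq x 0, zero_add, intervalIntegral.integral_sub
      (hf.intervalIntegrable _ _) (continuous_const.intervalIntegrable _ _)]
    show per f - _ = 0
    rw [intervalIntegral.integral_const, sub_zero, smul_eq_mul, ← mul_assoc,
      mul_inv_cancel₀ two_pi_pos.ne', one_mul, sub_self]
  show ∫ y in (0 : ℝ)..(x + 2 * Real.pi), (f y - (2 * Real.pi)⁻¹ * per f) =
    ∫ y in (0 : ℝ)..x, (f y - (2 * Real.pi)⁻¹ * per f)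
  rw [← intervalIntegral.integral_add_adjacent_intervals (hgc.intervalIntegrable 0 x)
    (hgc.intervalIntegrable x (x + 2 * Real.pi)), h0, add_zero]

lemma Good.prim {F G : Dat n K → ℝ → ℝ} (h : Good F G) (hF : ∀ d, Continuous (F d))
    (hG : ∀ d, Continuous (G d)) (hFp : ∀ d, Function.Periodic (F d) (2 * Real.pi))
    (hGp : ∀ d, Function.Periodic (G d) (2 * Real.pi)) :
    Good (fun d x => ∫ y in (0 : ℝ)..x, (F d y - (2 * Real.pi)⁻¹ * MP_4a14ce_an.per (F d)))
      (fun d x => ∫ y in (0 : ℝ)..x, (G d y - (2 * Real.pi)⁻¹ * MP_4a14ce_an.per (G d))) := by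
  obtain ⟨c, hc, h⟩ := h.sub ((good_const (2 * Real.pi)⁻¹).mul (h.per hF hG))
  have hp := two_pi_pos
  have key : ∀ (d : Dat n K) (x : ℝ), x ∈ Ico 0 (2 * Real.pi) →
      ‖∫ y in (0 : ℝ)..x, (F d y - (2 * Real.pi)⁻¹ * MP_4a14ce_an.per (F d))‖ ≤
        c * (2 * Real.pi) ∧
      ‖∫ y in (0 : ℝ)..x, (G d y - (2 * Real.pi)⁻¹ * MP_4a14ce_an.per (G d))‖ ≤
        c * (2 * Real.pi) ∧
      ‖(∫ y in (0 : ℝ)..x, (F d y - (2 * Real.pi)⁻¹ * MP_4a14ce_an.per (F d))) -
        ∫ y in (0 : ℝ)..x, (G d y - (2 * Real.pi)⁻¹ * MP_4a14ce_an.per (G d))‖ ≤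
        c * (2 * Real.pi) * d.S := by
    intro d x hx
    have hS := d.S_nonneg
    have hx1 : |x - 0| ≤ 2 * Real.pi := by
      rw [sub_zero, abs_of_nonneg hx.1]
      exact hx.2.le
    refine ⟨?_, ?_, ?_⟩
    · exact (intervalIntegral.norm_integral_le_of_norm_le_const fun y _ => (h d y).1).trans
        (mul_le_mul_of_nonneg_left hx1 hc)
    · exact (intervalIntegral.norm_integral_le_of_norm_le_const fun y _ => (h d y).2.1).trans
        (mul_le_mul_of_nonneg_left hx1 hc)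
    · have i1 : IntervalIntegrable
          (fun y => F d y - (2 * Real.pi)⁻¹ * MP_4a14ce_an.per (F d)) volume 0 x :=
        ((hF d).sub continuous_const).intervalIntegrable _ _
      have i2 : IntervalIntegrable
          (fun y => G d y - (2 * Real.pi)⁻¹ * MP_4a14ce_an.per (G d)) volume 0 x :=
        ((hG d).sub continuous_const).intervalIntegrable _ _
      rw [← intervalIntegral.integral_sub i1 i2]
      refine (intervalIntegral.norm_integral_le_of_norm_le_const fun y _ => (h d y).2.2).trans ?_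
      have := mul_le_mul_of_nonneg_left hx1 (mul_nonneg hc hS)
      linarith
  refine ⟨c * (2 * Real.pi), by positivity, fun d x => ?_⟩
  have hper : Function.Periodic (fun x =>
      ((∫ y in (0 : ℝ)..x, (F d y - (2 * Real.pi)⁻¹ * MP_4a14ce_an.per (F d))),
        ∫ y in (0 : ℝ)..x, (G d y - (2 * Real.pi)⁻¹ * MP_4a14ce_an.per (G d))))
      (2 * Real.pi) := by
    intro y
    have h1 := prim_periodic (hF d) (hFp d) y
    have h2 := prim_periodic (hG d) (hGp d) y
    exact Prod.ext h1 h2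
  obtain ⟨y, hy, hxy⟩ := hper.exists_mem_Ico₀ hp x
  have h1 := congrArg Prod.fst hxy
  have h2 := congrArg Prod.snd hxy
  simp only at h1 h2 ⊢
  rw [h1, h2]
  exact key d y hy

/-! ### continuity and periodicity -/

lemma cont_D {u : ℝ → V n} (hu : ContDiff ℝ ∞ u) (j : ℕ) : Continuous (iteratedDeriv j u) :=
  hu.continuous_iteratedDeriv j (by exact_mod_cast le_top)

lemma per_D {u : ℝ → V n} (hu : Function.Periodic u (2 * Real.pi)) (j : ℕ) :
    Function.Periodic (iteratedDeriv j u) (2 * Real.pi) := by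
  have h1 := iteratedDeriv_comp_add_const j u (2 * Real.pi)
  have h2 : (fun z => u (z + 2 * Real.pi)) = u := funext hu
  rw [h2] at h1
  intro x
  exact (congrFun h1 x).symm

lemma cont_B (σ : ℝ) {f g : ℝ → V n} (hf : Continuous f) (hg : Continuous g) :
    Continuous fun x => MP_4a14ce_an.B σ (f x) (g x) := by
  unfold MP_4a14ce_an.B
  fun_prop

lemma cont_hh (σ p m : ℝ) {u : ℝ → V n} (hu : ContDiff ℝ ∞ u) : Continuous (hh σ p m u) := by
  have h2 := cont_D hu 2
  have h3 := cont_D hu 3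
  have b22 := cont_B σ h2 h2
  have b33 := cont_B σ h3 h3
  unfold hh MP_4a14ce_an.eta MP_4a14ce_an.rho
  fun_prop

lemma per_hh (σ p m : ℝ) {u : ℝ → V n} (hu : Function.Periodic u (2 * Real.pi)) :
    Function.Periodic (hh σ p m u) (2 * Real.pi) := by
  intro x
  unfold hh MP_4a14ce_an.eta MP_4a14ce_an.rho
  rw [per_D hu 2 x, per_D hu 3 x]

/-! ### the nonlinear terms -/

variable (σ : ℝ)

lemma good_rho : Good (fun (d : Dat n K) => rho σ d.p d.u) (fun d => rho σ d.q d.v) :=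
  (((good_D 2 (by norm_num)).B σ (good_D 2 (by norm_num))).sub
    ((good_const σ).mul (good_p.mul good_p))).congr
    (fun d x => by simp only [rho, sq]) (fun d x => by simp only [rho, sq])

lemma good_rhox : Good (fun (d : Dat n K) => rhox σ d.u) (fun d => rhox σ d.v) :=
  (good_const 2).mul ((good_D 2 (by norm_num)).B σ (good_D 3 (by norm_num)))

lemma good_rhox0 : Good (fun (d : Dat n K) _ => rhox σ d.u 0) (fun d _ => rhox σ d.v 0) := by
  obtain ⟨c, hc, h⟩ := good_rhox (n := n) (K := K) σ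
  exact ⟨c, hc, fun d _ => h d 0⟩

lemma good_eta : Good (fun (d : Dat n K) => eta σ d.p d.u) (fun d => eta σ d.q d.v) :=
  ((((good_D 3 (by norm_num)).B σ (good_D 3 (by norm_num))).sub
    (((good_const (2 * σ)).mul good_p).mul
      ((good_D 2 (by norm_num)).B σ (good_D 2 (by norm_num))))).add
    ((good_p.mul good_p).mul good_p)).congr
    (fun d x => by simp only [eta]; ring) (fun d x => by simp only [eta]; ring)

lemma good_hh : Good (fun (d : Dat n K) => hh σ d.p d.m d.u) (fun d => hh σ d.q d.l d.v) :=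
  (((((good_const 2).mul good_m).mul (good_eta σ)).sub
    (((good_const 3).mul (good_m.mul good_m)).mul ((good_rho σ).mul (good_rho σ)))).sub
    ((good_const (2 * σ - 1)).mul (good_rho σ))).congr
    (fun d x => by simp only [hh]; ring) (fun d x => by simp only [hh]; ring)

lemma good_mu : Good (fun (d : Dat n K) _ => mu σ d.p d.m d.u) (fun d _ => mu σ d.q d.l d.v) :=
  (good_const (2 * Real.pi)⁻¹).mul ((good_hh σ).per (fun d => cont_hh σ _ _ d.hu)
    (fun d => cont_hh σ _ _ d.hv))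

lemma good_prim : Good
    (fun (d : Dat n K) x => ∫ y in (0 : ℝ)..x, (hh σ d.p d.m d.u y - mu σ d.p d.m d.u))
    (fun d x => ∫ y in (0 : ℝ)..x, (hh σ d.q d.l d.v y - mu σ d.q d.l d.v)) :=
  (good_hh σ).prim (fun d => cont_hh σ _ _ d.hu) (fun d => cont_hh σ _ _ d.hv)
    (fun d => per_hh σ _ _ d.pu) (fun d => per_hh σ _ _ d.pv)

lemma good_alpha : Good (fun (d : Dat n K) => alpha σ d.p d.m d.u)
    (fun d => alpha σ d.q d.l d.v) :=
  (((((good_const (-4)).mul good_m).mul (good_rhox σ)).add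
    (good_m.mul (good_rhox0 σ))).add (good_prim σ)).congr
    (fun d x => by simp only [alpha]) (fun d x => by simp only [alpha])

lemma good_beta : Good (fun (d : Dat n K) => beta σ d.p d.m d.u)
    (fun d => beta σ d.q d.l d.v) :=
  (((((good_const 3).mul good_m).mul (good_rho σ))).add
    ((good_const (2 * σ - 1)).mul good_p)).congr
    (fun d x => by simp only [beta]) (fun d x => by simp only [beta])

lemma good_rhs : Good
    (fun (d : Dat n K) x => rhs σ d.p d.m d.u x + (2 : ℝ) • iteratedDeriv 4 d.u x)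
    (fun d x => rhs σ d.q d.l d.v x + (2 : ℝ) • iteratedDeriv 4 d.v x) := by
  have h1 : Good (fun (d : Dat n K) x => (2 * σ * d.p) • iteratedDeriv 2 d.u x)
      (fun d x => (2 * σ * d.q) • iteratedDeriv 2 d.v x) :=
    ((good_const (2 * σ)).mul good_p).smul (good_D 2 (by norm_num))
  have h2 : Good (fun (d : Dat n K) x => alpha σ d.p d.m d.u x • iteratedDeriv 1 d.u x)
      (fun d x => alpha σ d.q d.l d.v x • iteratedDeriv 1 d.v x) :=
    (good_alpha σ).smul (good_D 1 (by norm_num))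
  have h3 : Good (fun (d : Dat n K) x => (2 * σ * rho σ d.p d.u x) • d.u x)
      (fun d x => (2 * σ * rho σ d.q d.v x) • d.v x) :=
    ((good_const (2 * σ)).mul (good_rho σ)).smul good_u
  have h4 : Good (fun (d : Dat n K) x => beta σ d.p d.m d.u x •
      (iteratedDeriv 2 d.u x + (σ * d.p) • d.u x))
      (fun d x => beta σ d.q d.l d.v x • (iteratedDeriv 2 d.v x + (σ * d.q) • d.v x)) :=
    (good_beta σ).smul ((good_D 2 (by norm_num)).add (((good_const σ).mul good_p).smul good_u))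
  refine (((h2.sub h1).add h3).sub h4).congr (fun d x => ?_) (fun d x => ?_)
  · simp only [rhs]
    module
  · simp only [rhs]
    module

end Lip

open Lip in
theorem claimLip : ClaimLip := by
  intro n σ K _
  obtain ⟨c1, hc1, h1⟩ := good_rhs (n := n) (K := K) σ
  obtain ⟨c2, hc2, h2⟩ := (((good_const 2).mul good_p).mul (good_mu (n := n) (K := K) σ))
  obtain ⟨c3, hc3, h3⟩ := (((good_const 2).mul good_m).mul (good_mu (n := n) (K := K) σ))
  refine ⟨c1 + c2 + c3, ?_⟩
  intro u v p m q l S hu hv pu pv hK hp hm hq hl hS hpq hml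
  set d : Dat n K := ⟨u, v, p, m, q, l, S, hu, hv, pu, pv, hK, hp, hm, hq, hl, hS, hpq, hml⟩
    with hd
  have hS0 : 0 ≤ S := (abs_nonneg _).trans hpq
  refine ⟨fun x => ?_, ?_, ?_⟩
  · have := (h1 d x).2.2
    refine this.trans ?_
    show c1 * S ≤ _
    nlinarith [mul_nonneg hc2 hS0, mul_nonneg hc3 hS0]
  · have := (h2 d 0).2.2
    refine this.trans ?_
    show c2 * S ≤ _
    nlinarith [mul_nonneg hc1 hS0, mul_nonneg hc3 hS0]
  · have := (h3 d 0).2.2
    refine this.trans ?_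
    show c3 * S ≤ _
    nlinarith [mul_nonneg hc1 hS0, mul_nonneg hc2 hS0]

end Pool.Agent.Work.MP_4a14ce_an

end

section

/-!
# MP_4a14ce_an, item T6: flow of a scalar time dependent periodic vector field
-/

open Set MeasureTheory Topology Filter
open scoped ContDiff

namespace Pool.Agent.Work.MP_4a14ce_an

theorem ode_per {f : ℝ → ℝ} {T : ℝ} (h : Function.Periodic f T) (j : ℕ) :
    Function.Periodic (iteratedDeriv j f) T := by
  intro x
  have h1 : (fun y => f (y + T)) = f := funext h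
  have h2 := congrFun (iteratedDeriv_comp_add_const j f T) x
  rw [h1] at h2
  exact h2.symm

/-- jointly continuous periodic functions are bounded on bounded time intervals -/
theorem ode_bd {f : ℝ → ℝ → ℝ} (hf : JS (Ici 0) f)
    (hper : ∀ t ∈ Ici (0 : ℝ), Function.Periodic (f t) (2 * Real.pi)) (T : ℝ) :
    ∃ M : ℝ, 0 ≤ M ∧ ∀ t ∈ Icc 0 T, ∀ y, |f t y| ≤ M := by
  have hpi : (0 : ℝ) < 2 * Real.pi := by positivity
  have hc : IsCompact (Icc 0 T ×ˢ Icc 0 (2 * Real.pi)) := isCompact_Icc.prod isCompact_Icc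
  have hcont : ContinuousOn (fun z : ℝ × ℝ => f z.1 z.2) (Icc 0 T ×ˢ Icc 0 (2 * Real.pi)) :=
    (ContDiffOn.continuousOn hf).mono (prod_mono Icc_subset_Ici_self (subset_univ _))
  obtain ⟨C, hC⟩ := hc.exists_bound_of_continuousOn hcont
  refine ⟨max C 0, le_max_right _ _, fun t ht y => ?_⟩
  have h1 := hper t ht.1
  have h2 : toIcoMod hpi 0 y = y - toIcoDiv hpi 0 y • (2 * Real.pi) := rfl
  have h3 : f t y = f t (toIcoMod hpi 0 y) := by rw [h2, h1.sub_zsmul_eq]
  have h4 := toIcoMod_mem_Ico hpi 0 y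
  rw [zero_add] at h4
  rw [h3, ← Real.norm_eq_abs]
  exact (hC (t, toIcoMod hpi 0 y) ⟨ht, h4.1, h4.2.le⟩).trans (le_max_left _ _)

/-- all the bounds that we need -/
theorem ode_bounds (hS : JSSlice1) {b : ℝ → ℝ → ℝ} (hb : JS (Ici 0) b)
    (hper : ∀ t ∈ Ici (0 : ℝ), Function.Periodic (b t) (2 * Real.pi)) (T : ℝ) :
    ∃ M : ℝ, 0 ≤ M ∧ ∀ t ∈ Icc 0 T, ∀ y, |b t y| ≤ M ∧ |iteratedDeriv 1 (b t) y| ≤ M ∧
      |iteratedDeriv 2 (b t) y| ≤ M := by
  obtain ⟨M0, h0, k0⟩ := ode_bd hb hper T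
  obtain ⟨M1, h1, k1⟩ := ode_bd ((hS (Ici 0) b (Or.inl ⟨0, rfl⟩) hb).2 1)
    (fun t ht => ode_per (hper t ht) 1) T
  obtain ⟨M2, h2, k2⟩ := ode_bd ((hS (Ici 0) b (Or.inl ⟨0, rfl⟩) hb).2 2)
    (fun t ht => ode_per (hper t ht) 2) T
  refine ⟨M0 + M1 + M2, by positivity, fun t ht y => ⟨?_, ?_, ?_⟩⟩
  · have := k0 t ht y; linarith
  · have := k1 t ht y; linarith
  · have := k2 t ht y; linarith

theorem ode_lip {f : ℝ → ℝ} (hf : ContDiff ℝ ∞ f) {M : ℝ} (hM : 0 ≤ M)
    (h : ∀ y, |iteratedDeriv 1 f y| ≤ M) : LipschitzWith (Real.toNNReal M) f := by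
  refine lipschitzWith_of_nnnorm_deriv_le (hf.differentiable (by simp)) fun x => ?_
  rw [← NNReal.coe_le_coe, coe_nnnorm, Real.coe_toNNReal _ hM, Real.norm_eq_abs]
  have := h x
  rwa [iteratedDeriv_one] at this

/-- second order Taylor bound -/
theorem ode_taylor {f : ℝ → ℝ} (hf : ContDiff ℝ ∞ f) {M : ℝ} (hM : 0 ≤ M)
    (h : ∀ y, |iteratedDeriv 2 f y| ≤ M) (y z : ℝ) :
    |f z - f y - iteratedDeriv 1 f y * (z - y)| ≤ M * |z - y| ^ 2 := by
  have hd : ∀ w, HasDerivAt f (iteratedDeriv 1 f w) w := by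
    intro w
    rw [iteratedDeriv_one]
    exact (hf.differentiable (by simp) w).hasDerivAt
  have hd1 : ∀ w, HasDerivAt (iteratedDeriv 1 f) (iteratedDeriv 2 f w) w := by
    intro w
    have h1 : Differentiable ℝ (iteratedDeriv 1 f) :=
      hf.differentiable_iteratedDeriv 1 (by exact_mod_cast ENat.natCast_lt_top 1)
    have h2 : iteratedDeriv 2 f = deriv (iteratedDeriv 1 f) := iteratedDeriv_succ
    rw [h2]
    exact (h1 w).hasDerivAt
  have hlip : ∀ w, |iteratedDeriv 1 f w - iteratedDeriv 1 f y| ≤ M * |w - y| := by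
    intro w
    have := Convex.norm_image_sub_le_of_norm_hasDerivWithin_le (s := univ) (C := M)
      (fun w _ => (hd1 w).hasDerivWithinAt) (fun w _ => by rw [Real.norm_eq_abs]; exact h w)
      convex_univ (mem_univ y) (mem_univ w)
    rwa [Real.norm_eq_abs, Real.norm_eq_abs] at this
  have h3 := Convex.norm_image_sub_le_of_norm_hasDerivWithin_le (s := uIcc y z)
    (C := M * |z - y|) (f := fun w => f w - iteratedDeriv 1 f y * (w - y))
    (f' := fun w => iteratedDeriv 1 f w - iteratedDeriv 1 f y)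
    (fun w _ => by
      have := (hd w).sub (((hasDerivAt_id w).sub_const y).const_mul (iteratedDeriv 1 f y))
      rw [mul_one] at this
      exact this.hasDerivWithinAt)
    (fun w hw => by
      rw [Real.norm_eq_abs]
      refine (hlip w).trans (mul_le_mul_of_nonneg_left ?_ hM)
      exact abs_sub_left_of_mem_uIcc hw)
    (convex_uIcc y z) left_mem_uIcc right_mem_uIcc
  rw [Real.norm_eq_abs, Real.norm_eq_abs] at h3
  calc |f z - f y - iteratedDeriv 1 f y * (z - y)|
      = |f z - iteratedDeriv 1 f y * (z - y) - (f y - iteratedDeriv 1 f y * (y - y))| := by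
        congr 1; ring
    _ ≤ M * |z - y| * |z - y| := h3
    _ = M * |z - y| ^ 2 := by ring

/-- Gronwall -/
theorem ode_dist {b : ℝ → ℝ → ℝ} {T M : ℝ} (hM : 0 ≤ M)
    (hlip : ∀ t ∈ Icc 0 T, LipschitzWith (Real.toNNReal M) (b t)) {y z : ℝ → ℝ}
    (hyc : ContinuousOn y (Icc 0 T)) (hzc : ContinuousOn z (Icc 0 T))
    (hy : ∀ t ∈ Ico 0 T, HasDerivWithinAt y (- b t (y t)) (Ici t) t)
    (hz : ∀ t ∈ Ico 0 T, HasDerivWithinAt z (- b t (z t)) (Ici t) t) :
    ∀ t ∈ Icc 0 T, |y t - z t| ≤ |y 0 - z 0| * Real.exp (M * t) := by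
  intro t ht
  have h1 := dist_le_of_trajectories_ODE_of_mem (v := fun t y => - b t y) (s := fun _ => univ)
    (K := Real.toNNReal M) (f := y) (g := z) (a := 0) (b := T) (δ := |y 0 - z 0|)
    (fun t ht => by
      have h2 : LipschitzWith (Real.toNNReal M) fun y => - b t y :=
        (hlip t (Ico_subset_Icc_self ht)).neg
      exact h2.lipschitzOnWith)
    hyc hy (fun _ _ => mem_univ _) hzc hz (fun _ _ => mem_univ _) (by rw [Real.dist_eq]) t ht
  rw [Real.dist_eq, Real.coe_toNNReal _ hM, sub_zero] at h1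
  exact h1

theorem ode_right {y : ℝ → ℝ} {y' t : ℝ} (ht : 0 ≤ t) (h : HasDerivWithinAt y y' (Ici 0) t) :
    HasDerivWithinAt y y' (Ici t) t := h.mono (Ici_subset_Ici.2 ht)

theorem ode_cont {y y' : ℝ → ℝ} (h : ∀ t ∈ Ici (0 : ℝ), HasDerivWithinAt y (y' t) (Ici 0) t) :
    ContinuousOn y (Ici 0) := fun t ht => (h t ht).continuousWithinAt

theorem ode_slip (hS : JSSlice1) {b : ℝ → ℝ → ℝ} (hb : JS (Ici 0) b)
    {T M : ℝ} (hM : 0 ≤ M)
    (h : ∀ t ∈ Icc 0 T, ∀ y, |b t y| ≤ M ∧ |iteratedDeriv 1 (b t) y| ≤ M ∧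
      |iteratedDeriv 2 (b t) y| ≤ M) :
    ∀ t ∈ Icc 0 T, LipschitzWith (Real.toNNReal M) (b t) := fun t ht =>
  ode_lip ((hS (Ici 0) b (Or.inl ⟨0, rfl⟩) hb).1 t ht.1) hM fun y => (h t ht y).2.1

/-- uniqueness -/
theorem ode_unique (hS : JSSlice1) {b : ℝ → ℝ → ℝ} (hb : JS (Ici 0) b)
    (hper : ∀ t ∈ Ici (0 : ℝ), Function.Periodic (b t) (2 * Real.pi)) {y z : ℝ → ℝ}
    (hy : ∀ t ∈ Ici (0 : ℝ), HasDerivWithinAt y (- b t (y t)) (Ici 0) t)
    (hz : ∀ t ∈ Ici (0 : ℝ), HasDerivWithinAt z (- b t (z t)) (Ici 0) t) (h0 : y 0 = z 0) :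
    ∀ t ∈ Ici (0 : ℝ), y t = z t := by
  intro t ht
  obtain ⟨M, hM, hbd⟩ := ode_bounds hS hb hper t
  have h1 := ode_dist hM (ode_slip hS hb hM hbd)
    ((ode_cont hy).mono Icc_subset_Ici_self) ((ode_cont hz).mono Icc_subset_Ici_self)
    (fun s hs => ode_right hs.1 (hy s hs.1)) (fun s hs => ode_right hs.1 (hz s hs.1)) t
    ⟨ht, le_rfl⟩
  rw [h0, sub_self, abs_zero, zero_mul] at h1
  have h2 := abs_nonneg (y t - z t)
  have h3 : |y t - z t| = 0 := le_antisymm h1 h2
  exact sub_eq_zero.1 (abs_eq_zero.1 h3)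

theorem claimODEUnique (hS : JSSlice1) : ClaimODEUnique := by
  intro b hb hper Y Y' h0 hY hY' t ht
  funext x
  exact ode_unique hS hb hper (fun t ht => hY t ht x) (fun t ht => hY' t ht x)
    (congrFun h0 x) t ht

/-- existence on compact intervals -/
theorem ode_exists_Icc (hS : JSSlice1) {b : ℝ → ℝ → ℝ} (hb : JS (Ici 0) b)
    (hper : ∀ t ∈ Ici (0 : ℝ), Function.Periodic (b t) (2 * Real.pi)) {T : ℝ} (hT : 0 ≤ T)
    (y0 : ℝ) :
    ∃ y : ℝ → ℝ, y 0 = y0 ∧ ∀ t ∈ Icc 0 T, HasDerivWithinAt y (- b t (y t)) (Icc 0 T) t := by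
  obtain ⟨M, hM, hbd⟩ := ode_bounds hS hb hper T
  have hslip := ode_slip hS hb hM hbd
  have hpl : IsPicardLindelof (fun t y => - b t y) (tmin := 0) (tmax := T) ⟨0, le_rfl, hT⟩ y0
      (Real.toNNReal (M * T)) 0 (Real.toNNReal M) (Real.toNNReal M) := by
    refine ⟨fun t ht => ?_, fun y _ => ?_, fun t ht y _ => ?_, ?_⟩
    · have h2 : LipschitzWith (Real.toNNReal M) fun y => - b t y := (hslip t ht).neg
      exact h2.lipschitzOnWith
    · have h1 : ContinuousOn (fun z : ℝ × ℝ => b z.1 z.2) (Ici 0 ×ˢ univ) :=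
        ContDiffOn.continuousOn hb
      have h2 : ContinuousOn (fun t : ℝ => ((t, y) : ℝ × ℝ)) (Icc 0 T) := by fun_prop
      have h3 := h1.comp h2 (fun t ht => ⟨ht.1, mem_univ _⟩)
      exact h3.neg
    · rw [norm_neg, Real.norm_eq_abs, Real.coe_toNNReal _ hM]
      exact (hbd t ht y).1
    · rw [Real.coe_toNNReal _ hM, Real.coe_toNNReal _ (by positivity)]
      simp [hT]
  obtain ⟨α, h1, h2⟩ := hpl.exists_eq_forall_mem_Icc_hasDerivWithinAt₀
  exact ⟨α, h1, h2⟩

/-- right derivative of a solution on `[0, T]` -/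
theorem ode_right' {y : ℝ → ℝ} {y' t T : ℝ} (ht : t ∈ Ico 0 T)
    (h : HasDerivWithinAt y y' (Icc 0 T) t) : HasDerivWithinAt y y' (Ici t) t := by
  refine h.mono_of_mem_nhdsWithin ?_
  exact mem_of_superset (Icc_mem_nhdsGE ht.2) (Icc_subset_Icc_left ht.1)

/-- global existence -/
theorem ode_exists (hS : JSSlice1) {b : ℝ → ℝ → ℝ} (hb : JS (Ici 0) b)
    (hper : ∀ t ∈ Ici (0 : ℝ), Function.Periodic (b t) (2 * Real.pi)) (y0 : ℝ) :
    ∃ y : ℝ → ℝ, y 0 = y0 ∧
      ∀ t ∈ Ici (0 : ℝ), HasDerivWithinAt y (- b t (y t)) (Ici 0) t := by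
  have hex : ∀ N : ℕ, ∃ y : ℝ → ℝ, y 0 = y0 ∧ ∀ t ∈ Icc 0 ((N : ℝ) + 1),
      HasDerivWithinAt y (- b t (y t)) (Icc 0 ((N : ℝ) + 1)) t := fun N =>
    ode_exists_Icc hS hb hper (by positivity) y0
  choose a ha0 ha using hex
  have hcompat : ∀ (N K : ℕ) (s : ℝ), 0 ≤ s → s ≤ N + 1 → s ≤ K + 1 → a N s = a K s := by
    intro N K s hs h1 h2
    obtain ⟨M, hM, hbd⟩ := ode_bounds hS hb hper s
    have hNsub : Icc 0 s ⊆ Icc 0 ((N : ℝ) + 1) := Icc_subset_Icc_right h1
    have hKsub : Icc 0 s ⊆ Icc 0 ((K : ℝ) + 1) := Icc_subset_Icc_right h2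
    have h3 := ode_dist hM (ode_slip hS hb hM hbd) (y := a N) (z := a K)
      (fun t ht => ((ha N t (hNsub ht)).continuousWithinAt).mono hNsub)
      (fun t ht => ((ha K t (hKsub ht)).continuousWithinAt).mono hKsub)
      (fun t ht => ode_right' ⟨ht.1, lt_of_lt_of_le ht.2 h1⟩ (ha N t (hNsub ⟨ht.1, ht.2.le⟩)))
      (fun t ht => ode_right' ⟨ht.1, lt_of_lt_of_le ht.2 h2⟩ (ha K t (hKsub ⟨ht.1, ht.2.le⟩))) s
      ⟨hs, le_rfl⟩
    rw [ha0, ha0, sub_self, abs_zero, zero_mul] at h3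
    exact sub_eq_zero.1 (abs_eq_zero.1 (le_antisymm h3 (abs_nonneg _)))
  refine ⟨fun t => a ⌊t⌋₊ t, by simpa using ha0 0, fun t ht => ?_⟩
  have ht0 : 0 ≤ t := ht
  have ht1 : t < (⌊t⌋₊ : ℝ) + 1 := Nat.lt_floor_add_one t
  have h1 := ha ⌊t⌋₊ t ⟨ht0, ht1.le⟩
  have h2 : HasDerivWithinAt (a ⌊t⌋₊) (- b t (a ⌊t⌋₊ t)) (Ici 0) t := by
    refine h1.mono_of_mem_nhdsWithin ?_
    rw [← Ici_inter_Iic]
    exact inter_mem self_mem_nhdsWithin (mem_nhdsWithin_of_mem_nhds (Iic_mem_nhds ht1))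
  refine h2.congr_of_eventuallyEq ?_ rfl
  have h3 : Ici 0 ∩ Iio ((⌊t⌋₊ : ℝ) + 1) ∈ 𝓝[Ici 0] t :=
    inter_mem self_mem_nhdsWithin (mem_nhdsWithin_of_mem_nhds (Iio_mem_nhds ht1))
  filter_upwards [h3] with s hs
  exact hcompat ⌊s⌋₊ ⌊t⌋₊ s hs.1 (Nat.lt_floor_add_one s).le (le_of_lt hs.2)

/-- a family of solutions -/
structure OdeFam (b : ℝ → ℝ → ℝ) (Y0 : ℝ → ℝ) (Y : ℝ → ℝ → ℝ) : Prop where
  start : ∀ x, Y 0 x = Y0 x
  eqn : ∀ t ∈ Ici (0 : ℝ), ∀ x, HasDerivWithinAt (fun s => Y s x) (- b t (Y t x)) (Ici 0) t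

theorem ode_lip_x (hS : JSSlice1) {b : ℝ → ℝ → ℝ} (hb : JS (Ici 0) b)
    {Y0 : ℝ → ℝ} {Y : ℝ → ℝ → ℝ}
    (hY : OdeFam b Y0 Y) {T M : ℝ} (hM : 0 ≤ M)
    (hbd : ∀ t ∈ Icc 0 T, ∀ y, |b t y| ≤ M ∧ |iteratedDeriv 1 (b t) y| ≤ M ∧
      |iteratedDeriv 2 (b t) y| ≤ M) (x x' : ℝ) :
    ∀ t ∈ Icc 0 T, |Y t x - Y t x'| ≤ |Y0 x - Y0 x'| * Real.exp (M * t) := by
  intro t ht
  have h1 := ode_dist hM (ode_slip hS hb hM hbd) (y := fun s => Y s x) (z := fun s => Y s x')
    ((ode_cont fun t ht => hY.eqn t ht x).mono Icc_subset_Ici_self)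
    ((ode_cont fun t ht => hY.eqn t ht x').mono Icc_subset_Ici_self)
    (fun s hs => ode_right hs.1 (hY.eqn s hs.1 x)) (fun s hs => ode_right hs.1 (hY.eqn s hs.1 x'))
    t ht
  simp only [hY.start] at h1
  exact h1

/-- joint continuity -/
theorem ode_joint (hS : JSSlice1) {b : ℝ → ℝ → ℝ} (hb : JS (Ici 0) b)
    (hper : ∀ t ∈ Ici (0 : ℝ), Function.Periodic (b t) (2 * Real.pi))
    {Y0 : ℝ → ℝ} (hY0 : Continuous Y0) {Y : ℝ → ℝ → ℝ} (hY : OdeFam b Y0 Y) :
    ContinuousOn (fun z : ℝ × ℝ => Y z.1 z.2) (Ici 0 ×ˢ univ) := by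
  rintro ⟨t0, x0⟩ ⟨ht0, -⟩
  have ht0' : (0 : ℝ) ≤ t0 := ht0
  obtain ⟨M, hM, hbd⟩ := ode_bounds hS hb hper (t0 + 1)
  have h1 := ode_lip_x hS hb hY hM hbd
  rw [ContinuousWithinAt, tendsto_iff_dist_tendsto_zero]
  have h2 : Tendsto (fun z : ℝ × ℝ => |Y0 z.2 - Y0 x0| * Real.exp (M * (t0 + 1)) +
      |Y z.1 x0 - Y t0 x0|) (𝓝[Ici 0 ×ˢ univ] (t0, x0)) (𝓝 0) := by
    have h3 : Tendsto (fun z : ℝ × ℝ => |Y0 z.2 - Y0 x0| * Real.exp (M * (t0 + 1)))
        (𝓝[Ici 0 ×ˢ univ] (t0, x0)) (𝓝 0) := by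
      have h4 : Continuous fun z : ℝ × ℝ => |Y0 z.2 - Y0 x0| * Real.exp (M * (t0 + 1)) := by
        fun_prop
      have h5 := (h4.tendsto (t0, x0)).mono_left (nhdsWithin_le_nhds (s := Ici 0 ×ˢ univ))
      simpa using h5
    have h6 : Tendsto (fun z : ℝ × ℝ => |Y z.1 x0 - Y t0 x0|)
        (𝓝[Ici 0 ×ˢ univ] (t0, x0)) (𝓝 0) := by
      have h7 : ContinuousWithinAt (fun s => Y s x0) (Ici 0) t0 :=
        ode_cont (fun t ht => hY.eqn t ht x0) t0 ht0
      have h8 : Tendsto (fun z : ℝ × ℝ => z.1) (𝓝[Ici 0 ×ˢ univ] (t0, x0)) (𝓝[Ici 0] t0) := by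
        refine tendsto_nhdsWithin_iff.2 ⟨?_, ?_⟩
        · exact (continuous_fst.tendsto (t0, x0)).mono_left nhdsWithin_le_nhds
        · filter_upwards [self_mem_nhdsWithin] with z hz
          exact hz.1
      have h9 := (h7.tendsto.comp h8).sub_const (Y t0 x0)
      rw [sub_self] at h9
      have h10 := h9.abs
      rw [abs_zero] at h10
      exact h10
    have := h3.add h6
    rwa [add_zero] at this
  refine squeeze_zero' (Eventually.of_forall fun z => dist_nonneg) ?_ h2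
  have h3 : ∀ᶠ z : ℝ × ℝ in 𝓝[Ici 0 ×ˢ univ] (t0, x0), z.1 < t0 + 1 :=
    mem_nhdsWithin_of_mem_nhds (continuous_fst.tendsto (t0, x0) (Iio_mem_nhds (by
      show t0 < t0 + 1
      linarith)))
  filter_upwards [self_mem_nhdsWithin, h3] with z hz hz1
  have hz0 : (0 : ℝ) ≤ z.1 := hz.1
  have h4 := h1 z.2 x0 z.1 ⟨hz0, hz1.le⟩
  rw [Real.dist_eq]
  calc |Y z.1 z.2 - Y t0 x0| = |(Y z.1 z.2 - Y z.1 x0) + (Y z.1 x0 - Y t0 x0)| := by
        congr 1; ring
    _ ≤ |Y z.1 z.2 - Y z.1 x0| + |Y z.1 x0 - Y t0 x0| := abs_add_le _ _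
    _ ≤ _ := by
        gcongr
        refine h4.trans (mul_le_mul_of_nonneg_left ?_ (abs_nonneg _))
        exact Real.exp_le_exp.2 (mul_le_mul_of_nonneg_left hz1.le hM)

/-- the space derivative -/
theorem ode_deriv_x (hS : JSSlice1) {b : ℝ → ℝ → ℝ} (hb : JS (Ici 0) b)
    (hper : ∀ t ∈ Ici (0 : ℝ), Function.Periodic (b t) (2 * Real.pi))
    {Y0 : ℝ → ℝ} (hY0 : ContDiff ℝ ∞ Y0) {Y : ℝ → ℝ → ℝ} (hY : OdeFam b Y0 Y)
    (t : ℝ) (ht : t ∈ Ici (0 : ℝ)) (x : ℝ) :
    HasDerivAt (Y t)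
      (deriv Y0 x * Real.exp (-∫ s in (0 : ℝ)..t, iteratedDeriv 1 (b s) (Y s x))) x := by
  have ht0 : (0 : ℝ) ≤ t := ht
  obtain ⟨M, hM, hbd⟩ := ode_bounds hS hb hper t
  have hslice := hS (Ici 0) b (Or.inl ⟨0, rfl⟩) hb
  have hcy := ode_cont fun t ht => hY.eqn t ht x
  -- the continuous extension of the coefficient
  set c : ℝ → ℝ := fun s => iteratedDeriv 1 (b (max s 0)) (Y (max s 0) x) with hc
  have hcc : Continuous c := by
    have h1 : ContinuousOn (fun z : ℝ × ℝ => iteratedDeriv 1 (b z.1) z.2) (Ici 0 ×ˢ univ) :=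
      ContDiffOn.continuousOn (hslice.2 1)
    have h2 : Continuous fun s : ℝ => Y (max s 0) x :=
      hcy.comp_continuous (by fun_prop) fun s => le_max_right s 0
    have h3 : Continuous fun s : ℝ => ((max s 0, Y (max s 0) x) : ℝ × ℝ) :=
      (by fun_prop : Continuous fun s : ℝ => max s 0).prodMk h2
    exact h1.comp_continuous h3 fun s => ⟨le_max_right s 0, mem_univ _⟩
  set e : ℝ → ℝ := fun s => ∫ r in (0 : ℝ)..s, c r with he
  have hed : ∀ s, HasDerivAt e (c s) s := fun s =>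
    intervalIntegral.integral_hasDerivAt_right (hcc.intervalIntegrable _ _)
      (hcc.stronglyMeasurableAtFilter _ _) hcc.continuousAt
  have hcs : ∀ s, 0 ≤ s → c s = iteratedDeriv 1 (b s) (Y s x) := by
    intro s hs
    rw [hc]
    simp only
    rw [max_eq_left hs]
  have het : e t = ∫ s in (0 : ℝ)..t, iteratedDeriv 1 (b s) (Y s x) := by
    refine intervalIntegral.integral_congr fun s hs => ?_
    rw [uIcc_of_le ht0] at hs
    exact hcs s hs.1
  have he0 : e 0 = 0 := by simp [he]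
  have heb : ∀ s ∈ Icc 0 t, e s ≤ M * t := by
    intro s hs
    have h1 := intervalIntegral.norm_integral_le_of_norm_le_const (a := 0) (b := s) (C := M)
      (f := c) (fun r hr => by
        rw [uIoc_of_le hs.1] at hr
        rw [hcs r hr.1.le, Real.norm_eq_abs]
        exact (hbd r ⟨hr.1.le, hr.2.trans hs.2⟩ _).2.1)
    rw [Real.norm_eq_abs, sub_zero, abs_of_nonneg hs.1] at h1
    exact (le_abs_self _).trans (h1.trans (mul_le_mul_of_nonneg_left hs.2 hM))
  -- the main estimate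
  set K : ℝ := M * Real.exp (M * t) ^ 2 * Real.exp (M * t) with hK
  have hKn : 0 ≤ K := by positivity
  have main : ∀ x' : ℝ, |(Y t x' - Y t x) * Real.exp (e t) - (Y0 x' - Y0 x)| ≤
      K * t * |Y0 x' - Y0 x| ^ 2 := by
    intro x'
    have hcz := ode_cont fun t ht => hY.eqn t ht x'
    have h1 := norm_image_sub_le_of_norm_deriv_right_le_segment (a := 0) (b := t)
      (f := fun s => (Y s x' - Y s x) * Real.exp (e s))
      (f' := fun s => (- b s (Y s x') - (- b s (Y s x))) * Real.exp (e s) +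
        (Y s x' - Y s x) * (Real.exp (e s) * c s)) (C := K * |Y0 x' - Y0 x| ^ 2)
      ?_ ?_ ?_ t ⟨ht0, le_rfl⟩
    · simp only [hY.start, he0, Real.exp_zero, mul_one, sub_zero, Real.norm_eq_abs] at h1
      calc _ ≤ _ := h1
        _ = _ := by ring
    · have h2 : ContinuousOn e (Icc 0 t) := fun s _ => (hed s).continuousAt.continuousWithinAt
      exact (((hcz.mono Icc_subset_Ici_self).sub (hcy.mono Icc_subset_Ici_self)).mul
        (Real.continuous_exp.comp_continuousOn h2))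
    · intro s hs
      have h2 := ode_right hs.1 (hY.eqn s hs.1 x')
      have h3 := ode_right hs.1 (hY.eqn s hs.1 x)
      exact (h2.sub h3).mul ((hed s).exp.hasDerivWithinAt)
    · intro s hs
      have hs' : s ∈ Icc 0 t := Ico_subset_Icc_self hs
      have h2 := ode_taylor (hslice.1 s hs.1) hM (fun y => (hbd s hs' y).2.2) (Y s x) (Y s x')
      have h3 := ode_lip_x hS hb hY hM hbd x' x s hs'
      have h4 := heb s hs'
      rw [hcs s hs.1, Real.norm_eq_abs]
      have h5 : (- b s (Y s x') - (- b s (Y s x))) * Real.exp (e s) +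
          (Y s x' - Y s x) * (Real.exp (e s) * iteratedDeriv 1 (b s) (Y s x)) =
          -(b s (Y s x') - b s (Y s x) - iteratedDeriv 1 (b s) (Y s x) * (Y s x' - Y s x)) *
            Real.exp (e s) := by ring
      rw [h5, abs_mul, abs_neg, abs_of_pos (Real.exp_pos _)]
      have h6 : |Y s x' - Y s x| ≤ |Y0 x' - Y0 x| * Real.exp (M * t) :=
        h3.trans (mul_le_mul_of_nonneg_left
          (Real.exp_le_exp.2 (mul_le_mul_of_nonneg_left hs'.2 hM)) (abs_nonneg _))
      calc _ ≤ (M * |Y s x' - Y s x| ^ 2) * Real.exp (M * t) := by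
            gcongr
        _ ≤ (M * (|Y0 x' - Y0 x| * Real.exp (M * t)) ^ 2) * Real.exp (M * t) := by
            gcongr
        _ = K * |Y0 x' - Y0 x| ^ 2 := by rw [hK]; ring
  -- conclusion
  rw [← het, hasDerivAt_iff_isLittleO]
  have hd0 : HasDerivAt Y0 (deriv Y0 x) x := (hY0.differentiable (by simp) x).hasDerivAt
  have hO : (fun x' => Y0 x' - Y0 x) =O[𝓝 x] fun x' => x' - x := hd0.isBigO_sub
  have hO2 : (fun x' => (Y0 x' - Y0 x) ^ 2) =O[𝓝 x] fun x' => (x' - x) ^ 2 := hO.pow 2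
  have ho : (fun x' : ℝ => (x' - x) ^ 2) =o[𝓝 x] fun x' => x' - x := by
    have h1 : (fun x' : ℝ => x' - x) =o[𝓝 x] fun _ => (1 : ℝ) := by
      rw [Asymptotics.isLittleO_one_iff]
      have : Tendsto (fun x' : ℝ => x' - x) (𝓝 x) (𝓝 (x - x)) :=
        (continuous_id.sub continuous_const).tendsto x
      rwa [sub_self] at this
    have h2 := h1.mul_isBigO (Asymptotics.isBigO_refl (fun x' : ℝ => x' - x) (𝓝 x))
    refine (h2.congr_left fun x' => ?_).congr_right fun x' => ?_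
    · ring
    · ring
  have hA : (fun x' => Y t x' - Y t x - Real.exp (-e t) * (Y0 x' - Y0 x)) =O[𝓝 x]
      fun x' => (Y0 x' - Y0 x) ^ 2 := by
    refine Asymptotics.IsBigO.of_bound (Real.exp (-e t) * (K * t))
      (Eventually.of_forall fun x' => ?_)
    have h1 := main x'
    have h2 : Y t x' - Y t x - Real.exp (-e t) * (Y0 x' - Y0 x) =
        Real.exp (-e t) * ((Y t x' - Y t x) * Real.exp (e t) - (Y0 x' - Y0 x)) := by
      have h3 : Real.exp (-e t) * Real.exp (e t) = 1 := by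
        rw [← Real.exp_add, neg_add_cancel, Real.exp_zero]
      linear_combination (-(Y t x' - Y t x)) * h3
    rw [Real.norm_eq_abs, Real.norm_eq_abs, h2, abs_mul, abs_of_pos (Real.exp_pos _), abs_pow]
    calc _ ≤ Real.exp (-e t) * (K * t * |Y0 x' - Y0 x| ^ 2) := by gcongr
      _ = _ := by ring
  have hB : (fun x' => Y0 x' - Y0 x - (x' - x) • deriv Y0 x) =o[𝓝 x] fun x' => x' - x :=
    hasDerivAt_iff_isLittleO.1 hd0
  have hC := ((hA.trans hO2).trans_isLittleO ho).add (hB.const_mul_left (Real.exp (-e t)))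
  refine hC.congr_left fun x' => ?_
  simp only [smul_eq_mul]
  ring

/-- regularity -/
theorem ode_smooth (hS : JSSlice1) (hP : PartialsC1) (hI : IntTC) {b : ℝ → ℝ → ℝ}
    (hb : JS (Ici 0) b)
    (hper : ∀ t ∈ Ici (0 : ℝ), Function.Periodic (b t) (2 * Real.pi))
    {Y0 : ℝ → ℝ} (hY0 : ContDiff ℝ ∞ Y0) {Y : ℝ → ℝ → ℝ} (hY : OdeFam b Y0 Y) :
    JS (Ici 0) Y := by
  have hItv : Itv (Ici (0 : ℝ)) := Or.inl ⟨0, rfl⟩
  have hslice := hS (Ici 0) b hItv hb
  have key : ∀ k : ℕ, ContDiffOn ℝ k (fun z : ℝ × ℝ => Y z.1 z.2) (Ici 0 ×ˢ univ) := by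
    intro k
    induction k with
    | zero =>
      have := ode_joint hS hb hper hY0.continuous hY
      exact_mod_cast contDiffOn_zero.2 this
    | succ k ih =>
      have hmap : ContDiffOn ℝ k (fun z : ℝ × ℝ => ((z.1, Y z.1 z.2) : ℝ × ℝ))
          (Ici 0 ×ˢ univ) := contDiff_fst.contDiffOn.prodMk ih
      have hmt : MapsTo (fun z : ℝ × ℝ => ((z.1, Y z.1 z.2) : ℝ × ℝ)) (Ici (0 : ℝ) ×ˢ univ)
          (Ici (0 : ℝ) ×ˢ univ) := fun z hz => ⟨hz.1, mem_univ _⟩
      have h1 : ContDiffOn ℝ k (fun z : ℝ × ℝ => - b z.1 (Y z.1 z.2)) (Ici 0 ×ˢ univ) := by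
        have h2 : ContDiffOn ℝ k (fun z : ℝ × ℝ => b z.1 z.2) (Ici 0 ×ˢ univ) :=
          ContDiffOn.of_le hb (by exact_mod_cast le_top)
        exact (h2.comp hmap hmt).neg
      have h3 : ContDiffOn ℝ k (fun z : ℝ × ℝ => iteratedDeriv 1 (b z.1) (Y z.1 z.2))
          (Ici 0 ×ˢ univ) := by
        have h4 : ContDiffOn ℝ k (fun z : ℝ × ℝ => iteratedDeriv 1 (b z.1) z.2)
            (Ici 0 ×ˢ univ) := ContDiffOn.of_le (hslice.2 1) (by exact_mod_cast le_top)
        exact h4.comp hmap hmt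
      have h5 := hI k (Ici 0) 0 (fun t x => iteratedDeriv 1 (b t) (Y t x)) hItv
        (mem_Ici.2 le_rfl) h3
      have h6 : ContDiff ℝ k (deriv Y0) := by
        have h7 : ContDiff ℝ ∞ (iteratedDeriv 1 Y0) := by
          rw [iteratedDeriv_one]
          exact (contDiff_infty_iff_deriv.1 hY0).2
        rw [iteratedDeriv_one] at h7
        exact h7.of_le (by exact_mod_cast le_top)
      have h8 : ContDiffOn ℝ k (fun z : ℝ × ℝ => deriv Y0 z.2 *
          Real.exp (-∫ s in (0 : ℝ)..z.1, iteratedDeriv 1 (b s) (Y s z.2)))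
          (Ici 0 ×ˢ univ) := by
        have h9 : ContDiffOn ℝ k (fun z : ℝ × ℝ => deriv Y0 z.2) (Ici 0 ×ˢ univ) :=
          (h6.comp contDiff_snd).contDiffOn
        exact h9.mul (Real.contDiff_exp.comp_contDiffOn h5.neg)
      have h10 := hP k (Ici 0) Y (fun t x => - b t (Y t x))
        (fun t x => deriv Y0 x *
          Real.exp (-∫ s in (0 : ℝ)..t, iteratedDeriv 1 (b s) (Y s x))) hItv hY.eqn
        (fun t ht x => ode_deriv_x hS hb hper hY0 hY t ht x) h1 h8
      exact_mod_cast h10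
  exact contDiffOn_infty.2 key

theorem claimODE (hS : JSSlice1) (hP : PartialsC1) (hI : IntTC) : ClaimODE := by
  intro b hb hper Y0 hY0
  have hItv : Itv (Ici (0 : ℝ)) := Or.inl ⟨0, rfl⟩
  choose Yx hYx0 hYx using fun x : ℝ => ode_exists hS hb hper (Y0 x)
  set Y : ℝ → ℝ → ℝ := fun t x => Yx x t with hYdef
  have hfam : OdeFam b Y0 Y := ⟨fun x => hYx0 x, fun t ht x => hYx x t ht⟩
  have hsm := ode_smooth hS hP hI hb hper hY0.smooth hfam
  refine ⟨Y, hsm, funext fun x => hYx0 x, fun t ht => ⟨?_, fun x => ?_, fun x => ?_⟩,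
    hfam.eqn⟩
  · exact (hS (Ici 0) Y hItv hsm).1 t ht
  · have h1 := ode_unique hS hb hper (y := fun s => Y s (x + 2 * Real.pi))
      (z := fun s => Y s x + 2 * Real.pi) (fun s hs => hfam.eqn s hs _)
      (fun s hs => by
        have h2 := (hfam.eqn s hs x).add_const (2 * Real.pi)
        rw [hper s hs (Y s x)]
        exact h2)
      (by
        simp only [hfam.start]
        exact hY0.shift x) t ht
    exact h1
  · rw [(ode_deriv_x hS hb hper hY0.smooth hfam t ht x).deriv]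
    exact mul_pos (hY0.deriv_pos x) (Real.exp_pos _)

end Pool.Agent.Work.MP_4a14ce_an

end

section

/-!
# Integrals over one period
-/

open Set MeasureTheory Topology Filter
open scoped ContDiff

namespace Pool.Agent.Work.MP_4a14ce_an

theorem per_deriv_periodic {f : ℝ → ℝ} {T : ℝ} (h : Function.Periodic f T) :
    Function.Periodic (deriv f) T := by
  intro x
  have h1 : (fun y => f (y + T)) = f := funext h
  rw [← deriv_comp_add_const, h1]

theorem per_add {f g : ℝ → ℝ} (hf : Continuous f) (hg : Continuous g) :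
    per (fun x => f x + g x) = per f + per g :=
  intervalIntegral.integral_add (hf.intervalIntegrable _ _) (hg.intervalIntegrable _ _)

theorem per_mono {f g : ℝ → ℝ} (hf : Continuous f) (hg : Continuous g) (h : ∀ x, f x ≤ g x) :
    per f ≤ per g :=
  intervalIntegral.integral_mono_on (by positivity) (hf.intervalIntegrable _ _)
    (hg.intervalIntegrable _ _) (fun x _ => h x)

theorem per_nonneg {f : ℝ → ℝ} (h : ∀ x, 0 ≤ f x) : 0 ≤ per f :=
  intervalIntegral.integral_nonneg (by positivity) (fun x _ => h x)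

theorem per_shift {f : ℝ → ℝ} (h : Function.Periodic f (2 * Real.pi)) (x : ℝ) :
    ∫ y in x..(x + 2 * Real.pi), f y = per f := by
  have := h.intervalIntegral_add_eq x 0
  rw [this, zero_add]
  rfl

theorem perDeriv : PerDeriv := by
  intro f hf hp
  unfold per
  rw [intervalIntegral.integral_deriv_eq_sub
    (fun x _ => (hf.differentiable one_ne_zero).differentiableAt)
    ((hf.continuous_deriv le_rfl).intervalIntegrable _ _)]
  have := hp 0
  rw [zero_add] at this
  rw [this, sub_self]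

theorem perIbp : PerIbp := by
  intro f g hf hg hpf hpg
  have h1 := perDeriv (fun x => f x * g x) (hf.mul hg) (fun x => by
    simp only [hpf x, hpg x])
  have h2 : deriv (fun x => f x * g x) = fun x => deriv f x * g x + f x * deriv g x := by
    funext x
    exact deriv_fun_mul (hf.differentiable one_ne_zero).differentiableAt
      (hg.differentiable one_ne_zero).differentiableAt
  have c1 : Continuous (deriv f) := hf.continuous_deriv le_rfl
  have c2 : Continuous (deriv g) := hg.continuous_deriv le_rfl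
  have c3 := hf.continuous
  have c4 := hg.continuous
  rw [h2, per_add (f := fun x => deriv f x * g x) (g := fun x => f x * deriv g x) (by fun_prop)
    (by fun_prop)] at h1
  linarith

theorem perCS : PerCS := by
  intro f g hf hg
  have h1 : ∀ t : ℝ, 0 ≤ per (fun x => f x ^ 2) * (t * t) + (2 * per (fun x => f x * g x)) * t +
      per (fun x => g x ^ 2) := by
    intro t
    have h2 : 0 ≤ per (fun x => (t * f x + g x) ^ 2) := per_nonneg fun x => sq_nonneg _
    have h3 : per (fun x => (t * f x + g x) ^ 2) =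
        per (fun x => f x ^ 2) * (t * t) + (2 * per (fun x => f x * g x)) * t +
          per (fun x => g x ^ 2) := by
      have e : (fun x => (t * f x + g x) ^ 2) =
          fun x => (((t * t) * f x ^ 2 + (2 * t) * (f x * g x)) + g x ^ 2) := by
        funext x; ring
      rw [e, per_add (f := fun x => (t * t) * f x ^ 2 + (2 * t) * (f x * g x))
        (g := fun x => g x ^ 2) (by fun_prop) (by fun_prop),
        per_add (f := fun x => (t * t) * f x ^ 2) (g := fun x => (2 * t) * (f x * g x))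
        (by fun_prop) (by fun_prop)]
      unfold per
      rw [intervalIntegral.integral_const_mul, intervalIntegral.integral_const_mul]
      ring
    linarith
  have h4 := discrim_le_zero h1
  unfold discrim at h4
  nlinarith

theorem per_deriv2 {f : ℝ → ℝ} (hf : ContDiff ℝ 2 f) :
    ContDiff ℝ 1 (deriv f) ∧ iteratedDeriv 2 f = deriv (deriv f) := by
  refine ⟨?_, ?_⟩
  · have : ContDiff ℝ (1 + 1) f := by
      have e : (1 : WithTop ℕ∞) + 1 = 2 := by norm_num
      rw [e]; exact hf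
    exact (contDiff_succ_iff_deriv.1 this).2.2
  · rw [iteratedDeriv_succ, iteratedDeriv_one]

theorem perInterp : PerInterp := by
  intro f hf hp
  obtain ⟨h1, h2⟩ := per_deriv2 hf
  have hf1 : ContDiff ℝ 1 f := hf.of_le (by norm_num)
  have h3 := perIbp f (deriv f) hf1 h1 hp (per_deriv_periodic hp)
  have h4 : (fun x => deriv f x * deriv f x) = fun x => deriv f x ^ 2 := by
    funext x; ring
  rw [h4] at h3
  rw [h2, h3, neg_sq]
  exact perCS f (deriv (deriv f)) hf.continuous (h1.continuous_deriv le_rfl)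

/-- The oscillation of `f²` is bounded by `2 ‖f‖ ‖f'‖`. -/
theorem per_osc {f : ℝ → ℝ} (hf : ContDiff ℝ 1 f) (hp : Function.Periodic f (2 * Real.pi))
    (x y : ℝ) (hy : y ∈ Icc x (x + 2 * Real.pi)) :
    f x ^ 2 ≤ f y ^ 2 + 2 * per (fun z => |f z| * |deriv f z|) := by
  have hc1 : Continuous (deriv f) := hf.continuous_deriv le_rfl
  have h1 : ∫ z in x..y, 2 * (f z * deriv f z) = f y ^ 2 - f x ^ 2 := by
    have h2 : ∀ z ∈ uIcc x y, HasDerivAt (fun z => f z ^ 2) (2 * (f z * deriv f z)) z := by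
      intro z _
      have := ((hf.differentiable one_ne_zero).differentiableAt (x := z)).hasDerivAt.pow 2
      have e : (2 : ℝ) * (f z * deriv f z) = ((2 : ℕ) : ℝ) * f z ^ (2 - 1) * deriv f z := by
        norm_num
        ring
      rw [e]
      exact this
    rw [intervalIntegral.integral_eq_sub_of_hasDerivAt h2
      ((continuous_const.mul (hf.continuous.mul hc1)).intervalIntegrable _ _)]
  have h3 : |∫ z in x..y, 2 * (f z * deriv f z)| ≤ ∫ z in x..y, |2 * (f z * deriv f z)| :=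
    intervalIntegral.abs_integral_le_integral_abs hy.1
  have h4 : ∫ z in x..y, |2 * (f z * deriv f z)| ≤
      ∫ z in x..(x + 2 * Real.pi), |2 * (f z * deriv f z)| := by
    have hc : Continuous fun z => |2 * (f z * deriv f z)| :=
      (continuous_const.mul (hf.continuous.mul hc1)).abs
    refine intervalIntegral.integral_mono_interval le_rfl hy.1 hy.2
      (Filter.Eventually.of_forall fun z => abs_nonneg _) (hc.intervalIntegrable _ _)
  have h5 : Function.Periodic (fun z => |2 * (f z * deriv f z)|) (2 * Real.pi) := by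
    intro z
    simp only [hp z, per_deriv_periodic hp z]
  rw [per_shift h5 x] at h4
  have h6 : per (fun z => |2 * (f z * deriv f z)|) = 2 * per (fun z => |f z| * |deriv f z|) := by
    unfold per
    rw [← intervalIntegral.integral_const_mul]
    refine intervalIntegral.integral_congr fun z _ => ?_
    show |2 * (f z * deriv f z)| = 2 * (|f z| * |deriv f z|)
    rw [abs_mul, abs_mul, abs_two]
  rw [h1] at h3
  have h7 := neg_abs_le (f y ^ 2 - f x ^ 2)
  linarith

theorem per_abs_CS {f g : ℝ → ℝ} (hf : Continuous f) (hg : Continuous g) :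
    per (fun z => |f z| * |g z|) ^ 2 ≤ per (fun x => f x ^ 2) * per (fun x => g x ^ 2) := by
  have := perCS (fun z => |f z|) (fun z => |g z|) hf.abs hg.abs
  simpa only [sq_abs] using this

theorem agmon : Agmon := by
  intro f hf hp x
  obtain ⟨h1, h2⟩ := per_deriv2 hf
  have hpi : x < x + 2 * Real.pi := by linarith [Real.pi_pos]
  obtain ⟨c, hc, hc0⟩ := exists_deriv_eq_zero hpi hf.continuous.continuousOn (hp x).symm
  have h3 := per_osc h1 (per_deriv_periodic hp) x c ⟨hc.1.le, hc.2.le⟩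
  have h4 := per_abs_CS h1.continuous (h1.continuous_deriv le_rfl)
  rw [hc0] at h3
  have h5 : 0 ≤ per (fun z => |deriv f z| * |deriv (deriv f) z|) :=
    per_nonneg fun z => mul_nonneg (abs_nonneg _) (abs_nonneg _)
  rw [h2]
  have h6 : 0 ≤ deriv f x ^ 2 := sq_nonneg _
  calc deriv f x ^ 4 = (deriv f x ^ 2) ^ 2 := by ring
    _ ≤ (2 * per (fun z => |deriv f z| * |deriv (deriv f) z|)) ^ 2 := by
        apply pow_le_pow_left₀ h6
        linarith
    _ ≤ _ := by
        rw [mul_pow]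
        linarith

theorem supLe : SupLe := by
  intro f hf hp x
  have hc1 : Continuous (deriv f) := hf.continuous_deriv le_rfl
  set K := 2 * per (fun z => |f z| * |deriv f z|) with hK
  have c0 := hf.continuous
  have hK1 : K ≤ per (fun x => f x ^ 2) + per (fun x => deriv f x ^ 2) := by
    rw [← per_add (f := fun x => f x ^ 2) (g := fun x => deriv f x ^ 2) (by fun_prop)
      (by fun_prop), hK]
    have e : 2 * per (fun z => |f z| * |deriv f z|) = per (fun z => 2 * (|f z| * |deriv f z|)) := by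
      unfold per
      rw [intervalIntegral.integral_const_mul]
    rw [e]
    refine per_mono (by fun_prop) (by fun_prop) fun z => ?_
    nlinarith [sq_nonneg (|f z| - |deriv f z|), sq_abs (f z), sq_abs (deriv f z)]
  have h1 : ∫ _ in x..(x + 2 * Real.pi), f x ^ 2 ≤ ∫ y in x..(x + 2 * Real.pi), (f y ^ 2 + K) := by
    refine intervalIntegral.integral_mono_on (by linarith [Real.pi_pos])
      (continuous_const.intervalIntegrable _ _)
      (((hf.continuous.pow 2).add continuous_const).intervalIntegrable _ _) fun y hy => ?_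
    exact per_osc hf hp x y hy
  have hp2 : Function.Periodic (fun y => f y ^ 2) (2 * Real.pi) := fun z => by
    simp only [hp z]
  have h0 : ∫ y in x..(x + 2 * Real.pi), (f y ^ 2 + K) =
      (∫ y in x..(x + 2 * Real.pi), f y ^ 2) + ∫ _ in x..(x + 2 * Real.pi), K :=
    intervalIntegral.integral_add (Continuous.intervalIntegrable (by fun_prop) _ _)
      (continuous_const.intervalIntegrable _ _)
  rw [intervalIntegral.integral_const, h0,
    per_shift hp2, intervalIntegral.integral_const] at h1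
  simp only [smul_eq_mul, add_sub_cancel_left] at h1
  have h2 : 0 ≤ per (fun x => f x ^ 2) := per_nonneg fun x => sq_nonneg _
  have h3 : 0 ≤ per (fun x => deriv f x ^ 2) := per_nonneg fun x => sq_nonneg _
  have h4 := Real.pi_gt_three
  have h5 : f x ^ 2 - K ≤ per (fun x => f x ^ 2) := by
    by_contra hcon
    rw [not_le] at hcon
    have h6 : 0 ≤ f x ^ 2 - K := h2.trans hcon.le
    nlinarith
  linarith

theorem poincare : Poincare := by
  intro f hf hp
  obtain ⟨h1, h2⟩ := per_deriv2 hf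
  rw [h2]
  set g := deriv f with hg
  have hgp : Function.Periodic g (2 * Real.pi) := per_deriv_periodic hp
  have hc1 : Continuous (deriv g) := h1.continuous_deriv le_rfl
  have hmean : per g = 0 := perDeriv f (hf.of_le (by norm_num)) hp
  have hab : (0 : ℝ) < 2 * Real.pi := by positivity
  have hL : ∀ φ : ℝ → ℝ, Continuous φ → MemLp (fun x => (φ x : ℂ)) 2
      (volume.restrict (Ioc (0 : ℝ) (2 * Real.pi))) := by
    intro φ hφ
    have h3 : Continuous fun x => (φ x : ℂ) := Complex.continuous_ofReal.comp hφ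
    obtain ⟨C, hC⟩ := (isCompact_Icc (a := (0 : ℝ)) (b := 2 * Real.pi)).exists_bound_of_continuousOn
      h3.continuousOn
    refine MemLp.of_bound h3.aestronglyMeasurable C ?_
    refine (ae_restrict_iff' measurableSet_Ioc).2 (Filter.Eventually.of_forall fun x hx => ?_)
    exact hC x ⟨hx.1.le, hx.2⟩
  have hS1 := hasSum_sq_fourierCoeffOn hab (hL g h1.continuous)
  have hS2 := hasSum_sq_fourierCoeffOn hab (hL (deriv g) hc1)
  have hle : ∀ n : ℤ, ‖fourierCoeffOn hab (fun x => (g x : ℂ)) n‖ ^ 2 ≤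
      ‖fourierCoeffOn hab (fun x => ((deriv g x : ℝ) : ℂ)) n‖ ^ 2 := by
    intro n
    by_cases hn : n = 0
    · have h0 : fourierCoeffOn hab (fun x => (g x : ℂ)) n = 0 := by
        rw [fourierCoeffOn_eq_integral, hn]
        simp only [neg_zero, fourier_zero, one_smul]
        rw [intervalIntegral.integral_ofReal]
        have : (∫ x in (0 : ℝ)..(2 * Real.pi), g x) = 0 := hmean
        rw [this]
        simp
      rw [h0]
      simp
    · have hd : ∀ x, x ∈ uIcc 0 (2 * Real.pi) →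
          HasDerivAt (fun x => (g x : ℂ)) (((deriv g x : ℝ) : ℂ)) x := fun x _ =>
        ((h1.differentiable one_ne_zero).differentiableAt.hasDerivAt (x := x)).ofReal_comp
      have h3 := fourierCoeffOn_of_hasDerivAt hab (f := fun x => (g x : ℂ))
        (f' := fun x => ((deriv g x : ℝ) : ℂ)) hn hd
        ((Complex.continuous_ofReal.comp hc1).intervalIntegrable _ _)
      have h4 : (g (2 * Real.pi) : ℂ) - (g 0 : ℂ) = 0 := by
        have := hgp 0
        rw [zero_add] at this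
        rw [this, sub_self]
      rw [h4, mul_zero, zero_sub] at h3
      rw [h3]
      have h5 : ‖(1 : ℂ) / (-2 * Real.pi * Complex.I * n) *
          -(((2 * Real.pi : ℝ) - (0 : ℝ) : ℂ) * fourierCoeffOn hab (fun x => ((deriv g x : ℝ) : ℂ)) n)‖ =
          ‖fourierCoeffOn hab (fun x => ((deriv g x : ℝ) : ℂ)) n‖ / |(n : ℝ)| := by
        rw [norm_mul, norm_neg, norm_mul, norm_div, norm_mul, norm_mul, norm_mul]
        simp only [norm_one, norm_neg, Complex.norm_ofNat, Complex.norm_real, Complex.norm_I,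
          Complex.ofReal_zero, sub_zero, Complex.norm_intCast, Real.norm_eq_abs]
        rw [abs_of_pos Real.pi_pos, abs_of_pos hab]
        have hn' : |(n : ℝ)| ≠ 0 := by
          rw [abs_ne_zero]; exact_mod_cast hn
        have := Real.pi_ne_zero
        field_simp
      rw [h5]
      have h6 : (1 : ℝ) ≤ |(n : ℝ)| := by
        have := Int.one_le_abs hn
        exact_mod_cast this
      exact pow_le_pow_left₀ (by positivity) (div_le_self (norm_nonneg _) h6) 2
  have h3 := hasSum_le hle hS1 hS2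
  simp only [sub_zero, smul_eq_mul, Complex.norm_real, Real.norm_eq_abs, sq_abs] at h3
  have h4 : (0 : ℝ) < (2 * Real.pi)⁻¹ := by positivity
  exact le_of_mul_le_mul_left h3 h4

end Pool.Agent.Work.MP_4a14ce_an

end

section

open Set MeasureTheory Topology Filter
open scoped ContDiff

namespace Pool.Agent.Work.MP_4a14ce_an

/-- a circle reparametrisation has an inverse which is a circle reparametrisation -/
theorem reparamInv (Y : ℝ → ℝ) (hY : IsReparam Y) :
    ∃ Z : ℝ → ℝ, IsReparam Z ∧ (∀ x, Z (Y x) = x) ∧ (∀ x, Y (Z x) = x) := by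
  have hmono : StrictMono Y := strictMono_of_deriv_pos hY.deriv_pos
  have hcont : Continuous Y := hY.smooth.continuous
  have h2pi : (0 : ℝ) < 2 * Real.pi := by positivity
  have hshift : ∀ (k : ℕ) (x : ℝ), Y (x + k * (2 * Real.pi)) = Y x + k * (2 * Real.pi) := by
    intro k
    induction k with
    | zero => intro x; simp
    | succ k ih =>
      intro x
      have h1 : x + ((k + 1 : ℕ) : ℝ) * (2 * Real.pi) = (x + k * (2 * Real.pi)) + 2 * Real.pi := by
        push_cast; ring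
      rw [h1, hY.shift, ih]; push_cast; ring
  have hshift' : ∀ (k : ℕ) (x : ℝ), Y (x - k * (2 * Real.pi)) = Y x - k * (2 * Real.pi) := by
    intro k x
    have := hshift k (x - k * (2 * Real.pi))
    rw [sub_add_cancel] at this
    linarith
  have hsurj : Function.Surjective Y := by
    intro y
    obtain ⟨k, hk⟩ := exists_nat_gt ((y - Y 0) / (2 * Real.pi))
    obtain ⟨l, hl⟩ := exists_nat_gt ((Y 0 - y) / (2 * Real.pi))
    rw [div_lt_iff₀ h2pi] at hk hl
    have h1 : Y (0 - l * (2 * Real.pi)) ≤ y := by rw [hshift']; linarith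
    have h2 : y ≤ Y (0 + k * (2 * Real.pi)) := by rw [hshift]; linarith
    have h3 : (0 : ℝ) - l * (2 * Real.pi) ≤ 0 + k * (2 * Real.pi) := by
      have : (0 : ℝ) ≤ (l : ℝ) * (2 * Real.pi) := by positivity
      have : (0 : ℝ) ≤ (k : ℝ) * (2 * Real.pi) := by positivity
      linarith
    obtain ⟨x, -, hx⟩ := intermediate_value_Icc h3 hcont.continuousOn ⟨h1, h2⟩
    exact ⟨x, hx⟩
  let e : ℝ ≃o ℝ := hmono.orderIsoOfSurjective Y hsurj
  let h : ℝ ≃ₜ ℝ := e.toHomeomorph
  have he : ∀ x, h x = Y x := fun x => rfl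
  have hd : ∀ x, HasDerivAt h (deriv Y x) x := by
    intro x
    have : HasDerivAt Y (deriv Y x) x :=
      (hY.smooth.differentiable (by simp)).differentiableAt.hasDerivAt
    exact this
  have hsm : ContDiff ℝ ∞ h := hY.smooth
  have hne : ∀ x, deriv Y x ≠ 0 := fun x => (hY.deriv_pos x).ne'
  have hinv : ContDiff ℝ ∞ h.symm := h.contDiff_symm_deriv hne hd hsm
  have hl : ∀ x, h.symm (Y x) = x := fun x => h.symm_apply_apply x
  have hr : ∀ x, Y (h.symm x) = x := fun x => h.apply_symm_apply x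
  refine ⟨h.symm, ⟨hinv, ?_, ?_⟩, hl, hr⟩
  · intro x
    apply hmono.injective
    rw [hr, hY.shift, hr]
  · intro x
    have h1 : HasDerivAt h.symm (deriv Y (h.symm x))⁻¹ x := by
      apply HasDerivAt.of_local_left_inverse (f := Y) h.symm.continuous.continuousAt
      · exact (hY.smooth.differentiable (by simp)).differentiableAt.hasDerivAt
      · exact hne _
      · exact Filter.Eventually.of_forall hr
    rw [h1.deriv]
    exact inv_pos.mpr (hY.deriv_pos _)

end Pool.Agent.Work.MP_4a14ce_an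

end
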