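import Pool.Agent.Work.MP_4a14ce_an.Bd.B01
import Pool.Agent.Work.MP_4a14ce_an.Bd.B02

/-! Bundle of small proof modules (one section per former module). -/

section

/-!
# Static bounds from the energy
-/

open Set MeasureTheory Topology Filter
open scoped ContDiff

namespace Pool.Agent.Work.MP_4a14ce_an

variable {n : ℕ}

/-- curvature vector of a constant speed curve -/
noncomputable def static_kap (σ p : ℝ) (u : ℝ → V n) (x : ℝ) : V n :=
  p⁻¹ • iteratedDeriv 2 u x + σ • u x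

lemma static_B_add_right (hB : BRules) (σ : ℝ) (x y z : V n) : B σ x (y + z) = B σ x y + B σ x z := by
  obtain ⟨h1, h2, h3, -⟩ := hB n σ
  rw [h1 x, h2, h1 y, h1 z]

lemma static_B_smul_right (hB : BRules) (σ c : ℝ) (x y : V n) : B σ x (c • y) = c * B σ x y := by
  obtain ⟨h1, h2, h3, -⟩ := hB n σ
  rw [h1 x, h3, h1 y]

lemma static_B_cont (σ : ℝ) {f g : ℝ → V n} (hf : Continuous f) (hg : Continuous g) :
    Continuous fun x => B σ (f x) (g x) := by
  unfold B
  fun_prop

lemma static_sq {σ : ℝ} (hσ : Sgn σ) : σ * σ = 1 := by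
  rcases hσ with rfl | rfl <;> norm_num

lemma static_kap_tan (hB : BRules) (hC : ConIds) {σ p : ℝ} (hσ : Sgn σ) {u : ℝ → V n}
    (hu : Con σ p u) (x : ℝ) : B σ (static_kap σ p u x) (u x) = 0 := by
  obtain ⟨h1, h2, h3, -⟩ := hB n σ
  obtain ⟨c0, -, -, c2, -⟩ := hC n σ p u hσ hu x
  have hp := hu.pos.ne'
  unfold static_kap
  rw [h2, h3, h3, c0, h1, c2, static_sq hσ]
  field_simp
  ring

lemma static_kap_sq (hB : BRules) (hC : ConIds) {σ p : ℝ} (hσ : Sgn σ) {u : ℝ → V n}
    (hu : Con σ p u) (x : ℝ) : B σ (static_kap σ p u x) (static_kap σ p u x) =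
      (p ^ 2)⁻¹ * B σ (iteratedDeriv 2 u x) (iteratedDeriv 2 u x) - σ := by
  obtain ⟨h1, h2, h3, -⟩ := hB n σ
  obtain ⟨c0, -, -, c2, -⟩ := hC n σ p u hσ hu x
  have hp := hu.pos.ne'
  have h4 := static_kap_tan hB hC hσ hu x
  have h5 : B σ (static_kap σ p u x) (static_kap σ p u x) =
      B σ (static_kap σ p u x) (p⁻¹ • iteratedDeriv 2 u x) +
      B σ (static_kap σ p u x) (σ • u x) := by
    rw [← static_B_add_right hB]; rfl
  rw [h5, static_B_smul_right hB, static_B_smul_right hB, h4]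
  unfold static_kap
  rw [h2, h3, h3, c2]
  field_simp
  ring

lemma static_D1 {u : ℝ → V n} (hu : ContDiff ℝ ∞ u) : ContDiff ℝ ∞ (iteratedDeriv 1 u) := by
  rw [iteratedDeriv_one]; exact (contDiff_infty_iff_deriv.mp hu).2

lemma static_D2 {u : ℝ → V n} (hu : ContDiff ℝ ∞ u) : ContDiff ℝ ∞ (iteratedDeriv 2 u) := by
  rw [iteratedDeriv_succ]; exact (contDiff_infty_iff_deriv.mp (static_D1 hu)).2

lemma static_hd0 {u : ℝ → V n} (hu : ContDiff ℝ ∞ u) (x : ℝ) :
    HasDerivAt u (iteratedDeriv 1 u x) x := by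
  rw [iteratedDeriv_one]
  exact ((contDiff_infty_iff_deriv.mp hu).1 x).hasDerivAt

lemma static_hd1 {u : ℝ → V n} (hu : ContDiff ℝ ∞ u) (x : ℝ) :
    HasDerivAt (iteratedDeriv 1 u) (iteratedDeriv 2 u x) x := by
  have := ((contDiff_infty_iff_deriv.mp (static_D1 hu)).1 x).hasDerivAt
  rwa [iteratedDeriv_succ (n := 1)]

/-- The energy in terms of the curvature. -/
lemma static_en (hB : BRules) (hC : ConIds) {σ p : ℝ} (hσ : Sgn σ) {u : ℝ → V n}
    (hu : Con σ p u) : en σ p u =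
      Real.sqrt p * (per (fun x => B σ (static_kap σ p u x) (static_kap σ p u x))
        + 2 * Real.pi) := by
  have hp := hu.pos
  have hl : 0 < Real.sqrt p := Real.sqrt_pos.mpr hp
  have hll : Real.sqrt p * Real.sqrt p = p := Real.mul_self_sqrt hp.le
  have hcont : Continuous fun x => B σ (iteratedDeriv 2 u x) (iteratedDeriv 2 u x) :=
    static_B_cont σ (static_D2 hu.smooth).continuous (static_D2 hu.smooth).continuous
  have h1 : per (fun x => B σ (static_kap σ p u x) (static_kap σ p u x)) =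
      (p ^ 2)⁻¹ * per (fun x => B σ (iteratedDeriv 2 u x) (iteratedDeriv 2 u x))
        - 2 * Real.pi * σ := by
    unfold per
    simp only [static_kap_sq hB hC hσ hu]
    rw [intervalIntegral.integral_sub, intervalIntegral.integral_const_mul,
      intervalIntegral.integral_const]
    · simp
    · exact (continuous_const.mul hcont).intervalIntegrable _ _
    · exact continuous_const.intervalIntegrable _ _
  rw [h1]
  unfold en
  set P := per (fun x => B σ (iteratedDeriv 2 u x) (iteratedDeriv 2 u x)) with hP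
  have h2 : (p * Real.sqrt p)⁻¹ * P = Real.sqrt p * ((p ^ 2)⁻¹ * P) := by
    have : p ^ 2 = (Real.sqrt p * Real.sqrt p) * p := by rw [hll]; ring
    rw [this]
    field_simp
  rw [h2]; ring

lemma static_per_nonneg {f : ℝ → ℝ} (hf : ∀ x, 0 ≤ f x) : 0 ≤ per f :=
  intervalIntegral.integral_nonneg (by positivity) fun x _ => hf x

lemma static_per_mono {f g : ℝ → ℝ} (hf : Continuous f) (hg : Continuous g)
    (h : ∀ x ∈ Icc 0 (2 * Real.pi), f x ≤ g x) : per f ≤ per g :=
  intervalIntegral.integral_mono_on (by positivity) (hf.intervalIntegrable _ _)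
    (hg.intervalIntegrable _ _) h

lemma static_per_const (c : ℝ) : per (fun _ => c) = 2 * Real.pi * c := by
  unfold per; simp

lemma static_kap_cont {σ p : ℝ} {u : ℝ → V n} (hu : ContDiff ℝ ∞ u) :
    Continuous (static_kap σ p u) := by
  unfold static_kap
  exact ((static_D2 hu).continuous.const_smul (p⁻¹)).add (hu.continuous.const_smul σ)

/-- energy bounds -/
lemma static_bounds (hT : ClaimTan) (hB : BRules) (hC : ConIds) {σ p E0 : ℝ} (hσ : Sgn σ)
    {u : ℝ → V n} (hu : Con σ p u) (hE : en σ p u ≤ E0) :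
    0 ≤ per (fun x => B σ (static_kap σ p u x) (static_kap σ p u x)) ∧
    Real.sqrt p * per (fun x => B σ (static_kap σ p u x) (static_kap σ p u x)) ≤ E0 ∧
    2 * Real.pi * Real.sqrt p ≤ E0 ∧ 0 ≤ en σ p u := by
  have hl : 0 < Real.sqrt p := Real.sqrt_pos.mpr hu.pos
  have hpi := Real.pi_pos
  have h1 : 0 ≤ per (fun x => B σ (static_kap σ p u x) (static_kap σ p u x)) :=
    static_per_nonneg fun x => (hT n σ 0 hσ).1 _ (hu.mem x) _ (static_kap_tan hB hC hσ hu x)
  have h2 := static_en hB hC hσ hu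
  rw [h2] at hE ⊢
  refine ⟨h1, ?_, ?_, by positivity⟩ <;> nlinarith [mul_nonneg hl.le h1, mul_pos hl hpi]

/-- `B 1 x x` is the sum of squares. -/
lemma static_B_one (x : V n) : B 1 x x = nsq x := by
  unfold B nsq
  rw [Fin.sum_univ_succ, one_mul]
  congr 1
  · ring
  · exact Finset.sum_congr rfl fun i _ => by ring

lemma static_comp1 {u : ℝ → V n} (hu : ContDiff ℝ ∞ u) (i : Fin (n + 1)) :
    deriv (fun x => u x i) = fun x => iteratedDeriv 1 u x i := by
  funext x
  exact (hasDerivAt_pi.mp (static_hd0 hu x) i).deriv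

lemma static_comp2 {u : ℝ → V n} (hu : ContDiff ℝ ∞ u) (i : Fin (n + 1)) :
    iteratedDeriv 2 (fun x => u x i) = fun x => iteratedDeriv 2 u x i := by
  funext x
  rw [iteratedDeriv_succ, iteratedDeriv_one, static_comp1 hu i]
  exact (hasDerivAt_pi.mp (static_hd1 hu x) i).deriv

lemma static_per_nsq {f : ℝ → V n} (hf : Continuous f) :
    per (fun x => nsq (f x)) = ∑ i, per (fun x => f x i ^ 2) := by
  unfold per nsq
  rw [intervalIntegral.integral_finsetSum]
  intro i _
  exact (((continuous_apply i).comp hf).pow 2).intervalIntegrable _ _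

/-- lower bound of the speed on the sphere -/
lemma static_low_sphere (hC : ConIds) (hP : Poincare) {p E0 : ℝ} {u : ℝ → V n}
    (hu : Con 1 p u) (hE : en 1 p u ≤ E0) : 2 * Real.pi ≤ E0 * Real.sqrt p := by
  have hp := hu.pos
  have hl : 0 < Real.sqrt p := Real.sqrt_pos.mpr hp
  have hll : Real.sqrt p * Real.sqrt p = p := Real.mul_self_sqrt hp.le
  have h1 : per (fun x => nsq (iteratedDeriv 1 u x)) = 2 * Real.pi * p := by
    rw [← static_per_const]
    congr 1
    funext x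
    rw [← static_B_one]
    exact (hC n 1 p u (Or.inl rfl) hu x).2.2.1
  have h2 : per (fun x => nsq (iteratedDeriv 1 u x)) ≤
      per (fun x => nsq (iteratedDeriv 2 u x)) := by
    rw [static_per_nsq (static_D1 hu.smooth).continuous,
      static_per_nsq (static_D2 hu.smooth).continuous]
    refine Finset.sum_le_sum fun i _ => ?_
    have h3 : ContDiff ℝ ∞ (fun x => u x i) := contDiff_pi.mp hu.smooth i
    have h4 : Function.Periodic (fun x => u x i) (2 * Real.pi) := fun x => by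
      show u (x + 2 * Real.pi) i = u x i
      rw [hu.periodic x]
    have := hP (fun x => u x i) (h3.of_le (by norm_cast)) h4
    rw [static_comp1 hu.smooth i, static_comp2 hu.smooth i] at this
    exact this
  have h5 : en 1 p u = (p * Real.sqrt p)⁻¹ * per (fun x => nsq (iteratedDeriv 2 u x)) := by
    unfold en
    simp only [static_B_one]
    ring
  rw [h5, inv_mul_le_iff₀ (by positivity)] at hE
  have h6 : 2 * Real.pi * p ≤ (E0 * Real.sqrt p) * p := by
    calc 2 * Real.pi * p ≤ per (fun x => nsq (iteratedDeriv 2 u x)) := by rw [← h1]; exact h2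
      _ ≤ p * Real.sqrt p * E0 := hE
      _ = _ := by ring
  exact le_of_mul_le_mul_right h6 hp

/-- Cauchy-Schwarz in the tangent space -/
lemma static_cs (hT : ClaimTan) (hB : BRules) {σ : ℝ} (hσ : Sgn σ) {q X Y : V n}
    (hq : q ∈ space σ n) (hX : B σ X q = 0) (hY : B σ Y q = 0) :
    B σ X Y ^ 2 ≤ B σ X X * B σ Y Y := by
  obtain ⟨h1, h2, h3, -⟩ := hB n σ
  have key : ∀ t : ℝ, 0 ≤ B σ Y Y * (t * t) + (2 * B σ X Y) * t + B σ X X := by
    intro t
    have h4 : B σ (X + t • Y) q = 0 := by rw [h2, h3, hX, hY]; ring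
    have h5 := (hT n σ 0 hσ).1 q hq _ h4
    have h6 : B σ (X + t • Y) (X + t • Y) =
        B σ Y Y * (t * t) + (2 * B σ X Y) * t + B σ X X := by
      rw [static_B_add_right hB, static_B_smul_right hB, h2, h2, h3, h3, h1 Y X]; ring
    rw [h6] at h5; exact h5
  have := discrim_le_zero key
  unfold discrim at this
  nlinarith

/-- distance function to the point `u 0` in hyperbolic space -/
def static_f (u : ℝ → V n) (x : ℝ) : ℝ := -B (-1) (u 0) (u x)

lemma static_f_facts (hT : ClaimTan) (hB : BRules) (hC : ConIds) {p : ℝ} {u : ℝ → V n}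
    (hu : Con (-1) p u) :
    static_f u 0 = 1 ∧ (∀ x, 1 ≤ static_f u x) ∧
    (∀ x, HasDerivAt (static_f u) (-B (-1) (u 0) (iteratedDeriv 1 u x)) x) ∧
    (∀ x, B (-1) (u 0) (iteratedDeriv 1 u x) ^ 2 ≤ (static_f u x ^ 2 - 1) * p) ∧
    (∀ x, B (-1) (u 0) (static_kap (-1) p u x) ^ 2 ≤
      (static_f u x ^ 2 - 1) * B (-1) (static_kap (-1) p u x) (static_kap (-1) p u x)) := by
  have hσ : Sgn (-1 : ℝ) := Or.inr rfl
  obtain ⟨h1, h2, h3, h4, -⟩ := hB n (-1)
  have hc := hC n (-1) p u hσ hu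
  -- the tangential component of `u 0`
  have hw : ∀ x, B (-1) (u 0 + (-static_f u x) • u x) (u x) = 0 := by
    intro x
    rw [h2, h3, (hc x).1]
    unfold static_f; ring
  have hww : ∀ x, B (-1) (u 0 + (-static_f u x) • u x) (u 0 + (-static_f u x) • u x) =
      static_f u x ^ 2 - 1 := by
    intro x
    rw [static_B_add_right hB, static_B_smul_right hB, hw x, h2, h3, (hc 0).1, h1 (u x) (u 0)]
    unfold static_f; ring
  have hwX : ∀ x X, B (-1) X (u x) = 0 →
      B (-1) (u 0 + (-static_f u x) • u x) X = B (-1) (u 0) X := by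
    intro x X hX
    rw [h2, h3, h1 (u x) X, hX]; ring
  have hsq : ∀ x, 0 ≤ static_f u x ^ 2 - 1 := fun x => by
    rw [← hww x]
    exact (hT n (-1) 0 hσ).1 _ (hu.mem x) _ (hw x)
  have hpos : ∀ x, 0 < static_f u x := by
    intro x
    have hq := hu.mem 0
    have hr := hu.mem x
    have hq0 : 0 < u 0 0 := hq.2 (by norm_num)
    have hr0 : 0 < u x 0 := hr.2 (by norm_num)
    have hqB := hq.1
    have hrB := hr.1
    unfold B at hqB hrB
    unfold static_f B
    have hcs := Finset.sum_mul_sq_le_sq_mul_sq Finset.univ (fun i : Fin n => u 0 i.succ)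
      (fun i : Fin n => u x i.succ)
    have e1 : ∑ i : Fin n, u 0 i.succ ^ 2 = u 0 0 ^ 2 - 1 := by
      have : ∑ i : Fin n, u 0 i.succ ^ 2 = ∑ i : Fin n, u 0 i.succ * u 0 i.succ :=
        Finset.sum_congr rfl fun i _ => by ring
      rw [this]; linarith
    have e2 : ∑ i : Fin n, u x i.succ ^ 2 = u x 0 ^ 2 - 1 := by
      have : ∑ i : Fin n, u x i.succ ^ 2 = ∑ i : Fin n, u x i.succ * u x i.succ :=
        Finset.sum_congr rfl fun i _ => by ring
      rw [this]; linarith
    rw [e1, e2] at hcs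
    have e3 : 0 ≤ u 0 0 ^ 2 - 1 := by rw [← e1]; positivity
    have e4 : 0 ≤ u x 0 ^ 2 - 1 := by rw [← e2]; positivity
    set S := ∑ i : Fin n, u 0 i.succ * u x i.succ with hS
    have e5 : S < u 0 0 * u x 0 := by
      by_contra hcon
      push Not at hcon
      have e6 : 0 < u 0 0 * u x 0 := mul_pos hq0 hr0
      have e7 : (u 0 0 * u x 0) ^ 2 ≤ S ^ 2 := pow_le_pow_left₀ e6.le hcon 2
      nlinarith
    linarith
  refine ⟨?_, ?_, ?_, ?_, ?_⟩
  · unfold static_f; rw [(hc 0).1]; norm_num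
  · intro x
    nlinarith [hsq x, hpos x]
  · intro x
    have h5 := h4 (fun _ => u 0) u (fun _ => 0) (iteratedDeriv 1 u) univ x
      (hasDerivWithinAt_const _ _ _) (static_hd0 hu.smooth x).hasDerivWithinAt
    rw [hasDerivWithinAt_univ] at h5
    have h6 : B (-1) (0 : V n) (u x) = 0 := by
      unfold B; simp
    rw [h6, zero_add] at h5
    exact h5.neg
  · intro x
    have t1 : B (-1) (iteratedDeriv 1 u x) (u x) = 0 := by rw [h1]; exact (hc x).2.1
    have := static_cs hT hB hσ (hu.mem x) (hw x) t1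
    rw [hwX x _ t1, hww x, (hc x).2.2.1] at this
    exact this
  · intro x
    have t1 := static_kap_tan hB hC hσ hu x
    have := static_cs hT hB hσ (hu.mem x) (hw x) t1
    rw [hwX x _ t1, hww x] at this
    exact this

/-- exponential bound -/
lemma static_f_exp (hT : ClaimTan) (hB : BRules) (hC : ConIds) {p : ℝ} {u : ℝ → V n}
    (hu : Con (-1) p u) (x : ℝ) (hx : 0 ≤ x) : static_f u x ≤ Real.exp (Real.sqrt p * x) := by
  obtain ⟨f0, f1, fd, fb, -⟩ := static_f_facts hT hB hC hu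
  have hl : 0 < Real.sqrt p := Real.sqrt_pos.mpr hu.pos
  have hll : Real.sqrt p ^ 2 = p := Real.sq_sqrt hu.pos.le
  have hb : ∀ y, -B (-1) (u 0) (iteratedDeriv 1 u y) ≤ Real.sqrt p * static_f u y := by
    intro y
    have h1 : (-B (-1) (u 0) (iteratedDeriv 1 u y)) ^ 2 ≤ (Real.sqrt p * static_f u y) ^ 2 := by
      rw [mul_pow, hll, neg_sq]
      nlinarith [fb y, hu.pos, f1 y]
    have h2 : 0 ≤ Real.sqrt p * static_f u y := mul_nonneg hl.le (by linarith [f1 y])
    exact (abs_le.mp (abs_le_of_sq_le_sq h1 h2)).2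
  have hd : ∀ y, HasDerivAt (fun y => static_f u y * Real.exp (-(Real.sqrt p * y)))
      (-B (-1) (u 0) (iteratedDeriv 1 u y) * Real.exp (-(Real.sqrt p * y)) +
        static_f u y * (Real.exp (-(Real.sqrt p * y)) * (-(Real.sqrt p * 1)))) y := by
    intro y
    exact (fd y).mul (((hasDerivAt_id y).const_mul (Real.sqrt p)).neg.exp)
  have hanti : Antitone (fun y => static_f u y * Real.exp (-(Real.sqrt p * y))) := by
    apply antitone_of_deriv_nonpos
    · exact fun y => (hd y).differentiableAt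
    · intro y
      rw [(hd y).deriv]
      have := hb y
      have he := Real.exp_pos (-(Real.sqrt p * y))
      nlinarith
  have h3 := hanti hx
  simp only [mul_zero, neg_zero, Real.exp_zero, mul_one, f0] at h3
  rw [Real.exp_neg] at h3
  have he := Real.exp_pos (Real.sqrt p * x)
  rwa [← div_eq_mul_inv, div_le_one he] at h3

/-- linear bound of `sqrt (f² - 1)` -/
lemma static_f_sqrt (hT : ClaimTan) (hB : BRules) (hC : ConIds) {p : ℝ} {u : ℝ → V n}
    (hu : Con (-1) p u) (x : ℝ) (hx : x ∈ Icc 0 (2 * Real.pi)) :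
    Real.sqrt (static_f u x ^ 2 - 1) ≤
      2 * Real.pi * (Real.sqrt p * Real.exp (Real.sqrt p * (2 * Real.pi))) := by
  obtain ⟨f0, f1, fd, fb, -⟩ := static_f_facts hT hB hC hu
  have hl : 0 < Real.sqrt p := Real.sqrt_pos.mpr hu.pos
  have hll : Real.sqrt p ^ 2 = p := Real.sq_sqrt hu.pos.le
  set M := Real.sqrt p * Real.exp (Real.sqrt p * (2 * Real.pi)) with hM
  have hMpos : 0 < M := by positivity
  have hfexp : ∀ y ∈ Icc 0 (2 * Real.pi), Real.sqrt p * static_f u y ≤ M := by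
    intro y hy
    have h1 := static_f_exp hT hB hC hu y hy.1
    have h2 : Real.exp (Real.sqrt p * y) ≤ Real.exp (Real.sqrt p * (2 * Real.pi)) :=
      Real.exp_le_exp.mpr (mul_le_mul_of_nonneg_left hy.2 hl.le)
    exact mul_le_mul_of_nonneg_left (h1.trans h2) hl.le
  have key : ∀ ε : ℝ, 0 < ε → Real.sqrt (static_f u x ^ 2 - 1) ≤ ε + 2 * Real.pi * M := by
    intro ε hε
    have hpos : ∀ y, 0 < static_f u y ^ 2 - 1 + ε ^ 2 := by
      intro y; nlinarith [f1 y, sq_pos_of_pos hε]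
    have hd : ∀ y, HasDerivAt (fun y => Real.sqrt (static_f u y ^ 2 - 1 + ε ^ 2) - M * y)
        ((2 * static_f u y * (-B (-1) (u 0) (iteratedDeriv 1 u y))) /
          (2 * Real.sqrt (static_f u y ^ 2 - 1 + ε ^ 2)) - M) y := by
      intro y
      have h1 := (((fd y).fun_pow 2).sub_const 1).add_const (ε ^ 2)
      have h2 := h1.sqrt (hpos y).ne'
      have h3 := h2.fun_sub ((hasDerivAt_id' y).const_mul M)
      refine h3.congr_deriv ?_
      norm_num
    have hanti : AntitoneOn (fun y => Real.sqrt (static_f u y ^ 2 - 1 + ε ^ 2) - M * y)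
        (Icc 0 (2 * Real.pi)) := by
      apply antitoneOn_of_deriv_nonpos (convex_Icc _ _)
      · exact fun y _ => (hd y).continuousAt.continuousWithinAt
      · exact fun y _ => (hd y).differentiableAt.differentiableWithinAt
      · intro y hy
        rw [interior_Icc] at hy
        rw [(hd y).deriv]
        have hy' : y ∈ Icc 0 (2 * Real.pi) := ⟨hy.1.le, hy.2.le⟩
        have hS : 0 < Real.sqrt (static_f u y ^ 2 - 1 + ε ^ 2) := Real.sqrt_pos.mpr (hpos y)
        have hSS : Real.sqrt (static_f u y ^ 2 - 1 + ε ^ 2) ^ 2 = static_f u y ^ 2 - 1 + ε ^ 2 :=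
          Real.sq_sqrt (hpos y).le
        set S := Real.sqrt (static_f u y ^ 2 - 1 + ε ^ 2) with hSdef
        have h1 : (-B (-1) (u 0) (iteratedDeriv 1 u y)) ^ 2 ≤ (Real.sqrt p * S) ^ 2 := by
          rw [mul_pow, hll, neg_sq, hSS]
          nlinarith [fb y, hu.pos, sq_nonneg ε]
        have h2 : -B (-1) (u 0) (iteratedDeriv 1 u y) ≤ Real.sqrt p * S :=
          (abs_le.mp (abs_le_of_sq_le_sq h1 (by positivity))).2
        have h3 : (2 * static_f u y * (-B (-1) (u 0) (iteratedDeriv 1 u y))) / (2 * S) ≤ M := by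
          rw [div_le_iff₀ (by positivity)]
          have h4 : static_f u y * (-B (-1) (u 0) (iteratedDeriv 1 u y)) ≤
              static_f u y * (Real.sqrt p * S) :=
            mul_le_mul_of_nonneg_left h2 (by linarith [f1 y])
          have h5 : (Real.sqrt p * static_f u y) * S ≤ M * S :=
            mul_le_mul_of_nonneg_right (hfexp y hy') hS.le
          nlinarith
        linarith
    have h0 : (0 : ℝ) ∈ Icc 0 (2 * Real.pi) := ⟨le_rfl, by positivity⟩
    have h1 := hanti h0 hx hx.1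
    simp only [f0, mul_zero, sub_zero] at h1
    have h2 : Real.sqrt (1 ^ 2 - 1 + ε ^ 2) = ε := by
      rw [one_pow, sub_self, zero_add, Real.sqrt_sq hε.le]
    rw [h2] at h1
    have h3 : Real.sqrt (static_f u x ^ 2 - 1) ≤ Real.sqrt (static_f u x ^ 2 - 1 + ε ^ 2) :=
      Real.sqrt_le_sqrt (by nlinarith [sq_nonneg ε])
    have h4 : M * x ≤ M * (2 * Real.pi) := mul_le_mul_of_nonneg_left hx.2 hMpos.le
    linarith
  apply le_of_forall_pos_le_add
  intro ε hε
  have := key ε hε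
  linarith

/-- lower bound of the speed in hyperbolic space -/
lemma static_low_hyp (hT : ClaimTan) (hB : BRules) (hC : ConIds) (hPD : PerDeriv) (hCS : PerCS)
    {p E0 : ℝ} {u : ℝ → V n} (hu : Con (-1) p u) (hE : en (-1) p u ≤ E0) :
    1 ≤ 2 * Real.pi * E0 * Real.exp (2 * E0) * Real.sqrt p := by
  obtain ⟨f0, f1, fd, fb, fk⟩ := static_f_facts hT hB hC hu
  have hσ : Sgn (-1 : ℝ) := Or.inr rfl
  obtain ⟨h1, h2, h3, h4, -⟩ := hB n (-1)
  have hc := hC n (-1) p u hσ hu
  have hp := hu.pos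
  have hl : 0 < Real.sqrt p := Real.sqrt_pos.mpr hp
  have hll : Real.sqrt p * Real.sqrt p = p := Real.mul_self_sqrt hp.le
  have hpi := Real.pi_pos
  obtain ⟨b1, b2, b3, b4⟩ := static_bounds hT hB hC hσ hu hE
  -- `per f = per B(u0, kap)`
  have hfc : Continuous (static_f u) := continuous_iff_continuousAt.mpr fun x => (fd x).continuousAt
  have hkc : Continuous fun x => B (-1) (u 0) (static_kap (-1) p u x) :=
    static_B_cont _ continuous_const (static_kap_cont hu.smooth)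
  have hkk : Continuous fun x => B (-1) (static_kap (-1) p u x) (static_kap (-1) p u x) :=
    static_B_cont _ (static_kap_cont hu.smooth) (static_kap_cont hu.smooth)
  have hzero : per (fun x => -B (-1) (u 0) (iteratedDeriv 2 u x)) = 0 := by
    have hg : ContDiff ℝ 1 (fun x => -B (-1) (u 0) (iteratedDeriv 1 u x)) := by
      have : ContDiff ℝ 1 (iteratedDeriv 1 u) := (static_D1 hu.smooth).of_le (by norm_cast)
      have hi : ∀ i, ContDiff ℝ 1 (fun x => iteratedDeriv 1 u x i) := contDiff_pi.mp this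
      unfold B
      apply ContDiff.neg
      apply ContDiff.add
      · exact contDiff_const.mul (contDiff_const.mul (hi 0))
      · exact ContDiff.sum fun i _ => contDiff_const.mul (hi _)
    have hper : Function.Periodic (fun x => -B (-1) (u 0) (iteratedDeriv 1 u x))
        (2 * Real.pi) := by
      intro x
      have : iteratedDeriv 1 u (x + 2 * Real.pi) = iteratedDeriv 1 u x := by
        have e1 := static_hd0 hu.smooth (x + 2 * Real.pi)
        have e2 : HasDerivAt (fun y => u (y + 2 * Real.pi))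
            (iteratedDeriv 1 u (x + 2 * Real.pi)) x := e1.comp_add_const x (2 * Real.pi)
        have e3 : (fun y => u (y + 2 * Real.pi)) = u := funext fun y => hu.periodic y
        rw [e3] at e2
        exact e2.unique (static_hd0 hu.smooth x)
      simp only [this]
    have hder : deriv (fun x => -B (-1) (u 0) (iteratedDeriv 1 u x)) =
        fun x => -B (-1) (u 0) (iteratedDeriv 2 u x) := by
      funext x
      have h5 := h4 (fun _ => u 0) (iteratedDeriv 1 u) (fun _ => 0) (iteratedDeriv 2 u) univ x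
        (hasDerivWithinAt_const _ _ _) (static_hd1 hu.smooth x).hasDerivWithinAt
      rw [hasDerivWithinAt_univ] at h5
      have h6 : B (-1) (0 : V n) (iteratedDeriv 1 u x) = 0 := by
        unfold B; simp
      rw [h6, zero_add] at h5
      exact h5.neg.deriv
    rw [← hder]
    exact hPD _ hg hper
  have hrel : ∀ x, -B (-1) (u 0) (iteratedDeriv 2 u x) =
      p * (static_f u x - B (-1) (u 0) (static_kap (-1) p u x)) := by
    intro x
    unfold static_kap static_f
    rw [static_B_add_right hB, static_B_smul_right hB, static_B_smul_right hB]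
    field_simp
    ring
  have hperf : per (static_f u) = per (fun x => B (-1) (u 0) (static_kap (-1) p u x)) := by
    simp only [hrel] at hzero
    unfold per at hzero ⊢
    rw [intervalIntegral.integral_const_mul, intervalIntegral.integral_sub
      (hfc.intervalIntegrable _ _) (hkc.intervalIntegrable _ _)] at hzero
    have := (mul_eq_zero.mp hzero).resolve_left hp.ne'
    linarith
  set M := 2 * Real.pi * (Real.sqrt p * Real.exp (Real.sqrt p * (2 * Real.pi))) with hM
  have hMpos : 0 < M := by positivity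
  have hkn : ∀ x, 0 ≤ B (-1) (static_kap (-1) p u x) (static_kap (-1) p u x) := fun x =>
    (hT n (-1) 0 hσ).1 _ (hu.mem x) _ (static_kap_tan hB hC hσ hu x)
  have hsqc : Continuous fun x =>
      Real.sqrt (B (-1) (static_kap (-1) p u x) (static_kap (-1) p u x)) := hkk.sqrt
  have hstep : 2 * Real.pi ≤
      per (fun x => M * Real.sqrt (B (-1) (static_kap (-1) p u x) (static_kap (-1) p u x))) := by
    calc 2 * Real.pi = per (fun _ => (1 : ℝ)) := by rw [static_per_const]; ring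
      _ ≤ per (static_f u) := static_per_mono continuous_const hfc fun x _ => f1 x
      _ = per (fun x => B (-1) (u 0) (static_kap (-1) p u x)) := hperf
      _ ≤ _ := by
          refine static_per_mono hkc (continuous_const.mul hsqc) fun x hx => ?_
          have e1 := static_f_sqrt hT hB hC hu x hx
          have e2 : B (-1) (u 0) (static_kap (-1) p u x) ≤ Real.sqrt ((static_f u x ^ 2 - 1) *
              B (-1) (static_kap (-1) p u x) (static_kap (-1) p u x)) :=
            Real.le_sqrt_of_sq_le (fk x)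
          rw [Real.sqrt_mul (by nlinarith [f1 x])] at e2
          exact e2.trans (mul_le_mul_of_nonneg_right e1 (Real.sqrt_nonneg _))
  have hstep2 : per (fun x =>
      M * Real.sqrt (B (-1) (static_kap (-1) p u x) (static_kap (-1) p u x))) ^ 2 ≤
      M ^ 2 * (2 * Real.pi) *
        per (fun x => B (-1) (static_kap (-1) p u x) (static_kap (-1) p u x)) := by
    have e1 := hCS (fun _ => M)
      (fun x => Real.sqrt (B (-1) (static_kap (-1) p u x) (static_kap (-1) p u x)))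
      continuous_const hsqc
    have e2 : (fun x => Real.sqrt (B (-1) (static_kap (-1) p u x) (static_kap (-1) p u x)) ^ 2) =
        fun x => B (-1) (static_kap (-1) p u x) (static_kap (-1) p u x) := by
      funext x; exact Real.sq_sqrt (hkn x)
    rw [e2, static_per_const] at e1
    calc _ ≤ _ := e1
      _ = _ := by ring
  set Q := per (fun x => B (-1) (static_kap (-1) p u x) (static_kap (-1) p u x)) with hQ
  have hfin : (2 * Real.pi) ^ 2 ≤ M ^ 2 * (2 * Real.pi) * Q :=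
    (pow_le_pow_left₀ (by positivity) hstep 2).trans hstep2
  -- conclusion
  have hE0 : 0 ≤ E0 := by nlinarith
  have hex : Real.exp (Real.sqrt p * (2 * Real.pi)) ≤ Real.exp E0 :=
    Real.exp_le_exp.mpr (by linarith)
  have hM2 : M ≤ 2 * Real.pi * (Real.sqrt p * Real.exp E0) := by
    rw [hM]
    gcongr
  have e5 : (2 * Real.pi) ^ 2 ≤
      (2 * Real.pi * (Real.sqrt p * Real.exp E0)) ^ 2 * (2 * Real.pi) * Q := by
    refine hfin.trans ?_
    gcongr
  have e6 : (2 * Real.pi * (Real.sqrt p * Real.exp E0)) ^ 2 * (2 * Real.pi) * Q =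
      (2 * Real.pi) ^ 2 * ((Real.exp E0) ^ 2 * (2 * Real.pi) * Real.sqrt p *
        (Real.sqrt p * Q)) := by ring
  rw [e6] at e5
  have e7 : 1 ≤ (Real.exp E0) ^ 2 * (2 * Real.pi) * Real.sqrt p * (Real.sqrt p * Q) := by
    have : 0 < (2 * Real.pi) ^ 2 := by positivity
    exact le_of_mul_le_mul_left (by rw [mul_one]; exact e5) this
  have e8 : (Real.exp E0) ^ 2 = Real.exp (2 * E0) := by
    rw [← Real.exp_nat_mul]; norm_num
  calc 1 ≤ (Real.exp E0) ^ 2 * (2 * Real.pi) * Real.sqrt p * (Real.sqrt p * Q) := e7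
    _ ≤ (Real.exp E0) ^ 2 * (2 * Real.pi) * Real.sqrt p * E0 := by gcongr
    _ = 2 * Real.pi * E0 * Real.exp (2 * E0) * Real.sqrt p := by rw [e8]; ring

/-- G2, first part. -/
theorem claimStatic (hT : ClaimTan) (hB : BRules) (hC : ConIds) (hPD : PerDeriv) (hCS : PerCS)
    (hP : Poincare) : ClaimStatic := by
  intro n σ E0 hσ
  refine ⟨1 + (E0 / (2 * Real.pi)) ^ 2 + (2 * Real.pi * E0 * Real.exp (2 * E0)) ^ 2 +
    2 * Real.exp (2 * E0), by positivity, ?_⟩
  intro u p hu hE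
  have hp := hu.pos
  have hl : 0 < Real.sqrt p := Real.sqrt_pos.mpr hp
  have hll : Real.sqrt p ^ 2 = p := Real.sq_sqrt hp.le
  have hpi := Real.pi_pos
  obtain ⟨b1, b2, b3, b4⟩ := static_bounds hT hB hC hσ hu hE
  have hE0 : 0 ≤ E0 := b4.trans hE
  have hexp := Real.exp_pos (2 * E0)
  have hup : p ≤ (E0 / (2 * Real.pi)) ^ 2 := by
    rw [← hll]
    apply pow_le_pow_left₀ hl.le
    rw [le_div_iff₀ (by positivity)]; linarith
  have n1 : 0 ≤ (E0 / (2 * Real.pi)) ^ 2 := by positivity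
  have n2 : 0 ≤ (2 * Real.pi * E0 * Real.exp (2 * E0)) ^ 2 := by positivity
  have hlow : p⁻¹ ≤ (E0 / (2 * Real.pi)) ^ 2 + (2 * Real.pi * E0 * Real.exp (2 * E0)) ^ 2 := by
    rcases hσ with rfl | rfl
    · have h1 := static_low_sphere hC hP hu hE
      have h2 : (Real.sqrt p)⁻¹ ≤ E0 / (2 * Real.pi) := by
        rw [inv_le_iff_one_le_mul₀ hl, div_mul_eq_mul_div, le_div_iff₀ (by positivity)]
        linarith
      have h3 : p⁻¹ ≤ (E0 / (2 * Real.pi)) ^ 2 := by
        rw [← hll, ← inv_pow]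
        exact pow_le_pow_left₀ (by positivity) h2 2
      linarith
    · have h1 := static_low_hyp hT hB hC hPD hCS hu hE
      have h2 : (Real.sqrt p)⁻¹ ≤ 2 * Real.pi * E0 * Real.exp (2 * E0) := by
        rw [inv_le_iff_one_le_mul₀ hl]
        exact h1
      have h3 : p⁻¹ ≤ (2 * Real.pi * E0 * Real.exp (2 * E0)) ^ 2 := by
        rw [← hll, ← inv_pow]
        exact pow_le_pow_left₀ (by positivity) h2 2
      linarith
  refine ⟨?_, by linarith, b4, ?_⟩
  · apply inv_le_of_inv_le₀ hp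
    linarith
  · intro hu0
    rcases hσ with rfl | rfl
    · intro x
      rw [← static_B_one, (hu.mem x).1]
      linarith
    · -- reduce to one period
      have key : ∀ x ∈ Icc 0 (2 * Real.pi), nsq (u x) ≤ 2 * Real.exp (2 * E0) := by
        intro x hx
        have h1 := static_f_exp hT hB hC hu x hx.1
        have h2 : static_f u x = u x 0 := by
          unfold static_f B
          rw [hu0]
          simp [e0]
        have h3 : nsq (u x) = 2 * (u x 0) ^ 2 - 1 := by
          have h4 := (hu.mem x).1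
          unfold B at h4
          unfold nsq
          rw [Fin.sum_univ_succ]
          have h5 : ∑ i : Fin n, u x i.succ ^ 2 = ∑ i : Fin n, u x i.succ * u x i.succ :=
            Finset.sum_congr rfl fun i _ => by ring
          rw [h5]; linarith
        have h6 : Real.exp (Real.sqrt p * x) ≤ Real.exp E0 := by
          apply Real.exp_le_exp.mpr
          calc Real.sqrt p * x ≤ Real.sqrt p * (2 * Real.pi) :=
                mul_le_mul_of_nonneg_left hx.2 hl.le
            _ ≤ E0 := by linarith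
        have h7 : 1 ≤ static_f u x := (static_f_facts hT hB hC hu).2.1 x
        have h8 : static_f u x ^ 2 ≤ Real.exp E0 ^ 2 :=
          pow_le_pow_left₀ (by linarith) (h1.trans h6) 2
        have h9 : Real.exp E0 ^ 2 = Real.exp (2 * E0) := by
          rw [← Real.exp_nat_mul]; norm_num
        rw [h3, ← h2]
        linarith
      intro x
      obtain ⟨y, hy, hxy⟩ := hu.periodic.exists_mem_Ico₀ (by positivity) x
      rw [hxy]
      have := key y ⟨hy.1, hy.2.le⟩
      linarith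

/-- G2, second part. -/
theorem claimStatic2 (hT : ClaimTan) (hB : BRules) (hC : ConIds) : ClaimStatic2 := by
  intro n σ E0 K hσ
  obtain ⟨C, hC0, hCb⟩ := (hT n σ K hσ).2
  refine ⟨1 + 2 * (C * ((E0 / (2 * Real.pi)) ^ 3 * |E0|)) +
    2 * ((E0 / (2 * Real.pi)) ^ 4 * (2 * Real.pi * |K|)) +
    2 * (C * (|E0 / (2 * Real.pi)| ^ 3 * |E0|)), ?_, ?_⟩
  · have : 0 ≤ 2 * (C * ((E0 / (2 * Real.pi)) ^ 3 * |E0|)) +
        2 * (C * (|E0 / (2 * Real.pi)| ^ 3 * |E0|)) := by
      have h1 : -(|E0 / (2 * Real.pi)| ^ 3) ≤ (E0 / (2 * Real.pi)) ^ 3 := by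
        rw [← abs_pow]; exact neg_abs_le _
      have h2 : 0 ≤ ((E0 / (2 * Real.pi)) ^ 3 + |E0 / (2 * Real.pi)| ^ 3) * |E0| :=
        mul_nonneg (by linarith) (abs_nonneg _)
      have h3 : 0 ≤ C * (((E0 / (2 * Real.pi)) ^ 3 + |E0 / (2 * Real.pi)| ^ 3) * |E0|) :=
        mul_nonneg hC0.le h2
      nlinarith
    have : 0 ≤ 2 * ((E0 / (2 * Real.pi)) ^ 4 * (2 * Real.pi * |K|)) := by positivity
    linarith
  intro u p hu hE hK
  have hp := hu.pos
  have hl : 0 < Real.sqrt p := Real.sqrt_pos.mpr hp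
  have hll : Real.sqrt p ^ 2 = p := Real.sq_sqrt hp.le
  have hpi := Real.pi_pos
  obtain ⟨b1, b2, b3, b4⟩ := static_bounds hT hB hC hσ hu hE
  have hE0 : 0 ≤ E0 := b4.trans hE
  have hK0 : 0 ≤ K := by
    refine le_trans ?_ (hK 0)
    unfold nsq; positivity
  have hlE : Real.sqrt p ≤ E0 / (2 * Real.pi) := by
    rw [le_div_iff₀ (by positivity)]; linarith
  have hpt : ∀ x, nsq (iteratedDeriv 2 u x) ≤
      2 * p ^ 2 * (C * B σ (static_kap σ p u x) (static_kap σ p u x)) + 2 * p ^ 2 * K := by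
    intro x
    have h1 := hCb _ (hu.mem x) (hK x) _ (static_kap_tan hB hC hσ hu x)
    have h2 : iteratedDeriv 2 u x = p • (static_kap σ p u x - σ • u x) := by
      unfold static_kap
      rw [add_sub_cancel_right, smul_smul, mul_inv_cancel₀ hp.ne', one_smul]
    have h3 : nsq (iteratedDeriv 2 u x) ≤ 2 * p ^ 2 * nsq (static_kap σ p u x) +
        2 * p ^ 2 * nsq (u x) := by
      conv_lhs => rw [h2]
      unfold nsq
      rw [Finset.mul_sum, Finset.mul_sum, ← Finset.sum_add_distrib]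
      refine Finset.sum_le_sum fun i _ => ?_
      simp only [Pi.smul_apply, Pi.sub_apply, smul_eq_mul]
      have hs := static_sq hσ
      have e1 : (p * (static_kap σ p u x i - σ * u x i)) ^ 2 =
          p ^ 2 * (static_kap σ p u x i - σ * u x i) ^ 2 := by ring
      have e2 : (static_kap σ p u x i - σ * u x i) ^ 2 ≤
          2 * static_kap σ p u x i ^ 2 + 2 * u x i ^ 2 := by
        have : (σ * u x i) ^ 2 = u x i ^ 2 := by
          calc (σ * u x i) ^ 2 = (σ * σ) * u x i ^ 2 := by ring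
            _ = _ := by rw [hs, one_mul]
        nlinarith [sq_nonneg (static_kap σ p u x i + σ * u x i)]
      rw [e1]
      nlinarith [mul_le_mul_of_nonneg_left e2 (sq_nonneg p)]
    have h4 : nsq (u x) ≤ K := hK x
    have h5 : 2 * p ^ 2 * nsq (static_kap σ p u x) ≤
        2 * p ^ 2 * (C * B σ (static_kap σ p u x) (static_kap σ p u x)) :=
      mul_le_mul_of_nonneg_left h1 (by positivity)
    have h6 : 2 * p ^ 2 * nsq (u x) ≤ 2 * p ^ 2 * K :=
      mul_le_mul_of_nonneg_left h4 (by positivity)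
    linarith
  have hc2 : Continuous fun x => nsq (iteratedDeriv 2 u x) := by
    have := (static_D2 hu.smooth).continuous
    unfold nsq
    exact continuous_finsetSum _ fun i _ => ((continuous_apply i).comp this).pow 2
  have hkk : Continuous fun x => B σ (static_kap σ p u x) (static_kap σ p u x) :=
    static_B_cont _ (static_kap_cont hu.smooth) (static_kap_cont hu.smooth)
  set Q := per (fun x => B σ (static_kap σ p u x) (static_kap σ p u x)) with hQ
  have hint : per (fun x => nsq (iteratedDeriv 2 u x)) ≤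
      2 * p ^ 2 * (C * Q) + 2 * Real.pi * (2 * p ^ 2 * K) := by
    have hgc : Continuous fun x => 2 * p ^ 2 * (C * B σ (static_kap σ p u x)
        (static_kap σ p u x)) + 2 * p ^ 2 * K :=
      (continuous_const.mul (continuous_const.mul hkk)).add continuous_const
    refine (static_per_mono hc2 hgc fun x _ => hpt x).trans (le_of_eq ?_)
    unfold per
    rw [intervalIntegral.integral_add, intervalIntegral.integral_const_mul,
      intervalIntegral.integral_const_mul, intervalIntegral.integral_const]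
    · simp [hQ, per]
    · exact (continuous_const.mul (continuous_const.mul hkk)).intervalIntegrable _ _
    · exact continuous_const.intervalIntegrable _ _
  have hpQ : p ^ 2 * Q ≤ (E0 / (2 * Real.pi)) ^ 3 * |E0| := by
    have e1 : p ^ 2 * Q = Real.sqrt p ^ 3 * (Real.sqrt p * Q) := by
      calc p ^ 2 * Q = (Real.sqrt p ^ 2) ^ 2 * Q := by rw [hll]
        _ = _ := by ring
    rw [e1, abs_of_nonneg hE0]
    exact mul_le_mul (pow_le_pow_left₀ hl.le hlE 3) b2 (by positivity) (by positivity)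
  have hp4 : p ^ 2 ≤ (E0 / (2 * Real.pi)) ^ 4 := by
    calc p ^ 2 = Real.sqrt p ^ 4 := by
          calc p ^ 2 = (Real.sqrt p ^ 2) ^ 2 := by rw [hll]
            _ = _ := by ring
      _ ≤ _ := pow_le_pow_left₀ hl.le hlE 4
  have t1 : 2 * p ^ 2 * (C * Q) ≤ 2 * (C * ((E0 / (2 * Real.pi)) ^ 3 * |E0|)) := by
    have := mul_le_mul_of_nonneg_left hpQ hC0.le
    nlinarith
  have t2 : 2 * Real.pi * (2 * p ^ 2 * K) ≤
      2 * ((E0 / (2 * Real.pi)) ^ 4 * (2 * Real.pi * |K|)) := by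
    rw [abs_of_nonneg hK0]
    have := mul_le_mul_of_nonneg_right hp4 (by positivity : 0 ≤ 2 * Real.pi * K)
    nlinarith
  have t3 : 0 ≤ 2 * (C * (|E0 / (2 * Real.pi)| ^ 3 * |E0|)) := by positivity
  linarith

end Pool.Agent.Work.MP_4a14ce_an

end

section

/-!
# E4: a sequence of times along which the curves converge modulo isometries
-/

open Set MeasureTheory Topology Filter
open scoped ContDiff

namespace Pool.Agent.Work.MP_4a14ce_an

variable {n : ℕ}

lemma sub_B_cont (σ : ℝ) : Continuous (fun z : V n × V n => B σ z.1 z.2) := by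
  unfold B; fun_prop

/-- The velocity as a function of the jet. -/
noncomputable def subF (σ : ℝ) (z : ℝ × ℝ × (Fin 5 → V n)) : V n :=
  -(2 : ℝ) • z.2.2 4 - (2 * σ * z.1) • z.2.2 2
    - (3 * z.2.1 * (2 * B σ (z.2.2 2) (z.2.2 3))) • z.2.2 1
    + (2 * σ * (B σ (z.2.2 2) (z.2.2 2) - σ * z.1 ^ 2)) • z.2.2 0
    - (3 * z.2.1 * (B σ (z.2.2 2) (z.2.2 2) - σ * z.1 ^ 2) + (2 * σ - 1) * z.1) •
      (z.2.2 2 + (σ * z.1) • z.2.2 0)

lemma subF_cont (σ : ℝ) : Continuous (subF (n := n) σ) := by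
  unfold subF B; fun_prop

lemma sub_vel_eq (σ p m : ℝ) (u : ℝ → V n) (x : ℝ) :
    vel σ p m u x = subF σ (p, m, fun j => iteratedDeriv (j : ℕ) u x) := by
  have h0 : iteratedDeriv (((0 : Fin 5) : ℕ)) u x = u x := by simp
  simp only [vel, subF, rho, rhox, beta]
  rw [h0]
  rfl

lemma sub_norm_le {v : V n} {C : ℝ} (h : nsq v ≤ C) : ‖v‖ ≤ 1 + |C| := by
  rw [pi_norm_le_iff_of_nonneg (by positivity)]
  intro i
  have h1 : v i ^ 2 ≤ nsq v :=
    Finset.single_le_sum (f := fun i => v i ^ 2) (fun i _ => sq_nonneg _) (Finset.mem_univ i)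
  have h2 : C ≤ |C| := le_abs_self C
  rw [Real.norm_eq_abs, abs_le]
  constructor <;> nlinarith [sq_nonneg (v i - 1), sq_nonneg (v i + 1), abs_nonneg C]

lemma sub_per_iter {u : ℝ → V n} (hu : Function.Periodic u (2 * Real.pi)) (j : ℕ) :
    Function.Periodic (iteratedDeriv j u) (2 * Real.pi) := by
  intro x
  have h := congrFun (iteratedDeriv_comp_add_const (𝕜 := ℝ) j u (2 * Real.pi)) x
  rw [← h]
  congr 1
  funext y
  exact hu y


lemma sub_dis_nonneg (h1 : ClaimTan) (h2 : ClaimVelTan) {σ p : ℝ} {u : ℝ → V n} (hs : Sgn σ)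
    (hc : Con σ p u) : 0 ≤ dis σ p u := by
  unfold dis per
  apply intervalIntegral.integral_nonneg (by positivity)
  intro x _
  exact (h1 n σ 0 hs).1 (u x) (hc.mem x) _ (h2 n σ p u hs hc x).1

/-- Times with small dissipation. -/
lemma sub_times (h1 : ClaimTan) (h2 : ClaimVelTan) (h3 : ClaimEnergy) (h4 : ClaimStatic)
    {σ : ℝ} {u : ℝ → ℝ → V n} {p : ℝ → ℝ} (hs : Sgn σ) (hc : CSol σ (Ici 0) u p) {K : ℝ}
    (hK : 0 < K) (hp : ∀ t ∈ Ici (0 : ℝ), K⁻¹ ≤ p t ∧ p t ≤ K) {a ε : ℝ} (ha : 0 ≤ a)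
    (hε : 0 < ε) : ∃ t, a ≤ t ∧ dis σ (p t) (u t) ≤ ε := by
  by_contra hcon
  push Not at hcon
  set f : ℝ → ℝ := fun s => en σ (p s) (u s) with hf
  have hd : ∀ t ∈ Ici (0 : ℝ), HasDerivWithinAt f
      (-((p t * Real.sqrt (p t))⁻¹ * dis σ (p t) (u t))) (Ici 0) t :=
    h3 n σ (Ici 0) u p hs (Or.inl ⟨0, rfl⟩) hc
  have hfc : ContinuousOn f (Ici 0) := fun t ht => (hd t ht).continuousWithinAt
  have hd' : ∀ t > (0 : ℝ), HasDerivAt f
      (-((p t * Real.sqrt (p t))⁻¹ * dis σ (p t) (u t))) t :=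
    fun t ht => (hd t (le_of_lt ht)).hasDerivAt (Ici_mem_nhds ht)
  have hdn : ∀ t ∈ Ici (0 : ℝ), 0 ≤ dis σ (p t) (u t) := fun t ht =>
    sub_dis_nonneg h1 h2 hs (hc.con t ht)
  have hanti : ∀ t ∈ Ici (0 : ℝ), f t ≤ f 0 := by
    have : AntitoneOn f (Ici 0) := by
      apply antitoneOn_of_deriv_nonpos (convex_Ici 0) hfc
      · intro t ht
        rw [interior_Ici] at ht
        exact (hd' t ht).differentiableAt.differentiableWithinAt
      · intro t ht
        rw [interior_Ici] at ht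
        rw [(hd' t ht).deriv]
        have ht0 : (0 : ℝ) ≤ t := le_of_lt ht
        have hp0 : 0 < p t := lt_of_lt_of_le (inv_pos.mpr hK) (hp t ht0).1
        have := hdn t ht0
        have h5 : 0 ≤ (p t * Real.sqrt (p t))⁻¹ * dis σ (p t) (u t) := by positivity
        linarith
    intro t ht
    exact this (mem_Ici.mpr le_rfl) ht ht
  obtain ⟨K', hK', hst⟩ := h4 n σ (f 0) hs
  have hpos : ∀ t ∈ Ici (0 : ℝ), 0 ≤ f t := fun t ht =>
    (hst (u t) (p t) (hc.con t ht) (hanti t ht)).2.2.1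
  set c : ℝ := (K * Real.sqrt K)⁻¹ * ε with hcdef
  have hcpos : 0 < c := by positivity
  have hkey : ∀ y ∈ Ici a, a ≤ y → f y - f a ≤ -c * (y - a) := by
    intro y hy hay
    refine Convex.image_sub_le_mul_sub_of_deriv_le (convex_Ici a)
      (hfc.mono (Ici_subset_Ici.mpr ha)) ?_ ?_ a (mem_Ici.mpr le_rfl) y hy hay
    · intro t ht
      rw [interior_Ici] at ht
      exact (hd' t (lt_of_le_of_lt ha ht)).differentiableAt.differentiableWithinAt
    · intro t ht
      rw [interior_Ici] at ht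
      have ht0 : 0 < t := lt_of_le_of_lt ha ht
      rw [(hd' t ht0).deriv]
      have hp0 : 0 < p t := lt_of_lt_of_le (inv_pos.mpr hK) (hp t (le_of_lt ht0)).1
      have hp1 := (hp t (le_of_lt ht0)).2
      have h6 : (K * Real.sqrt K)⁻¹ ≤ (p t * Real.sqrt (p t))⁻¹ := by
        gcongr
      have h7 := (hcon t (le_of_lt ht)).le
      have h8 : c ≤ (p t * Real.sqrt (p t))⁻¹ * dis σ (p t) (u t) := by
        rw [hcdef]
        gcongr
      linarith
  have h9 := hkey (a + (f a + 1) / c) (by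
    have := hpos a ha
    rw [mem_Ici]
    have : 0 ≤ (f a + 1) / c := by positivity
    linarith) (by
    have := hpos a ha
    have : 0 ≤ (f a + 1) / c := by positivity
    linarith)
  have h10 := hpos (a + (f a + 1) / c) (by
    have := hpos a ha
    rw [mem_Ici]
    have : 0 ≤ (f a + 1) / c := by positivity
    linarith)
  have h11 : -c * (a + (f a + 1) / c - a) = -(f a + 1) := by
    field_simp
    ring
  rw [h11] at h9
  linarith

theorem claimSub (h1 : ClaimTan) (h2 : ClaimVelTan) (h3 : ClaimEnergy) (h4 : ClaimStatic)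
    (h5 : ClaimBounds) (h6 : ClaimCompact) (h7 : ClaimInv) (h8 : ClaimIso) : ClaimSub := by
  intro n σ u p hs hc
  obtain ⟨⟨K, hK, hp⟩, hb⟩ := h5 n σ u p hs hc
  have ht : ∀ k : ℕ, ∃ t, (k : ℝ) ≤ t ∧ dis σ (p t) (u t) ≤ ((k : ℝ) + 1)⁻¹ := fun k =>
    sub_times h1 h2 h3 h4 hs hc hK hp (Nat.cast_nonneg k) (by positivity)
  choose s hs1 hs2 using ht
  have hs0 : ∀ k, 0 ≤ s k := fun k => le_trans (Nat.cast_nonneg k) (hs1 k)
  have hg : ∀ k : ℕ, ∃ g, IsIso σ g ∧ g (u (s k) 0) = e0 n := fun k =>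
    (h8 n σ 0 hs).1 _ ((hc.con (s k) (hs0 k)).mem 0)
  choose g hg1 hg2 using hg
  set f : ℕ → ℝ → V n := fun k y => g k (u (s k) y) with hf
  have hinv : ∀ k, Con σ (p (s k)) (f k) ∧ en σ (p (s k)) (f k) = en σ (p (s k)) (u (s k)) ∧
      dis σ (p (s k)) (f k) = dis σ (p (s k)) (u (s k)) := fun k => by
    have h := (h7 n σ (g k) hs (hg1 k)).2.1 (u (s k)) (p (s k)) (hc.con (s k) (hs0 k))
    exact ⟨h.1, h.2.1, h.2.2.1⟩
  have hcon : ∀ k, Con σ (p (s k)) (f k) := fun k => (hinv k).1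
  choose Cj hCj using hb
  have hbd : ∀ j : ℕ, ∀ k x, nsq (iteratedDeriv j (f k) x) ≤ Cj j := fun j k x =>
    hCj j (s k) (hs0 k) (g k) (hg1 k) (hg2 k) x
  obtain ⟨φ, v, hφ, hv, hvp, hlim⟩ := h6 n f (fun k => (hcon k).smooth)
    (fun k => (hcon k).periodic) (fun j => ⟨Cj j, hbd j⟩)
  have hpt : ∀ j x, Tendsto (fun k => iteratedDeriv j (f (φ k)) x) atTop
      (𝓝 (iteratedDeriv j v x)) := fun j x => (hlim j).tendsto_at x
  have hpt0 : ∀ x, Tendsto (fun k => f (φ k) x) atTop (𝓝 (v x)) := fun x => by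
    have := hpt 0 x
    simpa using this
  have hpt1 : ∀ x, Tendsto (fun k => deriv (f (φ k)) x) atTop (𝓝 (deriv v x)) := fun x => by
    have := hpt 1 x
    simpa [iteratedDeriv_one] using this
  set q : ℝ := B σ (deriv v 0) (deriv v 0) with hq
  have hsp : ∀ x, Tendsto (fun k => p (s (φ k))) atTop
      (𝓝 (B σ (deriv v x) (deriv v x))) := fun x => by
    have h := ((sub_B_cont (n := n) σ).tendsto (deriv v x, deriv v x)).comp
      ((hpt1 x).prodMk_nhds (hpt1 x))
    refine h.congr fun k => ?_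
    exact (hcon (φ k)).speed x
  have hpq : Tendsto (fun k => p (s (φ k))) atTop (𝓝 q) := hsp 0
  have hspeed : ∀ x, B σ (deriv v x) (deriv v x) = q := fun x =>
    tendsto_nhds_unique (hsp x) hpq
  have hqK : K⁻¹ ≤ q := ge_of_tendsto' hpq fun k => (hp _ (hs0 _)).1
  have hq0 : 0 < q := lt_of_lt_of_le (inv_pos.mpr hK) hqK
  have hBv : ∀ x, B σ (v x) (v x) = σ := fun x => by
    have h := ((sub_B_cont (n := n) σ).tendsto (v x, v x)).comp
      ((hpt0 x).prodMk_nhds (hpt0 x))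
    refine tendsto_nhds_unique h ?_
    refine tendsto_const_nhds.congr fun k => ?_
    exact ((hcon (φ k)).mem x).1.symm
  have hmem : ∀ x, v x ∈ space σ n := fun x => by
    refine ⟨hBv x, fun hneg => ?_⟩
    have h0 : Tendsto (fun k => f (φ k) x 0) atTop (𝓝 (v x 0)) :=
      ((continuous_apply (0 : Fin (n + 1))).tendsto _).comp (hpt0 x)
    have h01 : 0 ≤ v x 0 := ge_of_tendsto' h0 fun k => (((hcon (φ k)).mem x).2 hneg).le
    rcases h01.lt_or_eq with h | h
    · exact h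
    · exfalso
      have hB := hBv x
      unfold B at hB
      rw [← h] at hB
      have : 0 ≤ ∑ i : Fin n, v x i.succ * v x i.succ :=
        Finset.sum_nonneg fun i _ => mul_self_nonneg _
      linarith
  have hV : Con σ q v := ⟨hv, hvp, hmem, hspeed, hq0⟩
  have htan := fun x => (h2 n σ q v hs hV x).1
  -- the velocity of the limit
  have hm : Tendsto (fun k => (p (s (φ k)))⁻¹) atTop (𝓝 q⁻¹) := hpq.inv₀ hq0.ne'
  have hjet : ∀ x, Tendsto (fun k => ((p (s (φ k)), (p (s (φ k)))⁻¹,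
      fun j : Fin 5 => iteratedDeriv (j : ℕ) (f (φ k)) x) : ℝ × ℝ × (Fin 5 → V n))) atTop
      (𝓝 (q, q⁻¹, fun j : Fin 5 => iteratedDeriv (j : ℕ) v x)) := fun x =>
    hpq.prodMk_nhds (hm.prodMk_nhds (tendsto_pi_nhds.mpr fun j => hpt j x))
  set H : ℝ × ℝ × (Fin 5 → V n) → ℝ := fun z => B σ (subF σ z) (subF σ z) with hH
  have hHc : Continuous H := (sub_B_cont (n := n) σ).comp
    ((subF_cont (n := n) σ).prodMk (subF_cont (n := n) σ))
  -- a uniform bound
  set R : ℝ := K + ∑ j : Fin 5, (1 + |Cj j|) with hR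
  have hRn : 0 ≤ R := by positivity
  obtain ⟨M, hM⟩ := (isCompact_closedBall (0 : ℝ × ℝ × (Fin 5 → V n)) R).exists_bound_of_continuousOn
    hHc.continuousOn
  have hball : ∀ k x, ((p (s (φ k)), (p (s (φ k)))⁻¹,
      fun j : Fin 5 => iteratedDeriv (j : ℕ) (f (φ k)) x) : ℝ × ℝ × (Fin 5 → V n)) ∈
      Metric.closedBall (0 : ℝ × ℝ × (Fin 5 → V n)) R := by
    intro k x
    rw [mem_closedBall_zero_iff]
    have hpk := hp (s (φ k)) (hs0 _)
    have hpk0 : 0 < p (s (φ k)) := lt_of_lt_of_le (inv_pos.mpr hK) hpk.1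
    have hsum : 0 ≤ ∑ j : Fin 5, (1 + |Cj j|) := by positivity
    refine norm_prod_le_iff.mpr ⟨?_, norm_prod_le_iff.mpr ⟨?_, ?_⟩⟩
    · rw [Real.norm_of_nonneg hpk0.le]
      linarith [hpk.2]
    · rw [Real.norm_of_nonneg (inv_nonneg.mpr hpk0.le)]
      have : (p (s (φ k)))⁻¹ ≤ K := by
        rw [inv_le_comm₀ hpk0 hK]
        exact hpk.1
      linarith
    · rw [pi_norm_le_iff_of_nonneg hRn]
      intro j
      have h := sub_norm_le (hbd j (φ k) x)
      have h' : 1 + |Cj j| ≤ ∑ j : Fin 5, (1 + |Cj j|) :=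
        Finset.single_le_sum (f := fun j : Fin 5 => 1 + |Cj j|) (fun j _ => by positivity)
          (Finset.mem_univ j)
      linarith
  have hcontf : ∀ (w : ℝ → V n) (a b : ℝ), ContDiff ℝ ∞ w → Continuous (fun x =>
      H (a, b, fun j : Fin 5 => iteratedDeriv (j : ℕ) w x)) := by
    intro w a b hw
    refine hHc.comp ?_
    refine continuous_const.prodMk (continuous_const.prodMk (continuous_pi fun j => ?_))
    exact hw.continuous_iteratedDeriv _ (by exact_mod_cast le_top)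
  have hlimI : Tendsto (fun k => ∫ x in (0 : ℝ)..(2 * Real.pi), H (p (s (φ k)), (p (s (φ k)))⁻¹,
      fun j : Fin 5 => iteratedDeriv (j : ℕ) (f (φ k)) x)) atTop
      (𝓝 (∫ x in (0 : ℝ)..(2 * Real.pi), H (q, q⁻¹,
        fun j : Fin 5 => iteratedDeriv (j : ℕ) v x))) := by
    refine intervalIntegral.tendsto_integral_filter_of_dominated_convergence (fun _ => M) ?_ ?_ ?_ ?_
    · exact Eventually.of_forall fun k => (hcontf _ _ _ (hcon (φ k)).smooth).aestronglyMeasurable
    · exact Eventually.of_forall fun k => Eventually.of_forall fun x _ => hM _ (hball k x)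
    · exact intervalIntegrable_const
    · exact Eventually.of_forall fun x _ => (hHc.tendsto _).comp (hjet x)
  have hdisk : ∀ k, (∫ x in (0 : ℝ)..(2 * Real.pi), H (p (s (φ k)), (p (s (φ k)))⁻¹,
      fun j : Fin 5 => iteratedDeriv (j : ℕ) (f (φ k)) x)) =
      dis σ (p (s (φ k))) (u (s (φ k))) := fun k => by
    rw [← (hinv (φ k)).2.2]
    unfold dis per
    refine intervalIntegral.integral_congr fun x _ => ?_
    simp only [hH, sub_vel_eq]
  have hzero : (∫ x in (0 : ℝ)..(2 * Real.pi), H (q, q⁻¹,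
        fun j : Fin 5 => iteratedDeriv (j : ℕ) v x)) = 0 := by
    refine tendsto_nhds_unique hlimI ?_
    refine squeeze_zero (g := fun k : ℕ => ((k : ℝ) + 1)⁻¹) (fun k => ?_) (fun k => ?_) ?_
    · rw [hdisk]
      exact sub_dis_nonneg h1 h2 hs (hc.con _ (hs0 _))
    · rw [hdisk]
      refine (hs2 (φ k)).trans ?_
      have : (k : ℝ) ≤ (φ k : ℝ) := by exact_mod_cast hφ.id_le k
      gcongr
    · exact tendsto_inv_atTop_zero.comp
        (tendsto_atTop_add_const_right _ _ tendsto_natCast_atTop_atTop)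
  have hHv : ∀ x, H (q, q⁻¹, fun j : Fin 5 => iteratedDeriv (j : ℕ) v x) =
      B σ (vel σ q q⁻¹ v x) (vel σ q q⁻¹ v x) := fun x => by
    simp only [hH, sub_vel_eq]
  have hnn : ∀ x, 0 ≤ H (q, q⁻¹, fun j : Fin 5 => iteratedDeriv (j : ℕ) v x) := fun x => by
    rw [hHv]
    exact (h1 n σ 0 hs).1 (v x) (hmem x) _ (htan x)
  have hper : Function.Periodic (fun x => H (q, q⁻¹, fun j : Fin 5 => iteratedDeriv (j : ℕ) v x))
      (2 * Real.pi) := by
    intro x
    simp only [sub_per_iter hvp _ x]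
  have hHzero : ∀ x, H (q, q⁻¹, fun j : Fin 5 => iteratedDeriv (j : ℕ) v x) = 0 := by
    intro x
    by_contra hne
    have hpos : 0 < H (q, q⁻¹, fun j : Fin 5 => iteratedDeriv (j : ℕ) v x) :=
      lt_of_le_of_ne (hnn x) (Ne.symm hne)
    have hpi : (0 : ℝ) < 2 * Real.pi := by positivity
    obtain ⟨y, hy, hxy⟩ := hper.exists_mem_Ico₀ hpi x
    have hint := intervalIntegral.integral_pos hpi (hcontf v q q⁻¹ hv).continuousOn
      (fun x _ => hnn x) ⟨y, ⟨hy.1, hy.2.le⟩, by simpa [← hxy] using hpos⟩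
    rw [hzero] at hint
    exact lt_irrefl _ hint
  have hvel : ∀ x, vel σ q q⁻¹ v x = 0 := by
    intro x
    obtain ⟨C, hC, hCb⟩ := (h1 n σ (nsq (v x)) hs).2
    have h := hCb (v x) (hmem x) le_rfl _ (htan x)
    rw [← hHv, hHzero, mul_zero] at h
    have h' : nsq (vel σ q q⁻¹ v x) = 0 :=
      le_antisymm h (Finset.sum_nonneg fun i _ => sq_nonneg _)
    funext i
    have := (Finset.sum_eq_zero_iff_of_nonneg (fun i _ => sq_nonneg _)).mp h' i (Finset.mem_univ i)
    simpa using this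
  refine ⟨fun k => s (φ k), fun k => g (φ k), v, q, ?_, fun k => ⟨hs0 _, hg1 _⟩, hV, hvel,
    fun j => hlim j⟩
  refine tendsto_atTop_mono (fun k => ?_) tendsto_natCast_atTop_atTop
  calc (k : ℝ) ≤ (φ k : ℝ) := by exact_mod_cast hφ.id_le k
    _ ≤ s (φ k) := hs1 _

end Pool.Agent.Work.MP_4a14ce_an

end

section

/-!
# T9: global solutions in the original time and their convergence
-/

open Set MeasureTheory Topology Filter
open scoped ContDiff

namespace Pool.Agent.Work.MP_4a14ce_an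

theorem claimTGlobal (h1 : ClaimGlobal) (h2 : ClaimBounds) (h3 : ClaimConv)
    (h4 : ClaimTimeIci) : ClaimTGlobal := by
  intro n σ u0 p0 hs hc0
  obtain ⟨U, P, hU, hU0, hP0⟩ := h1 n σ u0 p0 hs hc0
  obtain ⟨⟨K, hK, hPK⟩, -⟩ := h2 n σ U P hs hU
  obtain ⟨v, q, hv, hvel, hconv⟩ := h3 n σ U P hs hU
  have hPpos : ∀ t ∈ Ici (0 : ℝ), 0 < P t := fun t ht =>
    lt_of_lt_of_le (inv_pos.mpr hK) (hPK t ht).1
  obtain ⟨τ, Θ, hτs, hΘs, hτ0, hΘ0, hτ, hΘ, hτt, hΘt, hdτ, hdΘ⟩ :=
    h4 (K ^ 2) (fun t => P t ^ 2) (by positivity) (hU.sol.psmooth.pow 2) (fun t ht => by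
      have h5 := hPK t ht
      have h6 := hPpos t ht
      have h7 : 0 < K⁻¹ := inv_pos.mpr hK
      constructor
      · rw [← inv_pow]
        gcongr
        exact h5.1
      · gcongr
        exact h5.2)
  have hmap : MapsTo Θ (Ici 0) (Ici 0) := fun s hs => (hΘ s hs).1
  refine ⟨fun s => U (Θ s), fun s => P (Θ s), ?_, ?_, v, q, hv, hvel, ?_⟩
  · refine ⟨?_, ?_, ?_, ?_⟩
    · have h8 : ContDiffOn ℝ ∞ (fun z : ℝ × ℝ => (Θ z.1, z.2)) (Ici 0 ×ˢ univ) := by
        refine ContDiffOn.prodMk ?_ contDiffOn_snd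
        exact hΘs.comp contDiffOn_fst fun z hz => hz.1
      exact hU.sol.smooth.comp h8 fun z hz => ⟨hmap hz.1, mem_univ _⟩
    · exact hU.sol.psmooth.comp hΘs hmap
    · intro s hs'
      exact hU.con _ (hmap hs')
    · intro s hs' x
      have h9 := hU.sol.eqn (Θ s) (hmap hs') x
      exact h9.scomp s (hdΘ s hs') hmap
  · simp only [hΘ0, hU0]
  · intro j
    intro w hw
    exact hΘt.eventually (hconv j w hw)

end Pool.Agent.Work.MP_4a14ce_an

end

section

/-!
# Uniqueness in the original time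
-/

open Set MeasureTheory Topology Filter
open scoped ContDiff

namespace Pool.Agent.Work.MP_4a14ce_an

/-- The evolution of the squared speed. -/
theorem tUnique_peqn (hX : ClaimXi) (hV : ClaimVelTan) (hC : ConIds) (hB : BRules)
    (hJ : JSSlice) (hD : JSDt) {n : ℕ} {σ : ℝ} {u : ℝ → ℝ → V n} {p : ℝ → ℝ} (hσ : Sgn σ)
    (hu : TSol σ (Ici 0) u p) (t : ℝ) (ht : t ∈ Ici (0 : ℝ)) :
    HasDerivWithinAt p (-(2 * (p t)⁻¹ * mu σ (p t) (p t)⁻¹ (u t))) (Ici 0) t := by
  obtain ⟨ut, hut, hutd⟩ := hD (n + 1) (Ici 0) u (Or.inl ⟨0, rfl⟩) hu.smooth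
  have huniq : UniqueDiffWithinAt ℝ (Ici (0 : ℝ)) t := uniqueDiffOn_Ici 0 t ht
  have hcon := hu.con t ht
  have hp : p t ≠ 0 := hcon.pos.ne'
  obtain ⟨hb1, hb2, hb3, hb4, -⟩ := hB n σ
  -- the time derivative
  have h0 : ∀ x, ut t x = (p t ^ 2)⁻¹ • rhs σ (p t) (p t)⁻¹ (u t) x := by
    intro x
    have h1 := hutd 0 t ht x
    simp only [iteratedDeriv_zero] at h1
    exact huniq.eq_deriv _ h1 (hu.eqn t ht x)
  have hrv : ∀ x, rhs σ (p t) (p t)⁻¹ (u t) x =
      vel σ (p t) (p t)⁻¹ (u t) x + xi σ (p t) (p t)⁻¹ (u t) x • iteratedDeriv 1 (u t) x := by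
    intro x
    unfold rhs vel xi
    rw [add_smul]
    abel
  have huts : ContDiff ℝ ∞ (ut t) :=
    (hJ (n + 1) (Ici 0) ut (Or.inl ⟨0, rfl⟩) hut).1 t ht
  have hsm := hcon.smooth
  have hd : ∀ (w : ℝ → V n), ContDiff ℝ ∞ w → ∀ (j : ℕ) (x : ℝ),
      HasDerivWithinAt (iteratedDeriv j w) (iteratedDeriv (j + 1) w x) univ x := by
    intro w hw j x
    rw [hasDerivWithinAt_univ, iteratedDeriv_succ]
    exact (hw.differentiable_iteratedDeriv j
      (by exact_mod_cast WithTop.coe_lt_top _)).differentiableAt.hasDerivAt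
  have hids := hC n σ (p t) (u t) hσ hcon
  have hvt := hV n σ (p t) (u t) hσ hcon
  have hxi := (hX n σ (p t) (u t) hσ hcon).2
  -- `xi = p B(ut, u')`
  have hxi2 : ∀ x, xi σ (p t) (p t)⁻¹ (u t) x =
      p t * B σ (iteratedDeriv 0 (ut t) x) (iteratedDeriv 1 (u t) x) := by
    intro x
    have e1 := (hvt x).2
    have e2 := (hids x).2.2.1
    rw [iteratedDeriv_zero, h0, hrv, hb3, hb2, hb3, e2]
    rw [iteratedDeriv_one, e1]
    field_simp
    ring
  -- derivative in `x` at `0`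
  have h1 : HasDerivWithinAt
      (fun x => p t * B σ (iteratedDeriv 0 (ut t) x) (iteratedDeriv 1 (u t) x))
      (p t * (B σ (iteratedDeriv 1 (ut t) 0) (iteratedDeriv 1 (u t) 0)
        + B σ (iteratedDeriv 0 (ut t) 0) (iteratedDeriv 2 (u t) 0))) univ 0 :=
    (hb4 _ _ (iteratedDeriv 1 (ut t)) (iteratedDeriv 2 (u t)) univ 0 (hd _ huts 0 0)
      (hd _ hsm 1 0)).const_mul (p t)
  have h2 : HasDerivAt (xi σ (p t) (p t)⁻¹ (u t))
      (p t * (B σ (iteratedDeriv 1 (ut t) 0) (iteratedDeriv 1 (u t) 0)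
        + B σ (iteratedDeriv 0 (ut t) 0) (iteratedDeriv 2 (u t) 0))) 0 := by
    have : xi σ (p t) (p t)⁻¹ (u t) =
      (fun x => p t * B σ (iteratedDeriv 0 (ut t) x) (iteratedDeriv 1 (u t) x)) := funext hxi2
    rw [this]
    exact hasDerivWithinAt_univ.1 h1
  have h3 := h2.unique (hxi 0)
  -- derivative of the speed
  have h4 : HasDerivWithinAt (fun s => B σ (iteratedDeriv 1 (u s) 0) (iteratedDeriv 1 (u s) 0))
      (B σ (iteratedDeriv 1 (ut t) 0) (iteratedDeriv 1 (u t) 0)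
        + B σ (iteratedDeriv 1 (u t) 0) (iteratedDeriv 1 (ut t) 0)) (Ici 0) t :=
    hb4 (fun s => iteratedDeriv 1 (u s) 0) (fun s => iteratedDeriv 1 (u s) 0)
      (fun s => iteratedDeriv 1 (ut s) 0) (fun s => iteratedDeriv 1 (ut s) 0) (Ici 0) t
      (hutd 1 t ht 0) (hutd 1 t ht 0)
  have h5 : HasDerivWithinAt p
      (B σ (iteratedDeriv 1 (ut t) 0) (iteratedDeriv 1 (u t) 0)
        + B σ (iteratedDeriv 1 (u t) 0) (iteratedDeriv 1 (ut t) 0)) (Ici 0) t := by
    refine h4.congr (fun s hs => ?_) ?_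
    · exact ((hC n σ (p s) (u s) hσ (hu.con s hs) 0).2.2.1).symm
    · exact ((hids 0).2.2.1).symm
  convert h5 using 1
  -- algebra
  have e0 : B σ (iteratedDeriv 0 (ut t) 0) (iteratedDeriv 2 (u t) 0) =
      (p t ^ 2)⁻¹ * B σ (vel σ (p t) (p t)⁻¹ (u t) 0) (iteratedDeriv 2 (u t) 0) := by
    rw [iteratedDeriv_zero, h0, hrv, hb3, hb2, hb3, (hids 0).2.2.2.2.1]
    ring
  have e1 : B σ (vel σ (p t) (p t)⁻¹ (u t) 0) (iteratedDeriv 2 (u t) 0 + (σ * p t) • u t 0) =
      B σ (vel σ (p t) (p t)⁻¹ (u t) 0) (iteratedDeriv 2 (u t) 0) := by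
    rw [hb1, hb2, hb3, hb1 (u t 0), (hvt 0).1, hb1]
    ring
  rw [e0, e1] at h3
  rw [hb1 (iteratedDeriv 1 (u t) 0) (iteratedDeriv 1 (ut t) 0)]
  set X := B σ (iteratedDeriv 1 (ut t) 0) (iteratedDeriv 1 (u t) 0)
  set Y := B σ (vel σ (p t) (p t)⁻¹ (u t) 0) (iteratedDeriv 2 (u t) 0)
  have h6 : X = -((p t)⁻¹ * mu σ (p t) (p t)⁻¹ (u t)) := by
    have h7 : p t * X = -(mu σ (p t) (p t)⁻¹ (u t)) := by
      have h8 : p t * ((p t ^ 2)⁻¹ * Y) = (p t)⁻¹ * Y := by
        field_simp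
      linarith
    rw [← mul_right_inj' hp, h7]
    field_simp
  rw [h6]
  ring

/-- The time changed solution. -/
theorem tUnique_sol (hX : ClaimXi) (hV : ClaimVelTan) (hC : ConIds) (hB : BRules)
    (hJ : JSSlice) (hD : JSDt) {n : ℕ} {σ : ℝ} {u : ℝ → ℝ → V n} {p : ℝ → ℝ} (hσ : Sgn σ)
    (hu : TSol σ (Ici 0) u p) (T' : ℝ) (Θ : ℝ → ℝ)
    (hΘs : ContDiffOn ℝ ∞ Θ (Icc 0 T')) (hΘm : ∀ s ∈ Icc 0 T', Θ s ∈ Ici (0 : ℝ))
    (hΘd : ∀ s ∈ Icc 0 T', HasDerivWithinAt Θ (p (Θ s) ^ 2) (Icc 0 T') s) :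
    Sol σ (Icc 0 T') (fun s => u (Θ s)) (fun s => p (Θ s)) (fun s => (p (Θ s))⁻¹) := by
  have hmaps : MapsTo Θ (Icc 0 T') (Ici (0 : ℝ)) := hΘm
  have hps : ContDiffOn ℝ ∞ (fun s => p (Θ s)) (Icc 0 T') := hu.psmooth.comp hΘs hmaps
  have hpos : ∀ s ∈ Icc 0 T', p (Θ s) ≠ 0 := fun s hs => (hu.con _ (hΘm s hs)).pos.ne'
  have hpd : ∀ s ∈ Icc 0 T', HasDerivWithinAt (fun s => p (Θ s))
      (-(2 * p (Θ s) * mu σ (p (Θ s)) (p (Θ s))⁻¹ (u (Θ s)))) (Icc 0 T') s := by
    intro s hs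
    have h1 := tUnique_peqn hX hV hC hB hJ hD hσ hu (Θ s) (hΘm s hs)
    have h2 := h1.comp s (hΘd s hs) hmaps
    have h3 : -(2 * (p (Θ s))⁻¹ * mu σ (p (Θ s)) (p (Θ s))⁻¹ (u (Θ s))) * p (Θ s) ^ 2 =
        -(2 * p (Θ s) * mu σ (p (Θ s)) (p (Θ s))⁻¹ (u (Θ s))) := by
      have h4 : (p (Θ s))⁻¹ * p (Θ s) ^ 2 = p (Θ s) := by
        have := hpos s hs
        field_simp
      linear_combination (-2 * mu σ (p (Θ s)) (p (Θ s))⁻¹ (u (Θ s))) * h4
    rw [h3] at h2
    exact h2
  refine ⟨?_, hps, hps.inv hpos, ?_, ?_, hpd, ?_⟩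
  · have h1 : ContDiffOn ℝ ∞ (fun z : ℝ × ℝ => ((Θ z.1, z.2) : ℝ × ℝ)) (Icc 0 T' ×ˢ univ) := by
      refine ContDiffOn.prodMk ?_ contDiff_snd.contDiffOn
      exact hΘs.comp contDiff_fst.contDiffOn fun z hz => hz.1
    exact hu.smooth.comp h1 fun z hz => ⟨hΘm z.1 hz.1, mem_univ _⟩
  · exact fun s hs => (hu.con _ (hΘm s hs)).periodic
  · intro s hs x
    have h1 := hu.eqn (Θ s) (hΘm s hs) x
    have h2 := HasDerivWithinAt.scomp s h1 (hΘd s hs) hmaps
    have h3 : p (Θ s) ^ 2 • (p (Θ s) ^ 2)⁻¹ • rhs σ (p (Θ s)) (p (Θ s))⁻¹ (u (Θ s)) x =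
        rhs σ (p (Θ s)) (p (Θ s))⁻¹ (u (Θ s)) x :=
      smul_inv_smul₀ (pow_ne_zero 2 (hpos s hs)) _
    rw [h3] at h2
    exact h2
  · intro s hs
    have h1 := (hpd s hs).inv (hpos s hs)
    have h3 : -(-(2 * p (Θ s) * mu σ (p (Θ s)) (p (Θ s))⁻¹ (u (Θ s)))) / p (Θ s) ^ 2 =
        2 * (p (Θ s))⁻¹ * mu σ (p (Θ s)) (p (Θ s))⁻¹ (u (Θ s)) := by
      have h4 : p (Θ s) / p (Θ s) ^ 2 = (p (Θ s))⁻¹ := by
        have := hpos s hs
        field_simp
      rw [← h4]
      ring
    rw [h3] at h1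
    exact h1

theorem tUnique_mono {n : ℕ} {σ : ℝ} {u : ℝ → ℝ → V n} {p m : ℝ → ℝ} {I J : Set ℝ}
    (h : Sol σ I u p m) (hJ : J ⊆ I) : Sol σ J u p m :=
  ⟨h.smooth.mono (prod_mono hJ Subset.rfl), h.psmooth.mono hJ, h.msmooth.mono hJ,
    fun t ht => h.periodic t (hJ ht), fun t ht x => (h.eqn t (hJ ht) x).mono hJ,
    fun t ht => (h.peqn t (hJ ht)).mono hJ, fun t ht => (h.meqn t (hJ ht)).mono hJ⟩

/-- Two functions with the same derivative and the same initial value. -/
theorem tUnique_eq {T : ℝ} {f g d : ℝ → ℝ}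
    (hf : ∀ s ∈ Icc 0 T, HasDerivWithinAt f (d s) (Icc 0 T) s)
    (hg : ∀ s ∈ Icc 0 T, HasDerivWithinAt g (d s) (Icc 0 T) s) (h0 : f 0 = g 0) :
    ∀ s ∈ Icc 0 T, f s = g s := by
  intro s hs
  have hTs : (0 : ℝ) ∈ Icc 0 T := ⟨le_rfl, hs.1.trans hs.2⟩
  have h1 : ∀ x ∈ Icc 0 T, HasDerivWithinAt (fun y => f y - g y) 0 (Icc 0 T) x := by
    intro x hx
    have := (hf x hx).sub (hg x hx)
    rwa [sub_self] at this
  have h2 : DifferentiableOn ℝ (fun y => f y - g y) (Icc 0 T) := fun x hx =>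
    (h1 x hx).differentiableWithinAt
  have h3 := constant_of_has_deriv_right_zero (f := fun y => f y - g y) (a := 0) (b := T)
    h2.continuousOn (fun x hx => (h1 x ⟨hx.1, hx.2.le⟩).mono_of_mem_nhdsWithin
      (Icc_mem_nhdsGE_of_mem hx)) s hs
  simp only [h0, sub_self] at h3
  linarith

/-- One of the two cases. -/
theorem tUnique_aux (hU : ClaimUnique) (hX : ClaimXi) (hV : ClaimVelTan) (hC : ConIds)
    (hB : BRules) (hJ : JSSlice) (hD : JSDt) {n : ℕ} {σ : ℝ} {u v : ℝ → ℝ → V n}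
    {p q : ℝ → ℝ} (hσ : Sgn σ) (hu : TSol σ (Ici 0) u p) (hv : TSol σ (Ici 0) v q)
    (h0 : u 0 = v 0) (T T₁ T₂ : ℝ) (τ Θ Ξ : ℝ → ℝ) (hT₁ : 0 < T₁) (h12 : T₁ ≤ T₂)
    (hΘs : ContDiffOn ℝ ∞ Θ (Icc 0 T₁)) (hΞs : ContDiffOn ℝ ∞ Ξ (Icc 0 T₂))
    (hΘ0 : Θ 0 = 0) (hΞ0 : Ξ 0 = 0) (hτ : ∀ t ∈ Icc 0 T, τ t ∈ Icc 0 T₁ ∧ Θ (τ t) = t)
    (hΘm : ∀ s ∈ Icc 0 T₁, Θ s ∈ Ici (0 : ℝ)) (hΞm : ∀ s ∈ Icc 0 T₂, Ξ s ∈ Ici (0 : ℝ))
    (hΘd : ∀ s ∈ Icc 0 T₁, HasDerivWithinAt Θ (p (Θ s) ^ 2) (Icc 0 T₁) s)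
    (hΞd : ∀ s ∈ Icc 0 T₂, HasDerivWithinAt Ξ (q (Ξ s) ^ 2) (Icc 0 T₂) s) :
    ∀ t ∈ Icc 0 T, u t = v t ∧ p t = q t := by
  have hsub : Icc 0 T₁ ⊆ Icc 0 T₂ := Icc_subset_Icc le_rfl h12
  have hs1 := tUnique_sol hX hV hC hB hJ hD hσ hu T₁ Θ hΘs hΘm hΘd
  have hs2 := tUnique_mono (tUnique_sol hX hV hC hB hJ hD hσ hv T₂ Ξ hΞs hΞm hΞd) hsub
  have hmem0 : (0 : ℝ) ∈ Ici (0 : ℝ) := mem_Ici.2 le_rfl
  have hp0 : p 0 = q 0 := by
    rw [← (hu.con 0 hmem0).speed 0, ← (hv.con 0 hmem0).speed 0, h0]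
  have H := hU n σ T₁ _ _ _ _ _ _ hσ hT₁ hs1 hs2 (by simp only [hΘ0, hΞ0, h0])
    (by simp only [hΘ0, hΞ0, hp0]) (by simp only [hΘ0, hΞ0, hp0])
  have hΘΞ : ∀ s ∈ Icc 0 T₁, Θ s = Ξ s :=
    tUnique_eq (d := fun s => p (Θ s) ^ 2) hΘd (fun s hs => by
      have h1 := (hΞd s (hsub hs)).mono hsub
      have h2 : q (Ξ s) = p (Θ s) := ((H s hs).2.1).symm
      rw [h2] at h1
      exact h1) (by rw [hΘ0, hΞ0])
  intro t ht
  obtain ⟨h1, h2⟩ := hτ t ht
  obtain ⟨h3, h4, -⟩ := H (τ t) h1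
  rw [← hΘΞ _ h1, h2] at h3 h4
  exact ⟨h3, h4⟩

theorem claimTUnique (hU : ClaimUnique) (hT : ClaimTimeIcc) (hX : ClaimXi) (hV : ClaimVelTan)
    (hC : ConIds) (hB : BRules) (hJ : JSSlice) (hD : JSDt) : ClaimTUnique := by
  intro n σ u v p q hσ hu hv h0 t ht
  have key : ∀ (w : ℝ → ℝ → V n) (r : ℝ → ℝ), TSol σ (Ici 0) w r →
      ∃ (T' : ℝ) (τ Θ : ℝ → ℝ), 0 < T' ∧ ContDiffOn ℝ ∞ Θ (Icc 0 T') ∧ Θ 0 = 0 ∧
        (∀ x ∈ Icc 0 (t + 1), τ x ∈ Icc 0 T' ∧ Θ (τ x) = x) ∧
        (∀ s ∈ Icc 0 T', Θ s ∈ Ici (0 : ℝ)) ∧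
        ∀ s ∈ Icc 0 T', HasDerivWithinAt Θ (r (Θ s) ^ 2) (Icc 0 T') s := by
    intro w r hw
    have hsub : Icc 0 (t + 1) ⊆ Ici (0 : ℝ) := fun x hx => hx.1
    have hne : ∀ x ∈ Icc 0 (t + 1), r x ^ 2 ≠ 0 := fun x hx =>
      pow_ne_zero 2 (hw.con x (hsub hx)).pos.ne'
    obtain ⟨T', τ, Θ, h1, h2, h3, h4, h5, h6, h7, h8, h9, h10, h11⟩ :=
      hT (t + 1) (fun x => (r x ^ 2)⁻¹) (by have : (0 : ℝ) ≤ t := ht; linarith)
        (((hw.psmooth.mono hsub).pow 2).inv hne)
        (fun x hx => inv_pos.2 (pow_pos (hw.con x (hsub hx)).pos 2))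
    refine ⟨T', τ, Θ, h1, h3, h6, h8, fun s hs => ((h9 s hs).1).1, fun s hs => ?_⟩
    have := h11 s hs
    simp only [inv_inv] at this
    exact this
  obtain ⟨T₁, τ₁, Θ₁, a1, a2, a3, a4, a5, a6⟩ := key u p hu
  obtain ⟨T₂, τ₂, Θ₂, b1, b2, b3, b4, b5, b6⟩ := key v q hv
  have htm : t ∈ Icc 0 (t + 1) := ⟨ht, by linarith⟩
  rcases le_total T₁ T₂ with h | h
  · exact tUnique_aux hU hX hV hC hB hJ hD hσ hu hv h0 (t + 1) T₁ T₂ τ₁ Θ₁ Θ₂ a1 h a2 b2 a3 b3
      a4 a5 b5 a6 b6 t htm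
  · have := tUnique_aux hU hX hV hC hB hJ hD hσ hv hu h0.symm (t + 1) T₂ T₁ τ₂ Θ₂ Θ₁ b1 h b2 a2
      b3 a3 b4 b5 a5 b6 a6 t htm
    exact ⟨this.1.symm, this.2.symm⟩

end Pool.Agent.Work.MP_4a14ce_an

end

section

/-!
# The form is positive definite on tangent spaces
-/

open Set MeasureTheory Topology Filter
open scoped ContDiff

namespace Pool.Agent.Work.MP_4a14ce_an

theorem tan_nsq_succ {n : ℕ} (x : V n) : nsq x = x 0 ^ 2 + ∑ i : Fin n, x i.succ ^ 2 := by
  unfold nsq
  rw [Fin.sum_univ_succ]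

theorem tan_B_one {n : ℕ} (x : V n) : B 1 x x = nsq x := by
  rw [tan_nsq_succ]
  unfold B
  simp only [one_mul, pow_two]

/-- The estimate in the hyperboloid model. -/
theorem tan_hyp {n : ℕ} (q X : V n) (hq : B (-1) q q = -1) (h : B (-1) X q = 0) :
    0 ≤ B (-1) X X ∧ nsq X ≤ 2 * nsq q * B (-1) X X := by
  have hS : (0 : ℝ) ≤ ∑ i : Fin n, X i.succ ^ 2 := Finset.sum_nonneg fun i _ => sq_nonneg _
  have hQ : (0 : ℝ) ≤ ∑ i : Fin n, q i.succ ^ 2 := Finset.sum_nonneg fun i _ => sq_nonneg _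
  have hCS : (∑ i : Fin n, X i.succ * q i.succ) ^ 2 ≤
      (∑ i : Fin n, X i.succ ^ 2) * ∑ i : Fin n, q i.succ ^ 2 :=
    Finset.sum_mul_sq_le_sq_mul_sq _ _ _
  have e1 : B (-1) X X = (∑ i : Fin n, X i.succ ^ 2) - X 0 ^ 2 := by
    unfold B
    simp only [pow_two]
    ring
  have e2 : (∑ i : Fin n, q i.succ ^ 2) = q 0 ^ 2 - 1 := by
    have : B (-1) q q = (∑ i : Fin n, q i.succ ^ 2) - q 0 ^ 2 := by
      unfold B
      simp only [pow_two]
      ring
    linarith
  have e3 : (∑ i : Fin n, X i.succ * q i.succ) = X 0 * q 0 := by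
    have : B (-1) X q = -(X 0 * q 0) + ∑ i : Fin n, X i.succ * q i.succ := by
      unfold B
      ring
    linarith
  have e4 := tan_nsq_succ X
  have e5 := tan_nsq_succ q
  set S := ∑ i : Fin n, X i.succ ^ 2 with hSdef
  rw [e3, e2] at hCS
  have hq0 : (1 : ℝ) ≤ q 0 ^ 2 := by linarith
  -- `q0² B X X ≥ S`
  have h1 : S ≤ q 0 ^ 2 * B (-1) X X := by
    rw [e1]
    nlinarith
  have h2 : 0 ≤ B (-1) X X := by
    by_contra hneg
    push Not at hneg
    have : q 0 ^ 2 * B (-1) X X < 0 := mul_neg_of_pos_of_neg (by linarith) hneg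
    linarith
  refine ⟨h2, ?_⟩
  have h3 : X 0 ^ 2 ≤ S := by
    rw [e1] at h2
    linarith
  have h4 : q 0 ^ 2 ≤ nsq q := by
    rw [e5, e2]
    linarith
  calc nsq X ≤ 2 * S := by
        rw [e4]
        linarith
    _ ≤ 2 * (q 0 ^ 2 * B (-1) X X) := by linarith
    _ ≤ 2 * (nsq q * B (-1) X X) := by
        have := mul_le_mul_of_nonneg_right h4 h2
        linarith
    _ = 2 * nsq q * B (-1) X X := by ring

theorem claimTan : ClaimTan := by
  intro n σ K hσ
  rcases hσ with rfl | rfl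
  · refine ⟨fun q _ X _ => ?_, 1, one_pos, fun q _ _ X _ => ?_⟩
    · rw [tan_B_one]
      exact Finset.sum_nonneg fun i _ => sq_nonneg _
    · rw [tan_B_one, one_mul]
  · refine ⟨fun q hq X h => (tan_hyp q X hq.1 h).1, 2 * (|K| + 1), by positivity,
      fun q hq hK X h => ?_⟩
    obtain ⟨h1, h2⟩ := tan_hyp q X hq.1 h
    refine h2.trans (mul_le_mul_of_nonneg_right ?_ h1)
    have := le_abs_self K
    linarith

end Pool.Agent.Work.MP_4a14ce_an

end

section

/-!
# T7: time changes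
-/

open Set MeasureTheory Topology Filter
open scoped ContDiff

namespace Pool.Agent.Work.MP_4a14ce_an

lemma time_core (b : ℝ → ℝ) (hb : Continuous b) {c : ℝ} (hc : 0 < c) (hcb : ∀ t, c ≤ b t) :
    ∃ τ Θ : ℝ → ℝ, τ 0 = 0 ∧ Θ 0 = 0 ∧ (∀ t, Θ (τ t) = t) ∧ (∀ s, τ (Θ s) = s) ∧
      (∀ t, HasDerivAt τ (b t) t) ∧ (∀ s, HasDerivAt Θ (b (Θ s))⁻¹ s) ∧ StrictMono τ ∧
      StrictMono Θ ∧ (∀ t, 0 ≤ t → c * t ≤ τ t) := by
  set τ : ℝ → ℝ := fun t => ∫ s in (0 : ℝ)..t, b s with hτ
  have hd : ∀ t, HasDerivAt τ (b t) t := fun t =>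
    intervalIntegral.integral_hasDerivAt_right (hb.intervalIntegrable _ _)
      (hb.stronglyMeasurableAtFilter _ _) hb.continuousAt
  have h0 : τ 0 = 0 := by simp [hτ]
  have hpos : ∀ t, 0 < b t := fun t => lt_of_lt_of_le hc (hcb t)
  have hmono : StrictMono τ := by
    apply strictMono_of_deriv_pos
    intro t
    rw [(hd t).deriv]
    exact hpos t
  have hcont : Continuous τ := continuous_iff_continuousAt.mpr fun t => (hd t).continuousAt
  have hgrow : ∀ x y, x ≤ y → c * (y - x) ≤ τ y - τ x := by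
    intro x y hxy
    apply mul_sub_le_image_sub_of_le_deriv (fun t => (hd t).differentiableAt)
    · intro t
      rw [(hd t).deriv]
      exact hcb t
    · exact hxy
  have htop : Tendsto τ atTop atTop := by
    refine tendsto_atTop_mono' atTop (f₁ := fun t => c * t) ?_ (tendsto_id.const_mul_atTop hc)
    filter_upwards [eventually_ge_atTop (0 : ℝ)] with t ht
    have := hgrow 0 t ht
    rw [h0] at this
    linarith
  have hbot : Tendsto τ atBot atBot := by
    have h1 : Tendsto (fun t : ℝ => c * t) atBot atBot := tendsto_id.const_mul_atBot hc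
    refine tendsto_atBot_mono' atBot ?_ h1
    filter_upwards [eventually_le_atBot (0 : ℝ)] with t ht
    have := hgrow t 0 ht
    rw [h0] at this
    linarith
  have hsurj : Function.Surjective τ := hcont.surjective htop hbot
  set e : ℝ ≃o ℝ := hmono.orderIsoOfSurjective τ hsurj with he
  have he1 : ∀ t, e t = τ t := fun t => rfl
  have hl : ∀ t, e.symm (τ t) = t := fun t => by rw [← he1]; exact e.symm_apply_apply t
  have hr : ∀ s, τ (e.symm s) = s := fun s => by rw [← he1]; exact e.apply_symm_apply s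
  have hec : Continuous e.symm := e.symm.continuous
  refine ⟨τ, e.symm, h0, ?_, hl, hr, hd, ?_, hmono, e.symm.strictMono, ?_⟩
  · have := hl 0
    rwa [h0] at this
  · intro s
    exact (hd (e.symm s)).of_local_left_inverse hec.continuousAt (hpos _).ne'
      (Eventually.of_forall hr)
  · intro t ht
    have := hgrow 0 t ht
    rw [h0] at this
    linarith

lemma time_smooth {I I' : Set ℝ} (hI : UniqueDiffOn ℝ I) (hI' : UniqueDiffOn ℝ I') {a : ℝ → ℝ}
    (ha : ContDiffOn ℝ ∞ a I) (hpos : ∀ t ∈ I, a t ≠ 0) {τ Θ : ℝ → ℝ}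
    (hτ : ∀ t ∈ I, HasDerivWithinAt τ (a t) I t) (hmap : MapsTo Θ I' I)
    (hΘ : ∀ s ∈ I', HasDerivWithinAt Θ (a (Θ s))⁻¹ I' s) :
    ContDiffOn ℝ ∞ τ I ∧ ContDiffOn ℝ ∞ Θ I' := by
  constructor
  · rw [contDiffOn_infty_iff_derivWithin hI]
    refine ⟨fun t ht => (hτ t ht).differentiableWithinAt, ?_⟩
    exact ha.congr fun t ht => (hτ t ht).derivWithin (hI t ht)
  · rw [contDiffOn_infty]
    intro k
    induction k with
    | zero =>
      simp only [Nat.cast_zero, contDiffOn_zero]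
      exact fun s hs => (hΘ s hs).continuousWithinAt
    | succ k ih =>
      have hk : ((k + 1 : ℕ) : ℕ∞ω) = (k : ℕ∞ω) + 1 := by norm_cast
      rw [hk, contDiffOn_succ_iff_derivWithin hI']
      refine ⟨fun s hs => (hΘ s hs).differentiableWithinAt, ?_, ?_⟩
      · intro h
        exact absurd h (by simp)
      · have h1 : ContDiffOn ℝ k (fun s => (a (Θ s))⁻¹) I' := by
          refine ContDiffOn.inv ?_ fun s hs => hpos _ (hmap hs)
          exact (ha.of_le (by exact_mod_cast le_top)).comp ih hmap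
        exact h1.congr fun s hs => (hΘ s hs).derivWithin (hI' s hs)

theorem claimTimeIcc : ClaimTimeIcc := by
  intro T a hT ha hpos
  obtain ⟨t0, ht0, hmin⟩ := isCompact_Icc.exists_isMinOn (nonempty_Icc.mpr hT.le) ha.continuousOn
  set b : ℝ → ℝ := IccExtend hT.le (fun t : Icc (0 : ℝ) T => a t) with hb
  have hbc : Continuous b :=
    (continuousOn_iff_continuous_domRestrict.mp ha.continuousOn).Icc_extend'
  have hbI : ∀ t ∈ Icc 0 T, b t = a t := fun t ht => by
    rw [hb, IccExtend_of_mem hT.le _ ht]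
  have hcb : ∀ t, a t0 ≤ b t := fun t => by
    have h : b t = a (projIcc 0 T hT.le t) := rfl
    rw [h]
    exact hmin (projIcc 0 T hT.le t).2
  obtain ⟨τ, Θ, h0, h0', hl, hr, hd, hd', hm, hm', hg⟩ := time_core b hbc (hpos t0 ht0) hcb
  have hT' : 0 < τ T := by
    rw [← h0]; exact hm hT
  have hmap : ∀ t ∈ Icc 0 T, τ t ∈ Icc 0 (τ T) := fun t ht =>
    ⟨by rw [← h0]; exact hm.monotone ht.1, hm.monotone ht.2⟩
  have hmap' : ∀ s ∈ Icc 0 (τ T), Θ s ∈ Icc 0 T := fun s hs =>
    ⟨by rw [← h0']; exact hm'.monotone hs.1, by rw [← hl T]; exact hm'.monotone hs.2⟩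
  have hdI : ∀ t ∈ Icc 0 T, HasDerivWithinAt τ (a t) (Icc 0 T) t := fun t ht => by
    rw [← hbI t ht]; exact (hd t).hasDerivWithinAt
  have hdI' : ∀ s ∈ Icc 0 (τ T), HasDerivWithinAt Θ (a (Θ s))⁻¹ (Icc 0 (τ T)) s := fun s hs => by
    rw [← hbI _ (hmap' s hs)]; exact (hd' s).hasDerivWithinAt
  obtain ⟨hs1, hs2⟩ := time_smooth (uniqueDiffOn_Icc hT) (uniqueDiffOn_Icc hT') ha
    (fun t ht => (hpos t ht).ne') hdI hmap' hdI'
  exact ⟨τ T, τ, Θ, hT', hs1, hs2, h0, rfl, h0', hl T, fun t ht => ⟨hmap t ht, hl t⟩,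
    fun s hs => ⟨hmap' s hs, hr s⟩, hdI, hdI'⟩

theorem claimTimeIci : ClaimTimeIci := by
  intro K a hK ha hbd
  have hK' : 0 < K⁻¹ := inv_pos.mpr hK
  set b : ℝ → ℝ := fun t => a (max t 0) with hb
  have hbc : Continuous b := by
    refine ha.continuousOn.comp_continuous (by fun_prop) fun t => ?_
    exact mem_Ici.mpr (le_max_right t 0)
  have hbI : ∀ t ∈ Ici (0 : ℝ), b t = a t := fun t ht => by
    simp only [hb]
    rw [max_eq_left ht]
  have hcb : ∀ t, K⁻¹ ≤ b t := fun t => (hbd (max t 0) (mem_Ici.mpr (le_max_right t 0))).1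
  obtain ⟨τ, Θ, h0, h0', hl, hr, hd, hd', hm, hm', hg⟩ := time_core b hbc hK' hcb
  have hmap : ∀ t ∈ Ici (0 : ℝ), τ t ∈ Ici (0 : ℝ) := fun t ht => by
    rw [mem_Ici, ← h0]; exact hm.monotone ht
  have hmap' : ∀ s ∈ Ici (0 : ℝ), Θ s ∈ Ici (0 : ℝ) := fun s hs => by
    rw [mem_Ici, ← h0']; exact hm'.monotone hs
  have hdI : ∀ t ∈ Ici (0 : ℝ), HasDerivWithinAt τ (a t) (Ici 0) t := fun t ht => by
    rw [← hbI t ht]; exact (hd t).hasDerivWithinAt
  have hdI' : ∀ s ∈ Ici (0 : ℝ), HasDerivWithinAt Θ (a (Θ s))⁻¹ (Ici 0) s := fun s hs => by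
    rw [← hbI _ (hmap' s hs)]; exact (hd' s).hasDerivWithinAt
  obtain ⟨hs1, hs2⟩ := time_smooth (uniqueDiffOn_Ici 0) (uniqueDiffOn_Ici 0) ha
    (fun t ht => (lt_of_lt_of_le hK' (hbd t ht).1).ne') hdI hmap' hdI'
  refine ⟨τ, Θ, hs1, hs2, h0, h0', fun t ht => ⟨hmap t ht, hl t⟩,
    fun s hs => ⟨hmap' s hs, hr s⟩, ?_, ?_, hdI, hdI'⟩
  · refine tendsto_atTop_atTop.mpr fun x => ⟨Θ x, fun t ht => ?_⟩
    rw [← hr x]
    exact hm.monotone ht
  · refine tendsto_atTop_atTop.mpr fun x => ⟨τ x, fun t ht => ?_⟩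
    rw [← hl x]
    exact hm'.monotone ht

end Pool.Agent.Work.MP_4a14ce_an

end

section

/-!
# Uniqueness for the semilinear system
-/

open Set MeasureTheory Topology Filter
open scoped ContDiff

namespace Pool.Agent.Work.MP_4a14ce_an

theorem unique_periodic {E : Type*} [NormedAddCommGroup E] [NormedSpace ℝ E] {f : ℝ → E} {c : ℝ}
    (h : Function.Periodic f c) (j : ℕ) : Function.Periodic (iteratedDeriv j f) c := by
  intro x
  have h1 : (fun z => f (z + c)) = f := funext h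
  have h2 := congrFun (iteratedDeriv_comp_add_const (n := j) (f := f) (s := c)) x
  rw [h1] at h2
  exact h2.symm

/-- uniform bounds for the first derivatives on a compact time interval -/
theorem unique_bound (hS : JSSlice) {n : ℕ} {T : ℝ} (hT : 0 < T) {u : ℝ → ℝ → V n}
    (hu : JS (Icc 0 T) u) (hp : ∀ t ∈ Icc 0 T, Function.Periodic (u t) (2 * Real.pi)) :
    ∃ K : ℝ, ∀ j ≤ 3, ∀ t ∈ Icc 0 T, ∀ x, ‖iteratedDeriv j (u t) x‖ ≤ K := by
  have hI : Itv (Icc 0 T) := Or.inr ⟨0, T, hT, rfl⟩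
  have h1 : ∀ j : ℕ, ∃ K : ℝ, ∀ t ∈ Icc 0 T, ∀ x, ‖iteratedDeriv j (u t) x‖ ≤ K := by
    intro j
    have hj : JS (Icc 0 T) (fun t => iteratedDeriv j (u t)) := (hS (n + 1) _ u hI hu).2 j
    have hc : ContinuousOn (fun z : ℝ × ℝ => iteratedDeriv j (u z.1) z.2)
        (Icc 0 T ×ˢ Icc 0 (2 * Real.pi)) :=
      hj.continuousOn.mono (prod_mono le_rfl (subset_univ _))
    obtain ⟨K, hK⟩ := (isCompact_Icc.prod isCompact_Icc).exists_bound_of_continuousOn hc
    refine ⟨K, fun t ht x => ?_⟩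
    obtain ⟨y, hy, hxy⟩ := (unique_periodic (hp t ht) j).exists_mem_Ico₀ (by positivity) x
    rw [hxy]
    exact hK (t, y) ⟨ht, hy.1, hy.2.le⟩
  obtain ⟨K0, h0⟩ := h1 0
  obtain ⟨K1, h1'⟩ := h1 1
  obtain ⟨K2, h2⟩ := h1 2
  obtain ⟨K3, h3⟩ := h1 3
  refine ⟨max (max K0 K1) (max K2 K3), fun j hj t ht x => ?_⟩
  interval_cases j
  · exact (h0 t ht x).trans ((le_max_left _ _).trans (le_max_left _ _))
  · exact (h1' t ht x).trans ((le_max_right _ _).trans (le_max_left _ _))
  · exact (h2 t ht x).trans ((le_max_left _ _).trans (le_max_right _ _))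
  · exact (h3 t ht x).trans ((le_max_right _ _).trans (le_max_right _ _))

/-- bounds for scalar functions on a compact time interval -/
theorem unique_bound1 {T : ℝ} {p : ℝ → ℝ} (hp : ContDiffOn ℝ ∞ p (Icc 0 T)) :
    ∃ K : ℝ, ∀ t ∈ Icc 0 T, |p t| ≤ K := by
  obtain ⟨K, hK⟩ := isCompact_Icc.exists_bound_of_continuousOn hp.continuousOn
  exact ⟨K, fun t ht => by simpa using hK t ht⟩

theorem claimUnique (h0 : ClaimUniq0) (h1 : ClaimLip) (hS : JSSlice) : ClaimUnique := by
  intro n σ T u v p m q l hσ hT hu hv huv hpq hml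
  have hI : Itv (Icc 0 T) := Or.inr ⟨0, T, hT, rfl⟩
  have hus := (hS (n + 1) _ u hI hu.smooth).1
  have hvs := (hS (n + 1) _ v hI hv.smooth).1
  obtain ⟨Ku, hKu⟩ := unique_bound hS hT hu.smooth hu.periodic
  obtain ⟨Kv, hKv⟩ := unique_bound hS hT hv.smooth hv.periodic
  obtain ⟨Kp, hKp⟩ := unique_bound1 hu.psmooth
  obtain ⟨Km, hKm⟩ := unique_bound1 hu.msmooth
  obtain ⟨Kq, hKq⟩ := unique_bound1 hv.psmooth
  obtain ⟨Kl, hKl⟩ := unique_bound1 hv.msmooth
  set K := max (max Ku Kv) (max (max Kp Km) (max Kq Kl)) with hK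
  have eu : Ku ≤ K := (le_max_left _ _).trans (le_max_left _ _)
  have ev : Kv ≤ K := (le_max_right _ _).trans (le_max_left _ _)
  have ep : Kp ≤ K := (le_max_left _ _).trans ((le_max_left _ _).trans (le_max_right _ _))
  have em : Km ≤ K := (le_max_right _ _).trans ((le_max_left _ _).trans (le_max_right _ _))
  have eq : Kq ≤ K := (le_max_left _ _).trans ((le_max_right _ _).trans (le_max_right _ _))
  have el : Kl ≤ K := (le_max_right _ _).trans ((le_max_right _ _).trans (le_max_right _ _))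
  obtain ⟨C, hC⟩ := h1 n σ K hσ
  -- the difference
  set w : ℝ → ℝ → V n := fun t x => u t x - v t x with hw
  have hwD : ∀ j : ℕ, ∀ t ∈ Icc 0 T, ∀ x,
      iteratedDeriv j (w t) x = iteratedDeriv j (u t) x - iteratedDeriv j (v t) x := by
    intro j t ht x
    exact iteratedDeriv_sub ((hus t ht).of_le (by exact_mod_cast le_top)).contDiffAt
      ((hvs t ht).of_le (by exact_mod_cast le_top)).contDiffAt
  have hwJS : JS (Icc 0 T) w := hu.smooth.sub hv.smooth
  have hwper : ∀ t ∈ Icc 0 T, Function.Periodic (w t) (2 * Real.pi) := by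
    intro t ht x
    simp only [hw]
    rw [hu.periodic t ht x, hv.periodic t ht x]
  have hwsm := (hS (n + 1) _ w hI hwJS).1
  -- maxima
  have hmax : ∀ (j : ℕ) (t : ℝ), ∃ x, t ∈ Icc 0 T → ∀ y,
      ‖iteratedDeriv j (w t) y‖ ≤ ‖iteratedDeriv j (w t) x‖ := by
    intro j t
    by_cases ht : t ∈ Icc 0 T
    · have hc : Continuous fun y => ‖iteratedDeriv j (w t) y‖ :=
        ((hwsm t ht).continuous_iteratedDeriv j (by exact_mod_cast le_top)).norm
      obtain ⟨x, -, hx⟩ := (isCompact_Icc (a := (0 : ℝ)) (b := 2 * Real.pi)).exists_isMaxOn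
        (nonempty_Icc.2 (by positivity)) hc.continuousOn
      refine ⟨x, fun _ y => ?_⟩
      obtain ⟨z, hz, hyz⟩ := (unique_periodic (hwper t ht) j).exists_mem_Ico₀ (by positivity) y
      rw [hyz]
      exact hx ⟨hz.1, hz.2.le⟩
    · exact ⟨0, fun h => absurd h ht⟩
  choose X hX using hmax
  set S : ℝ → ℝ := fun t => ‖w t (X 0 t)‖ + ‖iteratedDeriv 1 (w t) (X 1 t)‖
    + ‖iteratedDeriv 2 (w t) (X 2 t)‖ + ‖iteratedDeriv 3 (w t) (X 3 t)‖ with hSdef
  have hSj : ∀ j ≤ 3, ∀ t ∈ Icc 0 T, ∀ x, ‖iteratedDeriv j (w t) x‖ ≤ S t := by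
    intro j hj t ht x
    have n0 := norm_nonneg (w t (X 0 t))
    have n1 := norm_nonneg (iteratedDeriv 1 (w t) (X 1 t))
    have n2 := norm_nonneg (iteratedDeriv 2 (w t) (X 2 t))
    have n3 := norm_nonneg (iteratedDeriv 3 (w t) (X 3 t))
    have hx := hX j t ht x
    simp only [hSdef]
    interval_cases j
    · simp only [iteratedDeriv_zero] at hx ⊢
      linarith
    · linarith
    · linarith
    · linarith
  set z : ℝ → Fin 2 → ℝ := fun t => ![p t - q t, m t - l t] with hz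
  set zt : ℝ → Fin 2 → ℝ := fun t =>
    ![-(2 * p t * mu σ (p t) (m t) (u t)) - -(2 * q t * mu σ (q t) (l t) (v t)),
      2 * m t * mu σ (p t) (m t) (u t) - 2 * l t * mu σ (q t) (l t) (v t)] with hzt
  have hz0 : ∀ t, |p t - q t| ≤ ‖z t‖ := fun t => by
    have := norm_le_pi_norm (z t) 0
    simpa [hz] using this
  have hz1 : ∀ t, |m t - l t| ≤ ‖z t‖ := fun t => by
    have := norm_le_pi_norm (z t) 1
    simpa [hz] using this
  have hSnn : ∀ t, 0 ≤ S t := fun t => by
    simp only [hSdef]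
    positivity
  have hlip : ∀ t ∈ Icc 0 T, _ := fun t ht => hC (u t) (v t) (p t) (m t) (q t) (l t) (S t + ‖z t‖)
    (hus t ht) (hvs t ht) (hu.periodic t ht) (hv.periodic t ht)
    (fun j hj x => ⟨(hKu j hj t ht x).trans eu, (hKv j hj t ht x).trans ev⟩)
    ((hKp t ht).trans ep) ((hKm t ht).trans em) ((hKq t ht).trans eq) ((hKl t ht).trans el)
    (fun j hj x => by
      rw [← hwD j t ht x]
      exact (hSj j hj t ht x).trans (le_add_of_nonneg_right (norm_nonneg _)))
    ((hz0 t).trans (le_add_of_nonneg_left (hSnn t)))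
    ((hz1 t).trans (le_add_of_nonneg_left (hSnn t)))
  have hmain := h0 (n + 1) 2 T C w
    (fun t x => rhs σ (p t) (m t) (u t) x - rhs σ (q t) (l t) (v t) x) z zt S hT hwJS hwper
    (fun t ht x => (hu.eqn t ht x).sub (hv.eqn t ht x)) ?_
    (fun t _ => ⟨X 0 t, X 1 t, X 2 t, X 3 t, rfl⟩) ?_ ?_ ?_ ?_
  · intro t ht
    obtain ⟨h2, h3⟩ := hmain t ht
    refine ⟨funext fun x => sub_eq_zero.1 (h2 x), ?_, ?_⟩
    · have := congrFun h3 0
      simp only [hz, Matrix.cons_val_zero, Pi.zero_apply] at this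
      linarith
    · have := congrFun h3 1
      simp only [hz, Matrix.cons_val_one, Matrix.cons_val_zero, Pi.zero_apply] at this
      linarith
  · intro t ht
    rw [hasDerivWithinAt_pi]
    intro i
    fin_cases i
    · exact (hu.peqn t ht).sub (hv.peqn t ht)
    · exact (hu.meqn t ht).sub (hv.meqn t ht)
  · intro t ht x
    rw [hwD 4 t ht x]
    have := (hlip t ht).1 x
    have e : rhs σ (p t) (m t) (u t) x - rhs σ (q t) (l t) (v t) x +
        (2 : ℝ) • (iteratedDeriv 4 (u t) x - iteratedDeriv 4 (v t) x) =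
        rhs σ (p t) (m t) (u t) x + (2 : ℝ) • iteratedDeriv 4 (u t) x -
          (rhs σ (q t) (l t) (v t) x + (2 : ℝ) • iteratedDeriv 4 (v t) x) := by
      rw [smul_sub]
      abel
    rw [e]
    exact this
  · intro t ht
    obtain ⟨-, h2, h3⟩ := hlip t ht
    have hnn : 0 ≤ C * (S t + ‖z t‖) := (abs_nonneg _).trans h2
    rw [pi_norm_le_iff_of_nonneg hnn]
    intro i
    fin_cases i
    · have e : zt t 0 = -(2 * p t * mu σ (p t) (m t) (u t) - 2 * q t * mu σ (q t) (l t) (v t)) := by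
        simp only [hzt, Matrix.cons_val_zero]
        ring
      show ‖zt t 0‖ ≤ _
      rw [e, norm_neg]
      exact h2
    · exact h3
  · intro x
    simp only [hw, huv, sub_self]
  · ext i
    fin_cases i
    · simp [hz, hpq]
    · simp [hz, hml]

end Pool.Agent.Work.MP_4a14ce_an

end

section

/-!
# E6 part B: the right hand side is controlled by the dissipation; the length estimate
-/

open Set MeasureTheory Topology Filter
open scoped ContDiff

namespace Pool.Agent.Work.MP_4a14ce_an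

variable {n : ℕ}

theorem Conv_rhs_eq (σ p m : ℝ) (u : ℝ → V n) (x : ℝ) :
    rhs σ p m u x = vel σ p m u x + xi σ p m u x • iteratedDeriv 1 u x := by
  simp only [rhs, vel, xi]
  module

theorem Conv_hh_cont (σ p m : ℝ) {u : ℝ → V n} (hu : ContDiff ℝ ∞ u) :
    Continuous (hh σ p m u) := by
  have h2 : Continuous (fun x => B σ (iteratedDeriv 2 u x) (iteratedDeriv 2 u x)) :=
    Conv_B_cont2 σ (Conv_cont_iter hu 2) (Conv_cont_iter hu 2)
  have h3 : Continuous (fun x => B σ (iteratedDeriv 3 u x) (iteratedDeriv 3 u x)) :=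
    Conv_B_cont2 σ (Conv_cont_iter hu 3) (Conv_cont_iter hu 3)
  unfold hh eta rho
  fun_prop

theorem Conv_xi_end (σ p m : ℝ) {u : ℝ → V n} (hu : ContDiff ℝ ∞ u)
    (hp : Function.Periodic u (2 * Real.pi)) : xi σ p m u (2 * Real.pi) = 0 := by
  have h1 : rhox σ u (2 * Real.pi) = rhox σ u 0 := by
    unfold rhox
    have h2 := Conv_per_iter hp 2 0
    have h3 := Conv_per_iter hp 3 0
    rw [zero_add] at h2 h3
    rw [h2, h3]
  have h4 : ∫ y in (0 : ℝ)..(2 * Real.pi), (hh σ p m u y - mu σ p m u) = 0 := by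
    rw [intervalIntegral.integral_sub ((Conv_hh_cont σ p m hu).intervalIntegrable _ _)
      intervalIntegrable_const]
    simp only [intervalIntegral.integral_const, smul_eq_mul, mu, per]
    have hpi := Real.pi_ne_zero
    field_simp
    ring
  unfold xi alpha
  rw [h4, h1]
  ring

/-- The `L²` norm of the full right hand side is controlled by the dissipation. -/
theorem Conv_rhs_le (hT : ClaimTan) (hV : ClaimVelTan) (hBr : BRules) (hX : ClaimXi)
    (hCS : PerCS) (n : ℕ) (σ K : ℝ) (hσ : Sgn σ) (hK : 0 < K) :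
    ∃ C > 0, ∀ (w : ℝ → V n) (p : ℝ), Con σ p w → K⁻¹ ≤ p → p ≤ K →
      (∀ j ≤ 2, ∀ x, nsq (iteratedDeriv j w x) ≤ K) →
      Continuous (rhs σ p p⁻¹ w) ∧
      per (fun x => nsq (rhs σ p p⁻¹ w x)) ≤ C * dis σ p w := by
  obtain ⟨hT1, CT, hCT, hT2⟩ := hT n σ K hσ
  obtain ⟨-, -, -, -, hCSB⟩ := hBr n σ
  set M := 2 * K + 2 * K ^ 2 * K with hM
  have hM0 : 0 < M := by positivity
  have hpi := Real.pi_pos
  refine ⟨2 * CT + 2 * Real.pi * (2 * (4 * K ^ 2 * (2 * Real.pi * (M * CT)) * K)), by positivity,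
    fun w p hw hp1 hp2 hb => ?_⟩
  have hp0 : 0 < p := hw.pos
  have hvc := Conv_vel_cont σ p hw.smooth
  have hvt := hV n σ p w hσ hw
  obtain ⟨hx0, hxd⟩ := hX n σ p w hσ hw
  have hxc : Continuous (xi σ p p⁻¹ w) := continuous_iff_continuousAt.2 fun x =>
    (hxd x).continuousAt
  have hrc : Continuous (rhs σ p p⁻¹ w) := by
    have e : rhs σ p p⁻¹ w = fun x => vel σ p p⁻¹ w x + xi σ p p⁻¹ w x • iteratedDeriv 1 w x :=
      funext fun x => Conv_rhs_eq σ p p⁻¹ w x
    rw [e]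
    have := Conv_cont_iter hw.smooth 1
    fun_prop
  refine ⟨hrc, ?_⟩
  have hBvc : Continuous (fun x => B σ (vel σ p p⁻¹ w x) (vel σ p p⁻¹ w x)) :=
    Conv_B_cont2 σ hvc hvc
  have hnv : ∀ x, nsq (vel σ p p⁻¹ w x) ≤ CT * B σ (vel σ p p⁻¹ w x) (vel σ p p⁻¹ w x) := by
    intro x
    have h0 := hb 0 (by norm_num) x
    rw [iteratedDeriv_zero] at h0
    exact hT2 (w x) (hw.mem x) h0 _ (hvt x).1
  have hnvper : per (fun x => nsq (vel σ p p⁻¹ w x)) ≤ CT * dis σ p w := by
    unfold dis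
    rw [← Conv_per_mul]
    exact Conv_per_mono (by fun_prop) (by fun_prop) fun x _ => hnv x
  have hdis0 : 0 ≤ dis σ p w := Conv_per_nonneg fun x => hT1 (w x) (hw.mem x) _ (hvt x).1
  -- the function b
  set b : ℝ → ℝ := fun x => B σ (vel σ p p⁻¹ w x) (iteratedDeriv 2 w x + (σ * p) • w x) with hbdef
  have hbc : Continuous b := by
    have h2 := Conv_cont_iter hw.smooth 2
    have h0 := hw.smooth.continuous
    exact Conv_B_cont2 σ hvc (by fun_prop)
  have hbb : ∀ x, |b x| ≤ Real.sqrt (nsq (vel σ p p⁻¹ w x)) * Real.sqrt M := by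
    intro x
    refine (hCSB _ _ hσ).trans ?_
    refine mul_le_mul_of_nonneg_left (Real.sqrt_le_sqrt ?_) (Real.sqrt_nonneg _)
    refine (Conv_nsq_add_le _ _).trans ?_
    rw [Conv_nsq_smul]
    have h0 := hb 0 (by norm_num) x
    rw [iteratedDeriv_zero] at h0
    have h2 := hb 2 (by norm_num) x
    have hσ2 : (σ * p) ^ 2 = p ^ 2 := by
      rcases hσ with h | h <;> rw [h] <;> ring
    rw [hσ2, hM]
    have hp3 : p ^ 2 ≤ K ^ 2 := pow_le_pow_left₀ hp0.le hp2 2
    have := mul_le_mul hp3 h0 (Conv_nsq_nonneg _) (by positivity)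
    nlinarith
  have hperb : per (fun x => |b x|) ^ 2 ≤ 2 * Real.pi * (M * (CT * dis σ p w)) := by
    have h1 : per (fun x => |b x|) ≤
        per (fun x => Real.sqrt (nsq (vel σ p p⁻¹ w x)) * Real.sqrt M) :=
      Conv_per_mono (by fun_prop) (by fun_prop) fun x _ => hbb x
    have h2 := hCS (fun x => Real.sqrt (nsq (vel σ p p⁻¹ w x))) (fun _ => Real.sqrt M)
      (by fun_prop) (by fun_prop)
    have e1 : (fun x => Real.sqrt (nsq (vel σ p p⁻¹ w x)) ^ 2) =
        fun x => nsq (vel σ p p⁻¹ w x) := by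
      funext x
      exact Real.sq_sqrt (Conv_nsq_nonneg _)
    rw [e1, Real.sq_sqrt hM0.le, Conv_per_const] at h2
    have h3 : 0 ≤ per (fun x => |b x|) := Conv_per_nonneg fun x => abs_nonneg _
    calc per (fun x => |b x|) ^ 2
        ≤ per (fun x => Real.sqrt (nsq (vel σ p p⁻¹ w x)) * Real.sqrt M) ^ 2 :=
          pow_le_pow_left₀ h3 h1 2
      _ ≤ per (fun x => nsq (vel σ p p⁻¹ w x)) * (2 * Real.pi * M) := h2
      _ ≤ (CT * dis σ p w) * (2 * Real.pi * M) :=
          mul_le_mul_of_nonneg_right hnvper (by positivity)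
      _ = 2 * Real.pi * (M * (CT * dis σ p w)) := by ring
  -- the value of mu
  have hint : ∀ x, ∫ y in (0 : ℝ)..x, (p⁻¹ * b y - mu σ p p⁻¹ w) = xi σ p p⁻¹ w x := by
    intro x
    have h := intervalIntegral.integral_eq_sub_of_hasDerivAt (a := 0) (b := x)
      (fun y _ => hxd y) ((by fun_prop : Continuous fun y => p⁻¹ * b y - mu σ p p⁻¹ w)
        |>.intervalIntegrable _ _)
    rw [hx0, sub_zero] at h
    exact h
  have hint2 : ∀ x, ∫ y in (0 : ℝ)..x, (p⁻¹ * b y - mu σ p p⁻¹ w) =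
      p⁻¹ * (∫ y in (0 : ℝ)..x, b y) - x * mu σ p p⁻¹ w := by
    intro x
    rw [intervalIntegral.integral_sub ((by fun_prop : Continuous fun y => p⁻¹ * b y)
      |>.intervalIntegrable _ _) intervalIntegrable_const, intervalIntegral.integral_const_mul]
    simp
  have hmu : 2 * Real.pi * mu σ p p⁻¹ w = p⁻¹ * per b := by
    have h := hint (2 * Real.pi)
    rw [hint2, Conv_xi_end σ p p⁻¹ hw.smooth hw.periodic] at h
    unfold per
    linarith
  have hpb : |per b| ≤ per (fun x => |b x|) := by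
    unfold per
    exact intervalIntegral.abs_integral_le_integral_abs (by positivity)
  have hxi : ∀ x ∈ Icc (0 : ℝ) (2 * Real.pi), |xi σ p p⁻¹ w x| ≤
      2 * p⁻¹ * per (fun x => |b x|) := by
    intro x hx
    rw [← hint x, hint2 x]
    have h1 : |∫ y in (0 : ℝ)..x, b y| ≤ per (fun x => |b x|) := by
      refine (intervalIntegral.abs_integral_le_integral_abs hx.1).trans ?_
      unfold per
      refine intervalIntegral.integral_mono_interval le_rfl hx.1 hx.2
        (Eventually.of_forall fun y => abs_nonneg _) ?_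
      exact (by fun_prop : Continuous fun y => |b y|).intervalIntegrable _ _
    have h2 : |x * mu σ p p⁻¹ w| ≤ p⁻¹ * per (fun x => |b x|) := by
      rw [abs_mul, abs_of_nonneg hx.1]
      calc x * |mu σ p p⁻¹ w| ≤ 2 * Real.pi * |mu σ p p⁻¹ w| :=
            mul_le_mul_of_nonneg_right hx.2 (abs_nonneg _)
        _ = |2 * Real.pi * mu σ p p⁻¹ w| := by
            rw [abs_mul, abs_of_pos (by positivity : 0 < 2 * Real.pi)]
        _ = p⁻¹ * |per b| := by
            rw [hmu, abs_mul, abs_of_pos (inv_pos.2 hp0)]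
        _ ≤ p⁻¹ * per (fun x => |b x|) :=
            mul_le_mul_of_nonneg_left hpb (inv_pos.2 hp0).le
    have h3 : |p⁻¹ * ∫ y in (0 : ℝ)..x, b y| ≤ p⁻¹ * per (fun x => |b x|) := by
      rw [abs_mul, abs_of_pos (inv_pos.2 hp0)]
      exact mul_le_mul_of_nonneg_left h1 (inv_pos.2 hp0).le
    calc |p⁻¹ * (∫ y in (0 : ℝ)..x, b y) - x * mu σ p p⁻¹ w|
        ≤ |p⁻¹ * ∫ y in (0 : ℝ)..x, b y| + |x * mu σ p p⁻¹ w| := abs_sub _ _
      _ ≤ _ := by linarith
  have hpinv : p⁻¹ ≤ K := by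
    rw [inv_le_comm₀ hp0 hK]
    exact hp1
  have hxi2 : ∀ x ∈ Icc (0 : ℝ) (2 * Real.pi), xi σ p p⁻¹ w x ^ 2 ≤
      4 * K ^ 2 * (2 * Real.pi * (M * (CT * dis σ p w))) := by
    intro x hx
    have hb0 : 0 ≤ per (fun x => |b x|) := Conv_per_nonneg fun x => abs_nonneg _
    calc xi σ p p⁻¹ w x ^ 2 = |xi σ p p⁻¹ w x| ^ 2 := (sq_abs _).symm
      _ ≤ (2 * p⁻¹ * per (fun x => |b x|)) ^ 2 := pow_le_pow_left₀ (abs_nonneg _) (hxi x hx) 2
      _ = 4 * p⁻¹ ^ 2 * per (fun x => |b x|) ^ 2 := by ring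
      _ ≤ 4 * K ^ 2 * (2 * Real.pi * (M * (CT * dis σ p w))) := by
          refine mul_le_mul ?_ hperb (by positivity) (by positivity)
          have := pow_le_pow_left₀ (inv_pos.2 hp0).le hpinv 2
          linarith
  -- conclusion
  have hfin : ∀ x ∈ Icc (0 : ℝ) (2 * Real.pi), nsq (rhs σ p p⁻¹ w x) ≤
      2 * nsq (vel σ p p⁻¹ w x) +
        2 * (4 * K ^ 2 * (2 * Real.pi * (M * (CT * dis σ p w))) * K) := by
    intro x hx
    rw [Conv_rhs_eq]
    refine (Conv_nsq_add_le _ _).trans ?_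
    rw [Conv_nsq_smul]
    have h1 := hb 1 (by norm_num) x
    have := mul_le_mul (hxi2 x hx) h1 (Conv_nsq_nonneg _) (by positivity)
    linarith
  have := Conv_per_mono (by fun_prop) (by fun_prop) hfin
  refine this.trans ?_
  rw [Conv_per_add (by fun_prop) (by fun_prop), Conv_per_mul, Conv_per_const]
  nlinarith [hnvper]

/-! ### the scalar length estimate -/

theorem Conv_scalar (a b θ C c₀ F E : ℝ) (hab : a ≤ b) (hθ : θ ∈ Ioo (0 : ℝ) 1) (hC : 0 < C)
    (hc₀ : 0 < c₀) (hF : 0 ≤ F) (G e G' κ D : ℝ → ℝ)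
    (hG : ∀ t ∈ Icc a b, HasDerivWithinAt G (G' t) (Icc a b) t)
    (he : ∀ t ∈ Icc a b, HasDerivWithinAt e (-(κ t * D t ^ 2)) (Icc a b) t)
    (hκ : ∀ t ∈ Icc a b, c₀ ≤ κ t) (hD : ∀ t ∈ Icc a b, 0 ≤ D t)
    (hE : ∀ t ∈ Icc a b, E ≤ e t) (hLS : ∀ t ∈ Icc a b, (e t - E) ^ θ ≤ C * D t)
    (hGD : ∀ t ∈ Icc a b, G' t ≤ F * D t) :
    G b - G a ≤ C / ((1 - θ) * c₀) * F * (e a - E) ^ (1 - θ) := by
  have h1θ : 0 < 1 - θ := by linarith [hθ.2]
  set A := C / ((1 - θ) * c₀) with hA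
  have hA0 : 0 < A := by positivity
  -- estimate for ε > 0
  have key : ∀ ε > 0, G b - G a ≤ A * F * (e a - E + ε) ^ (1 - θ) +
      F * ε ^ θ / C * (b - a) := by
    intro ε hε
    set Ψ : ℝ → ℝ := fun t => G t + A * F * (e t - E + ε) ^ (1 - θ) - F * ε ^ θ / C * t with hΨ
    have hder : ∀ t ∈ Icc a b, HasDerivWithinAt Ψ
        (G' t + A * F * (-(κ t * D t ^ 2) * (1 - θ) * (e t - E + ε) ^ (1 - θ - 1))
          - F * ε ^ θ / C) (Icc a b) t := by
      intro t ht
      have hpos : 0 < e t - E + ε := by linarith [hE t ht]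
      have h1 : HasDerivWithinAt (fun s => e s - E + ε) (-(κ t * D t ^ 2)) (Icc a b) t :=
        ((he t ht).sub_const E).add_const ε
      have h2 := h1.rpow_const (p := 1 - θ) (Or.inl hpos.ne')
      have h3 := h2.const_mul (A * F)
      have h4 := (hasDerivWithinAt_id t (Icc a b)).const_mul (F * ε ^ θ / C)
      have h5 := ((hG t ht).add h3).sub h4
      exact HasDerivWithinAt.congr_deriv h5 (by rw [mul_one])
    have hle : ∀ t ∈ Icc a b, G' t + A * F * (-(κ t * D t ^ 2) * (1 - θ) *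
        (e t - E + ε) ^ (1 - θ - 1)) - F * ε ^ θ / C ≤ 0 := by
      intro t ht
      have hpos : 0 < e t - E + ε := by linarith [hE t ht]
      have hH0 : 0 ≤ e t - E := by linarith [hE t ht]
      set η := ε ^ θ with hη
      have hη0 : 0 < η := Real.rpow_pos_of_pos hε _
      set Z := (e t - E + ε) ^ θ with hZ
      have hZ0 : 0 < Z := Real.rpow_pos_of_pos hpos _
      have hZ1 : Z ≤ C * D t + η := by
        have := Real.rpow_add_le_add_rpow (p := θ) hH0 hε.le hθ.1.le hθ.2.le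
        linarith [hLS t ht]
      have e1 : (e t - E + ε) ^ (1 - θ - 1) = Z⁻¹ := by
        rw [show 1 - θ - 1 = -θ by ring, Real.rpow_neg hpos.le]
      rw [e1]
      have hDt := hD t ht
      have hq : D t / C - η / C ^ 2 ≤ D t ^ 2 * Z⁻¹ := by
        have h1 : D t / C - η / C ^ 2 ≤ D t ^ 2 * (C * D t + η)⁻¹ := by
          have hpos2 : 0 < C * D t + η := by positivity
          rw [← div_eq_mul_inv, le_div_iff₀ hpos2]
          have : (D t / C - η / C ^ 2) * (C * D t + η) = D t ^ 2 - η ^ 2 / C ^ 2 := by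
            field_simp
            ring
          rw [this]
          have : 0 ≤ η ^ 2 / C ^ 2 := by positivity
          linarith
        refine h1.trans ?_
        refine mul_le_mul_of_nonneg_left ?_ (sq_nonneg _)
        exact inv_anti₀ hZ0 hZ1
      have hκt := hκ t ht
      have h2 : c₀ * (D t ^ 2 * Z⁻¹) ≤ κ t * (D t ^ 2 * Z⁻¹) :=
        mul_le_mul_of_nonneg_right hκt (by positivity)
      have h3 : A * F * (-(κ t * D t ^ 2) * (1 - θ) * Z⁻¹) ≤
          -(A * F * (1 - θ) * (c₀ * (D t / C - η / C ^ 2))) := by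
        have h4 : c₀ * (D t / C - η / C ^ 2) ≤ κ t * (D t ^ 2 * Z⁻¹) :=
          (mul_le_mul_of_nonneg_left hq hc₀.le).trans h2
        have h5 : 0 ≤ A * F * (1 - θ) := by positivity
        have := mul_le_mul_of_nonneg_left h4 h5
        linarith
      have h6 : A * F * (1 - θ) * (c₀ * (D t / C - η / C ^ 2)) = F * D t - F * η / C := by
        rw [hA]
        field_simp
      rw [h6] at h3
      have := hGD t ht
      linarith
    have hanti : AntitoneOn Ψ (Icc a b) := by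
      refine antitoneOn_of_hasDerivWithinAt_nonpos (convex_Icc a b)
        (fun t ht => (hder t ht).continuousWithinAt) (f' := fun t =>
          G' t + A * F * (-(κ t * D t ^ 2) * (1 - θ) * (e t - E + ε) ^ (1 - θ - 1))
          - F * ε ^ θ / C) ?_ ?_
      · intro t ht
        exact (hder t (interior_subset ht)).mono interior_subset
      · intro t ht
        exact hle t (interior_subset ht)
    have h1 := hanti (left_mem_Icc.2 hab) (right_mem_Icc.2 hab) hab
    simp only [hΨ] at h1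
    have h2 : 0 ≤ A * F * (e b - E + ε) ^ (1 - θ) := by
      have : 0 ≤ e b - E + ε := by linarith [hE b (right_mem_Icc.2 hab)]
      positivity
    linarith
  -- limit ε → 0
  have hlim : Tendsto (fun ε : ℝ => A * F * (e a - E + ε) ^ (1 - θ) +
      F * ε ^ θ / C * (b - a)) (𝓝[>] 0)
      (𝓝 (A * F * (e a - E + 0) ^ (1 - θ) + F * 0 ^ θ / C * (b - a))) := by
    have hc : Continuous (fun ε : ℝ => A * F * (e a - E + ε) ^ (1 - θ) +
        F * ε ^ θ / C * (b - a)) := by
      have h1 : Continuous (fun ε : ℝ => (e a - E + ε) ^ (1 - θ)) :=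
        (by fun_prop : Continuous fun ε : ℝ => e a - E + ε).rpow_const
          fun _ => Or.inr h1θ.le
      have h2 : Continuous (fun ε : ℝ => ε ^ θ) :=
        continuous_id.rpow_const fun _ => Or.inr hθ.1.le
      fun_prop
    exact hc.continuousWithinAt.tendsto
  have := ge_of_tendsto hlim (eventually_mem_nhdsWithin.mono fun ε hε => key ε hε)
  rwa [add_zero, Real.zero_rpow hθ.1.ne', mul_zero, zero_div, zero_mul, add_zero] at this

end Pool.Agent.Work.MP_4a14ce_an

end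

section

/-!
# Item T10: an elastic flow, reparametrised to constant speed, solves the semilinear equation
-/

open Set MeasureTheory Topology Filter
open scoped ContDiff

namespace Pool.Agent.Work.MP_4a14ce_an

variable {n : ℕ} {σ : ℝ}

/-- The chain rule for jointly smooth functions along a curve `s ↦ (s, a s)`. -/
lemma ftt_chain {E : Type*} [NormedAddCommGroup E] [NormedSpace ℝ E] {I : Set ℝ}
    (hI : UniqueDiffOn ℝ I) {f : ℝ → ℝ → E} (hf : JS I f) {t : ℝ} (ht : t ∈ I) {a : ℝ → ℝ}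
    {a' : ℝ} (ha : HasDerivWithinAt a a' I t) {ft fx : E}
    (h1 : HasDerivWithinAt (fun s => f s (a t)) ft I t) (h2 : HasDerivAt (f t) fx (a t)) :
    HasDerivWithinAt (fun s => f s (a s)) (ft + a' • fx) I t := by
  set F : ℝ × ℝ → E := fun z => f z.1 z.2 with hF
  have hd : DifferentiableWithinAt ℝ F (I ×ˢ univ) (t, a t) :=
    (hf.differentiableOn (by simp)) (t, a t) ⟨ht, mem_univ _⟩
  obtain ⟨L, hL⟩ : ∃ L, HasFDerivWithinAt F L (I ×ˢ univ) (t, a t) := ⟨_, hd.hasFDerivWithinAt⟩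
  have e1 : L (1, 0) = ft := by
    have hc : HasDerivWithinAt (fun s : ℝ => ((s, a t) : ℝ × ℝ)) (1, 0) I t :=
      (hasDerivWithinAt_id t I).prodMk (hasDerivWithinAt_const t I (a t))
    have h3 : HasDerivWithinAt (F ∘ fun s : ℝ => ((s, a t) : ℝ × ℝ)) (L (1, 0)) I t :=
      HasFDerivWithinAt.comp_hasDerivWithinAt t hL hc (fun s hs => ⟨hs, mem_univ _⟩)
    exact (hI t ht).eq_deriv _ h3 h1
  have e2 : L (0, 1) = fx := by
    have hc : HasDerivWithinAt (fun y : ℝ => ((t, y) : ℝ × ℝ)) (0, 1) univ (a t) :=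
      (hasDerivWithinAt_const (a t) univ t).prodMk (hasDerivWithinAt_id (a t) univ)
    have h3 : HasDerivWithinAt (F ∘ fun y : ℝ => ((t, y) : ℝ × ℝ)) (L (0, 1)) univ (a t) :=
      HasFDerivWithinAt.comp_hasDerivWithinAt (a t) hL hc (fun s _ => ⟨ht, mem_univ _⟩)
    rw [hasDerivWithinAt_univ] at h3
    exact h3.unique h2
  have hc : HasDerivWithinAt (fun s : ℝ => ((s, a s) : ℝ × ℝ)) (1, a') I t :=
    (hasDerivWithinAt_id t I).prodMk ha
  have h3 : HasDerivWithinAt (F ∘ fun s : ℝ => ((s, a s) : ℝ × ℝ)) (L (1, a')) I t :=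
    HasFDerivWithinAt.comp_hasDerivWithinAt t hL hc (fun s hs => ⟨hs, mem_univ _⟩)
  have e3 : L (1, a') = ft + a' • fx := by
    have : ((1, a') : ℝ × ℝ) = (1, 0) + a' • (0, 1) := by simp
    rw [this, map_add, map_smul, e1, e2]
  rw [e3] at h3
  exact h3

/-- The tangential component vanishes after one period. -/
lemma ftt_xi_period {p m : ℝ} {u : ℝ → V n} (hu : ContDiff ℝ ∞ u)
    (hper : Function.Periodic u (2 * Real.pi)) :
    xi σ p m u (2 * Real.pi) = 0 := by
  have h1 : rhox σ u (2 * Real.pi) = rhox σ u 0 := by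
    have h2 := cstr_periodic_iter hper 2 0
    have h3 := cstr_periodic_iter hper 3 0
    rw [zero_add] at h2 h3
    rw [rhox, rhox, h2, h3]
  have hc : Continuous (hh σ p m u) := cstr_hh_cont hu
  have h2 : (∫ y in (0 : ℝ)..(2 * Real.pi), (hh σ p m u y - mu σ p m u)) = 0 := by
    rw [intervalIntegral.integral_sub (hc.intervalIntegrable _ _)
      (intervalIntegrable_const), intervalIntegral.integral_const]
    have h3 : (∫ y in (0 : ℝ)..(2 * Real.pi), hh σ p m u y) = per (hh σ p m u) := rfl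
    rw [h3, mu, smul_eq_mul, sub_zero, ← mul_assoc, mul_inv_cancel₀ (by positivity), one_mul,
      sub_self]
  rw [xi, alpha, h1, h2]
  ring

lemma ftt_rhs_eq {p m : ℝ} {u : ℝ → V n} (x : ℝ) :
    rhs σ p m u x = vel σ p m u x + xi σ p m u x • iteratedDeriv 1 u x := by
  rw [rhs, vel, xi, add_smul]
  abel


lemma ftt_vel (hXi : ClaimXi) (hσ : Sgn σ) {p : ℝ} {u : ℝ → V n} (hcon : Con σ p u) (y : ℝ) :
    ∃ v', HasDerivAt (vel σ p p⁻¹ u) v' y := by
  have h1 := cstr_rhs (σ := σ) (p := p) (m := p⁻¹) hcon.smooth y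
  have h2 := (hXi n σ p u hσ hcon).2 y
  have h3 := h1.sub (h2.smul (cstr_D hcon.smooth 1 y))
  refine ⟨_, h3.congr_of_eventuallyEq (Eventually.of_forall (fun z => ?_))⟩
  have h4 := ftt_rhs_eq (σ := σ) (p := p) (m := p⁻¹) (u := u) z
  simp only [Pi.sub_apply, Pi.smul_apply', h4, add_sub_cancel_right]

lemma ftt_core (hXi : ClaimXi) (hVT : ClaimVelTan) (hσ : Sgn σ) {p c : ℝ} {u : ℝ → V n}
    (hcon : Con σ p u) {φ φ' : ℝ → ℝ} (hφ : ∀ y, HasDerivAt φ (φ' y) y) (hφ0 : φ 0 = 0)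
    (hφ1 : φ (2 * Real.pi) = 0)
    (hsp : ∀ y, 2 * B σ (iteratedDeriv 1 u y) (deriv (fun z => (p ^ 2)⁻¹ • vel σ p p⁻¹ u z +
      φ z • iteratedDeriv 1 u z) y) = c) (y : ℝ) : φ y = (p ^ 2)⁻¹ * xi σ p p⁻¹ u y := by
  have hp := hcon.pos
  obtain ⟨hxi0, hxi⟩ := hXi n σ p u hσ hcon
  have hvt := hVT n σ p u hσ hcon
  -- the derivative of `φ`
  have hder : ∀ y, p ^ 2 * φ' y = p * c / 2 +
      p⁻¹ * B σ (vel σ p p⁻¹ u y) (iteratedDeriv 2 u y) := by
    intro y
    obtain ⟨v', hv'⟩ := ftt_vel hXi hσ hcon y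
    have h1 : HasDerivAt (fun z => (p ^ 2)⁻¹ • vel σ p p⁻¹ u z + φ z • iteratedDeriv 1 u z)
        ((p ^ 2)⁻¹ • v' + (φ y • iteratedDeriv 2 u y + φ' y • iteratedDeriv 1 u y)) y :=
      (hv'.const_smul ((p ^ 2)⁻¹)).add ((hφ y).smul (cstr_D hcon.smooth 1 y))
    have h2 := hsp y
    rw [h1.deriv, cstr_B_add, cstr_B_add, cstr_B_smul, cstr_B_smul, cstr_B_smul] at h2
    have h3 : B σ (iteratedDeriv 1 u y) (iteratedDeriv 1 u y) = p := by
      have := hcon.speed y
      rwa [← iteratedDeriv_one] at this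
    have h4 : B σ (iteratedDeriv 1 u y) (iteratedDeriv 2 u y) = 0 := by
      have h5 := cstr_b (σ := σ) hcon.smooth 1 1 y
      have h6 : (fun z => B σ (iteratedDeriv 1 u z) (iteratedDeriv 1 u z)) = fun _ => p := by
        funext z
        have := hcon.speed z
        rwa [← iteratedDeriv_one] at this
      rw [h6] at h5
      have h7 := h5.unique (hasDerivAt_const y p)
      rw [cstr_B_symm (iteratedDeriv (1 + 1) u y)] at h7
      change B σ (iteratedDeriv 1 u y) (iteratedDeriv 2 u y) +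
        B σ (iteratedDeriv 1 u y) (iteratedDeriv 2 u y) = 0 at h7
      linarith
    have h5 : B σ v' (iteratedDeriv 1 u y) +
        B σ (vel σ p p⁻¹ u y) (iteratedDeriv 2 u y) = 0 := by
      have h6 := cstr_B_hasDerivAt (σ := σ) hv' (cstr_D hcon.smooth 1 y)
      have h7 : (fun z => B σ (vel σ p p⁻¹ u z) (iteratedDeriv 1 u z)) = fun _ => (0 : ℝ) := by
        funext z
        have := (hvt z).2
        rwa [← iteratedDeriv_one] at this
      rw [h7] at h6
      exact h6.unique (hasDerivAt_const y 0)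
    rw [h3, h4, cstr_B_symm (iteratedDeriv 1 u y) v'] at h2
    have h8 : B σ v' (iteratedDeriv 1 u y) =
        -B σ (vel σ p p⁻¹ u y) (iteratedDeriv 2 u y) := by linarith
    rw [h8] at h2
    field_simp at h2 ⊢
    linarith
  -- `p² φ - xi` is linear
  have hlin : ∀ y, HasDerivAt (fun z => p ^ 2 * φ z - xi σ p p⁻¹ u z -
      (p * c / 2 + mu σ p p⁻¹ u) * z) 0 y := by
    intro y
    have h1 := (((hφ y).const_mul (p ^ 2)).sub (hxi y)).sub
      ((hasDerivAt_id y).const_mul (p * c / 2 + mu σ p p⁻¹ u))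
    refine h1.congr_deriv ?_
    rw [hder y, cstr_B_add, cstr_B_smul, (hvt y).1]
    ring
  have hconst := is_const_of_deriv_eq_zero (fun y => (hlin y).differentiableAt)
    (fun y => (hlin y).deriv)
  have hxi1 : xi σ p p⁻¹ u (2 * Real.pi) = 0 := ftt_xi_period hcon.smooth hcon.periodic
  have h1 := hconst (2 * Real.pi) 0
  simp only [hφ0, hφ1, hxi0, hxi1, mul_zero, sub_zero, zero_sub] at h1
  have h2 : p * c / 2 + mu σ p p⁻¹ u = 0 := by
    have h3 : (p * c / 2 + mu σ p p⁻¹ u) * (2 * Real.pi) = 0 := by linarith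
    exact (mul_eq_zero.mp h3).resolve_right (by positivity)
  have h3 := hconst y 0
  simp only [hφ0, hxi0, h2, mul_zero, sub_zero, zero_mul] at h3
  have h4 : p ^ 2 * φ y = xi σ p p⁻¹ u y := by linarith
  rw [← h4, inv_mul_cancel_left₀ (by positivity)]

theorem claimFlowToT (hArc : ClaimArc) (hGC : ClaimGradCon) (hGR : ClaimGradRep)
    (hGU : ClaimGradUnique) (hXi : ClaimXi) (hVT : ClaimVelTan) (hEF : ClaimEnergyForm)
    (hSl : JSSlice) (hSl1 : JSSlice1) (hDt : JSDt) (hDt1 : JSDt1) (hC : JSComp) :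
    ClaimFlowToT := by
  intro n σ γ₀ γ hσ hflow
  have hI : Itv (Ici (0 : ℝ)) := Or.inl ⟨0, rfl⟩
  have hU : UniqueDiffOn ℝ (Ici (0 : ℝ)) := uniqueDiffOn_Ici 0
  have hγJ : JS (Ici 0) γ := hflow.smooth
  obtain ⟨X, p, hYJ, hXJ, hpJ, hall⟩ := hArc n σ γ hσ hγJ hflow.closed
  set u : ℝ → ℝ → V n := fun t y => γ t (X t y) with hu
  have huJ : JS (Ici 0) u := hC (n + 1) (Ici 0) γ X hγJ hXJ
  obtain ⟨γt, _, hγt⟩ := hDt (n + 1) (Ici 0) γ hI hγJ
  obtain ⟨ut, _, hut⟩ := hDt (n + 1) (Ici 0) u hI huJ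
  obtain ⟨Xt, hXtJ, hXt⟩ := hDt1 (Ici 0) X hI hXJ
  obtain ⟨Yt, _, hYt⟩ := hDt1 (Ici 0) (fun t => arcY σ (γ t)) hI hYJ
  have hXsm := (hSl1 (Ici 0) X hI hXJ).1
  have hXtsm := (hSl1 (Ici 0) Xt hI hXtJ).1
  have hYsm := (hSl1 (Ici 0) (fun t => arcY σ (γ t)) hI hYJ).1
  have hγsm := (hSl (n + 1) (Ici 0) γ hI hγJ).1
  have hγt0 : ∀ t ∈ Ici (0 : ℝ), ∀ x, HasDerivWithinAt (fun s => γ s x) (γt t x) (Ici 0) t := by
    intro t ht x
    have := hγt 0 t ht x
    simpa only [iteratedDeriv_zero] using this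
  have hXt0 : ∀ t ∈ Ici (0 : ℝ), ∀ x, HasDerivWithinAt (fun s => X s x) (Xt t x) (Ici 0) t := by
    intro t ht x
    have := hXt 0 t ht x
    simpa only [iteratedDeriv_zero] using this
  have hYt0 : ∀ t ∈ Ici (0 : ℝ), ∀ x,
      HasDerivWithinAt (fun s => arcY σ (γ s) x) (Yt t x) (Ici 0) t := by
    intro t ht x
    have := hYt 0 t ht x
    simpa only [iteratedDeriv_zero] using this
  have hut0 : ∀ t ∈ Ici (0 : ℝ), ∀ x, HasDerivWithinAt (fun s => u s x) (ut t x) (Ici 0) t := by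
    intro t ht x
    have := hut 0 t ht x
    simpa only [iteratedDeriv_zero] using this
  have hcon : ∀ t ∈ Ici (0 : ℝ), Con σ (p t) (u t) := fun t ht => (hall t ht).2.2.2.2
  -- the normal velocity
  have hvel : ∀ t ∈ Ici (0 : ℝ), ∀ y,
      γt t (X t y) = ((p t) ^ 2)⁻¹ • vel σ (p t) (p t)⁻¹ (u t) y := by
    intro t ht y
    obtain ⟨hYr, hXr, _, hinv, hc⟩ := hall t ht
    have h1 := hGC n σ (p t) (u t) hσ hc
    have h2 := hGR n σ (u t) _ (arcY σ (γ t)) hσ (hEF n σ (p t) (u t) hσ hc).1 hYr h1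
    have h3 : (fun x => u t (arcY σ (γ t) x)) = γ t := by
      funext x
      simp only [hu, (hinv x).1]
    rw [h3] at h2
    have h4 := hGU n σ (γ t) _ _ hσ (hflow.closed t ht) (hflow.flow t ht) h2
    have h5 := congrFun h4 (X t y)
    simp only [neg_inj, (hinv y).2] at h5
    rw [(hγt0 t ht (X t y)).derivWithin (hU t ht)] at h5
    exact h5
  have hXpos : ∀ t ∈ Ici (0 : ℝ), ∀ y, 0 < deriv (X t) y :=
    fun t ht => (hall t ht).2.1.deriv_pos
  have hXd : ∀ t ∈ Ici (0 : ℝ), ∀ y, HasDerivAt (X t) (deriv (X t) y) y := fun t ht y =>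
    ((hXsm t ht).differentiable (by simp) y).hasDerivAt
  -- the tangential velocity
  set φ : ℝ → ℝ → ℝ := fun t y => Xt t y / deriv (X t) y with hφdef
  have hutφ : ∀ t ∈ Ici (0 : ℝ), ∀ y, ut t y = ((p t) ^ 2)⁻¹ • vel σ (p t) (p t)⁻¹ (u t) y +
      φ t y • iteratedDeriv 1 (u t) y := by
    intro t ht y
    have h1 : HasDerivAt (γ t) (deriv (γ t) (X t y)) (X t y) :=
      ((hγsm t ht).differentiable (by simp) _).hasDerivAt
    have h2 := ftt_chain hU hγJ ht (hXt0 t ht y) (hγt0 t ht (X t y)) h1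
    have h3 := (hU t ht).eq_deriv _ (hut0 t ht y) h2
    have h4 : iteratedDeriv 1 (u t) y = deriv (X t) y • deriv (γ t) (X t y) := by
      rw [iteratedDeriv_one]
      exact (HasDerivAt.scomp y h1 (hXd t ht y)).deriv
    rw [h3, hvel t ht y, h4, smul_smul, hφdef]
    simp only
    rw [div_mul_cancel₀ _ (hXpos t ht y).ne']
  -- identification of the tangential velocity
  have hφeq : ∀ t ∈ Ici (0 : ℝ), ∀ y,
      φ t y = ((p t) ^ 2)⁻¹ * xi σ (p t) (p t)⁻¹ (u t) y := by
    intro t ht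
    have hdφ : ∀ y, ∃ c, HasDerivAt (φ t) c y := by
      intro y
      have h1 : DifferentiableAt ℝ (Xt t) y := (hXtsm t ht).differentiable (by simp) y
      have h2 : DifferentiableAt ℝ (deriv (X t)) y := by
        have h4 := (hXsm t ht).differentiable_iteratedDeriv 1 (by exact_mod_cast (WithTop.coe_lt_top 1)) y
        rwa [iteratedDeriv_one] at h4
      exact ⟨_, (h1.div h2 (hXpos t ht y).ne').hasDerivAt⟩
    choose φ' hφ' using hdφ
    have hX0 : ∀ s ∈ Ici (0 : ℝ), X s 0 = 0 := by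
      intro s hs
      obtain ⟨_, _, h0, hinv, _⟩ := hall s hs
      have := (hinv 0).1
      rwa [h0] at this
    have hXt00 : Xt t 0 = 0 := by
      have h1 : HasDerivWithinAt (fun s => X s 0) 0 (Ici 0) t :=
        (hasDerivWithinAt_const t (Ici 0) (0 : ℝ)).congr (fun s hs => hX0 s hs) (hX0 t ht)
      exact (hU t ht).eq_deriv _ (hXt0 t ht 0) h1
    have hXt2 : Xt t (2 * Real.pi) = 0 := by
      have h0 : ∀ s ∈ Ici (0 : ℝ), X s (2 * Real.pi) = 2 * Real.pi := by
        intro s hs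
        have := (hall s hs).2.1.shift 0
        rwa [hX0 s hs, zero_add] at this
      have h1 : HasDerivWithinAt (fun s => X s (2 * Real.pi)) 0 (Ici 0) t :=
        (hasDerivWithinAt_const t (Ici 0) (2 * Real.pi)).congr (fun s hs => h0 s hs) (h0 t ht)
      exact (hU t ht).eq_deriv _ (hXt0 t ht (2 * Real.pi)) h1
    -- the derivative of the speed
    have hpd : HasDerivWithinAt p (derivWithin p (Ici 0) t) (Ici 0) t :=
      ((hpJ.differentiableOn (by simp)) t ht).hasDerivWithinAt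
    have hsp : ∀ y, 2 * B σ (iteratedDeriv 1 (u t) y)
        (deriv (fun z => ((p t) ^ 2)⁻¹ • vel σ (p t) (p t)⁻¹ (u t) z +
          φ t z • iteratedDeriv 1 (u t) z) y) = derivWithin p (Ici 0) t := by
      intro y
      have h1 := hut 1 t ht y
      have h2 : iteratedDeriv 1 (ut t) y = deriv (fun z => ((p t) ^ 2)⁻¹ •
          vel σ (p t) (p t)⁻¹ (u t) z + φ t z • iteratedDeriv 1 (u t) z) y := by
        rw [iteratedDeriv_one]
        congr 1
        exact funext (fun z => hutφ t ht z)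
      rw [h2] at h1
      have h3 := cstr_B_hasDerivWithinAt (σ := σ) h1 h1
      have h4 : HasDerivWithinAt p _ (Ici 0) t := h3.congr (fun s hs => by
        have := (hcon s hs).speed y
        rw [← iteratedDeriv_one] at this
        exact this.symm) (by
        have := (hcon t ht).speed y
        rw [← iteratedDeriv_one] at this
        exact this.symm)
      have h5 := (hU t ht).eq_deriv _ h4 hpd
      rw [cstr_B_symm (deriv _ y)] at h5
      rw [← h5]
      ring
    refine fun y => ftt_core hXi hVT hσ (hcon t ht) hφ' ?_ ?_ hsp y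
    · simp only [hφdef, hXt00, zero_div]
    · simp only [hφdef, hXt2, zero_div]
  refine ⟨X, p, ⟨huJ, hpJ, hcon, ?_⟩, fun t ht => (hall t ht).2.2.2.1, ?_⟩
  · intro t ht y
    have h1 := hut0 t ht y
    rw [hutφ t ht y, hφeq t ht y] at h1
    refine h1.congr_deriv ?_
    rw [ftt_rhs_eq, smul_add, smul_smul]
  · intro t ht x
    obtain ⟨hYr, hXr, _, hinv, _⟩ := hall t ht
    set y := arcY σ (γ t) x with hy
    have hxy : X t y = x := (hinv x).1
    have hYd : HasDerivAt (arcY σ (γ t)) (deriv (arcY σ (γ t)) (X t y)) (X t y) :=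
      ((hYsm t ht).differentiable (by simp) _).hasDerivAt
    have h1 := ftt_chain hU hYJ ht (hXt0 t ht y) (hYt0 t ht (X t y)) hYd
    have h2 : HasDerivWithinAt (fun s => arcY σ (γ s) (X s y)) 0 (Ici 0) t :=
      (hasDerivWithinAt_const t (Ici 0) y).congr (fun s hs => ((hall s hs).2.2.2.1 y).2)
        (((hall t ht).2.2.2.1 y).2)
    have h3 := (hU t ht).eq_deriv _ h1 h2
    have h4 : deriv (arcY σ (γ t)) (X t y) * deriv (X t) y = 1 := by
      have h5 := hYd.comp y (hXd t ht y)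
      have h6 : (arcY σ (γ t)) ∘ (X t) = id := funext (fun z => (hinv z).2)
      rw [h6] at h5
      exact h5.unique (hasDerivAt_id y)
    have h5 : Yt t x = -φ t y := by
      have h6 := (hXpos t ht y).ne'
      rw [hxy] at h3 h4
      simp only [smul_eq_mul] at h3
      have h7 : deriv (arcY σ (γ t)) x = (deriv (X t) y)⁻¹ := eq_inv_of_mul_eq_one_left h4
      rw [h7] at h3
      simp only [hφdef]
      rw [div_eq_mul_inv]
      linarith
    have h6 := hYt0 t ht x
    rw [h5, hφeq t ht y] at h6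
    exact h6

end Pool.Agent.Work.MP_4a14ce_an

end

section

/-!
# Product estimates, part B: the second derivative of the nonlinearity
-/

open Set MeasureTheory Topology Filter
open scoped ContDiff

set_option autoImplicit false

namespace Pool.Agent.Work.MP_4a14ce_an

variable {n : ℕ}

theorem H4a_Bder (hB : BRules) {σ : ℝ} {u : ℝ → V n} (hu : ContDiff ℝ ∞ u) (i j : ℕ) (x : ℝ) :
    HasDerivAt (fun y => B σ (iteratedDeriv i u y) (iteratedDeriv j u y))
      (B σ (iteratedDeriv (i + 1) u x) (iteratedDeriv j u x)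
        + B σ (iteratedDeriv i u x) (iteratedDeriv (j + 1) u x)) x := by
  have h := (hB n σ).2.2.2.1 (iteratedDeriv i u) (iteratedDeriv j u) (iteratedDeriv (i + 1) u)
    (iteratedDeriv (j + 1) u) univ x (H4a_der hu i x).hasDerivWithinAt
    (H4a_der hu j x).hasDerivWithinAt
  rwa [hasDerivWithinAt_univ] at h

noncomputable def H4a_r2 (σ : ℝ) (u : ℝ → V n) (x : ℝ) : ℝ :=
  2 * (B σ (iteratedDeriv 3 u x) (iteratedDeriv 3 u x)
    + B σ (iteratedDeriv 2 u x) (iteratedDeriv 4 u x))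

noncomputable def H4a_r3 (σ : ℝ) (u : ℝ → V n) (x : ℝ) : ℝ :=
  2 * (3 * B σ (iteratedDeriv 3 u x) (iteratedDeriv 4 u x)
    + B σ (iteratedDeriv 2 u x) (iteratedDeriv 5 u x))

noncomputable def H4a_ex (σ p : ℝ) (u : ℝ → V n) (x : ℝ) : ℝ :=
  2 * B σ (iteratedDeriv 3 u x) (iteratedDeriv 4 u x)
    - 4 * σ * p * B σ (iteratedDeriv 2 u x) (iteratedDeriv 3 u x)

noncomputable def H4a_hx (σ p m : ℝ) (u : ℝ → V n) (x : ℝ) : ℝ :=
  2 * m * H4a_ex σ p u x - 6 * m ^ 2 * (rho σ p u x * rhox σ u x) - (2 * σ - 1) * rhox σ u x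

noncomputable def H4a_a1 (σ p m : ℝ) (u : ℝ → V n) (x : ℝ) : ℝ :=
  -4 * m * H4a_r2 σ u x + (hh σ p m u x - mu σ p m u)

noncomputable def H4a_a2 (σ p m : ℝ) (u : ℝ → V n) (x : ℝ) : ℝ :=
  -4 * m * H4a_r3 σ u x + H4a_hx σ p m u x

theorem H4a_rho' (hB : BRules) {σ : ℝ} (p : ℝ) {u : ℝ → V n} (hu : ContDiff ℝ ∞ u) (x : ℝ) :
    HasDerivAt (rho σ p u) (rhox σ u x) x := by
  have h := (H4a_Bder hB (σ := σ) hu 2 2 x).sub_const (σ * p ^ 2)
  refine h.congr_deriv ?_
  rw [rhox, (hB n σ).1 (iteratedDeriv (2 + 1) u x)]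
  ring

theorem H4a_rhox' (hB : BRules) {σ : ℝ} {u : ℝ → V n} (hu : ContDiff ℝ ∞ u) (x : ℝ) :
    HasDerivAt (rhox σ u) (H4a_r2 σ u x) x := by
  have h := (H4a_Bder hB (σ := σ) hu 2 3 x).const_mul 2
  exact h.congr_deriv (by rw [H4a_r2])

theorem H4a_r2' (hB : BRules) {σ : ℝ} {u : ℝ → V n} (hu : ContDiff ℝ ∞ u) (x : ℝ) :
    HasDerivAt (H4a_r2 σ u) (H4a_r3 σ u x) x := by
  have h := ((H4a_Bder hB (σ := σ) hu 3 3 x).add (H4a_Bder hB (σ := σ) hu 2 4 x)).const_mul 2
  refine h.congr_deriv ?_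
  rw [H4a_r3, (hB n σ).1 (iteratedDeriv (3 + 1) u x)]
  ring

theorem H4a_eta' (hB : BRules) {σ : ℝ} (p : ℝ) {u : ℝ → V n} (hu : ContDiff ℝ ∞ u) (x : ℝ) :
    HasDerivAt (eta σ p u) (H4a_ex σ p u x) x := by
  have h := ((H4a_Bder hB (σ := σ) hu 3 3 x).sub
    ((H4a_Bder hB (σ := σ) hu 2 2 x).const_mul (2 * σ * p))).add_const (p ^ 3)
  refine h.congr_deriv ?_
  rw [H4a_ex, (hB n σ).1 (iteratedDeriv (3 + 1) u x) (iteratedDeriv 3 u x),
    (hB n σ).1 (iteratedDeriv (2 + 1) u x) (iteratedDeriv 2 u x)]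
  ring

theorem H4a_hh' (hB : BRules) {σ : ℝ} (p m : ℝ) {u : ℝ → V n} (hu : ContDiff ℝ ∞ u) (x : ℝ) :
    HasDerivAt (hh σ p m u) (H4a_hx σ p m u x) x := by
  have h := (((H4a_eta' hB (σ := σ) p hu x).const_mul (2 * m)).sub
    (((H4a_rho' hB (σ := σ) p hu x).pow 2).const_mul (3 * m ^ 2))).sub
    ((H4a_rho' hB (σ := σ) p hu x).const_mul (2 * σ - 1))
  refine h.congr_deriv ?_
  rw [H4a_hx]
  ring

theorem H4a_hhcont (hB : BRules) {σ : ℝ} (p m : ℝ) {u : ℝ → V n} (hu : ContDiff ℝ ∞ u) :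
    Continuous (hh σ p m u) :=
  continuous_iff_continuousAt.2 fun x => (H4a_hh' hB p m hu x).continuousAt

theorem H4a_alpha' (hB : BRules) {σ : ℝ} (p m : ℝ) {u : ℝ → V n} (hu : ContDiff ℝ ∞ u) (x : ℝ) :
    HasDerivAt (alpha σ p m u) (H4a_a1 σ p m u x) x := by
  have hc : Continuous fun y => hh σ p m u y - mu σ p m u :=
    (H4a_hhcont hB p m hu).sub continuous_const
  have h1 : HasDerivAt (fun x => ∫ y in (0 : ℝ)..x, (hh σ p m u y - mu σ p m u))
      (hh σ p m u x - mu σ p m u) x :=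
    intervalIntegral.integral_hasDerivAt_right (hc.intervalIntegrable _ _)
      (hc.stronglyMeasurableAtFilter _ _) hc.continuousAt
  have h := (((H4a_rhox' hB (σ := σ) hu x).const_mul (-4 * m)).add_const
    (m * rhox σ u 0)).add h1
  exact h

theorem H4a_a1' (hB : BRules) {σ : ℝ} (p m : ℝ) {u : ℝ → V n} (hu : ContDiff ℝ ∞ u) (x : ℝ) :
    HasDerivAt (H4a_a1 σ p m u) (H4a_a2 σ p m u x) x := by
  have h := ((H4a_r2' hB (σ := σ) hu x).const_mul (-4 * m)).add
    ((H4a_hh' hB (σ := σ) p m hu x).sub_const (mu σ p m u))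
  exact h

/-- the second derivative of the nonlinearity -/
noncomputable def H4a_N2 (σ p m : ℝ) (u : ℝ → V n) (x : ℝ) : V n :=
  -(2 * σ * p) • iteratedDeriv 4 u x
    + (H4a_a2 σ p m u x • iteratedDeriv 1 u x + (2 * H4a_a1 σ p m u x) • iteratedDeriv 2 u x
      + alpha σ p m u x • iteratedDeriv 3 u x)
    + ((2 * σ * H4a_r2 σ u x) • u x + (4 * σ * rhox σ u x) • iteratedDeriv 1 u x
      + (2 * σ * rho σ p u x) • iteratedDeriv 2 u x)
    - ((3 * m * H4a_r2 σ u x) • (iteratedDeriv 2 u x + (σ * p) • u x)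
      + (6 * m * rhox σ u x) • (iteratedDeriv 3 u x + (σ * p) • iteratedDeriv 1 u x)
      + beta σ p m u x • (iteratedDeriv 4 u x + (σ * p) • iteratedDeriv 2 u x))

/-- the first derivative -/
noncomputable def H4a_N1 (σ p m : ℝ) (u : ℝ → V n) (x : ℝ) : V n :=
  -(2 * σ * p) • iteratedDeriv 3 u x
    + (H4a_a1 σ p m u x • iteratedDeriv 1 u x + alpha σ p m u x • iteratedDeriv 2 u x)
    + ((2 * σ * rhox σ u x) • iteratedDeriv 0 u x + (2 * σ * rho σ p u x) • iteratedDeriv 1 u x)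
    - ((3 * m * rhox σ u x) • (iteratedDeriv 2 u x + (σ * p) • iteratedDeriv 0 u x)
      + beta σ p m u x • (iteratedDeriv 3 u x + (σ * p) • iteratedDeriv 1 u x))

theorem H4a_beta' (hB : BRules) {σ : ℝ} (p m : ℝ) {u : ℝ → V n} (hu : ContDiff ℝ ∞ u) (x : ℝ) :
    HasDerivAt (beta σ p m u) (3 * m * rhox σ u x) x :=
  ((H4a_rho' hB (σ := σ) p hu x).const_mul (3 * m)).add_const ((2 * σ - 1) * p)

theorem H4a_N' (hB : BRules) {σ : ℝ} (p m : ℝ) {u : ℝ → V n} (hu : ContDiff ℝ ∞ u) (x : ℝ) :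
    HasDerivAt (fun y => rhs σ p m u y + (2 : ℝ) • iteratedDeriv 4 u y) (H4a_N1 σ p m u x) x := by
  have e : (fun y => rhs σ p m u y + (2 : ℝ) • iteratedDeriv 4 u y) = fun y =>
      -(2 * σ * p) • iteratedDeriv 2 u y + alpha σ p m u y • iteratedDeriv 1 u y
        + (2 * σ * rho σ p u y) • iteratedDeriv 0 u y
        - beta σ p m u y • (iteratedDeriv 2 u y + (σ * p) • iteratedDeriv 0 u y) := by
    funext y
    rw [rhs, iteratedDeriv_zero]
    module
  rw [e]
  have h2 := (H4a_der hu 2 x).const_smul (-(2 * σ * p))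
  have h1 := (H4a_alpha' hB (σ := σ) p m hu x).smul (H4a_der hu 1 x)
  have h0 := ((H4a_rho' hB (σ := σ) p hu x).const_mul (2 * σ)).smul (H4a_der hu 0 x)
  have hb := (H4a_beta' hB (σ := σ) p m hu x).smul
    ((H4a_der hu 2 x).add ((H4a_der hu 0 x).const_smul (σ * p)))
  have h := ((h2.add h1).add h0).sub hb
  refine h.congr_deriv ?_
  simp only [H4a_N1, Pi.add_apply, Pi.smul_apply]
  module

theorem H4a_N1' (hB : BRules) {σ : ℝ} (p m : ℝ) {u : ℝ → V n} (hu : ContDiff ℝ ∞ u) (x : ℝ) :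
    HasDerivAt (H4a_N1 σ p m u) (H4a_N2 σ p m u x) x := by
  have h3 := (H4a_der hu 3 x).const_smul (-(2 * σ * p))
  have ha := (H4a_a1' hB (σ := σ) p m hu x).smul (H4a_der hu 1 x)
  have hb := (H4a_alpha' hB (σ := σ) p m hu x).smul (H4a_der hu 2 x)
  have hc := ((H4a_rhox' hB (σ := σ) hu x).const_mul (2 * σ)).smul (H4a_der hu 0 x)
  have hd := ((H4a_rho' hB (σ := σ) p hu x).const_mul (2 * σ)).smul (H4a_der hu 1 x)
  have he := ((H4a_rhox' hB (σ := σ) hu x).const_mul (3 * m)).smul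
    ((H4a_der hu 2 x).add ((H4a_der hu 0 x).const_smul (σ * p)))
  have hf := (H4a_beta' hB (σ := σ) p m hu x).smul
    ((H4a_der hu 3 x).add ((H4a_der hu 1 x).const_smul (σ * p)))
  have h := ((h3.add (ha.add hb)).add (hc.add hd)).sub (he.add hf)
  refine h.congr_deriv ?_
  simp only [H4a_N2, Pi.add_apply, Pi.smul_apply, iteratedDeriv_zero]
  module

theorem H4a_D2N (hB : BRules) {σ : ℝ} (p m : ℝ) {u : ℝ → V n} (hu : ContDiff ℝ ∞ u) :
    iteratedDeriv 2 (fun y => rhs σ p m u y + (2 : ℝ) • iteratedDeriv 4 u y) =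
      H4a_N2 σ p m u := by
  have h1 : deriv (fun y => rhs σ p m u y + (2 : ℝ) • iteratedDeriv 4 u y) = H4a_N1 σ p m u := by
    funext x; exact (H4a_N' hB p m hu x).deriv
  have h2 : deriv (H4a_N1 σ p m u) = H4a_N2 σ p m u := by
    funext x; exact (H4a_N1' hB p m hu x).deriv
  rw [iteratedDeriv_succ, iteratedDeriv_one, h1, h2]

end Pool.Agent.Work.MP_4a14ce_an

end

section

/-!
# MP_4a14ce_an: integrals of jointly smooth functions
-/

open Set MeasureTheory Topology Filter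
open scoped ContDiff

namespace Pool.Agent.Work.MP_4a14ce_an

theorem js3_proj (I : Set ℝ) (hI : Itv I) :
    ∃ π : ℝ → ℝ, Continuous π ∧ (∀ t, π t ∈ I) ∧ ∀ t ∈ I, π t = t := by
  rcases hI with ⟨a, rfl⟩ | ⟨a, b, hab, rfl⟩
  · exact ⟨fun t => max a t, by fun_prop, fun t => le_max_left a t, fun t ht => max_eq_right ht⟩
  · refine ⟨fun t => max a (min b t), by fun_prop, fun t => ⟨le_max_left _ _, ?_⟩, ?_⟩
    · exact max_le hab.le (min_le_left _ _)
    · intro t ht
      simp only [min_eq_right ht.2, max_eq_right ht.1]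

theorem js3_slice_cont (S : Set ℝ) (g : ℝ × ℝ → ℝ) (hg : ContinuousOn g (S ×ˢ univ)) {p : ℝ}
    (hp : p ∈ S) : Continuous fun y => g (p, y) :=
  hg.comp_continuous (by fun_prop) fun _ => ⟨hp, mem_univ _⟩

theorem js3_diff (S : Set ℝ) (hS : Convex ℝ S) (hc : IsClosed S) (F F' : ℝ → ℝ → ℝ)
    (hF' : ContinuousOn (fun z : ℝ × ℝ => F' z.1 z.2) (S ×ˢ univ))
    (hd : ∀ p ∈ S, ∀ y, HasDerivWithinAt (fun p => F p y) (F' p y) S p)
    (hF : ∀ p ∈ S, Continuous (F p)) (c d : ℝ) {p : ℝ} (hp : p ∈ S) :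
    HasDerivWithinAt (fun p => ∫ y in c..d, F p y) (∫ y in c..d, F' p y) S p := by
  have hF'p : Continuous (F' p) := js3_slice_cont S _ hF' hp
  rw [hasDerivWithinAt_iff_isLittleO, Asymptotics.isLittleO_iff]
  intro ε hε
  have hε' : 0 < ε / (|d - c| + 1) := by positivity
  -- uniform continuity
  have hK : IsCompact ((S ∩ Metric.closedBall p 1) ×ˢ uIcc c d) :=
    ((isCompact_closedBall p 1).inter_left hc).prod isCompact_uIcc
  have hu := hK.uniformContinuousOn_of_continuous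
    (hF'.mono (prod_mono inter_subset_left (subset_univ _)))
  obtain ⟨δ, hδ, hδ'⟩ := Metric.uniformContinuousOn_iff_le.1 hu _ hε'
  have hm : 0 < min δ 1 := lt_min hδ one_pos
  filter_upwards [inter_mem_nhdsWithin S (Metric.ball_mem_nhds p hm)] with q hq
  obtain ⟨hqS, hqb⟩ := hq
  have hT : Convex ℝ (S ∩ Metric.ball p (min δ 1)) := hS.inter (convex_ball _ _)
  have hy : ∀ y ∈ uIcc c d, ‖F q y - F p y - (q - p) * F' p y‖ ≤
      ε / (|d - c| + 1) * ‖q - p‖ := by
    intro y hy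
    have h1 := hT.norm_image_sub_le_of_norm_hasDerivWithin_le
      (f := fun r => F r y - (r - p) * F' p y) (f' := fun r => F' r y - F' p y)
      (C := ε / (|d - c| + 1)) (x := p) (y := q) ?_ ?_ ⟨hp, Metric.mem_ball_self hm⟩ ⟨hqS, hqb⟩
    · refine le_trans (le_of_eq ?_) h1
      congr 1
      ring
    · intro r hr
      have h2 := (hd r hr.1 y).mono (inter_subset_left (t := Metric.ball p (min δ 1)))
      have h3 : HasDerivWithinAt (fun r => (r - p) * F' p y) (F' p y)
          (S ∩ Metric.ball p (min δ 1)) r := by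
        simpa using (((hasDerivAt_id r).sub_const p).mul_const (F' p y)).hasDerivWithinAt
      exact h2.sub h3
    · intro r hr
      have h4 : dist r p < min δ 1 := hr.2
      have h5 := hδ' (r, y) ⟨⟨hr.1, Metric.mem_closedBall.2 (h4.le.trans (min_le_right _ _))⟩, hy⟩
        (p, y) ⟨⟨hp, Metric.mem_closedBall_self zero_le_one⟩, hy⟩ (by
          rw [Prod.dist_eq, dist_self, max_eq_left dist_nonneg]
          exact h4.le.trans (min_le_left _ _))
      rwa [dist_eq_norm] at h5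
  have i1 : IntervalIntegrable (F q) volume c d := (hF q hqS).intervalIntegrable _ _
  have i2 : IntervalIntegrable (F p) volume c d := (hF p hp).intervalIntegrable _ _
  have i3 : IntervalIntegrable (F' p) volume c d := hF'p.intervalIntegrable _ _
  have e : (∫ y in c..d, F q y) - (∫ y in c..d, F p y) - (q - p) • ∫ y in c..d, F' p y =
      ∫ y in c..d, (F q y - F p y - (q - p) * F' p y) := by
    rw [intervalIntegral.integral_sub (i1.sub i2) (i3.const_mul _),
      intervalIntegral.integral_sub i1 i2, intervalIntegral.integral_const_mul, smul_eq_mul]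
  rw [e]
  refine (intervalIntegral.norm_integral_le_of_norm_le_const
    fun y hy' => hy y (uIoc_subset_uIcc hy')).trans ?_
  have h6 : |d - c| / (|d - c| + 1) ≤ 1 := div_le_one_of_le₀ (by linarith) (by positivity)
  calc ε / (|d - c| + 1) * ‖q - p‖ * |d - c| = ε * ‖q - p‖ * (|d - c| / (|d - c| + 1)) := by ring
    _ ≤ ε * ‖q - p‖ * 1 := mul_le_mul_of_nonneg_left h6 (by positivity)
    _ = ε * ‖q - p‖ := mul_one _

theorem js3_cont_x (I : Set ℝ) (hI : Itv I) (f : ℝ → ℝ → ℝ)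
    (hf : ContinuousOn (fun z : ℝ × ℝ => f z.1 z.2) (I ×ˢ univ)) :
    ContinuousOn (fun z : ℝ × ℝ => ∫ y in (0 : ℝ)..z.2, f z.1 y) (I ×ˢ univ) := by
  obtain ⟨π, h1, h2, h3⟩ := js3_proj I hI
  have h4 : Continuous (Function.uncurry fun (z : ℝ × ℝ) (y : ℝ) => f (π z.1) y) :=
    hf.comp_continuous (f := fun w : (ℝ × ℝ) × ℝ => (π w.1.1, w.2)) (by fun_prop)
      fun _ => ⟨h2 _, mem_univ _⟩
  have h5 := intervalIntegral.continuous_parametric_intervalIntegral_of_continuous
    (μ := volume) (a₀ := 0) h4 (s := fun z : ℝ × ℝ => z.2) continuous_snd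
  refine h5.continuousOn.congr fun z hz => ?_
  simp only [h3 z.1 hz.1]

theorem js3_seg (I : Set ℝ) (hI : Itv I) {a t : ℝ} (ha : a ∈ I) (ht : t ∈ I) : uIcc a t ⊆ I :=
  (itvBasic I hI).2.1.ordConnected.uIcc_subset ha ht

theorem js3_int_proj (I : Set ℝ) (hI : Itv I) (f : ℝ → ℝ → ℝ) (π : ℝ → ℝ)
    (h3 : ∀ t ∈ I, π t = t) {a t : ℝ} (ha : a ∈ I) (ht : t ∈ I) (x : ℝ) :
    ∫ s in a..t, f s x = ∫ s in a..t, f (π s) x :=
  intervalIntegral.integral_congr fun s hs => by
    simp only [h3 s (js3_seg I hI ha ht hs)]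

theorem js3_cont_t (I : Set ℝ) (hI : Itv I) (f : ℝ → ℝ → ℝ) (a : ℝ) (ha : a ∈ I)
    (hf : ContinuousOn (fun z : ℝ × ℝ => f z.1 z.2) (I ×ˢ univ)) :
    ContinuousOn (fun z : ℝ × ℝ => ∫ s in a..z.1, f s z.2) (I ×ˢ univ) := by
  obtain ⟨π, h1, h2, h3⟩ := js3_proj I hI
  have h4 : Continuous (Function.uncurry fun (z : ℝ × ℝ) (s : ℝ) => f (π s) z.2) :=
    hf.comp_continuous (f := fun w : (ℝ × ℝ) × ℝ => (π w.2, w.1.2)) (by fun_prop)
      fun _ => ⟨h2 _, mem_univ _⟩
  have h5 := intervalIntegral.continuous_parametric_intervalIntegral_of_continuous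
    (μ := volume) (a₀ := a) h4 (s := fun z : ℝ × ℝ => z.1) continuous_fst
  refine h5.continuousOn.congr fun z hz => ?_
  exact js3_int_proj I hI f π h3 ha hz.1 z.2

theorem jsInt0x (hP : PartialsC1) (hD : JSDt1) : JSInt0x := by
  intro I f hI hf
  have key : ∀ k : ℕ, ∀ f : ℝ → ℝ → ℝ, JS I f →
      ContDiffOn ℝ k (fun z : ℝ × ℝ => ∫ y in (0 : ℝ)..z.2, f z.1 y) (I ×ˢ univ) := by
    intro k
    induction k with
    | zero =>
      intro f hf
      rw [Nat.cast_zero, contDiffOn_zero]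
      exact js3_cont_x I hI f (ContDiffOn.continuousOn hf)
    | succ k ih =>
      intro f hf
      obtain ⟨ft, hft, hft'⟩ := hD I f hI hf
      have h1 := hP k I (fun t x => ∫ y in (0 : ℝ)..x, f t y)
        (fun t x => ∫ y in (0 : ℝ)..x, ft t y) f hI ?_ ?_ (ih ft hft)
        (ContDiffOn.of_le hf (by exact_mod_cast le_top))
      · exact_mod_cast h1
      · intro t ht x
        refine js3_diff I (itvBasic I hI).2.1 (itvBasic I hI).2.2 f ft
          (ContDiffOn.continuousOn hft) (fun p hp y => ?_)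
          (fun p hp => js3_slice_cont I _ (ContDiffOn.continuousOn hf) hp) 0 x ht
        simpa using hft' 0 p hp y
      · intro t ht x
        have hc : Continuous (f t) := js3_slice_cont I _ (ContDiffOn.continuousOn hf) ht
        exact intervalIntegral.integral_hasDerivAt_right (hc.intervalIntegrable _ _)
          hc.aestronglyMeasurable.stronglyMeasurableAtFilter hc.continuousAt
  exact contDiffOn_infty.2 fun k => key k f hf

theorem jsPer (hP : PartialsC1) (hD : JSDt1) : JSPer := by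
  intro I f ft hI hf hft hd
  constructor
  · have h1 : ContDiffOn ℝ ∞ (fun z : ℝ × ℝ => ∫ y in (0 : ℝ)..z.2, f z.1 y) (I ×ˢ univ) :=
      jsInt0x hP hD I f hI hf
    have h2 : ContDiffOn ℝ ∞ (fun t : ℝ => ((t, 2 * Real.pi) : ℝ × ℝ)) I :=
      contDiffOn_id.prodMk contDiffOn_const
    exact h1.comp h2 fun t ht => ⟨ht, mem_univ _⟩
  · intro t ht
    exact js3_diff I (itvBasic I hI).2.1 (itvBasic I hI).2.2 f ft
      (ContDiffOn.continuousOn hft) (fun p hp y => hd p hp y)
      (fun p hp => js3_slice_cont I _ (ContDiffOn.continuousOn hf) hp) 0 (2 * Real.pi) ht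

theorem js3_dx_hasDerivAt (k : ℕ) (I : Set ℝ) (f : ℝ → ℝ → ℝ)
    (hf : ContDiffOn ℝ (k + 1) (fun z : ℝ × ℝ => f z.1 z.2) (I ×ˢ univ)) (t x : ℝ) (ht : t ∈ I) :
    HasDerivAt (f t) (js1_dx I f t x) x := by
  have h0 : HasFDerivWithinAt (fun z : ℝ × ℝ => f z.1 z.2)
      (fderivWithin ℝ (fun z : ℝ × ℝ => f z.1 z.2) (I ×ˢ univ) (t, x)) (I ×ˢ univ) (t, x) :=
    (hf.differentiableOn (by simp) (t, x) ⟨ht, mem_univ _⟩).hasFDerivWithinAt
  have h1 : HasDerivWithinAt (fun y : ℝ => ((t, y) : ℝ × ℝ)) (0, 1) univ x :=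
    ((hasDerivAt_const x t).prodMk (hasDerivAt_id x)).hasDerivWithinAt
  have h2 := HasFDerivWithinAt.comp_hasDerivWithinAt (f := fun y : ℝ => ((t, y) : ℝ × ℝ)) x
    h0 h1 (fun y _ => ⟨ht, mem_univ _⟩)
  exact h2.hasDerivAt univ_mem

theorem js3_dx_contDiffOn (k : ℕ) (I : Set ℝ) (hI : Itv I) (f : ℝ → ℝ → ℝ)
    (hf : ContDiffOn ℝ (k + 1) (fun z : ℝ × ℝ => f z.1 z.2) (I ×ˢ univ)) :
    ContDiffOn ℝ k (fun z : ℝ × ℝ => js1_dx I f z.1 z.2) (I ×ˢ univ) := by
  have h1 : ContDiffOn ℝ k (fderivWithin ℝ (fun z : ℝ × ℝ => f z.1 z.2) (I ×ˢ univ))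
      (I ×ˢ univ) := ContDiffOn.fderivWithin hf (js1_ud I hI) le_rfl
  exact h1.clm_apply contDiffOn_const

theorem intTC (hP : PartialsC1) : IntTC := by
  intro k I a f hI ha hf
  induction k generalizing f with
  | zero =>
    rw [Nat.cast_zero, contDiffOn_zero] at hf ⊢
    exact js3_cont_t I hI f a ha hf
  | succ k ih =>
    obtain ⟨π, p1, p2, p3⟩ := js3_proj I hI
    have hf' : ContDiffOn ℝ (k + 1) (fun z : ℝ × ℝ => f z.1 z.2) (I ×ˢ univ) := by
      exact_mod_cast hf
    have hfk : ContDiffOn ℝ k (fun z : ℝ × ℝ => f z.1 z.2) (I ×ˢ univ) :=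
      hf'.of_le le_self_add
    have hdx := js3_dx_contDiffOn k I hI f hf'
    have h1 := hP k I (fun t x => ∫ s in a..t, f s x) f
      (fun t x => ∫ s in a..t, js1_dx I f s x) hI ?_ ?_ hfk (ih _ hdx)
    · exact_mod_cast h1
    · intro t ht x
      have hc : Continuous fun s => f (π s) x :=
        hf'.continuousOn.comp_continuous (f := fun s => (π s, x)) (by fun_prop)
          fun _ => ⟨p2 _, mem_univ _⟩
      have h2 : HasDerivAt (fun t => ∫ s in a..t, f (π s) x) (f (π t) x) t :=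
        intervalIntegral.integral_hasDerivAt_right (hc.intervalIntegrable _ _)
          hc.aestronglyMeasurable.stronglyMeasurableAtFilter hc.continuousAt
      have h3 := h2.hasDerivWithinAt (s := I)
      rw [p3 t ht] at h3
      exact h3.congr (fun s hs => js3_int_proj I hI f π p3 ha hs x)
        (js3_int_proj I hI f π p3 ha ht x)
    · intro t ht x
      have h4 := js3_diff univ convex_univ isClosed_univ (fun x s => f (π s) x)
        (fun x s => js1_dx I f (π s) x) ?_ ?_ ?_ a t (mem_univ x)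
      · have h5 := h4.hasDerivAt univ_mem
        rw [← js3_int_proj I hI (js1_dx I f) π p3 ha ht x] at h5
        refine h5.congr_of_eventuallyEq (Filter.Eventually.of_forall fun y => ?_)
        exact js3_int_proj I hI f π p3 ha ht y
      · refine Continuous.continuousOn ?_
        exact hdx.continuousOn.comp_continuous (f := fun z : ℝ × ℝ => (π z.2, z.1))
          (by fun_prop) fun _ => ⟨p2 _, mem_univ _⟩
      · intro y _ s
        exact (js3_dx_hasDerivAt k I f hf' (π s) y (p2 s)).hasDerivWithinAt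
      · intro y _
        exact hf'.continuousOn.comp_continuous (f := fun s : ℝ => (π s, y))
          (by fun_prop) fun _ => ⟨p2 _, mem_univ _⟩

end Pool.Agent.Work.MP_4a14ce_an

end

section

set_option autoImplicit false

/-!
# L1: Hadamard's lemma for analytic functions
-/

open Set Topology Filter

namespace Pool.Agent.Work.MP_4a14ce_an

section LHadAux

variable {E : Type} [NormedAddCommGroup E] [NormedSpace ℝ E]

/-- The projection along `e` onto the kernel of `l`. -/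
noncomputable def LHad_P (l : E →L[ℝ] ℝ) (e : E) : E →L[ℝ] E :=
  ContinuousLinearMap.id ℝ E - l.smulRight e

theorem LHad_P_apply (l : E →L[ℝ] ℝ) (e v : E) : LHad_P l e v = v - l v • e := by
  simp [LHad_P]

/-- The linear maps composed with the slots of the quotient series. -/
noncomputable def LHad_u (l : E →L[ℝ] ℝ) (e : E) {n : ℕ} (i : Fin (n + 1)) (j : Fin n) :
    E →L[ℝ] E :=
  if i.succAbove j < i then ContinuousLinearMap.id ℝ E else LHad_P l e

/-- The series of the quotient. -/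
noncomputable def LHad_q (l : E →L[ℝ] ℝ) (e : E) (p : FormalMultilinearSeries ℝ E ℝ) :
    FormalMultilinearSeries ℝ E ℝ := fun n =>
  ∑ i : Fin (n + 1), ((p (n + 1)).curryMid i e).compContinuousLinearMap (LHad_u l e i)

theorem LHad_q_apply (l : E →L[ℝ] ℝ) (e : E) (p : FormalMultilinearSeries ℝ E ℝ) (n : ℕ) (v : E) :
    LHad_q l e p n (fun _ => v) =
      ∑ i : Fin (n + 1), p (n + 1) (fun k => if k < i then v else if k = i then e
        else LHad_P l e v) := by
  unfold LHad_q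
  rw [_root_.sum_apply]
  refine Finset.sum_congr rfl fun i _ => ?_
  rw [ContinuousMultilinearMap.compContinuousLinearMap_apply,
    ContinuousMultilinearMap.curryMid_apply]
  congr 1
  funext k
  refine Fin.succAboveCases i ?_ (fun j => ?_) k
  · simp
  · rw [Fin.insertNth_apply_succAbove]
    unfold LHad_u
    by_cases h : i.succAbove j < i
    · simp [h]
    · simp [h, Fin.succAbove_ne]

theorem LHad_tele (l : E →L[ℝ] ℝ) (e : E) (p : FormalMultilinearSeries ℝ E ℝ) (n : ℕ) (v : E) :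
    p (n + 1) (fun _ => v) - p (n + 1) (fun _ => LHad_P l e v) =
      l v * LHad_q l e p n (fun _ => v) := by
  rw [LHad_q_apply]
  have h1 := MultilinearMap.map_piecewise_sub_map_piecewise (p (n + 1)).toMultilinearMap
    (fun _ => v) (fun _ => LHad_P l e v) (fun _ => (0 : E)) Finset.univ
  simp only [Finset.piecewise_univ, Finset.mem_univ, if_true] at h1
  have h2 : p (n + 1) (fun _ => v) - p (n + 1) (fun _ => LHad_P l e v) =
    ∑ i : Fin (n + 1), (p (n + 1)) fun j => if j < i then v else if j = i then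
      v - LHad_P l e v else LHad_P l e v := h1
  rw [h2, Finset.mul_sum]
  refine Finset.sum_congr rfl fun i _ => ?_
  have h3 : (fun j : Fin (n + 1) => if j < i then v else if j = i then
      v - LHad_P l e v else LHad_P l e v) =
      Function.update (fun j : Fin (n + 1) => if j < i then v else if j = i then e
        else LHad_P l e v) i (l v • e) := by
    funext j
    by_cases hj : j = i
    · subst hj
      simp [LHad_P_apply]
    · simp [hj]
  have h4 : (fun j : Fin (n + 1) => if j < i then v else if j = i then e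
        else LHad_P l e v) =
      Function.update (fun j : Fin (n + 1) => if j < i then v else if j = i then e
        else LHad_P l e v) i e := by
    funext j
    by_cases hj : j = i
    · subst hj
      simp
    · simp [Function.update_of_ne hj]
  rw [h3, ContinuousMultilinearMap.map_update_smul, ← h4]
  simp

theorem LHad_norm (l : E →L[ℝ] ℝ) (e : E) (p : FormalMultilinearSeries ℝ E ℝ) (n : ℕ) :
    ‖LHad_q l e p n‖ ≤ (n + 1) * (‖p (n + 1)‖ * ‖e‖ * (1 + ‖LHad_P l e‖) ^ n) := by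
  unfold LHad_q
  refine (norm_sum_le _ _).trans ?_
  have h1 : ∀ i ∈ (Finset.univ : Finset (Fin (n + 1))),
      ‖((p (n + 1)).curryMid i e).compContinuousLinearMap (LHad_u l e i)‖ ≤
      ‖p (n + 1)‖ * ‖e‖ * (1 + ‖LHad_P l e‖) ^ n := by
    intro i _
    refine (ContinuousMultilinearMap.norm_compContinuousLinearMap_le _ _).trans ?_
    refine mul_le_mul ?_ ?_ (by positivity) (by positivity)
    · refine (ContinuousLinearMap.le_opNorm _ _).trans ?_
      rw [ContinuousMultilinearMap.norm_curryMid]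
    · have h2 : ∀ j ∈ (Finset.univ : Finset (Fin n)), ‖LHad_u l e i j‖ ≤ 1 + ‖LHad_P l e‖ := by
        intro j _
        unfold LHad_u
        split_ifs
        · have := ContinuousLinearMap.norm_id_le (𝕜 := ℝ) (E := E)
          linarith [norm_nonneg (LHad_P l e)]
        · linarith
      refine (Finset.prod_le_prod (fun j _ => norm_nonneg _) h2).trans ?_
      simp
  refine (Finset.sum_le_sum h1).trans ?_
  simp

theorem LHad_radius (l : E →L[ℝ] ℝ) (e : E) (p : FormalMultilinearSeries ℝ E ℝ)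
    (hp : 0 < p.radius) : 0 < (LHad_q l e p).radius := by
  obtain ⟨C, r, hC, hr, h⟩ := p.le_mul_pow_of_radius_pos hp
  set M : ℝ := 1 + ‖LHad_P l e‖ with hM
  have hM0 : 0 < M := by positivity
  obtain ⟨s, hs⟩ : ∃ s : NNReal, (s : ℝ) = (2 * (r * M))⁻¹ :=
    ⟨Real.toNNReal (2 * (r * M))⁻¹, Real.coe_toNNReal _ (by positivity)⟩
  have hs0 : 0 < s := by
    rw [← NNReal.coe_pos, hs]
    positivity
  refine lt_of_lt_of_le (ENNReal.coe_pos.2 hs0) ?_
  refine FormalMultilinearSeries.le_radius_of_bound _ (C * r * ‖e‖) fun n => ?_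
  have h1 := LHad_norm l e p n
  rw [← hM] at h1
  have h2 : ‖LHad_q l e p n‖ * (s : ℝ) ^ n ≤
      ((n + 1) * ((C * r ^ (n + 1)) * ‖e‖ * M ^ n)) * (s : ℝ) ^ n := by
    refine mul_le_mul_of_nonneg_right (h1.trans ?_) (by positivity)
    have := h (n + 1)
    gcongr
  refine h2.trans ?_
  have h3 : ((n + 1) * ((C * r ^ (n + 1)) * ‖e‖ * M ^ n)) * (s : ℝ) ^ n =
      (C * r * ‖e‖) * (((n : ℝ) + 1) / 2 ^ n) := by
    rw [hs, inv_pow, mul_pow, mul_pow]
    field_simp
    ring
  rw [h3]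
  have h4 : ((n : ℝ) + 1) / 2 ^ n ≤ 1 := by
    rw [div_le_one (by positivity)]
    have : n + 1 ≤ 2 ^ n := Nat.lt_two_pow_self
    exact_mod_cast this
  have h5 : 0 ≤ C * r * ‖e‖ := by positivity
  nlinarith

end LHadAux

/-- Hadamard's lemma for analytic functions: division by a linear coordinate. -/
theorem lHad : LHad := by
  intro E _ _ l e _ F b hF
  obtain ⟨p, hp⟩ := hF
  have hq0 := LHad_radius l e p hp.radius_pos
  set q := LHad_q l e p with hqdef
  have hq : HasFPowerSeriesOnBall q.sum q 0 q.radius := q.hasFPowerSeriesOnBall hq0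
  have hq' := hq.comp_sub b
  rw [zero_add] at hq'
  refine ⟨fun x => q.sum (x - b), hq'.analyticAt, ?_⟩
  have e1 : ∀ᶠ v in 𝓝 (0 : E), HasSum (fun n : ℕ => p n fun _ => v) (F (b + v)) :=
    hp.eventually_hasSum
  have e2 : ∀ᶠ v in 𝓝 (0 : E),
      HasSum (fun n : ℕ => p n fun _ => LHad_P l e v) (F (b + LHad_P l e v)) := by
    have hc : Tendsto (LHad_P l e) (𝓝 0) (𝓝 0) := by
      have := (LHad_P l e).continuous.tendsto 0
      rwa [map_zero] at this
    exact hc.eventually e1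
  have e3 : ∀ᶠ v in 𝓝 (0 : E), HasSum (fun n : ℕ => q n fun _ => v) (q.sum v) := by
    have := hq.hasFPowerSeriesAt.eventually_hasSum
    simpa using this
  have e4 : ∀ᶠ v in 𝓝 (0 : E), F (b + v) = F (b + LHad_P l e v) + l v * q.sum v := by
    filter_upwards [e1, e2, e3] with v h1 h2 h3
    have h4 := h1.sub h2
    have h5 := (hasSum_nat_add_iff' 1).2 h4
    have h6 : (fun n : ℕ => (p (n + 1) fun _ => v) - (p (n + 1) fun _ => LHad_P l e v)) =
        fun n => l v * q n fun _ => v := by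
      funext n
      exact LHad_tele l e p n v
    rw [h6] at h5
    have h7 := h5.unique (h3.mul_left (l v))
    have h8 : (p 0 fun _ => v) = (p 0 fun _ => LHad_P l e v) := by
      congr 1
      funext i
      exact i.elim0
    simp only [Finset.range_one, Finset.sum_singleton, h8, sub_self, sub_zero] at h7
    linarith
  have e5 : Tendsto (fun x : E => x - b) (𝓝 b) (𝓝 0) := by
    have : Continuous fun x : E => x - b := by fun_prop
    have := this.tendsto b
    simpa using this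
  filter_upwards [e5.eventually e4] with x hx
  rw [LHad_P_apply] at hx
  have h1 : b + (x - b) = x := by abel
  have h2 : b + (x - b - l (x - b) • e) = x - l (x - b) • e := by abel
  rw [h1, h2] at hx
  exact hx

end Pool.Agent.Work.MP_4a14ce_an

end

section

/-!
# Group L, item L2: algebra of monomials times units
-/

open Set Topology Filter

namespace Pool.Agent.Work.MP_4a14ce_an

/-- L2c. -/
theorem lDomain : LDomain := by
  intro E _ _ f g b hf hg hfg
  by_cases h0 : ∀ᶠ x in 𝓝 b, f x = 0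
  · exact Or.inl h0
  right
  have h1 : ∀ᶠ x in 𝓝 b, AnalyticAt ℝ f x ∧ AnalyticAt ℝ g x ∧ f x * g x = 0 :=
    hf.eventually_analyticAt.and (hg.eventually_analyticAt.and hfg)
  obtain ⟨r, hr, hball⟩ := Metric.eventually_nhds_iff_ball.1 h1
  rw [Filter.not_eventually] at h0
  obtain ⟨x0, hx0, hx0b⟩ := (h0.and_eventually (Metric.ball_mem_nhds b hr)).exists
  have hgz : ∀ᶠ x in 𝓝 x0, g x = 0 := by
    have h2 : ∀ᶠ x in 𝓝 x0, f x ≠ 0 := (hball x0 hx0b).1.continuousAt.eventually_ne hx0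
    filter_upwards [h2, Metric.isOpen_ball.mem_nhds hx0b] with x hx hxb
    exact (mul_eq_zero.1 (hball x hxb).2.2).resolve_left hx
  have han : AnalyticOnNhd ℝ g (Metric.ball b r) := fun x hx => (hball x hx).2.1
  have h3 : EqOn g 0 (Metric.ball b r) :=
    han.eqOn_zero_of_preconnected_of_eventuallyEq_zero (convex_ball b r).isPreconnected hx0b hgz
  filter_upwards [Metric.ball_mem_nhds b hr] with x hx
  exact h3 hx

/-- The projection to a coordinate hyperplane. -/
theorem lmonoAlg_proj {n : ℕ} (b : Fin n → ℝ) (i : Fin n) (x : Fin n → ℝ) :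
    x - (ContinuousLinearMap.proj (R := ℝ) (φ := fun _ : Fin n => ℝ) i) (x - b) •
      (Pi.single i (1 : ℝ) : Fin n → ℝ) = Function.update x i (b i) := by
  funext j
  by_cases hj : j = i
  · subst hj
    simp
  · simp [Function.update_of_ne hj, Pi.single_eq_of_ne hj]

theorem lmonoAlg_projAn {n : ℕ} (b : Fin n → ℝ) (i : Fin n) :
    AnalyticAt ℝ (fun x : Fin n → ℝ => Function.update x i (b i)) b := by
  have h1 : (fun x : Fin n → ℝ => Function.update x i (b i)) = fun x =>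
      x - (ContinuousLinearMap.proj (R := ℝ) (φ := fun _ : Fin n => ℝ) i) (x - b) •
        (Pi.single i (1 : ℝ) : Fin n → ℝ) := by
    funext x
    exact (lmonoAlg_proj b i x).symm
  rw [h1]
  have h2 : AnalyticAt ℝ (fun x : Fin n → ℝ => x - b) b := analyticAt_id.sub analyticAt_const
  have h3 : AnalyticAt ℝ (fun x : Fin n → ℝ =>
      (ContinuousLinearMap.proj (R := ℝ) (φ := fun _ : Fin n => ℝ) i) (x - b)) b :=
    ((ContinuousLinearMap.proj (R := ℝ) (φ := fun _ : Fin n => ℝ) i).analyticAt _).comp h2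
  exact analyticAt_id.sub (h3.smul analyticAt_const)

/-- Division by a coordinate. -/
theorem lmonoAlg_div (h : LHad) {n : ℕ} {f : (Fin n → ℝ) → ℝ} {b : Fin n → ℝ} (i : Fin n)
    (hf : AnalyticAt ℝ f b) (h0 : ∀ᶠ x in 𝓝 b, f (Function.update x i (b i)) = 0) :
    ∃ G : (Fin n → ℝ) → ℝ, AnalyticAt ℝ G b ∧ ∀ᶠ x in 𝓝 b, f x = (x i - b i) * G x := by
  obtain ⟨G, hG, hG2⟩ := h (Fin n → ℝ)
    (ContinuousLinearMap.proj (R := ℝ) (φ := fun _ : Fin n => ℝ) i) (Pi.single i 1)
    (by simp) f b hf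
  refine ⟨G, hG, ?_⟩
  filter_upwards [hG2, h0] with x hx hx0
  rw [hx, lmonoAlg_proj, hx0, zero_add]
  simp

theorem lmonoAlg_coord {n : ℕ} (b : Fin n → ℝ) (i : Fin n) :
    AnalyticAt ℝ (fun x : Fin n → ℝ => x i - b i) b :=
  ((ContinuousLinearMap.proj (R := ℝ) (φ := fun _ : Fin n => ℝ) i).analyticAt b).sub
    analyticAt_const

/-- Points off the hyperplane are dense. -/
theorem lmonoAlg_dense {n : ℕ} (b x : Fin n → ℝ) (i : Fin n) :
    ∃ᶠ y in 𝓝 x, y i - b i ≠ 0 := by
  by_cases hx : x i - b i = 0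
  · have h1 : Tendsto (fun t : ℝ => Function.update x i (x i + t)) (𝓝 0) (𝓝 x) := by
      have h2 : Continuous (fun t : ℝ => Function.update x i (x i + t)) :=
        continuous_const.update i (continuous_const.add continuous_id)
      have h3 := h2.tendsto 0
      simpa using h3
    have h4 : ∃ᶠ t : ℝ in 𝓝 0, t ≠ 0 := by
      intro h
      obtain ⟨ε, hε, h5⟩ := Metric.eventually_nhds_iff.1 h
      have h6 : dist (ε / 2) 0 < ε := by
        rw [Real.dist_eq, sub_zero, abs_of_pos (by linarith)]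
        linarith
      have h7 := h5 h6
      simp only [not_not] at h7
      linarith
    refine h1.frequently (h4.mono fun t ht => ?_)
    rw [Function.update_self]
    intro h5
    apply ht
    linarith
  · refine Filter.Eventually.frequently ?_
    have h2 : ContinuousAt (fun y : Fin n → ℝ => y i - b i) x :=
      ((continuous_apply i).sub continuous_const).continuousAt
    exact h2.eventually_ne hx

/-- Cancellation of a coordinate. -/
theorem lmonoAlg_cancel {n : ℕ} {F G : (Fin n → ℝ) → ℝ} {b : Fin n → ℝ} (i : Fin n)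
    (hF : AnalyticAt ℝ F b) (hG : AnalyticAt ℝ G b)
    (h : ∀ᶠ x in 𝓝 b, (x i - b i) * F x = (x i - b i) * G x) : ∀ᶠ x in 𝓝 b, F x = G x := by
  have h1 : ∀ᶠ x in 𝓝 b, (x i - b i) * (F x - G x) = 0 := by
    filter_upwards [h] with x hx
    rw [mul_sub, hx, sub_self]
  rcases lDomain (Fin n → ℝ) _ _ b (lmonoAlg_coord b i) (hF.sub hG) h1 with h2 | h2
  · exfalso
    obtain ⟨y, hy1, hy2⟩ := ((lmonoAlg_dense b b i).and_eventually h2).exists
    exact hy1 hy2
  · filter_upwards [h2] with x hx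
    exact sub_eq_zero.1 hx

theorem lmonoAlg_prod {n : ℕ} (y : Fin n → ℝ) (e : Fin n → ℕ) (i : Fin n) (m : ℕ)
    (hm : e i = m + 1) : ∏ j, y j ^ e j = y i * ∏ j, y j ^ (Function.update e i m j) := by
  rw [← Finset.mul_prod_erase Finset.univ _ (Finset.mem_univ i),
    ← Finset.mul_prod_erase Finset.univ (fun j => y j ^ (Function.update e i m j))
      (Finset.mem_univ i), Function.update_self, hm, pow_succ]
  have h1 : ∏ j ∈ Finset.univ.erase i, y j ^ e j =
      ∏ j ∈ Finset.univ.erase i, y j ^ (Function.update e i m j) := by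
    apply Finset.prod_congr rfl
    intro j hj
    rw [Function.update_of_ne (Finset.ne_of_mem_erase hj)]
  rw [h1]
  ring

theorem lmonoAlg_sum {n : ℕ} (e : Fin n → ℕ) (i : Fin n) (m : ℕ)
    (hm : e i = m + 1) : ∑ j, e j = ∑ j, Function.update e i m j + 1 := by
  rw [← Finset.add_sum_erase Finset.univ _ (Finset.mem_univ i),
    ← Finset.add_sum_erase Finset.univ (fun j => Function.update e i m j)
      (Finset.mem_univ i), Function.update_self, hm]
  have h1 : ∑ j ∈ Finset.univ.erase i, e j =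
      ∑ j ∈ Finset.univ.erase i, Function.update e i m j := by
    apply Finset.sum_congr rfl
    intro j hj
    rw [Function.update_of_ne (Finset.ne_of_mem_erase hj)]
  rw [h1]
  ring

theorem lmonoAlg_pick {n : ℕ} (e : Fin n → ℕ) (N : ℕ) (h : ∑ j, e j = N + 1) :
    ∃ i m, e i = m + 1 := by
  by_contra hcon
  push Not at hcon
  have h1 : ∀ i, e i = 0 := by
    intro i
    cases hi : e i with
    | zero => rfl
    | succ m => exact absurd hi (hcon i m)
  rw [Finset.sum_eq_zero fun i _ => h1 i] at h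
  omega

/-- The monomial vanishes on the hyperplane. -/
theorem lmonoAlg_van {n : ℕ} (b x : Fin n → ℝ) (e : Fin n → ℕ) (i : Fin n) (m : ℕ)
    (hm : e i = m + 1) : ∏ j, (Function.update x i (b i) j - b j) ^ e j = 0 := by
  apply Finset.prod_eq_zero (Finset.mem_univ i)
  rw [Function.update_self, sub_self, hm, zero_pow (by omega)]

theorem lmonoAlg_tendsto {n : ℕ} (b : Fin n → ℝ) (i : Fin n) :
    Tendsto (fun x : Fin n → ℝ => Function.update x i (b i)) (𝓝 b) (𝓝 b) := by
  have h1 := (lmonoAlg_projAn b i).continuousAt.tendsto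
  simpa using h1

/-- L2b. -/
theorem lDom (h : LHad) : LDom := by
  have key : ∀ (n N : ℕ) (c : (Fin n → ℝ) → ℝ) (b : Fin n → ℝ) (e : Fin n → ℕ) (C : ℝ),
      ∑ j, e j = N → AnalyticAt ℝ c b →
      (∀ᶠ x in 𝓝 b, |c x| ≤ C * |∏ i, (x i - b i) ^ e i|) →
      ∃ v : (Fin n → ℝ) → ℝ, AnalyticAt ℝ v b ∧
        ∀ᶠ x in 𝓝 b, c x = (∏ i, (x i - b i) ^ e i) * v x := by
    intro n N
    induction N with
    | zero =>
      intro c b e C hN hc _
      refine ⟨c, hc, Filter.Eventually.of_forall fun x => ?_⟩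
      have h1 : ∀ i, e i = 0 := fun i =>
        (Finset.sum_eq_zero_iff.1 hN) i (Finset.mem_univ i)
      rw [Finset.prod_eq_one fun i _ => by rw [h1 i, pow_zero], one_mul]
    | succ N ih =>
      intro c b e C hN hc hle
      obtain ⟨i, m, hm⟩ := lmonoAlg_pick e N hN
      have h0 : ∀ᶠ x in 𝓝 b, c (Function.update x i (b i)) = 0 := by
        filter_upwards [(lmonoAlg_tendsto b i).eventually hle] with x hx
        rw [lmonoAlg_van b x e i m hm, abs_zero, mul_zero] at hx
        exact abs_eq_zero.1 (le_antisymm hx (abs_nonneg _))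
      obtain ⟨c', hc', hcc⟩ := lmonoAlg_div h i hc h0
      have hle' : ∀ᶠ x in 𝓝 b, |c' x| ≤ C * |∏ j, (x j - b j) ^ (Function.update e i m j)| := by
        have h1 : ∀ᶠ x in 𝓝 b, AnalyticAt ℝ c' x ∧ c x = (x i - b i) * c' x ∧
            |c x| ≤ C * |∏ i, (x i - b i) ^ e i| :=
          hc'.eventually_analyticAt.and (hcc.and hle)
        filter_upwards [h1.eventually_nhds] with x hx
        have hfr : ∃ᶠ y in 𝓝 x, |c' y| ≤ C * |∏ j, (y j - b j) ^ (Function.update e i m j)| := by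
          refine ((lmonoAlg_dense b x i).and_eventually hx).mono ?_
          rintro y ⟨hy, _, hy2, hy3⟩
          rw [lmonoAlg_prod (fun j => y j - b j) e i m hm, abs_mul, hy2, abs_mul] at hy3
          have h4 : 0 < |y i - b i| := abs_pos.2 hy
          have h5 : |y i - b i| * |c' y| ≤ |y i - b i| *
              (C * |∏ j, (y j - b j) ^ (Function.update e i m j)|) := by
            calc |y i - b i| * |c' y| ≤ C * (|y i - b i| *
                  |∏ j, (y j - b j) ^ (Function.update e i m j)|) := hy3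
              _ = _ := by ring
          exact le_of_mul_le_mul_left h5 h4
        have hct1 : ContinuousAt (fun y => |c' y|) x :=
          (hx.self_of_nhds.1.continuousAt).abs
        have hct2 : ContinuousAt (fun y : Fin n → ℝ =>
            C * |∏ j, (y j - b j) ^ (Function.update e i m j)|) x :=
          (continuous_const.mul (continuous_finsetProd _ fun j _ =>
            ((continuous_apply j).sub continuous_const).pow _).abs).continuousAt
        exact le_of_tendsto_of_tendsto_of_frequently hct1.tendsto hct2.tendsto hfr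
      have hN' : ∑ j, Function.update e i m j = N := by
        have := lmonoAlg_sum e i m hm
        omega
      obtain ⟨v, hv, hv2⟩ := ih c' b _ C hN' hc' hle'
      refine ⟨v, hv, ?_⟩
      filter_upwards [hcc, hv2] with x hx1 hx2
      rw [hx1, hx2, lmonoAlg_prod (fun j => x j - b j) e i m hm]
      ring
  intro n c b e C hc hle
  exact key n _ c b e C rfl hc hle

/-- L2a. -/
theorem lFactor (h : LHad) : LFactor := by
  have key : ∀ (n N : ℕ) (f g : (Fin n → ℝ) → ℝ) (b : Fin n → ℝ) (a : Fin n → ℕ)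
      (u : (Fin n → ℝ) → ℝ), ∑ j, a j = N → AnalyticAt ℝ f b → AnalyticAt ℝ g b →
      AnalyticAt ℝ u b → u b ≠ 0 →
      (∀ᶠ x in 𝓝 b, f x * g x = (∏ i, (x i - b i) ^ a i) * u x) → LMono f b := by
    intro n N
    induction N with
    | zero =>
      intro f g b a u hN hf _ _ hub hfg
      have h1 : ∀ i, a i = 0 := fun i =>
        (Finset.sum_eq_zero_iff.1 hN) i (Finset.mem_univ i)
      have h2 := hfg.self_of_nhds
      rw [Finset.prod_eq_one fun i _ => by rw [h1 i, pow_zero], one_mul] at h2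
      have h3 : f b ≠ 0 := by
        intro h0
        rw [h0, zero_mul] at h2
        exact hub h2.symm
      exact ⟨fun _ => 0, f, hf, h3, Filter.Eventually.of_forall fun x => by simp⟩
    | succ N ih =>
      intro f g b a u hN hf hg hu hub hfg
      obtain ⟨i, m, hm⟩ := lmonoAlg_pick a N hN
      have hN' : ∑ j, Function.update a i m j = N := by
        have := lmonoAlg_sum a i m hm
        omega
      have hPb : Function.update b i (b i) = b := Function.update_eq_self i b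
      have hfP : AnalyticAt ℝ (fun x => f (Function.update x i (b i))) b := by
        apply AnalyticAt.fun_comp (f := fun x : Fin n → ℝ => Function.update x i (b i)) _
          (lmonoAlg_projAn b i)
        rw [hPb]
        exact hf
      have hgP : AnalyticAt ℝ (fun x => g (Function.update x i (b i))) b := by
        apply AnalyticAt.fun_comp (f := fun x : Fin n → ℝ => Function.update x i (b i)) _
          (lmonoAlg_projAn b i)
        rw [hPb]
        exact hg
      have hz : ∀ᶠ x in 𝓝 b, f (Function.update x i (b i)) * g (Function.update x i (b i)) = 0 := by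
        filter_upwards [(lmonoAlg_tendsto b i).eventually hfg] with x hx
        rw [hx, lmonoAlg_van b x a i m hm, zero_mul]
      have hmonoAn : AnalyticAt ℝ (fun x : Fin n → ℝ =>
          (∏ j, (x j - b j) ^ (Function.update a i m j)) * u x) b := by
        apply AnalyticAt.mul _ hu
        apply Finset.analyticAt_fun_prod
        intro j _
        exact (lmonoAlg_coord b j).pow _
      rcases lDomain (Fin n → ℝ) _ _ b hfP hgP hz with h1 | h1
      · obtain ⟨f1, hf1, hff⟩ := lmonoAlg_div h i hf h1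
        have h2 : ∀ᶠ x in 𝓝 b, f1 x * g x =
            (∏ j, (x j - b j) ^ (Function.update a i m j)) * u x := by
          apply lmonoAlg_cancel i (hf1.mul hg) hmonoAn
          filter_upwards [hfg, hff] with x hx1 hx2
          rw [hx2, lmonoAlg_prod (fun j => x j - b j) a i m hm] at hx1
          simp only [Pi.mul_apply]
          linarith
        obtain ⟨a1, u1, hu1, hu1b, hfu⟩ := ih f1 g b _ u hN' hf1 hg hu hub h2
        refine ⟨Function.update a1 i (a1 i + 1), u1, hu1, hu1b, ?_⟩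
        filter_upwards [hff, hfu] with x hx1 hx2
        rw [hx1, hx2, lmonoAlg_prod (fun j => x j - b j) (Function.update a1 i (a1 i + 1)) i (a1 i)
          (Function.update_self _ _ _), Function.update_idem, Function.update_eq_self]
        ring
      · obtain ⟨g1, hg1, hgg⟩ := lmonoAlg_div h i hg h1
        have h2 : ∀ᶠ x in 𝓝 b, f x * g1 x =
            (∏ j, (x j - b j) ^ (Function.update a i m j)) * u x := by
          apply lmonoAlg_cancel i (hf.mul hg1) hmonoAn
          filter_upwards [hfg, hgg] with x hx1 hx2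
          rw [hx2, lmonoAlg_prod (fun j => x j - b j) a i m hm] at hx1
          simp only [Pi.mul_apply]
          linarith
        exact ih f g1 b _ u hN' hf hg1 hu hub h2
  intro n f g b hf hg hfg
  obtain ⟨a, u, hu, hub, hfu⟩ := hfg
  exact key n _ f g b a u rfl hf hg hu hub hfu

end Pool.Agent.Work.MP_4a14ce_an

end

section

/-!
# Group L, item L4: implicit function theorem and Taylor expansion
-/

open Set Topology Filter

namespace Pool.Agent.Work.MP_4a14ce_an

/-! ### One variable -/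

lemma lNormal_step (n : ℕ) (c : ℝ) (H F : ℝ → ℝ) (hH : AnalyticAt ℝ H 0)
    (hF : ∀ᶠ t in 𝓝 (0 : ℝ), F t = c + t * H t) :
    iteratedDeriv (n + 1) F 0 = (n + 1) * iteratedDeriv n H 0 := by
  have e1 : F =ᶠ[𝓝 0] fun t => c + t * H t := hF
  rw [e1.iteratedDeriv_eq (n + 1)]
  have hmul : iteratedDeriv (n + 1) (fun t => t * H t) 0 = (n + 1) * iteratedDeriv n H 0 := by
    rw [iteratedDeriv_fun_mul (f := fun t => t) (g := H) (contDiffAt_fun_id) (hH.contDiffAt)]
    rw [Finset.sum_eq_single 1]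
    · rw [iteratedDeriv_fun_id_zero]
      simp
    · intro i _ hi
      rw [iteratedDeriv_fun_id_zero, if_neg hi]
      simp
    · intro h
      exact absurd (Finset.mem_range.2 (by omega)) h
  have hadd : iteratedDeriv (n + 1) (fun t => c + t * H t) 0 =
      iteratedDeriv (n + 1) (fun t => t * H t) 0 := by
    rw [iteratedDeriv_succ', iteratedDeriv_succ']
    congr 1
    funext t
    simp
  rw [hadd, hmul]

lemma lNormal_taylor (m : ℕ) : ∀ (c : ℕ → ℝ) (V F : ℝ → ℝ), AnalyticAt ℝ V 0 →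
    (∀ᶠ t in 𝓝 (0 : ℝ), F t = ∑ j ∈ Finset.range m, c j * t ^ j + t ^ m * V t) →
    iteratedDeriv m F 0 = m.factorial * V 0 := by
  induction m with
  | zero =>
    intro c V F hV hF
    have := hF.self_of_nhds
    simp only [Finset.range_zero, Finset.sum_empty, pow_zero, one_mul, zero_add] at this
    simp [this]
  | succ m ih =>
    intro c V F hV hF
    have hH : AnalyticAt ℝ (fun t => ∑ j ∈ Finset.range m, c (j + 1) * t ^ j + t ^ m * V t) 0 := by
      fun_prop
    have h1 := lNormal_step m (c 0) _ F hH (by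
      filter_upwards [hF] with t ht
      rw [ht, Finset.sum_range_succ', mul_add, Finset.mul_sum]
      have : ∀ j, c (j + 1) * t ^ (j + 1) = t * (c (j + 1) * t ^ j) := fun j => by ring
      simp only [this]
      ring)
    rw [h1, ih (fun j => c (j + 1)) V _ hV (Eventually.of_forall fun t => rfl),
      Nat.factorial_succ]
    push_cast
    ring

/-! ### Iterated partial derivatives -/

section

variable {n : ℕ}

/-- The iterated partial derivatives in the last variable. -/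
noncomputable def lNormalD (g : (Fin n → ℝ) × ℝ → ℝ) : ℕ → (Fin n → ℝ) × ℝ → ℝ
  | 0 => g
  | (j + 1) => fun p => fderiv ℝ (lNormalD g j) p (0, 1)

lemma lNormalD_analytic {g : (Fin n → ℝ) × ℝ → ℝ} {q : (Fin n → ℝ) × ℝ}
    (hg : AnalyticAt ℝ g q) (j : ℕ) : AnalyticAt ℝ (lNormalD g j) q := by
  induction j with
  | zero => exact hg
  | succ j ih =>
    have h1 : AnalyticAt ℝ (fderiv ℝ (lNormalD g j)) q := ih.fderiv
    exact ((ContinuousLinearMap.apply ℝ ℝ ((0, 1) : (Fin n → ℝ) × ℝ)).analyticAt _).comp h1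

lemma lNormalD_deriv {F : (Fin n → ℝ) × ℝ → ℝ} {p : (Fin n → ℝ) × ℝ}
    (hF : DifferentiableAt ℝ F p) :
    HasDerivAt (fun t => F (p.1, t)) (fderiv ℝ F p (0, 1)) p.2 := by
  have h1 : HasDerivAt (fun t : ℝ => (p.1, t)) ((0 : Fin n → ℝ), (1 : ℝ)) p.2 :=
    (hasDerivAt_const p.2 p.1).prodMk (hasDerivAt_id p.2)
  have h2 : HasFDerivAt F (fderiv ℝ F p) ((fun t : ℝ => (p.1, t)) p.2) := hF.hasFDerivAt
  exact h2.comp_hasDerivAt p.2 h1

lemma lNormalD_eq {g : (Fin n → ℝ) × ℝ → ℝ} {q : (Fin n → ℝ) × ℝ}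
    (hg : AnalyticAt ℝ g q) (j : ℕ) :
    ∀ᶠ p in 𝓝 q, lNormalD g j p = iteratedDeriv j (fun t => g (p.1, t)) p.2 := by
  induction j with
  | zero => exact Eventually.of_forall fun p => by simp [lNormalD]
  | succ j ih =>
    filter_upwards [ih.eventually_nhds, (lNormalD_analytic hg j).eventually_analyticAt] with p hp hpa
    have h1 := (lNormalD_deriv hpa.differentiableAt).deriv
    have h2 : Tendsto (fun t : ℝ => (p.1, t)) (𝓝 p.2) (𝓝 p) := by
      have : Continuous (fun t : ℝ => (p.1, t)) := by fun_prop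
      exact this.tendsto p.2
    have h3 : (fun t => lNormalD g j (p.1, t)) =ᶠ[𝓝 p.2]
        iteratedDeriv j (fun t => g (p.1, t)) := h2.eventually hp
    rw [iteratedDeriv_succ, ← h3.deriv_eq, h1]
    rfl

/-! ### Repeated division -/

lemma lNormal_div (hHad : LHad) (b : Fin n → ℝ) (m : ℕ) :
    ∀ F : (Fin n → ℝ) × ℝ → ℝ, AnalyticAt ℝ F (b, 0) →
    ∃ (c : ℕ → (Fin n → ℝ) → ℝ) (U : (Fin n → ℝ) × ℝ → ℝ), (∀ j, AnalyticAt ℝ (c j) b) ∧
      AnalyticAt ℝ U (b, 0) ∧ ∀ᶠ p in 𝓝 (b, (0 : ℝ)), F p =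
        ∑ j ∈ Finset.range m, c j p.1 * p.2 ^ j + p.2 ^ m * U p := by
  induction m with
  | zero =>
    intro F hF
    exact ⟨fun _ _ => 0, F, fun _ => analyticAt_const, hF, Eventually.of_forall fun p => by simp⟩
  | succ m ih =>
    intro F hF
    obtain ⟨G, hG, hFG⟩ := hHad ((Fin n → ℝ) × ℝ) (ContinuousLinearMap.snd ℝ _ _) (0, 1)
      (by simp) F (b, 0) hF
    obtain ⟨c, U, hc, hU, hGc⟩ := ih G hG
    refine ⟨fun j => match j with | 0 => fun y => F (y, 0) | (j + 1) => c j, U, ?_, hU, ?_⟩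
    · intro j
      cases j with
      | zero =>
        have h1 : AnalyticAt ℝ (fun y : Fin n → ℝ => (y, (0 : ℝ))) b :=
          AnalyticAt.prod analyticAt_id analyticAt_const
        exact AnalyticAt.comp (g := F) (f := fun y : Fin n → ℝ => (y, (0 : ℝ))) hF h1
      | succ j => exact hc j
    · filter_upwards [hFG, hGc] with p h1 h2
      rw [h1, h2, Finset.sum_range_succ']
      have e : p - (ContinuousLinearMap.snd ℝ (Fin n → ℝ) ℝ) (p - (b, 0)) •
          ((0 : Fin n → ℝ), (1 : ℝ)) = (p.1, 0) := by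
        ext <;> simp
      rw [e]
      have e2 : (ContinuousLinearMap.snd ℝ (Fin n → ℝ) ℝ) (p - (b, 0)) = p.2 := by simp
      rw [e2, mul_add, Finset.mul_sum]
      have : ∀ j, c j p.1 * p.2 ^ (j + 1) = p.2 * (c j p.1 * p.2 ^ j) := fun j => by ring
      simp only [this]
      ring

/-! ### The implicit function -/

lemma lNormal_ift {G : (Fin n → ℝ) × ℝ → ℝ} {b : Fin n → ℝ} {s : ℝ} (hG : AnalyticAt ℝ G (b, s))
    (h0 : G (b, s) = 0) (h1 : fderiv ℝ G (b, s) (0, 1) ≠ 0) :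
    ∃ h : (Fin n → ℝ) → ℝ, AnalyticAt ℝ h b ∧ h b = s ∧ ∀ᶠ y in 𝓝 b, G (y, h y) = 0 := by
  set A : (Fin n → ℝ) × ℝ →L[ℝ] ℝ := fderiv ℝ G (b, s) with hA
  set d : ℝ := A (0, 1) with hd
  have hAv : ∀ (v : Fin n → ℝ) (t : ℝ), A (v, t) = A (v, 0) + d * t := by
    intro v t
    have : (v, t) = (v, (0 : ℝ)) + t • ((0 : Fin n → ℝ), (1 : ℝ)) := by ext <;> simp
    rw [this, map_add, map_smul, smul_eq_mul, hd]; ring
  let L : (Fin n → ℝ) × ℝ →L[ℝ] (Fin n → ℝ) × ℝ := (ContinuousLinearMap.fst ℝ _ _).prod A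
  let L' : (Fin n → ℝ) × ℝ →L[ℝ] (Fin n → ℝ) × ℝ := (ContinuousLinearMap.fst ℝ _ _).prod
    (d⁻¹ • (ContinuousLinearMap.snd ℝ _ _ -
      A.comp ((ContinuousLinearMap.inl ℝ _ _).comp (ContinuousLinearMap.fst ℝ _ _))))
  have hLL' : Function.LeftInverse L' L := by
    rintro ⟨v, t⟩
    have e : L' (L (v, t)) = (v, d⁻¹ * (A (v, t) - A (v, 0))) := by
      simp [L, L']
    rw [e, hAv v t]
    ext
    · rfl
    · simp only; field_simp; ring
  have hL'L : Function.RightInverse L' L := by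
    rintro ⟨v, t⟩
    have e : L (L' (v, t)) = (v, A (v, d⁻¹ * (t - A (v, 0)))) := by
      simp [L, L']
    rw [e, hAv]
    ext
    · rfl
    · simp only; field_simp; ring
  let i : ((Fin n → ℝ) × ℝ) ≃L[ℝ] ((Fin n → ℝ) × ℝ) :=
    ContinuousLinearEquiv.equivOfInverse L L' hLL' hL'L
  let Φ : (Fin n → ℝ) × ℝ → (Fin n → ℝ) × ℝ := fun p => (p.1, G p)
  have hΦa : AnalyticAt ℝ Φ (b, s) := AnalyticAt.prod analyticAt_fst hG
  have hΦd : HasStrictFDerivAt Φ (i : (Fin n → ℝ) × ℝ →L[ℝ] (Fin n → ℝ) × ℝ) (b, s) := by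
    have h2 : HasStrictFDerivAt G A (b, s) := hG.hasStrictFDerivAt
    exact (hasStrictFDerivAt_fst).prodMk h2
  let f := hΦd.toOpenPartialHomeomorph Φ
  have hf : (f : (Fin n → ℝ) × ℝ → (Fin n → ℝ) × ℝ) = Φ := rfl
  have hmem : (b, s) ∈ f.source := hΦd.mem_toOpenPartialHomeomorph_source
  have hΦ0 : Φ (b, s) = (b, 0) := by simp [Φ, h0]
  have hsymm : AnalyticAt ℝ f.symm (b, 0) := by
    have := f.analyticAt_symm' (i := i) hmem hΦa (by rw [hf]; exact hΦd.hasFDerivAt.fderiv)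
    rw [hf, hΦ0] at this
    exact this
  have hsymm0 : f.symm (b, 0) = (b, s) := by
    rw [← hΦ0]
    exact f.left_inv hmem
  have hinc : AnalyticAt ℝ (fun y : Fin n → ℝ => (y, (0 : ℝ))) b :=
    AnalyticAt.prod analyticAt_id analyticAt_const
  have hcomp : AnalyticAt ℝ (fun y : Fin n → ℝ => f.symm (y, 0)) b :=
    AnalyticAt.comp (g := f.symm) (f := fun y : Fin n → ℝ => (y, (0 : ℝ))) hsymm hinc
  refine ⟨fun y => (f.symm (y, 0)).2, ?_, ?_, ?_⟩
  · exact AnalyticAt.comp (g := Prod.snd) analyticAt_snd hcomp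
  · simp only [hsymm0]
  · have htarget : f.target ∈ 𝓝 (b, (0 : ℝ)) := by
      apply f.open_target.mem_nhds
      rw [← hΦ0]
      exact f.map_source hmem
    have : ∀ᶠ y in 𝓝 b, (y, (0 : ℝ)) ∈ f.target :=
      hinc.continuousAt.eventually htarget
    filter_upwards [this] with y hy
    have h3 := f.right_inv hy
    rw [hf] at h3
    have h4 : (f.symm (y, 0)).1 = y := congrArg Prod.fst h3
    have h5 : G (f.symm (y, 0)) = 0 := congrArg Prod.snd h3
    have h6 : (y, (f.symm (y, 0)).2) = f.symm (y, 0) := by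
      ext
      · simp [h4]
      · rfl
    rw [h6]; exact h5

end

theorem lNormal (hHad : LHad) : LNormal := by
  intro n k g b s hg h0 h1
  -- the implicit function
  have hgk : AnalyticAt ℝ (lNormalD g k) (b, s) := lNormalD_analytic hg k
  have hgk0 : lNormalD g k (b, s) = 0 := by
    rw [(lNormalD_eq hg k).self_of_nhds]
    exact h0 k le_rfl
  have hgk1 : fderiv ℝ (lNormalD g k) (b, s) (0, 1) ≠ 0 := by
    have := (lNormalD_eq hg (k + 1)).self_of_nhds
    simp only [lNormalD] at this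
    rw [this]
    exact h1
  obtain ⟨h, ha, hb, hz⟩ := lNormal_ift hgk hgk0 hgk1
  -- the shifted function
  have hshift : AnalyticAt ℝ (fun p : (Fin n → ℝ) × ℝ => (p.1, p.2 + h p.1)) (b, 0) := by
    have h2 : AnalyticAt ℝ (fun p : (Fin n → ℝ) × ℝ => h p.1) (b, 0) :=
      AnalyticAt.comp (g := h) (f := fun p : (Fin n → ℝ) × ℝ => p.1) ha analyticAt_fst
    exact AnalyticAt.prod analyticAt_fst (analyticAt_snd.add h2)
  have hG : AnalyticAt ℝ (fun p : (Fin n → ℝ) × ℝ => g (p.1, p.2 + h p.1)) (b, 0) := by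
    refine AnalyticAt.comp (g := g) (f := fun p : (Fin n → ℝ) × ℝ => (p.1, p.2 + h p.1)) ?_ hshift
    simp only [zero_add, hb]
    exact hg
  obtain ⟨c, U, hc, hU, hexp⟩ := lNormal_div hHad b (k + 1) _ hG
  have hUy : ∀ᶠ y in 𝓝 b, AnalyticAt ℝ (fun t => U (y, t)) 0 := by
    have h3 : ∀ᶠ y in 𝓝 b, AnalyticAt ℝ U (y, 0) := by
      have hcont : ContinuousAt (fun y : Fin n → ℝ => (y, (0 : ℝ))) b := by fun_prop
      exact hcont.eventually hU.eventually_analyticAt
    filter_upwards [h3] with y hy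
    have h4 : AnalyticAt ℝ (fun t : ℝ => (y, t)) 0 := AnalyticAt.prod analyticAt_const analyticAt_id
    exact AnalyticAt.comp (g := U) (f := fun t : ℝ => (y, t)) hy h4
  have hexp' : ∀ᶠ y in 𝓝 b, ∀ᶠ t in 𝓝 (0 : ℝ), g (y, t + h y) =
      ∑ j ∈ Finset.range (k + 1), c j y * t ^ j + t ^ (k + 1) * U (y, t) := by
    rw [nhds_prod_eq] at hexp
    exact hexp.curry
  -- the coefficient of `t ^ k` vanishes
  have hck : ∀ᶠ y in 𝓝 b, c k y = 0 := by
    have h5 : ∀ᶠ y in 𝓝 b, lNormalD g k (y, h y) =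
        iteratedDeriv k (fun t => g (y, t)) (h y) := by
      have hcont : ContinuousAt (fun y : Fin n → ℝ => (y, h y)) b :=
        continuousAt_id.prodMk ha.continuousAt
      have h6 := lNormalD_eq hg k
      rw [← hb] at h6
      exact hcont.eventually h6
    filter_upwards [hUy, hexp', h5, hz] with y y1 y2 y3 y4
    have h7 := lNormal_taylor k (fun j => c j y) (fun t => c k y + t * U (y, t))
      (fun t => g (y, t + h y)) (AnalyticAt.add analyticAt_const (AnalyticAt.mul analyticAt_id y1)) (by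
        filter_upwards [y2] with t ht
        rw [ht, Finset.sum_range_succ]; ring)
    have h8 : iteratedDeriv k (fun t => g (y, t + h y)) 0 =
        iteratedDeriv k (fun t => g (y, t)) (0 + h y) := by
      rw [iteratedDeriv_comp_add_const k (fun t => g (y, t)) (h y)]
    rw [h8, zero_add, ← y3, y4] at h7
    simp only [zero_mul, add_zero] at h7
    have h9 : (k.factorial : ℝ) ≠ 0 := by exact_mod_cast k.factorial_ne_zero
    rcases mul_eq_zero.1 h7.symm with h | h
    · exact absurd h h9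
    · exact h
  refine ⟨h, c, U, ha, hb, hc, hU, ?_, ?_⟩
  · have h7 := lNormal_taylor (k + 1) (fun j => c j b) (fun t => U (b, t))
      (fun t => g (b, t + h b)) hUy.self_of_nhds hexp'.self_of_nhds
    have h8 : iteratedDeriv (k + 1) (fun t => g (b, t + h b)) 0 =
        iteratedDeriv (k + 1) (fun t => g (b, t)) (0 + h b) := by
      rw [iteratedDeriv_comp_add_const (k + 1) (fun t => g (b, t)) (h b)]
    rw [h8, zero_add, hb] at h7
    intro hU0
    rw [hU0, mul_zero] at h7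
    exact h1 h7
  · have hck' : ∀ᶠ p : (Fin n → ℝ) × ℝ in 𝓝 (b, (0 : ℝ)), c k p.1 = 0 := by
      have hcont : ContinuousAt (fun p : (Fin n → ℝ) × ℝ => p.1) (b, 0) := continuousAt_fst
      exact hcont.eventually hck
    filter_upwards [hexp, hck'] with p h1 h2
    rw [h1, Finset.sum_range_succ, h2, zero_mul, add_zero]

end Pool.Agent.Work.MP_4a14ce_an

end
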