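import Pool.Agent.Work.MP_4a14ce_an.Bd.B02
import Pool.Agent.Work.MP_4a14ce_an.Bd.B01
import Pool.Agent.Work.MP_4a14ce_an.DefsLU
import Pool.Agent.Work.MP_4a14ce_an.Bd.B03

/-! Bundle of small proof modules (one section per former module). -/

section

/-!
# Group L: basic properties of `LMono`, `LMonoP` and `LRes`; the lifting lemma
-/

open Set Topology Filter

namespace Pool.Agent.Work.MP_4a14ce_an

/-! ## Monomials times units -/

theorem LMono.congr {n : ℕ} {f g : (Fin n → ℝ) → ℝ} {b : Fin n → ℝ}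
    (h : ∀ᶠ x in 𝓝 b, f x = g x) (hf : LMono f b) : LMono g b := by
  obtain ⟨a, u, hu, hu0, he⟩ := hf
  refine ⟨a, u, hu, hu0, ?_⟩
  filter_upwards [h, he] with x h1 h2
  rw [← h1, h2]

theorem LMonoP.congr {n : ℕ} {f g : (Fin n → ℝ) × ℝ → ℝ} {p : (Fin n → ℝ) × ℝ}
    (h : ∀ᶠ x in 𝓝 p, f x = g x) (hf : LMonoP f p) : LMonoP g p := by
  obtain ⟨a, c, u, hu, hu0, he⟩ := hf
  refine ⟨a, c, u, hu, hu0, ?_⟩
  filter_upwards [h, he] with x h1 h2
  rw [← h1, h2]

theorem LMono.unit {n : ℕ} {u : (Fin n → ℝ) → ℝ} {b : Fin n → ℝ} (hu : AnalyticAt ℝ u b)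
    (h0 : u b ≠ 0) : LMono u b :=
  ⟨fun _ => 0, u, hu, h0, Eventually.of_forall fun x => by simp⟩

theorem LMonoP.unit {n : ℕ} {u : (Fin n → ℝ) × ℝ → ℝ} {p : (Fin n → ℝ) × ℝ}
    (hu : AnalyticAt ℝ u p) (h0 : u p ≠ 0) : LMonoP u p :=
  ⟨fun _ => 0, 0, u, hu, h0, Eventually.of_forall fun x => by simp⟩

theorem LMono.mul {n : ℕ} {f g : (Fin n → ℝ) → ℝ} {b : Fin n → ℝ} (hf : LMono f b)
    (hg : LMono g b) : LMono (fun x => f x * g x) b := by
  obtain ⟨a, u, hu, hu0, he⟩ := hf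
  obtain ⟨a', u', hu', hu0', he'⟩ := hg
  refine ⟨fun i => a i + a' i, fun x => u x * u' x, hu.mul hu', mul_ne_zero hu0 hu0', ?_⟩
  filter_upwards [he, he'] with x h1 h2
  rw [h1, h2]
  simp only [pow_add, Finset.prod_mul_distrib]
  ring

theorem LMonoP.mul {n : ℕ} {f g : (Fin n → ℝ) × ℝ → ℝ} {p : (Fin n → ℝ) × ℝ} (hf : LMonoP f p)
    (hg : LMonoP g p) : LMonoP (fun x => f x * g x) p := by
  obtain ⟨a, c, u, hu, hu0, he⟩ := hf
  obtain ⟨a', c', u', hu', hu0', he'⟩ := hg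
  refine ⟨fun i => a i + a' i, c + c', fun x => u x * u' x, hu.mul hu', mul_ne_zero hu0 hu0', ?_⟩
  filter_upwards [he, he'] with x h1 h2
  rw [h1, h2]
  simp only [pow_add, Finset.prod_mul_distrib]
  ring

theorem LMonoP.pow {n : ℕ} {f : (Fin n → ℝ) × ℝ → ℝ} {p : (Fin n → ℝ) × ℝ} (hf : LMonoP f p)
    (k : ℕ) : LMonoP (fun x => f x ^ k) p := by
  induction k with
  | zero =>
    simp only [pow_zero]
    exact LMonoP.unit analyticAt_const one_ne_zero
  | succ k ih =>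
    simp only [pow_succ]
    exact ih.mul hf

theorem LMonoP.prod {n : ℕ} {ι : Type*} (s : Finset ι) {f : ι → (Fin n → ℝ) × ℝ → ℝ}
    {p : (Fin n → ℝ) × ℝ} (hf : ∀ i ∈ s, LMonoP (f i) p) :
    LMonoP (fun x => ∏ i ∈ s, f i x) p := by
  classical
  induction s using Finset.induction_on with
  | empty =>
    simp only [Finset.prod_empty]
    exact LMonoP.unit analyticAt_const one_ne_zero
  | insert i s hi ih =>
    simp only [Finset.prod_insert hi]
    exact (hf i (Finset.mem_insert_self _ _)).mul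
      (ih fun j hj => hf j (Finset.mem_insert_of_mem hj))

theorem analyticAt_coordP {n : ℕ} (i : Fin n) (p : (Fin n → ℝ) × ℝ) :
    AnalyticAt ℝ (fun q : (Fin n → ℝ) × ℝ => q.1 i) p :=
  ((ContinuousLinearMap.proj (R := ℝ) (φ := fun _ : Fin n => ℝ) i).comp
    (ContinuousLinearMap.fst ℝ (Fin n → ℝ) ℝ)).analyticAt p

theorem analyticAt_coord {n : ℕ} (i : Fin n) (b : Fin n → ℝ) :
    AnalyticAt ℝ (fun q : Fin n → ℝ => q i) b :=
  (ContinuousLinearMap.proj (R := ℝ) (φ := fun _ : Fin n => ℝ) i).analyticAt b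

/-- a coordinate function minus a constant is a monomial times a unit at every point -/
theorem LMonoP.coord {n : ℕ} (i : Fin n) (c : ℝ) (p : (Fin n → ℝ) × ℝ) :
    LMonoP (fun q => q.1 i - c) p := by
  classical
  by_cases h : p.1 i = c
  · refine ⟨Pi.single i 1, 0, fun _ => 1, analyticAt_const, one_ne_zero,
      Eventually.of_forall fun q => ?_⟩
    simp only [pow_zero, mul_one]
    rw [Finset.prod_eq_single i]
    · simp [h]
    · intro j _ hj
      simp [Pi.single_eq_of_ne hj]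
    · simp
  · exact LMonoP.unit ((analyticAt_coordP i p).sub analyticAt_const) (sub_ne_zero.2 h)

theorem LMonoP.last {n : ℕ} (c : ℝ) (p : (Fin n → ℝ) × ℝ) :
    LMonoP (fun q : (Fin n → ℝ) × ℝ => q.2 - c) p := by
  by_cases h : p.2 = c
  · refine ⟨fun _ => 0, 1, fun _ => 1, analyticAt_const, one_ne_zero,
      Eventually.of_forall fun q => ?_⟩
    simp [h]
  · exact LMonoP.unit (analyticAt_snd.sub analyticAt_const) (sub_ne_zero.2 h)

theorem LMonoP.coord0 {n : ℕ} (i : Fin n) (p : (Fin n → ℝ) × ℝ) :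
    LMonoP (fun q => q.1 i) p :=
  (LMonoP.coord i 0 p).congr (Eventually.of_forall fun _ => sub_zero _)

theorem LMonoP.last0 {n : ℕ} (p : (Fin n → ℝ) × ℝ) :
    LMonoP (fun q : (Fin n → ℝ) × ℝ => q.2) p :=
  (LMonoP.last 0 p).congr (Eventually.of_forall fun _ => sub_zero _)

/-- monomials in the coordinates -/
theorem LMonoP.monomial {n : ℕ} (β : Fin n → ℕ) (k : ℕ) (p : (Fin n → ℝ) × ℝ) :
    LMonoP (fun q => (∏ i, q.1 i ^ β i) * q.2 ^ k) p :=
  (LMonoP.prod Finset.univ fun i _ => (LMonoP.coord0 i p).pow (β i)).mul ((LMonoP.last0 p).pow k)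

/-- a monomial times a unit in `y` gives one in `(y,t)` -/
theorem LMono.toP {n : ℕ} {f : (Fin n → ℝ) → ℝ} {b : Fin n → ℝ} (hf : LMono f b) (s : ℝ) :
    LMonoP (fun p => f p.1) (b, s) := by
  obtain ⟨a, u, hu, hu0, he⟩ := hf
  refine ⟨a, 0, fun p => u p.1, ?_, hu0, ?_⟩
  · exact AnalyticAt.fun_comp (g := u) (f := Prod.fst) hu analyticAt_fst
  · have h2 : Tendsto (Prod.fst : (Fin n → ℝ) × ℝ → (Fin n → ℝ)) (𝓝 (b, s)) (𝓝 b) :=
      continuous_fst.tendsto _
    filter_upwards [h2.eventually he] with q hq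
    simp [hq]

/-! ## Towers of charts -/

section Res

variable {E : Type} [NormedAddCommGroup E] [NormedSpace ℝ E] {M : (E → ℝ) → E → Prop}

theorem LRes.congr (hM : ∀ (f g : E → ℝ) (a : E), (∀ᶠ x in 𝓝 a, f x = g x) → M f a → M g a)
    {f : E → ℝ} {a : E} (h : LRes M f a) : ∀ g : E → ℝ, (∀ᶠ x in 𝓝 a, f x = g x) →
    LRes M g a := by
  induction h with
  | base f a h => exact fun g hg => LRes.base g a (hM f g a hg h)
  | tower f a N φ K h1 h2 h3 h4 ih =>
    intro g hg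
    refine LRes.tower g a N φ K h1 h2 h3 fun i x hx hxa => ih i x hx hxa _ ?_
    have hc : Tendsto (φ i) (𝓝 x) (𝓝 a) := by
      have := (h2 i x hx).continuousAt
      rwa [ContinuousAt, hxa] at this
    exact hc.eventually hg

theorem LRes.chart {f : E → ℝ} {a : E} (φ : E → E) (K : Set E) (hK : IsCompact K)
    (hφ : ∀ x ∈ K, AnalyticAt ℝ φ x) (hcov : φ '' K ∈ 𝓝 a)
    (h : ∀ x ∈ K, φ x = a → LRes M (fun y => f (φ y)) x) : LRes M f a := by
  refine LRes.tower f a 1 (fun _ => φ) (fun _ => K) (fun _ => hK) (fun _ => hφ) ?_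
    (fun _ => h)
  refine mem_of_superset hcov ?_
  intro y hy
  exact mem_iUnion.2 ⟨0, hy⟩

/-- transport by a continuous linear equivalence -/
theorem LRes.equiv {F : Type} [NormedAddCommGroup F] [NormedSpace ℝ F] {M' : (F → ℝ) → F → Prop}
    (e : E ≃L[ℝ] F) (hM : ∀ (f : E → ℝ) (a : E), M f a → M' (fun y => f (e.symm y)) (e a))
    {f : E → ℝ} {a : E} (h : LRes M f a) : LRes M' (fun y => f (e.symm y)) (e a) := by
  induction h with
  | base f a h => exact LRes.base _ _ (hM f a h)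
  | tower f a N φ K h1 h2 h3 h4 ih =>
    refine LRes.tower _ _ N (fun i y => e (φ i (e.symm y))) (fun i => e '' K i)
      (fun i => (h1 i).image e.continuous) ?_ ?_ ?_
    · rintro i _ ⟨x, hx, rfl⟩
      have h5 : AnalyticAt ℝ (φ i) (e.symm (e x)) := by
        rw [e.symm_apply_apply]
        exact h2 i x hx
      exact AnalyticAt.fun_comp (g := e) (e.toContinuousLinearMap.analyticAt _)
        (AnalyticAt.fun_comp (g := φ i) h5 (e.symm.toContinuousLinearMap.analyticAt _))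
    · have h6 : e '' (⋃ i, φ i '' K i) ∈ 𝓝 (e a) := by
        have := (e.toHomeomorph.isOpenMap.image_mem_nhds h3)
        exact this
      refine mem_of_superset h6 ?_
      rintro _ ⟨y, hy, rfl⟩
      obtain ⟨i, hi⟩ := mem_iUnion.1 hy
      obtain ⟨x, hx, rfl⟩ := hi
      exact mem_iUnion.2 ⟨i, ⟨e x, ⟨x, hx, rfl⟩, by simp⟩⟩
    · rintro i _ ⟨x, hx, rfl⟩ hxa
      have h7 : φ i x = a := by
        have := e.injective hxa
        simpa using this
      have h8 := ih i x hx h7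
      simpa using h8

end Res

/-- the chart `(y,t) -> (y, t + h y)` -/
theorem LRes.shift {n : ℕ} {M : ((Fin n → ℝ) × ℝ → ℝ) → (Fin n → ℝ) × ℝ → Prop}
    {f : (Fin n → ℝ) × ℝ → ℝ} {b : Fin n → ℝ} {s : ℝ} {h : (Fin n → ℝ) → ℝ}
    (hh : AnalyticAt ℝ h b) (hb : h b = s)
    (hR : LRes M (fun p => f (p.1, p.2 + h p.1)) (b, 0)) : LRes M f (b, s) := by
  obtain ⟨r, hr, hr2⟩ := Metric.eventually_nhds_iff_ball.1 hh.eventually_analyticAt
  set K : Set ((Fin n → ℝ) × ℝ) := Metric.closedBall (b, 0) (r / 2) with hK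
  refine LRes.chart (fun p => (p.1, p.2 + h p.1)) K (isCompact_closedBall _ _) ?_ ?_ ?_
  · intro x hx
    have hx1 : AnalyticAt ℝ h x.1 := by
      refine hr2 _ ?_
      have h1 : dist x (b, (0 : ℝ)) ≤ r / 2 := hx
      have h2 : dist x.1 b ≤ dist x (b, (0 : ℝ)) := by
        rw [Prod.dist_eq]
        exact le_max_left _ _
      rw [Metric.mem_ball]
      linarith
    exact analyticAt_fst.prod (analyticAt_snd.add
      (AnalyticAt.fun_comp (g := h) (f := Prod.fst) hx1 analyticAt_fst))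
  · have hc : ContinuousAt (fun p : (Fin n → ℝ) × ℝ => (p.1, p.2 - h p.1)) (b, s) := by
      refine ContinuousAt.prodMk continuousAt_fst (continuousAt_snd.sub ?_)
      exact ContinuousAt.comp (g := h) (f := Prod.fst) hh.continuousAt continuousAt_fst
    have h0 : (fun p : (Fin n → ℝ) × ℝ => (p.1, p.2 - h p.1)) (b, s) = (b, 0) := by
      simp [hb]
    have hK2 : K ∈ 𝓝 ((fun p : (Fin n → ℝ) × ℝ => (p.1, p.2 - h p.1)) (b, s)) := by
      rw [h0]
      exact Metric.closedBall_mem_nhds _ (by positivity)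
    filter_upwards [hc hK2] with q hq
    exact ⟨(q.1, q.2 - h q.1), hq, by simp⟩
  · intro x _ hxa
    have h1 : x.1 = b := congrArg Prod.fst hxa
    have h2 : x.2 + h x.1 = s := congrArg Prod.snd hxa
    have h3 : x.2 = 0 := by
      rw [h1, hb] at h2
      linarith
    have h4 : x = (b, 0) := Prod.ext h1 h3
    rw [h4]
    exact hR

/-- an affine chart `x -> a + T x` -/
theorem LRes.affine {E : Type} [NormedAddCommGroup E] [NormedSpace ℝ E] [ProperSpace E]
    {M : (E → ℝ) → E → Prop} {f : E → ℝ} {a : E} (T : E ≃L[ℝ] E)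
    (hR : LRes M (fun x => f (a + T x)) 0) : LRes M f a := by
  refine LRes.chart (fun x => a + T x) (Metric.closedBall 0 1) (isCompact_closedBall _ _) ?_ ?_ ?_
  · intro x _
    exact analyticAt_const.add (T.toContinuousLinearMap.analyticAt x)
  · have hc : ContinuousAt (fun y : E => T.symm (y - a)) a :=
      (T.symm.continuous.comp (continuous_id.sub continuous_const)).continuousAt
    have hK2 : Metric.closedBall (0 : E) 1 ∈ 𝓝 ((fun y : E => T.symm (y - a)) a) := by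
      simp only [sub_self, map_zero]
      exact Metric.closedBall_mem_nhds _ one_pos
    filter_upwards [hc hK2] with q hq
    exact ⟨T.symm (q - a), hq, by simp⟩
  · intro x _ hxa
    have h1 : T x = 0 := by simpa using hxa
    have h2 : x = 0 := by simpa using h1
    rw [h2]
    exact hR

/-- L7: the lifting lemma -/
theorem lLift : LLift := by
  intro n m b hm
  induction hm with
  | base m b h =>
    intro H s hH
    exact hH id b analyticAt_id rfl h
  | tower m b N φ K h1 h2 h3 h4 ih =>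
    intro H s hH
    refine LRes.tower H (b, s) N (fun i p => (φ i p.1, p.2))
      (fun i => K i ×ˢ Metric.closedBall s 1) (fun i => (h1 i).prod (isCompact_closedBall _ _))
      ?_ ?_ ?_
    · rintro i ⟨x, t⟩ ⟨hx, _⟩
      exact (AnalyticAt.fun_comp (g := φ i) (f := Prod.fst) (h2 i x hx) analyticAt_fst).prod
        analyticAt_snd
    · have h5 : (⋃ i, φ i '' K i) ×ˢ Metric.closedBall s 1 ∈ 𝓝 (b, s) :=
        prod_mem_nhds h3 (Metric.closedBall_mem_nhds _ one_pos)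
      refine mem_of_superset h5 ?_
      rintro ⟨y, t⟩ ⟨hy, ht⟩
      obtain ⟨i, hi⟩ := mem_iUnion.1 hy
      obtain ⟨x, hx, rfl⟩ := hi
      exact mem_iUnion.2 ⟨i, ⟨(x, t), ⟨hx, ht⟩, rfl⟩⟩
    · rintro i ⟨x, t⟩ ⟨hx, _⟩ hxa
      have h6 : φ i x = b := congrArg Prod.fst hxa
      have h7 : t = s := congrArg Prod.snd hxa
      subst h7
      refine ih i x hx h6 (fun p => H (φ i p.1, p.2)) t fun ψ b' hψ hb' hM => ?_
      refine hH (fun y => φ i (ψ y)) b' ?_ (by rw [hb', h6]) hM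
      refine AnalyticAt.fun_comp (g := φ i) ?_ hψ
      rw [hb']
      exact h2 i x hx

/-- order zero -/
theorem lV0 : LV0 := by
  intro n hn g m b s hg hm hk hm0
  obtain ⟨j, hj, hj2⟩ := hk
  have hj0 : j = 0 := Nat.le_zero.1 hj
  subst hj0
  have hg0 : g (b, s) ≠ 0 := by simpa using hj2
  refine lLift n m b (hn m b hm hm0) _ s fun φ b' hφ hb' hM => LRes.base _ _ ?_
  refine (hM.toP s).mul (LMonoP.unit (u := fun p => g (φ p.1, p.2)) ?_ ?_)
  · refine AnalyticAt.fun_comp (g := g) (f := fun p : (Fin n → ℝ) × ℝ => (φ p.1, p.2)) ?_ ?_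
    · simpa [hb'] using hg
    · exact (AnalyticAt.fun_comp (g := φ) (f := Prod.fst) hφ analyticAt_fst).prod analyticAt_snd
  · simpa [hb'] using hg0

end Pool.Agent.Work.MP_4a14ce_an

end

section

/-!
# The Lojasiewicz-Simon inequality: assembly
-/

open Set MeasureTheory Topology Filter
open scoped ContDiff

namespace Pool.Agent.Work.MP_4a14ce_an

theorem LS_norm_BW_le (σ : ℝ) {n : ℕ} (x y : WV n) : ‖BW σ x y‖ ≤ (|σ| + n) * (‖x‖ * ‖y‖) := by
  unfold BW
  have h1 : ∀ i j : Fin (n + 1), ‖x i * y j‖ ≤ ‖x‖ * ‖y‖ := fun i j =>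
    (norm_mul_le _ _).trans (mul_le_mul (norm_le_pi_norm x i) (norm_le_pi_norm y j)
      (norm_nonneg _) (norm_nonneg _))
  refine (norm_add_le _ _).trans ?_
  have h2 : ‖(σ : ℂ) • (x 0 * y 0)‖ ≤ |σ| * (‖x‖ * ‖y‖) := by
    rw [norm_smul, Complex.norm_real, Real.norm_eq_abs]
    exact mul_le_mul_of_nonneg_left (h1 0 0) (abs_nonneg _)
  have h3 : ‖∑ i : Fin n, x i.succ * y i.succ‖ ≤ n * (‖x‖ * ‖y‖) := by
    refine (norm_sum_le _ _).trans ?_
    calc ∑ i : Fin n, ‖x i.succ * y i.succ‖ ≤ ∑ _i : Fin n, ‖x‖ * ‖y‖ :=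
          Finset.sum_le_sum fun i _ => h1 _ _
      _ = n * (‖x‖ * ‖y‖) := by simp
  calc _ ≤ |σ| * (‖x‖ * ‖y‖) + n * (‖x‖ * ‖y‖) := add_le_add h2 h3
    _ = _ := by ring

theorem LS_norm_DV_le (n j : ℕ) (U : WV n) : ‖DV n j U‖ ≤ ‖U‖ := by
  rw [pi_norm_le_iff_of_nonneg (norm_nonneg _)]
  intro i
  rw [DV_apply]
  have h : ‖DW j‖ ≤ 1 := Wien.norm_mult_le _ _ _
  calc ‖DW j (U i)‖ ≤ 1 * ‖U i‖ := (DW j).le_of_opNorm_le h _
    _ ≤ ‖U‖ := by rw [one_mul]; exact norm_le_pi_norm U i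

theorem LS_norm_mn_le (w : WC) : ‖mn w‖ ≤ ‖w‖ := Wien.norm_apply_le w 0

theorem LS_continuous_zP (σ : ℝ) (n : ℕ) : Continuous fun U : WV n => zP σ (J3 n U) := by
  unfold zP BW
  have hc : ∀ (j : Fin 4) (i : Fin (n + 1)), Continuous fun U : WV n => J3 n U j i := fun j i =>
    (continuous_apply i).comp ((continuous_apply j).comp (J3 n).continuous)
  refine mn.continuous.comp ?_
  refine (((hc 1 0).mul (hc 1 0)).const_smul (σ : ℂ)).add ?_
  exact continuous_finsetSum _ fun i _ => (hc 1 i.succ).mul (hc 1 i.succ)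

theorem claimLS (hAbs : ClaimSAbs) (hCpt : ClaimSCpt) (hGrad : ClaimSGrad) (hAn : ClaimSAn)
    (hFco : ClaimSFco) (hClose : ClaimSClose) (hVal : ClaimSVal) (hInt : ClaimSInt) :
    ClaimLS := by
  intro n σ v q hσ hv hvel
  obtain ⟨hz, hcoef, hF, hM⟩ := hVal n σ q v hσ hv
  have hq : 0 < q := hv.pos
  set V0 : WV n := toX v with hV0
  have hslit : zP σ (J3 n V0) ∈ Complex.slitPlane := by
    rw [hz]
    exact Or.inl (by simpa using hq)
  obtain ⟨hFan, hMan, hlin⟩ := hAn n σ V0 hslit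
  have hc0 : ((2 * (q * Real.sqrt q)⁻¹ : ℝ) : ℂ) ≠ 0 := by
    have : (2 * (q * Real.sqrt q)⁻¹ : ℝ) ≠ 0 := by positivity
    exact_mod_cast this
  obtain ⟨T, hT⟩ := hlin _ hcoef
  obtain ⟨P, L, e, hPfin, he⟩ := hCpt n T _ hc0
  -- the critical point
  have hM0 : MX σ V0 = 0 := by
    funext i
    apply Wien.ext
    intro k
    rw [hFco (MX σ V0 i) k]
    have h0 : (fun x => Wien.evL x (MX σ V0 i)) = fun _ => 0 := by
      funext x
      rw [hM i x, hvel x]
      simp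
    rw [h0]
    simp [fco]
  -- real analytic functions
  have hFre : AnalyticAt ℝ (fun U : WV n => (FX σ U).re) V0 :=
    (Complex.reCLM.analyticAt _).comp (hFan.restrictScalars)
  have hMre : AnalyticAt ℝ (MX σ : WV n → WV n) V0 := hMan.restrictScalars
  have hTre := hT.restrictScalars ℝ
  -- bound of the derivative
  have hbd : ∀ᶠ U in 𝓝 V0, ‖fderiv ℝ (fun U : WV n => (FX σ U).re) U‖ ≤
      (2 * Real.pi * (|σ| + n)) * ‖MX σ U‖ := by
    have hopen : ∀ᶠ U in 𝓝 V0, zP σ (J3 n U) ∈ Complex.slitPlane :=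
      (LS_continuous_zP σ n).continuousAt.eventually
        (Complex.isOpen_slitPlane.mem_nhds hslit)
    filter_upwards [hopen] with U hU
    obtain ⟨D, hD, hDH⟩ := hGrad n σ U hσ hU
    have hre : HasFDerivAt (fun U : WV n => (FX σ U).re)
        (Complex.reCLM.comp (D.restrictScalars ℝ)) U :=
      (Complex.reCLM.hasFDerivAt).comp U (hD.restrictScalars ℝ)
    rw [hre.fderiv]
    refine ContinuousLinearMap.opNorm_le_bound _ (by positivity) fun H => ?_
    have h1 : ‖D H‖ ≤ 2 * Real.pi * ((|σ| + n) * (‖MX σ U‖ * ‖H‖)) := by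
      rw [hDH H, norm_mul, norm_mul]
      have h2 : ‖(2 : ℂ)‖ * ‖(Real.pi : ℂ)‖ = 2 * Real.pi := by
        rw [Complex.norm_real, Real.norm_eq_abs, abs_of_pos Real.pi_pos]; simp
      rw [h2]
      refine mul_le_mul_of_nonneg_left ?_ (by positivity)
      refine (LS_norm_mn_le _).trans ((LS_norm_BW_le σ _ _).trans ?_)
      refine mul_le_mul_of_nonneg_left ?_ (by positivity)
      exact mul_le_mul_of_nonneg_left (LS_norm_DV_le n 0 H) (norm_nonneg _)
    calc ‖(Complex.reCLM.comp (D.restrictScalars ℝ)) H‖ = |(D H).re| := rfl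
      _ ≤ ‖D H‖ := Complex.abs_re_le_norm _
      _ ≤ 2 * Real.pi * ((|σ| + n) * (‖MX σ U‖ * ‖H‖)) := h1
      _ = _ := by ring
  -- finite rank over the reals
  have hPfin' : FiniteDimensional ℝ (LinearMap.range (P.restrictScalars ℝ).toLinearMap) := by
    have := hPfin
    have : FiniteDimensional ℝ (LinearMap.range P.toLinearMap) :=
      FiniteDimensional.trans ℝ ℂ (LinearMap.range P.toLinearMap)
    let g : (LinearMap.range P.toLinearMap) →ₗ[ℝ]
        (LinearMap.range (P.restrictScalars ℝ).toLinearMap) :=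
      { toFun := fun y => ⟨y.1, by
          obtain ⟨x, hx⟩ := y.2
          exact ⟨x, hx⟩⟩
        map_add' := fun _ _ => rfl
        map_smul' := fun _ _ => rfl }
    exact Module.Finite.of_surjective g (fun y => by
      obtain ⟨y, x, hx⟩ := y
      exact ⟨⟨y, x, hx⟩, rfl⟩)
  obtain ⟨θ, hθ, C1, hC1, hev⟩ := hAbs (WV n) (WV n) (fun U => (FX σ U).re) (MX σ) V0
    (P.restrictScalars ℝ) (L.restrictScalars ℝ) (e.restrictScalars ℝ)
    ((((2 * (q * Real.sqrt q)⁻¹ : ℝ) : ℂ) • DV n 4 + T.comp (J3 n)).restrictScalars ℝ)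
    (2 * Real.pi * (|σ| + n)) hFre hMre hTre (by
      ext1 x
      have := congrArg (fun S : WV n →L[ℂ] WV n => S x) he
      exact this) hPfin' hM0 hbd
  -- the exponent
  obtain ⟨m, hm⟩ := exists_nat_gt (1 / (1 - θ))
  have h1θ : 0 < 1 - θ := by linarith [hθ.2]
  have hm0 : (0 : ℝ) < m := lt_trans (by positivity) hm
  have hm1 : 1 ≤ m := by exact_mod_cast Nat.one_le_iff_ne_zero.2 (by
    intro h; rw [h] at hm0; simp at hm0)
  have hs : θ < 1 - 1 / (m : ℝ) := by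
    rw [div_lt_iff₀ h1θ] at hm
    have : 1 / (m : ℝ) < 1 - θ := by
      rw [div_lt_iff₀ hm0]; linarith
    linarith
  set s : ℝ := 1 - 1 / (m : ℝ) with hsdef
  have hs0 : 0 < s := hθ.1.trans hs
  obtain ⟨N, hN⟩ := hInt n m σ hσ hm1
  obtain ⟨C0, hC0⟩ := hClose n
  refine ⟨θ / s, ⟨by have := hθ.1; positivity, by rw [div_lt_one hs0]; exact hs⟩, N, fun K => ?_⟩
  -- neighbourhood
  have hzc : ∀ᶠ U in 𝓝 V0, ‖zP σ (J3 n U) - (q : ℂ)‖ < q / 2 := by
    have h1 : Tendsto (fun U : WV n => ‖zP σ (J3 n U) - (q : ℂ)‖) (𝓝 V0)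
        (𝓝 ‖zP σ (J3 n V0) - (q : ℂ)‖) :=
      (((LS_continuous_zP σ n).sub continuous_const).norm).continuousAt
    rw [hz, sub_self, norm_zero] at h1
    exact h1.eventually (gt_mem_nhds (by positivity))
  obtain ⟨r, hr, hball⟩ := Metric.eventually_nhds_iff.1 (hev.and hzc)
  set K' : ℝ := max K (max (2 * q) (2 / q)) with hK'
  obtain ⟨C2, hC2⟩ := hN K'
  set Cm : ℝ := C1 * max C2 0 + 1 with hCm
  have hCm0 : 0 < Cm := by positivity
  refine ⟨Cm ^ (1 / s), by positivity, (r / (2 * (|C0| + 1))) ^ 2, by positivity, ?_⟩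
  intro u p hu hbdu hclose
  have hdist : dist (toX u) V0 < r := by
    rw [dist_eq_norm]
    refine (hC0 u v _ hu.smooth hu.periodic hv.smooth hv.periodic hclose).trans_lt ?_
    rw [Real.sqrt_sq (by positivity)]
    calc C0 * (r / (2 * (|C0| + 1))) ≤ (|C0| + 1) * (r / (2 * (|C0| + 1))) := by
          refine mul_le_mul_of_nonneg_right ?_ (by positivity)
          linarith [le_abs_self C0]
      _ = r / 2 := by field_simp
      _ < r := by linarith
  obtain ⟨hmain, hzu⟩ := hball hdist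
  obtain ⟨hzu', -, hFu, -⟩ := hVal n σ p u hσ hu
  rw [hzu', ← Complex.ofReal_sub, Complex.norm_real, Real.norm_eq_abs, abs_lt] at hzu
  have hp1 : K'⁻¹ ≤ p := by
    have h1 : 2 / q ≤ K' := (le_max_right _ _).trans (le_max_right _ _)
    calc K'⁻¹ ≤ (2 / q)⁻¹ := inv_anti₀ (by positivity) h1
      _ = q / 2 := by rw [inv_div]
      _ ≤ p := by linarith
  have hp2 : p ≤ K' := by
    have h1 : 2 * q ≤ K' := (le_max_left _ _).trans (le_max_right _ _)
    linarith
  have hI := hC2 u p hu hp1 hp2 (fun j hj x => (hbdu j hj x).trans (le_max_left _ _))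
  have hre : (FX σ (toX u)).re - (FX σ V0).re = en σ p u - en σ q v := by
    rw [hFu, hF, Complex.ofReal_re, Complex.ofReal_re]
  have hmain' : |en σ p u - en σ q v| ^ θ ≤ Cm * Real.sqrt (dis σ p u) ^ s := by
    have h1 : |en σ p u - en σ q v| ^ θ ≤ C1 * ‖MX σ (toX u)‖ := by
      have := hmain
      rw [hre] at this
      exact this
    refine h1.trans ?_
    have hd : 0 ≤ Real.sqrt (dis σ p u) ^ s := by positivity
    calc C1 * ‖MX σ (toX u)‖ ≤ C1 * (C2 * Real.sqrt (dis σ p u) ^ s) :=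
          mul_le_mul_of_nonneg_left hI hC1.le
      _ ≤ C1 * (max C2 0 * Real.sqrt (dis σ p u) ^ s) :=
          mul_le_mul_of_nonneg_left (mul_le_mul_of_nonneg_right (le_max_left _ _) hd) hC1.le
      _ ≤ Cm * Real.sqrt (dis σ p u) ^ s := by rw [hCm]; nlinarith
  calc |en σ p u - en σ q v| ^ (θ / s) = (|en σ p u - en σ q v| ^ θ) ^ (1 / s) := by
        rw [← Real.rpow_mul (abs_nonneg _)]; congr 1; ring
    _ ≤ (Cm * Real.sqrt (dis σ p u) ^ s) ^ (1 / s) :=
        Real.rpow_le_rpow (by positivity) hmain' (by positivity)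
    _ = Cm ^ (1 / s) * Real.sqrt (dis σ p u) := by
        rw [Real.mul_rpow hCm0.le (by positivity), ← Real.rpow_mul (Real.sqrt_nonneg _),
          mul_one_div_cancel hs0.ne', Real.rpow_one]

end Pool.Agent.Work.MP_4a14ce_an

end

section

/-!
# The gradient inequality: monomial case and descent along towers of charts
-/

open Set Topology Filter

namespace Pool.Agent.Work.MP_4a14ce_an

/-- derivative of a monomial times a unit in a coordinate direction -/
lemma lTransfer_deriv {n : ℕ} {f u : (Fin n → ℝ) → ℝ} {a x : Fin n → ℝ} {m : Fin n → ℕ}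
    (hu : DifferentiableAt ℝ u x) (hf : DifferentiableAt ℝ f x)
    (hfu : ∀ᶠ z in 𝓝 x, f z = (∏ i, (z i - a i) ^ m i) * u z) (i : Fin n) :
    (x i - a i) * fderiv ℝ f x (Pi.single i 1) = m i * f x +
      (x i - a i) * (∏ j, (x j - a j) ^ m j) * fderiv ℝ u x (Pi.single i 1) := by
  set e : Fin n → ℝ := Pi.single i 1 with he
  have h1 : HasDerivAt (fun t : ℝ => f (x + t • e)) (fderiv ℝ f x e) 0 :=
    hf.hasFDerivAt.hasLineDerivAt e
  have h2 : HasDerivAt (fun t : ℝ => u (x + t • e)) (fderiv ℝ u x e) 0 :=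
    hu.hasFDerivAt.hasLineDerivAt e
  have hcont : Tendsto (fun t : ℝ => x + t • e) (𝓝 0) (𝓝 x) := by
    have : Continuous (fun t : ℝ => x + t • e) := by fun_prop
    simpa using this.tendsto 0
  set Q : ℝ := ∏ j ∈ Finset.univ.erase i, (x j - a j) ^ m j with hQ
  have hprod : ∀ t : ℝ, ∏ j, ((x + t • e) j - a j) ^ m j = (x i - a i + t) ^ m i * Q := by
    intro t
    rw [← Finset.mul_prod_erase Finset.univ _ (Finset.mem_univ i)]
    congr 1
    · congr 1
      simp [he]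
      ring
    · refine Finset.prod_congr rfl fun j hj => ?_
      have : j ≠ i := Finset.ne_of_mem_erase hj
      simp [he, this]
  have hprod0 : ∏ j, (x j - a j) ^ m j = (x i - a i) ^ m i * Q := by
    have := hprod 0
    simpa using this
  have h3 : HasDerivAt (fun t : ℝ => (x i - a i + t) ^ m i * Q)
      (m i * (x i - a i) ^ (m i - 1) * Q) 0 := by
    have h4 : HasDerivAt (fun t : ℝ => (x i - a i + t) ^ m i)
        (m i * (x i - a i) ^ (m i - 1)) 0 := by
      have := ((hasDerivAt_id (0 : ℝ)).const_add (x i - a i)).fun_pow (m i)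
      simpa using this
    exact h4.mul_const Q
  have h5 := h3.mul h2
  have h6 : (fun t : ℝ => f (x + t • e)) =ᶠ[𝓝 0]
      fun t => ((x i - a i + t) ^ m i * Q) * u (x + t • e) := by
    filter_upwards [hcont.eventually hfu] with t ht
    rw [ht, hprod]
  have h7 := h1.unique (h5.congr_of_eventuallyEq h6)
  rw [h7]
  have hfx : f x = ((x i - a i) ^ m i * Q) * u x := by
    rw [hfu.self_of_nhds, hprod0]
  rw [hfx, hprod0]
  simp only [zero_smul, add_zero]
  rcases Nat.eq_zero_or_pos (m i) with h0 | h0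
  · rw [h0]
    simp
    ring
  · obtain ⟨k, hk⟩ : ∃ k, m i = k + 1 := ⟨m i - 1, by omega⟩
    rw [hk]
    simp only [Nat.add_sub_cancel]
    push_cast
    ring

theorem lMonoLoj : LMonoLoj := by
  intro n f a hf hfa hmono
  obtain ⟨m, u, hu, hua, hfu⟩ := hmono
  -- some exponent is positive
  have hex : ∃ i, 1 ≤ m i := by
    by_contra hcon
    push Not at hcon
    have h0 : ∀ i, m i = 0 := fun i => by have := hcon i; omega
    have := hfu.self_of_nhds
    rw [hfa] at this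
    simp only [h0, pow_zero, Finset.prod_const_one, one_mul] at this
    exact hua this.symm
  set S : Finset (Fin n) := Finset.univ.filter fun i => 1 ≤ m i with hS
  have hSne : S.Nonempty := by
    obtain ⟨i, hi⟩ := hex
    exact ⟨i, by simp [hS, hi]⟩
  set M : ℕ := ∑ i, m i with hM
  have hM1 : 1 ≤ M := by
    obtain ⟨i, hi⟩ := hex
    exact hi.trans (Finset.single_le_sum (f := m) (fun j _ => Nat.zero_le _) (Finset.mem_univ i))
  have hM0 : (0 : ℝ) < M := by exact_mod_cast hM1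
  set c : ℝ := |u a| / 2 with hc
  have hc0 : 0 < c := by rw [hc]; exact half_pos (abs_pos.mpr hua)
  set D : ℝ := ‖fderiv ℝ u a‖ + 1 with hD
  have hD0 : 0 < D := by rw [hD]; positivity
  have hul : ∀ᶠ x in 𝓝 a, c < |u x| := by
    have : Tendsto (fun x => |u x|) (𝓝 a) (𝓝 |u a|) := hu.continuousAt.abs
    exact this.eventually (lt_mem_nhds (by rw [hc]; linarith [abs_pos.mpr hua]))
  have hDl : ∀ᶠ x in 𝓝 a, ‖fderiv ℝ u x‖ < D := by
    have : Tendsto (fun x => ‖fderiv ℝ u x‖) (𝓝 a) (𝓝 ‖fderiv ℝ u a‖) :=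
      hu.fderiv.continuousAt.norm
    exact this.eventually (gt_mem_nhds (by rw [hD]; linarith))
  have hyl : ∀ᶠ x in 𝓝 a, ∀ i, |x i - a i| < min 1 (c / (2 * D)) := by
    rw [eventually_all]
    intro i
    have : Tendsto (fun x : Fin n → ℝ => |x i - a i|) (𝓝 a) (𝓝 |a i - a i|) := by
      have hc : Continuous (fun x : Fin n → ℝ => |x i - a i|) := by fun_prop
      exact hc.tendsto a
    refine this.eventually (gt_mem_nhds ?_)
    rw [sub_self, abs_zero]
    exact lt_min one_pos (by positivity)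
  set s : ℝ := 1 / (2 * M) with hs
  have hs0 : 0 < s := by rw [hs]; positivity
  have hs1 : s < 1 := by
    rw [hs, div_lt_one (by positivity)]
    have : (1 : ℝ) ≤ M := by exact_mod_cast hM1
    linarith
  refine ⟨1 - s, ⟨by linarith, by linarith⟩, 2 * (c ^ s)⁻¹, by positivity, ?_⟩
  filter_upwards [hul, hDl, hyl, hfu, hfu.eventually_nhds, hu.eventually_analyticAt,
    hf.eventually_analyticAt] with x h1 h2 h3 h4 h5 h6 h7
  rw [hfa, sub_zero]
  by_cases hfx : f x = 0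
  · rw [hfx, abs_zero, Real.zero_rpow (by linarith)]
    positivity
  have hr0 : 0 < |f x| := abs_pos.mpr hfx
  obtain ⟨i, hiS, hmin⟩ := S.exists_min_image (fun i => |x i - a i|) hSne
  have hmi : 1 ≤ m i := by simpa [hS] using hiS
  set y : ℝ := |x i - a i| with hy
  have hy1 : y ≤ 1 := ((h3 i).trans_le (min_le_left _ _)).le
  have hyc : y * D ≤ c / 2 := by
    have := ((h3 i).trans_le (min_le_right _ _)).le
    calc y * D ≤ c / (2 * D) * D := mul_le_mul_of_nonneg_right this hD0.le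
      _ = c / 2 := by field_simp
  have hy0 : 0 ≤ y := abs_nonneg _
  set P : ℝ := ∏ j, (x j - a j) ^ m j with hP
  have hfP : |f x| = |P| * |u x| := by rw [h4, abs_mul]
  -- lower bound of the monomial
  have hPl : y ^ M ≤ |P| := by
    rw [hP, Finset.abs_prod, hM, ← Finset.prod_pow_eq_pow_sum]
    refine Finset.prod_le_prod (fun j _ => pow_nonneg hy0 _) fun j _ => ?_
    rw [abs_pow]
    rcases Nat.eq_zero_or_pos (m j) with h0 | h0
    · rw [h0, pow_zero, pow_zero]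
    · exact pow_le_pow_left₀ hy0 (hmin j (by simp [hS]; omega)) _
  have hrl : c * y ^ M ≤ |f x| := by
    rw [hfP]
    calc c * y ^ M = y ^ M * c := by ring
      _ ≤ |P| * |u x| := mul_le_mul hPl h1.le hc0.le (abs_nonneg _)
  -- the derivative
  have hder := lTransfer_deriv h6.differentiableAt h7.differentiableAt h5 i
  have hnorm1 : ‖(Pi.single i 1 : Fin n → ℝ)‖ = 1 := by
    rw [Pi.norm_single, norm_one]
  have hdu : |fderiv ℝ u x (Pi.single i 1)| ≤ D := by
    have := (fderiv ℝ u x).le_opNorm (Pi.single i 1)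
    rw [hnorm1, mul_one, Real.norm_eq_abs] at this
    exact this.trans h2.le
  have hdf : |fderiv ℝ f x (Pi.single i 1)| ≤ ‖fderiv ℝ f x‖ := by
    have := (fderiv ℝ f x).le_opNorm (Pi.single i 1)
    rwa [hnorm1, mul_one, Real.norm_eq_abs] at this
  have hkey : |f x| / 2 ≤ y * ‖fderiv ℝ f x‖ := by
    have e1 : |m i * f x| ≤ |(x i - a i) * fderiv ℝ f x (Pi.single i 1)| +
        |(x i - a i) * P * fderiv ℝ u x (Pi.single i 1)| := by
      have : m i * f x = (x i - a i) * fderiv ℝ f x (Pi.single i 1) -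
        (x i - a i) * P * fderiv ℝ u x (Pi.single i 1) := by linarith
      rw [this]
      exact abs_sub _ _
    have e2 : |f x| ≤ |m i * f x| := by
      rw [abs_mul]
      have : (1 : ℝ) ≤ |(m i : ℝ)| := by
        rw [abs_of_nonneg (Nat.cast_nonneg _)]
        exact_mod_cast hmi
      nlinarith [abs_nonneg (f x)]
    have e3 : |(x i - a i) * P * fderiv ℝ u x (Pi.single i 1)| ≤ |f x| / 2 := by
      rw [abs_mul, abs_mul, ← hy]
      calc y * |P| * |fderiv ℝ u x (Pi.single i 1)| ≤ y * |P| * D :=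
            mul_le_mul_of_nonneg_left hdu (by positivity)
        _ = (y * D) * |P| := by ring
        _ ≤ (c / 2) * |P| := mul_le_mul_of_nonneg_right hyc (abs_nonneg _)
        _ ≤ (|u x| / 2) * |P| := mul_le_mul_of_nonneg_right (by linarith) (abs_nonneg _)
        _ = |f x| / 2 := by rw [hfP]; ring
    have e4 : |(x i - a i) * fderiv ℝ f x (Pi.single i 1)| ≤ y * ‖fderiv ℝ f x‖ := by
      rw [abs_mul, ← hy]
      exact mul_le_mul_of_nonneg_left hdf hy0
    linarith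
  -- conclusion
  have hys : c ^ s * y ≤ |f x| ^ s := by
    have e1 : (c * y ^ M) ^ s ≤ |f x| ^ s := Real.rpow_le_rpow (by positivity) hrl hs0.le
    have e2 : (c * y ^ M) ^ s = c ^ s * y ^ (1 / 2 : ℝ) := by
      rw [Real.mul_rpow hc0.le (by positivity), ← Real.rpow_natCast, ← Real.rpow_mul hy0]
      congr 2
      rw [hs]
      field_simp
    have e3 : y ≤ y ^ (1 / 2 : ℝ) := by
      rcases eq_or_lt_of_le hy0 with h0 | h0
      · rw [← h0, Real.zero_rpow (by norm_num)]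
      · calc y = y ^ (1 : ℝ) := (Real.rpow_one y).symm
          _ ≤ y ^ (1 / 2 : ℝ) := Real.rpow_le_rpow_of_exponent_ge h0 hy1 (by norm_num)
    calc c ^ s * y ≤ c ^ s * y ^ (1 / 2 : ℝ) := mul_le_mul_of_nonneg_left e3 (by positivity)
      _ = (c * y ^ M) ^ s := e2.symm
      _ ≤ _ := e1
  have hcs : 0 < c ^ s := Real.rpow_pos_of_pos hc0 s
  have hfs : 0 < |f x| ^ s := Real.rpow_pos_of_pos hr0 s
  have e5 : |f x| ^ (1 - s) = |f x| / |f x| ^ s := by
    rw [Real.rpow_sub hr0, Real.rpow_one]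
  rw [e5, div_le_iff₀ hfs]
  have hF : 0 ≤ ‖fderiv ℝ f x‖ := norm_nonneg _
  calc |f x| = 2 * (|f x| / 2) := by ring
    _ ≤ 2 * (y * ‖fderiv ℝ f x‖) := by linarith
    _ = 2 * (c ^ s)⁻¹ * ‖fderiv ℝ f x‖ * (c ^ s * y) := by field_simp
    _ ≤ 2 * (c ^ s)⁻¹ * ‖fderiv ℝ f x‖ * |f x| ^ s :=
        mul_le_mul_of_nonneg_left hys (by positivity)

/-- the gradient inequality near `a`, on the set `S` -/
def lTransferR {E : Type} [NormedAddCommGroup E] [NormedSpace ℝ E] (f : E → ℝ) (a : E)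
    (S : Set E) : Prop :=
  ∃ θ ∈ Ioo (0 : ℝ) 1, ∃ C > 0, ∀ᶠ z in 𝓝 a, z ∈ S → |f z| ^ θ ≤ C * ‖fderiv ℝ f z‖

lemma lTransfer_union {E : Type} [NormedAddCommGroup E] [NormedSpace ℝ E] {f : E → ℝ} {a : E}
    (hf : ContinuousAt f a) (hfa : f a = 0) {S T : Set E} (hS : lTransferR f a S)
    (hT : lTransferR f a T) : lTransferR f a (S ∪ T) := by
  obtain ⟨θ1, h1, C1, hC1, hS⟩ := hS
  obtain ⟨θ2, h2, C2, hC2, hT⟩ := hT
  have hsmall : ∀ᶠ z in 𝓝 a, |f z| < 1 := by
    have : Tendsto (fun x => |f x|) (𝓝 a) (𝓝 |f a|) := hf.abs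
    exact this.eventually (gt_mem_nhds (by rw [hfa, abs_zero]; exact one_pos))
  have hmono : ∀ (θ θ' C C' : ℝ) (z : E), 0 < θ → θ ≤ θ' → C ≤ C' → |f z| < 1 →
      |f z| ^ θ ≤ C * ‖fderiv ℝ f z‖ → |f z| ^ θ' ≤ C' * ‖fderiv ℝ f z‖ := by
    intro θ θ' C C' z hθ hθ' hC hz h
    have e1 : |f z| ^ θ' ≤ |f z| ^ θ := by
      rcases eq_or_lt_of_le (abs_nonneg (f z)) with h0 | h0
      · rw [← h0, Real.zero_rpow hθ.ne', Real.zero_rpow (hθ.trans_le hθ').ne']
      · exact Real.rpow_le_rpow_of_exponent_ge h0 hz.le hθ'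
    exact e1.trans (h.trans (mul_le_mul_of_nonneg_right hC (norm_nonneg _)))
  refine ⟨max θ1 θ2, ⟨lt_max_of_lt_left h1.1, max_lt h1.2 h2.2⟩, max C1 C2,
    lt_max_of_lt_left hC1, ?_⟩
  filter_upwards [hS, hT, hsmall] with z hz1 hz2 hz3 hz
  rcases hz with hz | hz
  · exact hmono θ1 _ C1 _ z h1.1 (le_max_left _ _) (le_max_left _ _) hz3 (hz1 hz)
  · exact hmono θ2 _ C2 _ z h2.1 (le_max_right _ _) (le_max_right _ _) hz3 (hz2 hz)

lemma lTransfer_empty {E : Type} [NormedAddCommGroup E] [NormedSpace ℝ E] (f : E → ℝ) (a : E) :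
    lTransferR f a ∅ :=
  ⟨1 / 2, ⟨by norm_num, by norm_num⟩, 1, one_pos, Eventually.of_forall fun _ h => h.elim⟩

lemma lTransfer_chart {n : ℕ} {f : (Fin n → ℝ) → ℝ} {a : Fin n → ℝ} (hf : AnalyticAt ℝ f a)
    (hfa : f a = 0) {φ : (Fin n → ℝ) → (Fin n → ℝ)} {K : Set (Fin n → ℝ)} (hK : IsCompact K)
    (hφ : ∀ x ∈ K, AnalyticAt ℝ φ x)
    (hL : ∀ x ∈ K, φ x = a → Loj (fun y => f (φ y)) x) : lTransferR f a (φ '' K) := by
  refine hK.induction_on (p := fun S => lTransferR f a (φ '' S)) ?_ ?_ ?_ ?_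
  · rw [image_empty]
    exact lTransfer_empty f a
  · rintro S T hST ⟨θ, hθ, C, hC, h⟩
    exact ⟨θ, hθ, C, hC, h.mono fun z hz hzS => hz (image_mono hST hzS)⟩
  · intro S T hS hT
    show lTransferR f a (φ '' (S ∪ T))
    rw [image_union]
    exact lTransfer_union hf.continuousAt hfa hS hT
  · intro x hx
    by_cases hxa : φ x = a
    · obtain ⟨θ, hθ, C, hC, h⟩ := hL x hx hxa
      have hφx := hφ x hx
      set D : ℝ := ‖fderiv ℝ φ x‖ + 1 with hD
      have hD0 : 0 < D := by rw [hD]; positivity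
      have hDl : ∀ᶠ y in 𝓝 x, ‖fderiv ℝ φ y‖ < D := by
        have : Tendsto (fun y => ‖fderiv ℝ φ y‖) (𝓝 x) (𝓝 ‖fderiv ℝ φ x‖) :=
          hφx.fderiv.continuousAt.norm
        exact this.eventually (gt_mem_nhds (by rw [hD]; linarith))
      have hfy : ∀ᶠ y in 𝓝 x, AnalyticAt ℝ f (φ y) := by
        have h1 : Tendsto φ (𝓝 x) (𝓝 a) := by
          rw [← hxa]
          exact hφx.continuousAt
        exact h1.eventually hf.eventually_analyticAt
      have hgood : ∀ᶠ y in 𝓝 x, |f (φ y)| ^ θ ≤ C * D * ‖fderiv ℝ f (φ y)‖ := by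
        filter_upwards [h, hDl, hfy, hφx.eventually_analyticAt] with y h1 h2 h3 h4
        simp only [hxa, hfa, sub_zero] at h1
        have h5 : fderiv ℝ (fun y => f (φ y)) y = (fderiv ℝ f (φ y)).comp (fderiv ℝ φ y) :=
          fderiv_comp y h3.differentiableAt h4.differentiableAt
        rw [h5] at h1
        have h6 := (fderiv ℝ f (φ y)).opNorm_comp_le (fderiv ℝ φ y)
        calc |f (φ y)| ^ θ ≤ C * ‖(fderiv ℝ f (φ y)).comp (fderiv ℝ φ y)‖ := h1
          _ ≤ C * (‖fderiv ℝ f (φ y)‖ * ‖fderiv ℝ φ y‖) :=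
              mul_le_mul_of_nonneg_left h6 hC.le
          _ ≤ C * (‖fderiv ℝ f (φ y)‖ * D) :=
              mul_le_mul_of_nonneg_left (mul_le_mul_of_nonneg_left h2.le (norm_nonneg _)) hC.le
          _ = C * D * ‖fderiv ℝ f (φ y)‖ := by ring
      refine ⟨{y | |f (φ y)| ^ θ ≤ C * D * ‖fderiv ℝ f (φ y)‖},
        mem_nhdsWithin_of_mem_nhds hgood, θ, hθ, C * D, mul_pos hC hD0,
        Eventually.of_forall fun z hz => ?_⟩
      obtain ⟨y, hy, rfl⟩ := hz
      exact hy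
    · obtain ⟨U, V', hU, hV, hxU, haV, hUV⟩ := t2_separation hxa
      have hcont : Tendsto φ (𝓝 x) (𝓝 (φ x)) := (hφ x hx).continuousAt
      refine ⟨φ ⁻¹' U, mem_nhdsWithin_of_mem_nhds (hcont (hU.mem_nhds hxU)), 1 / 2,
        ⟨by norm_num, by norm_num⟩, 1, one_pos, ?_⟩
      filter_upwards [hV.mem_nhds haV] with z hz hzU
      obtain ⟨y, hy, rfl⟩ := hzU
      exact absurd hz (disjoint_left.mp hUV hy)

theorem lTransfer : LTransfer := by
  intro n f a hf hfa hres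
  induction hres with
  | base f a h => exact lMonoLoj n f a hf hfa h
  | tower f a N φ K hK hφ hcover hsub ih =>
    have h1 : ∀ i, lTransferR f a (φ i '' K i) := by
      intro i
      refine lTransfer_chart hf hfa (hK i) (hφ i) fun x hx hxa => ?_
      refine ih i x hx hxa ?_ ?_
      · have : AnalyticAt ℝ f (φ i x) := by rw [hxa]; exact hf
        exact this.comp (hφ i x hx)
      · show f (φ i x) = 0
        rw [hxa, hfa]
    have h2 : ∀ s : Finset (Fin N), lTransferR f a (⋃ i ∈ s, φ i '' K i) := by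
      intro s
      induction s using Finset.induction_on with
      | empty => simpa using lTransfer_empty f a
      | insert i s _ ihs =>
        rw [Finset.set_biUnion_insert]
        exact lTransfer_union hf.continuousAt hfa (h1 i) ihs
    obtain ⟨θ, hθ, C, hC, h3⟩ := h2 Finset.univ
    refine ⟨θ, hθ, C, hC, ?_⟩
    filter_upwards [h3, hcover] with z hz hzc
    rw [hfa, sub_zero]
    exact hz (by simpa using hzc)

end Pool.Agent.Work.MP_4a14ce_an

end

section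

/-!
# Constant speed reparametrisation of a smooth family of closed curves on a general interval
-/

open Set MeasureTheory Topology Filter
open scoped ContDiff

namespace Pool.Agent.Work.MP_4a14ce_an

namespace ArcI

lemma two_pi_pos : 0 < 2 * Real.pi := by positivity

lemma uS {I : Set ℝ} (hU : UniqueDiffOn ℝ I) : UniqueDiffOn ℝ (I ×ˢ (univ : Set ℝ)) :=
  UniqueDiffOn.prod hU uniqueDiffOn_univ

section

variable {E : Type*} [NormedAddCommGroup E] [NormedSpace ℝ E] {u : ℝ → ℝ → E} {I : Set ℝ}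

lemma slice (hu : JS I u) {t : ℝ} (ht : t ∈ I) : ContDiff ℝ ∞ (u t) :=
  ContDiffOn.comp_contDiff (g := fun z : ℝ × ℝ => u z.1 z.2) (f := fun x => (t, x)) hu
    (by fun_prop) (fun x => ⟨ht, mem_univ _⟩)

/-- the joint derivative -/
noncomputable def FD (I : Set ℝ) (u : ℝ → ℝ → E) (z : ℝ × ℝ) : ℝ × ℝ →L[ℝ] E :=
  fderivWithin ℝ (fun z : ℝ × ℝ => u z.1 z.2) (I ×ˢ univ) z

lemma hasF (hu : JS I u) {z : ℝ × ℝ} (hz : z.1 ∈ I) :
    HasFDerivWithinAt (fun z : ℝ × ℝ => u z.1 z.2) (FD I u z) (I ×ˢ univ) z :=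
  ((hu z ⟨hz, mem_univ _⟩).differentiableWithinAt (by simp)).hasFDerivWithinAt

lemma hasDx (hu : JS I u) {t : ℝ} (ht : t ∈ I) (x : ℝ) :
    HasDerivAt (u t) (FD I u (t, x) (0, 1)) x := by
  have h1 := hasF hu (z := (t, x)) ht
  have h2 : HasDerivAt (fun y : ℝ => ((t, y) : ℝ × ℝ)) (0, 1) x :=
    (hasDerivAt_const x t).prodMk (hasDerivAt_id x)
  have hst : MapsTo (fun y : ℝ => ((t, y) : ℝ × ℝ)) univ (I ×ˢ univ) :=
    fun y _ => ⟨ht, mem_univ _⟩
  have h3 := h1.comp_hasDerivWithinAt x (h2.hasDerivWithinAt (s := univ)) hst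
  exact hasDerivWithinAt_univ.mp h3

lemma hasDt (hu : JS I u) {t : ℝ} (ht : t ∈ I) (x : ℝ) :
    HasDerivWithinAt (fun s => u s x) (FD I u (t, x) (1, 0)) I t := by
  have h1 := hasF hu (z := (t, x)) ht
  have h2 : HasDerivWithinAt (fun y : ℝ => ((y, x) : ℝ × ℝ)) (1, 0) I t :=
    (hasDerivWithinAt_id t _).prodMk (hasDerivWithinAt_const t _ x)
  have hst : MapsTo (fun y : ℝ => ((y, x) : ℝ × ℝ)) I (I ×ˢ univ) :=
    fun y hy => ⟨hy, mem_univ _⟩
  exact h1.comp_hasDerivWithinAt t h2 hst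

lemma FD_smooth (hU : UniqueDiffOn ℝ I) (hu : JS I u) : ContDiffOn ℝ ∞ (FD I u) (I ×ˢ univ) :=
  ContDiffOn.fderivWithin hu (uS hU) (by simp)

lemma JSt (hU : UniqueDiffOn ℝ I) (hu : JS I u) : JS I (fun t x => FD I u (t, x) (1, 0)) :=
  (FD_smooth hU hu).clm_apply contDiffOn_const

lemma JSx (hU : UniqueDiffOn ℝ I) (hu : JS I u) : JS I (fun t => deriv (u t)) := by
  have h : ContDiffOn ℝ ∞ (fun z : ℝ × ℝ => FD I u z (0, 1)) (I ×ˢ univ) :=
    (FD_smooth hU hu).clm_apply contDiffOn_const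
  refine h.congr fun z hz => ?_
  exact (hasDx hu hz.1 z.2).deriv

end

/-- smooth inverse of a smooth family of reparametrisations -/
lemma inv_JS {I : Set ℝ} (hU : UniqueDiffOn ℝ I) {Y : ℝ → ℝ → ℝ} (hY : JS I Y)
    (hR : ∀ t ∈ I, IsReparam (Y t)) :
    ∃ X : ℝ → ℝ → ℝ, JS I X ∧ ∀ t ∈ I, IsReparam (X t) ∧
      (∀ x, X t (Y t x) = x ∧ Y t (X t x) = x) ∧
      ∀ y, HasDerivAt (X t) (deriv (Y t) (X t y))⁻¹ y := by
  have hmono : ∀ t ∈ I, StrictMono (Y t) := fun t ht =>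
    strictMono_of_deriv_pos (hR t ht).deriv_pos
  have hcont : ∀ t ∈ I, Continuous (Y t) := fun t ht => (hR t ht).smooth.continuous
  have hshift : ∀ t ∈ I, ∀ (k : ℕ) (x : ℝ),
      Y t (x + k * (2 * Real.pi)) = Y t x + k * (2 * Real.pi) := by
    intro t ht k
    induction k with
    | zero => intro x; simp
    | succ k ih =>
      intro x
      have e : x + ((k + 1 : ℕ) : ℝ) * (2 * Real.pi) =
          (x + k * (2 * Real.pi)) + 2 * Real.pi := by
        push_cast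
        ring
      rw [e, (hR t ht).shift, ih]
      push_cast
      ring
  have hshift' : ∀ t ∈ I, ∀ (k : ℕ) (x : ℝ),
      Y t (x - k * (2 * Real.pi)) = Y t x - k * (2 * Real.pi) := by
    intro t ht k x
    have := hshift t ht k (x - k * (2 * Real.pi))
    rw [sub_add_cancel] at this
    linarith
  have hsurj : ∀ t ∈ I, Function.Surjective (Y t) := by
    intro t ht y
    have hp := two_pi_pos
    obtain ⟨k, hk⟩ := exists_nat_gt (|y - Y t 0| / (2 * Real.pi))
    rw [div_lt_iff₀ hp] at hk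
    have h1 := hshift t ht k 0
    have h2 := hshift' t ht k 0
    have h3 := abs_lt.mp hk
    have h4 : y ∈ Icc (Y t (0 - k * (2 * Real.pi))) (Y t (0 + k * (2 * Real.pi))) := by
      rw [h1, h2]
      constructor <;> linarith [h3.1, h3.2]
    have h5 : (0 : ℝ) - k * (2 * Real.pi) ≤ 0 + k * (2 * Real.pi) := by
      have : 0 ≤ (k : ℝ) * (2 * Real.pi) := by positivity
      linarith
    obtain ⟨x, -, hx⟩ := intermediate_value_Icc h5 (hcont t ht).continuousOn h4
    exact ⟨x, hx⟩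
  set X : ℝ → ℝ → ℝ := fun t => Function.invFun (Y t) with hXdef
  have hYX : ∀ t ∈ I, ∀ y, Y t (X t y) = y := fun t ht y =>
    Function.invFun_eq (hsurj t ht y)
  have hXY : ∀ t ∈ I, ∀ x, X t (Y t x) = x := fun t ht x =>
    Function.leftInverse_invFun (hmono t ht).injective x
  -- joint continuity
  have hXc : ContinuousOn (fun z : ℝ × ℝ => X z.1 z.2) (I ×ˢ univ) := by
    rintro ⟨t, y⟩ ⟨ht, -⟩
    have ht' : t ∈ I := ht
    rw [ContinuousWithinAt, Metric.tendsto_nhds]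
    intro ε hε
    have h1 : Y t (X t y - ε) < y := by
      conv_rhs => rw [← hYX t ht' y]
      exact hmono t ht' (by linarith)
    have h2 : y < Y t (X t y + ε) := by
      conv_lhs => rw [← hYX t ht' y]
      exact hmono t ht' (by linarith)
    have hc1 : ContinuousWithinAt (fun z : ℝ × ℝ => Y z.1 (X t y - ε) - z.2) (I ×ˢ univ)
        (t, y) := by
      have h3 : ContinuousWithinAt (fun z : ℝ × ℝ => Y z.1 z.2) (I ×ˢ univ)
          (t, X t y - ε) := hY.continuousOn (t, X t y - ε) ⟨ht', mem_univ _⟩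
      have h4 : ContinuousWithinAt (fun z : ℝ × ℝ => ((z.1, X t y - ε) : ℝ × ℝ))
          (I ×ˢ univ) (t, y) := by fun_prop
      have hst : MapsTo (fun z : ℝ × ℝ => ((z.1, X t y - ε) : ℝ × ℝ)) (I ×ˢ univ)
          (I ×ˢ univ) := fun z hz => ⟨hz.1, mem_univ _⟩
      have h5 : ContinuousWithinAt (fun z : ℝ × ℝ => Y z.1 (X t y - ε)) (I ×ˢ univ)
          (t, y) := ContinuousWithinAt.comp (g := fun z : ℝ × ℝ => Y z.1 z.2)
            (f := fun z : ℝ × ℝ => ((z.1, X t y - ε) : ℝ × ℝ)) (x := (t, y)) h3 h4 hst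
      exact h5.sub (by fun_prop)
    have hc2 : ContinuousWithinAt (fun z : ℝ × ℝ => Y z.1 (X t y + ε) - z.2) (I ×ˢ univ)
        (t, y) := by
      have h3 : ContinuousWithinAt (fun z : ℝ × ℝ => Y z.1 z.2) (I ×ˢ univ)
          (t, X t y + ε) := hY.continuousOn (t, X t y + ε) ⟨ht', mem_univ _⟩
      have h4 : ContinuousWithinAt (fun z : ℝ × ℝ => ((z.1, X t y + ε) : ℝ × ℝ))
          (I ×ˢ univ) (t, y) := by fun_prop
      have hst : MapsTo (fun z : ℝ × ℝ => ((z.1, X t y + ε) : ℝ × ℝ)) (I ×ˢ univ)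
          (I ×ˢ univ) := fun z hz => ⟨hz.1, mem_univ _⟩
      have h5 : ContinuousWithinAt (fun z : ℝ × ℝ => Y z.1 (X t y + ε)) (I ×ˢ univ)
          (t, y) := ContinuousWithinAt.comp (g := fun z : ℝ × ℝ => Y z.1 z.2)
            (f := fun z : ℝ × ℝ => ((z.1, X t y + ε) : ℝ × ℝ)) (x := (t, y)) h3 h4 hst
      exact h5.sub (by fun_prop)
    have e1 := hc1.eventually_lt (g := fun _ => (0 : ℝ)) continuousWithinAt_const
      (by simpa using h1)
    have e2 := (continuousWithinAt_const (b := (0 : ℝ))).eventually_lt hc2 (by simpa using h2)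
    filter_upwards [e1, e2, self_mem_nhdsWithin] with z hz1 hz2 hz3
    have hzt : z.1 ∈ I := hz3.1
    have h5 : X t y - ε < X z.1 z.2 := by
      rw [← (hmono z.1 hzt).lt_iff_lt, hYX z.1 hzt]
      linarith
    have h6 : X z.1 z.2 < X t y + ε := by
      rw [← (hmono z.1 hzt).lt_iff_lt, hYX z.1 hzt]
      linarith
    rw [Real.dist_eq, abs_lt]
    exact ⟨by linarith, by linarith⟩
  -- the derivative
  have hyx : ∀ z : ℝ × ℝ, z.1 ∈ I → 0 < FD I Y z (0, 1) := by
    intro z hz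
    have h1 := (hasDx hY hz z.2).deriv
    have h2 := (hR z.1 hz).deriv_pos z.2
    rw [h1] at h2
    exact h2
  have hXd : ∀ z : ℝ × ℝ, z ∈ I ×ˢ (univ : Set ℝ) →
      HasFDerivWithinAt (fun z : ℝ × ℝ => X z.1 z.2)
        ((-(FD I Y (z.1, X z.1 z.2) (1, 0) / FD I Y (z.1, X z.1 z.2) (0, 1))) •
            ContinuousLinearMap.fst ℝ ℝ ℝ +
          (FD I Y (z.1, X z.1 z.2) (0, 1))⁻¹ • ContinuousLinearMap.snd ℝ ℝ ℝ)
        (I ×ˢ univ) z := by
    rintro ⟨t, y⟩ ⟨ht, -⟩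
    have ht' : t ∈ I := ht
    set a := FD I Y (t, X t y) (1, 0) with ha
    set b := FD I Y (t, X t y) (0, 1) with hb
    have hb0 : b ≠ 0 := (hyx (t, X t y) ht').ne'
    have hD : FD I Y (t, X t y) = a • ContinuousLinearMap.fst ℝ ℝ ℝ +
        b • ContinuousLinearMap.snd ℝ ℝ ℝ := by
      ext
      · simp [ha]
      · simp [hb]
    set A : ℝ × ℝ →L[ℝ] ℝ × ℝ := (ContinuousLinearMap.fst ℝ ℝ ℝ).prod
      (a • ContinuousLinearMap.fst ℝ ℝ ℝ + b • ContinuousLinearMap.snd ℝ ℝ ℝ) with hA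
    set A' : ℝ × ℝ →L[ℝ] ℝ × ℝ := (ContinuousLinearMap.fst ℝ ℝ ℝ).prod
      ((-(a / b)) • ContinuousLinearMap.fst ℝ ℝ ℝ + b⁻¹ • ContinuousLinearMap.snd ℝ ℝ ℝ) with hA'
    have hl : Function.LeftInverse A' A := by
      rintro ⟨v, w⟩
      simp only [hA, hA', ContinuousLinearMap.prod_apply, ContinuousLinearMap.coe_fst',
        add_apply, smul_apply,
        ContinuousLinearMap.coe_snd', smul_eq_mul, Prod.mk.injEq, true_and]
      field_simp
      ring
    have hr : Function.RightInverse A' A := by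
      rintro ⟨v, w⟩
      simp only [hA, hA', ContinuousLinearMap.prod_apply, ContinuousLinearMap.coe_fst',
        add_apply, smul_apply,
        ContinuousLinearMap.coe_snd', smul_eq_mul, Prod.mk.injEq, true_and]
      field_simp
      ring
    set Aeq : (ℝ × ℝ) ≃L[ℝ] (ℝ × ℝ) := ContinuousLinearEquiv.equivOfInverse A A' hl hr with hAeq
    have hYf : HasFDerivWithinAt (fun z : ℝ × ℝ => (z.1, Y z.1 z.2)) (Aeq : ℝ × ℝ →L[ℝ] ℝ × ℝ)
        (I ×ˢ univ) (t, X t y) := by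
      have h1 := hasF hY (z := (t, X t y)) ht'
      rw [hD] at h1
      exact hasFDerivWithinAt_fst.prodMk h1
    have htend : Tendsto (fun z : ℝ × ℝ => (z.1, X z.1 z.2)) (𝓝[I ×ˢ univ] (t, y))
        (𝓝[I ×ˢ univ] (t, X t y)) := by
      refine tendsto_nhdsWithin_of_tendsto_nhds_of_eventually_within _ ?_ ?_
      · have h1 : ContinuousWithinAt (fun z : ℝ × ℝ => (z.1, X z.1 z.2)) (I ×ˢ univ)
            (t, y) := continuousWithinAt_fst.prodMk (hXc (t, y) ⟨ht', mem_univ _⟩)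
        exact h1
      · filter_upwards [self_mem_nhdsWithin] with z hz
        exact ⟨hz.1, mem_univ _⟩
    have hΨ := HasFDerivWithinAt.of_local_left_inverse
      (g := fun z : ℝ × ℝ => (z.1, X z.1 z.2)) (f := fun z : ℝ × ℝ => (z.1, Y z.1 z.2))
      (s := I ×ˢ univ) (t := I ×ˢ univ) (a := (t, y)) htend hYf ⟨ht', mem_univ _⟩
      (by
        filter_upwards [self_mem_nhdsWithin] with z hz
        show (z.1, Y z.1 (X z.1 z.2)) = z
        rw [hYX z.1 hz.1])
    have h2 := hasFDerivAt_snd (𝕜 := ℝ) (p := ((t, X t y) : ℝ × ℝ))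
    have h3 := h2.comp_hasFDerivWithinAt (t, y) hΨ
    refine h3.congr_fderiv ?_
    have e : ((Aeq.symm : (ℝ × ℝ) ≃L[ℝ] (ℝ × ℝ)) : ℝ × ℝ →L[ℝ] ℝ × ℝ) = A' := rfl
    rw [e, hA']
    ext <;> simp
  -- smoothness
  have hXs : JS I X := by
    have hk : ∀ k : ℕ, ContDiffOn ℝ k (fun z : ℝ × ℝ => X z.1 z.2) (I ×ˢ univ) := by
      intro k
      induction k with
      | zero => exact contDiffOn_zero.mpr hXc
      | succ k ih =>
        have hΨ : ContDiffOn ℝ k (fun z : ℝ × ℝ => ((z.1, X z.1 z.2) : ℝ × ℝ))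
            (I ×ˢ univ) := contDiffOn_fst.prodMk ih
        have hD : ContDiffOn ℝ k (fun z : ℝ × ℝ => FD I Y (z.1, X z.1 z.2)) (I ×ˢ univ) :=
          ContDiffOn.comp (g := FD I Y) ((FD_smooth hU hY).of_le (by exact_mod_cast le_top)) hΨ
            (fun z hz => ⟨hz.1, mem_univ _⟩)
        have hD1 : ContDiffOn ℝ k (fun z : ℝ × ℝ => FD I Y (z.1, X z.1 z.2) (1, 0))
            (I ×ˢ univ) := hD.clm_apply contDiffOn_const
        have hD2 : ContDiffOn ℝ k (fun z : ℝ × ℝ => FD I Y (z.1, X z.1 z.2) (0, 1))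
            (I ×ˢ univ) := hD.clm_apply contDiffOn_const
        have hne : ∀ z ∈ I ×ˢ (univ : Set ℝ), FD I Y (z.1, X z.1 z.2) (0, 1) ≠ 0 :=
          fun z hz => (hyx (z.1, X z.1 z.2) hz.1).ne'
        push_cast
        rw [contDiffOn_succ_iff_hasFDerivWithinAt_of_uniqueDiffOn (uS hU)]
        refine ⟨by simp, _, ?_, hXd⟩
        exact ((hD1.div hD2 hne).neg.smul contDiffOn_const).add
          ((hD2.inv hne).smul contDiffOn_const)
    exact contDiffOn_infty.mpr hk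
  refine ⟨X, hXs, fun t ht => ?_⟩
  have hder : ∀ y, HasDerivAt (X t) (deriv (Y t) (X t y))⁻¹ y := by
    intro y
    have h1 : HasDerivAt (Y t) (deriv (Y t) (X t y)) (X t y) :=
      ((hR t ht).smooth.differentiable (by simp) _).hasDerivAt
    exact HasDerivAt.of_local_left_inverse ((slice hXs ht).continuous.continuousAt) h1
      ((hR t ht).deriv_pos _).ne' (Eventually.of_forall (hYX t ht))
  refine ⟨⟨slice hXs ht, fun y => ?_, fun y => ?_⟩, fun x => ⟨hXY t ht x, hYX t ht x⟩, hder⟩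
  · apply (hmono t ht).injective
    rw [hYX t ht, (hR t ht).shift, hYX t ht]
  · rw [(hder y).deriv]
    exact inv_pos.mpr ((hR t ht).deriv_pos _)

lemma B_smooth {n : ℕ} (σ : ℝ) {f g : ℝ × ℝ → V n} {s : Set (ℝ × ℝ)}
    (hf : ContDiffOn ℝ ∞ f s) (hg : ContDiffOn ℝ ∞ g s) :
    ContDiffOn ℝ ∞ (fun z => B σ (f z) (g z)) s := by
  unfold B
  have hf' := contDiffOn_pi.mp hf
  have hg' := contDiffOn_pi.mp hg
  exact (contDiffOn_const.mul ((hf' 0).mul (hg' 0))).add
    (ContDiffOn.sum fun i _ => (hf' i.succ).mul (hg' i.succ))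

lemma B_pos (hB : BRules) (hT : ClaimTan) {n : ℕ} {σ : ℝ} (hσ : Sgn σ) {γ : ℝ → V n}
    (h : IsClosedCurve σ γ) (x : ℝ) : 0 < B σ (deriv γ x) (deriv γ x) := by
  obtain ⟨hsym, -, -, hder, -⟩ := hB n σ
  have h1 : HasDerivAt γ (deriv γ x) x := (h.smooth.differentiable (by simp) x).hasDerivAt
  have h2 : HasDerivAt (fun y => B σ (γ y) (γ y))
      (B σ (deriv γ x) (γ x) + B σ (γ x) (deriv γ x)) x := by
    have := hder γ γ (deriv γ) (deriv γ) univ x h1.hasDerivWithinAt h1.hasDerivWithinAt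
    exact hasDerivWithinAt_univ.mp this
  have h3 : (fun y => B σ (γ y) (γ y)) = fun _ => σ := funext fun y => (h.mem y).1
  rw [h3] at h2
  have h4 := h2.unique (hasDerivAt_const x σ)
  rw [hsym (γ x) (deriv γ x)] at h4
  have h5 : B σ (deriv γ x) (γ x) = 0 := by linarith
  obtain ⟨-, C, hC, hK⟩ := hT n σ (nsq (γ x)) hσ
  have h6 := hK (γ x) (h.mem x) le_rfl (deriv γ x) h5
  have h7 : 0 < nsq (deriv γ x) := by
    obtain ⟨i, hi⟩ : ∃ i, deriv γ x i ≠ 0 := by
      by_contra hcon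
      push Not at hcon
      exact h.regular x (funext hcon)
    unfold nsq
    exact Finset.sum_pos' (fun j _ => sq_nonneg _) ⟨i, Finset.mem_univ _, by positivity⟩
  by_contra hcon
  push Not at hcon
  nlinarith

end ArcI

open ArcI

theorem claimArcI (hI : JSInt0x) (hP : JSPer) (hB : BRules) (hT : ClaimTan) : ClaimArcI := by
  intro n σ I γ hσ hitv hU hγ hcl
  have hp := two_pi_pos
  -- the speed
  set s : ℝ → ℝ → ℝ := fun t x => vnorm σ (deriv (γ t) x) with hsdef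
  have hBpos : ∀ t ∈ I, ∀ x, 0 < B σ (deriv (γ t) x) (deriv (γ t) x) :=
    fun t ht x => B_pos hB hT hσ (hcl t ht) x
  have hspos : ∀ t ∈ I, ∀ x, 0 < s t x := fun t ht x => Real.sqrt_pos.mpr (hBpos t ht x)
  have hs : JS I s := by
    have h1 := JSx hU hγ
    have h2 := B_smooth σ h1 h1
    exact ContDiffOn.sqrt h2 fun z hz => (hBpos z.1 hz.1 z.2).ne'
  have hsc : ∀ t ∈ I, Continuous (s t) := fun t ht => (slice hs ht).continuous
  have hsp : ∀ t ∈ I, Function.Periodic (s t) (2 * Real.pi) := by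
    intro t ht x
    have h1 : deriv (γ t) (x + 2 * Real.pi) = deriv (γ t) x := by
      have h2 : (fun y => γ t (y + 2 * Real.pi)) = γ t := funext (hcl t ht).periodic
      have h3 := deriv_comp_add_const (γ t) (2 * Real.pi) x
      rw [h2] at h3
      exact h3.symm
    show vnorm σ (deriv (γ t) (x + 2 * Real.pi)) = vnorm σ (deriv (γ t) x)
    rw [h1]
  -- the length
  set L : ℝ → ℝ := fun t => per (s t) with hL
  have hLs : ContDiffOn ℝ ∞ L I :=
    (hP I s _ hitv hs (JSt hU hs) fun t ht x => hasDt hs ht x).1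
  have hLpos : ∀ t ∈ I, 0 < L t := fun t ht =>
    intervalIntegral.intervalIntegral_pos_of_pos ((hsc t ht).intervalIntegrable _ _)
      (hspos t ht) hp
  -- the arclength
  have hprim : JS I (fun t x => ∫ y in (0 : ℝ)..x, s t y) := hI I s hitv hs
  have hYe : ∀ t x, arcY σ (γ t) x = 2 * Real.pi / L t * ∫ y in (0 : ℝ)..x, s t y :=
    fun t x => rfl
  have hY : JS I (fun t => arcY σ (γ t)) := by
    have h1 : ContDiffOn ℝ ∞ (fun z : ℝ × ℝ => 2 * Real.pi / L z.1) (I ×ˢ univ) := by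
      refine contDiffOn_const.div ?_ fun z hz => (hLpos z.1 hz.1).ne'
      exact ContDiffOn.comp (g := L) hLs contDiffOn_fst fun z hz => hz.1
    exact h1.mul hprim
  have hYd : ∀ t ∈ I, ∀ x,
      HasDerivAt (arcY σ (γ t)) (2 * Real.pi / L t * s t x) x := by
    intro t ht x
    have h1 := (intervalIntegral.integral_hasDerivAt_right
      ((hsc t ht).intervalIntegrable 0 x)
      ((hsc t ht).stronglyMeasurableAtFilter _ _) (hsc t ht).continuousAt)
    exact h1.const_mul (2 * Real.pi / L t)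
  have hYR : ∀ t ∈ I, IsReparam (arcY σ (γ t)) := by
    intro t ht
    refine ⟨slice hY ht, fun x => ?_, fun x => ?_⟩
    · rw [hYe, hYe, ← intervalIntegral.integral_add_adjacent_intervals
        ((hsc t ht).intervalIntegrable 0 x)
        ((hsc t ht).intervalIntegrable x (x + 2 * Real.pi)),
        (hsp t ht).intervalIntegral_add_eq x 0, zero_add, mul_add]
      congr 1
      show 2 * Real.pi / L t * L t = 2 * Real.pi
      have := (hLpos t ht).ne'
      field_simp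
    · rw [(hYd t ht x).deriv]
      have := hLpos t ht
      have := hspos t ht x
      positivity
  obtain ⟨X, hX, hXR⟩ := inv_JS hU hY hYR
  refine ⟨X, fun t => (L t / (2 * Real.pi)) ^ 2, hY, hX, (hLs.div_const _).pow 2,
    fun t ht => ⟨hYR t ht, (hXR t ht).1, ?_, (hXR t ht).2.1, ?_⟩⟩
  · rw [hYe, intervalIntegral.integral_same, mul_zero]
  · obtain ⟨hRX, -, hXd⟩ := hXR t ht
    have hLt := hLpos t ht
    refine ⟨(hcl t ht).smooth.comp hRX.smooth, fun y => ?_, fun y => (hcl t ht).mem _,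
      fun y => ?_, by positivity⟩
    · show γ t (X t (y + 2 * Real.pi)) = γ t (X t y)
      rw [hRX.shift, (hcl t ht).periodic]
    · have h1 : HasDerivAt (γ t) (deriv (γ t) (X t y)) (X t y) :=
        ((hcl t ht).smooth.differentiable (by simp) _).hasDerivAt
      have h2 := h1.scomp y (hXd y)
      have h3 : deriv (fun y => γ t (X t y)) y =
          (deriv (arcY σ (γ t)) (X t y))⁻¹ • deriv (γ t) (X t y) := h2.deriv
      rw [h3, (hYd t ht _).deriv]
      obtain ⟨hsym, -, hsm, -, -⟩ := hB n σ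
      rw [hsm, hsym, hsm]
      have h4 : s t (X t y) ^ 2 = B σ (deriv (γ t) (X t y)) (deriv (γ t) (X t y)) :=
        Real.sq_sqrt (hBpos t ht _).le
      rw [← h4]
      have h5 := (hspos t ht (X t y)).ne'
      field_simp

end Pool.Agent.Work.MP_4a14ce_an

end

section

/-!
# Uniqueness in the original time on a bounded interval
-/

open Set MeasureTheory Topology Filter
open scoped ContDiff

namespace Pool.Agent.Work.MP_4a14ce_an

/-- The evolution of the squared speed. -/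
theorem tUniqueI_peqn (hX : ClaimXi) (hV : ClaimVelTan) (hC : ConIds) (hB : BRules)
    (hJ : JSSlice) (hD : JSDt) {n : ℕ} {σ : ℝ} {I : Set ℝ} {u : ℝ → ℝ → V n} {p : ℝ → ℝ}
    (hσ : Sgn σ) (hitv : Itv I) (hUD : UniqueDiffOn ℝ I) (hu : TSol σ I u p) (t : ℝ) (ht : t ∈ I) :
    HasDerivWithinAt p (-(2 * (p t)⁻¹ * mu σ (p t) (p t)⁻¹ (u t))) I t := by
  obtain ⟨ut, hut, hutd⟩ := hD (n + 1) I u hitv hu.smooth
  have huniq : UniqueDiffWithinAt ℝ I t := hUD t ht
  have hcon := hu.con t ht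
  have hp : p t ≠ 0 := hcon.pos.ne'
  obtain ⟨hb1, hb2, hb3, hb4, -⟩ := hB n σ
  -- the time derivative
  have h0 : ∀ x, ut t x = (p t ^ 2)⁻¹ • rhs σ (p t) (p t)⁻¹ (u t) x := by
    intro x
    have h1 := hutd 0 t ht x
    simp only [iteratedDeriv_zero] at h1
    exact huniq.eq_deriv _ h1 (hu.eqn t ht x)
  have hrv : ∀ x, rhs σ (p t) (p t)⁻¹ (u t) x =
      vel σ (p t) (p t)⁻¹ (u t) x + xi σ (p t) (p t)⁻¹ (u t) x • iteratedDeriv 1 (u t) x := by
    intro x
    unfold rhs vel xi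
    rw [add_smul]
    abel
  have huts : ContDiff ℝ ∞ (ut t) :=
    (hJ (n + 1) I ut hitv hut).1 t ht
  have hsm := hcon.smooth
  have hd : ∀ (w : ℝ → V n), ContDiff ℝ ∞ w → ∀ (j : ℕ) (x : ℝ),
      HasDerivWithinAt (iteratedDeriv j w) (iteratedDeriv (j + 1) w x) univ x := by
    intro w hw j x
    rw [hasDerivWithinAt_univ, iteratedDeriv_succ]
    exact (hw.differentiable_iteratedDeriv j
      (by exact_mod_cast WithTop.coe_lt_top _)).differentiableAt.hasDerivAt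
  have hids := hC n σ (p t) (u t) hσ hcon
  have hvt := hV n σ (p t) (u t) hσ hcon
  have hxi := (hX n σ (p t) (u t) hσ hcon).2
  -- `xi = p B(ut, u')`
  have hxi2 : ∀ x, xi σ (p t) (p t)⁻¹ (u t) x =
      p t * B σ (iteratedDeriv 0 (ut t) x) (iteratedDeriv 1 (u t) x) := by
    intro x
    have e1 := (hvt x).2
    have e2 := (hids x).2.2.1
    rw [iteratedDeriv_zero, h0, hrv, hb3, hb2, hb3, e2]
    rw [iteratedDeriv_one, e1]
    field_simp
    ring
  -- derivative in `x` at `0`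
  have h1 : HasDerivWithinAt
      (fun x => p t * B σ (iteratedDeriv 0 (ut t) x) (iteratedDeriv 1 (u t) x))
      (p t * (B σ (iteratedDeriv 1 (ut t) 0) (iteratedDeriv 1 (u t) 0)
        + B σ (iteratedDeriv 0 (ut t) 0) (iteratedDeriv 2 (u t) 0))) univ 0 :=
    (hb4 _ _ (iteratedDeriv 1 (ut t)) (iteratedDeriv 2 (u t)) univ 0 (hd _ huts 0 0)
      (hd _ hsm 1 0)).const_mul (p t)
  have h2 : HasDerivAt (xi σ (p t) (p t)⁻¹ (u t))
      (p t * (B σ (iteratedDeriv 1 (ut t) 0) (iteratedDeriv 1 (u t) 0)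
        + B σ (iteratedDeriv 0 (ut t) 0) (iteratedDeriv 2 (u t) 0))) 0 := by
    have : xi σ (p t) (p t)⁻¹ (u t) =
      (fun x => p t * B σ (iteratedDeriv 0 (ut t) x) (iteratedDeriv 1 (u t) x)) := funext hxi2
    rw [this]
    exact hasDerivWithinAt_univ.1 h1
  have h3 := h2.unique (hxi 0)
  -- derivative of the speed
  have h4 : HasDerivWithinAt (fun s => B σ (iteratedDeriv 1 (u s) 0) (iteratedDeriv 1 (u s) 0))
      (B σ (iteratedDeriv 1 (ut t) 0) (iteratedDeriv 1 (u t) 0)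
        + B σ (iteratedDeriv 1 (u t) 0) (iteratedDeriv 1 (ut t) 0)) I t :=
    hb4 (fun s => iteratedDeriv 1 (u s) 0) (fun s => iteratedDeriv 1 (u s) 0)
      (fun s => iteratedDeriv 1 (ut s) 0) (fun s => iteratedDeriv 1 (ut s) 0) I t
      (hutd 1 t ht 0) (hutd 1 t ht 0)
  have h5 : HasDerivWithinAt p
      (B σ (iteratedDeriv 1 (ut t) 0) (iteratedDeriv 1 (u t) 0)
        + B σ (iteratedDeriv 1 (u t) 0) (iteratedDeriv 1 (ut t) 0)) I t := by
    refine h4.congr (fun s hs => ?_) ?_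
    · exact ((hC n σ (p s) (u s) hσ (hu.con s hs) 0).2.2.1).symm
    · exact ((hids 0).2.2.1).symm
  convert h5 using 1
  -- algebra
  have e0 : B σ (iteratedDeriv 0 (ut t) 0) (iteratedDeriv 2 (u t) 0) =
      (p t ^ 2)⁻¹ * B σ (vel σ (p t) (p t)⁻¹ (u t) 0) (iteratedDeriv 2 (u t) 0) := by
    rw [iteratedDeriv_zero, h0, hrv, hb3, hb2, hb3, (hids 0).2.2.2.2.1]
    ring
  have e1 : B σ (vel σ (p t) (p t)⁻¹ (u t) 0) (iteratedDeriv 2 (u t) 0 + (σ * p t) • u t 0) =
      B σ (vel σ (p t) (p t)⁻¹ (u t) 0) (iteratedDeriv 2 (u t) 0) := by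
    rw [hb1, hb2, hb3, hb1 (u t 0), (hvt 0).1, hb1]
    ring
  rw [e0, e1] at h3
  rw [hb1 (iteratedDeriv 1 (u t) 0) (iteratedDeriv 1 (ut t) 0)]
  set X := B σ (iteratedDeriv 1 (ut t) 0) (iteratedDeriv 1 (u t) 0)
  set Y := B σ (vel σ (p t) (p t)⁻¹ (u t) 0) (iteratedDeriv 2 (u t) 0)
  have h6 : X = -((p t)⁻¹ * mu σ (p t) (p t)⁻¹ (u t)) := by
    have h7 : p t * X = -(mu σ (p t) (p t)⁻¹ (u t)) := by
      have h8 : p t * ((p t ^ 2)⁻¹ * Y) = (p t)⁻¹ * Y := by
        field_simp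
      linarith
    rw [← mul_right_inj' hp, h7]
    field_simp
  rw [h6]
  ring

/-- The time changed solution. -/
theorem tUniqueI_sol (hX : ClaimXi) (hV : ClaimVelTan) (hC : ConIds) (hB : BRules)
    (hJ : JSSlice) (hD : JSDt) {n : ℕ} {σ : ℝ} {I : Set ℝ} {u : ℝ → ℝ → V n} {p : ℝ → ℝ}
    (hσ : Sgn σ) (hitv : Itv I) (hUD : UniqueDiffOn ℝ I) (hu : TSol σ I u p) (T' : ℝ) (Θ : ℝ → ℝ)
    (hΘs : ContDiffOn ℝ ∞ Θ (Icc 0 T')) (hΘm : ∀ s ∈ Icc 0 T', Θ s ∈ I)
    (hΘd : ∀ s ∈ Icc 0 T', HasDerivWithinAt Θ (p (Θ s) ^ 2) (Icc 0 T') s) :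
    Sol σ (Icc 0 T') (fun s => u (Θ s)) (fun s => p (Θ s)) (fun s => (p (Θ s))⁻¹) := by
  have hmaps : MapsTo Θ (Icc 0 T') I := hΘm
  have hps : ContDiffOn ℝ ∞ (fun s => p (Θ s)) (Icc 0 T') := hu.psmooth.comp hΘs hmaps
  have hpos : ∀ s ∈ Icc 0 T', p (Θ s) ≠ 0 := fun s hs => (hu.con _ (hΘm s hs)).pos.ne'
  have hpd : ∀ s ∈ Icc 0 T', HasDerivWithinAt (fun s => p (Θ s))
      (-(2 * p (Θ s) * mu σ (p (Θ s)) (p (Θ s))⁻¹ (u (Θ s)))) (Icc 0 T') s := by
    intro s hs
    have h1 := tUniqueI_peqn hX hV hC hB hJ hD hσ hitv hUD hu (Θ s) (hΘm s hs)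
    have h2 := h1.comp s (hΘd s hs) hmaps
    have h3 : -(2 * (p (Θ s))⁻¹ * mu σ (p (Θ s)) (p (Θ s))⁻¹ (u (Θ s))) * p (Θ s) ^ 2 =
        -(2 * p (Θ s) * mu σ (p (Θ s)) (p (Θ s))⁻¹ (u (Θ s))) := by
      have h4 : (p (Θ s))⁻¹ * p (Θ s) ^ 2 = p (Θ s) := by
        have := hpos s hs
        field_simp
      linear_combination (-2 * mu σ (p (Θ s)) (p (Θ s))⁻¹ (u (Θ s))) * h4
    rw [h3] at h2
    exact h2
  refine ⟨?_, hps, hps.inv hpos, ?_, ?_, hpd, ?_⟩
  · have h1 : ContDiffOn ℝ ∞ (fun z : ℝ × ℝ => ((Θ z.1, z.2) : ℝ × ℝ)) (Icc 0 T' ×ˢ univ) := by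
      refine ContDiffOn.prodMk ?_ contDiff_snd.contDiffOn
      exact hΘs.comp contDiff_fst.contDiffOn fun z hz => hz.1
    exact hu.smooth.comp h1 fun z hz => ⟨hΘm z.1 hz.1, mem_univ _⟩
  · exact fun s hs => (hu.con _ (hΘm s hs)).periodic
  · intro s hs x
    have h1 := hu.eqn (Θ s) (hΘm s hs) x
    have h2 := HasDerivWithinAt.scomp s h1 (hΘd s hs) hmaps
    have h3 : p (Θ s) ^ 2 • (p (Θ s) ^ 2)⁻¹ • rhs σ (p (Θ s)) (p (Θ s))⁻¹ (u (Θ s)) x =
        rhs σ (p (Θ s)) (p (Θ s))⁻¹ (u (Θ s)) x :=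
      smul_inv_smul₀ (pow_ne_zero 2 (hpos s hs)) _
    rw [h3] at h2
    exact h2
  · intro s hs
    have h1 := (hpd s hs).inv (hpos s hs)
    have h3 : -(-(2 * p (Θ s) * mu σ (p (Θ s)) (p (Θ s))⁻¹ (u (Θ s)))) / p (Θ s) ^ 2 =
        2 * (p (Θ s))⁻¹ * mu σ (p (Θ s)) (p (Θ s))⁻¹ (u (Θ s)) := by
      have h4 : p (Θ s) / p (Θ s) ^ 2 = (p (Θ s))⁻¹ := by
        have := hpos s hs
        field_simp
      rw [← h4]
      ring
    rw [h3] at h1
    exact h1

/-- One of the two cases. -/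
theorem tUniqueI_aux (hU : ClaimUnique) (hX : ClaimXi) (hV : ClaimVelTan) (hC : ConIds)
    (hB : BRules) (hJ : JSSlice) (hD : JSDt) {n : ℕ} {σ : ℝ} {I : Set ℝ} {u v : ℝ → ℝ → V n}
    {p q : ℝ → ℝ} (hσ : Sgn σ) (hitv : Itv I) (hUD : UniqueDiffOn ℝ I) (hmem0 : (0 : ℝ) ∈ I) (hu : TSol σ I u p) (hv : TSol σ I v q)
    (h0 : u 0 = v 0) (T T₁ T₂ : ℝ) (τ Θ Ξ : ℝ → ℝ) (hT₁ : 0 < T₁) (h12 : T₁ ≤ T₂)
    (hΘs : ContDiffOn ℝ ∞ Θ (Icc 0 T₁)) (hΞs : ContDiffOn ℝ ∞ Ξ (Icc 0 T₂))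
    (hΘ0 : Θ 0 = 0) (hΞ0 : Ξ 0 = 0) (hτ : ∀ t ∈ Icc 0 T, τ t ∈ Icc 0 T₁ ∧ Θ (τ t) = t)
    (hΘm : ∀ s ∈ Icc 0 T₁, Θ s ∈ I) (hΞm : ∀ s ∈ Icc 0 T₂, Ξ s ∈ I)
    (hΘd : ∀ s ∈ Icc 0 T₁, HasDerivWithinAt Θ (p (Θ s) ^ 2) (Icc 0 T₁) s)
    (hΞd : ∀ s ∈ Icc 0 T₂, HasDerivWithinAt Ξ (q (Ξ s) ^ 2) (Icc 0 T₂) s) :
    ∀ t ∈ Icc 0 T, u t = v t ∧ p t = q t := by
  have hsub : Icc 0 T₁ ⊆ Icc 0 T₂ := Icc_subset_Icc le_rfl h12
  have hs1 := tUniqueI_sol hX hV hC hB hJ hD hσ hitv hUD hu T₁ Θ hΘs hΘm hΘd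
  have hs2 := tUnique_mono (tUniqueI_sol hX hV hC hB hJ hD hσ hitv hUD hv T₂ Ξ hΞs hΞm hΞd) hsub
  have hp0 : p 0 = q 0 := by
    rw [← (hu.con 0 hmem0).speed 0, ← (hv.con 0 hmem0).speed 0, h0]
  have H := hU n σ T₁ _ _ _ _ _ _ hσ hT₁ hs1 hs2 (by simp only [hΘ0, hΞ0, h0])
    (by simp only [hΘ0, hΞ0, hp0]) (by simp only [hΘ0, hΞ0, hp0])
  have hΘΞ : ∀ s ∈ Icc 0 T₁, Θ s = Ξ s :=
    tUnique_eq (d := fun s => p (Θ s) ^ 2) hΘd (fun s hs => by
      have h1 := (hΞd s (hsub hs)).mono hsub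
      have h2 : q (Ξ s) = p (Θ s) := ((H s hs).2.1).symm
      rw [h2] at h1
      exact h1) (by rw [hΘ0, hΞ0])
  intro t ht
  obtain ⟨h1, h2⟩ := hτ t ht
  obtain ⟨h3, h4, -⟩ := H (τ t) h1
  rw [← hΘΞ _ h1, h2] at h3 h4
  exact ⟨h3, h4⟩

theorem claimTUniqueI (hU : ClaimUnique) (hT : ClaimTimeIcc) (hX : ClaimXi) (hV : ClaimVelTan)
    (hC : ConIds) (hB : BRules) (hJ : JSSlice) (hD : JSDt) : ClaimTUniqueI := by
  intro n σ T u v p q hσ hT0 hu hv h0 t ht
  have hitv : Itv (Icc 0 T) := Or.inr ⟨0, T, hT0, rfl⟩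
  have hUD : UniqueDiffOn ℝ (Icc 0 T) := uniqueDiffOn_Icc hT0
  have hmem0 : (0 : ℝ) ∈ Icc 0 T := ⟨le_rfl, hT0.le⟩
  have key : ∀ (w : ℝ → ℝ → V n) (r : ℝ → ℝ), TSol σ (Icc 0 T) w r →
      ∃ (T' : ℝ) (τ Θ : ℝ → ℝ), 0 < T' ∧ ContDiffOn ℝ ∞ Θ (Icc 0 T') ∧ Θ 0 = 0 ∧
        (∀ x ∈ Icc 0 T, τ x ∈ Icc 0 T' ∧ Θ (τ x) = x) ∧
        (∀ s ∈ Icc 0 T', Θ s ∈ Icc 0 T) ∧
        ∀ s ∈ Icc 0 T', HasDerivWithinAt Θ (r (Θ s) ^ 2) (Icc 0 T') s := by
    intro w r hw
    have hne : ∀ x ∈ Icc 0 T, r x ^ 2 ≠ 0 := fun x hx =>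
      pow_ne_zero 2 (hw.con x hx).pos.ne'
    obtain ⟨T', τ, Θ, h1, h2, h3, h4, h5, h6, h7, h8, h9, h10, h11⟩ :=
      hT T (fun x => (r x ^ 2)⁻¹) hT0 ((hw.psmooth.pow 2).inv hne)
        (fun x hx => inv_pos.2 (pow_pos (hw.con x hx).pos 2))
    refine ⟨T', τ, Θ, h1, h3, h6, h8, fun s hs => (h9 s hs).1, fun s hs => ?_⟩
    have := h11 s hs
    simp only [inv_inv] at this
    exact this
  obtain ⟨T₁, τ₁, Θ₁, a1, a2, a3, a4, a5, a6⟩ := key u p hu
  obtain ⟨T₂, τ₂, Θ₂, b1, b2, b3, b4, b5, b6⟩ := key v q hv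
  rcases le_total T₁ T₂ with h | h
  · exact tUniqueI_aux hU hX hV hC hB hJ hD hσ hitv hUD hmem0 hu hv h0 T T₁ T₂ τ₁ Θ₁ Θ₂ a1 h a2 b2
      a3 b3 a4 a5 b5 a6 b6 t ht
  · have := tUniqueI_aux hU hX hV hC hB hJ hD hσ hitv hUD hmem0 hv hu h0.symm T T₂ T₁ τ₂ Θ₂ Θ₁ b1
      h b2 a2 b3 a3 b4 b5 a5 b6 a6 t ht
    exact ⟨this.1.symm, this.2.symm⟩

end Pool.Agent.Work.MP_4a14ce_an

end

section

/-!
# MP_4a14ce_an, S1: the abstract Lojasiewicz-Simon inequality
-/

open Set MeasureTheory Topology Filter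
open scoped ContDiff

namespace Pool.Agent.Work.MP_4a14ce_an

/-- Analytic local inverse in Banach spaces. -/
lemma sabs_inverse {X : Type*} [NormedAddCommGroup X] [NormedSpace ℝ X] [CompleteSpace X]
    (Ψ : X → X) (x0 : X) (e : X ≃L[ℝ] X) (ha : AnalyticAt ℝ Ψ x0)
    (hd : HasStrictFDerivAt Ψ (e : X →L[ℝ] X) x0) :
    AnalyticAt ℝ (hd.localInverse Ψ e x0) (Ψ x0) := by
  let R : OpenPartialHomeomorph X X := hd.toOpenPartialHomeomorph Ψ
  have hx : x0 ∈ R.source := hd.mem_toOpenPartialHomeomorph_source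
  obtain ⟨p, hp⟩ := ha
  have h1 : HasFPowerSeriesAt R p x0 := hp
  refine (R.hasFPowerSeriesAt_symm hx h1 (i := e) ?_).analyticAt
  have h2 := hp.hasFDerivAt.unique hd.hasFDerivAt
  rw [← h2]
  simp

/-- S1: abstract Lojasiewicz-Simon inequality. -/
theorem claimSAbs (hL : ClaimLoja) : ClaimSAbs := by
  intro X Y _ _ _ _ _ F M x0 P L e M' C hF hM hM' he hfin hM0 hgrad
  have hMs : HasStrictFDerivAt M M' x0 := by
    have h1 := hM.hasStrictFDerivAt
    rwa [h1.hasFDerivAt.unique hM'] at h1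
  set Ψ : X → X := fun x => P x + L (M x) with hΨ
  have hΨs : HasStrictFDerivAt Ψ (e : X →L[ℝ] X) x0 := by
    rw [he]
    exact P.hasStrictFDerivAt.add (L.hasStrictFDerivAt.comp x0 hMs)
  have hΨa : AnalyticAt ℝ Ψ x0 :=
    (P.analyticAt x0).add ((L.analyticAt (M x0)).comp hM)
  have hΨ0 : Ψ x0 = P x0 := by
    simp [hΨ, hM0]
  set g : X → X := hΨs.localInverse Ψ e x0 with hg
  have hga : AnalyticAt ℝ g (Ψ x0) := sabs_inverse Ψ x0 e hΨa hΨs
  have hgleft : ∀ᶠ x in 𝓝 x0, g (Ψ x) = x := hΨs.eventually_left_inverse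
  have hg0 : g (P x0) = x0 := by
    rw [← hΨ0]
    exact hΨs.localInverse_apply_image
  rw [hΨ0] at hga
  -- factorisation of P
  let W := LinearMap.range P.toLinearMap
  have : FiniteDimensional ℝ W := hfin
  let d := Module.finrank ℝ W
  let b : W ≃L[ℝ] (Fin d → ℝ) := (Module.finBasis ℝ W).equivFunL
  let π : X →L[ℝ] (Fin d → ℝ) := (b : W →L[ℝ] (Fin d → ℝ)).comp
    (P.codRestrict W (fun x => LinearMap.mem_range_self P.toLinearMap x))
  let ι : (Fin d → ℝ) →L[ℝ] X := W.subtypeL.comp (b.symm : (Fin d → ℝ) →L[ℝ] W)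
  have hιπ : ∀ x, ι (π x) = P x := by
    intro x
    simp [ι, π]
  set f : (Fin d → ℝ) → ℝ := fun ξ => F (g (ι ξ)) with hf
  have hgι : AnalyticAt ℝ (fun ξ => g (ι ξ)) (π x0) := by
    have h1 : AnalyticAt ℝ g (ι (π x0)) := by rw [hιπ]; exact hga
    exact h1.comp (ι.analyticAt (π x0))
  have hfa : AnalyticAt ℝ f (π x0) := by
    have h1 : AnalyticAt ℝ F ((fun ξ => g (ι ξ)) (π x0)) := by
      dsimp only
      rw [hιπ, hg0]
      exact hF
    exact AnalyticAt.comp (g := F) (f := fun ξ => g (ι ξ)) h1 hgι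
  obtain ⟨θ, hθ, C1, hC1, hloja⟩ := hL d f (π x0) hfa
  have hf0 : f (π x0) = F x0 := by
    simp only [hf]
    rw [hιπ, hg0]
  -- Lipschitz constants
  obtain ⟨Kg, sg, hsg, hLg⟩ := hga.hasStrictFDerivAt.exists_lipschitzOnWith
  obtain ⟨KM, sM, hsM, hLM⟩ := hMs.exists_lipschitzOnWith
  obtain ⟨r, hr, hball⟩ : ∃ r > 0, ∀ z ∈ Metric.ball x0 r, z ∈ sM ∧ DifferentiableAt ℝ F z ∧
      ‖fderiv ℝ F z‖ ≤ C * ‖M z‖ := by
    have h1 : ∀ᶠ z in 𝓝 x0, z ∈ sM ∧ DifferentiableAt ℝ F z ∧ ‖fderiv ℝ F z‖ ≤ C * ‖M z‖ := by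
      filter_upwards [hsM, hF.eventually_analyticAt, hgrad] with z h1 h2 h3
      exact ⟨h1, h2.differentiableAt, h3⟩
    obtain ⟨r, hr, hr2⟩ := Metric.eventually_nhds_iff_ball.mp h1
    exact ⟨r, hr, hr2⟩
  -- bound of the derivative of g ∘ ι
  obtain ⟨Kd, hKd⟩ : ∃ Kd : ℝ, ∀ᶠ ξ in 𝓝 (π x0), ‖fderiv ℝ (fun ξ => g (ι ξ)) ξ‖ ≤ Kd := by
    have h1 : ContinuousAt (fderiv ℝ (fun ξ => g (ι ξ))) (π x0) := hgι.fderiv.continuousAt
    refine ⟨‖fderiv ℝ (fun ξ => g (ι ξ)) (π x0)‖ + 1, ?_⟩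
    have h2 := h1.norm.eventually (gt_mem_nhds (lt_add_one
      ‖fderiv ℝ (fun ξ => g (ι ξ)) (π x0)‖))
    filter_upwards [h2] with ξ h3
    exact h3.le
  have hPt : Tendsto (fun x => P x) (𝓝 x0) (𝓝 (P x0)) := P.continuous.continuousAt
  have hΨt : Tendsto Ψ (𝓝 x0) (𝓝 (P x0)) := by
    have := hΨs.hasFDerivAt.continuousAt.tendsto
    rwa [hΨ0] at this
  have hπt : Tendsto (fun x => π x) (𝓝 x0) (𝓝 (π x0)) := π.continuous.continuousAt
  have hxbt : Tendsto (fun x => g (P x)) (𝓝 x0) (𝓝 x0) := by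
    have h1 : Tendsto g (𝓝 (P x0)) (𝓝 (g (P x0))) := hga.continuousAt
    rw [hg0] at h1
    exact h1.comp hPt
  have hKd0 : 0 ≤ Kd := by
    obtain ⟨ξ, hξ⟩ := hKd.exists
    exact (norm_nonneg _).trans hξ
  set C' : ℝ := |C| with hC'
  set A : ℝ := Kg * ‖L‖ with hA
  have hA0 : 0 ≤ A := by positivity
  set Bc : ℝ := 1 + KM * A with hBc
  have hBc0 : 0 ≤ Bc := by positivity
  set θ' : ℝ := max θ (1 / 2) with hθ'
  have hθ'0 : 0 < θ' := lt_of_lt_of_le hθ.1 (le_max_left _ _)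
  have hθ'1 : θ' < 1 := max_lt hθ.2 (by norm_num)
  set C2 : ℝ := (C' * Bc * A) ^ θ' + C1 * (C' * Kd * Bc) + 1 with hC2
  have hC2pos : 0 < C2 := by
    have h1 : 0 ≤ (C' * Bc * A) ^ θ' := Real.rpow_nonneg (by positivity) _
    have h2 : 0 ≤ C1 * (C' * Kd * Bc) := by positivity
    linarith
  refine ⟨θ', ⟨hθ'0, hθ'1⟩, C2, hC2pos, ?_⟩
  have hMt : Tendsto (fun x => ‖M x‖) (𝓝 x0) (𝓝 0) := by
    have : Tendsto (fun x => ‖M x‖) (𝓝 x0) (𝓝 ‖M x0‖) := hM.continuousAt.norm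
    rwa [hM0, norm_zero] at this
  have hFt : Tendsto (fun x => |F (g (P x)) - F x0|) (𝓝 x0) (𝓝 0) := by
    have h1 : Tendsto (fun x => F (g (P x))) (𝓝 x0) (𝓝 (F x0)) :=
      hF.continuousAt.tendsto.comp hxbt
    have h2 := (h1.sub_const (F x0)).abs
    rwa [sub_self, abs_zero] at h2
  filter_upwards [hgleft, hPt.eventually hsg, hΨt.eventually hsg,
    Metric.ball_mem_nhds x0 hr, hxbt.eventually (Metric.ball_mem_nhds x0 hr),
    hMt.eventually (gt_mem_nhds one_pos), hFt.eventually (gt_mem_nhds one_pos),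
    hπt.eventually hloja, hπt.eventually hKd,
    hπt.eventually hgι.eventually_analyticAt] with x h1 h2 h3 h4 h5 h6 h7 h8 h9 h10
  set xb := g (P x) with hxb
  -- distance of x and xb
  have hd1 : ‖x - xb‖ ≤ A * ‖M x‖ := by
    have e1 := hLg.dist_le_mul (Ψ x) h3 (P x) h2
    rw [h1, dist_eq_norm, dist_eq_norm] at e1
    have e2 : Ψ x - P x = L (M x) := by simp [hΨ]
    rw [e2] at e1
    calc ‖x - xb‖ ≤ Kg * ‖L (M x)‖ := e1
      _ ≤ Kg * (‖L‖ * ‖M x‖) := mul_le_mul_of_nonneg_left (L.le_opNorm _) Kg.2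
      _ = A * ‖M x‖ := by rw [hA]; ring
  have hseg : segment ℝ x xb ⊆ Metric.ball x0 r :=
    (convex_ball x0 r).segment_subset h4 h5
  have hMz : ∀ z ∈ segment ℝ x xb, ‖M z‖ ≤ Bc * ‖M x‖ := by
    intro z hz
    have e1 := hLM.dist_le_mul z (hball z (hseg hz)).1 x (hball x h4).1
    rw [dist_eq_norm, dist_eq_norm] at e1
    have e2 : ‖z - x‖ ≤ ‖x - xb‖ := by
      obtain ⟨t, ht, rfl⟩ := (segment_eq_image' ℝ x xb ▸ hz : z ∈ _)
      rw [add_sub_cancel_left, norm_smul, Real.norm_eq_abs, abs_of_nonneg ht.1,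
        norm_sub_rev x xb]
      exact mul_le_of_le_one_left (norm_nonneg _) ht.2
    have e3 : ‖M z‖ ≤ ‖M z - M x‖ + ‖M x‖ := by
      calc ‖M z‖ = ‖(M z - M x) + M x‖ := by rw [sub_add_cancel]
        _ ≤ _ := norm_add_le _ _
    have e4 : (KM : ℝ) * ‖z - x‖ ≤ KM * (A * ‖M x‖) :=
      mul_le_mul_of_nonneg_left (e2.trans hd1) KM.2
    calc ‖M z‖ ≤ KM * (A * ‖M x‖) + ‖M x‖ := by linarith
      _ = Bc * ‖M x‖ := by rw [hBc]; ring
  have hCz : ∀ z ∈ Metric.ball x0 r, ‖fderiv ℝ F z‖ ≤ C' * ‖M z‖ := by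
    intro z hz
    exact (hball z hz).2.2.trans (mul_le_mul_of_nonneg_right (le_abs_self C) (norm_nonneg _))
  have hd2 : |F x - F xb| ≤ C' * Bc * A * ‖M x‖ ^ 2 := by
    have e1 := Convex.norm_image_sub_le_of_norm_fderiv_le (𝕜 := ℝ) (f := F)
      (s := segment ℝ x xb) (x := xb) (y := x) (C := C' * (Bc * ‖M x‖))
      (fun z hz => (hball z (hseg hz)).2.1)
      (fun z hz => (hCz z (hseg hz)).trans
        (mul_le_mul_of_nonneg_left (hMz z hz) (abs_nonneg _)))
      (convex_segment x xb) (right_mem_segment ℝ x xb) (left_mem_segment ℝ x xb)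
    rw [Real.norm_eq_abs] at e1
    calc |F x - F xb| ≤ C' * (Bc * ‖M x‖) * ‖x - xb‖ := e1
      _ ≤ C' * (Bc * ‖M x‖) * (A * ‖M x‖) := mul_le_mul_of_nonneg_left hd1 (by positivity)
      _ = C' * Bc * A * ‖M x‖ ^ 2 := by ring
  -- the finite dimensional inequality
  have hd3 : |F xb - F x0| ^ θ ≤ C1 * (C' * Kd * Bc) * ‖M x‖ := by
    have e0 : f (π x) = F xb := by
      simp only [hf]
      rw [hιπ]
    rw [e0, hf0] at h8
    refine h8.trans ?_
    have hxb' : g (ι (π x)) = xb := by rw [hιπ]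
    have e1 : HasFDerivAt f ((fderiv ℝ F xb).comp (fderiv ℝ (fun ξ => g (ι ξ)) (π x))) (π x) := by
      have e2 : HasFDerivAt F (fderiv ℝ F xb) ((fun ξ => g (ι ξ)) (π x)) := by
        dsimp only
        rw [hxb']
        exact (hball xb h5).2.1.hasFDerivAt
      exact e2.comp (π x) h10.differentiableAt.hasFDerivAt
    rw [e1.fderiv]
    have e3 : ‖(fderiv ℝ F xb).comp (fderiv ℝ (fun ξ => g (ι ξ)) (π x))‖ ≤
        (C' * (Bc * ‖M x‖)) * Kd := by
      refine (ContinuousLinearMap.opNorm_comp_le _ _).trans ?_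
      exact mul_le_mul ((hCz xb h5).trans (mul_le_mul_of_nonneg_left
        (hMz xb (right_mem_segment ℝ x xb)) (abs_nonneg _))) h9 (norm_nonneg _) (by positivity)
    calc C1 * ‖(fderiv ℝ F xb).comp (fderiv ℝ (fun ξ => g (ι ξ)) (π x))‖
        ≤ C1 * ((C' * (Bc * ‖M x‖)) * Kd) := mul_le_mul_of_nonneg_left e3 hC1.le
      _ = _ := by ring
  -- conclusion
  have hmx0 : 0 ≤ ‖M x‖ := norm_nonneg _
  have f1 : |F x - F x0| ^ θ' ≤ |F x - F xb| ^ θ' + |F xb - F x0| ^ θ' := by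
    calc |F x - F x0| ^ θ' ≤ (|F x - F xb| + |F xb - F x0|) ^ θ' := by
          apply Real.rpow_le_rpow (abs_nonneg _) _ hθ'0.le
          exact abs_sub_le _ _ _
      _ ≤ _ := Real.rpow_add_le_add_rpow (abs_nonneg _) (abs_nonneg _) hθ'0.le hθ'1.le
  have f2 : |F x - F xb| ^ θ' ≤ (C' * Bc * A) ^ θ' * ‖M x‖ := by
    calc |F x - F xb| ^ θ' ≤ (C' * Bc * A * ‖M x‖ ^ 2) ^ θ' :=
          Real.rpow_le_rpow (abs_nonneg _) hd2 hθ'0.le
      _ = (C' * Bc * A) ^ θ' * (‖M x‖ ^ 2) ^ θ' := Real.mul_rpow (by positivity) (by positivity)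
      _ ≤ (C' * Bc * A) ^ θ' * ‖M x‖ := by
        apply mul_le_mul_of_nonneg_left _ (Real.rpow_nonneg (by positivity) _)
        rcases hmx0.eq_or_lt with h0 | h0
        · rw [← h0]
          rw [zero_pow two_ne_zero, Real.zero_rpow hθ'0.ne']
        · have g1 : (‖M x‖ ^ 2) ^ θ' = ‖M x‖ ^ (2 * θ') := by
            rw [← Real.rpow_natCast, ← Real.rpow_mul hmx0]
            norm_num
          rw [g1]
          calc ‖M x‖ ^ (2 * θ') ≤ ‖M x‖ ^ (1 : ℝ) := by
                apply Real.rpow_le_rpow_of_exponent_ge h0 h6.le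
                have := le_max_right θ (1 / 2 : ℝ)
                rw [← hθ'] at this
                linarith
            _ = ‖M x‖ := Real.rpow_one _
  have f3 : |F xb - F x0| ^ θ' ≤ |F xb - F x0| ^ θ := by
    rcases (abs_nonneg (F xb - F x0)).eq_or_lt with h0 | h0
    · rw [← h0, Real.zero_rpow hθ'0.ne', Real.zero_rpow hθ.1.ne']
    · exact Real.rpow_le_rpow_of_exponent_ge h0 h7.le (le_max_left _ _)
  calc |F x - F x0| ^ θ' ≤ (C' * Bc * A) ^ θ' * ‖M x‖ + C1 * (C' * Kd * Bc) * ‖M x‖ := by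
        linarith [f1, f2, f3, hd3]
    _ ≤ C2 * ‖M x‖ := by
      rw [hC2]
      nlinarith

end Pool.Agent.Work.MP_4a14ce_an

end

section

/-!
# Item S4: analyticity of the extended energy and its gradient
-/

open Set MeasureTheory Topology Filter
open scoped ContDiff

namespace Pool.Agent.Work.MP_4a14ce_an

variable {n : ℕ}

theorem SAn_co (j : Fin 4) (i : Fin (n + 1)) (z0 : Fin 4 → WV n) :
    AnalyticAt ℂ (fun z : Fin 4 → WV n => z j i) z0 :=
  ((ContinuousLinearMap.proj (R := ℂ) (φ := fun _ : Fin (n + 1) => WC) i).comp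
    (ContinuousLinearMap.proj (R := ℂ) (φ := fun _ : Fin 4 => WV n) j)).analyticAt z0

theorem SAn_cs {E : Type*} [NormedAddCommGroup E] [NormedSpace ℂ E] (c : ℂ) {f : E → WC} {z0 : E}
    (hf : AnalyticAt ℂ f z0) : AnalyticAt ℂ (fun z => c • f z) z0 :=
  analyticAt_const.fun_smul hf

theorem SAn_BW (σ : ℝ) (a b : Fin 4) (z0 : Fin 4 → WV n) :
    AnalyticAt ℂ (fun z : Fin 4 → WV n => BW σ (z a) (z b)) z0 := by
  unfold BW
  have h := fun (j : Fin 4) (i : Fin (n + 1)) => SAn_co (n := n) j i z0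
  apply AnalyticAt.add
  · exact SAn_cs _ ((h a 0).mul (h b 0))
  · apply Finset.analyticAt_fun_sum
    intro i _
    exact (h a i.succ).mul (h b i.succ)

theorem SAn_mn {f : (Fin 4 → WV n) → WC} {z0 : Fin 4 → WV n} (hf : AnalyticAt ℂ f z0) :
    AnalyticAt ℂ (fun z => mn (f z)) z0 :=
  (mn.analyticAt _).comp hf

theorem SAn_zP (σ : ℝ) (z0 : Fin 4 → WV n) : AnalyticAt ℂ (fun z => zP σ z) z0 :=
  SAn_mn (SAn_BW σ 1 1 z0)

theorem SAn_zm (σ : ℝ) (z0 : Fin 4 → WV n) : AnalyticAt ℂ (fun z => zm σ z) z0 :=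
  SAn_mn (SAn_BW σ 2 2 z0)

theorem SAn_za (σ : ℝ) (z0 : Fin 4 → WV n) : AnalyticAt ℂ (fun z => za σ z) z0 :=
  SAn_mn ((SAn_BW σ 1 1 z0).mul (SAn_BW σ 2 2 z0))

theorem SAn_zb (σ : ℝ) (z0 : Fin 4 → WV n) : AnalyticAt ℂ (fun z => zb σ z) z0 :=
  SAn_mn ((SAn_BW σ 0 0 z0).mul (SAn_BW σ 2 2 z0))

theorem SAn_zc (σ : ℝ) (z0 : Fin 4 → WV n) : AnalyticAt ℂ (fun z => zc σ z) z0 :=
  SAn_mn (SAn_BW σ 0 0 z0)

section

variable {σ : ℝ} {z0 : Fin 4 → WV n} (h : zP σ z0 ∈ Complex.slitPlane)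

include h

theorem SAn_zs : AnalyticAt ℂ (fun z => zs σ z) z0 :=
  (SAn_zP σ z0).cpow analyticAt_const h

theorem SAn_zs_ne : zs σ z0 ≠ 0 := by
  unfold zs
  rw [Ne, Complex.cpow_eq_zero_iff]
  exact fun H => Complex.slitPlane_ne_zero h H.1

theorem SAn_zsi : AnalyticAt ℂ (fun z => (zs σ z)⁻¹) z0 := (SAn_zs h).inv (SAn_zs_ne h)

theorem SAn_zF : AnalyticAt ℂ (fun z => zF σ z) z0 := by
  have h1 := SAn_zs h
  have h2 := SAn_zsi h
  have h3 := SAn_zm σ z0
  have h4 := SAn_za σ z0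
  have h5 := SAn_zb σ z0
  have h6 := SAn_zc σ z0
  unfold zF
  fun_prop

theorem SAn_zq : AnalyticAt ℂ (fun z => zq σ z) z0 := by
  have h1 := SAn_zs h
  have h2 := SAn_zsi h
  have h3 := SAn_zm σ z0
  have h4 := SAn_za σ z0
  have h5 := SAn_zb σ z0
  have h6 := SAn_zc σ z0
  unfold zq
  fun_prop

theorem SAn_coefW : AnalyticAt ℂ (fun z => coefW σ z) z0 := by
  have h2 := SAn_zsi h
  have h3 := SAn_BW σ 1 1 z0
  have h4 := SAn_BW σ 0 0 z0
  unfold coefW
  fun_prop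

theorem SAn_M3 (i : Fin (n + 1)) : AnalyticAt ℂ (fun z => M3 σ z i) z0 := by
  have h1 := SAn_zs h
  have h2 := SAn_zsi h
  have h3 := SAn_zq h
  have h4 := SAn_BW σ 2 3 z0
  have h5 := SAn_BW σ 2 2 z0
  have h6 := SAn_BW σ 1 2 z0
  have h7 := SAn_BW σ 1 3 z0
  have h8 := SAn_BW σ 0 1 z0
  have h9 := SAn_BW σ 1 1 z0
  have h10 := SAn_BW σ 0 2 z0
  have k0 := SAn_co 0 i z0
  have k1 := SAn_co 1 i z0
  have k2 := SAn_co 2 i z0
  have k3 := SAn_co 3 i z0
  have a1 : AnalyticAt ℂ (fun z : Fin 4 → WV n => (3 / 2 * (zs σ z)⁻¹ ^ 5 : ℂ)) z0 := by fun_prop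
  have a2 : AnalyticAt ℂ (fun z : Fin 4 → WV n => (σ / 2 * (zs σ z)⁻¹ ^ 3 : ℂ)) z0 := by fun_prop
  have a3 : AnalyticAt ℂ (fun z : Fin 4 → WV n => ((1 - σ) * zs σ z : ℂ)) z0 := by fun_prop
  have a4 : AnalyticAt ℂ (fun z : Fin 4 → WV n => (2 * zq σ z : ℂ)) z0 := by fun_prop
  have s1 := (((SAn_cs (-4) (h4.fun_mul k1)).fun_add (SAn_cs 2 (h5.fun_mul k2))).fun_add
    (SAn_cs 8 (h6.fun_mul k3))).fun_add (SAn_cs 4 (h7.fun_mul k2))
  have s2 := ((SAn_cs 2 (h5.fun_mul k0)).fun_add (SAn_cs 8 (h8.fun_mul k3))).fun_add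
    (SAn_cs 4 ((h9.fun_add h10).fun_mul k2))
  exact (((a1.fun_smul s1).fun_neg.fun_add (a2.fun_smul s2)).fun_add (a3.fun_smul k0)).fun_sub
    (a4.fun_smul k2)

omit h in
theorem SAn_fst {F : Type*} [NormedAddCommGroup F] [NormedSpace ℂ F] {g : (Fin 4 → WV n) → F}
    (hg : AnalyticAt ℂ g z0) (w0 : WV n) :
    AnalyticAt ℂ (fun q : (Fin 4 → WV n) × WV n => g q.1) (z0, w0) :=
  AnalyticAt.comp (g := g) (f := fun q : (Fin 4 → WV n) × WV n => q.1) hg analyticAt_fst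

theorem SAn_GM (w0 : WV n) :
    AnalyticAt ℂ (fun q : (Fin 4 → WV n) × WV n => GM σ q.1 q.2) (z0, w0) := by
  unfold GM
  apply AnalyticAt.pi
  intro i
  have h1 : AnalyticAt ℂ (fun q : (Fin 4 → WV n) × WV n => coefW σ q.1) (z0, w0) :=
    SAn_fst (SAn_coefW h) w0
  have h2 : AnalyticAt ℂ (fun q : (Fin 4 → WV n) × WV n => M3 σ q.1 i) (z0, w0) :=
    SAn_fst (SAn_M3 h i) w0
  have h3 : AnalyticAt ℂ (fun q : (Fin 4 → WV n) × WV n => q.2 i) (z0, w0) :=
    ((ContinuousLinearMap.proj (R := ℂ) (φ := fun _ : Fin (n + 1) => WC) i).comp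
      (ContinuousLinearMap.snd ℂ (Fin 4 → WV n) (WV n))).analyticAt _
  exact (h1.fun_mul h3).fun_add h2

end

theorem claimSAn : ClaimSAn := by
  intro n σ U h
  have hJ : AnalyticAt ℂ (fun U : WV n => J3 n U) U := (J3 n).analyticAt U
  have hJD : AnalyticAt ℂ (fun U : WV n => (J3 n U, DV n 4 U)) U :=
    ((J3 n).prod (DV n 4)).analyticAt U
  have hG := SAn_GM h (DV n 4 U)
  refine ⟨AnalyticAt.comp (f := fun U : WV n => J3 n U) (SAn_zF h) hJ,
    AnalyticAt.comp (f := fun U : WV n => (J3 n U, DV n 4 U)) hG hJD, ?_⟩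
  intro c hc
  have hD := hG.differentiableAt.hasFDerivAt
  set D := fderiv ℂ (fun q : (Fin 4 → WV n) × WV n => GM σ q.1 q.2) (J3 n U, DV n 4 U) with hDdef
  have hcomp : HasFDerivAt (MX σ) (D.comp ((J3 n).prod (DV n 4))) U :=
    HasFDerivAt.comp (f := fun U : WV n => (J3 n U, DV n 4 U)) U hD
      ((J3 n).prod (DV n 4)).hasFDerivAt
  -- derivative in the second variable
  have h1 : HasFDerivAt (fun w : WV n => GM σ (J3 n U) w)
      (D.comp (ContinuousLinearMap.inr ℂ (Fin 4 → WV n) (WV n))) (DV n 4 U) := by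
    have hin : HasFDerivAt (fun w : WV n => ((J3 n U, w) : (Fin 4 → WV n) × WV n))
        (ContinuousLinearMap.inr ℂ (Fin 4 → WV n) (WV n)) (DV n 4 U) :=
      (hasFDerivAt_const (J3 n U) (DV n 4 U)).prodMk (hasFDerivAt_id (DV n 4 U))
    exact HasFDerivAt.comp (f := fun w : WV n => ((J3 n U, w) : (Fin 4 → WV n) × WV n))
      (DV n 4 U) hD hin
  have h2 : HasFDerivAt (fun w : WV n => GM σ (J3 n U) w)
      (c • ContinuousLinearMap.id ℂ (WV n)) (DV n 4 U) := by
    have e : (fun w : WV n => GM σ (J3 n U) w) =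
        fun w => (c • ContinuousLinearMap.id ℂ (WV n)) w + (fun i => M3 σ (J3 n U) i) := by
      funext w i
      simp only [GM, hc, Pi.add_apply]
      simp
    rw [e]
    exact (ContinuousLinearMap.hasFDerivAt _).add_const _
  have h3 := h1.unique h2
  refine ⟨D.comp (ContinuousLinearMap.inl ℂ (Fin 4 → WV n) (WV n)), ?_⟩
  have e : D.comp ((J3 n).prod (DV n 4)) = c • DV n 4 +
      (D.comp (ContinuousLinearMap.inl ℂ (Fin 4 → WV n) (WV n))).comp (J3 n) := by
    apply ContinuousLinearMap.ext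
    intro H
    have h4 := congrArg (fun T : WV n →L[ℂ] WV n => T (DV n 4 H)) h3
    simp only [ContinuousLinearMap.comp_apply, ContinuousLinearMap.inr_apply] at h4
    have h5 : ((J3 n H, DV n 4 H) : (Fin 4 → WV n) × WV n) = (0, DV n 4 H) + (J3 n H, 0) := by
      simp
    change D (J3 n H, DV n 4 H) = c • DV n 4 H + D (J3 n H, 0)
    rw [h5, map_add, h4]
    rfl
  rw [← e]
  exact hcomp

end Pool.Agent.Work.MP_4a14ce_an

end

section

set_option autoImplicit false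

/-!
# S6: closeness in the weighted Wiener space
-/

open Set MeasureTheory Topology Filter
open scoped ContDiff

namespace Pool.Agent.Work.MP_4a14ce_an

/-- derivatives commute with continuous linear maps -/
theorem SClose_iter {n : ℕ} (L : V n →L[ℝ] ℂ) {u : ℝ → V n} (hu : ContDiff ℝ ∞ u) (j : ℕ) :
    iteratedDeriv j (fun x => L (u x)) = fun x => L (iteratedDeriv j u x) := by
  induction j with
  | zero => simp
  | succ j ih =>
    rw [iteratedDeriv_succ, ih]
    funext x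
    have hd : DifferentiableAt ℝ (iteratedDeriv j u) x :=
      (hu.differentiable_iteratedDeriv j (by exact_mod_cast WithTop.coe_lt_top _)) x
    have h1 : HasDerivAt (iteratedDeriv j u) (deriv (iteratedDeriv j u) x) x := hd.hasDerivAt
    have h2 := (L.hasFDerivAt (x := iteratedDeriv j u x)).comp_hasDerivAt x h1
    rw [iteratedDeriv_succ]
    exact h2.deriv

/-- derivative of the character -/
theorem SClose_ee (k : ℤ) (x : ℝ) :
    HasDerivAt (fun y : ℝ => Wien.ee y (-k)) (Wien.ee x (-k) * (-(Complex.I * k))) x := by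
  have h1 : HasDerivAt (fun y : ℝ => Complex.I * ((-k : ℤ) : ℂ) * (y : ℂ))
      (Complex.I * ((-k : ℤ) : ℂ) * 1) x :=
    (Complex.ofRealCLM.hasDerivAt (x := x)).const_mul _
  have h2 := h1.cexp
  have h3 : Complex.I * ((-k : ℤ) : ℂ) * 1 = -(Complex.I * k) := by push_cast; ring
  rw [h3] at h2
  exact h2

theorem SClose_ee_zero (k : ℤ) : Wien.ee 0 k = 1 := by simp [Wien.ee]

theorem SClose_ee_two_pi (k : ℤ) : Wien.ee (2 * Real.pi) k = 1 := by
  unfold Wien.ee
  have : Complex.I * (k : ℂ) * ((2 * Real.pi : ℝ) : ℂ) = k * (2 * Real.pi * Complex.I) := by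
    push_cast; ring
  rw [this, Complex.exp_int_mul_two_pi_mul_I]

theorem SClose_ee_cont (k : ℤ) : Continuous fun y : ℝ => Wien.ee y k := by
  unfold Wien.ee
  fun_prop

/-- Fourier coefficients of a derivative -/
theorem SClose_fco_deriv {f f' : ℝ → ℂ} (hf : ∀ x, HasDerivAt f (f' x) x) (hf' : Continuous f')
    (hp : Function.Periodic f (2 * Real.pi)) (k : ℤ) :
    fco f' k = (Complex.I * k) * fco f k := by
  unfold fco
  have hc : Continuous f := continuous_iff_continuousAt.2 fun x => (hf x).continuousAt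
  have h1 := intervalIntegral.integral_mul_deriv_eq_deriv_mul (a := 0) (b := 2 * Real.pi)
    (u := fun y : ℝ => Wien.ee y (-k)) (u' := fun y => Wien.ee y (-k) * (-(Complex.I * k)))
    (v := f) (v' := f') (fun x _ => SClose_ee k x) (fun x _ => hf x)
    (((SClose_ee_cont (-k)).mul continuous_const).intervalIntegrable _ _)
    (hf'.intervalIntegrable _ _)
  have h2 : f (2 * Real.pi) = f 0 := by
    have := hp 0
    rwa [zero_add] at this
  rw [h1, SClose_ee_zero, SClose_ee_two_pi, h2, sub_self, zero_sub]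
  have h3 : (fun x => Wien.ee x (-k) * (-(Complex.I * k)) * f x) =
      fun x => (-(Complex.I * k)) * (Wien.ee x (-k) * f x) := by
    funext x; ring
  rw [h3, intervalIntegral.integral_const_mul]
  ring

/-- iterated version -/
theorem SClose_fco_iter {f : ℝ → ℂ} (hf : ContDiff ℝ ∞ f)
    (hp : Function.Periodic f (2 * Real.pi)) (k : ℤ) (j : ℕ) :
    fco (iteratedDeriv j f) k = (Complex.I * k) ^ j * fco f k ∧
      Function.Periodic (iteratedDeriv j f) (2 * Real.pi) := by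
  induction j with
  | zero => simpa using hp
  | succ j ih =>
    have hd : ∀ x, HasDerivAt (iteratedDeriv j f) (iteratedDeriv (j + 1) f x) x := by
      intro x
      have hd : DifferentiableAt ℝ (iteratedDeriv j f) x :=
        (hf.differentiable_iteratedDeriv j (by exact_mod_cast WithTop.coe_lt_top _)) x
      rw [iteratedDeriv_succ]
      exact hd.hasDerivAt
    have hc : Continuous (iteratedDeriv (j + 1) f) :=
      hf.continuous_iteratedDeriv (j + 1) (by exact_mod_cast le_top)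
    refine ⟨?_, ?_⟩
    · rw [SClose_fco_deriv hd hc ih.2 k, ih.1]
      ring
    · intro x
      have h1 : (fun y => iteratedDeriv j f (y + 2 * Real.pi)) = iteratedDeriv j f :=
        funext fun y => ih.2 y
      have h2 := (hd (x + 2 * Real.pi)).comp_add_const x (2 * Real.pi)
      rw [h1] at h2
      exact h2.unique (hd x)

/-- bound by the sup norm -/
theorem SClose_fco_le {f : ℝ → ℂ} {M : ℝ} (hM : ∀ x, ‖f x‖ ≤ M) (k : ℤ) : ‖fco f k‖ ≤ M := by
  unfold fco
  have h1 : ‖∫ x in (0 : ℝ)..(2 * Real.pi), Wien.ee x (-k) * f x‖ ≤ M * |2 * Real.pi - 0| := by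
    refine intervalIntegral.norm_integral_le_of_norm_le_const fun x _ => ?_
    rw [norm_mul, Wien.norm_ee, one_mul]
    exact hM x
  have hpi : 0 < 2 * Real.pi := by positivity
  rw [sub_zero, abs_of_pos hpi] at h1
  have h2 : ‖(2 * Real.pi : ℂ)⁻¹‖ = (2 * Real.pi)⁻¹ := by
    rw [norm_inv]
    congr 1
    have : (2 * Real.pi : ℂ) = ((2 * Real.pi : ℝ) : ℂ) := by push_cast; ring
    rw [this, Complex.norm_real, Real.norm_of_nonneg hpi.le]
  rw [norm_mul, h2]
  calc (2 * Real.pi)⁻¹ * ‖∫ x in (0 : ℝ)..(2 * Real.pi), Wien.ee x (-k) * f x‖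
      ≤ (2 * Real.pi)⁻¹ * (M * (2 * Real.pi)) := by gcongr
    _ = M := by field_simp

/-- the weight -/
noncomputable def SClose_w (k : ℤ) : ℝ := 1 / (1 + |(k : ℝ)|) ^ 2

theorem SClose_w_summable : Summable SClose_w := by
  have h1 : Summable fun n : ℕ => (1 : ℝ) / ((n + 1 : ℕ) : ℝ) ^ 2 :=
    (summable_nat_add_iff 1).2 (Real.summable_one_div_nat_pow.2 (by norm_num))
  refine Summable.of_nat_of_neg ?_ ?_
  · refine h1.congr fun n => ?_
    unfold SClose_w
    push_cast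
    rw [abs_of_nonneg (by positivity : (0 : ℝ) ≤ (n : ℝ)), add_comm]
  · refine h1.congr fun n => ?_
    unfold SClose_w
    push_cast
    rw [abs_neg, abs_of_nonneg (by positivity : (0 : ℝ) ≤ (n : ℝ)), add_comm]

/-- decay of the coefficients -/
theorem SClose_decay {f : ℝ → ℂ} (hf : ContDiff ℝ ∞ f)
    (hp : Function.Periodic f (2 * Real.pi)) {M : ℝ} (h0 : ∀ x, ‖f x‖ ≤ M)
    (h6 : ∀ x, ‖iteratedDeriv 6 f x‖ ≤ M) (k : ℤ) :
    ‖((1 + |(k : ℝ)| : ℝ) : ℂ) ^ 4 * fco f k‖ ≤ 128 * M * SClose_w k := by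
  have e0 := SClose_fco_le h0 k
  have e6 := SClose_fco_le h6 k
  rw [(SClose_fco_iter hf hp k 6).1, norm_mul, norm_pow, norm_mul, Complex.norm_I, one_mul,
    Complex.norm_intCast] at e6
  have hM : 0 ≤ M := (norm_nonneg _).trans (h0 0)
  set a : ℝ := |(k : ℝ)| with ha
  have ha0 : 0 ≤ a := abs_nonneg _
  have hc0 : 0 ≤ ‖fco f k‖ := norm_nonneg _
  have h1 : (1 + a) ^ 6 ≤ 64 * (1 + a ^ 6) := by
    rcases le_total a 1 with h | h
    · have : (1 + a) ^ 6 ≤ 2 ^ 6 := pow_le_pow_left₀ (by positivity) (by linarith) 6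
      have h3 : 0 ≤ a ^ 6 := by positivity
      nlinarith
    · have : (1 + a) ^ 6 ≤ (2 * a) ^ 6 := pow_le_pow_left₀ (by positivity) (by linarith) 6
      rw [mul_pow] at this
      nlinarith
  have h2 : (1 + a) ^ 6 * ‖fco f k‖ ≤ 128 * M := by
    calc (1 + a) ^ 6 * ‖fco f k‖ ≤ (64 * (1 + a ^ 6)) * ‖fco f k‖ := by gcongr
      _ = 64 * (‖fco f k‖ + a ^ 6 * ‖fco f k‖) := by ring
      _ ≤ 64 * (M + M) := by gcongr
      _ = 128 * M := by ring
  rw [norm_mul, norm_pow, Complex.norm_real, Real.norm_of_nonneg (by positivity)]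
  unfold SClose_w
  rw [← ha, mul_one_div, le_div_iff₀ (by positivity)]
  calc (1 + a) ^ 4 * ‖fco f k‖ * (1 + a) ^ 2 = (1 + a) ^ 6 * ‖fco f k‖ := by ring
    _ ≤ 128 * M := h2

/-- a smooth periodic function and its derivatives are bounded -/
theorem SClose_bdd {f : ℝ → ℂ} (hf : ContDiff ℝ ∞ f)
    (hp : Function.Periodic f (2 * Real.pi)) : ∃ M : ℝ, (∀ x, ‖f x‖ ≤ M) ∧
      ∀ x, ‖iteratedDeriv 6 f x‖ ≤ M := by
  have key : ∀ g : ℝ → ℂ, Continuous g → Function.Periodic g (2 * Real.pi) →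
      ∃ M : ℝ, ∀ x, ‖g x‖ ≤ M := by
    intro g hg hpg
    obtain ⟨M, hM⟩ := (isCompact_Icc (a := (0 : ℝ)) (b := 2 * Real.pi)).exists_bound_of_continuousOn
      hg.continuousOn
    refine ⟨M, fun x => ?_⟩
    obtain ⟨y, hy, hxy⟩ := hpg.exists_mem_Ico₀ (by positivity) x
    rw [hxy]
    exact hM y (Ico_subset_Icc_self hy)
  obtain ⟨M0, h0⟩ := key f hf.continuous hp
  have hcj : ∀ j : ℕ, Continuous (iteratedDeriv j f) := fun j =>
    hf.continuous_iteratedDeriv j (by exact_mod_cast le_top)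
  obtain ⟨M6, h6⟩ := key (iteratedDeriv 6 f) (hcj 6) (SClose_fco_iter hf hp 0 6).2
  exact ⟨max M0 M6, fun x => (h0 x).trans (le_max_left _ _), fun x => (h6 x).trans (le_max_right _ _)⟩

/-- the coordinate functional -/
noncomputable def SClose_L (n : ℕ) (i : Fin (n + 1)) : V n →L[ℝ] ℂ :=
  Complex.ofRealCLM.comp (ContinuousLinearMap.proj i)

theorem SClose_L_apply (n : ℕ) (i : Fin (n + 1)) (w : V n) : SClose_L n i w = ((w i : ℝ) : ℂ) :=
  rfl

/-- summability -/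
theorem SClose_summable {n : ℕ} {u : ℝ → V n} (hu : ContDiff ℝ ∞ u)
    (hp : Function.Periodic u (2 * Real.pi)) (i : Fin (n + 1)) :
    Summable (fun k : ℤ =>
      ‖((1 + |(k : ℝ)| : ℝ) : ℂ) ^ 4 * fco (fun x => ((u x i : ℝ) : ℂ)) k‖) := by
  have hf : ContDiff ℝ ∞ (fun x => ((u x i : ℝ) : ℂ)) := (SClose_L n i).contDiff.comp hu
  have hpf : Function.Periodic (fun x => ((u x i : ℝ) : ℂ)) (2 * Real.pi) := fun x => by
    simp only [hp x]
  obtain ⟨M, h0, h6⟩ := SClose_bdd hf hpf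
  exact (SClose_w_summable.mul_left (128 * M)).of_nonneg_of_le (fun _ => norm_nonneg _)
    fun k => SClose_decay hf hpf h0 h6 k

theorem SClose_toX {n : ℕ} {u : ℝ → V n} (hu : ContDiff ℝ ∞ u)
    (hp : Function.Periodic u (2 * Real.pi)) (i : Fin (n + 1)) (k : ℤ) :
    toX u i k = ((1 + |(k : ℝ)| : ℝ) : ℂ) ^ 4 * fco (fun x => ((u x i : ℝ) : ℂ)) k := by
  unfold toX
  rw [dif_pos (SClose_summable hu hp i), Wien.mk_apply]

/-- S6: closeness -/
theorem claimSClose : ClaimSClose := by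
  intro n
  refine ⟨128 * ∑' k, SClose_w k, ?_⟩
  intro u v δ hu hpu hv hpv hδ
  have hw0 : 0 ≤ ∑' k, SClose_w k := tsum_nonneg fun k => by unfold SClose_w; positivity
  rw [pi_norm_le_iff_of_nonneg (by positivity)]
  intro i
  have hd : ContDiff ℝ ∞ (fun x => u x - v x) := hu.sub hv
  set f : ℝ → ℂ := fun x => SClose_L n i (u x - v x) with hf
  have hfc : ContDiff ℝ ∞ f := (SClose_L n i).contDiff.comp hd
  have hfp : Function.Periodic f (2 * Real.pi) := fun x => by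
    simp only [hf, hpu x, hpv x]
  have hcomp : ∀ w : V n, nsq w ≤ δ → ‖SClose_L n i w‖ ≤ Real.sqrt δ := by
    intro w hw
    rw [SClose_L_apply, Complex.norm_real, Real.norm_eq_abs]
    refine Real.abs_le_sqrt (le_trans ?_ hw)
    unfold nsq
    exact Finset.single_le_sum (f := fun i => w i ^ 2) (fun j _ => sq_nonneg _)
      (Finset.mem_univ i)
  have hiter : ∀ j x, iteratedDeriv j (fun x => u x - v x) x =
      iteratedDeriv j u x - iteratedDeriv j v x := by
    intro j x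
    exact iteratedDeriv_fun_sub (hu.contDiffAt.of_le (by exact_mod_cast le_top))
      (hv.contDiffAt.of_le (by exact_mod_cast le_top))
  have hb : ∀ j ≤ 6, ∀ x, ‖iteratedDeriv j f x‖ ≤ Real.sqrt δ := by
    intro j hj x
    rw [hf, SClose_iter (SClose_L n i) hd j]
    simp only
    rw [hiter j x]
    exact hcomp _ (hδ j hj x)
  have h0 : ∀ x, ‖f x‖ ≤ Real.sqrt δ := fun x => by
    have := hb 0 (by norm_num) x
    rwa [iteratedDeriv_zero] at this
  have hdec := SClose_decay hfc hfp h0 (hb 6 le_rfl)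
  have hco : ∀ k : ℤ, ‖((toX u - toX v) i) k‖ ≤ 128 * Real.sqrt δ * SClose_w k := by
    intro k
    have h1 : ((toX u - toX v) i) k =
        ((1 + |(k : ℝ)| : ℝ) : ℂ) ^ 4 * fco f k := by
      rw [Pi.sub_apply, Wien.sub_apply, SClose_toX hu hpu, SClose_toX hv hpv, ← mul_sub]
      congr 1
      unfold fco
      rw [← mul_sub, ← intervalIntegral.integral_sub]
      · congr 1
        refine intervalIntegral.integral_congr fun x _ => ?_
        simp only [hf, SClose_L_apply, Pi.sub_apply]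
        push_cast
        ring
      · refine Continuous.intervalIntegrable ?_ _ _
        exact (SClose_ee_cont _).mul ((SClose_L n i).continuous.comp hu.continuous)
      · refine Continuous.intervalIntegrable ?_ _ _
        exact (SClose_ee_cont _).mul ((SClose_L n i).continuous.comp hv.continuous)
    rw [h1]
    exact hdec k
  refine (Wien.norm_le_tsum (SClose_w_summable.mul_left (128 * Real.sqrt δ)) hco).trans ?_
  rw [tsum_mul_left]
  apply le_of_eq
  ring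

end Pool.Agent.Work.MP_4a14ce_an

end

section

/-!
# Sub-project S, item S2: the linearisation is invertible modulo finitely many frequencies
-/

open Set MeasureTheory Topology Filter

namespace Pool.Agent.Work.MP_4a14ce_an

/-- coefficientwise operators on `WV n` -/
noncomputable def scptD (n : ℕ) (S : WC →L[ℂ] WC) : WV n →L[ℂ] WV n :=
  ContinuousLinearMap.pi fun i => S.comp (ContinuousLinearMap.proj i)

theorem scptD_apply {n : ℕ} (S : WC →L[ℂ] WC) (x : WV n) (i : Fin (n + 1)) :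
    scptD n S x i = S (x i) := rfl

theorem scptD_norm {n : ℕ} {S : WC →L[ℂ] WC} {C : ℝ} (hC : 0 ≤ C) (hS : ‖S‖ ≤ C) :
    ‖scptD n S‖ ≤ C := by
  refine ContinuousLinearMap.opNorm_le_bound _ hC fun x => ?_
  rw [pi_norm_le_iff_of_nonneg (by positivity)]
  intro i
  rw [scptD_apply]
  refine (S.le_of_opNorm_le hS (x i)).trans ?_
  exact mul_le_mul_of_nonneg_left (norm_le_pi_norm x i) hC

/-- low frequencies -/
noncomputable def scptP (N : ℕ) : WC →L[ℂ] WC :=
  Wien.mult (fun k => if |k| ≤ (N : ℤ) then 1 else 0) 1 (fun k => by split_ifs <;> simp)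

/-- high frequencies -/
noncomputable def scptQ (N : ℕ) : WC →L[ℂ] WC :=
  Wien.mult (fun k => if |k| ≤ (N : ℤ) then 0 else 1) 1 (fun k => by split_ifs <;> simp)

/-- symbol of the inverse of `∂⁴` on high frequencies -/
noncomputable def scptM (N : ℕ) (k : ℤ) : ℂ :=
  if |k| ≤ (N : ℤ) then 0 else ((1 + |(k : ℝ)| : ℝ) : ℂ) ^ 4 / (Complex.I * k) ^ 4

theorem scpt_abs {N : ℕ} {k : ℤ} (h : ¬ |k| ≤ (N : ℤ)) : (N : ℝ) + 1 ≤ |(k : ℝ)| := by
  have h1 : (N : ℤ) + 1 ≤ |k| := by omega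
  have h2 : (((N : ℤ) + 1 : ℤ) : ℝ) ≤ ((|k| : ℤ) : ℝ) := by exact_mod_cast h1
  push_cast at h2
  exact h2

theorem scptM_le (N : ℕ) (k : ℤ) : ‖scptM N k‖ ≤ 16 := by
  unfold scptM
  split_ifs with h
  · simp
  · have h1 := scpt_abs h
    have h2 : (0 : ℝ) ≤ N := Nat.cast_nonneg N
    have h3 : 1 ≤ |(k : ℝ)| := by linarith
    rw [norm_div, norm_pow, norm_pow, norm_mul, Complex.norm_I, one_mul, Complex.norm_real,
      Complex.norm_intCast, Real.norm_eq_abs, abs_of_pos (by positivity : 0 < 1 + |(k : ℝ)|)]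
    rw [div_le_iff₀ (by positivity)]
    have h4 : (1 + |(k : ℝ)|) ^ 4 ≤ (2 * |(k : ℝ)|) ^ 4 := by
      apply pow_le_pow_left₀ (by positivity)
      linarith
    calc _ ≤ _ := h4
      _ = _ := by ring

noncomputable def scptL (N : ℕ) : WC →L[ℂ] WC := Wien.mult (scptM N) 16 (scptM_le N)

theorem scpt_add (n N : ℕ) (x : WV n) : scptD n (scptP N) x + scptD n (scptQ N) x = x := by
  funext i
  refine Wien.ext fun k => ?_
  show scptP N (x i) k + scptQ N (x i) k = x i k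
  simp only [scptP, scptQ, Wien.mult_apply]
  split_ifs <;> simp

theorem scpt_LD (n N : ℕ) (x : WV n) : scptD n (scptL N) (DV n 4 x) = scptD n (scptQ N) x := by
  funext i
  refine Wien.ext fun k => ?_
  show scptM N k • (dm 4 k • x i k) = (if |k| ≤ (N : ℤ) then (0 : ℂ) else 1) • x i k
  unfold scptM dm
  rw [if_pos le_rfl]
  split_ifs with h
  · simp
  · have h1 := scpt_abs h
    have h2 : (0 : ℝ) ≤ N := Nat.cast_nonneg N
    have h3 : (k : ℝ) ≠ 0 := by
      intro h0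
      rw [h0, abs_zero] at h1
      linarith
    have h4 : (k : ℂ) ≠ 0 := by exact_mod_cast h3
    have h5 : Complex.I * k ≠ 0 := mul_ne_zero Complex.I_ne_zero h4
    have h6 : ((1 + |(k : ℝ)| : ℝ) : ℂ) ≠ 0 := by
      have : (1 + |(k : ℝ)| : ℝ) ≠ 0 := by positivity
      exact_mod_cast this
    rw [smul_smul]
    congr 1
    field_simp

theorem scpt_LQ (n N : ℕ) (x : WV n) :
    scptD n (scptL N) (scptD n (scptQ N) x) = scptD n (scptL N) x := by
  funext i
  refine Wien.ext fun k => ?_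
  show scptM N k • ((if |k| ≤ (N : ℤ) then (0 : ℂ) else 1) • x i k) = scptM N k • x i k
  unfold scptM
  split_ifs <;> simp

theorem scpt_dm {j : ℕ} (hj : j ≤ 3) {m : ℕ} {k : ℤ} (h : ¬ |k| ≤ (m : ℤ)) :
    ‖dm j k‖ ≤ 1 / ((m : ℝ) + 1) := by
  have h1 := scpt_abs h
  unfold dm
  rw [if_pos (by omega)]
  rw [norm_div, norm_pow, norm_pow, norm_mul, Complex.norm_I, one_mul, Complex.norm_real,
    Complex.norm_intCast, Real.norm_eq_abs, abs_of_pos (by positivity : 0 < 1 + |(k : ℝ)|)]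
  rw [div_le_div_iff₀ (by positivity) (by positivity), one_mul]
  calc |(k : ℝ)| ^ j * ((m : ℝ) + 1) ≤ (1 + |(k : ℝ)|) ^ 3 * (1 + |(k : ℝ)|) := by
        have h2 : |(k : ℝ)| ^ j ≤ (1 + |(k : ℝ)|) ^ 3 := by
          calc |(k : ℝ)| ^ j ≤ (1 + |(k : ℝ)|) ^ j :=
                pow_le_pow_left₀ (abs_nonneg _) (by linarith) _
            _ ≤ (1 + |(k : ℝ)|) ^ 3 :=
                pow_le_pow_right₀ (by linarith [abs_nonneg (k : ℝ)]) hj
        exact mul_le_mul h2 (by linarith) (by positivity) (by positivity)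
    _ = (1 + |(k : ℝ)|) ^ 4 := by ring

/-- `∂^j`, `j ≤ 3`, is small on high frequencies -/
theorem scpt_J3 (n m : ℕ) :
    ‖(J3 n).comp (scptD n (scptQ m))‖ ≤ 1 / ((m : ℝ) + 1) := by
  have hpos : (0 : ℝ) ≤ 1 / ((m : ℝ) + 1) := by positivity
  refine ContinuousLinearMap.opNorm_le_bound _ hpos fun x => ?_
  rw [pi_norm_le_iff_of_nonneg (by positivity)]
  intro j
  rw [pi_norm_le_iff_of_nonneg (by positivity)]
  intro i
  have hj : (j : ℕ) ≤ 3 := by omega
  have h1 : ‖DW (j : ℕ) (scptQ m (x i))‖ ≤ 1 / ((m : ℝ) + 1) * ‖x i‖ := by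
    rw [Wien.norm_eq (x i), ← tsum_mul_left]
    refine Wien.norm_le_tsum ((Wien.summable_norm (x i)).mul_left _) fun k => ?_
    show ‖dm j k * ((if |k| ≤ (m : ℤ) then (0 : ℂ) else 1) • x i k)‖ ≤ _
    by_cases h : |k| ≤ (m : ℤ)
    · rw [if_pos h, zero_smul, mul_zero, norm_zero]
      positivity
    · rw [if_neg h, one_smul, norm_mul]
      exact mul_le_mul_of_nonneg_right (scpt_dm hj h) (norm_nonneg _)
  exact h1.trans (mul_le_mul_of_nonneg_left (norm_le_pi_norm x i) hpos)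

/-- coefficient vectors -/
noncomputable def scptE {n : ℕ} (i : Fin (n + 1)) (k : ℤ) : WV n := Pi.single i (Wien.single k 1)

theorem scptP_sum (N : ℕ) (f : WC) :
    scptP N f = ∑ k ∈ Finset.Icc (-(N : ℤ)) N, Wien.single k (f k) := by
  refine Wien.ext fun l => ?_
  rw [Wien.sum_apply]
  show (if |l| ≤ (N : ℤ) then (1 : ℂ) else 0) • f l = _
  simp only [Wien.single_apply]
  rw [Finset.sum_ite_eq]
  by_cases h : |l| ≤ (N : ℤ)
  · rw [if_pos h, if_pos (Finset.mem_Icc.2 (abs_le.1 h)), one_smul]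
  · rw [if_neg h, if_neg (fun h' => h (abs_le.2 (Finset.mem_Icc.1 h'))), zero_smul]

theorem scptP_E {n : ℕ} (N : ℕ) (x : WV n) :
    scptD n (scptP N) x = ∑ i : Fin (n + 1), ∑ k ∈ Finset.Icc (-(N : ℤ)) N, (x i k) • scptE i k := by
  funext l
  rw [scptD_apply, scptP_sum, Finset.sum_apply, Finset.sum_eq_single l]
  · rw [Finset.sum_apply]
    refine Finset.sum_congr rfl fun k _ => ?_
    rw [Pi.smul_apply, scptE, Pi.single_eq_same, ← Wien.single_smul, smul_eq_mul, mul_one]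
  · intro i _ hi
    rw [Finset.sum_apply]
    refine Finset.sum_eq_zero fun k _ => ?_
    rw [Pi.smul_apply, scptE, Pi.single_eq_of_ne (Ne.symm hi), smul_zero]
  · simp

theorem scpt_fin (n N : ℕ) :
    FiniteDimensional ℂ (LinearMap.range (scptD n (scptP N)).toLinearMap) := by
  classical
  set s : Set (WV n) := ((Finset.univ ×ˢ Finset.Icc (-(N : ℤ)) N : Finset (Fin (n + 1) × ℤ)).image
    (fun q => scptE q.1 q.2) : Set (WV n)) with hs
  have hfin : s.Finite := Finset.finite_toSet _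
  have : FiniteDimensional ℂ (Submodule.span ℂ s) := FiniteDimensional.span_of_finite ℂ hfin
  refine Submodule.finiteDimensional_of_le (S₂ := Submodule.span ℂ s) ?_
  rintro _ ⟨x, rfl⟩
  show scptD n (scptP N) x ∈ _
  rw [scptP_E]
  refine Submodule.sum_mem _ fun i _ => Submodule.sum_mem _ fun k hk =>
    Submodule.smul_mem _ _ (Submodule.subset_span ?_)
  rw [hs, Finset.mem_coe, Finset.mem_image]
  exact ⟨(i, k), by simp [Finset.mem_product, Finset.mem_Icc.1 hk], rfl⟩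

/-- high frequency parts of a fixed element tend to zero -/
theorem scpt_tend (n : ℕ) (y : WV n) :
    Tendsto (fun N : ℕ => scptD n (scptQ N) y) atTop (𝓝 0) := by
  rw [tendsto_pi_nhds]
  intro i
  have h1 : Tendsto (fun N : ℕ => Finset.Icc (-(N : ℤ)) N) atTop atTop := by
    rw [tendsto_atTop]
    intro s
    obtain ⟨M, hM⟩ : ∃ M : ℕ, ∀ k ∈ s, |k| ≤ (M : ℤ) := by
      refine ⟨s.sup fun k => k.natAbs, fun k hk => ?_⟩
      have := Finset.le_sup (f := fun k : ℤ => k.natAbs) hk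
      rw [Int.abs_eq_natAbs]
      exact_mod_cast this
    filter_upwards [eventually_ge_atTop M] with N hN k hk
    rw [Finset.mem_Icc, ← abs_le]
    have h2 : (M : ℤ) ≤ N := by exact_mod_cast hN
    exact (hM k hk).trans h2
  have h2 : Tendsto (fun N : ℕ => ∑ k ∈ Finset.Icc (-(N : ℤ)) N, Wien.single k (y i k)) atTop
      (𝓝 (y i)) := (Wien.hasSum_single (y i)).comp h1
  have h3 : Tendsto (fun N : ℕ => y i - ∑ k ∈ Finset.Icc (-(N : ℤ)) N, Wien.single k (y i k))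
      atTop (𝓝 (y i - y i)) := h2.const_sub (y i)
  rw [sub_self] at h3
  refine h3.congr fun N => ?_
  rw [← scptP_sum]
  have h4 := congrFun (scpt_add n N y) i
  rw [Pi.add_apply, scptD_apply, scptD_apply] at h4
  rw [scptD_apply]
  exact sub_eq_of_eq_add' h4.symm

/-- `‖Q_N S P_m‖` is small -/
theorem scpt_small (n m : ℕ) (S : WV n →L[ℂ] WV n) :
    ∀ ε > 0, ∀ᶠ N : ℕ in atTop,
      ‖((scptD n (scptQ N)).comp S).comp (scptD n (scptP m))‖ ≤ ε := by
  intro ε hε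
  have h1 : Tendsto (fun N : ℕ => ∑ i : Fin (n + 1), ∑ k ∈ Finset.Icc (-(m : ℤ)) m,
      ‖scptD n (scptQ N) (S (scptE i k))‖) atTop (𝓝 0) := by
    have h2 : (0 : ℝ) = ∑ i : Fin (n + 1), ∑ k ∈ Finset.Icc (-(m : ℤ)) m, (0 : ℝ) := by simp
    rw [h2]
    refine tendsto_finsetSum _ fun i _ => tendsto_finsetSum _ fun k _ => ?_
    have := (scpt_tend n (S (scptE i k))).norm
    rwa [norm_zero] at this
  filter_upwards [h1.eventually (gt_mem_nhds hε)] with N hN
  refine ContinuousLinearMap.opNorm_le_bound _ hε.le fun x => ?_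
  rw [ContinuousLinearMap.comp_apply, ContinuousLinearMap.comp_apply, scptP_E]
  simp only [map_sum, map_smul]
  calc ‖∑ i : Fin (n + 1), ∑ k ∈ Finset.Icc (-(m : ℤ)) m,
        x i k • scptD n (scptQ N) (S (scptE i k))‖
      ≤ ∑ i : Fin (n + 1), ∑ k ∈ Finset.Icc (-(m : ℤ)) m,
        ‖scptD n (scptQ N) (S (scptE i k))‖ * ‖x‖ := by
        refine (norm_sum_le _ _).trans (Finset.sum_le_sum fun i _ =>
          (norm_sum_le _ _).trans (Finset.sum_le_sum fun k _ => ?_))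
        rw [norm_smul, mul_comm]
        refine mul_le_mul_of_nonneg_left ?_ (norm_nonneg _)
        exact (Wien.norm_apply_le (x i) k).trans (norm_le_pi_norm x i)
    _ = (∑ i : Fin (n + 1), ∑ k ∈ Finset.Icc (-(m : ℤ)) m,
        ‖scptD n (scptQ N) (S (scptE i k))‖) * ‖x‖ := by
        simp only [Finset.sum_mul]
    _ ≤ ε * ‖x‖ := mul_le_mul_of_nonneg_right hN.le (norm_nonneg _)

theorem claimSCpt : ClaimSCpt := by
  intro n T c hc
  have hc' : 0 < ‖c‖ := norm_pos_iff.2 hc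
  set S : WV n →L[ℂ] WV n := T.comp (J3 n) with hS
  set ε : ℝ := ‖c‖ / 64 with hε
  have hε0 : 0 < ε := by positivity
  -- choice of the frequencies
  obtain ⟨m, hm⟩ : ∃ m : ℕ, ‖T‖ / ε ≤ m := exists_nat_ge _
  have hm1 : ‖T‖ * (1 / ((m : ℝ) + 1)) ≤ ε := by
    rw [div_le_iff₀ hε0] at hm
    rw [mul_one_div, div_le_iff₀ (by positivity)]
    nlinarith
  obtain ⟨N, hN⟩ := (scpt_small n m S ε hε0).exists
  have hQ1 : ‖scptD n (scptQ N)‖ ≤ 1 := scptD_norm zero_le_one (Wien.norm_mult_le _ _ _)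
  have hQS : ‖(scptD n (scptQ N)).comp S‖ ≤ 2 * ε := by
    have h1 : (scptD n (scptQ N)).comp S =
        ((scptD n (scptQ N)).comp S).comp (scptD n (scptP m)) +
          ((scptD n (scptQ N)).comp T).comp ((J3 n).comp (scptD n (scptQ m))) := by
      refine ContinuousLinearMap.ext fun x => ?_
      have h2 := scpt_add n m x
      show scptD n (scptQ N) (T (J3 n x)) = scptD n (scptQ N) (T (J3 n (scptD n (scptP m) x))) +
        scptD n (scptQ N) (T (J3 n (scptD n (scptQ m) x)))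
      rw [← map_add, ← map_add, ← map_add, h2]
    rw [h1]
    refine (norm_add_le _ _).trans ?_
    have h3 : ‖((scptD n (scptQ N)).comp T).comp ((J3 n).comp (scptD n (scptQ m)))‖ ≤ ε := by
      refine (ContinuousLinearMap.opNorm_comp_le _ _).trans ?_
      refine le_trans ?_ hm1
      refine mul_le_mul ?_ (scpt_J3 n m) (norm_nonneg _) (norm_nonneg _)
      refine (ContinuousLinearMap.opNorm_comp_le _ _).trans ?_
      calc _ ≤ 1 * ‖T‖ := mul_le_mul_of_nonneg_right hQ1 (norm_nonneg _)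
        _ = ‖T‖ := one_mul _
    linarith
  set L : WV n →L[ℂ] WV n := c⁻¹ • scptD n (scptL N) with hL
  have hLn : ‖scptD n (scptL N)‖ ≤ 16 := scptD_norm (by norm_num) (Wien.norm_mult_le _ _ _)
  have hK : ‖-(L.comp S)‖ < 1 := by
    have h1 : L.comp S = (c⁻¹ • scptD n (scptL N)).comp ((scptD n (scptQ N)).comp S) := by
      refine ContinuousLinearMap.ext fun x => ?_
      show c⁻¹ • scptD n (scptL N) (S x) = c⁻¹ • scptD n (scptL N) (scptD n (scptQ N) (S x))
      rw [scpt_LQ]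
    rw [norm_neg, h1]
    refine (ContinuousLinearMap.opNorm_comp_le _ _).trans_lt ?_
    have h2 : ‖c⁻¹ • scptD n (scptL N)‖ ≤ ‖c‖⁻¹ * 16 := by
      rw [norm_smul, norm_inv]
      exact mul_le_mul_of_nonneg_left hLn (by positivity)
    calc _ ≤ (‖c‖⁻¹ * 16) * (2 * ε) := by gcongr
      _ = 1 / 2 := by
          rw [hε]
          field_simp
          norm_num
      _ < 1 := by norm_num
  refine ⟨scptD n (scptP N), L, ContinuousLinearEquiv.ofUnit (Units.oneSub _ hK),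
    scpt_fin n N, ?_⟩
  refine ContinuousLinearMap.ext fun x => ?_
  have h1 : (ContinuousLinearEquiv.ofUnit (Units.oneSub _ hK)) x = x - (-(L.comp S)) x := rfl
  show (ContinuousLinearEquiv.ofUnit (Units.oneSub _ hK)) x = scptD n (scptP N) x +
    L (c • DV n 4 x + S x)
  rw [h1, map_add, map_smul]
  have h2 : L (DV n 4 x) = c⁻¹ • scptD n (scptQ N) x := by
    show c⁻¹ • scptD n (scptL N) (DV n 4 x) = _
    rw [scpt_LD]
  rw [h2, smul_smul, mul_inv_cancel₀ hc, one_smul]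
  have h3 := scpt_add n N x
  show x - -(L (S x)) = _
  rw [sub_neg_eq_add, ← add_assoc, h3]

end Pool.Agent.Work.MP_4a14ce_an

end

section

/-!
# Sub-project S, item S5: Fourier coefficients of evaluations
-/

open Set MeasureTheory Topology Filter
open scoped ContDiff

namespace Pool.Agent.Work.MP_4a14ce_an

open Wien

theorem SFou_continuous_ee (k : ℤ) : Continuous fun x : ℝ => ee x k := by
  unfold ee
  fun_prop

theorem SFou_hasDerivAt_ee (k : ℤ) (x : ℝ) :
    HasDerivAt (fun x : ℝ => ee x k) (Complex.I * k * ee x k) x := by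
  have h1 : HasDerivAt (fun y : ℝ => Complex.I * k * (y : ℂ)) (Complex.I * k) x := by
    simpa using (Complex.ofRealCLM.hasDerivAt (x := x)).const_mul (Complex.I * k)
  have h2 := h1.cexp
  unfold ee
  simpa [mul_comm] using h2

theorem SFou_ee_two_pi (k : ℤ) : ee (2 * Real.pi) k = 1 := by
  unfold ee
  have : Complex.I * k * ((2 * Real.pi : ℝ) : ℂ) = k * (2 * Real.pi * Complex.I) := by
    push_cast
    ring
  rw [this]
  exact Complex.exp_int_mul_two_pi_mul_I k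

theorem SFou_ee_at_zero (k : ℤ) : ee 0 k = 1 := by
  simp [ee]

/-- Orthogonality. -/
theorem SFou_orth (m : ℤ) :
    ∫ x in (0 : ℝ)..(2 * Real.pi), ee x m = if m = 0 then (2 * Real.pi : ℂ) else 0 := by
  split_ifs with h
  · subst h
    simp
  · have hc : (Complex.I * m : ℂ) ≠ 0 :=
      mul_ne_zero Complex.I_ne_zero (Int.cast_ne_zero.2 h)
    have h1 : ∀ x : ℝ, ee x m = Complex.exp (Complex.I * m * x) := fun x => rfl
    simp_rw [h1]
    rw [integral_exp_mul_complex hc]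
    have h2 := SFou_ee_two_pi m
    have h3 := SFou_ee_at_zero m
    rw [ee] at h2 h3
    rw [h2, h3]
    simp

theorem claimSFco : ClaimSFco := by
  intro w k
  have hsum : HasSum (fun l : ℤ => ∫ x in (0 : ℝ)..(2 * Real.pi), ee x (l - k) * w l)
      (∫ x in (0 : ℝ)..(2 * Real.pi), ee x (-k) * evL x w) := by
    refine intervalIntegral.hasSum_integral_of_dominated_convergence (fun l _ => ‖w l‖) ?_ ?_ ?_
      ?_ ?_
    · intro l
      exact ((SFou_continuous_ee (l - k)).mul continuous_const).aestronglyMeasurable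
    · intro l
      refine ae_of_all _ fun x _ => ?_
      rw [norm_mul, norm_ee, one_mul]
    · exact ae_of_all _ fun x _ => summable_norm w
    · exact intervalIntegrable_const
    · refine ae_of_all _ fun x _ => ?_
      have h := (hasSum_ev x w).mul_left (ee x (-k))
      refine h.congr_fun ?_
      intro l
      rw [sub_eq_add_neg, ee_add, smul_eq_mul]
      ring
  have hint : ∀ l : ℤ, ∫ x in (0 : ℝ)..(2 * Real.pi), ee x (l - k) * w l
      = if l = k then (2 * Real.pi : ℂ) * w l else 0 := by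
    intro l
    rw [intervalIntegral.integral_mul_const, SFou_orth]
    by_cases h : l = k
    · simp [h]
    · simp [h, sub_eq_zero]
  simp_rw [hint] at hsum
  have h2 : HasSum (fun l : ℤ => if l = k then (2 * Real.pi : ℂ) * w l else 0)
      ((2 * Real.pi : ℂ) * w k) := by
    have := hasSum_ite_eq k ((2 * Real.pi : ℂ) * w k)
    refine this.congr_fun ?_
    intro l
    by_cases h : l = k
    · simp [h]
    · simp [h]
  have h3 := hsum.unique h2
  rw [fco, h3, ← mul_assoc, inv_mul_cancel₀, one_mul]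
  have : (Real.pi : ℂ) ≠ 0 := by exact_mod_cast Real.pi_ne_zero
  simp [this]

/-- Bound of the coefficients. -/
theorem SFou_fco_le {f : ℝ → ℂ} {M : ℝ} (hf : ∀ x, ‖f x‖ ≤ M) (k : ℤ) : ‖fco f k‖ ≤ M := by
  have hpi : (0 : ℝ) < 2 * Real.pi := by positivity
  have h1 : ‖∫ x in (0 : ℝ)..(2 * Real.pi), ee x (-k) * f x‖ ≤ M * |2 * Real.pi - 0| := by
    refine intervalIntegral.norm_integral_le_of_norm_le_const fun x _ => ?_
    rw [norm_mul, norm_ee, one_mul]
    exact hf x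
  rw [fco, norm_mul, norm_inv]
  have h2 : ‖(2 * Real.pi : ℂ)‖ = 2 * Real.pi := by
    rw [norm_mul, Complex.norm_real, Real.norm_eq_abs, abs_of_pos Real.pi_pos]
    simp
  rw [h2, sub_zero, abs_of_pos hpi] at *
  calc (2 * Real.pi)⁻¹ * ‖∫ x in (0 : ℝ)..(2 * Real.pi), ee x (-k) * f x‖
      ≤ (2 * Real.pi)⁻¹ * (M * (2 * Real.pi)) :=
        mul_le_mul_of_nonneg_left h1 (by positivity)
    _ = M := by field_simp

/-- Coefficients of the derivative. -/
theorem SFou_fco_deriv {f f' : ℝ → ℂ} (hf : ∀ x, HasDerivAt f (f' x) x) (hf' : Continuous f')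
    (hper : Function.Periodic f (2 * Real.pi)) (k : ℤ) :
    fco f' k = Complex.I * k * fco f k := by
  have hc : Continuous f := continuous_iff_continuousAt.2 fun x => (hf x).continuousAt
  have h1 : ∫ x in (0 : ℝ)..(2 * Real.pi),
      (Complex.I * ((-k : ℤ) : ℂ) * ee x (-k) * f x + ee x (-k) * f' x)
      = ee (2 * Real.pi) (-k) * f (2 * Real.pi) - ee 0 (-k) * f 0 := by
    refine intervalIntegral.integral_eq_sub_of_hasDerivAt
      (f := fun x => ee x (-k) * f x) (fun x _ => ?_) ?_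
    · exact (SFou_hasDerivAt_ee (-k) x).mul (hf x)
    · apply Continuous.intervalIntegrable
      have := SFou_continuous_ee (-k)
      fun_prop
  have h0 : f (2 * Real.pi) = f 0 := by simpa using hper 0
  rw [SFou_ee_two_pi, SFou_ee_at_zero, h0, sub_self] at h1
  have hce := SFou_continuous_ee (-k)
  rw [intervalIntegral.integral_add (by apply Continuous.intervalIntegrable; fun_prop)
    (by apply Continuous.intervalIntegrable; fun_prop)] at h1
  have h2 : ∫ x in (0 : ℝ)..(2 * Real.pi), Complex.I * ((-k : ℤ) : ℂ) * ee x (-k) * f x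
      = -(Complex.I * k) * ∫ x in (0 : ℝ)..(2 * Real.pi), ee x (-k) * f x := by
    rw [← intervalIntegral.integral_const_mul]
    congr 1
    funext x
    push_cast
    ring
  rw [h2] at h1
  have h3 : ∫ x in (0 : ℝ)..(2 * Real.pi), ee x (-k) * f' x
      = Complex.I * k * ∫ x in (0 : ℝ)..(2 * Real.pi), ee x (-k) * f x := by
    linear_combination h1
  rw [fco, fco, h3]
  ring

/-- The complex component of a vector. -/
noncomputable def SFou_L {n : ℕ} (i : Fin (n + 1)) : V n →L[ℝ] ℂ :=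
  Complex.ofRealCLM.comp (ContinuousLinearMap.proj i)

theorem SFou_L_apply {n : ℕ} (i : Fin (n + 1)) (v : V n) : SFou_L i v = ((v i : ℝ) : ℂ) := rfl

theorem SFou_hasDerivAt_iter {n : ℕ} {u : ℝ → V n} (hu : ContDiff ℝ ∞ u) (j : ℕ)
    (i : Fin (n + 1)) (x : ℝ) :
    HasDerivAt (fun x => ((iteratedDeriv j u x i : ℝ) : ℂ))
      ((iteratedDeriv (j + 1) u x i : ℝ) : ℂ) x := by
  have h1 : Differentiable ℝ (iteratedDeriv j u) :=
    hu.differentiable_iteratedDeriv j (by exact_mod_cast ENat.natCast_lt_top j)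
  have h2 : HasDerivAt (iteratedDeriv j u) (iteratedDeriv (j + 1) u x) x := by
    rw [iteratedDeriv_succ]
    exact (h1 x).hasDerivAt
  exact (SFou_L i).hasFDerivAt.comp_hasDerivAt x h2

theorem SFou_continuous_iter {n : ℕ} {u : ℝ → V n} (hu : ContDiff ℝ ∞ u) (j : ℕ)
    (i : Fin (n + 1)) : Continuous (fun x => ((iteratedDeriv j u x i : ℝ) : ℂ)) :=
  continuous_iff_continuousAt.2 fun x => (SFou_hasDerivAt_iter hu j i x).continuousAt

theorem SFou_periodic_iter {n : ℕ} {u : ℝ → V n} (hper : Function.Periodic u (2 * Real.pi))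
    (j : ℕ) (i : Fin (n + 1)) :
    Function.Periodic (fun x => ((iteratedDeriv j u x i : ℝ) : ℂ)) (2 * Real.pi) := by
  have h : Function.Periodic (iteratedDeriv j u) (2 * Real.pi) := by
    intro x
    have h1 := congrFun (iteratedDeriv_comp_add_const j u (2 * Real.pi)) x
    have h2 : (fun z => u (z + 2 * Real.pi)) = u := funext hper
    rw [h2] at h1
    exact h1.symm
  intro x
  simp only [h x]

/-- Coefficients of the iterated derivatives. -/
theorem SFou_fco_iter {n : ℕ} {u : ℝ → V n} (hu : ContDiff ℝ ∞ u)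
    (hper : Function.Periodic u (2 * Real.pi)) (i : Fin (n + 1)) (k : ℤ) (j : ℕ) :
    fco (fun x => ((iteratedDeriv j u x i : ℝ) : ℂ)) k
      = (Complex.I * k) ^ j * fco (fun x => ((u x i : ℝ) : ℂ)) k := by
  induction j with
  | zero => simp
  | succ j ih =>
    rw [SFou_fco_deriv (SFou_hasDerivAt_iter hu j i) (SFou_continuous_iter hu (j + 1) i)
      (SFou_periodic_iter hper j i) k, ih]
    ring

/-- Decay of the coefficients from two bounds. -/
theorem SFou_decay {c d : ℂ} {k : ℤ} {M : ℝ} (h0 : ‖c‖ ≤ M) (h6 : ‖d‖ ≤ M)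
    (hd : d = (Complex.I * k) ^ 6 * c) :
    (1 + |(k : ℝ)|) ^ 4 * ‖c‖ ≤ 128 * M * ((1 + |(k : ℝ)|) ^ 2)⁻¹ := by
  have hk : (0 : ℝ) ≤ |(k : ℝ)| := abs_nonneg _
  have h1 : |(k : ℝ)| ^ 6 * ‖c‖ ≤ M := by
    rw [hd, norm_mul, norm_pow, norm_mul, Complex.norm_I, one_mul, Complex.norm_intCast] at h6
    exact h6
  have h2 : (1 + |(k : ℝ)|) ^ 6 ≤ 64 * (1 + |(k : ℝ)| ^ 6) := by
    have := add_pow_le (zero_le_one) hk 6
    norm_num at this ⊢
    linarith [pow_nonneg hk 6]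
  have h3 : (1 + |(k : ℝ)|) ^ 6 * ‖c‖ ≤ 128 * M := by
    calc (1 + |(k : ℝ)|) ^ 6 * ‖c‖ ≤ 64 * (1 + |(k : ℝ)| ^ 6) * ‖c‖ :=
          mul_le_mul_of_nonneg_right h2 (norm_nonneg _)
      _ = 64 * (‖c‖ + |(k : ℝ)| ^ 6 * ‖c‖) := by ring
      _ ≤ 128 * M := by linarith
  have hpos : (0 : ℝ) < (1 + |(k : ℝ)|) ^ 2 := by positivity
  rw [← div_eq_mul_inv, le_div_iff₀ hpos]
  calc (1 + |(k : ℝ)|) ^ 4 * ‖c‖ * (1 + |(k : ℝ)|) ^ 2 = (1 + |(k : ℝ)|) ^ 6 * ‖c‖ := by ring
    _ ≤ 128 * M := h3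

theorem SFou_summable : Summable fun k : ℤ => ((1 + |(k : ℝ)|) ^ 2)⁻¹ := by
  have hn : Summable fun m : ℕ => ((1 + (m : ℝ)) ^ 2)⁻¹ := by
    have h := (summable_nat_add_iff 1).2 (Real.summable_nat_pow_inv.2 (by norm_num : 1 < 2))
    refine h.congr fun m => ?_
    push_cast
    rw [add_comm]
  refine Summable.of_nat_of_neg ?_ ?_
  · refine hn.congr fun m => ?_
    simp
  · refine hn.congr fun m => ?_
    simp

/-- A continuous periodic function is bounded. -/
theorem SFou_bdd {f : ℝ → ℂ} (hf : Continuous f) (hper : Function.Periodic f (2 * Real.pi)) :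
    ∃ M : ℝ, ∀ x, ‖f x‖ ≤ M := by
  obtain ⟨M, hM⟩ := (isCompact_Icc (a := (0 : ℝ)) (b := 2 * Real.pi)).exists_bound_of_continuousOn
    hf.continuousOn
  refine ⟨M, fun x => ?_⟩
  obtain ⟨y, hy, hxy⟩ := hper.exists_mem_Ico₀ (by positivity) x
  rw [hxy]
  exact hM y ⟨hy.1, hy.2.le⟩

theorem SFou_toX_summable {n : ℕ} {u : ℝ → V n} (hu : ContDiff ℝ ∞ u)
    (hper : Function.Periodic u (2 * Real.pi)) (i : Fin (n + 1)) :
    Summable (fun k : ℤ =>
      ‖((1 + |(k : ℝ)| : ℝ) : ℂ) ^ 4 * fco (fun x => ((u x i : ℝ) : ℂ)) k‖) := by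
  obtain ⟨M0, h0⟩ := SFou_bdd (SFou_continuous_iter hu 0 i) (SFou_periodic_iter hper 0 i)
  obtain ⟨M6, h6⟩ := SFou_bdd (SFou_continuous_iter hu 6 i) (SFou_periodic_iter hper 6 i)
  simp only [iteratedDeriv_zero] at h0
  refine Summable.of_nonneg_of_le (fun _ => norm_nonneg _) (fun k => ?_)
    (SFou_summable.mul_left (128 * max M0 M6))
  have hk : (0 : ℝ) < 1 + |(k : ℝ)| := by positivity
  rw [norm_mul, norm_pow, Complex.norm_real, Real.norm_eq_abs, abs_of_pos hk]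
  exact SFou_decay ((SFou_fco_le h0 k).trans (le_max_left _ _))
    ((SFou_fco_le h6 k).trans (le_max_right _ _)) (SFou_fco_iter hu hper i k 6)

theorem SFou_toX_apply {n : ℕ} {u : ℝ → V n} (hu : ContDiff ℝ ∞ u)
    (hper : Function.Periodic u (2 * Real.pi)) (i : Fin (n + 1)) (k : ℤ) :
    toX u i k = ((1 + |(k : ℝ)| : ℝ) : ℂ) ^ 4 * fco (fun x => ((u x i : ℝ) : ℂ)) k := by
  rw [toX, dif_pos (SFou_toX_summable hu hper i), mk_apply]

/-- The coefficients of `DV n j (toX u)`. -/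
theorem SFou_DV_toX {n : ℕ} {u : ℝ → V n} (hu : ContDiff ℝ ∞ u)
    (hper : Function.Periodic u (2 * Real.pi)) (i : Fin (n + 1)) (k : ℤ) {j : ℕ} (hj : j ≤ 4) :
    DV n j (toX u) i k = fco (fun x => ((iteratedDeriv j u x i : ℝ) : ℂ)) k := by
  rw [DV_apply, DW_apply, SFou_toX_apply hu hper, SFou_fco_iter hu hper, dm, if_pos hj]
  have hk : ((1 + |(k : ℝ)| : ℝ) : ℂ) ^ 4 ≠ 0 := by
    have : (0 : ℝ) < 1 + |(k : ℝ)| := by positivity
    exact pow_ne_zero _ (by exact_mod_cast this.ne')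
  rw [div_mul_eq_mul_div, mul_left_comm, mul_div_cancel_left₀ _ hk]

/-- Inversion formula. -/
theorem SFou_inv {f : ℝ → ℂ} (hf : Continuous f) (hper : Function.Periodic f (2 * Real.pi))
    (hs : Summable fun k => fco f k) (x : ℝ) : HasSum (fun k => ee x k * fco f k) (f x) := by
  have : Fact (0 < 2 * Real.pi) := ⟨by positivity⟩
  have hcont : Continuous (hper.lift) :=
    continuous_coinduced_dom.2 hf
  let g : C(AddCircle (2 * Real.pi), ℂ) := ⟨hper.lift, hcont⟩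
  have hcoef : ∀ k : ℤ, fourierCoeff g k = fco f k := by
    intro k
    rw [fourierCoeff_eq_intervalIntegral _ k 0, fco, zero_add]
    have h1 : ∀ y : ℝ, (fourier (-k) (y : AddCircle (2 * Real.pi)) : ℂ) • g y
        = ee y (-k) * f y := by
      intro y
      rw [smul_eq_mul, fourier_coe_apply]
      have h2 : g y = f y := Function.Periodic.lift_coe hper y
      rw [h2, ee]
      congr 2
      have hpi : (Real.pi : ℂ) ≠ 0 := by exact_mod_cast Real.pi_ne_zero
      push_cast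
      field_simp
    simp_rw [h1]
    rw [Complex.real_smul]
    congr 1
    push_cast
    rw [one_div]
  have hsum : Summable (fourierCoeff g) := by
    have : (fourierCoeff g : ℤ → ℂ) = fun k => fco f k := funext hcoef
    rw [this]
    exact hs
  have h := has_pointwise_sum_fourier_series_of_summable hsum (x : AddCircle (2 * Real.pi))
  have h2 : g (x : AddCircle (2 * Real.pi)) = f x := Function.Periodic.lift_coe hper x
  rw [h2] at h
  refine h.congr_fun ?_
  intro k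
  rw [hcoef, smul_eq_mul, fourier_coe_apply, ee, mul_comm]
  congr 2
  have hpi : (Real.pi : ℂ) ≠ 0 := by exact_mod_cast Real.pi_ne_zero
  push_cast
  field_simp

theorem claimSEv : ClaimSEv := by
  intro n u hu hper j hj i x
  have hcoef := fun k : ℤ => SFou_DV_toX hu hper i k hj
  have hs : Summable fun k => fco (fun x => ((iteratedDeriv j u x i : ℝ) : ℂ)) k := by
    have := summable_apply (DV n j (toX u) i)
    refine this.congr fun k => ?_
    exact hcoef k
  have h1 := SFou_inv (SFou_continuous_iter hu j i) (SFou_periodic_iter hper j i) hs x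
  have h2 := hasSum_ev x (DV n j (toX u) i)
  refine h2.unique (h1.congr_fun ?_)
  intro k
  rw [smul_eq_mul, hcoef k]

end Pool.Agent.Work.MP_4a14ce_an

end

section

/-!
# Item S3: `MX` is the gradient of `FX`
-/

open Set MeasureTheory Topology Filter
open scoped ContDiff

namespace Pool.Agent.Work.MP_4a14ce_an

/-! ### the form `BW` -/

section form

variable {n : ℕ} {σ : ℝ}

lemma sgr_BW_symm (x y : WV n) : BW σ x y = BW σ y x := by
  simp only [BW]
  congr 1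
  · rw [mul_comm]
  · exact Finset.sum_congr rfl fun i _ => mul_comm _ _

lemma sgr_BW_add (x y h : WV n) :
    BW σ (fun i => x i + y i) h = BW σ x h + BW σ y h := by
  simp only [BW, add_mul, Finset.sum_add_distrib, smul_add]
  abel

lemma sgr_BW_mul (w : WC) (x h : WV n) : BW σ (fun i => w * x i) h = w * BW σ x h := by
  simp only [BW, mul_add, Finset.mul_sum, mul_assoc, mul_smul_comm]

lemma sgr_BW_smul (c : ℂ) (x h : WV n) : BW σ (fun i => c • x i) h = c • BW σ x h := by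
  simp only [BW, smul_add, Finset.smul_sum, smul_mul_assoc]
  rw [smul_comm]

lemma sgr_BW_neg (x h : WV n) : BW σ (fun i => - x i) h = - BW σ x h := by
  have h1 : (fun i => - x i) = fun i => (-1 : ℂ) • x i := by
    funext i
    rw [neg_smul, one_smul]
  rw [h1, sgr_BW_smul, neg_smul, one_smul]

lemma sgr_BW_sub (x y h : WV n) :
    BW σ (fun i => x i - y i) h = BW σ x h - BW σ y h := by
  have := sgr_BW_add (σ := σ) x (fun i => - y i) h
  rw [sgr_BW_neg] at this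
  simp only [sub_eq_add_neg]
  exact this

lemma sgr_BW_hasD {x x' y y' : WV n} (hx : ∀ i, Wien.HasD (x i) (x' i))
    (hy : ∀ i, Wien.HasD (y i) (y' i)) :
    Wien.HasD (BW σ x y) (BW σ x' y + BW σ x y') := by
  have h1 : Wien.HasD (BW σ x y) ((σ : ℂ) • (x' 0 * y 0 + x 0 * y' 0) +
      ∑ i : Fin n, (x' i.succ * y i.succ + x i.succ * y' i.succ)) :=
    (((hx 0).mul (hy 0)).smul (σ : ℂ)).add
      (Wien.HasD.sum _ fun i _ => (hx i.succ).mul (hy i.succ))
  have h2 : (σ : ℂ) • (x' 0 * y 0 + x 0 * y' 0) +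
      ∑ i : Fin n, (x' i.succ * y i.succ + x i.succ * y' i.succ) =
      BW σ x' y + BW σ x y' := by
    simp only [BW, smul_add, Finset.sum_add_distrib]
    abel
  rw [h2] at h1
  exact h1

lemma sgr_DW_hasD (f : WC) (j : ℕ) (hj : j < 4) : Wien.HasD (DW j f) (DW (j + 1) f) := by
  intro k
  rw [DW_apply, DW_apply, smul_eq_mul]
  have h1 : dm (j + 1) k = Complex.I * k * dm j k := by
    unfold dm
    rw [if_pos (by omega), if_pos (by omega), pow_succ]
    ring
  rw [h1]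
  ring

lemma sgr_DV_hasD (U : WV n) (j : ℕ) (hj : j < 4) (i : Fin (n + 1)) :
    Wien.HasD (DV n j U i) (DV n (j + 1) U i) := by
  rw [DV_apply, DV_apply]
  exact sgr_DW_hasD _ _ hj

lemma sgr_mean {f f' : WC} (h : Wien.HasD f f') : mn f' = 0 := h.mean

end form

/-! ### derivatives -/

section deriv

variable {n : ℕ} {E F : Type*} [NormedAddCommGroup E] [NormedSpace ℂ E] [NormedAddCommGroup F]
  [NormedSpace ℂ F]

/-- `f` has at `U` a derivative given by the formula `f'` -/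
def SgrD (U : WV n) (f f' : WV n → E) : Prop :=
  ∃ L : WV n →L[ℂ] E, HasFDerivAt f L U ∧ ∀ H, L H = f' H

variable {U : WV n}

lemma SgrD.clm (T : WV n →L[ℂ] E) : SgrD U (fun V => T V) (fun H => T H) :=
  ⟨T, T.hasFDerivAt, fun _ => rfl⟩

lemma SgrD.const (c : E) : SgrD U (fun _ => c) (fun _ => 0) :=
  ⟨0, hasFDerivAt_const c U, fun _ => rfl⟩

lemma SgrD.add {f f' g g' : WV n → E} (hf : SgrD U f f') (hg : SgrD U g g') :
    SgrD U (fun V => f V + g V) (fun H => f' H + g' H) := by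
  obtain ⟨L, h1, h2⟩ := hf
  obtain ⟨M, h3, h4⟩ := hg
  exact ⟨L + M, h1.add h3, fun H => by rw [_root_.add_apply, h2, h4]⟩

lemma SgrD.sub {f f' g g' : WV n → E} (hf : SgrD U f f') (hg : SgrD U g g') :
    SgrD U (fun V => f V - g V) (fun H => f' H - g' H) := by
  obtain ⟨L, h1, h2⟩ := hf
  obtain ⟨M, h3, h4⟩ := hg
  exact ⟨L - M, h1.sub h3, fun H => by rw [_root_.sub_apply, h2, h4]⟩

lemma SgrD.sum {ι : Type*} (s : Finset ι) {f f' : ι → WV n → E}
    (hf : ∀ i ∈ s, SgrD U (f i) (f' i)) :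
    SgrD U (fun V => ∑ i ∈ s, f i V) (fun H => ∑ i ∈ s, f' i H) := by
  classical
  induction s using Finset.induction_on with
  | empty => simpa using SgrD.const (U := U) (0 : E)
  | insert a s ha ih =>
    simp only [Finset.sum_insert ha]
    exact (hf a (Finset.mem_insert_self _ _)).add
      (ih fun i hi => hf i (Finset.mem_insert_of_mem hi))

lemma SgrD.comp {f f' : WV n → E} (hf : SgrD U f f') (T : E →L[ℂ] F) :
    SgrD U (fun V => T (f V)) (fun H => T (f' H)) := by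
  obtain ⟨L, h1, h2⟩ := hf
  exact ⟨T.comp L, T.hasFDerivAt.comp U h1, fun H => by
    rw [ContinuousLinearMap.comp_apply, h2]⟩

lemma SgrD.smul {f f' : WV n → E} (hf : SgrD U f f') (c : ℂ) :
    SgrD U (fun V => c • f V) (fun H => c • f' H) :=
  hf.comp (c • ContinuousLinearMap.id ℂ E)

lemma SgrD.mul {R : Type*} [NormedCommRing R] [NormedAlgebra ℂ R] {f f' g g' : WV n → R}
    (hf : SgrD U f f') (hg : SgrD U g g') :
    SgrD U (fun V => f V * g V) (fun H => f' H * g U + f U * g' H) := by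
  obtain ⟨L, h1, h2⟩ := hf
  obtain ⟨M, h3, h4⟩ := hg
  refine ⟨_, h1.mul h3, fun H => ?_⟩
  simp only [_root_.add_apply, _root_.smul_apply, h2, h4, smul_eq_mul]
  ring

lemma SgrD.scalar {f f' : WV n → ℂ} (hf : SgrD U f f') {g : ℂ → ℂ} {g' : ℂ}
    (hg : HasDerivAt g g' (f U)) : SgrD U (fun V => g (f V)) (fun H => g' * f' H) := by
  obtain ⟨L, h1, h2⟩ := hf
  refine ⟨_, hg.comp_hasFDerivAt U h1, fun H => ?_⟩
  rw [_root_.smul_apply, h2, smul_eq_mul]

lemma SgrD.congr {f f' f'' : WV n → E} (hf : SgrD U f f') (h : ∀ H, f' H = f'' H) :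
    SgrD U f f'' := by
  obtain ⟨L, h1, h2⟩ := hf
  exact ⟨L, h1, fun H => (h2 H).trans (h H)⟩

lemma sgr_DVc (j : ℕ) (i : Fin (n + 1)) : SgrD U (fun V => DV n j V i) (fun H => DV n j H i) :=
  SgrD.clm ((ContinuousLinearMap.proj (R := ℂ) (φ := fun _ : Fin (n + 1) => WC) i).comp (DV n j))

lemma sgr_BWd (σ : ℝ) (a b : ℕ) : SgrD U (fun V => BW σ (DV n a V) (DV n b V))
    (fun H => BW σ (DV n a H) (DV n b U) + BW σ (DV n a U) (DV n b H)) := by
  have h1 := (((sgr_DVc (U := U) a 0).mul (sgr_DVc (U := U) b 0)).smul (σ : ℂ)).add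
    (SgrD.sum Finset.univ (fun i _ => (sgr_DVc (U := U) a (Fin.succ i)).mul
      (sgr_DVc (U := U) b (Fin.succ i))))
  refine h1.congr fun H => ?_
  simp only [BW, smul_add, Finset.sum_add_distrib]
  abel

end deriv


/-! ### integration by parts -/

section ibp

variable {n : ℕ} {σ : ℝ} (U H : WV n)

lemma sgr_bh (j k : ℕ) (hj : j < 4) (hk : k < 4) :
    Wien.HasD (BW σ (DV n j U) (DV n k H))
      (BW σ (DV n (j + 1) U) (DV n k H) + BW σ (DV n j U) (DV n (k + 1) H)) :=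
  sgr_BW_hasD (sgr_DV_hasD U j hj) (sgr_DV_hasD H k hk)

lemma sgr_ibp1 : mn (BW σ (DV n 1 U) (DV n 1 H)) = - mn (BW σ (DV n 2 U) (DV n 0 H)) := by
  have h1 := sgr_mean (sgr_bh (σ := σ) U H 1 0 (by norm_num) (by norm_num))
  rw [map_add] at h1
  linear_combination h1

/-- two integrations by parts with a weight `w` -/
lemma sgr_ibp2 {w w' w'' : WC} (hw : Wien.HasD w w') (hw' : Wien.HasD w' w'') :
    mn (w * BW σ (DV n 2 U) (DV n 2 H)) =
      mn (w'' * BW σ (DV n 2 U) (DV n 0 H)) + 2 * mn (w' * BW σ (DV n 3 U) (DV n 0 H)) +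
        mn (w * BW σ (DV n 4 U) (DV n 0 H)) := by
  have h1 := sgr_mean (hw.mul (sgr_bh (σ := σ) U H 2 1 (by norm_num) (by norm_num)))
  have h2 := sgr_mean (hw'.mul (sgr_bh (σ := σ) U H 2 0 (by norm_num) (by norm_num)))
  have h3 := sgr_mean (hw.mul (sgr_bh (σ := σ) U H 3 0 (by norm_num) (by norm_num)))
  simp only [mul_add, map_add] at h1 h2 h3
  linear_combination h1 - h2 - h3

end ibp


/-! ### the gradient -/

lemma sgr_BWG {n : ℕ} {σ : ℝ} (z : Fin 4 → WV n) (w h : WV n) : BW σ (GM σ z w) h =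
    coefW σ z * BW σ w h +
    (-((3 / 2 * (zs σ z)⁻¹ ^ 5) • ((-4 : ℂ) • (BW σ (z 2) (z 3) * BW σ (z 1) h)
      + (2 : ℂ) • (BW σ (z 2) (z 2) * BW σ (z 2) h) + (8 : ℂ) • (BW σ (z 1) (z 2) * BW σ (z 3) h)
      + (4 : ℂ) • (BW σ (z 1) (z 3) * BW σ (z 2) h)))
    + (σ / 2 * (zs σ z)⁻¹ ^ 3) • ((2 : ℂ) • (BW σ (z 2) (z 2) * BW σ (z 0) h)
      + (8 : ℂ) • (BW σ (z 0) (z 1) * BW σ (z 3) h)
      + (4 : ℂ) • ((BW σ (z 1) (z 1) + BW σ (z 0) (z 2)) * BW σ (z 2) h))
    + ((1 - σ) * zs σ z) • BW σ (z 0) h - (2 * zq σ z) • BW σ (z 2) h) := by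
  unfold GM M3
  rw [sgr_BW_add (fun i => coefW σ z * w i), sgr_BW_mul, sgr_BW_sub, sgr_BW_add, sgr_BW_add,
    sgr_BW_neg, sgr_BW_smul, sgr_BW_add, sgr_BW_add, sgr_BW_add]
  simp only [sgr_BW_smul, sgr_BW_mul, sgr_BW_add]

lemma SgrD.cmul {n : ℕ} {U : WV n} {f f' : WV n → ℂ} (hf : SgrD U f f') (c : ℂ) :
    SgrD U (fun V => c * f V) (fun H => c * f' H) := hf.smul c

lemma SgrD.pow {n : ℕ} {U : WV n} {f f' : WV n → ℂ} (hf : SgrD U f f') (k : ℕ) :
    SgrD U (fun V => f V ^ k) (fun H => ((k : ℂ) * f U ^ (k - 1)) * f' H) :=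
  hf.scalar (g := fun w => w ^ k) (hasDerivAt_pow k (f U))

theorem claimSGrad : ClaimSGrad := by
  intro n σ U _ hP
  set s : ℂ := zs σ (J3 n U) with hs
  have hP0 : zP σ (J3 n U) ≠ 0 := Complex.slitPlane_ne_zero hP
  have hss : s * s = zP σ (J3 n U) := by
    rw [hs, zs, ← Complex.cpow_add _ _ hP0]
    norm_num
  have hs0 : s ≠ 0 := by
    intro h
    rw [h, zero_mul] at hss
    exact hP0 hss.symm
  have hpow : (zP σ (J3 n U)) ^ ((1 / 2 : ℂ) - 1) = s⁻¹ := by
    rw [Complex.cpow_sub _ _ hP0, Complex.cpow_one]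
    have : zP σ (J3 n U) ^ (1 / 2 : ℂ) = s := rfl
    rw [this, ← hss]
    field_simp
  -- the derivatives of the scalar functions
  have dP : SgrD U (fun V => zP σ (J3 n V)) (fun H => 2 * mn (BW σ (DV n 1 U) (DV n 1 H))) := by
    refine ((sgr_BWd (U := U) σ 1 1).comp mn).congr fun H => ?_
    rw [map_add, sgr_BW_symm (DV n 1 H)]
    ring
  have dm' : SgrD U (fun V => zm σ (J3 n V)) (fun H => 2 * mn (BW σ (DV n 2 U) (DV n 2 H))) := by
    refine ((sgr_BWd (U := U) σ 2 2).comp mn).congr fun H => ?_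
    rw [map_add, sgr_BW_symm (DV n 2 H)]
    ring
  have dc : SgrD U (fun V => zc σ (J3 n V)) (fun H => 2 * mn (BW σ (DV n 0 U) (DV n 0 H))) := by
    refine ((sgr_BWd (U := U) σ 0 0).comp mn).congr fun H => ?_
    rw [map_add, sgr_BW_symm (DV n 0 H)]
    ring
  have da : SgrD U (fun V => za σ (J3 n V))
      (fun H => 2 * mn (BW σ (DV n 2 U) (DV n 2 U) * BW σ (DV n 1 U) (DV n 1 H)) +
        2 * mn (BW σ (DV n 1 U) (DV n 1 U) * BW σ (DV n 2 U) (DV n 2 H))) := by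
    refine (((sgr_BWd (U := U) σ 1 1).mul (sgr_BWd (U := U) σ 2 2)).comp mn).congr fun H => ?_
    rw [map_add, add_mul, mul_add, map_add, map_add, sgr_BW_symm (DV n 1 H),
      sgr_BW_symm (DV n 2 H), mul_comm (BW σ (DV n 1 U) (DV n 1 H))]
    ring
  have db : SgrD U (fun V => zb σ (J3 n V))
      (fun H => 2 * mn (BW σ (DV n 2 U) (DV n 2 U) * BW σ (DV n 0 U) (DV n 0 H)) +
        2 * mn (BW σ (DV n 0 U) (DV n 0 U) * BW σ (DV n 2 U) (DV n 2 H))) := by
    refine (((sgr_BWd (U := U) σ 0 0).mul (sgr_BWd (U := U) σ 2 2)).comp mn).congr fun H => ?_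
    rw [map_add, add_mul, mul_add, map_add, map_add, sgr_BW_symm (DV n 0 H),
      sgr_BW_symm (DV n 2 H), mul_comm (BW σ (DV n 0 U) (DV n 0 H))]
    ring
  have ds : SgrD U (fun V => zs σ (J3 n V))
      (fun H => s⁻¹ * mn (BW σ (DV n 1 U) (DV n 1 H))) := by
    have h1 := dP.scalar (g := fun w => w ^ (1 / 2 : ℂ))
      (Complex.hasStrictDerivAt_cpow_const (c := (1 / 2 : ℂ)) hP).hasDerivAt
    refine h1.congr fun H => ?_
    rw [hpow]
    ring
  have dt : SgrD U (fun V => (zs σ (J3 n V))⁻¹)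
      (fun H => -(s⁻¹ ^ 3) * mn (BW σ (DV n 1 U) (DV n 1 H))) := by
    have h1 := ds.scalar (g := fun w => w⁻¹) (hasDerivAt_inv hs0)
    refine h1.congr fun H => ?_
    rw [← hs]
    field_simp
  have dF := ((((((dt.pow 3).cmul 2).mul dm').sub (((dt.pow 5).cmul (3 / 2)).mul da)).add
    (((dt.pow 3).cmul ((σ : ℂ) / 2)).mul db)).add
    ((ds.cmul (1 / 2 * (1 - (σ : ℂ)))).mul ((dc.add (SgrD.const (2 : ℂ))).sub
      (SgrD.const (σ : ℂ))))).cmul (2 * (Real.pi : ℂ))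
  obtain ⟨L, hL, hL'⟩ := dF
  refine ⟨L, hL, fun H => ?_⟩
  rw [hL' H]
  -- the weights
  have hDU : ∀ j k : ℕ, j < 4 → k < 4 → Wien.HasD (BW σ (DV n j U) (DV n k U))
      (BW σ (DV n (j + 1) U) (DV n k U) + BW σ (DV n j U) (DV n (k + 1) U)) :=
    fun j k hj hk => sgr_bh U U j k hj hk
  have i1 := sgr_ibp1 (σ := σ) U H
  have i2 : mn (BW σ (DV n 2 U) (DV n 2 H)) = mn (BW σ (DV n 4 U) (DV n 0 H)) := by
    have := sgr_ibp2 (σ := σ) U H (Wien.HasD.one) (Wien.HasD.zero)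
    simpa using this
  have i3 := sgr_mean ((hDU 2 2 (by norm_num) (by norm_num)).mul
    (sgr_bh (σ := σ) U H 1 0 (by norm_num) (by norm_num)))
  have i4 := sgr_ibp2 (σ := σ) U H (hDU 1 1 (by norm_num) (by norm_num))
    ((hDU 2 1 (by norm_num) (by norm_num)).add (hDU 1 2 (by norm_num) (by norm_num)))
  have i5 := sgr_ibp2 (σ := σ) U H (hDU 0 0 (by norm_num) (by norm_num))
    ((hDU 1 0 (by norm_num) (by norm_num)).add (hDU 0 1 (by norm_num) (by norm_num)))
  have e0 : J3 n U 0 = DV n 0 U := rfl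
  have e1 : J3 n U 1 = DV n 1 U := rfl
  have e2 : J3 n U 2 = DV n 2 U := rfl
  have e3 : J3 n U 3 = DV n 3 U := rfl
  rw [MX, sgr_BWG, e0, e1, e2, e3, ← hs]
  simp only [Nat.reduceAdd, sgr_BW_symm (DV n 2 U) (DV n 1 U), sgr_BW_symm (DV n 3 U) (DV n 1 U),
    sgr_BW_symm (DV n 3 U) (DV n 2 U), sgr_BW_symm (DV n 1 U) (DV n 0 U),
    sgr_BW_symm (DV n 2 U) (DV n 0 U), mul_add, add_mul, map_add] at i3 i4 i5
  simp only [coefW, zq, e0, e1, ← hs, add_mul, sub_mul, smul_mul_assoc, one_mul,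
    smul_add, map_add, map_sub, map_neg, map_smul, smul_eq_mul]
  push_cast
  linear_combination (2 * Real.pi * 2 * (-3 * s⁻¹ ^ 5 * zm σ (J3 n U) +
      15 / 4 * s⁻¹ ^ 7 * za σ (J3 n U) - 3 * σ / 4 * s⁻¹ ^ 5 * zb σ (J3 n U) +
      1 / 4 * (1 - σ) * s⁻¹ * (zc σ (J3 n U) + 2 - σ))) * i1 +
    (2 * Real.pi * 4 * s⁻¹ ^ 3) * i2 - (2 * Real.pi * 3 * s⁻¹ ^ 5) * i3 -
    (2 * Real.pi * 3 * s⁻¹ ^ 5) * i4 + (2 * Real.pi * σ * s⁻¹ ^ 3) * i5

end Pool.Agent.Work.MP_4a14ce_an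

end

section

/-!
# Sub-project S: interpolation
-/

open Set MeasureTheory Topology Filter
open scoped ContDiff

namespace Pool.Agent.Work.MP_4a14ce_an

theorem SInt_comp {n : ℕ} {v : ℝ → V n} (hv : ContDiff ℝ ∞ v) (i : Fin (n + 1)) (j : ℕ) (x : ℝ) :
    iteratedDeriv j (fun y => v y i) x = iteratedDeriv j v x i := by
  induction j generalizing x with
  | zero => simp
  | succ j ih =>
    rw [iteratedDeriv_succ, iteratedDeriv_succ]
    have h1 : iteratedDeriv j (fun y => v y i) = fun y => iteratedDeriv j v y i := funext ih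
    rw [h1]
    have h2 : HasDerivAt (iteratedDeriv j v) (deriv (iteratedDeriv j v) x) x :=
      ((hv.differentiable_iteratedDeriv j (by exact_mod_cast WithTop.coe_lt_top _)) x).hasDerivAt
    exact ((hasDerivAt_pi.1 h2) i).deriv

theorem SInt_iter_periodic {g : ℝ → ℝ} {T : ℝ} (h : Function.Periodic g T) (j : ℕ) :
    Function.Periodic (iteratedDeriv j g) T := by
  induction j with
  | zero => simpa using h
  | succ j ih => rw [iteratedDeriv_succ]; exact per_deriv_periodic ih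

theorem SInt_ee_hasDeriv (k : ℤ) (x : ℝ) :
    HasDerivAt (fun y : ℝ => Wien.ee y k) ((Complex.I * k) * Wien.ee x k) x := by
  unfold Wien.ee
  have h1 : HasDerivAt (fun y : ℝ => Complex.I * k * (y : ℂ)) (Complex.I * k) x := by
    simpa using (Complex.ofRealCLM.hasDerivAt (x := x)).const_mul (Complex.I * (k : ℂ))
  have h2 := h1.cexp
  rwa [mul_comm (Complex.exp _)] at h2

theorem SInt_ee_cont (k : ℤ) : Continuous (fun y : ℝ => Wien.ee y k) := by
  unfold Wien.ee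
  fun_prop

theorem SInt_ee_per (k : ℤ) : Wien.ee (2 * Real.pi) k = 1 := by
  unfold Wien.ee
  rw [Complex.exp_eq_one_iff]
  exact ⟨k, by push_cast; ring⟩

theorem SInt_fco_deriv {g : ℝ → ℝ} (hg : ContDiff ℝ 1 g) (hp : Function.Periodic g (2 * Real.pi))
    (k : ℤ) : fco (fun x => ((deriv g x : ℝ) : ℂ)) k
      = (Complex.I * k) * fco (fun x => ((g x : ℝ) : ℂ)) k := by
  have hd : ∀ x, HasDerivAt (fun x => ((g x : ℝ) : ℂ)) ((deriv g x : ℝ) : ℂ) x := fun x =>
    ((hg.differentiable one_ne_zero) x).hasDerivAt.ofReal_comp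
  have c1 : Continuous (deriv g) := hg.continuous_deriv le_rfl
  have c2 := SInt_ee_cont (-k)
  have h := intervalIntegral.integral_mul_deriv_eq_deriv_mul (a := 0) (b := 2 * Real.pi)
    (u := fun x : ℝ => Wien.ee x (-k)) (v := fun x => ((g x : ℝ) : ℂ))
    (u' := fun x => (Complex.I * ((-k : ℤ) : ℂ)) * Wien.ee x (-k))
    (v' := fun x => ((deriv g x : ℝ) : ℂ))
    (fun x _ => SInt_ee_hasDeriv (-k) x) (fun x _ => hd x)
    (Continuous.intervalIntegrable (by fun_prop) _ _)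
    (Continuous.intervalIntegrable (by fun_prop) _ _)
  have h0 : g (2 * Real.pi) = g 0 := by simpa using hp 0
  have e0 : Wien.ee 0 (-k) = 1 := by simp [Wien.ee]
  unfold fco
  rw [h, SInt_ee_per, e0, h0]
  have e : (fun x : ℝ => Complex.I * ((-k : ℤ) : ℂ) * Wien.ee x (-k) * ((g x : ℝ) : ℂ)) =
      fun x => -(Complex.I * k) * (Wien.ee x (-k) * ((g x : ℝ) : ℂ)) := by
    funext x; push_cast; ring
  rw [e, intervalIntegral.integral_const_mul]
  ring

theorem SInt_fco_iter {g : ℝ → ℝ} (hg : ContDiff ℝ ∞ g) (hp : Function.Periodic g (2 * Real.pi))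
    (k : ℤ) (j : ℕ) : fco (fun x => ((iteratedDeriv j g x : ℝ) : ℂ)) k
      = (Complex.I * k) ^ j * fco (fun x => ((g x : ℝ) : ℂ)) k := by
  induction j with
  | zero => simp
  | succ j ih =>
    have h1 : ContDiff ℝ 1 (iteratedDeriv j g) := by
      have h := ContDiff.iterate_deriv' 1 j ((contDiff_infty.1 hg) (1 + j))
      simpa [iteratedDeriv_eq_iterate] using h
    have h2 := SInt_fco_deriv h1 (SInt_iter_periodic hp j) k
    rw [iteratedDeriv_succ, h2, ih, pow_succ]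
    ring

theorem SInt_fco_le {g : ℝ → ℝ} {M : ℝ} (h : ∀ x, |g x| ≤ M) (k : ℤ) :
    ‖fco (fun x => ((g x : ℝ) : ℂ)) k‖ ≤ M := by
  unfold fco
  have h1 := intervalIntegral.norm_integral_le_of_norm_le_const (a := 0) (b := 2 * Real.pi)
    (f := fun x => Wien.ee x (-k) * ((g x : ℝ) : ℂ)) (C := M) (fun x _ => by
      rw [norm_mul, Wien.norm_ee, one_mul, Complex.norm_real]
      exact h x)
  have hπ : (0 : ℝ) < 2 * Real.pi := by positivity
  rw [norm_mul, norm_inv]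
  have e : ‖(2 * Real.pi : ℂ)‖ = 2 * Real.pi := by
    rw [norm_mul, Complex.norm_real, Complex.norm_ofNat, Real.norm_of_nonneg Real.pi_pos.le]
  rw [e]
  rw [sub_zero, abs_of_pos hπ] at h1
  calc (2 * Real.pi)⁻¹ * _ ≤ (2 * Real.pi)⁻¹ * (M * (2 * Real.pi)) :=
        mul_le_mul_of_nonneg_left h1 (by positivity)
    _ = M := by field_simp

theorem SInt_fco_sq {g : ℝ → ℝ} (hg : Continuous g) (k : ℤ) :
    ‖fco (fun x => ((g x : ℝ) : ℂ)) k‖ ^ 2 ≤ per (fun x => g x ^ 2) := by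
  have hπ : (0 : ℝ) < 2 * Real.pi := by positivity
  have h1 : ‖∫ x in (0 : ℝ)..(2 * Real.pi), Wien.ee x (-k) * ((g x : ℝ) : ℂ)‖ ≤
      per (fun x => |g x| * 1) := by
    refine (intervalIntegral.norm_integral_le_integral_norm hπ.le).trans (le_of_eq ?_)
    unfold per
    congr 1
    funext x
    rw [norm_mul, Wien.norm_ee, one_mul, Complex.norm_real]
    simp
  have h2 := perCS (fun x => |g x|) (fun _ => 1) hg.abs continuous_const
  have h3 : per (fun _ => (1 : ℝ) ^ 2) = 2 * Real.pi := by simp [per]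
  rw [h3] at h2
  simp only [sq_abs] at h2
  have e : ‖(2 * Real.pi : ℂ)‖ = 2 * Real.pi := by
    rw [norm_mul, Complex.norm_real, Complex.norm_ofNat, Real.norm_of_nonneg Real.pi_pos.le]
  have h0 : 0 ≤ per (fun x => g x ^ 2) := per_nonneg fun x => sq_nonneg _
  unfold fco
  rw [norm_mul, norm_inv, e, mul_pow]
  calc (2 * Real.pi)⁻¹ ^ 2 * ‖∫ x in (0 : ℝ)..(2 * Real.pi), Wien.ee x (-k) * ((g x : ℝ) : ℂ)‖ ^ 2
      ≤ (2 * Real.pi)⁻¹ ^ 2 * (per (fun x => g x ^ 2) * (2 * Real.pi)) := by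
        apply mul_le_mul_of_nonneg_left _ (by positivity)
        exact (pow_le_pow_left₀ (norm_nonneg _) h1 2).trans h2
    _ = (2 * Real.pi)⁻¹ * per (fun x => g x ^ 2) := by field_simp
    _ ≤ 1 * per (fun x => g x ^ 2) := by
        apply mul_le_mul_of_nonneg_right _ h0
        rw [inv_le_one₀ hπ]
        linarith [Real.pi_gt_three]
    _ = _ := one_mul _

/-- Summability of the weight. -/
theorem SInt_summable : Summable (fun k : ℤ => ((1 + |(k : ℝ)|) ^ 2)⁻¹) := by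
  have h1 : Summable (fun n : ℕ => (((n + 1 : ℕ) : ℝ) ^ 2)⁻¹) :=
    (summable_nat_add_iff 1).2 (Real.summable_nat_pow_inv.2 (by norm_num))
  apply Summable.of_nat_of_neg
  · refine h1.congr fun n => ?_
    push_cast
    rw [Nat.abs_cast, add_comm]
  · refine h1.congr fun n => ?_
    push_cast
    rw [abs_neg, Nat.abs_cast, add_comm]

/-- Interpolation for one element of the Wiener algebra. -/
theorem SInt_interp {m : ℕ} (hm : 1 ≤ m) {y : WC} {A D B₁ : ℝ} (hA : 0 ≤ A) (hD : 0 ≤ D)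
    (hB : 0 ≤ B₁) (h1 : ∀ k, ‖y k‖ ≤ A * D) (h2 : ∀ k : ℤ, ‖y k‖ ≤ B₁)
    (h3 : ∀ k : ℤ, |(k : ℝ)| ^ (2 * m) * ‖y k‖ ≤ B₁) :
    ‖y‖ ≤ A ^ (1 - 1 / (m : ℝ)) * (2 ^ (2 * m) * B₁) ^ (1 / (m : ℝ)) *
      (∑' k : ℤ, ((1 + |(k : ℝ)|) ^ 2)⁻¹) * D ^ (1 - 1 / (m : ℝ)) := by
  have hm0 : (0 : ℝ) < m := by exact_mod_cast hm
  have hm1 : 1 / (m : ℝ) ≤ 1 := by
    rw [div_le_one hm0]; exact_mod_cast hm
  have e0 : 0 ≤ 1 - 1 / (m : ℝ) := by linarith
  have key : ∀ k : ℤ, ‖y k‖ ≤ A ^ (1 - 1 / (m : ℝ)) * (2 ^ (2 * m) * B₁) ^ (1 / (m : ℝ)) *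
      D ^ (1 - 1 / (m : ℝ)) * ((1 + |(k : ℝ)|) ^ 2)⁻¹ := by
    intro k
    have hk : (0 : ℝ) < 1 + |(k : ℝ)| := by positivity
    have h4 : (1 + |(k : ℝ)|) ^ (2 * m) * ‖y k‖ ≤ 2 ^ (2 * m) * B₁ := by
      rcases le_total |(k : ℝ)| 1 with h | h
      · apply mul_le_mul _ (h2 k) (norm_nonneg _) (by positivity)
        apply pow_le_pow_left₀ hk.le
        linarith
      · calc (1 + |(k : ℝ)|) ^ (2 * m) * ‖y k‖ ≤ (2 * |(k : ℝ)|) ^ (2 * m) * ‖y k‖ := by
              apply mul_le_mul_of_nonneg_right _ (norm_nonneg _)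
              apply pow_le_pow_left₀ hk.le
              linarith
          _ = 2 ^ (2 * m) * (|(k : ℝ)| ^ (2 * m) * ‖y k‖) := by rw [mul_pow]; ring
          _ ≤ _ := mul_le_mul_of_nonneg_left (h3 k) (by positivity)
    have h5 : ‖y k‖ ≤ 2 ^ (2 * m) * B₁ * ((1 + |(k : ℝ)|) ^ (2 * m))⁻¹ := by
      rw [← div_eq_mul_inv, le_div_iff₀ (by positivity), mul_comm]
      exact h4
    have h6 : ‖y k‖ = ‖y k‖ ^ (1 - 1 / (m : ℝ)) * ‖y k‖ ^ (1 / (m : ℝ)) := by
      rw [← Real.rpow_add_of_nonneg (norm_nonneg _) e0 (by positivity)]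
      simp
    have h7 : (((1 + |(k : ℝ)|) ^ (2 * m))⁻¹) ^ (1 / (m : ℝ)) = ((1 + |(k : ℝ)|) ^ 2)⁻¹ := by
      rw [pow_mul, Real.inv_rpow (by positivity), one_div,
        Real.pow_rpow_inv_natCast (by positivity) (by omega)]
    rw [h6]
    calc ‖y k‖ ^ (1 - 1 / (m : ℝ)) * ‖y k‖ ^ (1 / (m : ℝ))
        ≤ (A * D) ^ (1 - 1 / (m : ℝ)) *
          (2 ^ (2 * m) * B₁ * ((1 + |(k : ℝ)|) ^ (2 * m))⁻¹) ^ (1 / (m : ℝ)) := by
          apply mul_le_mul
          · exact Real.rpow_le_rpow (norm_nonneg _) (h1 k) e0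
          · exact Real.rpow_le_rpow (norm_nonneg _) h5 (by positivity)
          · positivity
          · positivity
      _ = _ := by
          rw [Real.mul_rpow hA hD, Real.mul_rpow (by positivity) (by positivity), h7]
          ring
  refine (Wien.norm_le_tsum (SInt_summable.mul_left _) key).trans (le_of_eq ?_)
  rw [tsum_mul_left]
  ring

theorem claimSInt (h1 : ClaimSVal) (h2 : ClaimSFco) (h3 : ClaimSVelBd) (h4 : ClaimTan)
    (h5 : ClaimVelTan) : ClaimSInt := by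
  intro n m σ hσ hm
  refine ⟨2 * m + 4, fun K => ?_⟩
  obtain ⟨C3, hC3⟩ := h3 n (2 * m) σ K
  obtain ⟨hpos, C4, hC4, hnsq⟩ := h4 n σ K hσ
  set B₁ : ℝ := K * Real.sqrt K * Real.sqrt |C3| with hB₁
  set A : ℝ := K * Real.sqrt K * Real.sqrt C4 with hA
  refine ⟨A ^ (1 - 1 / (m : ℝ)) * (2 ^ (2 * m) * B₁) ^ (1 / (m : ℝ)) *
      (∑' k : ℤ, ((1 + |(k : ℝ)|) ^ 2)⁻¹), fun u p hu hp1 hp2 hj => ?_⟩
  have hp0 := hu.pos
  have hK : 0 < K := lt_of_lt_of_le hp0 hp2
  obtain ⟨hv1, hv2, hv3⟩ := hC3 u p hu hp1 hp2 hj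
  obtain ⟨-, -, -, hval⟩ := h1 n σ p u hσ hu
  set v : ℝ → V n := vel σ p p⁻¹ u with hv
  set s : ℝ := (p * Real.sqrt p)⁻¹ with hs
  have hs0 : 0 ≤ s := by positivity
  have hsK : s ≤ K * Real.sqrt K := by
    have e1 : p⁻¹ ≤ K := by
      have := inv_anti₀ (by positivity : 0 < K⁻¹) hp1
      rwa [inv_inv] at this
    have e2 : s = p⁻¹ * Real.sqrt p⁻¹ := by rw [hs, mul_inv, Real.sqrt_inv]
    rw [e2]
    exact mul_le_mul e1 (Real.sqrt_le_sqrt e1) (Real.sqrt_nonneg _) hK.le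
  have hKK : 0 ≤ K * Real.sqrt K := by positivity
  -- tangent vectors
  have htan : ∀ x, nsq (v x) ≤ C4 * B σ (v x) (v x) := fun x =>
    hnsq (u x) (hu.mem x) (by simpa using hj 0 (by omega) x) (v x) (h5 n σ p u hσ hu x).1
  have hvc : Continuous v := hv1.continuous
  have hvi : ∀ i, Continuous (fun x => v x i) := fun i => (continuous_apply i).comp hvc
  have hBc : Continuous (fun x => B σ (v x) (v x)) := by
    unfold B
    have := hvi
    fun_prop
  have hD0 : 0 ≤ dis σ p u := by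
    unfold dis
    exact per_nonneg fun x => hpos (u x) (hu.mem x) _ (h5 n σ p u hσ hu x).1
  have hvper : ∀ i, per (fun x => v x i ^ 2) ≤ C4 * dis σ p u := by
    intro i
    have e1 : per (fun x => v x i ^ 2) ≤ per (fun x => C4 * B σ (v x) (v x)) := by
      apply per_mono ((hvi i).pow 2) (continuous_const.mul hBc)
      intro x
      refine le_trans ?_ (htan x)
      exact Finset.single_le_sum (f := fun i => v x i ^ 2) (fun i _ => sq_nonneg _)
        (Finset.mem_univ i)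
    refine e1.trans (le_of_eq ?_)
    unfold dis per
    rw [intervalIntegral.integral_const_mul]
  have hB0 : 0 ≤ B₁ := by positivity
  have hA0 : 0 ≤ A := by positivity
  have hS0 : 0 ≤ ∑' k : ℤ, ((1 + |(k : ℝ)|) ^ 2)⁻¹ := tsum_nonneg fun k => by positivity
  rw [pi_norm_le_iff_of_nonneg (by positivity)]
  intro i
  set g : ℝ → ℝ := fun x => -(s * v x i) with hg
  have hvi' : ContDiff ℝ ∞ (fun x => v x i) := contDiff_pi.1 hv1 i
  have hgc : ContDiff ℝ ∞ g := (contDiff_const.mul hvi').neg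
  have hgp : Function.Periodic g (2 * Real.pi) := fun x => by simp only [hg, hv2 x]
  have hy : ∀ k, (MX σ (toX u) i) k = fco (fun x => ((g x : ℝ) : ℂ)) k := by
    intro k
    rw [h2 (MX σ (toX u) i) k]
    congr 1
    funext x
    exact hval i x
  have hgj : ∀ j ≤ 2 * m, ∀ x, |iteratedDeriv j g x| ≤ B₁ := by
    intro j hj' x
    have e1 : iteratedDeriv j g x = -(s * iteratedDeriv j v x i) := by
      rw [← SInt_comp hv1]
      have hc : ContDiffAt ℝ j (fun x => v x i) x :=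
        (hvi'.of_le (by exact_mod_cast le_top)).contDiffAt
      have e2 : g = -(fun x => s * v x i) := rfl
      rw [e2, iteratedDeriv_neg, iteratedDeriv_const_mul_field]
    have e3 : |iteratedDeriv j v x i| ≤ Real.sqrt |C3| := by
      apply Real.abs_le_sqrt
      refine le_trans ?_ ((hv3 j hj' x).trans (le_abs_self _))
      exact Finset.single_le_sum (f := fun i => iteratedDeriv j v x i ^ 2)
        (fun i _ => sq_nonneg _) (Finset.mem_univ i)
    rw [e1, abs_neg, abs_mul, abs_of_nonneg hs0, hB₁]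
    exact mul_le_mul hsK e3 (abs_nonneg _) hKK
  have b1 : ∀ k, ‖(MX σ (toX u) i) k‖ ≤ A * Real.sqrt (dis σ p u) := by
    intro k
    rw [hy k]
    have e1 := SInt_fco_sq hgc.continuous k
    have e2 : per (fun x => g x ^ 2) = s ^ 2 * per (fun x => v x i ^ 2) := by
      unfold per
      rw [← intervalIntegral.integral_const_mul]
      congr 1
      funext x
      simp only [hg]
      ring
    have e3 : per (fun x => g x ^ 2) ≤ (K * Real.sqrt K) ^ 2 * (C4 * dis σ p u) := by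
      rw [e2]
      exact mul_le_mul (pow_le_pow_left₀ hs0 hsK 2) (hvper i)
        (per_nonneg fun x => sq_nonneg _) (by positivity)
    have e4 := Real.abs_le_sqrt (e1.trans e3)
    rw [abs_of_nonneg (norm_nonneg _), Real.sqrt_mul (by positivity), Real.sqrt_sq hKK,
      Real.sqrt_mul hC4.le] at e4
    rw [hA]
    linarith [e4]
  have b2 : ∀ k : ℤ, ‖(MX σ (toX u) i) k‖ ≤ B₁ := by
    intro k
    rw [hy k]
    exact SInt_fco_le (fun x => by simpa using hgj 0 (by omega) x) k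
  have b3 : ∀ k : ℤ, |(k : ℝ)| ^ (2 * m) * ‖(MX σ (toX u) i) k‖ ≤ B₁ := by
    intro k
    rw [hy k]
    have e1 := SInt_fco_iter hgc hgp k (2 * m)
    have e2 := SInt_fco_le (fun x => hgj (2 * m) le_rfl x) k
    rw [e1, norm_mul, norm_pow, norm_mul, Complex.norm_I, one_mul, Complex.norm_intCast] at e2
    exact e2
  exact SInt_interp hm hA0 (Real.sqrt_nonneg _) hB0 b1 b2 b3

end Pool.Agent.Work.MP_4a14ce_an

end

section

/-!
# Sub-project S, item S7: values at constant speed curves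
-/

open Set MeasureTheory Topology Filter
open scoped ContDiff

namespace Pool.Agent.Work.MP_4a14ce_an

/-- elements with the same evaluations agree -/
theorem sval_ext (h1 : ClaimSFco) {w w' : WC} (h : ∀ x, Wien.evL x w = Wien.evL x w') :
    w = w' := by
  apply Wien.ext
  intro k
  rw [h1 w k, h1 w' k]
  congr 1
  funext x
  exact h x

theorem sval_const (h1 : ClaimSFco) {w : WC} {c : ℂ} (h : ∀ x, Wien.evL x w = c) :
    w = c • (1 : WC) := by
  apply sval_ext h1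
  intro x
  rw [h x, map_smul, Wien.evL_one, smul_eq_mul, mul_one]

theorem sval_mn_smul (c : ℂ) (w : WC) : mn (c • w) = c * mn w := by
  rw [map_smul, smul_eq_mul]

theorem sval_mn_one : mn (1 : WC) = 1 := by
  show (1 : WC) 0 = 1
  rw [Wien.one_def, Wien.single_self]

/-- evaluation of the bilinear form -/
theorem sval_ev {n : ℕ} (σ : ℝ) (z z' : WV n) (v v' : V n) (x : ℝ)
    (h : ∀ i, Wien.evL x (z i) = ((v i : ℝ) : ℂ)) (h' : ∀ i, Wien.evL x (z' i) = ((v' i : ℝ) : ℂ)) :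
    Wien.evL x (BW σ z z') = ((B σ v v' : ℝ) : ℂ) := by
  unfold BW B
  rw [map_add, map_smul, Wien.evL_mul, map_sum, h 0, h' 0]
  have h3 : ∀ i : Fin n, Wien.evL x (z i.succ * z' i.succ) = ((v i.succ * v' i.succ : ℝ) : ℂ) := by
    intro i
    rw [Wien.evL_mul, h, h']
    push_cast
    rfl
  simp_rw [h3]
  push_cast
  simp

theorem sval_cpow {p : ℝ} (hp : 0 < p) : ((p : ℝ) : ℂ) ^ (1 / 2 : ℂ) = ((Real.sqrt p : ℝ) : ℂ) := by
  rw [Real.sqrt_eq_rpow, Complex.ofReal_cpow hp.le]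
  norm_num

/-- Item S7. -/
theorem claimSVal (h1 : ClaimSFco) (h2 : ClaimSEv) (h3 : ConIds) : ClaimSVal := by
  intro n σ p u hσ hu
  have hp : 0 < p := hu.pos
  set z := J3 n (toX u) with hz
  have hev : ∀ j ≤ 4, ∀ (i : Fin (n + 1)) (x : ℝ),
      Wien.evL x (DV n j (toX u) i) = ((iteratedDeriv j u x i : ℝ) : ℂ) :=
    h2 n u hu.smooth hu.periodic
  have hz0 : ∀ x i, Wien.evL x (z 0 i) = ((iteratedDeriv 0 u x i : ℝ) : ℂ) := fun x i =>
    hev 0 (by norm_num) i x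
  have hz1 : ∀ x i, Wien.evL x (z 1 i) = ((iteratedDeriv 1 u x i : ℝ) : ℂ) := fun x i =>
    hev 1 (by norm_num) i x
  have hz2 : ∀ x i, Wien.evL x (z 2 i) = ((iteratedDeriv 2 u x i : ℝ) : ℂ) := fun x i =>
    hev 2 (by norm_num) i x
  have hz3 : ∀ x i, Wien.evL x (z 3 i) = ((iteratedDeriv 3 u x i : ℝ) : ℂ) := fun x i =>
    hev 3 (by norm_num) i x
  have hids := h3 n σ p u hσ hu
  -- the products
  have b00 : ∀ x, Wien.evL x (BW σ (z 0) (z 0)) = (σ : ℂ) := fun x => by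
    rw [sval_ev σ _ _ _ _ x (hz0 x) (hz0 x), iteratedDeriv_zero, (hids x).1]
  have b01 : ∀ x, Wien.evL x (BW σ (z 0) (z 1)) = 0 := fun x => by
    rw [sval_ev σ _ _ _ _ x (hz0 x) (hz1 x), iteratedDeriv_zero, (hids x).2.1]
    simp
  have b11 : ∀ x, Wien.evL x (BW σ (z 1) (z 1)) = (p : ℂ) := fun x => by
    rw [sval_ev σ _ _ _ _ x (hz1 x) (hz1 x), (hids x).2.2.1]
  have b02 : ∀ x, Wien.evL x (BW σ (z 0) (z 2)) = -(p : ℂ) := fun x => by
    rw [sval_ev σ _ _ _ _ x (hz0 x) (hz2 x), iteratedDeriv_zero, (hids x).2.2.2.1]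
    push_cast
    rfl
  have b12 : ∀ x, Wien.evL x (BW σ (z 1) (z 2)) = 0 := fun x => by
    rw [sval_ev σ _ _ _ _ x (hz1 x) (hz2 x), (hids x).2.2.2.2.1]
    simp
  have b22 : ∀ x, Wien.evL x (BW σ (z 2) (z 2)) =
      ((B σ (iteratedDeriv 2 u x) (iteratedDeriv 2 u x) : ℝ) : ℂ) := fun x =>
    sval_ev σ _ _ _ _ x (hz2 x) (hz2 x)
  have b23 : ∀ x, Wien.evL x (BW σ (z 2) (z 3)) =
      ((B σ (iteratedDeriv 2 u x) (iteratedDeriv 3 u x) : ℝ) : ℂ) := fun x =>
    sval_ev σ _ _ _ _ x (hz2 x) (hz3 x)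
  have b13 : ∀ x, Wien.evL x (BW σ (z 1) (z 3)) =
      -((B σ (iteratedDeriv 2 u x) (iteratedDeriv 2 u x) : ℝ) : ℂ) := fun x => by
    rw [sval_ev σ _ _ _ _ x (hz1 x) (hz3 x), (hids x).2.2.2.2.2.2.1]
    push_cast
    rfl
  have e11 : BW σ (z 1) (z 1) = (p : ℂ) • (1 : WC) := sval_const h1 b11
  have e00 : BW σ (z 0) (z 0) = (σ : ℂ) • (1 : WC) := sval_const h1 b00
  -- the scalars
  have vP : zP σ z = (p : ℂ) := by
    unfold zP
    rw [e11, sval_mn_smul, sval_mn_one, mul_one]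
  set m : ℂ := zm σ z with hm
  have vm : 2 * (Real.pi : ℂ) * m = ((per (fun x => B σ (iteratedDeriv 2 u x)
      (iteratedDeriv 2 u x)) : ℝ) : ℂ) := by
    have e1 : m = (BW σ (z 2) (z 2)) 0 := rfl
    have e2 : fco (fun x => Wien.evL x (BW σ (z 2) (z 2))) 0 =
        (2 * Real.pi : ℂ)⁻¹ * ((per (fun x => B σ (iteratedDeriv 2 u x)
          (iteratedDeriv 2 u x)) : ℝ) : ℂ) := by
      unfold fco per
      rw [← intervalIntegral.integral_ofReal]
      congr 1
      apply intervalIntegral.integral_congr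
      intro x _
      simp only [neg_zero, Wien.ee_zero, one_mul]
      exact b22 x
    have hpi : (2 * Real.pi : ℂ) ≠ 0 := by
      have := Real.pi_ne_zero
      norm_num
    rw [e1, h1 _ 0, e2, mul_inv_cancel_left₀ hpi]
  have va : za σ z = p * m := by
    unfold za
    rw [e11, smul_mul_assoc, one_mul, sval_mn_smul]
    rfl
  have vb : zb σ z = σ * m := by
    unfold zb
    rw [e00, smul_mul_assoc, one_mul, sval_mn_smul]
    rfl
  have vc : zc σ z = σ := by
    unfold zc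
    rw [e00, sval_mn_smul, sval_mn_one, mul_one]
  set s : ℝ := Real.sqrt p with hs
  have hs0 : 0 < s := Real.sqrt_pos.2 hp
  have hsp : p = s ^ 2 := (Real.sq_sqrt hp.le).symm
  have hspc : (p : ℂ) = (s : ℂ) ^ 2 := by rw [hsp]; push_cast; rfl
  have hsc : (s : ℂ) ≠ 0 := by exact_mod_cast hs0.ne'
  have vs : zs σ z = (s : ℂ) := by
    unfold zs
    rw [vP, sval_cpow hp]
  have hσ2 : (σ : ℂ) ^ 2 = 1 := by
    rcases hσ with h | h <;> rw [h] <;> norm_num
  have vq : zq σ z = (1 - σ) / 2 * (s : ℂ)⁻¹ := by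
    unfold zq
    rw [vs, va, vb, vc, hspc, ← hm]
    field_simp
    linear_combination (-6 * m) * hσ2
  have vco : coefW σ z = ((2 * (p * s)⁻¹ : ℝ) : ℂ) • (1 : WC) := by
    unfold coefW
    rw [vs, e11, e00, smul_smul, smul_smul, ← sub_smul, ← add_smul]
    congr 1
    push_cast
    rw [hspc]
    field_simp
    linear_combination hσ2
  refine ⟨vP, vco, ?_, ?_⟩
  · show zF σ z = _
    unfold zF en
    push_cast
    rw [← vm, vs, va, vb, vc, ← hm, ← hs, hspc]
    field_simp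
    linear_combination (m) * hσ2
  · intro i x
    show Wien.evL x (coefW σ z * DV n 4 (toX u) i + M3 σ z i) = _
    rw [vco, map_add, smul_mul_assoc, one_mul, map_smul, hev 4 le_rfl i x, smul_eq_mul]
    unfold M3
    simp only [map_add, map_sub, map_neg, map_smul, Wien.evL_mul, smul_eq_mul, b22, b23, b12, b13,
      b01, b11, b02, hz0, hz1, hz2, hz3, vs, vq]
    have hvel : vel σ p p⁻¹ u x i = -2 * iteratedDeriv 4 u x i - 2 * σ * p * iteratedDeriv 2 u x i
        - 3 * p⁻¹ * (2 * B σ (iteratedDeriv 2 u x) (iteratedDeriv 3 u x)) * iteratedDeriv 1 u x i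
        + 2 * σ * (B σ (iteratedDeriv 2 u x) (iteratedDeriv 2 u x) - σ * p ^ 2) * u x i
        - (3 * p⁻¹ * (B σ (iteratedDeriv 2 u x) (iteratedDeriv 2 u x) - σ * p ^ 2) +
          (2 * σ - 1) * p) * (iteratedDeriv 2 u x i + σ * p * u x i) := rfl
    rw [hvel, iteratedDeriv_zero]
    push_cast
    rw [hspc]
    generalize (iteratedDeriv 4 u x i) = U4
    generalize (iteratedDeriv 3 u x i) = U3
    generalize (iteratedDeriv 2 u x i) = U2
    generalize (iteratedDeriv 1 u x i) = U1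
    generalize (u x i) = U0
    generalize (B σ (iteratedDeriv 2 u x) (iteratedDeriv 2 u x)) = B22
    generalize (B σ (iteratedDeriv 2 u x) (iteratedDeriv 3 u x)) = B23
    clear_value s m z
    rcases hσ with h | h
    · rw [h]
      push_cast
      field_simp
      ring
    · rw [h]
      push_cast
      field_simp
      ring

end Pool.Agent.Work.MP_4a14ce_an

end
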