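import Pool.Agent.Work.MP_4a14ce_an.Bd.B01
import Pool.Agent.Work.MP_4a14ce_an.Bd.B02
import Pool.Agent.Work.MP_4a14ce_an.WDefs
import Pool.Agent.Work.MP_4a14ce_an.Bd.B03
import Pool.Agent.Work.MP_4a14ce_an.Bd.B04
import Pool.Agent.Work.MP_4a14ce_an.DefsLU

/-! Bundle of small proof modules (one section per former module). -/

section

/-!
# All derivatives of the velocity are bounded
-/

open Set MeasureTheory Topology Filter
open scoped ContDiff

set_option autoImplicit false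

namespace Pool.Agent.Work.MP_4a14ce_an

/-- uniform bounds for all derivatives up to order `N` of a family of smooth functions -/
def SVelBd_UB {ι : Type*} (N : ℕ) (F : ι → ℝ → ℝ) : Prop :=
  ∃ C : ℝ, 0 ≤ C ∧ ∀ i, ContDiff ℝ ∞ (F i) ∧ ∀ j ≤ N, ∀ x, |iteratedDeriv j (F i) x| ≤ C

theorem SVelBd_const {ι : Type*} {N : ℕ} {c : ι → ℝ} {C : ℝ} (hC : 0 ≤ C) (h : ∀ i, |c i| ≤ C) :
    SVelBd_UB N (fun i _ => c i) := by
  refine ⟨C, hC, fun i => ⟨contDiff_const, fun j _ x => ?_⟩⟩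
  rw [iteratedDeriv_const]
  split_ifs
  · exact h i
  · simpa using hC

theorem SVelBd_add {ι : Type*} {N : ℕ} {F G : ι → ℝ → ℝ} (hF : SVelBd_UB N F)
    (hG : SVelBd_UB N G) : SVelBd_UB N (fun i x => F i x + G i x) := by
  obtain ⟨C, hC, hF⟩ := hF
  obtain ⟨D, hD, hG⟩ := hG
  refine ⟨C + D, add_nonneg hC hD, fun i => ⟨(hF i).1.add (hG i).1, fun j hj x => ?_⟩⟩
  have e : iteratedDeriv j (fun x => F i x + G i x) x =
      iteratedDeriv j (F i) x + iteratedDeriv j (G i) x :=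
    iteratedDeriv_fun_add ((contDiff_infty.1 (hF i).1 j).contDiffAt)
      ((contDiff_infty.1 (hG i).1 j).contDiffAt)
  rw [e]
  exact (abs_add_le _ _).trans (add_le_add ((hF i).2 j hj x) ((hG i).2 j hj x))

theorem SVelBd_mul {ι : Type*} {N : ℕ} {F G : ι → ℝ → ℝ} (hF : SVelBd_UB N F)
    (hG : SVelBd_UB N G) : SVelBd_UB N (fun i x => F i x * G i x) := by
  obtain ⟨C, hC, hF⟩ := hF
  obtain ⟨D, hD, hG⟩ := hG
  refine ⟨2 ^ N * (C * D), by positivity, fun i => ⟨(hF i).1.mul (hG i).1, fun j hj x => ?_⟩⟩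
  have h := norm_iteratedFDeriv_mul_le (n := j) (contDiff_infty.1 (hF i).1 j)
    (contDiff_infty.1 (hG i).1 j) x le_rfl
  rw [norm_iteratedFDeriv_eq_norm_iteratedDeriv, Real.norm_eq_abs] at h
  refine h.trans ?_
  calc ∑ k ∈ Finset.range (j + 1), (j.choose k : ℝ) * ‖iteratedFDeriv ℝ k (F i) x‖
        * ‖iteratedFDeriv ℝ (j - k) (G i) x‖
      ≤ ∑ k ∈ Finset.range (j + 1), (j.choose k : ℝ) * (C * D) := by
        refine Finset.sum_le_sum fun k hk => ?_
        rw [Finset.mem_range] at hk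
        rw [norm_iteratedFDeriv_eq_norm_iteratedDeriv, norm_iteratedFDeriv_eq_norm_iteratedDeriv,
          Real.norm_eq_abs, Real.norm_eq_abs, mul_assoc]
        have h1 := (hF i).2 k (by omega) x
        have h2 := (hG i).2 (j - k) (by omega) x
        gcongr
    _ = 2 ^ j * (C * D) := by
        rw [← Finset.sum_mul]
        congr 1
        exact_mod_cast Nat.sum_range_choose j
    _ ≤ 2 ^ N * (C * D) := by
        gcongr
        norm_num

theorem SVelBd_sum {ι κ : Type*} {N : ℕ} (s : Finset κ) {F : κ → ι → ℝ → ℝ}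
    (hF : ∀ k, SVelBd_UB N (F k)) : SVelBd_UB N (fun i x => ∑ k ∈ s, F k i x) := by
  classical
  induction s using Finset.induction_on with
  | empty => simpa using SVelBd_const (N := N) (c := fun _ : ι => (0 : ℝ)) le_rfl (by simp)
  | insert a s ha ih =>
    have := SVelBd_add (hF a) ih
    simpa [Finset.sum_insert ha] using this

theorem SVelBd_comp {n : ℕ} {u : ℝ → V n} (hu : ContDiff ℝ ∞ u) (a k : ℕ) (i : Fin (n + 1)) :
    iteratedDeriv k (fun x => iteratedDeriv a u x i) = fun x => iteratedDeriv (a + k) u x i := by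
  induction k with
  | zero => rw [iteratedDeriv_zero]; rfl
  | succ k ih =>
    rw [iteratedDeriv_succ, ih, H4a_comp_der hu]
    rfl

theorem claimSVelBd : ClaimSVelBd := by
  intro n N σ K
  -- the family
  let ι : Type := {q : (ℝ → V n) × ℝ // Con σ q.2 q.1 ∧ K⁻¹ ≤ q.2 ∧ q.2 ≤ K ∧
    ∀ j ≤ N + 4, ∀ x, nsq (iteratedDeriv j q.1 x) ≤ K}
  let U : ι → ℝ → V n := fun q => q.1.1
  let P : ι → ℝ := fun q => q.1.2
  have hU : ∀ q, ContDiff ℝ ∞ (U q) := fun q => q.2.1.smooth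
  have hpos : ∀ q, 0 < P q := fun q => q.2.1.pos
  have hPK : ∀ q, P q ≤ K := fun q => q.2.2.2.1
  have hKpos : ∀ _q : ι, 0 < K := fun q => lt_of_lt_of_le (hpos q) (hPK q)
  have hP : ∀ q, |P q| ≤ |K| := fun q => by
    rw [abs_of_pos (hpos q)]; exact (hPK q).trans (le_abs_self K)
  have hM : ∀ q, |(P q)⁻¹| ≤ |K| := fun q => by
    rw [abs_of_pos (inv_pos.2 (hpos q))]
    exact (inv_le_of_inv_le₀ (hKpos q) q.2.2.1).trans (le_abs_self K)
  have cP : SVelBd_UB N (fun q (_ : ℝ) => P q) := SVelBd_const (abs_nonneg K) hP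
  have cM : SVelBd_UB N (fun q (_ : ℝ) => (P q)⁻¹) := SVelBd_const (abs_nonneg K) hM
  have cc : ∀ c : ℝ, SVelBd_UB N (fun (_ : ι) (_ : ℝ) => c) := fun c =>
    SVelBd_const (abs_nonneg c) fun _ => le_rfl
  have cD : ∀ a ≤ 4, ∀ i, SVelBd_UB N (fun q x => iteratedDeriv a (U q) x i) := by
    intro a ha i
    refine ⟨|K| + 1, by positivity, fun q => ⟨H4a_comp_smooth (hU q) a i, fun j hj x => ?_⟩⟩
    rw [SVelBd_comp (hU q)]
    have h1 : nsq (iteratedDeriv (a + j) (U q) x) ≤ K := q.2.2.2.2 (a + j) (by omega) x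
    have h2 : (iteratedDeriv (a + j) (U q) x i) ^ 2 ≤ nsq (iteratedDeriv (a + j) (U q) x) :=
      Finset.single_le_sum (f := fun i => (iteratedDeriv (a + j) (U q) x i) ^ 2)
        (fun _ _ => sq_nonneg _) (Finset.mem_univ i)
    refine abs_le_of_sq_le_sq ?_ (by positivity)
    have h3 := le_abs_self K
    nlinarith [abs_nonneg K]
  have cB : ∀ a ≤ 4, ∀ b ≤ 4, SVelBd_UB N
      (fun q x => B σ (iteratedDeriv a (U q) x) (iteratedDeriv b (U q) x)) := by
    intro a ha b hb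
    exact SVelBd_add (SVelBd_mul (cc σ) (SVelBd_mul (cD a ha 0) (cD b hb 0)))
      (SVelBd_sum _ fun i : Fin n => SVelBd_mul (cD a ha i.succ) (cD b hb i.succ))
  have crho : SVelBd_UB N (fun q x => rho σ (P q) (U q) x) := by
    have h := SVelBd_add (cB 2 (by norm_num) 2 (by norm_num))
      (SVelBd_mul (cc (-σ)) (SVelBd_mul cP cP))
    refine cast ?_ h
    congr 1
    funext q x
    rw [rho]; ring
  have crhox : SVelBd_UB N (fun q x => rhox σ (U q) x) :=
    SVelBd_mul (cc 2) (cB 2 (by norm_num) 3 (by norm_num))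
  have cbeta : SVelBd_UB N (fun q x => beta σ (P q) (P q)⁻¹ (U q) x) :=
    SVelBd_add (SVelBd_mul (SVelBd_mul (cc 3) cM) crho) (SVelBd_mul (cc (2 * σ - 1)) cP)
  have cvel : ∀ i, SVelBd_UB N (fun q x => vel σ (P q) (P q)⁻¹ (U q) x i) := by
    intro i
    have h4 := SVelBd_mul (cc (-2)) (cD 4 le_rfl i)
    have h2 := SVelBd_mul (SVelBd_mul (cc (-(2 * σ))) cP) (cD 2 (by norm_num) i)
    have h1 := SVelBd_mul (SVelBd_mul (SVelBd_mul (cc (-3)) cM) crhox) (cD 1 (by norm_num) i)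
    have h0 := SVelBd_mul (SVelBd_mul (cc (2 * σ)) crho) (cD 0 (by norm_num) i)
    have hb := SVelBd_mul (SVelBd_mul (cc (-1)) cbeta)
      (SVelBd_add (cD 2 (by norm_num) i) (SVelBd_mul (SVelBd_mul (cc σ) cP) (cD 0 (by norm_num) i)))
    have h := SVelBd_add (SVelBd_add (SVelBd_add (SVelBd_add h4 h2) h1) h0) hb
    refine cast ?_ h
    congr 1
    funext q x
    simp only [vel, Pi.sub_apply, Pi.add_apply, Pi.smul_apply, smul_eq_mul, iteratedDeriv_zero]
    ring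
  choose C hC0 hC using cvel
  refine ⟨∑ i, C i ^ 2, fun u p hcon hp1 hp2 hb => ?_⟩
  let q : ι := ⟨(u, p), hcon, hp1, hp2, hb⟩
  have hsm : ContDiff ℝ ∞ (vel σ p p⁻¹ u) := by
    rw [contDiff_pi]
    intro i
    exact (hC i q).1
  refine ⟨hsm, ?_, ?_⟩
  · intro x
    have hper := fun j => H4a_per hcon.periodic j x
    have h0 : u (x + 2 * Real.pi) = u x := hcon.periodic x
    simp only [vel, beta, rho, rhox, hper, h0]
  · intro j hj x
    unfold nsq
    refine Finset.sum_le_sum fun i _ => ?_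
    have e := SVelBd_comp hsm 0 j i
    simp only [iteratedDeriv_zero, zero_add] at e
    have h1 : iteratedDeriv j (vel σ p p⁻¹ u) x i =
        iteratedDeriv j (fun x => vel σ p p⁻¹ u x i) x := by rw [e]
    rw [h1, ← sq_abs]
    exact pow_le_pow_left₀ (abs_nonneg _) ((hC i q).2 j hj x) 2

end Pool.Agent.Work.MP_4a14ce_an

end

section

/-!
# A constant speed solution gives an elastic flow
-/

open Set MeasureTheory Topology Filter
open scoped ContDiff

namespace Pool.Agent.Work.MP_4a14ce_an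

variable {n : ℕ}

/-! ## joint smoothness -/

lemma ttf_time {I : Set ℝ} {a : ℝ → ℝ} (ha : ContDiffOn ℝ ∞ a I) : JS I (fun t _ => a t) := by
  unfold JS
  exact ha.comp contDiff_fst.contDiffOn fun z hz => hz.1

lemma ttf_add {I : Set ℝ} {f g : ℝ → ℝ → ℝ} (hf : JS I f) (hg : JS I g) :
    JS I (fun t x => f t x + g t x) := ContDiffOn.add hf hg

lemma ttf_sub {I : Set ℝ} {f g : ℝ → ℝ → ℝ} (hf : JS I f) (hg : JS I g) :
    JS I (fun t x => f t x - g t x) := ContDiffOn.sub hf hg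

lemma ttf_mul {I : Set ℝ} {f g : ℝ → ℝ → ℝ} (hf : JS I f) (hg : JS I g) :
    JS I (fun t x => f t x * g t x) := ContDiffOn.mul hf hg

lemma ttf_const (I : Set ℝ) (c : ℝ) : JS I (fun _ _ => c) := contDiffOn_const

lemma ttf_at0 {I : Set ℝ} {f : ℝ → ℝ → ℝ} (hf : JS I f) : ContDiffOn ℝ ∞ (fun t => f t 0) I := by
  unfold JS at hf
  have h1 : ContDiffOn ℝ ∞ (fun t : ℝ => (t, (0 : ℝ))) I := (contDiff_id.prodMk contDiff_const).contDiffOn
  exact hf.comp h1 fun t ht => ⟨ht, mem_univ _⟩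

/-- the tangential velocity is jointly smooth -/
lemma ttf_b_JS (hSl : JSSlice) (hDt : JSDt1) (hJP : JSPer) (hInt : JSInt0x) {σ : ℝ} {I : Set ℝ}
    (hI : Itv I) {u : ℝ → ℝ → V n} {p : ℝ → ℝ} (hu : JS I u) (hp : ContDiffOn ℝ ∞ p I)
    (hp0 : ∀ t ∈ I, 0 < p t) :
    JS I (fun t y => (p t ^ 2)⁻¹ * xi σ (p t) (p t)⁻¹ (u t) y) := by
  have j2 := (hSl (n + 1) I u hI hu).2 2
  have j3 := (hSl (n + 1) I u hI hu).2 3
  have hpi : ContDiffOn ℝ ∞ (fun t => (p t)⁻¹) I := hp.inv fun t ht => (hp0 t ht).ne'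
  have hp2i : ContDiffOn ℝ ∞ (fun t => (p t ^ 2)⁻¹) I :=
    (hp.pow 2).inv fun t ht => (pow_pos (hp0 t ht) 2).ne'
  have B22 := energy_B_JS σ j2 j2
  have B23 := energy_B_JS σ j2 j3
  have B33 := energy_B_JS σ j3 j3
  have Jp := ttf_time hp
  have Jpi := ttf_time hpi
  have Jp2i := ttf_time hp2i
  have Jrho : JS I (fun t x => rho σ (p t) (u t) x) := by
    unfold rho
    exact ttf_sub B22 (ttf_mul (ttf_const I σ) (ContDiffOn.pow Jp 2))
  have Jrhox : JS I (fun t x => rhox σ (u t) x) := by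
    unfold rhox
    exact ttf_mul (ttf_const I 2) B23
  have Jeta : JS I (fun t x => eta σ (p t) (u t) x) := by
    unfold eta
    exact ttf_add (ttf_sub B33 (ttf_mul (ttf_mul (ttf_const I (2 * σ)) Jp) B22))
      (ContDiffOn.pow Jp 3)
  have Jhh : JS I (fun t x => hh σ (p t) (p t)⁻¹ (u t) x) := by
    unfold hh
    exact ttf_sub (ttf_sub (ttf_mul (ttf_mul (ttf_const I 2) Jpi) Jeta)
      (ttf_mul (ttf_mul (ttf_const I 3) (ContDiffOn.pow Jpi 2)) (ContDiffOn.pow Jrho 2)))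
      (ttf_mul (ttf_const I (2 * σ - 1)) Jrho)
  obtain ⟨ft, hft, hft2⟩ := hDt I (fun t x => hh σ (p t) (p t)⁻¹ (u t) x) hI Jhh
  have hmu : ContDiffOn ℝ ∞ (fun t => mu σ (p t) (p t)⁻¹ (u t)) I := by
    unfold mu
    refine contDiffOn_const.mul ?_
    refine (hJP I (fun t x => hh σ (p t) (p t)⁻¹ (u t) x) ft hI Jhh hft fun t ht x => ?_).1
    have := hft2 0 t ht x
    simpa only [iteratedDeriv_zero] using this
  have Jmu := ttf_time hmu
  have JI := hInt I (fun t x => hh σ (p t) (p t)⁻¹ (u t) x - mu σ (p t) (p t)⁻¹ (u t)) hI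
    (ttf_sub Jhh Jmu)
  have J0 := ttf_time (ttf_at0 Jrhox)
  unfold xi alpha
  exact ttf_mul Jp2i (ttf_add (ttf_add (ttf_add (ttf_mul (ttf_mul (ttf_const I (-4)) Jpi) Jrhox)
    (ttf_mul Jpi J0)) JI) (ttf_mul (ttf_mul (ttf_const I 3) Jpi) Jrhox))

/-- the tangential velocity is periodic -/
lemma ttf_xi_per {σ P m : ℝ} {U : ℝ → V n} (hs : ContDiff ℝ ∞ U)
    (hper : Function.Periodic U (2 * Real.pi)) :
    Function.Periodic (xi σ P m U) (2 * Real.pi) := by
  have cD := energy_iter_cont hs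
  have pD := energy_iter_per hper
  have p2 : ∀ x, iteratedDeriv 2 U (x + 2 * Real.pi) = iteratedDeriv 2 U x := pD 2
  have p3 : ∀ x, iteratedDeriv 3 U (x + 2 * Real.pi) = iteratedDeriv 3 U x := pD 3
  have crho : Continuous (rho σ P U) := by
    unfold rho
    exact (energy_B_cont σ (cD 2) (cD 2)).sub continuous_const
  have ceta : Continuous (eta σ P U) := by
    unfold eta
    exact ((energy_B_cont σ (cD 3) (cD 3)).sub (continuous_const.mul
      (energy_B_cont σ (cD 2) (cD 2)))).add continuous_const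
  have chh : Continuous (hh σ P m U) := by
    unfold hh
    fun_prop
  have phh : Function.Periodic (fun y => hh σ P m U y - mu σ P m U) (2 * Real.pi) := by
    intro x
    simp only [hh, eta, rho, p2, p3]
  have cf : Continuous (fun y => hh σ P m U y - mu σ P m U) := chh.sub continuous_const
  have hz : (∫ y in (0:ℝ)..(0 + 2 * Real.pi), (hh σ P m U y - mu σ P m U)) = 0 := by
    rw [zero_add, intervalIntegral.integral_sub (chh.intervalIntegrable _ _)
      (continuous_const.intervalIntegrable _ _), intervalIntegral.integral_const]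
    have : (0:ℝ) < 2 * Real.pi := by positivity
    unfold mu per
    rw [smul_eq_mul]
    field_simp
    ring
  intro x
  have h1 : (∫ y in (0:ℝ)..(x + 2 * Real.pi), (hh σ P m U y - mu σ P m U)) =
      ∫ y in (0:ℝ)..x, (hh σ P m U y - mu σ P m U) := by
    rw [← intervalIntegral.integral_add_adjacent_intervals (cf.intervalIntegrable 0 x)
      (cf.intervalIntegrable x (x + 2 * Real.pi)), phh.intervalIntegral_add_eq x 0, hz, add_zero]
  unfold xi alpha
  rw [h1]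
  simp only [rhox, p2, p3]

/-- chain rule for a jointly smooth function along a curve -/
lemma ttf_chain {I : Set ℝ} (hU : UniqueDiffOn ℝ I) {u : ℝ → ℝ → V n} (hu : JS I u)
    {t : ℝ} (ht : t ∈ I) {Z : ℝ → ℝ} {Z' : ℝ} (hZ : HasDerivWithinAt Z Z' I t) {ut uy : V n}
    (hut : HasDerivWithinAt (fun s => u s (Z t)) ut I t) (huy : HasDerivAt (u t) uy (Z t)) :
    HasDerivWithinAt (fun s => u s (Z s)) (ut + Z' • uy) I t := by
  unfold JS at hu
  have hd : DifferentiableWithinAt ℝ (fun z : ℝ × ℝ => u z.1 z.2) (I ×ˢ univ) (t, Z t) :=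
    (hu.differentiableOn (by simp)) (t, Z t) ⟨ht, mem_univ _⟩
  set L := fderivWithin ℝ (fun z : ℝ × ℝ => u z.1 z.2) (I ×ˢ univ) (t, Z t) with hL
  have hF : HasFDerivWithinAt (fun z : ℝ × ℝ => u z.1 z.2) L (I ×ˢ univ) (t, Z t) :=
    hd.hasFDerivWithinAt
  have c1 : HasDerivWithinAt (fun s : ℝ => (s, Z t)) (1, 0) I t :=
    (hasDerivWithinAt_id t I).prodMk (hasDerivWithinAt_const t I (Z t))
  have c2 : HasDerivWithinAt (fun y : ℝ => (t, y)) (0, 1) univ (Z t) :=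
    (hasDerivWithinAt_const (Z t) univ t).prodMk (hasDerivWithinAt_id (Z t) univ)
  have c3 : HasDerivWithinAt (fun s : ℝ => (s, Z s)) (1, Z') I t :=
    (hasDerivWithinAt_id t I).prodMk hZ
  have m1 : MapsTo (fun s : ℝ => (s, Z t)) I (I ×ˢ univ) := fun s hs => ⟨hs, mem_univ _⟩
  have m3 : MapsTo (fun s : ℝ => (s, Z s)) I (I ×ˢ univ) := fun s hs => ⟨hs, mem_univ _⟩
  have d1 : HasDerivWithinAt (fun s => u s (Z t)) (L (1, 0)) I t :=
    HasFDerivWithinAt.comp_hasDerivWithinAt (l := fun z : ℝ × ℝ => u z.1 z.2)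
      (f := fun s : ℝ => (s, Z t)) t hF c1 m1
  have d2 : HasDerivWithinAt (fun y => u t y) (L (0, 1)) univ (Z t) :=
    hF.comp_hasDerivWithinAt (Z t) c2
      (show MapsTo (fun y : ℝ => (t, y)) univ (I ×ˢ univ) from fun y _ => ⟨ht, mem_univ _⟩)
  have d3 : HasDerivWithinAt (fun s => u s (Z s)) (L (1, Z')) I t :=
    HasFDerivWithinAt.comp_hasDerivWithinAt (l := fun z : ℝ × ℝ => u z.1 z.2)
      (f := fun s : ℝ => (s, Z s)) t hF c3 m3
  have e1 : L (1, 0) = ut := (hU t ht).eq_deriv _ d1 hut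
  rw [hasDerivWithinAt_univ] at d2
  have e2 : L (0, 1) = uy := d2.unique huy
  have e3 : ((1 : ℝ), Z') = (1, 0) + Z' • ((0 : ℝ), (1 : ℝ)) := by
    ext <;> simp
  refine d3.congr_deriv ?_
  rw [e3, map_add, map_smul, e1, e2]

theorem claimTToFlow (hIB : ItvBasic) (hSl : JSSlice) (hDt : JSDt1) (hJP : JSPer)
    (hInt : JSInt0x) (hJC : JSComp) (hODE : ClaimODE) (hGC : ClaimGradCon) (hGR : ClaimGradRep)
    (hEF : ClaimEnergyForm) : ClaimTToFlow := by
  intro n σ γ₀ u p Y0 hσ hT hY0 hγ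
  have hI : Itv (Ici (0:ℝ)) := Or.inl ⟨0, rfl⟩
  obtain ⟨hU, -, -⟩ := hIB _ hI
  set b : ℝ → ℝ → ℝ := fun t y => (p t ^ 2)⁻¹ * xi σ (p t) (p t)⁻¹ (u t) y with hb
  have hbJ : JS (Ici 0) b := ttf_b_JS hSl hDt hJP hInt hI hT.smooth hT.psmooth
    fun t ht => (hT.con t ht).pos
  have hbP : ∀ t ∈ Ici (0:ℝ), Function.Periodic (b t) (2 * Real.pi) := by
    intro t ht x
    have := ttf_xi_per (σ := σ) (P := p t) (m := (p t)⁻¹) (hT.con t ht).smooth
      (hT.con t ht).periodic x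
    simp only [hb, this]
  obtain ⟨Y, hYJ, hYs, hYR, hYd⟩ := hODE b hbJ hbP Y0 hY0
  have hclosed : ∀ t ∈ Ici (0:ℝ), IsClosedCurve σ (u t) := fun t ht =>
    (hEF n σ (p t) (u t) hσ (hT.con t ht)).1
  refine ⟨Y, hYR, ?_⟩
  refine ⟨hJC (n + 1) _ u Y hT.smooth hYJ, fun t ht => ?_, ?_, fun t ht => ?_⟩
  · -- closed curves
    have hc := hclosed t ht
    have hR := hYR t ht
    refine ⟨hc.smooth.comp hR.smooth, fun x => ?_, fun x => hc.mem _, fun x => ?_⟩
    · show u t (Y t (x + 2 * Real.pi)) = u t (Y t x)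
      rw [hR.shift]
      exact hc.periodic _
    · have h1 : HasDerivAt (Y t) (deriv (Y t) x) x :=
        (hR.smooth.differentiable (by simp) x).hasDerivAt
      have h2 : HasDerivAt (u t) (deriv (u t) (Y t x)) (Y t x) :=
        (hc.smooth.differentiable (by simp) _).hasDerivAt
      have h3 := h2.scomp x h1
      have h4 : deriv (fun x => u t (Y t x)) x = deriv (Y t) x • deriv (u t) (Y t x) := h3.deriv
      rw [h4]
      exact smul_ne_zero (hR.deriv_pos x).ne' (hc.regular _)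
  · funext x
    rw [hYs, hγ]
  · -- the flow equation
    have hc := hclosed t ht
    have hG := hGR n σ (u t) (fun x => -((p t ^ 2)⁻¹ • vel σ (p t) (p t)⁻¹ (u t) x)) (Y t) hσ hc
      (hYR t ht) (hGC n σ (p t) (u t) hσ (hT.con t ht))
    have hder : ∀ x, derivWithin (fun s => u s (Y s x)) (Ici 0) t =
        (p t ^ 2)⁻¹ • vel σ (p t) (p t)⁻¹ (u t) (Y t x) := by
      intro x
      have h2 : HasDerivAt (u t) (deriv (u t) (Y t x)) (Y t x) :=
        (hc.smooth.differentiable (by simp) _).hasDerivAt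
      have h1 := ttf_chain hU hT.smooth ht (Z := fun s => Y s x) (hYd t ht x)
        (hT.eqn t ht (Y t x)) h2
      rw [h1.derivWithin (hU t ht)]
      have e1 : rhs σ (p t) (p t)⁻¹ (u t) (Y t x) = vel σ (p t) (p t)⁻¹ (u t) (Y t x) +
          xi σ (p t) (p t)⁻¹ (u t) (Y t x) • iteratedDeriv 1 (u t) (Y t x) := by
        unfold rhs vel xi
        module
      rw [e1, iteratedDeriv_one]
      simp only [hb]
      module
    have he : (fun x => -derivWithin (fun s => u s (Y s x)) (Ici 0) t) =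
        fun x => -((p t ^ 2)⁻¹ • vel σ (p t) (p t)⁻¹ (u t) (Y t x)) := by
      funext x
      rw [hder x]
    rw [he]
    exact hG

end Pool.Agent.Work.MP_4a14ce_an

end

section

/-!
# The velocity is tangent and normal; the tangential part of the right hand side
-/

open Set MeasureTheory Topology Filter
open scoped ContDiff

namespace Pool.Agent.Work.MP_4a14ce_an

variable {n : ℕ}

theorem VelXi_sub_left (σ : ℝ) (x y z : V n) : B σ (x - y) z = B σ x z - B σ y z := by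
  have h1 : x - y = x + (-1 : ℝ) • y := by simp [sub_eq_add_neg]
  rw [h1, ConId_add_left, ConId_smul_left]
  ring

/-- Expansion of `B(vel, z)`. -/
theorem VelXi_expand (σ p m : ℝ) (u : ℝ → V n) (x : ℝ) (z : V n) :
    B σ (vel σ p m u x) z =
      -2 * B σ (iteratedDeriv 4 u x) z - (2 * σ * p) * B σ (iteratedDeriv 2 u x) z
      - (3 * m * rhox σ u x) * B σ (iteratedDeriv 1 u x) z + (2 * σ * rho σ p u x) * B σ (u x) z
      - beta σ p m u x * (B σ (iteratedDeriv 2 u x) z + (σ * p) * B σ (u x) z) := by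
  unfold vel
  rw [VelXi_sub_left, ConId_add_left, VelXi_sub_left, VelXi_sub_left, ConId_smul_left,
    ConId_smul_left, ConId_smul_left, ConId_smul_left, ConId_smul_left, ConId_add_left,
    ConId_smul_left]

theorem claimVelTan : ClaimVelTan := by
  intro n σ p u hσ hu x
  have hs : σ ^ 2 = 1 := by rcases hσ with rfl | rfl <;> norm_num
  have hp : p⁻¹ * p = 1 := inv_mul_cancel₀ hu.pos.ne'
  obtain ⟨h00, h01, h11, h02, h12, h03, h13, h04, h14⟩ := conIds n σ p u hσ hu x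
  constructor
  · rw [VelXi_expand, ConId_comm σ (iteratedDeriv 4 u x), ConId_comm σ (iteratedDeriv 2 u x),
      ConId_comm σ (iteratedDeriv 1 u x), h00, h01, h02, h04]
    unfold rho
    linear_combination (2 * B σ (iteratedDeriv 2 u x) (iteratedDeriv 2 u x) -
      2 * σ * p ^ 2 - beta σ p p⁻¹ u x * p) * hs
  · rw [← iteratedDeriv_one, VelXi_expand, ConId_comm σ (iteratedDeriv 4 u x),
      ConId_comm σ (iteratedDeriv 2 u x) (iteratedDeriv 1 u x), h01, h11, h12, h14]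
    unfold rhox
    linear_combination (-(6 * B σ (iteratedDeriv 2 u x) (iteratedDeriv 3 u x))) * hp

theorem VelXi_hh_cont (σ p m : ℝ) {u : ℝ → V n} (hu : ContDiff ℝ ∞ u) :
    Continuous (hh σ p m u) := by
  have h22 := ConId_continuousB hu σ 2 2
  have h33 := ConId_continuousB hu σ 3 3
  unfold hh eta rho
  fun_prop

theorem claimXi : ClaimXi := by
  intro n σ p u hσ hu
  have hs : σ ^ 2 = 1 := by rcases hσ with rfl | rfl <;> norm_num
  have hp : p⁻¹ * p = 1 := inv_mul_cancel₀ hu.pos.ne'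
  constructor
  · unfold xi alpha
    simp
    ring
  · intro x
    obtain ⟨h00, h01, h11, h02, h12, h03, h13, h04, h14⟩ := conIds n σ p u hσ hu x
    have hcont : Continuous (fun y => hh σ p p⁻¹ u y - mu σ p p⁻¹ u) :=
      (VelXi_hh_cont σ p p⁻¹ hu.smooth).sub continuous_const
    have hI : HasDerivAt (fun x => ∫ y in (0 : ℝ)..x, (hh σ p p⁻¹ u y - mu σ p p⁻¹ u))
        (hh σ p p⁻¹ u x - mu σ p p⁻¹ u) x :=
      intervalIntegral.integral_hasDerivAt_right (hcont.intervalIntegrable _ _)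
        (hcont.stronglyMeasurableAtFilter _ _) hcont.continuousAt
    have hR : HasDerivAt (rhox σ u) (2 * (B σ (iteratedDeriv 3 u x) (iteratedDeriv 3 u x) +
        B σ (iteratedDeriv 2 u x) (iteratedDeriv 4 u x))) x := by
      unfold rhox
      exact (ConId_hasDerivB hu.smooth σ 2 3 x).const_mul 2
    have hT : HasDerivAt (xi σ p p⁻¹ u)
        (-4 * p⁻¹ * (2 * (B σ (iteratedDeriv 3 u x) (iteratedDeriv 3 u x) +
          B σ (iteratedDeriv 2 u x) (iteratedDeriv 4 u x))) +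
          (hh σ p p⁻¹ u x - mu σ p p⁻¹ u) +
          3 * p⁻¹ * (2 * (B σ (iteratedDeriv 3 u x) (iteratedDeriv 3 u x) +
          B σ (iteratedDeriv 2 u x) (iteratedDeriv 4 u x)))) x := by
      unfold xi alpha
      exact (((hR.const_mul (-4 * p⁻¹)).add_const _).add hI).add (hR.const_mul (3 * p⁻¹))
    refine hT.congr_deriv ?_
    obtain ⟨hv0, -⟩ := claimVelTan n σ p u hσ hu x
    have hw : B σ (vel σ p p⁻¹ u x) (iteratedDeriv 2 u x + (σ * p) • u x) =
        B σ (vel σ p p⁻¹ u x) (iteratedDeriv 2 u x) := by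
      rw [ConId_comm, ConId_add_left, ConId_smul_left, ConId_comm σ (u x), hv0,
        ConId_comm σ (iteratedDeriv 2 u x)]
      ring
    rw [hw, VelXi_expand, ConId_comm σ (iteratedDeriv 4 u x), h12, h02]
    unfold hh eta beta rho
    set a := B σ (iteratedDeriv 2 u x) (iteratedDeriv 2 u x)
    set b := B σ (iteratedDeriv 3 u x) (iteratedDeriv 3 u x)
    set c := B σ (iteratedDeriv 2 u x) (iteratedDeriv 4 u x)
    have hm : p * p⁻¹ = 1 := by rw [mul_comm]; exact hp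
    set m := p⁻¹
    linear_combination (-2 * m * p ^ 3) * hs + (2 * σ - 1) * (a - σ * p ^ 2) * hm

end Pool.Agent.Work.MP_4a14ce_an

end

section

/-!
# Group W: claims
-/

open Set MeasureTheory Topology Filter
open scoped ContDiff ENNReal

namespace Pool.Agent.Work.MP_4a14ce_an

namespace WN

/-- W1. Convolution. -/
def WConv : Prop :=
  (∀ f g : W, ‖conv f g‖ ≤ ‖f‖ * ‖g‖) ∧
  (∀ f f' g : W, conv (f + f') g = conv f g + conv f' g) ∧
  (∀ f g g' : W, conv f (g + g') = conv f g + conv f g') ∧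
  (∀ f f' g : W, conv (f - f') g = conv f g - conv f' g) ∧
  (∀ f g g' : W, conv f (g - g') = conv f g - conv f g') ∧
  (∀ (m : ℕ) (d K L : ℝ) (f g : W), WBd m d f K → WBd m d g L → WBd m d (conv f g) (K * L)) ∧
  (∀ f g : W, Sym f → Sym g → Sym (conv f g)) ∧
  (∀ (a : A) (f : W) (k : ℤ), conv (cst a) f k = a * f k)

/-- W2a. Coefficientwise operators, Fourier multipliers. -/
def WOpsA : Prop :=
  (∀ (L : ℤ → A → A) (C : ℝ) (f : W), (∀ k a, ‖L k a‖ ≤ C * ‖a‖) →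
    (∀ k, opW L f k = L k (f k)) ∧ ‖opW L f‖ ≤ C * ‖f‖) ∧
  (∀ (c : ℤ → ℂ) (m l : ℕ) (C : ℝ) (f : W), (∀ k, ‖c k‖ ≤ C * wt k ^ l) → 0 ≤ C →
    (∃ K, WBd (m + l) 0 f K) → (∀ k, mulW c f k = c k • f k) ∧
      ∀ (d K : ℝ), 0 ≤ d → WBd (m + l) d f K → WBd m d (mulW c f) (C * K)) ∧
  (∀ j ≤ 3, ∀ f g : W, ‖DD j f‖ ≤ ‖f‖ ∧ DD j (f - g) = DD j f - DD j g ∧
    (∀ k, DD j f k = ((Complex.I * k) ^ j / (wt k : ℂ) ^ 3) • f k) ∧ (Sym f → Sym (DD j f)) ∧
    ∀ (m : ℕ) (d K : ℝ), WBd m d f K → WBd m d (DD j f) K)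

/-- W2b. The other operations: norms, differences, weights, symmetry. -/
def WOpsB : Prop :=
  (∀ f g : W, ‖anti f‖ ≤ 2 * ‖f‖ ∧ anti (f - g) = anti f - anti g ∧ (Sym f → Sym (anti f)) ∧
    (∀ k : ℤ, k ≠ 0 → anti f k = (Complex.I * k)⁻¹ • f k) ∧ ev0 (anti f) = 0 ∧
    ∀ (m : ℕ) (d K : ℝ), WBd m d f K → WBd m d (anti f) (2 * K)) ∧
  (∀ a b : A, ‖cst a‖ ≤ ‖a‖ ∧ cst (a - b) = cst a - cst b ∧ (star a = a → Sym (cst a)) ∧
    (∀ k : ℤ, cst a k = if k = 0 then a else 0) ∧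
    ∀ (m : ℕ) (d K : ℝ), 0 ≤ K → (∀ θ : unitInterval, d ≤ θ → ‖a θ‖ ≤ K) → WBd m d (cst a) K) ∧
  (∀ f g : W, ‖ev0 f‖ ≤ ‖f‖ ∧ ev0 (f - g) = ev0 f - ev0 g ∧ (Sym f → star (ev0 f) = ev0 f) ∧
    ∀ (m : ℕ) (d K : ℝ), WBd m d f K → ∀ θ : unitInterval, d ≤ θ → ‖ev0 f θ‖ ≤ K) ∧
  (∀ (m : ℕ) (d K L : ℝ) (f g : W), WBd m d f K → WBd m d g L → WBd m d (f + g) (K + L) ∧
    WBd m d (f - g) (K + L)) ∧
  (∀ (m : ℕ) (d K : ℝ) (c : ℂ) (f : W), WBd m d f K → WBd m d (c • f) (‖c‖ * K)) ∧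
  (∀ (f g : W) (c : ℝ), Sym f → Sym g → Sym (f + g) ∧ Sym (f - g) ∧ Sym ((c : ℂ) • f)) ∧
  (∀ (f : W) (d : ℝ), WBd 0 d f ‖f‖)

/-- W3. The nonlinearity is bounded and Lipschitz on bounded sets. -/
def WLip : Prop := ∀ (n : ℕ) (σ K : ℝ), 0 ≤ K → ∃ L, 0 ≤ L ∧
  ∀ (U V : Fin (n + 1) → W) (P M Q N : A) (S : ℝ), 0 ≤ S →
  (∀ i, ‖U i‖ ≤ K ∧ ‖V i‖ ≤ K ∧ ‖U i - V i‖ ≤ S) → ‖P‖ ≤ K → ‖M‖ ≤ K → ‖Q‖ ≤ K → ‖N‖ ≤ K →
  ‖P - Q‖ ≤ S → ‖M - N‖ ≤ S →
  (∀ i, ‖NW σ P M U i‖ ≤ L ∧ ‖NW σ P M U i - NW σ Q N V i‖ ≤ L * S) ∧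
  ‖P * muA σ P M U‖ ≤ L ∧ ‖P * muA σ P M U - Q * muA σ Q N V‖ ≤ L * S ∧
  ‖M * muA σ P M U‖ ≤ L ∧ ‖M * muA σ P M U - N * muA σ Q N V‖ ≤ L * S

/-- W4. The nonlinearity preserves weights and symmetry. -/
def WNon : Prop :=
  (∀ (n : ℕ) (σ K : ℝ) (m : ℕ), 0 ≤ K → ∃ K', ∀ (d : ℝ) (U : Fin (n + 1) → W) (P M : A),
    (∀ i, WBd m d (U i) K) → ‖P‖ ≤ K → ‖M‖ ≤ K → ∀ i, WBd m d (NW σ P M U i) K') ∧
  (∀ (n : ℕ) (σ : ℝ) (U : Fin (n + 1) → W) (P M : A), (∀ i, Sym (U i)) → star P = P →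
    star M = M → (∀ i, Sym (NW σ P M U i)) ∧ star (muA σ P M U) = muA σ P M U)

/-- W5a. Single coefficients (the length of the time interval is `T = τ ^ 4`). -/
def WDuhA : Prop :=
  (∀ (τ : ℝ) (k : ℤ) (g : A), 0 ≤ τ → τ ≤ 1 →
    ‖((wt k ^ 3 : ℝ) : ℂ) • duhK (τ ^ 4) k g‖ ≤ 8 * τ * ‖g‖) ∧
  (∀ (T : ℝ) (k : ℤ) (g h : A), duhK T k (g - h) = duhK T k g - duhK T k h) ∧
  (∀ (T : ℝ) (k : ℤ) (g : A), star (duhK T k g) = duhK T (-k) (star g)) ∧
  (∀ (T : ℝ) (k : ℤ) (c : ℂ), 0 ≤ T → ‖freeK T k c‖ ≤ ‖c‖ ∧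
    star (freeK T k c) = freeK T (-k) (star c)) ∧
  (∀ (T : ℝ) (k : ℤ) (g : A), ex (duhK T k g) 0 = 0 ∧ ∀ t ∈ Icc (0 : ℝ) 1,
    HasDerivWithinAt (ex (duhK T k g))
      (-(2 * T * (k : ℝ) ^ 4 : ℝ) * ex (duhK T k g) t + T * ex g t) (Icc 0 1) t) ∧
  (∀ (T : ℝ) (k : ℤ) (c : ℂ), ex (freeK T k c) 0 = c ∧ ∀ t ∈ Icc (0 : ℝ) 1,
    HasDerivWithinAt (ex (freeK T k c))
      (-(2 * T * (k : ℝ) ^ 4 : ℝ) * ex (freeK T k c) t) (Icc 0 1) t)

/-- W5b. Restarting at a later time. -/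
def WDuhB : Prop :=
  ∀ (T d b a : ℝ) (k : ℤ) (g : A) (c : ℂ) (θ₀ : unitInterval), 0 < T → T ≤ 1 → 0 ≤ d →
    (θ₀ : ℝ) = d → 0 ≤ b → (∀ θ : unitInterval, d ≤ θ → ‖g θ‖ ≤ b) →
    ‖freeK T k c θ₀ + duhK T k g θ₀‖ ≤ a →
    ∀ θ : unitInterval, d ≤ θ → ‖freeK T k c θ + duhK T k g θ‖ ≤
      Real.exp (-(2 * T * (k : ℝ) ^ 4 * (θ - d))) * a + 16 * b / wt k ^ 4

/-- W6. Solution of the fixed point equation on a time interval depending on bounds only. -/
def WFix : Prop := ∀ (n : ℕ) (σ R : ℝ), ∃ T K : ℝ, 0 < T ∧ T ≤ 1 ∧ 0 ≤ K ∧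
  ∀ (c : Fin (n + 1) → ℤ → ℂ) (p0 m0 : ℝ), (∀ i (s : Finset ℤ), ∑ k ∈ s, wt k ^ 3 * ‖c i k‖ ≤ R) →
  (∀ i k, c i (-k) = star (c i k)) → |p0| ≤ R → |m0| ≤ R →
  ∃ (U : Fin (n + 1) → W) (P M : A), Fx σ T c p0 m0 U P M ∧ (∀ i, ‖U i‖ ≤ K ∧ Sym (U i)) ∧
    ‖P‖ ≤ K ∧ ‖M‖ ≤ K ∧ star P = P ∧ star M = M

/-- W7. Smoothing, with bounds independent of the data; regularity for smooth data. -/
def WReg : Prop := ∀ (n : ℕ) (σ T K R : ℝ), 0 < T → T ≤ 1 → 0 ≤ K →
  (∀ (m : ℕ) (d : ℝ), 0 < d → d ≤ 1 → ∃ K', ∀ (c : Fin (n + 1) → ℤ → ℂ) (p0 m0 : ℝ)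
    (U : Fin (n + 1) → W) (P M : A), (∀ i (s : Finset ℤ), ∑ k ∈ s, wt k ^ 3 * ‖c i k‖ ≤ R) →
    Fx σ T c p0 m0 U P M → (∀ i, ‖U i‖ ≤ K) → ‖P‖ ≤ K → ‖M‖ ≤ K → ∀ i, WBd m d (U i) K') ∧
  (∀ (c : Fin (n + 1) → ℤ → ℂ) (p0 m0 : ℝ) (U : Fin (n + 1) → W) (P M : A),
    Fx σ T c p0 m0 U P M → (∀ m : ℕ, ∃ K', ∀ i (s : Finset ℤ), ∑ k ∈ s, wt k ^ m * ‖c i k‖ ≤ K') →
    ∀ i, Rapid (U i))

/-- W8a. Closure properties of the classes `RW r`, `RA r`. -/
def WClos : Prop :=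
  (∀ (r : ℕ) (f g : W), RW r f → RW r g → RW r (conv f g) ∧ RW r (f + g) ∧ RW r (f - g)) ∧
  (∀ (r : ℕ) (f : W) (z : ℂ), RW r f → RW r (z • f) ∧ RW r (anti f) ∧ RA r (ev0 f) ∧
    (∀ k, RA r (f k)) ∧ Rapid f) ∧
  (∀ (r l : ℕ) (c : ℤ → ℂ) (C : ℝ) (f : W), (∀ k, ‖c k‖ ≤ C * wt k ^ l) → RW r f →
    RW r (mulW c f) ∧ ∀ k, mulW c f k = c k • f k) ∧
  (∀ (r : ℕ) (a b : A) (z : ℂ), RA r a → RA r b →
    RA r (a * b) ∧ RA r (a + b) ∧ RA r (a - b) ∧ RA r (z • a) ∧ RW r (cst a)) ∧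
  (∀ (r : ℕ) (f : W) (a : A), (RW (r + 1) f → RW r f) ∧ (RA (r + 1) a → RA r a)) ∧
  (∀ r : ℕ, RA r 1)

/-- W8b. The time derivative. -/
def WTime : Prop := ∀ (n : ℕ) (σ T : ℝ) (c : Fin (n + 1) → ℤ → ℂ) (p0 m0 : ℝ)
  (U : Fin (n + 1) → W) (P M : A), 0 < T → T ≤ 1 → Fx σ T c p0 m0 U P M →
  (∀ m : ℕ, ∃ K', ∀ i (s : Finset ℤ), ∑ k ∈ s, wt k ^ m * ‖c i k‖ ≤ K') →
  (∀ i, Rapid (U i)) →
  (∀ r, (∀ i, RW r (DD 0 (U i))) ∧ RA r P ∧ RA r M) ∧
  (∀ i, TD (DD 0 (U i)) ((T : ℂ) • (NW σ P M U i -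
    (2 : ℂ) • mulW (fun k => (Complex.I * k) ^ 4 / (wt k : ℂ) ^ 3) (U i)))) ∧
  (∀ i k, ex (DD 0 (U i) k) 0 = c i k) ∧
  TDA P ((-(2 * T) : ℂ) • (P * muA σ P M U)) ∧ TDA M ((2 * T : ℂ) • (M * muA σ P M U)) ∧
  ex P 0 = p0 ∧ ex M 0 = m0

/-- W9a. From coefficients to functions: algebra. -/
def WEvalA : Prop :=
  (∀ (f g : W) (t x : ℝ), E (conv f g) t x = E f t x * E g t x ∧
    E (f + g) t x = E f t x + E g t x ∧ E (f - g) t x = E f t x - E g t x ∧
    ‖E f t x‖ ≤ ‖f‖ ∧ E f t (x + 2 * Real.pi) = E f t x ∧ E f t 0 = ex (ev0 f) t) ∧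
  (∀ (c : ℂ) (f : W) (t x : ℝ), E (c • f) t x = c * E f t x) ∧
  (∀ (a : A) (t x : ℝ), E (cst a) t x = ex a t) ∧
  (∀ (f : W) (t x : ℝ), Sym f → ((E f t x).re : ℂ) = E f t x) ∧
  (∀ f : W, Continuous fun z : ℝ × ℝ => E f z.1 z.2)

/-- W9b. From coefficients to functions: calculus. -/
def WEvalB : Prop :=
  (∀ (f : W) (t x : ℝ), (∃ K, WBd 1 0 f K) →
    HasDerivAt (E f t) (E (mulW (fun k => Complex.I * k) f) t x) x) ∧
  (∀ (f g : W), TD f g → ∀ t ∈ Icc (0 : ℝ) 1, ∀ x,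
    HasDerivWithinAt (fun s => E f s x) (E g t x) (Icc 0 1) t) ∧
  (∀ (f : W) (t : ℝ), ∫ x in (0 : ℝ)..(2 * Real.pi), E f t x = 2 * Real.pi * ex (f 0) t) ∧
  (∀ (f : W) (t x : ℝ), E (anti f) t x = ∫ y in (0 : ℝ)..x, (E f t y - ex (f 0) t))

/-- W10. Joint smoothness. -/
def WJS : Prop :=
  (∀ f : W, (∀ r, RW r f) → ContDiffOn ℝ ∞ (fun z : ℝ × ℝ => (E f z.1 z.2).re)
    (Icc 0 1 ×ˢ univ)) ∧
  (∀ a : A, (∀ r, RA r a) → ContDiffOn ℝ ∞ (fun t => (ex a t).re) (Icc 0 1))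

/-- The curve at the rescaled time `t`. -/
noncomputable def cur {n : ℕ} (U : Fin (n + 1) → W) (t : ℝ) (x : ℝ) : V n :=
  fun i => (E (DD 0 (U i)) t x).re

/-- W11a. The curve and its derivatives. -/
def WCur : Prop := ∀ (n : ℕ) (U : Fin (n + 1) → W), (∀ i, Rapid (U i)) → ∀ t : ℝ,
  ContDiff ℝ ∞ (cur U t) ∧ Function.Periodic (cur U t) (2 * Real.pi) ∧
  (∀ j x i, iteratedDeriv j (cur U t) x i =
    (E (mulW (fun k => (Complex.I * k) ^ j / (wt k : ℂ) ^ 3) (U i)) t x).re)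

/-- W11b. The nonlinearity in physical space. -/
def WRhs : Prop := ∀ (n : ℕ) (σ : ℝ) (U : Fin (n + 1) → W) (P M : A), (∀ i, Rapid (U i)) →
  (∀ i, Sym (U i)) → star P = P → star M = M → ∀ t : ℝ,
  mu σ (ex P t).re (ex M t).re (cur U t) = (ex (muA σ P M U) t).re ∧
  ∀ x i, rhs σ (ex P t).re (ex M t).re (cur U t) x i =
    -2 * iteratedDeriv 4 (cur U t) x i + (E (NW σ P M U i) t x).re

/-- W12. Fourier coefficients of the initial data. -/
def WData : Prop := ∀ (n : ℕ) (R : ℝ), ∃ R', ∀ u0 : ℝ → V n, ContDiff ℝ ∞ u0 →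
  Function.Periodic u0 (2 * Real.pi) → (∀ x, nsq (u0 x) ≤ R) →
  per (fun x => nsq (iteratedDeriv 4 u0 x)) ≤ R →
  ∃ c : Fin (n + 1) → ℤ → ℂ, (∀ i k, c i (-k) = star (c i k)) ∧
    (∀ i (s : Finset ℤ), ∑ k ∈ s, wt k ^ 3 * ‖c i k‖ ≤ R') ∧
    (∀ m : ℕ, ∃ K, ∀ i (s : Finset ℤ), ∑ k ∈ s, wt k ^ m * ‖c i k‖ ≤ K) ∧
    ∀ (x : ℝ) (i : Fin (n + 1)),
      HasSum (fun k : ℤ => c i k * Complex.exp (Complex.I * k * (x : ℂ))) ((u0 x i : ℝ) : ℂ)

end WN

end Pool.Agent.Work.MP_4a14ce_an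

end

section

/-!
# E6 part C: length estimate of the flow, bounds near a point, continuity argument
-/

open Set MeasureTheory Topology Filter
open scoped ContDiff

namespace Pool.Agent.Work.MP_4a14ce_an

variable {n : ℕ}

/-- `L²` length estimate. -/
theorem Conv_length (hCS : PerCS) (hSl : JSSlice) (hDt : JSDt) (hPer : JSPer)
    (hItv : ItvBasic) (hEn : ClaimEnergy) (n : ℕ) (σ : ℝ) (hσ : Sgn σ) (w : ℝ → ℝ → V n)
    (p : ℝ → ℝ) (hS : CSol σ (Ici 0) w p) (a b θ C c₀ Cv E : ℝ) (ha : 0 ≤ a) (hab : a ≤ b)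
    (hθ : θ ∈ Ioo (0 : ℝ) 1) (hC : 0 < C) (hc₀ : 0 < c₀) (hCv : 0 < Cv)
    (hκ : ∀ t ∈ Icc a b, c₀ ≤ (p t * Real.sqrt (p t))⁻¹)
    (hE : ∀ t ∈ Icc a b, E ≤ en σ (p t) (w t))
    (hLS : ∀ t ∈ Icc a b, (en σ (p t) (w t) - E) ^ θ ≤ C * Real.sqrt (dis σ (p t) (w t)))
    (hr : ∀ t ∈ Icc a b, Continuous (rhs σ (p t) (p t)⁻¹ (w t)) ∧
      per (fun x => nsq (rhs σ (p t) (p t)⁻¹ (w t) x)) ≤ Cv * dis σ (p t) (w t))
    (hd : ∀ t ∈ Icc a b, 0 ≤ dis σ (p t) (w t)) :
    Real.sqrt (per (fun x => nsq (w b x - w a x))) ≤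
      C / ((1 - θ) * c₀) * Real.sqrt Cv * (en σ (p a) (w a) - E) ^ (1 - θ) := by
  have hI : Itv (Ici (0 : ℝ)) := Or.inl ⟨0, rfl⟩
  have hb : 0 ≤ b := ha.trans hab
  have hJ := hS.sol.smooth
  obtain ⟨hUD, -, -⟩ := hItv _ hI
  obtain ⟨hsm, -⟩ := hSl (n + 1) (Ici 0) w hI hJ
  obtain ⟨ut, hut, hutd⟩ := hDt (n + 1) (Ici 0) w hI hJ
  have hut0 : ∀ t ∈ Ici (0 : ℝ), ∀ x, ut t x = rhs σ (p t) (p t)⁻¹ (w t) x := by
    intro t ht x
    have h1 := hutd 0 t ht x
    simp only [iteratedDeriv_zero] at h1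
    exact (hUD t ht).eq_deriv _ h1 (hS.sol.eqn t ht x)
  set f : ℝ → V n := fun x => w b x - w a x with hf
  have hfs : ContDiff ℝ ∞ f := (hsm b hb).sub (hsm a ha)
  have hfc : Continuous f := hfs.continuous
  have hfz : ContDiff ℝ ∞ (fun z : ℝ × ℝ => f z.2) := hfs.comp contDiff_snd
  have haz : ContDiff ℝ ∞ (fun z : ℝ × ℝ => w a z.2) := (hsm a ha).comp contDiff_snd
  have hJi : ∀ i, ContDiffOn ℝ ∞ (fun z : ℝ × ℝ => w z.1 z.2 i) (Ici 0 ×ˢ univ) :=
    contDiffOn_pi.1 hJ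
  have huti : ∀ i, ContDiffOn ℝ ∞ (fun z : ℝ × ℝ => ut z.1 z.2 i) (Ici 0 ×ˢ univ) :=
    contDiffOn_pi.1 hut
  have hfi : ∀ i, ContDiff ℝ ∞ (fun z : ℝ × ℝ => f z.2 i) := contDiff_pi.1 hfz
  have hai : ∀ i, ContDiff ℝ ∞ (fun z : ℝ × ℝ => w a z.2 i) := contDiff_pi.1 haz
  have hF1 : JS (Ici 0) (fun t x => ∑ i, (w t x i - w a x i) * f x i) := by
    unfold JS
    exact ContDiffOn.sum fun i _ => ((hJi i).sub (hai i).contDiffOn).mul (hfi i).contDiffOn
  have hF2 : JS (Ici 0) (fun t x => ∑ i, ut t x i * f x i) := by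
    unfold JS
    exact ContDiffOn.sum fun i _ => (huti i).mul (hfi i).contDiffOn
  obtain ⟨-, hG⟩ := hPer (Ici 0) (fun t x => ∑ i, (w t x i - w a x i) * f x i)
    (fun t x => ∑ i, ut t x i * f x i) hI hF1 hF2 (by
      intro t ht x
      refine HasDerivWithinAt.fun_sum fun i _ => ?_
      have h1 := hutd 0 t ht x
      simp only [iteratedDeriv_zero] at h1
      have h2 := (hasDerivWithinAt_pi.1 h1) i
      exact (h2.sub_const _).mul_const _)
  have hsub : Icc a b ⊆ Ici (0 : ℝ) := fun t ht => ha.trans ht.1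
  have hfn0 : 0 ≤ per (fun x => nsq (f x)) := Conv_per_nonneg fun x => Conv_nsq_nonneg _
  have h := Conv_scalar a b θ C c₀ (Real.sqrt Cv * Real.sqrt (per (fun x => nsq (f x)))) E hab hθ
    hC hc₀ (by positivity) (fun t => per (fun x => ∑ i, (w t x i - w a x i) * f x i))
    (fun t => en σ (p t) (w t)) (fun t => per (fun x => ∑ i, ut t x i * f x i))
    (fun t => (p t * Real.sqrt (p t))⁻¹) (fun t => Real.sqrt (dis σ (p t) (w t)))
    (fun t ht => (hG t (hsub ht)).mono hsub)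
    (fun t ht => by
      have h1 := (hEn n σ (Ici 0) w p hσ hI hS t (hsub ht)).mono hsub
      rw [Real.sq_sqrt (hd t ht)]
      exact h1)
    hκ (fun t _ => Real.sqrt_nonneg _) hE hLS
    (fun t ht => by
      have e : (fun x => ∑ i, ut t x i * f x i) =
          fun x => ∑ i, rhs σ (p t) (p t)⁻¹ (w t) x i * f x i := by
        funext x
        rw [hut0 t (hsub ht) x]
      obtain ⟨hrc, hrb⟩ := hr t ht
      show per (fun x => ∑ i, ut t x i * f x i) ≤ _
      rw [e]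
      refine (Conv_CS hCS _ f hrc hfc).trans ?_
      have h2 : Real.sqrt (per (fun x => nsq (rhs σ (p t) (p t)⁻¹ (w t) x))) ≤
          Real.sqrt Cv * Real.sqrt (dis σ (p t) (w t)) := by
        rw [← Real.sqrt_mul hCv.le]
        exact Real.sqrt_le_sqrt hrb
      calc Real.sqrt (per (fun x => nsq (rhs σ (p t) (p t)⁻¹ (w t) x))) *
            Real.sqrt (per (fun x => nsq (f x)))
          ≤ (Real.sqrt Cv * Real.sqrt (dis σ (p t) (w t))) *
            Real.sqrt (per (fun x => nsq (f x))) :=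
            mul_le_mul_of_nonneg_right h2 (Real.sqrt_nonneg _)
        _ = Real.sqrt Cv * Real.sqrt (per (fun x => nsq (f x))) *
            Real.sqrt (dis σ (p t) (w t)) := by ring)
  have hGa : per (fun x => ∑ i, (w a x i - w a x i) * f x i) = 0 := by
    simp [per]
  have hGb : per (fun x => ∑ i, (w b x i - w a x i) * f x i) = per (fun x => nsq (f x)) := by
    congr 1
    funext x
    unfold nsq
    refine Finset.sum_congr rfl fun i _ => ?_
    simp only [hf, Pi.sub_apply]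
    ring
  rw [hGa, hGb, sub_zero] at h
  set Q := Real.sqrt (per (fun x => nsq (f x))) with hQ
  have hQ2 : per (fun x => nsq (f x)) = Q * Q := (Real.mul_self_sqrt hfn0).symm
  rw [hQ2] at h
  have hQ0 : 0 ≤ Q := Real.sqrt_nonneg _
  have h1θ : 0 < 1 - θ := by linarith [hθ.2]
  have hH : 0 ≤ en σ (p a) (w a) - E := by linarith [hE a (left_mem_Icc.2 hab)]
  rcases hQ0.eq_or_lt with h0 | h0
  · rw [← h0]
    positivity
  · refine le_of_mul_le_mul_right ?_ h0
    calc Q * Q ≤ _ := h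
      _ = _ := by ring

/-- uniform bounds of transformed solutions near a bounded point -/
theorem Conv_bd (hIso : ClaimIso) (hInv : ClaimInv) (hBd : ClaimBounds) (n : ℕ)
    (σ : ℝ) (hσ : Sgn σ) (u : ℝ → ℝ → V n) (p : ℝ → ℝ) (hS : CSol σ (Ici 0) u p) (K0 : ℝ) :
    ∀ j : ℕ, ∃ M, ∀ t ∈ Ici (0 : ℝ), ∀ g : V n →ₗ[ℝ] V n, IsIso σ g → nsq (g (u t 0)) ≤ K0 →
      ∀ x, nsq (iteratedDeriv j (fun y => g (u t y)) x) ≤ M := by
  intro j
  obtain ⟨-, hBj⟩ := hBd n σ u p hσ hS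
  obtain ⟨C, hC⟩ := hBj j
  obtain ⟨h1, h2, ⟨C1, hC1, h3⟩, -⟩ := hIso n σ K0 hσ
  refine ⟨C1 * C, fun t ht g hg hgK x => ?_⟩
  have hmem : g (u t 0) ∈ space σ n := hg.mem _ ((hS.con t ht).mem 0)
  obtain ⟨h, hh, hh0⟩ := h1 _ hmem
  obtain ⟨h', hh', hl, hr⟩ := h2 h hh
  -- h ∘ g is an isometry
  have hcomp : IsIso σ (h.comp g) := ⟨fun x y => by
    simp only [LinearMap.comp_apply]
    rw [hh.form, hg.form], fun x hx => hh.mem _ (hg.mem _ hx)⟩
  have hb := hC t ht (h.comp g) hcomp hh0 x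
  have e : (fun y => g (u t y)) = fun y => h' ((h.comp g) (u t y)) := by
    funext y
    simp only [LinearMap.comp_apply]
    exact (hl _).symm
  have hsm : ContDiff ℝ ∞ (fun y => (h.comp g) (u t y)) := by
    have := (LinearMap.toContinuousLinearMap (h.comp g)).contDiff (n := ∞) |>.comp
      (hS.con t ht).smooth
    exact this
  rw [e, (hInv n σ h' hσ hh').1 _ hsm j x]
  have hh'0 : nsq (h' (e0 n)) ≤ K0 := by
    rw [← hh0, hl]
    exact hgK
  refine (h3 h' hh' hh'0 _).trans ?_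
  exact mul_le_mul_of_nonneg_left hb hC1.le

/-- first failure time -/
theorem Conv_contArg (P : ℝ → Prop) (t₁ : ℝ) (hcl : IsClosed {t | t₁ ≤ t ∧ ¬ P t})
    (h1 : P t₁) (hstep : ∀ T > t₁, (∀ t ∈ Ico t₁ T, P t) → P T) : ∀ t ≥ t₁, P t := by
  by_contra hcon
  push Not at hcon
  obtain ⟨t, ht, hPt⟩ := hcon
  set S := {t | t₁ ≤ t ∧ ¬ P t} with hS
  have hne : S.Nonempty := ⟨t, ht, hPt⟩
  have hbd : BddBelow S := ⟨t₁, fun s hs => hs.1⟩
  have hm := hcl.csInf_mem hne hbd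
  set T := sInf S with hT
  have hT1 : t₁ ≤ T := hm.1
  have hT2 : T ≠ t₁ := fun h => hm.2 (h ▸ h1)
  have hT3 : t₁ < T := lt_of_le_of_ne hT1 hT2.symm
  refine hm.2 (hstep T hT3 fun s hs => ?_)
  by_contra hPs
  have : T ≤ s := csInf_le hbd ⟨hs.1, hPs⟩
  exact absurd hs.2 (not_lt.2 this)

/-- closeness of order six -/
def Conv_close (v : ℝ → V n) (δ : ℝ) (f : ℝ → V n) : Prop :=
  ∀ j ≤ 6, ∀ x, nsq (iteratedDeriv j f x - iteratedDeriv j v x) < δ

theorem Conv_close_closed (hSl : JSSlice) (w : ℝ → ℝ → V n) (hJ : JS (Ici 0) w)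
    (hp : ∀ t ∈ Ici (0 : ℝ), Function.Periodic (w t) (2 * Real.pi)) (v : ℝ → V n)
    (hv : ContDiff ℝ ∞ v) (hvp : Function.Periodic v (2 * Real.pi)) (δ t₁ : ℝ) (ht₁ : 0 ≤ t₁) :
    IsClosed {t | t₁ ≤ t ∧ ¬ Conv_close v δ (w t)} := by
  have hI : Itv (Ici (0 : ℝ)) := Or.inl ⟨0, rfl⟩
  obtain ⟨hsm, hJj⟩ := hSl (n + 1) (Ici 0) w hI hJ
  have hcont : ∀ j, Continuous (fun z : ℝ × ℝ =>
      nsq (iteratedDeriv j (w (max z.1 0)) z.2 - iteratedDeriv j v z.2)) := by
    intro j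
    have h1 : ContinuousOn (fun z : ℝ × ℝ => iteratedDeriv j (w z.1) z.2) (Ici 0 ×ˢ univ) :=
      (hJj j).continuousOn
    have h2 : Continuous (fun z : ℝ × ℝ => iteratedDeriv j (w (max z.1 0)) z.2) := by
      have := h1.comp_continuous (f := fun z : ℝ × ℝ => (max z.1 0, z.2)) (by fun_prop)
        (fun z => ⟨mem_Ici.2 (le_max_right _ _), mem_univ _⟩)
      exact this
    have h3 := Conv_cont_iter hv j
    fun_prop
  have hopen : IsOpen {t : ℝ | ∀ j ≤ 6, ∀ x ∈ Icc (0 : ℝ) (2 * Real.pi),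
      nsq (iteratedDeriv j (w (max t 0)) x - iteratedDeriv j v x) < δ} := by
    rw [isOpen_iff_mem_nhds]
    intro t ht
    have : ∀ j ∈ Finset.range 7, ∀ᶠ s in 𝓝 t, ∀ x ∈ Icc (0 : ℝ) (2 * Real.pi),
        nsq (iteratedDeriv j (w (max s 0)) x - iteratedDeriv j v x) < δ := by
      intro j hj
      refine isCompact_Icc.eventually_forall_of_forall_eventually fun x hx => ?_
      have hj' : j ≤ 6 := by
        have := Finset.mem_range.1 hj
        omega
      have hc : Tendsto (fun z : ℝ × ℝ =>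
          nsq (iteratedDeriv j (w (max z.1 0)) z.2 - iteratedDeriv j v z.2)) (𝓝 (t, x))
          (𝓝 (nsq (iteratedDeriv j (w (max t 0)) x - iteratedDeriv j v x))) :=
        (hcont j).tendsto (t, x)
      have hlt : nsq (iteratedDeriv j (w (max t 0)) x - iteratedDeriv j v x) < δ :=
        ht j hj' x hx
      exact hc.eventually (eventually_lt_nhds hlt)
    have h2 := (Filter.eventually_all_finset _).2 this
    filter_upwards [h2] with s hs j hj x hx
    exact hs j (Finset.mem_range.2 (by omega)) x hx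
  have heq : {t | t₁ ≤ t ∧ ¬ Conv_close v δ (w t)} = Ici t₁ ∩
      {t : ℝ | ∀ j ≤ 6, ∀ x ∈ Icc (0 : ℝ) (2 * Real.pi),
      nsq (iteratedDeriv j (w (max t 0)) x - iteratedDeriv j v x) < δ}ᶜ := by
    ext t
    simp only [mem_ofPred_eq, mem_inter_iff, mem_Ici, mem_compl_iff]
    refine and_congr_right fun ht => not_congr ?_
    have ht0 : (0 : ℝ) ≤ t := ht₁.trans ht
    rw [max_eq_left ht0]
    constructor
    · intro h j hj x _
      exact h j hj x
    · intro h j hj x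
      have hper : Function.Periodic (fun x => nsq (iteratedDeriv j (w t) x - iteratedDeriv j v x))
          (2 * Real.pi) := by
        intro x
        simp only [(Conv_per_iter (hp t ht0) j) x, (Conv_per_iter hvp j) x]
      obtain ⟨y, hy, hxy⟩ := hper.exists_mem_Ico₀ (by positivity) x
      have hxy' : nsq (iteratedDeriv j (w t) x - iteratedDeriv j v x) =
          nsq (iteratedDeriv j (w t) y - iteratedDeriv j v y) := hxy
      rw [hxy']
      exact h j hj y ⟨hy.1, hy.2.le⟩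
  rw [heq]
  exact isClosed_Ici.inter hopen.isClosed_compl

end Pool.Agent.Work.MP_4a14ce_an

end

section

/-!
# The energy of constant speed curves
-/

open Set MeasureTheory Topology Filter
open scoped ContDiff

namespace Pool.Agent.Work.MP_4a14ce_an

variable {n : ℕ}

theorem EnForm_tau {σ p : ℝ} {u : ℝ → V n} (hu : Con σ p u) :
    tau σ u = fun x => (Real.sqrt p)⁻¹ • iteratedDeriv 1 u x := by
  funext x
  unfold tau ds vnorm
  rw [hu.speed x, iteratedDeriv_one]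

theorem EnForm_ds {σ p : ℝ} {u : ℝ → V n} (hu : Con σ p u) (x : ℝ) :
    ds σ u (tau σ u) x = p⁻¹ • iteratedDeriv 2 u x := by
  have h1 : HasDerivAt (tau σ u) ((Real.sqrt p)⁻¹ • iteratedDeriv 2 u x) x := by
    rw [EnForm_tau hu]
    exact (ConId_hasDeriv hu.smooth 1 x).const_smul (Real.sqrt p)⁻¹
  unfold ds vnorm
  rw [hu.speed x, h1.deriv, smul_smul]
  congr 1
  rw [← mul_inv, Real.mul_self_sqrt hu.pos.le]

theorem EnForm_kap {σ p : ℝ} {u : ℝ → V n} (hσ : Sgn σ) (hu : Con σ p u) (x : ℝ) :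
    kap σ u x = p⁻¹ • iteratedDeriv 2 u x + σ • u x := by
  have hp : p⁻¹ * p = 1 := inv_mul_cancel₀ hu.pos.ne'
  obtain ⟨h00, h01, h11, h02, h12, h03, h13, h04, h14⟩ := conIds n σ p u hσ hu x
  unfold kap nabla
  rw [EnForm_ds hu, ConId_smul_left, ConId_comm, h02]
  have : σ * (p⁻¹ * -p) = -σ := by linear_combination (-σ) * hp
  rw [this, neg_smul, sub_neg_eq_add]

theorem EnForm_kapkap {σ p : ℝ} {u : ℝ → V n} (hσ : Sgn σ) (hu : Con σ p u) (x : ℝ) :
    B σ (kap σ u x) (kap σ u x) =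
      (p ^ 2)⁻¹ * B σ (iteratedDeriv 2 u x) (iteratedDeriv 2 u x) - σ := by
  have hs : σ ^ 2 = 1 := by rcases hσ with rfl | rfl <;> norm_num
  have hp : p⁻¹ * p = 1 := inv_mul_cancel₀ hu.pos.ne'
  obtain ⟨h00, h01, h11, h02, h12, h03, h13, h04, h14⟩ := conIds n σ p u hσ hu x
  rw [EnForm_kap hσ hu, ConId_add_left, ConId_smul_left, ConId_smul_left,
    ConId_comm σ (iteratedDeriv 2 u x), ConId_comm σ (u x), ConId_add_left, ConId_add_left,
    ConId_smul_left, ConId_smul_left, ConId_smul_left, ConId_smul_left, h00, h02,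
    ConId_comm σ (iteratedDeriv 2 u x) (u x), h02]
  rw [show (p ^ 2)⁻¹ = p⁻¹ * p⁻¹ by rw [sq, mul_inv]]
  linear_combination (-2 * σ) * hp + σ * hs

theorem claimEnergyForm : ClaimEnergyForm := by
  intro n σ p u hσ hu
  have hsp : 0 < Real.sqrt p := Real.sqrt_pos.2 hu.pos
  refine ⟨⟨hu.smooth, hu.periodic, hu.mem, fun x h => ?_⟩, ?_⟩
  · have h1 := hu.speed x
    rw [h] at h1
    have h2 : B σ (0 : V n) 0 = 0 := by unfold B; simp
    rw [h2] at h1
    exact hu.pos.ne h1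
  · unfold energy en per
    have h1 : ∀ x, (B σ (kap σ u x) (kap σ u x) + 1) * vnorm σ (deriv u x) =
        (p * Real.sqrt p)⁻¹ * B σ (iteratedDeriv 2 u x) (iteratedDeriv 2 u x) +
          (1 - σ) * Real.sqrt p := by
      intro x
      rw [EnForm_kapkap hσ hu]
      unfold vnorm
      rw [hu.speed x]
      have h2 : (p * Real.sqrt p)⁻¹ = (p ^ 2)⁻¹ * Real.sqrt p := by
        have h3 : Real.sqrt p * Real.sqrt p = p := Real.mul_self_sqrt hu.pos.le
        have hp := hu.pos.ne'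
        field_simp
        nlinarith [h3]
      rw [h2]
      ring
    simp only [h1]
    have hc : Continuous (fun x => (p * Real.sqrt p)⁻¹ *
        B σ (iteratedDeriv 2 u x) (iteratedDeriv 2 u x)) :=
      (ConId_continuousB hu.smooth σ 2 2).const_mul _
    rw [intervalIntegral.integral_add (hc.intervalIntegrable _ _)
      (continuous_const.intervalIntegrable _ _), intervalIntegral.integral_const_mul,
      intervalIntegral.integral_const]
    simp only [sub_zero, smul_eq_mul]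
    ring

end Pool.Agent.Work.MP_4a14ce_an

end

section

/-!
# Product estimates, part C: pointwise bounds
-/

open Set MeasureTheory Topology Filter
open scoped ContDiff

set_option autoImplicit false

namespace Pool.Agent.Work.MP_4a14ce_an

variable {n : ℕ}

/-- the pointwise hypotheses -/
structure H4a_Hyp (σ p m L y : ℝ) (u : ℝ → V n) (x : ℝ) : Prop where
  sg : |σ| = 1
  L1 : 1 ≤ L
  y1 : 1 ≤ y
  p : |p| ≤ L
  m : |m| ≤ L
  b : ∀ a b : V n, |B σ a b| ≤ L * (‖a‖ * ‖b‖)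
  d0 : ‖u x‖ ≤ L
  d1 : ‖iteratedDeriv 1 u x‖ ≤ L
  d2 : ‖iteratedDeriv 2 u x‖ ≤ L * y
  d3 : ‖iteratedDeriv 3 u x‖ ≤ L * y ^ 3

theorem H4a_mono {L y : ℝ} (hL : 1 ≤ L) (hy : 1 ≤ y) {a b A B : ℕ} (h1 : a ≤ A) (h2 : b ≤ B) :
    L ^ a * y ^ b ≤ L ^ A * y ^ B :=
  mul_le_mul (pow_le_pow_right₀ hL h1) (pow_le_pow_right₀ hy h2) (by positivity) (by positivity)

theorem H4a_monoq {L y q : ℝ} (hL : 1 ≤ L) (hy : 1 ≤ y) (hq : 0 ≤ q) {a b A B : ℕ} (h1 : a ≤ A)
    (h2 : b ≤ B) : L ^ a * y ^ b * q ≤ L ^ A * y ^ B * q :=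
  mul_le_mul_of_nonneg_right (H4a_mono hL hy h1 h2) hq

variable {σ p m L y : ℝ} {u : ℝ → V n} {x : ℝ}

theorem H4a_2s1 (h : |σ| = 1) : |2 * σ - 1| ≤ 3 := by
  calc |2 * σ - 1| ≤ |2 * σ| + |1| := abs_sub _ _
    _ = 3 := by rw [abs_mul, h]; norm_num

theorem H4a_brho (H : H4a_Hyp σ p m L y u x) : |rho σ p u x| ≤ 2 * (L ^ 3 * y ^ 2) := by
  have hL0 : 0 ≤ L := zero_le_one.trans H.L1
  have hy0 : 0 ≤ y := zero_le_one.trans H.y1
  unfold rho
  calc |B σ (iteratedDeriv 2 u x) (iteratedDeriv 2 u x) - σ * p ^ 2|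
      ≤ |B σ (iteratedDeriv 2 u x) (iteratedDeriv 2 u x)| + |σ * p ^ 2| := abs_sub _ _
    _ ≤ L * ((L * y) * (L * y)) + 1 * L ^ 2 := by
        refine add_le_add ((H.b _ _).trans ?_) ?_
        · have := H.d2
          gcongr
        · rw [abs_mul, H.sg, abs_pow]
          have := H.p
          gcongr
    _ ≤ 2 * (L ^ 3 * y ^ 2) := by
        have := H4a_mono H.L1 H.y1 (show 2 ≤ 3 by norm_num) (show 0 ≤ 2 by norm_num)
        nlinarith [this]

theorem H4a_brhox (H : H4a_Hyp σ p m L y u x) :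
    |rhox σ u x| ≤ 2 * (L ^ 2 * y ^ 1 * ‖iteratedDeriv 3 u x‖) := by
  have hL0 : 0 ≤ L := zero_le_one.trans H.L1
  unfold rhox
  rw [abs_mul, abs_two]
  have h1 : |B σ (iteratedDeriv 2 u x) (iteratedDeriv 3 u x)| ≤
      L * ((L * y) * ‖iteratedDeriv 3 u x‖) := by
    refine (H.b _ _).trans ?_
    have := H.d2
    gcongr
  linarith

theorem H4a_brhox' (H : H4a_Hyp σ p m L y u x) : |rhox σ u x| ≤ 2 * (L ^ 3 * y ^ 4) := by
  have hL0 : 0 ≤ L := zero_le_one.trans H.L1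
  have hy0 : 0 ≤ y := zero_le_one.trans H.y1
  refine (H4a_brhox H).trans ?_
  have := H.d3
  calc 2 * (L ^ 2 * y ^ 1 * ‖iteratedDeriv 3 u x‖) ≤ 2 * (L ^ 2 * y ^ 1 * (L * y ^ 3)) := by gcongr
    _ = 2 * (L ^ 3 * y ^ 4) := by ring

theorem H4a_bq33 (H : H4a_Hyp σ p m L y u x) :
    |B σ (iteratedDeriv 3 u x) (iteratedDeriv 3 u x)| ≤
      L ^ 2 * y ^ 3 * ‖iteratedDeriv 3 u x‖ := by
  have hL0 : 0 ≤ L := zero_le_one.trans H.L1
  refine (H.b _ _).trans ?_
  have := H.d3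
  calc L * (‖iteratedDeriv 3 u x‖ * ‖iteratedDeriv 3 u x‖) ≤
        L * ((L * y ^ 3) * ‖iteratedDeriv 3 u x‖) := by gcongr
    _ = L ^ 2 * y ^ 3 * ‖iteratedDeriv 3 u x‖ := by ring

theorem H4a_bq34 (H : H4a_Hyp σ p m L y u x) :
    |B σ (iteratedDeriv 3 u x) (iteratedDeriv 4 u x)| ≤
      L ^ 2 * y ^ 3 * ‖iteratedDeriv 4 u x‖ := by
  have hL0 : 0 ≤ L := zero_le_one.trans H.L1
  refine (H.b _ _).trans ?_
  have := H.d3
  calc L * (‖iteratedDeriv 3 u x‖ * ‖iteratedDeriv 4 u x‖) ≤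
        L * ((L * y ^ 3) * ‖iteratedDeriv 4 u x‖) := by gcongr
    _ = L ^ 2 * y ^ 3 * ‖iteratedDeriv 4 u x‖ := by ring

theorem H4a_bq2 (H : H4a_Hyp σ p m L y u x) (j : ℕ) :
    |B σ (iteratedDeriv 2 u x) (iteratedDeriv j u x)| ≤
      L ^ 2 * y ^ 1 * ‖iteratedDeriv j u x‖ := by
  have hL0 : 0 ≤ L := zero_le_one.trans H.L1
  refine (H.b _ _).trans ?_
  have := H.d2
  calc L * (‖iteratedDeriv 2 u x‖ * ‖iteratedDeriv j u x‖) ≤
        L * ((L * y) * ‖iteratedDeriv j u x‖) := by gcongr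
    _ = L ^ 2 * y ^ 1 * ‖iteratedDeriv j u x‖ := by ring

theorem H4a_br2 (H : H4a_Hyp σ p m L y u x) :
    |H4a_r2 σ u x| ≤ 2 * (L ^ 2 * y ^ 3 * ‖iteratedDeriv 3 u x‖)
      + 2 * (L ^ 2 * y ^ 1 * ‖iteratedDeriv 4 u x‖) := by
  unfold H4a_r2
  rw [abs_mul, abs_two]
  have h1 := abs_add_le (B σ (iteratedDeriv 3 u x) (iteratedDeriv 3 u x))
    (B σ (iteratedDeriv 2 u x) (iteratedDeriv 4 u x))
  have h2 := H4a_bq33 H
  have h3 := H4a_bq2 H 4
  linarith

theorem H4a_br3 (H : H4a_Hyp σ p m L y u x) :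
    |H4a_r3 σ u x| ≤ 6 * (L ^ 2 * y ^ 3 * ‖iteratedDeriv 4 u x‖)
      + 2 * (L ^ 2 * y ^ 1 * ‖iteratedDeriv 5 u x‖) := by
  unfold H4a_r3
  rw [abs_mul, abs_two]
  have h1 := abs_add_le (3 * B σ (iteratedDeriv 3 u x) (iteratedDeriv 4 u x))
    (B σ (iteratedDeriv 2 u x) (iteratedDeriv 5 u x))
  rw [abs_mul, abs_of_pos (by norm_num : (0 : ℝ) < 3)] at h1
  have h2 := H4a_bq34 H
  have h3 := H4a_bq2 H 5
  linarith

theorem H4a_bex (H : H4a_Hyp σ p m L y u x) :
    |H4a_ex σ p u x| ≤ 2 * (L ^ 2 * y ^ 3 * ‖iteratedDeriv 4 u x‖)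
      + 4 * (L ^ 3 * y ^ 1 * ‖iteratedDeriv 3 u x‖) := by
  have hL0 : 0 ≤ L := zero_le_one.trans H.L1
  unfold H4a_ex
  have h1 := abs_sub (2 * B σ (iteratedDeriv 3 u x) (iteratedDeriv 4 u x))
    (4 * σ * p * B σ (iteratedDeriv 2 u x) (iteratedDeriv 3 u x))
  have e : |4 * σ * p * B σ (iteratedDeriv 2 u x) (iteratedDeriv 3 u x)| ≤
      4 * L * (L ^ 2 * y ^ 1 * ‖iteratedDeriv 3 u x‖) := by
    rw [abs_mul, abs_mul, abs_mul, H.sg, abs_of_pos (by norm_num : (0 : ℝ) < 4), mul_one]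
    have := H.p
    have h3 := H4a_bq2 H 3
    gcongr
  rw [abs_mul, abs_two] at h1
  have h2 := H4a_bq34 H
  nlinarith [h1, h2, e]

/-- the square form is needed for the integral -/
theorem H4a_bhh (H : H4a_Hyp σ p m L y u x) :
    |hh σ p m u x| ≤ 2 * (L ^ 2 * ‖iteratedDeriv 3 u x‖ ^ 2) + 24 * (L ^ 8 * y ^ 4) := by
  have hL0 : 0 ≤ L := zero_le_one.trans H.L1
  have hy0 : 0 ≤ y := zero_le_one.trans H.y1
  have hη : |eta σ p u x| ≤ L * ‖iteratedDeriv 3 u x‖ ^ 2 + 3 * (L ^ 4 * y ^ 2) := by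
    unfold eta
    have h1 := abs_add_le (B σ (iteratedDeriv 3 u x) (iteratedDeriv 3 u x)
      - 2 * σ * p * B σ (iteratedDeriv 2 u x) (iteratedDeriv 2 u x)) (p ^ 3)
    have h2 := abs_sub (B σ (iteratedDeriv 3 u x) (iteratedDeriv 3 u x))
      (2 * σ * p * B σ (iteratedDeriv 2 u x) (iteratedDeriv 2 u x))
    have h3 : |2 * σ * p * B σ (iteratedDeriv 2 u x) (iteratedDeriv 2 u x)| ≤
        2 * L * (L * ((L * y) * (L * y))) := by
      rw [abs_mul, abs_mul, abs_mul, H.sg, abs_two, mul_one]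
      have hp := H.p
      have hb : |B σ (iteratedDeriv 2 u x) (iteratedDeriv 2 u x)| ≤ L * ((L * y) * (L * y)) := by
        refine (H.b _ _).trans ?_
        have := H.d2
        gcongr
      gcongr
    have h4 : |p ^ 3| ≤ L ^ 3 := by
      rw [abs_pow]; have := H.p; gcongr
    have h5 := H.b (iteratedDeriv 3 u x) (iteratedDeriv 3 u x)
    have h6 := H4a_mono H.L1 H.y1 (show 3 ≤ 4 by norm_num) (show 0 ≤ 2 by norm_num)
    nlinarith [h1, h2, h3, h4, h5, h6]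
  have hρ := H4a_brho H
  have hρ2 : |rho σ p u x| ^ 2 ≤ (2 * (L ^ 3 * y ^ 2)) ^ 2 :=
    pow_le_pow_left₀ (abs_nonneg _) hρ 2
  unfold hh
  have h1 := abs_sub (2 * m * eta σ p u x - 3 * m ^ 2 * rho σ p u x ^ 2)
    ((2 * σ - 1) * rho σ p u x)
  have h2 := abs_sub (2 * m * eta σ p u x) (3 * m ^ 2 * rho σ p u x ^ 2)
  have hm := H.m
  have e1 : |2 * m * eta σ p u x| ≤
      2 * L * (L * ‖iteratedDeriv 3 u x‖ ^ 2 + 3 * (L ^ 4 * y ^ 2)) := by
    rw [abs_mul, abs_mul, abs_two]; gcongr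
  have e2 : |3 * m ^ 2 * rho σ p u x ^ 2| ≤ 3 * L ^ 2 * (2 * (L ^ 3 * y ^ 2)) ^ 2 := by
    rw [abs_mul, abs_mul, abs_of_pos (by norm_num : (0 : ℝ) < 3), abs_pow, abs_pow]; gcongr
  have e3 : |(2 * σ - 1) * rho σ p u x| ≤ 3 * (2 * (L ^ 3 * y ^ 2)) := by
    rw [abs_mul]
    exact mul_le_mul (H4a_2s1 H.sg) hρ (abs_nonneg _) (by norm_num)
  have m1 := H4a_mono H.L1 H.y1 (show 5 ≤ 8 by norm_num) (show 2 ≤ 4 by norm_num)
  have m2 := H4a_mono H.L1 H.y1 (show 3 ≤ 8 by norm_num) (show 2 ≤ 4 by norm_num)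
  nlinarith [h1, h2, e1, e2, e3, m1, m2]

theorem H4a_bhx (H : H4a_Hyp σ p m L y u x) :
    |H4a_hx σ p m u x| ≤ 4 * (L ^ 3 * y ^ 3 * ‖iteratedDeriv 4 u x‖)
      + 38 * (L ^ 7 * y ^ 3 * ‖iteratedDeriv 3 u x‖) := by
  have hL0 : 0 ≤ L := zero_le_one.trans H.L1
  have hy0 : 0 ≤ y := zero_le_one.trans H.y1
  have hρ := H4a_brho H
  have hρx := H4a_brhox H
  have hex := H4a_bex H
  have hm := H.m
  unfold H4a_hx
  have h1 := abs_sub (2 * m * H4a_ex σ p u x - 6 * m ^ 2 * (rho σ p u x * rhox σ u x))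
    ((2 * σ - 1) * rhox σ u x)
  have h2 := abs_sub (2 * m * H4a_ex σ p u x) (6 * m ^ 2 * (rho σ p u x * rhox σ u x))
  have e1 : |2 * m * H4a_ex σ p u x| ≤ 2 * L * (2 * (L ^ 2 * y ^ 3 * ‖iteratedDeriv 4 u x‖)
      + 4 * (L ^ 3 * y ^ 1 * ‖iteratedDeriv 3 u x‖)) := by
    rw [abs_mul, abs_mul, abs_two]; gcongr
  have e2 : |6 * m ^ 2 * (rho σ p u x * rhox σ u x)| ≤
      6 * L ^ 2 * ((2 * (L ^ 3 * y ^ 2)) * (2 * (L ^ 2 * y ^ 1 * ‖iteratedDeriv 3 u x‖))) := by
    rw [abs_mul, abs_mul, abs_mul, abs_of_pos (by norm_num : (0 : ℝ) < 6), abs_pow]; gcongr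
  have e3 : |(2 * σ - 1) * rhox σ u x| ≤ 3 * (2 * (L ^ 2 * y ^ 1 * ‖iteratedDeriv 3 u x‖)) := by
    rw [abs_mul]
    exact mul_le_mul (H4a_2s1 H.sg) hρx (abs_nonneg _) (by norm_num)
  have q3 := norm_nonneg (iteratedDeriv 3 u x)
  have m1 := H4a_monoq H.L1 H.y1 q3 (show 4 ≤ 7 by norm_num) (show 1 ≤ 3 by norm_num)
  have m2 := H4a_monoq H.L1 H.y1 q3 (show 2 ≤ 7 by norm_num) (show 1 ≤ 3 by norm_num)
  linarith [h1, h2, e1, e2, e3, m1, m2]

theorem H4a_ba2 (H : H4a_Hyp σ p m L y u x) :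
    |H4a_a2 σ p m u x| ≤ 28 * (L ^ 3 * y ^ 3 * ‖iteratedDeriv 4 u x‖)
      + 8 * (L ^ 3 * y ^ 1 * ‖iteratedDeriv 5 u x‖)
      + 38 * (L ^ 7 * y ^ 3 * ‖iteratedDeriv 3 u x‖) := by
  have hL0 : 0 ≤ L := zero_le_one.trans H.L1
  have hr3 := H4a_br3 H
  have hhx := H4a_bhx H
  have hm := H.m
  unfold H4a_a2
  have h1 := abs_add_le (-4 * m * H4a_r3 σ u x) (H4a_hx σ p m u x)
  have e1 : |-4 * m * H4a_r3 σ u x| ≤ 4 * L * (6 * (L ^ 2 * y ^ 3 * ‖iteratedDeriv 4 u x‖)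
      + 2 * (L ^ 2 * y ^ 1 * ‖iteratedDeriv 5 u x‖)) := by
    rw [abs_mul, abs_mul, show |(-4 : ℝ)| = 4 by norm_num]; gcongr
  linarith [h1, e1, hhx]

theorem H4a_ba1 (H : H4a_Hyp σ p m L y u x) (hμ : |mu σ p m u| ≤ 154 * (L ^ 8 * y ^ 4)) :
    |H4a_a1 σ p m u x| ≤ 10 * (L ^ 3 * y ^ 3 * ‖iteratedDeriv 3 u x‖)
      + 8 * (L ^ 3 * y ^ 1 * ‖iteratedDeriv 4 u x‖) + 178 * (L ^ 8 * y ^ 4) := by
  have hL0 : 0 ≤ L := zero_le_one.trans H.L1
  have hr2 := H4a_br2 H
  have hhh := H4a_bhh H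
  have hm := H.m
  unfold H4a_a1
  have h1 := abs_add_le (-4 * m * H4a_r2 σ u x) (hh σ p m u x - mu σ p m u)
  have h2 := abs_sub (hh σ p m u x) (mu σ p m u)
  have e1 : |-4 * m * H4a_r2 σ u x| ≤ 4 * L * (2 * (L ^ 2 * y ^ 3 * ‖iteratedDeriv 3 u x‖)
      + 2 * (L ^ 2 * y ^ 1 * ‖iteratedDeriv 4 u x‖)) := by
    rw [abs_mul, abs_mul, show |(-4 : ℝ)| = 4 by norm_num]; gcongr
  have e2 : L ^ 2 * ‖iteratedDeriv 3 u x‖ ^ 2 ≤ L ^ 3 * y ^ 3 * ‖iteratedDeriv 3 u x‖ := by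
    have := H.d3
    calc L ^ 2 * ‖iteratedDeriv 3 u x‖ ^ 2 =
          L ^ 2 * (‖iteratedDeriv 3 u x‖ * ‖iteratedDeriv 3 u x‖) := by ring
      _ ≤ L ^ 2 * ((L * y ^ 3) * ‖iteratedDeriv 3 u x‖) := by gcongr
      _ = _ := by ring
  linarith [h1, h2, e1, e2, hhh, hμ]

theorem H4a_bbeta (H : H4a_Hyp σ p m L y u x) : |beta σ p m u x| ≤ 9 * (L ^ 4 * y ^ 2) := by
  have hL0 : 0 ≤ L := zero_le_one.trans H.L1
  have hρ := H4a_brho H
  have hm := H.m
  unfold beta
  have h1 := abs_add_le (3 * m * rho σ p u x) ((2 * σ - 1) * p)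
  have e1 : |3 * m * rho σ p u x| ≤ 3 * L * (2 * (L ^ 3 * y ^ 2)) := by
    rw [abs_mul, abs_mul, abs_of_pos (by norm_num : (0 : ℝ) < 3)]; gcongr
  have e2 : |(2 * σ - 1) * p| ≤ 3 * L := by
    rw [abs_mul]
    exact mul_le_mul (H4a_2s1 H.sg) H.p (abs_nonneg _) (by norm_num)
  have m1 := H4a_mono H.L1 H.y1 (show 1 ≤ 4 by norm_num) (show 0 ≤ 2 by norm_num)
  linarith [h1, e1, e2, m1]

/-- the final pointwise bound -/
theorem H4a_bN2 (H : H4a_Hyp σ p m L y u x) (hμ : |mu σ p m u| ≤ 154 * (L ^ 8 * y ^ 4))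
    (hα : |alpha σ p m u x| ≤ 318 * (L ^ 8 * y ^ 4)) :
    ‖H4a_N2 σ p m u x‖ ≤ 500 * L ^ 9 * (y ^ 5 + y ^ 4 * ‖iteratedDeriv 3 u x‖
      + y ^ 3 * ‖iteratedDeriv 4 u x‖ + y * ‖iteratedDeriv 5 u x‖) := by
  have hL0 : 0 ≤ L := zero_le_one.trans H.L1
  have hy0 : 0 ≤ y := zero_le_one.trans H.y1
  have q3 := norm_nonneg (iteratedDeriv 3 u x)
  have q4 := norm_nonneg (iteratedDeriv 4 u x)
  have q5 := norm_nonneg (iteratedDeriv 5 u x)
  have hρ := H4a_brho H
  have hρx := H4a_brhox H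
  have hρx' := H4a_brhox' H
  have hr2 := H4a_br2 H
  have ha1 := H4a_ba1 H hμ
  have ha2 := H4a_ba2 H
  have hβ := H4a_bbeta H
  have hm := H.m
  have hp := H.p
  have hd0 := H.d0
  have hd1 := H.d1
  have hd2 := H.d2
  have hd3 := H.d3
  have hsg := H.sg
  have t1 : ‖-(2 * σ * p) • iteratedDeriv 4 u x‖ ≤ 2 * (L * ‖iteratedDeriv 4 u x‖) := by
    rw [norm_smul, norm_neg, Real.norm_eq_abs, abs_mul, abs_mul, hsg, abs_two, mul_one]
    calc 2 * |p| * ‖iteratedDeriv 4 u x‖ ≤ 2 * L * ‖iteratedDeriv 4 u x‖ := by gcongr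
      _ = _ := by ring
  have t2 : ‖H4a_a2 σ p m u x • iteratedDeriv 1 u x‖ ≤
      (28 * (L ^ 3 * y ^ 3 * ‖iteratedDeriv 4 u x‖) + 8 * (L ^ 3 * y ^ 1 * ‖iteratedDeriv 5 u x‖)
      + 38 * (L ^ 7 * y ^ 3 * ‖iteratedDeriv 3 u x‖)) * L := by
    rw [norm_smul, Real.norm_eq_abs]; gcongr
  have t3 : ‖(2 * H4a_a1 σ p m u x) • iteratedDeriv 2 u x‖ ≤
      (2 * (10 * (L ^ 3 * y ^ 3 * ‖iteratedDeriv 3 u x‖)
      + 8 * (L ^ 3 * y ^ 1 * ‖iteratedDeriv 4 u x‖) + 178 * (L ^ 8 * y ^ 4))) * (L * y) := by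
    rw [norm_smul, Real.norm_eq_abs, abs_mul, abs_two]; gcongr
  have t4 : ‖alpha σ p m u x • iteratedDeriv 3 u x‖ ≤
      318 * (L ^ 8 * y ^ 4) * ‖iteratedDeriv 3 u x‖ := by
    rw [norm_smul, Real.norm_eq_abs]; gcongr
  have t5 : ‖(2 * σ * H4a_r2 σ u x) • u x‖ ≤
      (2 * (2 * (L ^ 2 * y ^ 3 * ‖iteratedDeriv 3 u x‖)
      + 2 * (L ^ 2 * y ^ 1 * ‖iteratedDeriv 4 u x‖))) * L := by
    rw [norm_smul, Real.norm_eq_abs, abs_mul, abs_mul, hsg, abs_two, mul_one]; gcongr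
  have t6 : ‖(4 * σ * rhox σ u x) • iteratedDeriv 1 u x‖ ≤
      (4 * (2 * (L ^ 2 * y ^ 1 * ‖iteratedDeriv 3 u x‖))) * L := by
    rw [norm_smul, Real.norm_eq_abs, abs_mul, abs_mul, hsg,
      abs_of_pos (by norm_num : (0 : ℝ) < 4), mul_one]; gcongr
  have t7 : ‖(2 * σ * rho σ p u x) • iteratedDeriv 2 u x‖ ≤
      (2 * (2 * (L ^ 3 * y ^ 2))) * (L * y) := by
    rw [norm_smul, Real.norm_eq_abs, abs_mul, abs_mul, hsg, abs_two, mul_one]; gcongr
  have hsp : ∀ v : V n, ‖(σ * p) • v‖ ≤ L * ‖v‖ := fun v => by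
    rw [norm_smul, Real.norm_eq_abs, abs_mul, hsg, one_mul]; gcongr
  have s1 : ‖iteratedDeriv 2 u x + (σ * p) • u x‖ ≤ L * y + L * L :=
    (norm_add_le _ _).trans (add_le_add hd2 ((hsp _).trans (by gcongr)))
  have s2 : ‖iteratedDeriv 3 u x + (σ * p) • iteratedDeriv 1 u x‖ ≤
      ‖iteratedDeriv 3 u x‖ + L * L :=
    (norm_add_le _ _).trans (add_le_add le_rfl ((hsp _).trans (by gcongr)))
  have s3 : ‖iteratedDeriv 4 u x + (σ * p) • iteratedDeriv 2 u x‖ ≤
      ‖iteratedDeriv 4 u x‖ + L * (L * y) :=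
    (norm_add_le _ _).trans (add_le_add le_rfl ((hsp _).trans (by gcongr)))
  have t8 : ‖(3 * m * H4a_r2 σ u x) • (iteratedDeriv 2 u x + (σ * p) • u x)‖ ≤
      (3 * L * (2 * (L ^ 2 * y ^ 3 * ‖iteratedDeriv 3 u x‖)
      + 2 * (L ^ 2 * y ^ 1 * ‖iteratedDeriv 4 u x‖))) * (L * y + L * L) := by
    rw [norm_smul, Real.norm_eq_abs, abs_mul, abs_mul,
      abs_of_pos (by norm_num : (0 : ℝ) < 3)]; gcongr
  have t9 : ‖(6 * m * rhox σ u x) • (iteratedDeriv 3 u x + (σ * p) • iteratedDeriv 1 u x)‖ ≤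
      6 * L * (2 * (L ^ 3 * y ^ 4)) * ‖iteratedDeriv 3 u x‖
        + 6 * L * (2 * (L ^ 2 * y ^ 1 * ‖iteratedDeriv 3 u x‖)) * (L * L) := by
    rw [norm_smul, Real.norm_eq_abs, abs_mul, abs_mul,
      abs_of_pos (by norm_num : (0 : ℝ) < 6)]
    calc 6 * |m| * |rhox σ u x| * ‖iteratedDeriv 3 u x + (σ * p) • iteratedDeriv 1 u x‖
        ≤ 6 * |m| * |rhox σ u x| * (‖iteratedDeriv 3 u x‖ + L * L) := by gcongr
      _ = 6 * |m| * |rhox σ u x| * ‖iteratedDeriv 3 u x‖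
          + 6 * |m| * |rhox σ u x| * (L * L) := by ring
      _ ≤ _ := by
          refine add_le_add ?_ ?_
          · gcongr
          · gcongr
  have t10 : ‖beta σ p m u x • (iteratedDeriv 4 u x + (σ * p) • iteratedDeriv 2 u x)‖ ≤
      9 * (L ^ 4 * y ^ 2) * (‖iteratedDeriv 4 u x‖ + L * (L * y)) := by
    rw [norm_smul, Real.norm_eq_abs]; gcongr
  have tri : ‖H4a_N2 σ p m u x‖ ≤ ‖-(2 * σ * p) • iteratedDeriv 4 u x‖
      + (‖H4a_a2 σ p m u x • iteratedDeriv 1 u x‖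
        + ‖(2 * H4a_a1 σ p m u x) • iteratedDeriv 2 u x‖
        + ‖alpha σ p m u x • iteratedDeriv 3 u x‖)
      + (‖(2 * σ * H4a_r2 σ u x) • u x‖ + ‖(4 * σ * rhox σ u x) • iteratedDeriv 1 u x‖
        + ‖(2 * σ * rho σ p u x) • iteratedDeriv 2 u x‖)
      + (‖(3 * m * H4a_r2 σ u x) • (iteratedDeriv 2 u x + (σ * p) • u x)‖
        + ‖(6 * m * rhox σ u x) • (iteratedDeriv 3 u x + (σ * p) • iteratedDeriv 1 u x)‖
        + ‖beta σ p m u x • (iteratedDeriv 4 u x + (σ * p) • iteratedDeriv 2 u x)‖) := by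
    unfold H4a_N2
    refine (norm_sub_le _ _).trans (add_le_add ?_ (norm_add₃_le))
    refine (norm_add_le _ _).trans (add_le_add ?_ norm_add₃_le)
    exact (norm_add_le _ _).trans (add_le_add le_rfl norm_add₃_le)
  refine tri.trans ?_
  -- monomial comparisons
  have m1 := H4a_monoq H.L1 H.y1 q4 (show 1 ≤ 9 by norm_num) (show 0 ≤ 3 by norm_num)
  have m2 := H4a_monoq H.L1 H.y1 q4 (show 4 ≤ 9 by norm_num) (show 3 ≤ 3 by norm_num)
  have m3 := H4a_monoq H.L1 H.y1 q5 (show 4 ≤ 9 by norm_num) (show 1 ≤ 1 by norm_num)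
  have m4 := H4a_monoq H.L1 H.y1 q3 (show 8 ≤ 9 by norm_num) (show 3 ≤ 4 by norm_num)
  have m5 := H4a_monoq H.L1 H.y1 q3 (show 4 ≤ 9 by norm_num) (show 4 ≤ 4 by norm_num)
  have m6 := H4a_monoq H.L1 H.y1 q4 (show 4 ≤ 9 by norm_num) (show 2 ≤ 3 by norm_num)
  have m7 := H4a_monoq H.L1 H.y1 q3 (show 8 ≤ 9 by norm_num) (show 4 ≤ 4 by norm_num)
  have m8 := H4a_monoq H.L1 H.y1 q3 (show 3 ≤ 9 by norm_num) (show 3 ≤ 4 by norm_num)
  have m9 := H4a_monoq H.L1 H.y1 q4 (show 3 ≤ 9 by norm_num) (show 1 ≤ 3 by norm_num)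
  have m10 := H4a_monoq H.L1 H.y1 q3 (show 3 ≤ 9 by norm_num) (show 1 ≤ 4 by norm_num)
  have m11 := H4a_mono H.L1 H.y1 (show 4 ≤ 9 by norm_num) (show 3 ≤ 5 by norm_num)
  have m12 := H4a_monoq H.L1 H.y1 q4 (show 4 ≤ 9 by norm_num) (show 2 ≤ 3 by norm_num)
  have m13 := H4a_monoq H.L1 H.y1 q3 (show 5 ≤ 9 by norm_num) (show 3 ≤ 4 by norm_num)
  have m14 := H4a_monoq H.L1 H.y1 q4 (show 5 ≤ 9 by norm_num) (show 1 ≤ 3 by norm_num)
  have m15 := H4a_monoq H.L1 H.y1 q3 (show 5 ≤ 9 by norm_num) (show 1 ≤ 4 by norm_num)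
  have m16 := H4a_mono H.L1 H.y1 (show 6 ≤ 9 by norm_num) (show 3 ≤ 5 by norm_num)
  have m17 : 0 ≤ L ^ 9 * y ^ 5 := by positivity
  have m18 : 0 ≤ L ^ 9 * y ^ 4 * ‖iteratedDeriv 3 u x‖ := by positivity
  have m19 : 0 ≤ L ^ 9 * y ^ 3 * ‖iteratedDeriv 4 u x‖ := by positivity
  have m20 : 0 ≤ L ^ 9 * y ^ 1 * ‖iteratedDeriv 5 u x‖ := by positivity
  generalize ‖iteratedDeriv 3 u x‖ = Q3 at *
  generalize ‖iteratedDeriv 4 u x‖ = Q4 at *
  generalize ‖iteratedDeriv 5 u x‖ = Q5 at *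
  linarith

end Pool.Agent.Work.MP_4a14ce_an

end

section

/-!
# Invariance under linear isometries
-/

open Set MeasureTheory Topology Filter
open scoped ContDiff

namespace Pool.Agent.Work.MP_4a14ce_an

variable {n : ℕ}

/-- a linear map as a continuous linear map -/
noncomputable def InvL (g : V n →ₗ[ℝ] V n) : V n →L[ℝ] V n := LinearMap.toContinuousLinearMap g

theorem InvL_apply (g : V n →ₗ[ℝ] V n) (x : V n) : InvL g x = g x := rfl

theorem Inv_iter (g : V n →ₗ[ℝ] V n) {u : ℝ → V n} (hu : ContDiff ℝ ∞ u) (j : ℕ) :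
    iteratedDeriv j (fun y => g (u y)) = fun x => g (iteratedDeriv j u x) := by
  induction j with
  | zero => simp only [iteratedDeriv_zero]
  | succ j ih =>
    rw [iteratedDeriv_succ, ih]
    funext x
    have h1 := (InvL g).hasFDerivAt.comp_hasDerivAt x (ConId_hasDeriv hu j x)
    exact h1.deriv

theorem Inv_rho {σ : ℝ} {g : V n →ₗ[ℝ] V n} (hg : IsIso σ g) (p : ℝ) {u : ℝ → V n}
    (hu : ContDiff ℝ ∞ u) : rho σ p (fun y => g (u y)) = rho σ p u := by
  funext x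
  unfold rho
  rw [Inv_iter g hu, hg.form]

theorem Inv_rhox {σ : ℝ} {g : V n →ₗ[ℝ] V n} (hg : IsIso σ g) {u : ℝ → V n}
    (hu : ContDiff ℝ ∞ u) : rhox σ (fun y => g (u y)) = rhox σ u := by
  funext x
  unfold rhox
  rw [Inv_iter g hu, Inv_iter g hu, hg.form]

theorem Inv_eta {σ : ℝ} {g : V n →ₗ[ℝ] V n} (hg : IsIso σ g) (p : ℝ) {u : ℝ → V n}
    (hu : ContDiff ℝ ∞ u) : eta σ p (fun y => g (u y)) = eta σ p u := by
  funext x
  unfold eta
  rw [Inv_iter g hu, Inv_iter g hu, hg.form, hg.form]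

theorem Inv_beta {σ : ℝ} {g : V n →ₗ[ℝ] V n} (hg : IsIso σ g) (p m : ℝ) {u : ℝ → V n}
    (hu : ContDiff ℝ ∞ u) : beta σ p m (fun y => g (u y)) = beta σ p m u := by
  funext x
  unfold beta
  rw [Inv_rho hg p hu]

theorem Inv_hh {σ : ℝ} {g : V n →ₗ[ℝ] V n} (hg : IsIso σ g) (p m : ℝ) {u : ℝ → V n}
    (hu : ContDiff ℝ ∞ u) : hh σ p m (fun y => g (u y)) = hh σ p m u := by
  funext x
  unfold hh
  rw [Inv_rho hg p hu, Inv_eta hg p hu]

theorem Inv_mu {σ : ℝ} {g : V n →ₗ[ℝ] V n} (hg : IsIso σ g) (p m : ℝ) {u : ℝ → V n}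
    (hu : ContDiff ℝ ∞ u) : mu σ p m (fun y => g (u y)) = mu σ p m u := by
  unfold mu
  rw [Inv_hh hg p m hu]

theorem Inv_alpha {σ : ℝ} {g : V n →ₗ[ℝ] V n} (hg : IsIso σ g) (p m : ℝ) {u : ℝ → V n}
    (hu : ContDiff ℝ ∞ u) : alpha σ p m (fun y => g (u y)) = alpha σ p m u := by
  funext x
  unfold alpha
  rw [Inv_rhox hg hu, Inv_hh hg p m hu, Inv_mu hg p m hu]

theorem Inv_vel {σ : ℝ} {g : V n →ₗ[ℝ] V n} (hg : IsIso σ g) (p m : ℝ) {u : ℝ → V n}
    (hu : ContDiff ℝ ∞ u) (x : ℝ) : vel σ p m (fun y => g (u y)) x = g (vel σ p m u x) := by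
  unfold vel
  rw [Inv_rhox hg hu, Inv_rho hg p hu, Inv_beta hg p m hu, Inv_iter g hu, Inv_iter g hu,
    Inv_iter g hu]
  simp only [map_sub, map_add, map_smul]

theorem Inv_rhs {σ : ℝ} {g : V n →ₗ[ℝ] V n} (hg : IsIso σ g) (p m : ℝ) {u : ℝ → V n}
    (hu : ContDiff ℝ ∞ u) (x : ℝ) : rhs σ p m (fun y => g (u y)) x = g (rhs σ p m u x) := by
  unfold rhs
  rw [Inv_alpha hg p m hu, Inv_rho hg p hu, Inv_beta hg p m hu, Inv_iter g hu, Inv_iter g hu,
    Inv_iter g hu]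
  simp only [map_sub, map_add, map_smul]

theorem Inv_con {σ : ℝ} {g : V n →ₗ[ℝ] V n} (hg : IsIso σ g) {p : ℝ} {u : ℝ → V n}
    (hu : Con σ p u) : Con σ p (fun y => g (u y)) where
  smooth := (InvL g).contDiff.comp hu.smooth
  periodic := fun x => by
    show g (u (x + 2 * Real.pi)) = g (u x)
    rw [hu.periodic x]
  mem := fun x => hg.mem _ (hu.mem x)
  speed := fun x => by
    have h1 := congrFun (Inv_iter g hu.smooth 1) x
    rw [iteratedDeriv_one, iteratedDeriv_one] at h1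
    rw [h1, hg.form]
    exact hu.speed x
  pos := hu.pos

theorem claimInv : ClaimInv := by
  intro n σ g _ hg
  refine ⟨fun u hu j x => congrFun (Inv_iter g hu j) x, fun u p hu => ⟨Inv_con hg hu, ?_, ?_,
    fun x => Inv_vel hg p p⁻¹ hu.smooth x⟩, fun I u p h => ?_⟩
  · unfold en
    rw [Inv_iter g hu.smooth]
    simp only [hg.form]
  · unfold dis
    congr 1
    funext x
    rw [Inv_vel hg p p⁻¹ hu.smooth x, hg.form]
  · have hsm : ∀ t ∈ I, ContDiff ℝ ∞ (u t) := fun t ht => (h.con t ht).smooth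
    refine ⟨⟨?_, h.sol.psmooth, h.sol.msmooth, fun t ht => (Inv_con hg (h.con t ht)).periodic,
      fun t ht x => ?_, fun t ht => ?_, fun t ht => ?_⟩, fun t ht => Inv_con hg (h.con t ht)⟩
    · exact (InvL g).contDiff.comp_contDiffOn h.sol.smooth
    · rw [Inv_rhs hg _ _ (hsm t ht)]
      exact (InvL g).hasFDerivAt.comp_hasDerivWithinAt t (h.sol.eqn t ht x)
    · rw [Inv_mu hg _ _ (hsm t ht)]
      exact h.sol.peqn t ht
    · rw [Inv_mu hg _ _ (hsm t ht)]
      exact h.sol.meqn t ht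

end Pool.Agent.Work.MP_4a14ce_an

end

section

/-!
# Group L, item L5: the blow-up step
-/

open Set Topology Filter Polynomial

namespace Pool.Agent.Work.MP_4a14ce_an

/-! ## one variable -/

theorem lcore_iter_poly (p : ℝ[X]) (j : ℕ) :
    iteratedDeriv j (fun t => p.eval t) = fun t => (derivative^[j] p).eval t := by
  induction j generalizing p with
  | zero => simp
  | succ j ih =>
    rw [iteratedDeriv_succ']
    have h1 : deriv (fun t => p.eval t) = fun t => (derivative p).eval t := by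
      funext t
      exact p.deriv
    rw [h1, ih, Function.iterate_succ_apply]

/-- a polynomial with a zero of high order at `0` -/
theorem lcore_poly_zero {p : ℝ[X]} {m : ℕ}
    (h : ∀ j < m, iteratedDeriv j (fun t => p.eval t) 0 = 0) : ∀ j < m, p.coeff j = 0 := by
  intro j hj
  have h1 := h j hj
  rw [lcore_iter_poly] at h1
  simp only at h1
  rw [← coeff_zero_eq_eval_zero, coeff_iterate_derivative, zero_add, Nat.descFactorial_self,
    nsmul_eq_mul] at h1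
  have h2 : (j.factorial : ℝ) ≠ 0 := by exact_mod_cast j.factorial_ne_zero
  exact (mul_eq_zero.1 h1).resolve_left h2

/-- the order at `0` -/
theorem lcore_order {k : ℕ} {e : ℕ → ℝ} {W U : ℝ → ℝ} (hW : AnalyticAt ℝ W 0) (hW0 : W 0 ≠ 0)
    (hU : AnalyticAt ℝ U 0) (he : ∃ j < k, e j ≠ 0) :
    ∃ j ≤ k, iteratedDeriv j
      (fun t => W t * (∑ j ∈ Finset.range k, e j * t ^ j + t ^ (k + 1) * U t)) 0 ≠ 0 := by
  by_contra hcon
  push Not at hcon
  obtain ⟨j0, hj0, hj1⟩ := he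
  apply hj1
  set P : ℝ[X] := ∑ j ∈ Finset.range k, C (e j) * X ^ j with hP
  have hPe : ∀ t, P.eval t = ∑ j ∈ Finset.range k, e j * t ^ j := by
    intro t
    rw [hP, eval_finsetSum]
    simp
  have hPc : P.coeff j0 = e j0 := by
    rw [hP, finsetSum_coeff]
    simp [coeff_X_pow, hj0]
  have aP : AnalyticAt ℝ (fun t => P.eval t) 0 := by
    simp only [hPe]
    exact Finset.analyticAt_fun_sum _ fun j _ => analyticAt_const.mul (analyticAt_id.pow j)
  have aR : AnalyticAt ℝ (fun t : ℝ => t ^ (k + 1) * U t) 0 := (analyticAt_id.pow (k + 1)).mul hU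
  have aQ : AnalyticAt ℝ ((fun t => P.eval t) + fun t : ℝ => t ^ (k + 1) * U t) 0 := aP.add aR
  have hf : (fun t => W t * (∑ j ∈ Finset.range k, e j * t ^ j + t ^ (k + 1) * U t)) =
      W * ((fun t => P.eval t) + fun t : ℝ => t ^ (k + 1) * U t) := by
    funext t
    simp [hPe]
  rw [hf] at hcon
  have h1 : ((k + 1 : ℕ) : ℕ∞) ≤
      analyticOrderAt (W * ((fun t => P.eval t) + fun t : ℝ => t ^ (k + 1) * U t)) 0 :=
    (natCast_le_analyticOrderAt_iff_iteratedDeriv_eq_zero (hW.mul aQ)).2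
      fun i hi => hcon i (Nat.lt_succ_iff.1 hi)
  rw [analyticOrderAt_mul hW aQ, hW.analyticOrderAt_eq_zero.2 hW0, zero_add] at h1
  have h2 : ((k + 1 : ℕ) : ℕ∞) ≤ analyticOrderAt (fun t : ℝ => t ^ (k + 1) * U t) 0 := by
    rw [natCast_le_analyticOrderAt aR]
    exact ⟨U, hU, Eventually.of_forall fun t => by simp⟩
  have h3 : ((k + 1 : ℕ) : ℕ∞) ≤ analyticOrderAt (fun t => P.eval t) 0 := by
    have h4 := le_analyticOrderAt_sub
      (f := (fun t => P.eval t) + fun t : ℝ => t ^ (k + 1) * U t)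
      (g := fun t : ℝ => t ^ (k + 1) * U t) (z₀ := 0)
    rw [add_sub_cancel_right] at h4
    exact (le_min h1 h2).trans h4
  have h5 := (natCast_le_analyticOrderAt_iff_iteratedDeriv_eq_zero aP).1 h3
  have h6 := lcore_poly_zero h5 j0 (by omega)
  rw [← hPc]
  exact h6

/-- the derivative of order `k` at a point different from `0` -/
theorem lcore_deriv (k : ℕ) (e : ℕ → ℝ) (c s : ℝ) :
    iteratedDeriv k (fun t => ∑ j ∈ Finset.range k, e j * t ^ j + t ^ (k + 1) * c) s =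
      ((k + 1).factorial : ℝ) * c * s := by
  set P : ℝ[X] := ∑ j ∈ Finset.range k, C (e j) * X ^ j + C c * X ^ (k + 1) with hP
  have hPe : ∀ t, P.eval t = ∑ j ∈ Finset.range k, e j * t ^ j + t ^ (k + 1) * c := by
    intro t
    rw [hP, eval_add, eval_finsetSum]
    simp only [eval_mul, eval_C, eval_pow, eval_X]
    rw [mul_comm c]
  have h1 : (fun t => ∑ j ∈ Finset.range k, e j * t ^ j + t ^ (k + 1) * c) =
      fun t => P.eval t := by
    funext t
    rw [hPe]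
  rw [h1, lcore_iter_poly]
  simp only
  have h2 : derivative^[k] P = C (((k + 1).factorial : ℝ) * c) * X := by
    ext m
    rw [coeff_iterate_derivative]
    have h3 : P.coeff (m + k) = if m = 1 then c else 0 := by
      rw [hP, coeff_add, finsetSum_coeff, Finset.sum_eq_zero, zero_add]
      · rw [coeff_C_mul_X_pow]
        by_cases hm : m = 1
        · simp [hm, add_comm]
        · rw [if_neg (by omega), if_neg hm]
      · intro j hj
        rw [Finset.mem_range] at hj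
        rw [coeff_C_mul_X_pow, if_neg (by omega)]
    rw [h3, coeff_C_mul, coeff_X]
    by_cases hm : m = 1
    · subst hm
      simp only [if_true, nsmul_eq_mul, mul_one]
      rw [add_comm 1 k]
      have h4 : (k + 1).descFactorial k = (k + 1).factorial := by
        have := Nat.descFactorial_self (k + 1)
        rw [Nat.descFactorial_succ] at this
        simpa using this
      rw [h4]
    · rw [if_neg hm, if_neg (fun h => hm h.symm)]
      simp
  rw [h2]
  simp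

/-! ## monomials -/

theorem lcore_mono_an {n : ℕ} (β : Fin n → ℕ) (b : Fin n → ℝ) :
    AnalyticAt ℝ (fun w : Fin n → ℝ => ∏ i, w i ^ β i) b :=
  Finset.analyticAt_fun_prod _ fun i _ => (analyticAt_coord i b).pow (β i)

theorem lcore_mono_anP {n : ℕ} (β : Fin n → ℕ) (b : (Fin n → ℝ) × ℝ) :
    AnalyticAt ℝ (fun p : (Fin n → ℝ) × ℝ => ∏ i, p.1 i ^ β i) b :=
  Finset.analyticAt_fun_prod _ fun i _ => (analyticAt_coordP i b).pow (β i)

theorem lcore_mono_ne {n : ℕ} (β : Fin n → ℕ) :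
    ¬ ∀ᶠ w : Fin n → ℝ in 𝓝 0, ∏ i, w i ^ β i = 0 := by
  intro h
  obtain ⟨r, hr, hr2⟩ := Metric.eventually_nhds_iff_ball.1 h
  have h1 : (fun _ : Fin n => r / 2) ∈ Metric.ball (0 : Fin n → ℝ) r := by
    rw [mem_ball_zero_iff, pi_norm_lt_iff hr]
    intro i
    rw [Real.norm_eq_abs, abs_of_pos (by positivity)]
    linarith
  have h2 := hr2 _ h1
  rw [Finset.prod_eq_zero_iff] at h2
  obtain ⟨i, _, hi⟩ := h2
  have h3 : (r / 2) ≠ 0 := by positivity
  exact pow_ne_zero _ h3 hi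

/-- the functions of the blow-up step -/
noncomputable def LcF {n : ℕ} (k : ℕ) (α β : Fin n → ℕ) (v : ℕ → (Fin n → ℝ) → ℝ)
    (U W : (Fin n → ℝ) × ℝ → ℝ) (p : (Fin n → ℝ) × ℝ) : ℝ :=
  (∏ i, p.1 i ^ β i) * W p *
    (∑ j ∈ Finset.range k, (∏ i, p.1 i ^ ((k + 1 - j) * α i)) * v j p.1 * p.2 ^ j +
      p.2 ^ (k + 1) * U p)

theorem lcore_an {n : ℕ} (k : ℕ) (γ : ℕ → Fin n → ℕ) {v : ℕ → (Fin n → ℝ) → ℝ}
    {U W : (Fin n → ℝ) × ℝ → ℝ} (s : ℝ) (hv : ∀ j, AnalyticAt ℝ (v j) 0)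
    (hU : AnalyticAt ℝ U (0, s)) (hW : AnalyticAt ℝ W (0, s)) :
    AnalyticAt ℝ (fun p : (Fin n → ℝ) × ℝ => W p *
      (∑ j ∈ Finset.range k, (∏ i, p.1 i ^ γ j i) * v j p.1 * p.2 ^ j +
        p.2 ^ (k + 1) * U p)) (0, s) := by
  refine hW.mul (AnalyticAt.add ?_ ((analyticAt_snd.pow (k + 1)).mul hU))
  refine Finset.analyticAt_fun_sum _ fun j _ => ?_
  refine ((lcore_mono_anP (γ j) (0, s)).mul ?_).mul (analyticAt_snd.pow j)
  exact AnalyticAt.fun_comp (g := v j) (f := Prod.fst) (hv j) analyticAt_fst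

theorem lcore_prod_add {n : ℕ} (γ : Fin n → ℕ) (i : Fin n) (c : ℕ) (w : Fin n → ℝ) :
    ∏ l, w l ^ (γ l + if l = i then c else 0) = (∏ l, w l ^ γ l) * w i ^ c := by
  simp only [pow_add, Finset.prod_mul_distrib]
  congr 1
  rw [Finset.prod_eq_single i]
  · simp
  · intro l _ hl
    simp [hl]
  · simp

theorem lcore_prod_upd {n : ℕ} (γ : Fin n → ℕ) (i : Fin n) (s : ℝ) (w : Fin n → ℝ) :
    ∏ l, (Function.update w i (s * w i)) l ^ γ l = s ^ γ i * ∏ l, w l ^ γ l := by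
  rw [← Finset.mul_prod_erase Finset.univ _ (Finset.mem_univ i),
    ← Finset.mul_prod_erase Finset.univ (fun l => w l ^ γ l) (Finset.mem_univ i),
    Function.update_self, mul_pow, mul_assoc]
  congr 2
  refine Finset.prod_congr rfl fun l hl => ?_
  rw [Function.update_of_ne (Finset.ne_of_mem_erase hl)]

/-- first chart -/
theorem lcore_chart1 {n k : ℕ} (α α' β : Fin n → ℕ) (v : ℕ → (Fin n → ℝ) → ℝ)
    (U W : (Fin n → ℝ) × ℝ → ℝ) (i : Fin n)
    (hα : ∀ l, α l = α' l + if l = i then 1 else 0) (p : (Fin n → ℝ) × ℝ) :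
    LcF k α β v U W (p.1, p.1 i * p.2) =
      LcF k α' (fun l => β l + if l = i then k + 1 else 0) v
        (fun p => U (p.1, p.1 i * p.2)) (fun p => W (p.1, p.1 i * p.2)) p := by
  unfold LcF
  simp only
  rw [lcore_prod_add]
  have h1 : ∑ j ∈ Finset.range k, (∏ l, p.1 l ^ ((k + 1 - j) * α l)) * v j p.1 *
      (p.1 i * p.2) ^ j = p.1 i ^ (k + 1) *
        ∑ j ∈ Finset.range k, (∏ l, p.1 l ^ ((k + 1 - j) * α' l)) * v j p.1 * p.2 ^ j := by
    rw [Finset.mul_sum]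
    refine Finset.sum_congr rfl fun j hj => ?_
    rw [Finset.mem_range] at hj
    have h2 : ∏ l, p.1 l ^ ((k + 1 - j) * α l) =
        (∏ l, p.1 l ^ ((k + 1 - j) * α' l)) * p.1 i ^ (k + 1 - j) := by
      rw [← lcore_prod_add]
      refine Finset.prod_congr rfl fun l _ => ?_
      congr 1
      rw [hα l]
      split_ifs <;> ring
    have h3 : p.1 i ^ (k + 1) = p.1 i ^ (k + 1 - j) * p.1 i ^ j :=
      (pow_sub_mul_pow _ (by omega)).symm
    rw [h2, h3, mul_pow]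
    ring
  rw [h1, mul_pow]
  ring

/-- second chart -/
theorem lcore_chart2 {n k : ℕ} (α β : Fin n → ℕ) (v : ℕ → (Fin n → ℝ) → ℝ)
    (U W : (Fin n → ℝ) × ℝ → ℝ) (i : Fin n) (hα : 0 < α i) (p : (Fin n → ℝ) × ℝ) :
    LcF k α β v U W (Function.update p.1 i (p.2 * p.1 i), p.2) =
      ((∏ l, p.1 l ^ β l) * p.2 ^ (β i + (k + 1))) *
        (W (Function.update p.1 i (p.2 * p.1 i), p.2) *
          (∑ j ∈ Finset.range k, p.2 ^ ((k + 1 - j) * (α i - 1)) *
            (∏ l, p.1 l ^ ((k + 1 - j) * α l)) * v j (Function.update p.1 i (p.2 * p.1 i)) +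
              U (Function.update p.1 i (p.2 * p.1 i), p.2))) := by
  unfold LcF
  simp only
  rw [lcore_prod_upd]
  have h1 : ∑ j ∈ Finset.range k, (∏ l, Function.update p.1 i (p.2 * p.1 i) l ^
      ((k + 1 - j) * α l)) * v j (Function.update p.1 i (p.2 * p.1 i)) * p.2 ^ j =
      p.2 ^ (k + 1) * ∑ j ∈ Finset.range k, p.2 ^ ((k + 1 - j) * (α i - 1)) *
            (∏ l, p.1 l ^ ((k + 1 - j) * α l)) * v j (Function.update p.1 i (p.2 * p.1 i)) := by
    rw [Finset.mul_sum]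
    refine Finset.sum_congr rfl fun j hj => ?_
    rw [Finset.mem_range] at hj
    rw [lcore_prod_upd (fun l => (k + 1 - j) * α l)]
    obtain ⟨a, ha⟩ : ∃ a, α i = a + 1 := ⟨α i - 1, by omega⟩
    have h2 : p.2 ^ ((k + 1 - j) * α i) * p.2 ^ j = p.2 ^ (k + 1) *
        p.2 ^ ((k + 1 - j) * (α i - 1)) := by
      rw [← pow_add, ← pow_add]
      congr 1
      rw [ha, Nat.add_sub_cancel, mul_add, mul_one]
      omega
    linear_combination ((∏ l, p.1 l ^ ((k + 1 - j) * α l)) *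
      v j (Function.update p.1 i (p.2 * p.1 i))) * h2
  rw [h1]
  ring

theorem lcore_upd_an {n : ℕ} (i : Fin n) (x : (Fin n → ℝ) × ℝ) :
    AnalyticAt ℝ (fun p : (Fin n → ℝ) × ℝ =>
      ((Function.update p.1 i (p.2 * p.1 i), p.2) : (Fin n → ℝ) × ℝ)) x := by
  refine AnalyticAt.prod ?_ analyticAt_snd
  rw [analyticAt_pi_iff]
  intro l
  by_cases hl : l = i
  · subst hl
    simp only [Function.update_self]
    exact analyticAt_snd.mul (analyticAt_coordP l x)
  · simp only [Function.update_of_ne hl]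
    exact analyticAt_coordP l x

theorem lcore_aux {n k : ℕ} (hV : LV n k) : ∀ (N : ℕ) (α β : Fin n → ℕ)
    (v : ℕ → (Fin n → ℝ) → ℝ) (U W : (Fin n → ℝ) × ℝ → ℝ), ∑ i, α i = N →
    (∀ j, AnalyticAt ℝ (v j) 0) → AnalyticAt ℝ U (0, 0) → U (0, 0) ≠ 0 →
    AnalyticAt ℝ W (0, 0) → W (0, 0) ≠ 0 → (∃ j < k, v j 0 ≠ 0) →
    LRes LMonoP (LcF k α β v U W) (0, 0) := by
  intro N
  induction N with
  | zero =>
    intro α β v U W hN hv hU hU0 hW hW0 hex
    have hα : ∀ i, α i = 0 := by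
      intro i
      exact (Finset.sum_eq_zero_iff.1 hN) i (Finset.mem_univ i)
    have h1 := hV (fun p : (Fin n → ℝ) × ℝ => W p *
      (∑ j ∈ Finset.range k, (∏ i, p.1 i ^ ((k + 1 - j) * α i)) * v j p.1 * p.2 ^ j +
        p.2 ^ (k + 1) * U p)) (fun w => ∏ i, w i ^ β i) 0 0
      (lcore_an k (fun j i => (k + 1 - j) * α i) 0 hv hU hW) (lcore_mono_an β 0) ?_
      (lcore_mono_ne β)
    · refine LRes.congr (fun _ _ _ h h' => h'.congr h) h1 _ (Eventually.of_forall fun p => ?_)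
      unfold LcF
      ring
    · have hW' : AnalyticAt ℝ (fun t : ℝ => W (0, t)) 0 :=
        AnalyticAt.fun_comp (g := W) (f := fun t : ℝ => ((0, t) : (Fin n → ℝ) × ℝ)) hW
          (analyticAt_const.prod analyticAt_id)
      have hU' : AnalyticAt ℝ (fun t : ℝ => U (0, t)) 0 :=
        AnalyticAt.fun_comp (g := U) (f := fun t : ℝ => ((0, t) : (Fin n → ℝ) × ℝ)) hU
          (analyticAt_const.prod analyticAt_id)
      have h2 := lcore_order (k := k) (e := fun j => v j 0) hW' hW0 hU' hex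
      obtain ⟨j, hj, hj2⟩ := h2
      refine ⟨j, hj, ?_⟩
      convert hj2 using 4 with t
      simp [hα]
  | succ N ih =>
    intro α β v U W hN hv hU hU0 hW hW0 hex
    obtain ⟨i, hi⟩ : ∃ i, 0 < α i := by
      by_contra hcon
      push Not at hcon
      have : ∑ i, α i = 0 := Finset.sum_eq_zero fun i _ => Nat.le_zero.1 (hcon i)
      omega
    set α' : Fin n → ℕ := Function.update α i (α i - 1) with hα'
    have hαα' : ∀ l, α l = α' l + if l = i then 1 else 0 := by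
      intro l
      by_cases hl : l = i
      · subst hl
        rw [hα', Function.update_self, if_pos rfl]
        omega
      · rw [hα', Function.update_of_ne hl, if_neg hl, add_zero]
    have hN' : ∑ l, α' l = N := by
      have h1 : ∑ l, α l = ∑ l, α' l + 1 := by
        rw [Finset.sum_congr rfl fun l _ => hαα' l, Finset.sum_add_distrib]
        simp
      omega
    -- the radius
    set A : ℝ := ∑ j ∈ Finset.range k, |v j 0| with hA
    have hA0 : 0 ≤ A := Finset.sum_nonneg fun _ _ => abs_nonneg _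
    have hUp : 0 < |U (0, 0)| := abs_pos.2 hU0
    set R : ℝ := A / |U (0, 0)| + 1 with hR
    have hR1 : 1 ≤ R := by
      rw [hR]
      have : 0 ≤ A / |U (0, 0)| := by positivity
      linarith
    have hRp : 0 < R := by linarith
    have hAR : A / R < |U (0, 0)| := by
      rw [div_lt_iff₀ hRp, hR, mul_add, mul_one, mul_div_cancel₀ _ hUp.ne']
      linarith
    -- the charts
    set φ1 : (Fin n → ℝ) × ℝ → (Fin n → ℝ) × ℝ := fun p => (p.1, p.1 i * p.2) with hφ1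
    set φ2 : (Fin n → ℝ) × ℝ → (Fin n → ℝ) × ℝ :=
      fun p => (Function.update p.1 i (p.2 * p.1 i), p.2) with hφ2
    have aφ1 : ∀ x, AnalyticAt ℝ φ1 x := fun x =>
      analyticAt_fst.prod ((analyticAt_coordP i x).mul analyticAt_snd)
    have aφ2 : ∀ x, AnalyticAt ℝ φ2 x := fun x => lcore_upd_an i x
    set K1 : Set ((Fin n → ℝ) × ℝ) := Metric.closedBall 0 1 ×ˢ Metric.closedBall 0 R with hK1
    set K2 : Set ((Fin n → ℝ) × ℝ) :=
      (Set.pi univ fun l : Fin n => Icc (-(if l = i then 1 / R else 1)) (if l = i then 1 / R else 1))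
        ×ˢ Icc (-1) 1 with hK2
    have cK1 : IsCompact K1 := (isCompact_closedBall _ _).prod (isCompact_closedBall _ _)
    have cK2 : IsCompact K2 := (isCompact_univ_pi fun l => isCompact_Icc).prod isCompact_Icc
    refine LRes.tower _ _ 2 ![φ1, φ2] ![K1, K2] ?_ ?_ ?_ ?_
    · rw [Fin.forall_fin_two]
      exact ⟨cK1, cK2⟩
    · rw [Fin.forall_fin_two]
      exact ⟨fun x _ => aφ1 x, fun x _ => aφ2 x⟩
    · have hcov : Metric.closedBall (0 : (Fin n → ℝ)) 1 ×ˢ Metric.closedBall (0 : ℝ) 1 ∈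
          𝓝 ((0, 0) : (Fin n → ℝ) × ℝ) :=
        prod_mem_nhds (Metric.closedBall_mem_nhds _ one_pos) (Metric.closedBall_mem_nhds _ one_pos)
      refine mem_of_superset hcov ?_
      rintro ⟨w, t⟩ ⟨hw, ht⟩
      rw [mem_closedBall_zero_iff] at hw ht
      simp only at hw ht
      rw [Real.norm_eq_abs] at ht
      have hwl : ∀ l, |w l| ≤ 1 := fun l => by
        have := norm_le_pi_norm w l
        rw [Real.norm_eq_abs] at this
        linarith
      by_cases hcase : |t| ≤ R * |w i|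
      · refine mem_iUnion.2 ⟨0, ?_⟩
        show (w, t) ∈ φ1 '' K1
        by_cases hwi : w i = 0
        · refine ⟨(w, 0), ⟨?_, ?_⟩, ?_⟩
          · rw [mem_closedBall_zero_iff]; exact hw
          · rw [mem_closedBall_zero_iff]; simp [hRp.le]
          · rw [hwi, abs_zero, mul_zero] at hcase
            have : t = 0 := abs_eq_zero.1 (le_antisymm hcase (abs_nonneg _))
            rw [hφ1]
            simp [this]
        · refine ⟨(w, t / w i), ⟨?_, ?_⟩, ?_⟩
          · rw [mem_closedBall_zero_iff]; exact hw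
          · rw [mem_closedBall_zero_iff, Real.norm_eq_abs]
            simp only
            rw [abs_div, div_le_iff₀ (abs_pos.2 hwi)]
            exact hcase
          · rw [hφ1]
            simp only
            rw [mul_div_cancel₀ _ hwi]
      · refine mem_iUnion.2 ⟨1, ?_⟩
        show (w, t) ∈ φ2 '' K2
        push Not at hcase
        have ht0 : t ≠ 0 := by
          intro h0
          rw [h0, abs_zero] at hcase
          have : 0 ≤ R * |w i| := by positivity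
          linarith
        have htp : 0 < |t| := abs_pos.2 ht0
        refine ⟨(Function.update w i (w i / t), t), ⟨?_, ?_⟩, ?_⟩
        · rw [mem_univ_pi]
          intro l
          by_cases hl : l = i
          · subst hl
            simp only [Function.update_self, if_true]
            refine abs_le.1 ?_
            rw [abs_div, div_le_div_iff₀ htp hRp, one_mul]
            linarith
          · simp only [Function.update_of_ne hl, if_neg hl]
            exact abs_le.1 (hwl l)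
        · exact abs_le.1 ht
        · rw [hφ2]
          simp only [Function.update_self, Function.update_idem]
          rw [mul_div_cancel₀ _ ht0, Function.update_eq_self]
    · rw [Fin.forall_fin_two]
      refine ⟨?_, ?_⟩
      · rintro ⟨w, s⟩ hx hxa
        have hw : w = 0 := congrArg Prod.fst hxa
        subst hw
        have hf : (fun y => LcF k α β v U W (![φ1, φ2] 0 y)) =
            LcF k α' (fun l => β l + if l = i then k + 1 else 0) v (fun p => U (φ1 p))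
              (fun p => W (φ1 p)) := by
          funext y
          exact lcore_chart1 α α' β v U W i hαα' y
        rw [hf]
        have h00 : φ1 (0, s) = (0, 0) := by
          rw [hφ1]
          simp
        have aU : AnalyticAt ℝ (fun p => U (φ1 p)) (0, s) :=
          AnalyticAt.fun_comp (g := U) (by rw [h00]; exact hU) (aφ1 _)
        have aW : AnalyticAt ℝ (fun p => W (φ1 p)) (0, s) :=
          AnalyticAt.fun_comp (g := W) (by rw [h00]; exact hW) (aφ1 _)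
        by_cases hs : s = 0
        · subst hs
          exact ih α' _ v _ _ hN' hv aU (by rw [h00]; exact hU0) aW (by rw [h00]; exact hW0) hex
        · have h1 := hV (fun p : (Fin n → ℝ) × ℝ => W (φ1 p) *
            (∑ j ∈ Finset.range k, (∏ i, p.1 i ^ ((k + 1 - j) * α' i)) * v j p.1 * p.2 ^ j +
              p.2 ^ (k + 1) * U (φ1 p)))
            (fun w => ∏ l, w l ^ (β l + if l = i then k + 1 else 0)) 0 s
            (lcore_an k (fun j i => (k + 1 - j) * α' i) s hv aU aW) (lcore_mono_an _ 0) ?_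
            (lcore_mono_ne _)
          · refine LRes.congr (fun _ _ _ h h' => h'.congr h) h1 _
              (Eventually.of_forall fun p => ?_)
            unfold LcF
            ring
          · refine ⟨k, le_rfl, ?_⟩
            have h2 : ∀ t : ℝ, φ1 (0, t) = (0, 0) := fun t => by rw [hφ1]; simp
            have h3 : (fun t : ℝ => W (φ1 (0, t)) *
                (∑ j ∈ Finset.range k, (∏ i : Fin n, (0 : Fin n → ℝ) i ^ ((k + 1 - j) * α' i)) *
                  v j 0 * t ^ j + t ^ (k + 1) * U (φ1 (0, t)))) =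
                fun t : ℝ => W (0, 0) • (∑ j ∈ Finset.range k,
                  ((∏ i : Fin n, (0 : Fin n → ℝ) i ^ ((k + 1 - j) * α' i)) * v j 0) * t ^ j +
                    t ^ (k + 1) * U (0, 0)) := by
              funext t
              rw [h2, smul_eq_mul]
            show iteratedDeriv k (fun t : ℝ => W (φ1 (0, t)) *
                (∑ j ∈ Finset.range k, (∏ i : Fin n, (0 : Fin n → ℝ) i ^ ((k + 1 - j) * α' i)) *
                  v j 0 * t ^ j + t ^ (k + 1) * U (φ1 (0, t)))) s ≠ 0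
            rw [h3]
            have h4 := iteratedDeriv_fun_const_smul (n := k) (x := s)
              (f := fun t : ℝ => ∑ j ∈ Finset.range k,
                  ((∏ i : Fin n, (0 : Fin n → ℝ) i ^ ((k + 1 - j) * α' i)) * v j 0) * t ^ j +
                    t ^ (k + 1) * U (0, 0)) (by fun_prop) (W (0, 0))
            rw [h4, lcore_deriv, smul_eq_mul]
            have h5 : ((k + 1).factorial : ℝ) ≠ 0 := by exact_mod_cast (k + 1).factorial_ne_zero
            exact mul_ne_zero hW0 (mul_ne_zero (mul_ne_zero h5 hU0) hs)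
      · rintro ⟨w, s⟩ hx hxa
        have hx' : (w, s) ∈ K2 := hx
        have hxa' : φ2 (w, s) = (0, 0) := hxa
        have hs : s = 0 := congrArg Prod.snd hxa'
        subst hs
        have hf : (fun y => LcF k α β v U W (![φ1, φ2] 1 y)) = fun p =>
            ((∏ l, p.1 l ^ β l) * p.2 ^ (β i + (k + 1))) *
              (W (φ2 p) * (∑ j ∈ Finset.range k, p.2 ^ ((k + 1 - j) * (α i - 1)) *
                (∏ l, p.1 l ^ ((k + 1 - j) * α l)) * v j (φ2 p).1 + U (φ2 p))) := by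
          funext y
          exact lcore_chart2 α β v U W i hi y
        rw [hf]
        refine LRes.base _ _ ((LMonoP.monomial β (β i + (k + 1)) (w, 0)).mul (LMonoP.unit ?_ ?_))
        · have aU : AnalyticAt ℝ (fun p => U (φ2 p)) (w, 0) :=
            AnalyticAt.fun_comp (g := U) (by rw [hxa']; exact hU) (aφ2 _)
          have aW : AnalyticAt ℝ (fun p => W (φ2 p)) (w, 0) :=
            AnalyticAt.fun_comp (g := W) (by rw [hxa']; exact hW) (aφ2 _)
          refine aW.mul (AnalyticAt.add (Finset.analyticAt_fun_sum _ fun j _ => ?_) aU)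
          refine ((analyticAt_snd.pow _).mul (lcore_mono_anP _ _)).mul ?_
          refine AnalyticAt.fun_comp (g := v j) (f := fun p => (φ2 p).1) ?_ ?_
          · rw [hxa']
            exact hv j
          · exact AnalyticAt.fun_comp (g := Prod.fst) (f := φ2) analyticAt_fst (aφ2 _)
        · rw [hxa']
          refine mul_ne_zero hW0 ?_
          have hwl : ∀ l, |w l| ≤ if l = i then 1 / R else 1 := fun l =>
            abs_le.2 (mem_univ_pi.1 hx'.1 l)
          have hR' : 1 / R ≤ 1 := by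
            rw [div_le_one hRp]
            exact hR1
          have hwl1 : ∀ l, |w l| ≤ 1 := fun l => by
            refine (hwl l).trans ?_
            split_ifs
            · exact hR'
            · exact le_rfl
          have hwi : |w i| ≤ 1 / R := by
            have := hwl i
            rwa [if_pos rfl] at this
          have hprod : ∀ j ∈ Finset.range k, |∏ l, w l ^ ((k + 1 - j) * α l)| ≤ 1 / R := by
            intro j hj
            rw [Finset.mem_range] at hj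
            rw [← Finset.mul_prod_erase Finset.univ _ (Finset.mem_univ i), abs_mul]
            have h1 : |w i ^ ((k + 1 - j) * α i)| ≤ 1 / R := by
              rw [abs_pow]
              have h2 : (k + 1 - j) * α i ≠ 0 := by
                have : 0 < k + 1 - j := by omega
                positivity
              exact (pow_le_of_le_one (abs_nonneg _) (hwl1 i) h2).trans hwi
            have h3 : |∏ l ∈ Finset.univ.erase i, w l ^ ((k + 1 - j) * α l)| ≤ 1 := by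
              rw [Finset.abs_prod]
              refine Finset.prod_le_one (fun _ _ => abs_nonneg _) fun l _ => ?_
              rw [abs_pow]
              exact pow_le_one₀ (abs_nonneg _) (hwl1 l)
            calc _ ≤ 1 / R * 1 := by gcongr
              _ = 1 / R := mul_one _
          have hsum : |∑ j ∈ Finset.range k, (0 : ℝ) ^ ((k + 1 - j) * (α i - 1)) *
              (∏ l, w l ^ ((k + 1 - j) * α l)) * v j 0| ≤ A / R := by
            refine (Finset.abs_sum_le_sum_abs _ _).trans ?_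
            rw [hA, Finset.sum_div]
            refine Finset.sum_le_sum fun j hj => ?_
            rw [abs_mul, abs_mul]
            have h1 : |(0 : ℝ) ^ ((k + 1 - j) * (α i - 1))| ≤ 1 := by
              rw [abs_pow, abs_zero]
              exact pow_le_one₀ le_rfl zero_le_one
            calc _ ≤ 1 * (1 / R) * |v j 0| := by
                  gcongr
                  exact hprod j hj
              _ = |v j 0| / R := by ring
          intro h0
          have h1 : U (0, 0) = - ∑ j ∈ Finset.range k, (0 : ℝ) ^ ((k + 1 - j) * (α i - 1)) *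
              (∏ l, w l ^ ((k + 1 - j) * α l)) * v j 0 := by
            linarith
          rw [h1, abs_neg] at hAR
          linarith

theorem lCore : LCore := by
  intro n k hV α β v U W hv hU hU0 hW hW0 hex
  exact lcore_aux hV _ α β v U W rfl hv hU hU0 hW hW0 hex

end Pool.Agent.Work.MP_4a14ce_an

end

section

/-!
# The Lojasiewicz-Simon inequality, from the finite dimensional one
-/

namespace Pool.Agent.Work.MP_4a14ce_an

theorem claimLS_final (hL : ClaimLoja) (hCon : ConIds) (hTan : ClaimTan) (hVT : ClaimVelTan) :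
    ClaimLS :=
  claimLS (claimSAbs hL) claimSCpt claimSGrad claimSAn claimSFco claimSClose
    (claimSVal claimSFco claimSEv hCon)
    (claimSInt (claimSVal claimSFco claimSEv hCon) claimSFco claimSVelBd hTan hVT)

end Pool.Agent.Work.MP_4a14ce_an

end

section

/-!
# Group L: the ramification step
-/

open Set Topology Filter

namespace Pool.Agent.Work.MP_4a14ce_an

/-- a sign -/
def LStep_sg (e : Bool) : ℝ := if e then 1 else -1

theorem LStep_sg_ne (e : Bool) : LStep_sg e ≠ 0 := by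
  unfold LStep_sg
  split_ifs <;> norm_num

/-- the ramification map -/
def LStep_r {n : ℕ} (b : Fin n → ℝ) (d : ℕ) (e : Fin n → Bool) (w : Fin n → ℝ) : Fin n → ℝ :=
  fun i => b i + LStep_sg (e i) * w i ^ d

theorem LStep_r_zero {n : ℕ} (b : Fin n → ℝ) {d : ℕ} (hd : 0 < d) (e : Fin n → Bool) :
    LStep_r b d e 0 = b := by
  funext i
  simp [LStep_r, hd.ne']

theorem LStep_r_analytic {n : ℕ} (b : Fin n → ℝ) (d : ℕ) (e : Fin n → Bool) (w : Fin n → ℝ) :
    AnalyticAt ℝ (LStep_r b d e) w := by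
  rw [analyticAt_pi_iff]
  intro i
  exact analyticAt_const.add (analyticAt_const.mul ((analyticAt_coord i w).pow d))

theorem LStep_r_tendsto {n : ℕ} (b : Fin n → ℝ) {d : ℕ} (hd : 0 < d) (e : Fin n → Bool) :
    Tendsto (LStep_r b d e) (𝓝 0) (𝓝 b) := by
  have := (LStep_r_analytic b d e 0).continuousAt
  rwa [ContinuousAt, LStep_r_zero b hd e] at this

/-- pull back of a function analytic at `b` -/
theorem LStep_comp {n : ℕ} {b : Fin n → ℝ} {d : ℕ} (hd : 0 < d) (e : Fin n → Bool)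
    {f : (Fin n → ℝ) → ℝ} (hf : AnalyticAt ℝ f b) :
    AnalyticAt ℝ (fun w => f (LStep_r b d e w)) 0 := by
  refine AnalyticAt.fun_comp (g := f) ?_ (LStep_r_analytic b d e 0)
  rw [LStep_r_zero b hd e]
  exact hf

/-- pull back of a monomial times a unit -/
theorem LStep_pull {n : ℕ} {b : Fin n → ℝ} {d : ℕ} (hd : 0 < d) (e : Fin n → Bool)
    {f : (Fin n → ℝ) → ℝ} (hf : LMono f b) :
    ∃ (a : Fin n → ℕ) (W : (Fin n → ℝ) → ℝ), AnalyticAt ℝ W 0 ∧ W 0 ≠ 0 ∧
      ∀ᶠ w in 𝓝 (0 : Fin n → ℝ), f (LStep_r b d e w) = (∏ i, w i ^ (d * a i)) * W w := by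
  obtain ⟨a, u, hu, hu0, he⟩ := hf
  refine ⟨a, fun w => (∏ i, LStep_sg (e i) ^ a i) * u (LStep_r b d e w),
    analyticAt_const.mul (LStep_comp hd e hu), ?_, ?_⟩
  · refine mul_ne_zero (Finset.prod_ne_zero_iff.2 fun i _ => pow_ne_zero _ (LStep_sg_ne _)) ?_
    rw [LStep_r_zero b hd e]
    exact hu0
  · filter_upwards [(LStep_r_tendsto b hd e).eventually he] with w hw
    rw [hw]
    have h1 : ∀ i, (LStep_r b d e w i - b i) ^ a i = LStep_sg (e i) ^ a i * w i ^ (d * a i) := by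
      intro i
      unfold LStep_r
      rw [add_sub_cancel_left, mul_pow, pow_mul]
    simp only [h1, Finset.prod_mul_distrib]
    ring

theorem LStep_one (hC : LCore) (hD : LDom) {n k : ℕ} (hV : LV n k) {d : ℕ} (hd : 0 < d)
    (N : ℕ → ℕ) (hN1 : ∀ j < k, (k + 1 - j) * N j = d) (hN2 : ∀ j < k, Even (N j))
    (hN3 : ∀ j < k, 0 < N j) {m : (Fin n → ℝ) → ℝ} {c : ℕ → (Fin n → ℝ) → ℝ}
    {U : (Fin n → ℝ) × ℝ → ℝ} {b : Fin n → ℝ} (hc : ∀ j, AnalyticAt ℝ (c j) b)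
    (hU : AnalyticAt ℝ U (b, 0)) (hU0 : U (b, 0) ≠ 0) (hm : LMono m b)
    (hS : LMono (fun y => ∑ j ∈ Finset.range k, c j y ^ N j) b) (e : Fin n → Bool) :
    LRes LMonoP (fun p => m (LStep_r b d e p.1) * (∑ j ∈ Finset.range k,
      c j (LStep_r b d e p.1) * p.2 ^ j + p.2 ^ (k + 1) * U (LStep_r b d e p.1, p.2)))
      ((0 : Fin n → ℝ), (0 : ℝ)) := by
  classical
  obtain ⟨β, Wm, hWm, hWm0, heM⟩ := LStep_pull hd e hm
  obtain ⟨σ, Ws, hWs, hWs0, heS⟩ := LStep_pull hd e hS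
  have hCb : ∀ᶠ w in 𝓝 (0 : Fin n → ℝ), |Ws w| < |Ws 0| + 1 :=
    (hWs.continuousAt.abs).eventually (gt_mem_nhds (by linarith))
  have hC1 : (1 : ℝ) ≤ |Ws 0| + 1 := by linarith [abs_nonneg (Ws 0)]
  have hdom : ∀ j < k, ∀ᶠ w in 𝓝 (0 : Fin n → ℝ), |c j (LStep_r b d e w)| ≤
      (|Ws 0| + 1) * |∏ i, (w i - (0 : Fin n → ℝ) i) ^ ((k + 1 - j) * σ i)| := by
    intro j hj
    filter_upwards [heS, hCb] with w h1 h2
    simp only [Pi.zero_apply, sub_zero]
    have hp : ∏ i, w i ^ (d * σ i) = (∏ i, w i ^ ((k + 1 - j) * σ i)) ^ N j := by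
      rw [← Finset.prod_pow]
      refine Finset.prod_congr rfl fun i _ => ?_
      rw [← pow_mul, ← hN1 j hj]
      congr 1
      ring
    have h3 : c j (LStep_r b d e w) ^ N j ≤ ∑ j ∈ Finset.range k, c j (LStep_r b d e w) ^ N j :=
      Finset.single_le_sum (f := fun j => c j (LStep_r b d e w) ^ N j)
        (fun i hi => (hN2 i (Finset.mem_range.1 hi)).pow_nonneg _) (Finset.mem_range.2 hj)
    rw [← pow_le_pow_iff_left₀ (abs_nonneg _) (by positivity) (hN3 j hj).ne',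
      (hN2 j hj).pow_abs]
    calc c j (LStep_r b d e w) ^ N j ≤ (∏ i, w i ^ (d * σ i)) * Ws w := h3.trans h1.le
      _ ≤ |(∏ i, w i ^ (d * σ i)) * Ws w| := le_abs_self _
      _ = |∏ i, w i ^ ((k + 1 - j) * σ i)| ^ N j * |Ws w| := by rw [abs_mul, hp, abs_pow]
      _ ≤ |∏ i, w i ^ ((k + 1 - j) * σ i)| ^ N j * (|Ws 0| + 1) ^ N j := by
        gcongr
        exact h2.le.trans (le_self_pow₀ hC1 (hN3 j hj).ne')
      _ = _ := by rw [mul_pow, mul_comm]
  have hv : ∀ j, ∃ v : (Fin n → ℝ) → ℝ, AnalyticAt ℝ v 0 ∧ (j < k →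
      ∀ᶠ w in 𝓝 (0 : Fin n → ℝ), c j (LStep_r b d e w) =
        (∏ i, w i ^ ((k + 1 - j) * σ i)) * v w) := by
    intro j
    by_cases hj : j < k
    · obtain ⟨v, hv1, hv2⟩ := hD n (fun w => c j (LStep_r b d e w)) 0
        (fun i => (k + 1 - j) * σ i) _ (LStep_comp hd e (hc j)) (hdom j hj)
      simp only [Pi.zero_apply, sub_zero] at hv2
      exact ⟨v, hv1, fun _ => hv2⟩
    · exact ⟨fun _ => 0, analyticAt_const, fun h => absurd h hj⟩
  choose v hv1 hv2 using hv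
  have hall : ∀ᶠ w in 𝓝 (0 : Fin n → ℝ), ∀ j ∈ Finset.range k, c j (LStep_r b d e w) =
      (∏ i, w i ^ ((k + 1 - j) * σ i)) * v j w :=
    (Filter.eventually_all_finset _).2 fun j hj => hv2 j (Finset.mem_range.1 hj)
  have hne : ∃ j < k, v j 0 ≠ 0 := by
    by_contra hcon
    push Not at hcon
    have h1 : ∀ᶠ w in 𝓝 (0 : Fin n → ℝ), (∏ i, w i ^ (d * σ i)) *
        ∑ j ∈ Finset.range k, v j w ^ N j = (∏ i, w i ^ (d * σ i)) * Ws w := by
      filter_upwards [heS, hall] with w h1 h2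
      rw [← h1, Finset.mul_sum]
      refine Finset.sum_congr rfl fun j hj => ?_
      have hj' := Finset.mem_range.1 hj
      rw [h2 j hj, mul_pow]
      congr 1
      rw [← Finset.prod_pow]
      refine Finset.prod_congr rfl fun i _ => ?_
      rw [← pow_mul, ← hN1 j hj']
      congr 1
      ring
    have ht0 : Tendsto (fun δ : ℝ => (fun _ : Fin n => δ)) (𝓝 0) (𝓝 (0 : Fin n → ℝ)) := by
      have : Continuous (fun δ : ℝ => (fun _ : Fin n => δ)) := by fun_prop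
      exact this.tendsto 0
    have ht : Tendsto (fun δ : ℝ => (fun _ : Fin n => δ)) (𝓝[>] 0) (𝓝 (0 : Fin n → ℝ)) :=
      ht0.mono_left nhdsWithin_le_nhds
    have h2 : ∀ᶠ δ in 𝓝[>] (0 : ℝ), ∑ j ∈ Finset.range k, v j (fun _ => δ) ^ N j =
        Ws (fun _ => δ) := by
      filter_upwards [ht.eventually h1, self_mem_nhdsWithin] with δ h3 h4
      refine mul_left_cancel₀ ?_ h3
      exact Finset.prod_ne_zero_iff.2 fun i _ => pow_ne_zero _ (ne_of_gt h4)
    have h3 : Tendsto (fun δ : ℝ => ∑ j ∈ Finset.range k, v j (fun _ : Fin n => δ) ^ N j)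
        (𝓝[>] 0) (𝓝 (∑ j ∈ Finset.range k, v j 0 ^ N j)) :=
      tendsto_finsetSum _ fun j _ => ((hv1 j).continuousAt.tendsto.comp ht).pow _
    have h4 : Tendsto (fun δ : ℝ => Ws (fun _ : Fin n => δ)) (𝓝[>] 0) (𝓝 (Ws 0)) :=
      hWs.continuousAt.tendsto.comp ht
    have h5 : ∑ j ∈ Finset.range k, v j 0 ^ N j = Ws 0 :=
      tendsto_nhds_unique (h3.congr' h2) h4
    apply hWs0
    rw [← h5]
    refine Finset.sum_eq_zero fun j hj => ?_
    rw [hcon j (Finset.mem_range.1 hj), zero_pow (hN3 j (Finset.mem_range.1 hj)).ne']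
  have hr0 : AnalyticAt ℝ (fun p : (Fin n → ℝ) × ℝ => (LStep_r b d e p.1, p.2)) (0, 0) :=
    (AnalyticAt.fun_comp (g := LStep_r b d e) (f := Prod.fst) (LStep_r_analytic b d e _)
      analyticAt_fst).prod analyticAt_snd
  have hU' : AnalyticAt ℝ (fun p : (Fin n → ℝ) × ℝ => U (LStep_r b d e p.1, p.2)) (0, 0) := by
    refine AnalyticAt.fun_comp (g := U) ?_ hr0
    simp only [LStep_r_zero b hd e]
    exact hU
  have hW' : AnalyticAt ℝ (fun p : (Fin n → ℝ) × ℝ => Wm p.1) ((0 : Fin n → ℝ), (0 : ℝ)) :=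
    AnalyticAt.fun_comp (g := Wm) (f := Prod.fst) hWm analyticAt_fst
  have key := hC n k hV σ (fun i => d * β i) v (fun p => U (LStep_r b d e p.1, p.2))
    (fun p => Wm p.1) hv1 hU' (by simpa only [LStep_r_zero b hd e] using hU0) hW' hWm0 hne
  refine LRes.congr (fun f g a h hf => LMonoP.congr h hf) key _ ?_
  have hfst : Tendsto (Prod.fst : (Fin n → ℝ) × ℝ → (Fin n → ℝ)) (𝓝 ((0 : Fin n → ℝ), (0 : ℝ)))
      (𝓝 0) := continuous_fst.tendsto _
  filter_upwards [hfst.eventually heM, hfst.eventually hall] with p h1 h2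
  rw [h1]
  congr 2
  exact Finset.sum_congr rfl fun j hj => by rw [h2 j hj]

theorem LStep_B (hC : LCore) (hD : LDom) {n k : ℕ} (hV : LV n k) {d : ℕ} (hd : 0 < d)
    (N : ℕ → ℕ) (hN1 : ∀ j < k, (k + 1 - j) * N j = d) (hN2 : ∀ j < k, Even (N j))
    (hN3 : ∀ j < k, 0 < N j) {m : (Fin n → ℝ) → ℝ} {c : ℕ → (Fin n → ℝ) → ℝ}
    {U : (Fin n → ℝ) × ℝ → ℝ} {b : Fin n → ℝ} (hc : ∀ j, AnalyticAt ℝ (c j) b)
    (hU : AnalyticAt ℝ U (b, 0)) (hU0 : U (b, 0) ≠ 0) (hm : LMono m b)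
    (hS : LMono (fun y => ∑ j ∈ Finset.range k, c j y ^ N j) b) :
    LRes LMonoP (fun p => m p.1 * (∑ j ∈ Finset.range k, c j p.1 * p.2 ^ j +
      p.2 ^ (k + 1) * U p)) (b, 0) := by
  classical
  set eq : (Fin n → Bool) ≃ Fin (Fintype.card (Fin n → Bool)) := Fintype.equivFin _ with heq
  refine LRes.tower _ _ _ (fun i p => (LStep_r b d (eq.symm i) p.1, p.2))
    (fun _ => Metric.closedBall 0 1) (fun _ => isCompact_closedBall _ _) ?_ ?_ ?_
  · intro i x _
    exact (AnalyticAt.fun_comp (g := LStep_r b d (eq.symm i)) (f := Prod.fst)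
      (LStep_r_analytic b d _ _) analyticAt_fst).prod analyticAt_snd
  · refine mem_of_superset (Metric.closedBall_mem_nhds (b, (0 : ℝ)) one_pos) ?_
    rintro ⟨y, t⟩ hyt
    rw [Metric.mem_closedBall, Prod.dist_eq, max_le_iff] at hyt
    obtain ⟨hy, ht⟩ := hyt
    have hy' : ∀ i, |y i - b i| ≤ 1 := fun i => by
      have := (dist_pi_le_iff zero_le_one).1 hy i
      rwa [Real.dist_eq] at this
    refine mem_iUnion.2 ⟨eq (fun i => decide (0 ≤ y i - b i)),
      ⟨(fun i => |y i - b i| ^ ((d : ℝ)⁻¹), t), ?_, ?_⟩⟩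
    · rw [Metric.mem_closedBall, Prod.dist_eq, max_le_iff]
      refine ⟨(dist_pi_le_iff zero_le_one).2 fun i => ?_, ht⟩
      rw [Real.dist_eq]
      simp only [Prod.fst_zero, Pi.zero_apply, sub_zero]
      rw [abs_of_nonneg (Real.rpow_nonneg (abs_nonneg _) _)]
      exact Real.rpow_le_one (abs_nonneg _) (hy' i) (by positivity)
    · simp only [Equiv.symm_apply_apply]
      refine Prod.ext ?_ rfl
      funext i
      show b i + LStep_sg (decide (0 ≤ y i - b i)) * (|y i - b i| ^ ((d : ℝ)⁻¹)) ^ d = y i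
      rw [Real.rpow_inv_natCast_pow (abs_nonneg _) hd.ne']
      unfold LStep_sg
      by_cases h0 : 0 ≤ y i - b i
      · simp only [h0, decide_true, if_true, abs_of_nonneg h0]
        ring
      · simp only [h0, decide_false, abs_of_neg (not_le.1 h0)]
        simp
  · intro i x _ hxa
    have h1 : LStep_r b d (eq.symm i) x.1 = b := congrArg Prod.fst hxa
    have h2 : x.2 = 0 := congrArg Prod.snd hxa
    have h3 : x.1 = 0 := by
      funext l
      have h4 := congrFun h1 l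
      unfold LStep_r at h4
      have h5 : LStep_sg (eq.symm i l) * x.1 l ^ d = 0 := by linarith
      rcases mul_eq_zero.1 h5 with h6 | h6
      · exact absurd h6 (LStep_sg_ne _)
      · exact pow_eq_zero_iff hd.ne' |>.1 h6
    have h4 : x = (0, 0) := Prod.ext h3 h2
    rw [h4]
    exact LStep_one hC hD hV hd N hN1 hN2 hN3 hc hU hU0 hm hS (eq.symm i)

theorem lStep (hN : LNormal) (hC : LCore) (hF : LFactor) (hD : LDom) (hI : LDomain) : LStep := by
  classical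
  intro n k hM hV g m b s hg hm hk hm0
  by_cases hlow : ∃ j ≤ k, iteratedDeriv j (fun t => g (b, t)) s ≠ 0
  · exact hV g m b s hg hm hlow hm0
  push Not at hlow
  have htop : iteratedDeriv (k + 1) (fun t => g (b, t)) s ≠ 0 := by
    obtain ⟨j, hj, hj2⟩ := hk
    rcases Nat.lt_or_ge j (k + 1) with h1 | h1
    · exact absurd (hlow j (Nat.lt_succ_iff.1 h1)) hj2
    · have : j = k + 1 := le_antisymm hj h1
      rwa [this] at hj2
  obtain ⟨h, c, U, hh, hhb, hc, hU, hU0, he⟩ := hN n k g b s hg hlow htop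
  refine LRes.shift hh hhb ?_
  suffices hmain : LRes LMonoP (fun p => m p.1 * (∑ j ∈ Finset.range k, c j p.1 * p.2 ^ j +
      p.2 ^ (k + 1) * U p)) (b, 0) by
    refine LRes.congr (fun f g a h hf => LMonoP.congr h hf) hmain _ ?_
    filter_upwards [he] with p hp
    rw [hp]
  by_cases hA : ∀ j < k, ∀ᶠ y in 𝓝 b, c j y = 0
  · -- all coefficients vanish
    have hA' : ∀ᶠ y in 𝓝 b, ∀ j ∈ Finset.range k, c j y = 0 :=
      (Filter.eventually_all_finset _).2 fun j hj => hA j (Finset.mem_range.1 hj)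
    have hfst : Tendsto (Prod.fst : (Fin n → ℝ) × ℝ → (Fin n → ℝ)) (𝓝 (b, (0 : ℝ))) (𝓝 b) :=
      continuous_fst.tendsto _
    suffices h2 : LRes LMonoP (fun p => m p.1 * (p.2 ^ (k + 1) * U p)) (b, 0) by
      refine LRes.congr (fun f g a h hf => LMonoP.congr h hf) h2 _ ?_
      filter_upwards [hfst.eventually hA'] with p hp
      rw [Finset.sum_eq_zero fun j hj => by rw [hp j hj, zero_mul], zero_add]
    refine lLift n m b (hM m b hm hm0) _ 0 fun φ b' hφ hb' hMφ => LRes.base _ _ ?_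
    refine (hMφ.toP 0).mul (((LMonoP.last0 _).pow (k + 1)).mul
      (LMonoP.unit (u := fun p => U (φ p.1, p.2)) ?_ ?_))
    · refine AnalyticAt.fun_comp (g := U) (f := fun p : (Fin n → ℝ) × ℝ => (φ p.1, p.2)) ?_ ?_
      · simpa [hb'] using hU
      · exact (AnalyticAt.fun_comp (g := φ) (f := Prod.fst) hφ analyticAt_fst).prod analyticAt_snd
    · simpa [hb'] using hU0
  · push Not at hA
    obtain ⟨j0, hj0, hj0'⟩ := hA
    set D : ℕ := (k + 1).factorial with hDdef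
    set N : ℕ → ℕ := fun j => 2 * (D / (k + 1 - j)) with hNdef
    have hdvd : ∀ j < k, (k + 1 - j) ∣ D := fun j hj =>
      Nat.dvd_factorial (by omega) (by omega)
    have hDpos : 0 < D := Nat.factorial_pos _
    have hN1 : ∀ j < k, (k + 1 - j) * N j = 2 * D := by
      intro j hj
      have := Nat.mul_div_cancel' (hdvd j hj)
      calc (k + 1 - j) * (2 * (D / (k + 1 - j))) = 2 * ((k + 1 - j) * (D / (k + 1 - j))) := by ring
        _ = 2 * D := by rw [this]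
    have hN2 : ∀ j < k, Even (N j) := fun j _ => even_two_mul _
    have hN3 : ∀ j < k, 0 < N j := by
      intro j hj
      by_contra h0
      have h1 : N j = 0 := by omega
      have h2 := hN1 j hj
      rw [h1, mul_zero] at h2
      omega
    set S : (Fin n → ℝ) → ℝ := fun y => ∑ j ∈ Finset.range k, c j y ^ N j with hSdef
    have hSan : AnalyticAt ℝ S b := Finset.analyticAt_fun_sum _ fun j _ => (hc j).pow _
    have hS0 : ¬ ∀ᶠ y in 𝓝 b, S y = 0 := by
      intro hS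
      have h1 : ∀ᶠ y in 𝓝 b, c j0 y = 0 := by
        filter_upwards [hS] with y hy
        have h2 := (Finset.sum_eq_zero_iff_of_nonneg (fun i hi =>
          (hN2 i (Finset.mem_range.1 hi)).pow_nonneg (c i y))).1 hy j0 (Finset.mem_range.2 hj0)
        exact (pow_eq_zero_iff (hN3 j0 hj0).ne').1 h2
      exact hj0'.and_eventually h1 |>.exists.elim fun y hy => hy.1 hy.2
    have hP0 : ¬ ∀ᶠ y in 𝓝 b, m y * S y = 0 := by
      intro hP
      rcases hI (Fin n → ℝ) m S b hm hSan hP with h1 | h1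
      · exact hm0 h1
      · exact hS0 h1
    refine lLift n (fun y => m y * S y) b (hM _ b (hm.mul hSan) hP0) _ 0
      fun φ b' hφ hb' hMφ => ?_
    have hcomp : ∀ f : (Fin n → ℝ) → ℝ, AnalyticAt ℝ f b → AnalyticAt ℝ (fun y => f (φ y)) b' := by
      intro f hf
      refine AnalyticAt.fun_comp (g := f) ?_ hφ
      rwa [hb']
    have hMm : LMono (fun y => m (φ y)) b' := hF n _ _ b' (hcomp m hm) (hcomp S hSan) hMφ
    have hMS : LMono (fun y => S (φ y)) b' := by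
      refine hF n _ (fun y => m (φ y)) b' (hcomp S hSan) (hcomp m hm) ?_
      exact hMφ.congr (Eventually.of_forall fun y => mul_comm _ _)
    have hU' : AnalyticAt ℝ (fun p : (Fin n → ℝ) × ℝ => U (φ p.1, p.2)) (b', 0) := by
      refine AnalyticAt.fun_comp (g := U) (f := fun p : (Fin n → ℝ) × ℝ => (φ p.1, p.2)) ?_ ?_
      · simpa [hb'] using hU
      · exact (AnalyticAt.fun_comp (g := φ) (f := Prod.fst) hφ analyticAt_fst).prod analyticAt_snd
    exact LStep_B hC hD hV (d := 2 * D) (by omega) N hN1 hN2 hN3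
      (m := fun y => m (φ y)) (c := fun j y => c j (φ y)) (U := fun p => U (φ p.1, p.2))
      (fun j => hcomp _ (hc j)) hU' (by simpa [hb'] using hU0) hMm hMS

end Pool.Agent.Work.MP_4a14ce_an

end

section

/-!
# An elastic flow on a general interval, reparametrised to constant speed
-/

open Set MeasureTheory Topology Filter
open scoped ContDiff

namespace Pool.Agent.Work.MP_4a14ce_an

variable {n : ℕ} {σ : ℝ}

theorem claimFlowToTI (hArc : ClaimArcI) (hGC : ClaimGradCon) (hGR : ClaimGradRep)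
    (hGU : ClaimGradUnique) (hXi : ClaimXi) (hVT : ClaimVelTan) (hEF : ClaimEnergyForm)
    (hSl : JSSlice) (hSl1 : JSSlice1) (hDt : JSDt) (hDt1 : JSDt1) (hC : JSComp) :
    ClaimFlowToTI := by
  intro n σ I γ₀ γ hσ hI hU hflow
  have hγJ : JS I γ := hflow.smooth
  obtain ⟨X, p, hYJ, hXJ, hpJ, hall⟩ := hArc n σ I γ hσ hI hU hγJ hflow.closed
  set u : ℝ → ℝ → V n := fun t y => γ t (X t y) with hu
  have huJ : JS I u := hC (n + 1) I γ X hγJ hXJ
  obtain ⟨γt, _, hγt⟩ := hDt (n + 1) I γ hI hγJ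
  obtain ⟨ut, _, hut⟩ := hDt (n + 1) I u hI huJ
  obtain ⟨Xt, hXtJ, hXt⟩ := hDt1 I X hI hXJ
  obtain ⟨Yt, _, hYt⟩ := hDt1 I (fun t => arcY σ (γ t)) hI hYJ
  have hXsm := (hSl1 I X hI hXJ).1
  have hXtsm := (hSl1 I Xt hI hXtJ).1
  have hYsm := (hSl1 I (fun t => arcY σ (γ t)) hI hYJ).1
  have hγsm := (hSl (n + 1) I γ hI hγJ).1
  have hγt0 : ∀ t ∈ I, ∀ x, HasDerivWithinAt (fun s => γ s x) (γt t x) I t := by
    intro t ht x
    have := hγt 0 t ht x
    simpa only [iteratedDeriv_zero] using this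
  have hXt0 : ∀ t ∈ I, ∀ x, HasDerivWithinAt (fun s => X s x) (Xt t x) I t := by
    intro t ht x
    have := hXt 0 t ht x
    simpa only [iteratedDeriv_zero] using this
  have hYt0 : ∀ t ∈ I, ∀ x,
      HasDerivWithinAt (fun s => arcY σ (γ s) x) (Yt t x) I t := by
    intro t ht x
    have := hYt 0 t ht x
    simpa only [iteratedDeriv_zero] using this
  have hut0 : ∀ t ∈ I, ∀ x, HasDerivWithinAt (fun s => u s x) (ut t x) I t := by
    intro t ht x
    have := hut 0 t ht x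
    simpa only [iteratedDeriv_zero] using this
  have hcon : ∀ t ∈ I, Con σ (p t) (u t) := fun t ht => (hall t ht).2.2.2.2
  -- the normal velocity
  have hvel : ∀ t ∈ I, ∀ y,
      γt t (X t y) = ((p t) ^ 2)⁻¹ • vel σ (p t) (p t)⁻¹ (u t) y := by
    intro t ht y
    obtain ⟨hYr, hXr, _, hinv, hc⟩ := hall t ht
    have h1 := hGC n σ (p t) (u t) hσ hc
    have h2 := hGR n σ (u t) _ (arcY σ (γ t)) hσ (hEF n σ (p t) (u t) hσ hc).1 hYr h1
    have h3 : (fun x => u t (arcY σ (γ t) x)) = γ t := by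
      funext x
      simp only [hu, (hinv x).1]
    rw [h3] at h2
    have h4 := hGU n σ (γ t) _ _ hσ (hflow.closed t ht) (hflow.flow t ht) h2
    have h5 := congrFun h4 (X t y)
    simp only [neg_inj, (hinv y).2] at h5
    rw [(hγt0 t ht (X t y)).derivWithin (hU t ht)] at h5
    exact h5
  have hXpos : ∀ t ∈ I, ∀ y, 0 < deriv (X t) y :=
    fun t ht => (hall t ht).2.1.deriv_pos
  have hXd : ∀ t ∈ I, ∀ y, HasDerivAt (X t) (deriv (X t) y) y := fun t ht y =>
    ((hXsm t ht).differentiable (by simp) y).hasDerivAt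
  -- the tangential velocity
  set φ : ℝ → ℝ → ℝ := fun t y => Xt t y / deriv (X t) y with hφdef
  have hutφ : ∀ t ∈ I, ∀ y, ut t y = ((p t) ^ 2)⁻¹ • vel σ (p t) (p t)⁻¹ (u t) y +
      φ t y • iteratedDeriv 1 (u t) y := by
    intro t ht y
    have h1 : HasDerivAt (γ t) (deriv (γ t) (X t y)) (X t y) :=
      ((hγsm t ht).differentiable (by simp) _).hasDerivAt
    have h2 := ftt_chain hU hγJ ht (hXt0 t ht y) (hγt0 t ht (X t y)) h1
    have h3 := (hU t ht).eq_deriv _ (hut0 t ht y) h2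
    have h4 : iteratedDeriv 1 (u t) y = deriv (X t) y • deriv (γ t) (X t y) := by
      rw [iteratedDeriv_one]
      exact (HasDerivAt.scomp y h1 (hXd t ht y)).deriv
    rw [h3, hvel t ht y, h4, smul_smul, hφdef]
    simp only
    rw [div_mul_cancel₀ _ (hXpos t ht y).ne']
  -- identification of the tangential velocity
  have hφeq : ∀ t ∈ I, ∀ y,
      φ t y = ((p t) ^ 2)⁻¹ * xi σ (p t) (p t)⁻¹ (u t) y := by
    intro t ht
    have hdφ : ∀ y, ∃ c, HasDerivAt (φ t) c y := by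
      intro y
      have h1 : DifferentiableAt ℝ (Xt t) y := (hXtsm t ht).differentiable (by simp) y
      have h2 : DifferentiableAt ℝ (deriv (X t)) y := by
        have h4 := (hXsm t ht).differentiable_iteratedDeriv 1 (by exact_mod_cast (WithTop.coe_lt_top 1)) y
        rwa [iteratedDeriv_one] at h4
      exact ⟨_, (h1.div h2 (hXpos t ht y).ne').hasDerivAt⟩
    choose φ' hφ' using hdφ
    have hX0 : ∀ s ∈ I, X s 0 = 0 := by
      intro s hs
      obtain ⟨_, _, h0, hinv, _⟩ := hall s hs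
      have := (hinv 0).1
      rwa [h0] at this
    have hXt00 : Xt t 0 = 0 := by
      have h1 : HasDerivWithinAt (fun s => X s 0) 0 I t :=
        (hasDerivWithinAt_const t I (0 : ℝ)).congr (fun s hs => hX0 s hs) (hX0 t ht)
      exact (hU t ht).eq_deriv _ (hXt0 t ht 0) h1
    have hXt2 : Xt t (2 * Real.pi) = 0 := by
      have h0 : ∀ s ∈ I, X s (2 * Real.pi) = 2 * Real.pi := by
        intro s hs
        have := (hall s hs).2.1.shift 0
        rwa [hX0 s hs, zero_add] at this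
      have h1 : HasDerivWithinAt (fun s => X s (2 * Real.pi)) 0 I t :=
        (hasDerivWithinAt_const t I (2 * Real.pi)).congr (fun s hs => h0 s hs) (h0 t ht)
      exact (hU t ht).eq_deriv _ (hXt0 t ht (2 * Real.pi)) h1
    -- the derivative of the speed
    have hpd : HasDerivWithinAt p (derivWithin p I t) I t :=
      ((hpJ.differentiableOn (by simp)) t ht).hasDerivWithinAt
    have hsp : ∀ y, 2 * B σ (iteratedDeriv 1 (u t) y)
        (deriv (fun z => ((p t) ^ 2)⁻¹ • vel σ (p t) (p t)⁻¹ (u t) z +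
          φ t z • iteratedDeriv 1 (u t) z) y) = derivWithin p I t := by
      intro y
      have h1 := hut 1 t ht y
      have h2 : iteratedDeriv 1 (ut t) y = deriv (fun z => ((p t) ^ 2)⁻¹ •
          vel σ (p t) (p t)⁻¹ (u t) z + φ t z • iteratedDeriv 1 (u t) z) y := by
        rw [iteratedDeriv_one]
        congr 1
        exact funext (fun z => hutφ t ht z)
      rw [h2] at h1
      have h3 := cstr_B_hasDerivWithinAt (σ := σ) h1 h1
      have h4 : HasDerivWithinAt p _ I t := h3.congr (fun s hs => by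
        have := (hcon s hs).speed y
        rw [← iteratedDeriv_one] at this
        exact this.symm) (by
        have := (hcon t ht).speed y
        rw [← iteratedDeriv_one] at this
        exact this.symm)
      have h5 := (hU t ht).eq_deriv _ h4 hpd
      rw [cstr_B_symm (deriv _ y)] at h5
      rw [← h5]
      ring
    refine fun y => ftt_core hXi hVT hσ (hcon t ht) hφ' ?_ ?_ hsp y
    · simp only [hφdef, hXt00, zero_div]
    · simp only [hφdef, hXt2, zero_div]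
  refine ⟨X, p, ⟨huJ, hpJ, hcon, ?_⟩, fun t ht => (hall t ht).2.2.2.1, ?_⟩
  · intro t ht y
    have h1 := hut0 t ht y
    rw [hutφ t ht y, hφeq t ht y] at h1
    refine h1.congr_deriv ?_
    rw [ftt_rhs_eq, smul_add, smul_smul]
  · intro t ht x
    obtain ⟨hYr, hXr, _, hinv, _⟩ := hall t ht
    set y := arcY σ (γ t) x with hy
    have hxy : X t y = x := (hinv x).1
    have hYd : HasDerivAt (arcY σ (γ t)) (deriv (arcY σ (γ t)) (X t y)) (X t y) :=
      ((hYsm t ht).differentiable (by simp) _).hasDerivAt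
    have h1 := ftt_chain hU hYJ ht (hXt0 t ht y) (hYt0 t ht (X t y)) hYd
    have h2 : HasDerivWithinAt (fun s => arcY σ (γ s) (X s y)) 0 I t :=
      (hasDerivWithinAt_const t I y).congr (fun s hs => ((hall s hs).2.2.2.1 y).2)
        (((hall t ht).2.2.2.1 y).2)
    have h3 := (hU t ht).eq_deriv _ h1 h2
    have h4 : deriv (arcY σ (γ t)) (X t y) * deriv (X t) y = 1 := by
      have h5 := hYd.comp y (hXd t ht y)
      have h6 : (arcY σ (γ t)) ∘ (X t) = id := funext (fun z => (hinv z).2)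
      rw [h6] at h5
      exact h5.unique (hasDerivAt_id y)
    have h5 : Yt t x = -φ t y := by
      have h6 := (hXpos t ht y).ne'
      rw [hxy] at h3 h4
      simp only [smul_eq_mul] at h3
      have h7 : deriv (arcY σ (γ t)) x = (deriv (X t) y)⁻¹ := eq_inv_of_mul_eq_one_left h4
      rw [h7] at h3
      simp only [hφdef]
      rw [div_eq_mul_inv]
      linarith
    have h6 := hYt0 t ht x
    rw [h5, hφeq t ht y] at h6
    exact h6

end Pool.Agent.Work.MP_4a14ce_an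

end

section

/-!
# Group W: assembly of the local existence theorem
-/

open Set MeasureTheory Topology Filter
open scoped ContDiff ENNReal

namespace Pool.Agent.Work.MP_4a14ce_an

namespace WN

lemma ex_eq {g : A} {t : ℝ} (ht : t ∈ Icc (0 : ℝ) 1) : ex g t = g ⟨t, ht⟩ := by
  unfold ex
  rw [projIcc_of_mem _ ht]

lemma E_bound {d K : ℝ} {f : W} (h : WBd 0 d f K) {t : ℝ} (h1 : d ≤ t) (h2 : t ∈ Icc (0 : ℝ) 1)
    (x : ℝ) : ‖E f t x‖ ≤ K := by
  obtain ⟨b, hb0, hb, hs⟩ := h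
  have hs' : ∀ s : Finset ℤ, ∑ k ∈ s, b k ≤ K := fun s => by simpa using hs s
  have hsum : Summable b := summable_of_sum_le hb0 hs'
  have hle : ∑' k, b k ≤ K := hsum.tsum_le_of_sum_le hs'
  refine (tsum_of_norm_bounded hsum.hasSum ?_).trans hle
  intro k
  rw [norm_mul, ex_eq h2]
  have h3 : ‖Complex.exp (Complex.I * k * x)‖ = 1 := by
    have : Complex.I * (k : ℂ) * (x : ℂ) = ((k * x : ℝ) : ℂ) * Complex.I := by push_cast; ring
    rw [this, Complex.norm_exp_ofReal_mul_I]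
  rw [h3, mul_one]
  exact hb k ⟨t, h2⟩ h1

lemma wt_one_le (k : ℤ) : 1 ≤ wt k := by
  unfold wt
  linarith [abs_nonneg (k : ℝ)]

lemma mult_bound (j : ℕ) (k : ℤ) :
    ‖(Complex.I * (k : ℂ)) ^ j / (wt k : ℂ) ^ 3‖ ≤ 1 * wt k ^ j := by
  have h1 := wt_one_le k
  rw [norm_div, norm_pow, norm_pow, norm_mul, Complex.norm_I, one_mul, Complex.norm_real,
    Real.norm_of_nonneg (by linarith : 0 ≤ wt k), Complex.norm_intCast, one_mul]
  have h2 : |(k : ℝ)| ^ j ≤ wt k ^ j := by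
    apply pow_le_pow_left₀ (abs_nonneg _)
    unfold wt
    linarith
  have h3 : 1 ≤ wt k ^ 3 := one_le_pow₀ h1
  calc |(k : ℝ)| ^ j / wt k ^ 3 ≤ |(k : ℝ)| ^ j / 1 := by
        apply div_le_div_of_nonneg_left (by positivity) (by norm_num) h3
    _ ≤ wt k ^ j := by rw [div_one]; exact h2

lemma hasDeriv_scale {f : ℝ → ℂ} {f' : ℂ} {T t : ℝ} (hT : 0 < T)
    (h : HasDerivWithinAt f f' (Icc 0 1) (t / T)) :
    HasDerivWithinAt (fun s => (f (s / T)).re) (T⁻¹ * f'.re) (Icc 0 T) t := by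
  have h1 : HasDerivWithinAt (fun s : ℝ => s / T) (1 / T) (Icc 0 T) t :=
    (hasDerivAt_id t).hasDerivWithinAt.div_const T
  have h2 : MapsTo (fun s : ℝ => s / T) (Icc 0 T) (Icc 0 1) := by
    intro s hs
    exact ⟨div_nonneg hs.1 hT.le, (div_le_one hT).mpr hs.2⟩
  have h3 := h.scomp t h1 h2
  have h4 := (Complex.reCLM.hasFDerivAt (x := f (t / T))).comp_hasDerivWithinAt t h3
  have h5 : Complex.reCLM ((1 / T) • f') = T⁻¹ * f'.re := by
    simp
  rw [h5] at h4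
  exact h4

theorem local_of (hOp : WOpsA) (hFix : WFix) (hReg : WReg) (hTime : WTime) (hEvA : WEvalA)
    (hEvB : WEvalB) (hJS : WJS) (hCur : WCur) (hRhs : WRhs) (hData : WData) : ClaimLocal := by
  intro n σ R hσ
  obtain ⟨R', hR'⟩ := hData n R
  obtain ⟨T, K, hT, hT1, hK, hsol⟩ := hFix n σ (max R R')
  have hreg := hReg n σ T K (max R R') hT hT1 hK
  have hex : ∀ j : ℕ, ∃ K', ∀ (c : Fin (n + 1) → ℤ → ℂ) (p0 m0 : ℝ)
    (U : Fin (n + 1) → W) (P M : A),
    (∀ i (s : Finset ℤ), ∑ k ∈ s, wt k ^ 3 * ‖c i k‖ ≤ max R R') →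
    Fx σ T c p0 m0 U P M → (∀ i, ‖U i‖ ≤ K) → ‖P‖ ≤ K → ‖M‖ ≤ K →
      ∀ i, WBd j (1 / 2) (U i) K' := fun j => hreg.1 j (1 / 2) (by norm_num) (by norm_num)
  choose K' hK' using hex
  refine ⟨T, hT, fun j => (n + 1) * (K' j) ^ 2, ?_⟩
  intro u0 p0 m0 hu0 hper hb1 hb2 hp0 hm0
  obtain ⟨c, hcs, hc3, hcm, hcsum⟩ := hR' u0 hu0 hper hb1 hb2
  have hc3' : ∀ i (s : Finset ℤ), ∑ k ∈ s, wt k ^ 3 * ‖c i k‖ ≤ max R R' :=
    fun i s => (hc3 i s).trans (le_max_right _ _)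
  obtain ⟨U, P, M, hFx, hU, hP, hM, hPs, hMs⟩ := hsol c p0 m0 hc3' hcs
    (hp0.trans (le_max_left _ _)) (hm0.trans (le_max_left _ _))
  have hRap : ∀ i, Rapid (U i) := hreg.2 c p0 m0 U P M hFx hcm
  have hSym : ∀ i, Sym (U i) := fun i => (hU i).2
  obtain ⟨hRW, hTD, hinit, hTP, hTM, hPi, hMi⟩ := hTime n σ T c p0 m0 U P M hT hT1 hFx hcm hRap
  have hmap : ∀ t ∈ Icc (0 : ℝ) T, t / T ∈ Icc (0 : ℝ) 1 := by
    intro s hs
    exact ⟨div_nonneg hs.1 hT.le, (div_le_one hT).mpr hs.2⟩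
  have hreal : ∀ (a : A), star a = a → ∀ t, (ex a t).im = 0 := by
    intro a ha t
    have h1 : star (ex a t) = ex a t := by
      unfold ex
      rw [← ContinuousMap.star_apply, ha]
    exact Complex.conj_eq_iff_im.mp h1
  refine ⟨fun t x => cur U (t / T) x, fun t => (ex P (t / T)).re, fun t => (ex M (t / T)).re,
    ?_, ?_, ?_, ?_, ?_⟩
  · constructor
    · -- smooth
      have h1 : ∀ i, ContDiffOn ℝ ∞ (fun z : ℝ × ℝ => (E (DD 0 (U i)) z.1 z.2).re)
          (Icc 0 1 ×ˢ univ) := fun i => hJS.1 _ fun r => (hRW r).1 i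
      show ContDiffOn ℝ ∞ (fun z : ℝ × ℝ => cur U (z.1 / T) z.2) (Icc 0 T ×ˢ univ)
      refine contDiffOn_pi.mpr ?_
      intro i
      have h2 : ContDiffOn ℝ ∞ (fun z : ℝ × ℝ => ((z.1 / T, z.2) : ℝ × ℝ)) (Icc 0 T ×ˢ univ) := by
        apply ContDiff.contDiffOn
        fun_prop
      exact (h1 i).comp h2 fun z hz => ⟨hmap _ hz.1, mem_univ _⟩
    · have h1 := hJS.2 P fun r => (hRW r).2.1
      have h2 : ContDiffOn ℝ ∞ (fun t : ℝ => t / T) (Icc 0 T) := by
        apply ContDiff.contDiffOn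
        fun_prop
      exact h1.comp h2 fun z hz => hmap _ hz
    · have h1 := hJS.2 M fun r => (hRW r).2.2
      have h2 : ContDiffOn ℝ ∞ (fun t : ℝ => t / T) (Icc 0 T) := by
        apply ContDiff.contDiffOn
        fun_prop
      exact h1.comp h2 fun z hz => hmap _ hz
    · intro t ht
      exact (hCur n U hRap (t / T)).2.1
    · intro t ht x
      refine hasDerivWithinAt_pi.mpr ?_
      intro i
      have h1 := hEvB.2.1 _ _ (hTD i) (t / T) (hmap t ht) x
      have h2 := hasDeriv_scale hT h1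
      have h3 : T⁻¹ * (E ((T : ℂ) • (NW σ P M U i -
          (2 : ℂ) • mulW (fun k => (Complex.I * k) ^ 4 / (wt k : ℂ) ^ 3) (U i)))
          (t / T) x).re = rhs σ (ex P (t / T)).re (ex M (t / T)).re (cur U (t / T)) x i := by
        rw [(hRhs n σ U P M hRap hSym hPs hMs (t / T)).2 x i,
          (hCur n U hRap (t / T)).2.2 4 x i, hEvA.2.1, (hEvA.1 _ _ _ _).2.2.1, hEvA.2.1,
          Complex.re_ofReal_mul, Complex.sub_re]
        have h4 : ((2 : ℂ) * E (mulW (fun k => (Complex.I * k) ^ 4 / (wt k : ℂ) ^ 3) (U i))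
          (t / T) x).re = 2 *
          (E (mulW (fun k => (Complex.I * k) ^ 4 / (wt k : ℂ) ^ 3) (U i)) (t / T) x).re := by
          have := Complex.re_ofReal_mul 2
            (E (mulW (fun k => (Complex.I * k) ^ 4 / (wt k : ℂ) ^ 3) (U i)) (t / T) x)
          simpa using this
        rw [h4]
        field_simp
        ring
      rw [h3] at h2
      exact h2
    · intro t ht
      have h2 := hasDeriv_scale hT (hTP (t / T) (hmap t ht))
      have h3 : T⁻¹ * (ex ((-(2 * T) : ℂ) • (P * muA σ P M U)) (t / T)).re =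
          -(2 * (ex P (t / T)).re * mu σ (ex P (t / T)).re (ex M (t / T)).re
            (cur U (t / T))) := by
        rw [(hRhs n σ U P M hRap hSym hPs hMs (t / T)).1]
        have h4 : ex ((-(2 * T) : ℂ) • (P * muA σ P M U)) (t / T) =
            ((-(2 * T) : ℝ) : ℂ) * (ex P (t / T) * ex (muA σ P M U) (t / T)) := by
          unfold ex
          simp [ContinuousMap.smul_apply, ContinuousMap.mul_apply]
        rw [h4, Complex.re_ofReal_mul, Complex.mul_re, hreal P hPs]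
        field_simp
        ring
      rw [h3] at h2
      exact h2
    · intro t ht
      have h2 := hasDeriv_scale hT (hTM (t / T) (hmap t ht))
      have h3 : T⁻¹ * (ex ((2 * T : ℂ) • (M * muA σ P M U)) (t / T)).re =
          2 * (ex M (t / T)).re * mu σ (ex P (t / T)).re (ex M (t / T)).re
            (cur U (t / T)) := by
        rw [(hRhs n σ U P M hRap hSym hPs hMs (t / T)).1]
        have h4 : ex ((2 * T : ℂ) • (M * muA σ P M U)) (t / T) =
            ((2 * T : ℝ) : ℂ) * (ex M (t / T) * ex (muA σ P M U) (t / T)) := by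
          unfold ex
          simp [ContinuousMap.smul_apply, ContinuousMap.mul_apply]
        rw [h4, Complex.re_ofReal_mul, Complex.mul_re, hreal M hMs]
        field_simp
        ring
      rw [h3] at h2
      exact h2
  · funext x i
    show (E (DD 0 (U i)) (0 / T) x).re = u0 x i
    rw [zero_div]
    unfold E
    have h1 : ∀ k : ℤ, ex (DD 0 (U i) k) 0 * Complex.exp (Complex.I * k * x) =
        c i k * Complex.exp (Complex.I * k * x) := fun k => by rw [hinit i k]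
    rw [tsum_congr h1, (hcsum x i).tsum_eq, Complex.ofReal_re]
  · show (ex P (0 / T)).re = p0
    rw [zero_div, hPi, Complex.ofReal_re]
  · show (ex M (0 / T)).re = m0
    rw [zero_div, hMi, Complex.ofReal_re]
  · intro j t ht x
    have ht' : t ∈ Icc (0 : ℝ) T := ⟨by linarith [ht.1], ht.2⟩
    have h12 : (1 / 2 : ℝ) ≤ t / T := by
      rw [le_div_iff₀ hT]
      linarith [ht.1]
    have hmem := hmap t ht'
    have hW : ∀ i, WBd j (1 / 2) (U i) (K' j) :=
      hK' j c p0 m0 U P M hc3' hFx (fun i => (hU i).1) hP hM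
    have hE : ∀ i, |iteratedDeriv j (cur U (t / T)) x i| ≤ K' j := by
      intro i
      rw [(hCur n U hRap (t / T)).2.2 j x i]
      obtain ⟨K0, hK0⟩ := hRap i (0 + j)
      have h1 := (hOp.2.1 (fun k => (Complex.I * k) ^ j / (wt k : ℂ) ^ 3) 0 j 1 (U i)
        (mult_bound j) zero_le_one ⟨K0, hK0⟩).2 (1 / 2) (K' j) (by norm_num)
        (by simpa using hW i)
      rw [one_mul] at h1
      exact (Complex.abs_re_le_norm _).trans (E_bound h1 h12 hmem x)
    show nsq (iteratedDeriv j (cur U (t / T)) x) ≤ _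
    unfold nsq
    calc ∑ i, iteratedDeriv j (cur U (t / T)) x i ^ 2 ≤ ∑ i : Fin (n + 1), K' j ^ 2 := by
          apply Finset.sum_le_sum
          intro i _
          exact sq_le_sq' (by linarith [neg_abs_le (iteratedDeriv j (cur U (t / T)) x i), hE i])
            (by linarith [le_abs_self (iteratedDeriv j (cur U (t / T)) x i), hE i])
      _ = (n + 1) * K' j ^ 2 := by simp

end WN

end Pool.Agent.Work.MP_4a14ce_an

end

section

/-!
# Group L: induction on the dimension and the Lojasiewicz gradient inequality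
-/

open Set Topology Filter

namespace Pool.Agent.Work.MP_4a14ce_an

/-- a function which is not eventually zero has a line on which it is not eventually zero -/
theorem loja_line {E : Type} [NormedAddCommGroup E] [NormedSpace ℝ E] {f : E → ℝ} {a : E}
    (hf : AnalyticAt ℝ f a) (h0 : ¬ ∀ᶠ x in 𝓝 a, f x = 0) (ha : f a = 0) :
    ∃ v : E, v ≠ 0 ∧ ¬ ∀ᶠ t in 𝓝 (0 : ℝ), f (a + t • v) = 0 := by
  obtain ⟨r, hr, hr2⟩ := Metric.eventually_nhds_iff_ball.1 hf.eventually_analyticAt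
  have h1 : ∃ᶠ x in 𝓝 a, f x ≠ 0 := not_eventually.1 h0
  obtain ⟨x, hx, hxr⟩ := (h1.and_eventually (Metric.ball_mem_nhds a hr)).exists
  refine ⟨x - a, fun h => hx ?_, fun h => hx ?_⟩
  · rw [sub_eq_zero.1 h, ha]
  · have hcont : Continuous (fun t : ℝ => a + t • (x - a)) := by fun_prop
    set U : Set ℝ := (fun t : ℝ => a + t • (x - a)) ⁻¹' Metric.ball a r with hU
    have hUc : Convex ℝ U := by
      intro t ht t' ht' c c' hc hc' hcc
      have h2 : a + (c • t + c' • t') • (x - a) = c • (a + t • (x - a)) +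
          c' • (a + t' • (x - a)) := by
        have : c • a + c' • a = a := by rw [← add_smul, hcc, one_smul]
        calc a + (c • t + c' • t') • (x - a) = (c • a + c' • a) + (c • t + c' • t') • (x - a) := by
              rw [this]
          _ = _ := by
              simp only [smul_add, add_smul, smul_eq_mul, mul_smul]
              abel
      change a + (c • t + c' • t') • (x - a) ∈ Metric.ball a r
      rw [h2]
      exact convex_ball a r ht ht' hc hc' hcc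
    have hg : AnalyticOnNhd ℝ (fun t : ℝ => f (a + t • (x - a))) U := by
      intro t ht
      refine AnalyticAt.fun_comp (g := f) (hr2 _ ht) ?_
      exact analyticAt_const.add (analyticAt_id.smul analyticAt_const)
    have h0U : (0 : ℝ) ∈ U := by
      simp [hU, hr]
    have h1U : (1 : ℝ) ∈ U := by
      simpa [hU] using hxr
    have := hg.eqOn_zero_of_preconnected_of_eventuallyEq_zero hUc.isPreconnected h0U h h1U
    simpa using this

theorem loja_order {q : ℝ → ℝ} {s : ℝ} (hq : AnalyticAt ℝ q s) (h0 : ¬ ∀ᶠ t in 𝓝 s, q t = 0) :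
    ∃ j, iteratedDeriv j q s ≠ 0 := by
  by_contra hcon
  push Not at hcon
  apply h0
  rw [← analyticOrderAt_eq_top, ENat.eq_top_iff_forall_ge]
  intro m
  rw [natCast_le_analyticOrderAt_iff_iteratedDeriv_eq_zero hq]
  exact fun i _ => hcon i

/-- `(y,t)` as a point of `ℝ^(n+1)` -/
noncomputable def lojaE (n : ℕ) : ((Fin n → ℝ) × ℝ) ≃L[ℝ] (Fin (n + 1) → ℝ) :=
  (ContinuousLinearEquiv.prodComm ℝ (Fin n → ℝ) ℝ).trans
    (Fin.consEquivL ℝ (fun _ : Fin (n + 1) => ℝ))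

theorem lojaE_apply (n : ℕ) (p : (Fin n → ℝ) × ℝ) : lojaE n p = Fin.cons p.2 p.1 := rfl

theorem lojaE_symm (n : ℕ) (x : Fin (n + 1) → ℝ) : (lojaE n).symm x = (Fin.tail x, x 0) := rfl

theorem LMonoP.toLMono {n : ℕ} {f : (Fin n → ℝ) × ℝ → ℝ} {p : (Fin n → ℝ) × ℝ}
    (hf : LMonoP f p) : LMono (fun x => f ((lojaE n).symm x)) (lojaE n p) := by
  obtain ⟨a, c, u, hu, hu0, he⟩ := hf
  refine ⟨Fin.cons c a, fun x => u ((lojaE n).symm x), ?_, ?_, ?_⟩
  · refine AnalyticAt.fun_comp (g := u) ?_ ((lojaE n).symm.toContinuousLinearMap.analyticAt _)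
    rwa [(lojaE n).symm_apply_apply]
  · simpa using hu0
  · have hc : Tendsto (fun x => (lojaE n).symm x) (𝓝 (lojaE n p)) (𝓝 p) := by
      have := (lojaE n).symm.continuous.tendsto (lojaE n p)
      rwa [(lojaE n).symm_apply_apply] at this
    filter_upwards [hc.eventually he] with x hx
    rw [hx, Fin.prod_univ_succ]
    simp only [lojaE_apply, lojaE_symm, Fin.cons_zero, Fin.cons_succ, Fin.tail]
    ring

/-- L8 -/
theorem lDim : LDim := by
  intro n hV f a hf hf0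
  by_cases ha : f a = 0
  swap
  · exact LRes.base _ _ (LMono.unit hf ha)
  obtain ⟨v, hv, hv2⟩ := loja_line hf hf0 ha
  have he : (lojaE n (0, (1 : ℝ))) ≠ 0 := by
    rw [Ne, (lojaE n).map_eq_zero_iff]
    simp
  obtain ⟨T, hT⟩ := SeparatingDual.exists_continuousLinearEquiv_apply_eq (R := ℝ) he hv
  set F : (Fin n → ℝ) × ℝ → ℝ := fun p => f (a + T (lojaE n p)) with hF
  have hline : ∀ t : ℝ, F (0, t) = f (a + t • v) := by
    intro t
    have h1 : ((0 : Fin n → ℝ), t) = t • ((0 : Fin n → ℝ), (1 : ℝ)) := by simp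
    simp only [hF]
    rw [h1, map_smul, map_smul, hT]
  have hq : AnalyticAt ℝ (fun t : ℝ => f (a + t • v)) 0 := by
    refine AnalyticAt.fun_comp (g := f) ?_ ?_
    · simpa using hf
    · exact analyticAt_const.add (analyticAt_id.smul analyticAt_const)
  obtain ⟨j, hj⟩ := loja_order hq hv2
  have h00 : lojaE n (0, 0) = 0 := (lojaE n).map_zero
  have hFa : AnalyticAt ℝ F (0, 0) := by
    refine AnalyticAt.fun_comp (g := f) ?_ ?_
    · rw [h00, map_zero, add_zero]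
      exact hf
    · exact analyticAt_const.add
        (((lojaE n).trans T).toContinuousLinearMap.analyticAt _)
  have h1 := hV j F (fun _ => 1) 0 0 hFa analyticAt_const
    ⟨j, le_rfl, by simpa only [hline] using hj⟩
    (by simp only [one_ne_zero, eventually_false_iff_eq_bot]; exact NeBot.ne inferInstance)
  have h2 : LRes LMonoP F (0, 0) := by simpa using h1
  have h3 := h2.equiv (M' := LMono) (lojaE n) (fun f a h => h.toLMono)
  have h4 : LRes LMono (fun x => f (a + T x)) 0 := by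
    rw [h00] at h3
    simpa [hF] using h3
  exact LRes.affine T h4

theorem lM0 : LM 0 := by
  intro f b hf hf0
  refine LRes.base _ _ (LMono.unit hf fun h => hf0 ?_)
  refine Eventually.of_forall fun y => ?_
  rw [Subsingleton.elim y b, h]

theorem lM_all (hS : LStep) : ∀ n, LM n := by
  intro n
  induction n with
  | zero => exact lM0
  | succ n ih =>
    refine lDim n fun k => ?_
    induction k with
    | zero => exact lV0 n ih
    | succ k ihk => exact hS n k ih ihk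

/-- the Lojasiewicz gradient inequality -/
theorem claimLoja_of (hS : LStep) (hT : LTransfer) : ClaimLoja := by
  intro d f a hf
  by_cases h0 : ∀ᶠ x in 𝓝 a, f x - f a = 0
  · refine ⟨1 / 2, ⟨by norm_num, by norm_num⟩, 1, one_pos, ?_⟩
    filter_upwards [h0] with x hx
    rw [hx, abs_zero, Real.zero_rpow (by norm_num)]
    positivity
  · have hg : AnalyticAt ℝ (fun x => f x - f a) a := hf.sub analyticAt_const
    obtain ⟨θ, hθ, C, hC, h⟩ := hT d (fun x => f x - f a) a hg (sub_self _)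
      (lM_all hS d _ a hg h0)
    refine ⟨θ, hθ, C, hC, ?_⟩
    filter_upwards [h] with x hx
    have h1 : fderiv ℝ (fun x => f x - f a) x = fderiv ℝ f x := fderiv_sub_const _
    rw [h1] at hx
    simpa using hx

end Pool.Agent.Work.MP_4a14ce_an

end

section

/-!
# Assembly of the main theorem from the claims
-/

open Set MeasureTheory Topology Filter
open scoped ContDiff

namespace Pool.Agent.Work.MP_4a14ce_an

/-- the data of `ClaimFlowToT` determine the flow -/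
lemma main_unique (hTU : ClaimTUnique) (hOU : ClaimODEUnique) (hFT : ClaimFlowToT)
    (hSl : JSSlice) (hDt : JSDt1) (hJP : JSPer) (hInt : JSInt0x)
    {n : ℕ} {σ : ℝ} (hσ : Sgn σ) {γ₀ : ℝ → V n}
    {γ γ' : ℝ → ℝ → V n} (hγ : IsElasticFlow σ γ₀ γ) (hγ' : IsElasticFlow σ γ₀ γ') :
    ∀ t ∈ Ici (0 : ℝ), γ' t = γ t := by
  obtain ⟨X, p, hT, hX, hY⟩ := hFT n σ γ₀ γ hσ hγ
  obtain ⟨X', p', hT', hX', hY'⟩ := hFT n σ γ₀ γ' hσ hγ'
  have h0 : (0 : ℝ) ∈ Ici (0 : ℝ) := mem_Ici.mpr le_rfl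
  have hX0 : X 0 = X' 0 := by
    funext y
    have h1 := (hX 0 h0 (X' 0 y)).1
    have h2 := (hX' 0 h0 y).2
    rw [hγ.start] at h1
    rw [hγ'.start] at h2
    rw [h2] at h1
    exact h1
  have hu0 : (fun y => γ 0 (X 0 y)) = (fun y => γ' 0 (X' 0 y)) := by
    rw [hγ.start, hγ'.start, hX0]
  have hu := hTU n σ _ _ p p' hσ hT hT' hu0
  set b : ℝ → ℝ → ℝ := fun t y => (p t ^ 2)⁻¹ * xi σ (p t) (p t)⁻¹ (fun z => γ t (X t z)) y
    with hb
  have hI : Itv (Ici (0 : ℝ)) := Or.inl ⟨0, rfl⟩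
  have hbJ : JS (Ici 0) b := ttf_b_JS hSl hDt hJP hInt hI hT.smooth hT.psmooth
    fun t ht => (hT.con t ht).pos
  have hbP : ∀ t ∈ Ici (0:ℝ), Function.Periodic (b t) (2 * Real.pi) := by
    intro t ht x
    have := ttf_xi_per (σ := σ) (P := p t) (m := (p t)⁻¹) (hT.con t ht).smooth
      (hT.con t ht).periodic x
    simp only [hb, this]
  have hYe : ∀ t ∈ Ici (0 : ℝ), arcY σ (γ t) = arcY σ (γ' t) := by
    apply hOU b hbJ hbP (fun t => arcY σ (γ t)) (fun t => arcY σ (γ' t))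
    · show arcY σ (γ 0) = arcY σ (γ' 0)
      rw [hγ.start, hγ'.start]
    · intro t ht x
      exact hY t ht x
    · intro t ht x
      have h := hY' t ht x
      obtain ⟨e1, e2⟩ := hu t ht
      simp only [hb]
      have e1' : (fun z => γ' t (X' t z)) = (fun z => γ t (X t z)) := e1.symm
      rw [e1', ← e2] at h
      exact h
  intro t ht
  funext x
  obtain ⟨e1, -⟩ := hu t ht
  have h1 := (hX t ht x).1
  have h2 := (hX' t ht x).1
  have h3 : γ t (X t (arcY σ (γ t) x)) = γ' t (X' t (arcY σ (γ t) x)) :=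
    congrFun e1 (arcY σ (γ t) x)
  rw [h1] at h3
  rw [hYe t ht, h2] at h3
  exact h3.symm

/-- the main theorem from the claims -/
theorem claimMain (hArc : ClaimArc) (hTG : ClaimTGlobal) (hTT : ClaimTToFlow)
    (hFT : ClaimFlowToT) (hTU : ClaimTUnique) (hOU : ClaimODEUnique) (hGC : ClaimGradCon)
    (hEF : ClaimEnergyForm) (hSl : JSSlice) (hDt : JSDt1) (hJP : JSPer) (hInt : JSInt0x) :
    ClaimMain := by
  intro n σ hσ γ₀ hγ₀
  have h0 : (0 : ℝ) ∈ Ici (0 : ℝ) := mem_Ici.mpr le_rfl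
  -- constant speed reparametrisation of the initial curve
  have hconst : JS (Ici (0 : ℝ)) (fun _ : ℝ => γ₀) :=
    (hγ₀.smooth.comp contDiff_snd).contDiffOn
  obtain ⟨X, p, -, -, -, hall⟩ := hArc n σ (fun _ => γ₀) hσ hconst (fun _ _ => hγ₀)
  obtain ⟨hY0, hX0, -, hinv, hcon⟩ := hall 0 h0
  obtain ⟨u, P, hT, hu0, v, q, hv, hvel, hconv⟩ := hTG n σ _ _ hσ hcon
  obtain ⟨Y, hYr, hflow⟩ := hTT n σ γ₀ u P (arcY σ γ₀) hσ hT hY0 (fun x => by
    rw [hu0]
    exact congrArg γ₀ (hinv x).1.symm)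
  refine ⟨fun t x => u t (Y t x), hflow, fun γ' hγ' => ?_, v, (hEF n σ q v hσ hv).1, ?_, ?_⟩
  · exact main_unique hTU hOU hFT hSl hDt hJP hInt hσ hflow hγ'
  · have h1 := hGC n σ q v hσ hv
    have h2 : (fun x => -((q ^ 2)⁻¹ • vel σ q q⁻¹ v x)) = fun _ => (0 : V n) := by
      funext x
      rw [hvel x, smul_zero, neg_zero]
    rw [h2] at h1
    exact h1
  · classical
    have hex : ∀ t : ℝ, ∃ Z : ℝ → ℝ, t ∈ Ici (0 : ℝ) → IsReparam Z ∧ (∀ x, Z (Y t x) = x) ∧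
        (∀ x, Y t (Z x) = x) := by
      intro t
      by_cases ht : t ∈ Ici (0 : ℝ)
      · obtain ⟨Z, hZ⟩ := reparamInv (Y t) (hYr t ht)
        exact ⟨Z, fun _ => hZ⟩
      · exact ⟨id, fun h => absurd h ht⟩
    choose ψ hψ using hex
    refine ⟨ψ, fun t ht => (hψ t ht).1, fun m => ?_⟩
    intro W hW
    filter_upwards [hconv m W hW, eventually_ge_atTop (0 : ℝ)] with t h ht x
    have h2 : (fun y => u t (Y t (ψ t y))) = u t := by
      funext y
      rw [(hψ t ht).2.2 y]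
    simp only [h2]
    exact h x

end Pool.Agent.Work.MP_4a14ce_an

end

section

/-!
# Group W, item W8a: closure properties of the time regularity classes
-/

open Set MeasureTheory Topology Filter
open scoped ContDiff ENNReal

namespace Pool.Agent.Work.MP_4a14ce_an

namespace WN

/-! ### the derivative of elements of `A` -/

lemma wc_ex_norm_le (g : A) (t : ℝ) : ‖ex g t‖ ≤ ‖g‖ := g.norm_coe_le_norm _

lemma wc_ex_add (f g : A) (t : ℝ) : ex (f + g) t = ex f t + ex g t := rfl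

lemma wc_ex_sub (f g : A) (t : ℝ) : ex (f - g) t = ex f t - ex g t := rfl

lemma wc_ex_mul (f g : A) (t : ℝ) : ex (f * g) t = ex f t * ex g t := rfl

lemma wc_ex_smul (z : ℂ) (f : A) (t : ℝ) : ex (z • f) t = z * ex f t := rfl

lemma wc_ex_zero (t : ℝ) : ex 0 t = 0 := rfl

lemma wc_ex_one (t : ℝ) : ex 1 t = 1 := rfl

lemma wc_intble (g : A) (a b : ℝ) : IntervalIntegrable (ex g) volume a b :=
  (ex_continuous g).intervalIntegrable a b

/-- integration up to time `t` as a continuous linear map -/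
noncomputable def wcJ (t : ℝ) : A →L[ℂ] ℂ :=
  LinearMap.mkContinuous
    { toFun := fun g => ∫ s in (0 : ℝ)..t, ex g s
      map_add' := fun f g => by
        have : (fun s => ex (f + g) s) = fun s => ex f s + ex g s := rfl
        rw [← intervalIntegral.integral_add (wc_intble f 0 t) (wc_intble g 0 t)]
        rfl
      map_smul' := fun z f => by
        have : (fun s => ex (z • f) s) = fun s => z • ex f s := rfl
        rw [RingHom.id_apply, ← intervalIntegral.integral_smul]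
        rfl } |t|
    (fun g => by
      have h := intervalIntegral.norm_integral_le_of_norm_le_const (a := (0 : ℝ)) (b := t)
        (C := ‖g‖) (f := ex g) (fun s _ => wc_ex_norm_le g s)
      simp only [sub_zero] at h
      rw [mul_comm]
      exact h)

lemma wcJ_apply (t : ℝ) (g : A) : wcJ t g = ∫ s in (0 : ℝ)..t, ex g s := rfl

/-- evaluation at time `t` as a continuous linear map -/
noncomputable def wcE (t : ℝ) : A →L[ℂ] ℂ := ContinuousMap.evalCLM ℂ (projIcc 0 1 zero_le_one t)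

lemma wcE_apply (t : ℝ) (g : A) : wcE t g = ex g t := rfl

lemma wc_TDA_iff (a b : A) :
    TDA a b ↔ ∀ t ∈ Icc (0 : ℝ) 1, ex a t = ex a 0 + ∫ s in (0 : ℝ)..t, ex b s := by
  constructor
  · intro h t ht
    have h1 := intervalIntegral.integral_eq_sub_of_hasDerivAt_of_le (f := ex a) (f' := ex b)
      ht.1 (ex_continuous a).continuousOn
      (fun s hs => (h s ⟨hs.1.le, hs.2.le.trans ht.2⟩).hasDerivAt
        (Icc_mem_nhds hs.1 (hs.2.trans_le ht.2))) (wc_intble b 0 t)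
    rw [h1]
    ring
  · intro h t ht
    have h1 : HasDerivAt (fun u => ∫ s in (0 : ℝ)..u, ex b s) (ex b t) t :=
      intervalIntegral.integral_hasDerivAt_right (wc_intble b 0 t)
        ((ex_continuous b).stronglyMeasurableAtFilter _ _) (ex_continuous b).continuousAt
    have h2 := (h1.const_add (ex a 0)).hasDerivWithinAt (s := Icc (0 : ℝ) 1)
    exact h2.congr (fun s hs => h s hs) (h t ht)

lemma wc_TDA_tsum {a b : ℤ → A} (ha : Summable fun j => ‖a j‖) (hb : Summable fun j => ‖b j‖)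
    (h : ∀ j, TDA (a j) (b j)) : TDA (∑' j, a j) (∑' j, b j) := by
  rw [wc_TDA_iff]
  intro t ht
  have ha' : Summable a := Summable.of_norm ha
  have hb' : Summable b := Summable.of_norm hb
  have e1 : ∀ s : ℝ, HasSum (fun j => ex (a j) s) (ex (∑' j, a j) s) := fun s =>
    (wcE s).hasSum ha'.hasSum
  have e2 : HasSum (fun j => ∫ s in (0 : ℝ)..t, ex (b j) s) (∫ s in (0 : ℝ)..t, ex (∑' j, b j) s) :=
    (wcJ t).hasSum hb'.hasSum
  have e3 := (e1 0).add e2
  have e4 : (fun j => ex (a j) 0 + ∫ s in (0 : ℝ)..t, ex (b j) s) = fun j => ex (a j) t := by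
    funext j
    exact ((wc_TDA_iff (a j) (b j)).mp (h j) t ht).symm
  rw [e4] at e3
  exact (e1 t).unique e3

lemma wc_TDA_add {a b a' b' : A} (h : TDA a b) (h' : TDA a' b') : TDA (a + a') (b + b') :=
  fun t ht => (h t ht).add (h' t ht)

lemma wc_TDA_sub {a b a' b' : A} (h : TDA a b) (h' : TDA a' b') : TDA (a - a') (b - b') :=
  fun t ht => (h t ht).sub (h' t ht)

lemma wc_TDA_mul {a b a' b' : A} (h : TDA a b) (h' : TDA a' b') :
    TDA (a * a') (b * a' + a * b') :=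
  fun t ht => (h t ht).mul (h' t ht)

lemma wc_TDA_smul {a b : A} (z : ℂ) (h : TDA a b) : TDA (z • a) (z • b) :=
  fun t ht => (h t ht).const_mul z

lemma wc_TDA_zero : TDA 0 0 := fun t _ => hasDerivWithinAt_const t _ (0 : ℂ)

lemma wc_TDA_one : TDA 1 0 := fun t _ => hasDerivWithinAt_const t _ (1 : ℂ)

/-! ### the derivative of elements of `W` -/

lemma wc_TD_TDA {f g : W} (h : TD f g) (k : ℤ) : TDA (f k) (g k) := h k

lemma wc_TD_add {f g f' g' : W} (h : TD f g) (h' : TD f' g') : TD (f + f') (g + g') :=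
  fun k => wc_TDA_add (h k) (h' k)

lemma wc_TD_sub {f g f' g' : W} (h : TD f g) (h' : TD f' g') : TD (f - f') (g - g') :=
  fun k => wc_TDA_sub (h k) (h' k)

lemma wc_TD_smul {f g : W} (z : ℂ) (h : TD f g) : TD (z • f) (z • g) :=
  fun k => wc_TDA_smul z (h k)

lemma wc_norm_row (f g : W) (k : ℤ) : Summable fun j => ‖f j * g (k - j)‖ :=
  Summable.of_nonneg_of_le (fun _ => norm_nonneg _) (fun _ => norm_mul_le _ _)
    (conv_row_summable (a := fun k => ‖f k‖) (b := fun k => ‖g k‖)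
    (summable_norm f) (summable_norm g) (fun _ => norm_nonneg _) (fun _ => norm_nonneg _) k)

lemma wc_TD_conv {f g f' g' : W} (h : TD f f') (h' : TD g g') :
    TD (conv f g) (conv f' g + conv f g') := by
  intro k
  have h1 : TDA (∑' j, f j * g (k - j)) (∑' j, (f' j * g (k - j) + f j * g' (k - j))) := by
    refine wc_TDA_tsum (wc_norm_row f g k) ?_ (fun j => wc_TDA_mul (h j) (h' (k - j)))
    exact Summable.of_nonneg_of_le (fun _ => norm_nonneg _) (fun _ => norm_add_le _ _)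
      ((wc_norm_row f' g k).add (wc_norm_row f g' k))
  have h2 : ∑' j, (f' j * g (k - j) + f j * g' (k - j)) = (conv f' g + conv f g') k := by
    rw [(conv_row_summable' f' g k).tsum_add (conv_row_summable' f g' k)]
    rfl
  rw [h2] at h1
  exact h1

lemma wc_TDA_ev0 {f g : W} (h : TD f g) : TDA (ev0 f) (ev0 g) :=
  wc_TDA_tsum (summable_norm f) (summable_norm g) h

lemma wc_TD_cst (h3 : WOpsB) {a b : A} (h : TDA a b) : TD (cst a) (cst b) := by
  intro k
  have e1 := (h3.2.1 a a).2.2.2.1 k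
  have e2 := (h3.2.1 b b).2.2.2.1 k
  rw [e1, e2]
  by_cases hk : k = 0
  · rw [if_pos hk, if_pos hk]
    exact h
  · rw [if_neg hk, if_neg hk]
    exact wc_TDA_zero

/-! ### rapid decrease -/

lemma wc_inv_bound (k : ℤ) : ‖(Complex.I * (k : ℂ))⁻¹‖ ≤ 1 * wt k ^ 0 := by
  rw [pow_zero, mul_one, norm_inv, norm_mul, Complex.norm_I, one_mul, Complex.norm_intCast]
  by_cases hk : k = 0
  · simp [hk]
  · apply inv_le_one_of_one_le₀
    exact_mod_cast Int.one_le_abs hk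

lemma wc_anti_TD (h2 : WOpsA) (h3 : WOpsB) {f g : W} (h : TD f g) (hf : Rapid f) (hg : Rapid g) :
    TD (anti f) (anti g) := by
  have e1 := (h2.2.1 (fun k => (Complex.I * (k : ℂ))⁻¹) 0 0 1 f wc_inv_bound zero_le_one (hf 0)).1
  have e2 := (h2.2.1 (fun k => (Complex.I * (k : ℂ))⁻¹) 0 0 1 g wc_inv_bound zero_le_one (hg 0)).1
  have h4 : TD (mulW (fun k => (Complex.I * (k : ℂ))⁻¹) f)
      (mulW (fun k => (Complex.I * (k : ℂ))⁻¹) g) := by
    intro k
    rw [e1 k, e2 k]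
    exact wc_TDA_smul _ (h k)
  exact wc_TD_sub h4 (wc_TD_cst h3 (wc_TDA_ev0 h4))

/-! ### the classes -/

lemma wc_RW_rapid : ∀ (r : ℕ) (f : W), RW r f → Rapid f
  | 0, _, h => h
  | _ + 1, _, h => h.1

lemma wc_RW_mono : ∀ (r : ℕ) (f : W), RW (r + 1) f → RW r f
  | 0, _, h => h.1
  | r + 1, _, h => by
    obtain ⟨h1, g, h2, h3⟩ := h
    exact ⟨h1, g, wc_RW_mono r g h2, h3⟩

lemma wc_RA_mono : ∀ (r : ℕ) (a : A), RA (r + 1) a → RA r a
  | 0, _, _ => trivial
  | r + 1, _, h => by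
    obtain ⟨g, h2, h3⟩ := h
    exact ⟨g, wc_RA_mono r g h2, h3⟩

lemma wc_rapid_add (h3 : WOpsB) {f g : W} (hf : Rapid f) (hg : Rapid g) :
    Rapid (f + g) ∧ Rapid (f - g) := by
  refine ⟨fun m => ?_, fun m => ?_⟩
  · obtain ⟨K, hK⟩ := hf m
    obtain ⟨L, hL⟩ := hg m
    exact ⟨K + L, (h3.2.2.2.1 m 0 K L f g hK hL).1⟩
  · obtain ⟨K, hK⟩ := hf m
    obtain ⟨L, hL⟩ := hg m
    exact ⟨K + L, (h3.2.2.2.1 m 0 K L f g hK hL).2⟩

lemma wc_rapid_smul (h3 : WOpsB) {f : W} (z : ℂ) (hf : Rapid f) : Rapid (z • f) := by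
  intro m
  obtain ⟨K, hK⟩ := hf m
  exact ⟨_, h3.2.2.2.2.1 m 0 K z f hK⟩

lemma wc_rapid_conv (h1 : WConv) {f g : W} (hf : Rapid f) (hg : Rapid g) : Rapid (conv f g) := by
  intro m
  obtain ⟨K, hK⟩ := hf m
  obtain ⟨L, hL⟩ := hg m
  exact ⟨K * L, h1.2.2.2.2.2.1 m 0 K L f g hK hL⟩

lemma wc_rapid_anti (h3 : WOpsB) {f : W} (hf : Rapid f) : Rapid (anti f) := by
  intro m
  obtain ⟨K, hK⟩ := hf m
  exact ⟨2 * K, (h3.1 f f).2.2.2.2.2 m 0 K hK⟩

lemma wc_rapid_cst (h3 : WOpsB) (a : A) : Rapid (cst a) := fun m =>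
  ⟨‖a‖, (h3.2.1 a a).2.2.2.2 m 0 ‖a‖ (norm_nonneg _) (fun θ _ => a.norm_coe_le_norm θ)⟩

lemma wc_RW_add (h3 : WOpsB) : ∀ (r : ℕ) (f g : W), RW r f → RW r g →
    RW r (f + g) ∧ RW r (f - g)
  | 0, _, _, hf, hg => wc_rapid_add h3 hf hg
  | r + 1, f, g, hf, hg => by
    obtain ⟨h1, f', h2, h4⟩ := hf
    obtain ⟨h1', g', h2', h4'⟩ := hg
    have hr := wc_RW_add h3 r f' g' h2 h2'
    exact ⟨⟨(wc_rapid_add h3 h1 h1').1, _, hr.1, wc_TD_add h4 h4'⟩,
      ⟨(wc_rapid_add h3 h1 h1').2, _, hr.2, wc_TD_sub h4 h4'⟩⟩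

lemma wc_RW_conv (h1 : WConv) (h3 : WOpsB) : ∀ (r : ℕ) (f g : W), RW r f → RW r g →
    RW r (conv f g)
  | 0, _, _, hf, hg => wc_rapid_conv h1 hf hg
  | r + 1, f, g, hf, hg => by
    have hf0 := wc_RW_mono r f hf
    have hg0 := wc_RW_mono r g hg
    obtain ⟨h5, f', h2, h4⟩ := hf
    obtain ⟨h5', g', h2', h4'⟩ := hg
    exact ⟨wc_rapid_conv h1 h5 h5', _,
      (wc_RW_add h3 r _ _ (wc_RW_conv h1 h3 r f' g h2 hg0) (wc_RW_conv h1 h3 r f g' hf0 h2')).1,
      wc_TD_conv h4 h4'⟩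

lemma wc_RW_smul (h3 : WOpsB) : ∀ (r : ℕ) (f : W) (z : ℂ), RW r f → RW r (z • f)
  | 0, _, z, hf => wc_rapid_smul h3 z hf
  | r + 1, f, z, hf => by
    obtain ⟨h1, f', h2, h4⟩ := hf
    exact ⟨wc_rapid_smul h3 z h1, _, wc_RW_smul h3 r f' z h2, wc_TD_smul z h4⟩

lemma wc_RW_anti (h2 : WOpsA) (h3 : WOpsB) : ∀ (r : ℕ) (f : W), RW r f → RW r (anti f)
  | 0, _, hf => wc_rapid_anti h3 hf
  | r + 1, f, hf => by
    obtain ⟨h1, f', h2', h4⟩ := hf
    exact ⟨wc_rapid_anti h3 h1, _, wc_RW_anti h2 h3 r f' h2',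
      wc_anti_TD h2 h3 h4 h1 (wc_RW_rapid r f' h2')⟩

lemma wc_RA_ev0 : ∀ (r : ℕ) (f : W), RW r f → RA r (ev0 f)
  | 0, _, _ => trivial
  | r + 1, f, hf => by
    obtain ⟨h1, f', h2', h4⟩ := hf
    exact ⟨ev0 f', wc_RA_ev0 r f' h2', wc_TDA_ev0 h4⟩

lemma wc_RA_coeff : ∀ (r : ℕ) (f : W) (k : ℤ), RW r f → RA r (f k)
  | 0, _, _, _ => trivial
  | r + 1, f, k, hf => by
    obtain ⟨h1, f', h2', h4⟩ := hf
    exact ⟨f' k, wc_RA_coeff r f' k h2', h4 k⟩

lemma wc_mulW_apply (h2 : WOpsA) {l : ℕ} {c : ℤ → ℂ} {C : ℝ} (hc : ∀ k, ‖c k‖ ≤ C * wt k ^ l)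
    {f : W} (hf : Rapid f) : (∀ k, mulW c f k = c k • f k) ∧ Rapid (mulW c f) := by
  have hC : 0 ≤ C := by
    have h := (norm_nonneg (c 0)).trans (hc 0)
    simpa [wt] using h
  refine ⟨(h2.2.1 c 0 l C f hc hC (hf _)).1, fun m => ?_⟩
  obtain ⟨K, hK⟩ := hf (m + l)
  exact ⟨C * K, (h2.2.1 c m l C f hc hC ⟨K, hK⟩).2 0 K le_rfl hK⟩

lemma wc_RW_mulW (h2 : WOpsA) {l : ℕ} {c : ℤ → ℂ} {C : ℝ} (hc : ∀ k, ‖c k‖ ≤ C * wt k ^ l) :
    ∀ (r : ℕ) (f : W), RW r f → RW r (mulW c f)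
  | 0, _, hf => (wc_mulW_apply h2 hc hf).2
  | r + 1, f, hf => by
    obtain ⟨h1, f', h2', h4⟩ := hf
    refine ⟨(wc_mulW_apply h2 hc h1).2, _, wc_RW_mulW h2 hc r f' h2', ?_⟩
    intro k
    rw [(wc_mulW_apply h2 hc h1).1 k, (wc_mulW_apply h2 hc (wc_RW_rapid r f' h2')).1 k]
    exact wc_TDA_smul _ (h4 k)

lemma wc_RA_add : ∀ (r : ℕ) (a b : A), RA r a → RA r b → RA r (a + b) ∧ RA r (a - b)
  | 0, _, _, _, _ => ⟨trivial, trivial⟩
  | r + 1, a, b, ha, hb => by
    obtain ⟨a', h1, h2⟩ := ha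
    obtain ⟨b', h1', h2'⟩ := hb
    have hr := wc_RA_add r a' b' h1 h1'
    exact ⟨⟨_, hr.1, wc_TDA_add h2 h2'⟩, ⟨_, hr.2, wc_TDA_sub h2 h2'⟩⟩

lemma wc_RA_smul : ∀ (r : ℕ) (a : A) (z : ℂ), RA r a → RA r (z • a)
  | 0, _, _, _ => trivial
  | r + 1, a, z, ha => by
    obtain ⟨a', h1, h2⟩ := ha
    exact ⟨_, wc_RA_smul r a' z h1, wc_TDA_smul z h2⟩

lemma wc_RA_mul : ∀ (r : ℕ) (a b : A), RA r a → RA r b → RA r (a * b)
  | 0, _, _, _, _ => trivial
  | r + 1, a, b, ha, hb => by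
    have ha0 := wc_RA_mono r a ha
    have hb0 := wc_RA_mono r b hb
    obtain ⟨a', h1, h2⟩ := ha
    obtain ⟨b', h1', h2'⟩ := hb
    exact ⟨_, (wc_RA_add r _ _ (wc_RA_mul r a' b h1 hb0) (wc_RA_mul r a b' ha0 h1')).1,
      wc_TDA_mul h2 h2'⟩

lemma wc_RW_cst (h3 : WOpsB) : ∀ (r : ℕ) (a : A), RA r a → RW r (cst a)
  | 0, a, _ => wc_rapid_cst h3 a
  | r + 1, a, ha => by
    obtain ⟨a', h1, h2⟩ := ha
    exact ⟨wc_rapid_cst h3 a, _, wc_RW_cst h3 r a' h1, wc_TD_cst h3 h2⟩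

lemma wc_RA_zero : ∀ r : ℕ, RA r 0
  | 0 => trivial
  | r + 1 => ⟨0, wc_RA_zero r, wc_TDA_zero⟩

lemma wc_RA_one : ∀ r : ℕ, RA r 1
  | 0 => trivial
  | r + 1 => ⟨0, wc_RA_zero r, wc_TDA_one⟩

theorem wClos (h1 : WConv) (h2 : WOpsA) (h3 : WOpsB) : WClos := by
  refine ⟨?_, ?_, ?_, ?_, ?_, wc_RA_one⟩
  · intro r f g hf hg
    exact ⟨wc_RW_conv h1 h3 r f g hf hg, wc_RW_add h3 r f g hf hg⟩
  · intro r f z hf
    exact ⟨wc_RW_smul h3 r f z hf, wc_RW_anti h2 h3 r f hf, wc_RA_ev0 r f hf,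
      fun k => wc_RA_coeff r f k hf, wc_RW_rapid r f hf⟩
  · intro r l c C f hc hf
    exact ⟨wc_RW_mulW h2 hc r f hf, (wc_mulW_apply h2 hc (wc_RW_rapid r f hf)).1⟩
  · intro r a b z ha hb
    exact ⟨wc_RA_mul r a b ha hb, (wc_RA_add r a b ha hb).1, (wc_RA_add r a b ha hb).2,
      wc_RA_smul r a z ha, wc_RW_cst h3 r a ha⟩
  · intro r f a
    exact ⟨wc_RW_mono r f, wc_RA_mono r a⟩

end WN

end Pool.Agent.Work.MP_4a14ce_an

end
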