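import Pool.Agent.Work.MP_4a14ce_an.Bd.B05
import Pool.Agent.Work.MP_4a14ce_an.Bd.B04

/-! Bundle of small proof modules (one section per former module). -/

section

/-!
# W1: convolution
-/

open Set MeasureTheory Topology Filter
open scoped ContDiff ENNReal

namespace Pool.Agent.Work.MP_4a14ce_an

namespace WN

namespace WConvAux

lemma norm_conv (f g : W) : ‖conv f g‖ ≤ ‖f‖ * ‖g‖ := by
  refine norm_le_of_sum fun s => ?_
  have h1 := conv_sum_summable (a := fun k => ‖f k‖) (b := fun k => ‖g k‖) (summable_norm f)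
    (summable_norm g) (fun _ => norm_nonneg _) (fun _ => norm_nonneg _)
  have h2 := conv_tsum (a := fun k => ‖f k‖) (b := fun k => ‖g k‖) (summable_norm f)
    (summable_norm g) (fun _ => norm_nonneg _) (fun _ => norm_nonneg _)
  rw [norm_eq f, norm_eq g, ← h2]
  calc ∑ k ∈ s, ‖conv f g k‖ ≤ ∑ k ∈ s, ∑' j, ‖f j‖ * ‖g (k - j)‖ :=
        Finset.sum_le_sum fun k _ => convF_norm_le f g k
    _ ≤ _ := h1.sum_le_tsum s fun k _ => tsum_nonneg fun j => by positivity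

lemma conv_add_left (f f' g : W) : conv (f + f') g = conv f g + conv f' g := by
  refine ext_W fun k => ?_
  rw [lp.coeFn_add, Pi.add_apply, conv_apply, conv_apply, conv_apply,
    ← (conv_row_summable' f g k).tsum_add (conv_row_summable' f' g k)]
  refine tsum_congr fun j => ?_
  rw [lp.coeFn_add, Pi.add_apply, add_mul]

lemma conv_add_right (f g g' : W) : conv f (g + g') = conv f g + conv f g' := by
  refine ext_W fun k => ?_
  rw [lp.coeFn_add, Pi.add_apply, conv_apply, conv_apply, conv_apply,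
    ← (conv_row_summable' f g k).tsum_add (conv_row_summable' f g' k)]
  refine tsum_congr fun j => ?_
  rw [lp.coeFn_add, Pi.add_apply, mul_add]

lemma conv_sub_left (f f' g : W) : conv (f - f') g = conv f g - conv f' g := by
  have h := conv_add_left (f - f') f' g
  rw [sub_add_cancel] at h
  rw [h, add_sub_cancel_right]

lemma conv_sub_right (f g g' : W) : conv f (g - g') = conv f g - conv f g' := by
  have h := conv_add_right f (g - g') g'
  rw [sub_add_cancel] at h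
  rw [h, add_sub_cancel_right]

lemma wt_ge (k : ℤ) : 1 ≤ wt k := by
  unfold wt
  have := abs_nonneg (k : ℝ)
  linarith

lemma wt_pow_ge (k : ℤ) (m : ℕ) : 1 ≤ wt k ^ m := one_le_pow₀ (wt_ge k)

lemma wt_mul (k j : ℤ) : wt k ≤ wt j * wt (k - j) := by
  unfold wt
  have h1 : |(k : ℝ)| ≤ |(j : ℝ)| + |((k - j : ℤ) : ℝ)| := by
    have : (k : ℝ) = (j : ℝ) + ((k - j : ℤ) : ℝ) := by push_cast; ring
    calc |(k : ℝ)| = |(j : ℝ) + ((k - j : ℤ) : ℝ)| := by rw [← this]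
      _ ≤ _ := abs_add_le _ _
  nlinarith [abs_nonneg (j : ℝ), abs_nonneg ((k - j : ℤ) : ℝ),
    mul_nonneg (abs_nonneg (j : ℝ)) (abs_nonneg ((k - j : ℤ) : ℝ))]

lemma wt_mul_pow (m : ℕ) (k j : ℤ) : wt k ^ m ≤ wt j ^ m * wt (k - j) ^ m := by
  rw [← mul_pow]
  exact pow_le_pow_left₀ (le_trans zero_le_one (wt_ge k)) (wt_mul k j) m

lemma sum_of_wb {m : ℕ} {b : ℤ → ℝ} {K : ℝ} (hb : ∀ k, 0 ≤ b k)
    (hK : ∀ s : Finset ℤ, ∑ k ∈ s, wt k ^ m * b k ≤ K) :
    (Summable fun k => wt k ^ m * b k) ∧ (Summable b) ∧ ∑' k, wt k ^ m * b k ≤ K := by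
  have h0 : ∀ k, 0 ≤ wt k ^ m * b k := fun k =>
    mul_nonneg (le_trans zero_le_one (wt_pow_ge k m)) (hb k)
  have h1 : Summable fun k => wt k ^ m * b k := summable_of_sum_le h0 hK
  refine ⟨h1, ?_, h1.tsum_le_of_sum_le hK⟩
  refine Summable.of_nonneg_of_le hb (fun k => ?_) h1
  calc b k = 1 * b k := (one_mul _).symm
    _ ≤ wt k ^ m * b k := mul_le_mul_of_nonneg_right (wt_pow_ge k m) (hb k)

lemma conv_eval (f g : W) (k : ℤ) (θ : unitInterval) :
    HasSum (fun j => f j θ * g (k - j) θ) (conv f g k θ) := by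
  have h := (conv_row_summable' f g k).hasSum
  have h2 := h.mapL (ContinuousMap.evalCLM ℂ θ)
  rw [conv_apply]
  simpa [Function.comp_def] using h2

lemma wbd_conv (m : ℕ) (d K L : ℝ) (f g : W) (hf : WBd m d f K) (hg : WBd m d g L) :
    WBd m d (conv f g) (K * L) := by
  obtain ⟨b, hb0, hbf, hbK⟩ := hf
  obtain ⟨c, hc0, hcg, hcL⟩ := hg
  obtain ⟨sb1, sb, tb⟩ := sum_of_wb hb0 hbK
  obtain ⟨sc1, sc, tc⟩ := sum_of_wb hc0 hcL
  have hwb0 : ∀ k, 0 ≤ wt k ^ m * b k := fun k =>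
    mul_nonneg (le_trans zero_le_one (wt_pow_ge k m)) (hb0 k)
  have hwc0 : ∀ k, 0 ≤ wt k ^ m * c k := fun k =>
    mul_nonneg (le_trans zero_le_one (wt_pow_ge k m)) (hc0 k)
  have hK0 : 0 ≤ K := le_trans (tsum_nonneg hwb0) tb
  refine ⟨fun k => ∑' j, b j * c (k - j), ?_, ?_, ?_⟩
  · intro k
    exact tsum_nonneg fun j => mul_nonneg (hb0 _) (hc0 _)
  · intro k θ hθ
    have h1 := conv_row_summable sb sc hb0 hc0 k
    rw [← (conv_eval f g k θ).tsum_eq]
    refine tsum_of_norm_bounded h1.hasSum fun j => ?_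
    rw [norm_mul]
    exact mul_le_mul (hbf j θ hθ) (hcg (k - j) θ hθ) (norm_nonneg _) (hb0 _)
  · intro s
    have h1 := conv_sum_summable sb1 sc1 hwb0 hwc0
    have h2 := conv_tsum sb1 sc1 hwb0 hwc0
    have h3 : ∀ k, wt k ^ m * ∑' j, b j * c (k - j) ≤
        ∑' j, (wt j ^ m * b j) * (wt (k - j) ^ m * c (k - j)) := by
      intro k
      rw [← tsum_mul_left]
      refine Summable.tsum_le_tsum (fun j => ?_)
        ((conv_row_summable sb sc hb0 hc0 k).mul_left _)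
        (conv_row_summable sb1 sc1 hwb0 hwc0 k)
      have h4 := wt_mul_pow m k j
      have h5 : 0 ≤ b j * c (k - j) := mul_nonneg (hb0 _) (hc0 _)
      calc wt k ^ m * (b j * c (k - j)) ≤ (wt j ^ m * wt (k - j) ^ m) * (b j * c (k - j)) :=
            mul_le_mul_of_nonneg_right h4 h5
        _ = _ := by ring
    calc ∑ k ∈ s, wt k ^ m * ∑' j, b j * c (k - j)
        ≤ ∑ k ∈ s, ∑' j, (wt j ^ m * b j) * (wt (k - j) ^ m * c (k - j)) :=
          Finset.sum_le_sum fun k _ => h3 k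
      _ ≤ ∑' k, ∑' j, (wt j ^ m * b j) * (wt (k - j) ^ m * c (k - j)) :=
          h1.sum_le_tsum s fun k _ => tsum_nonneg fun j => mul_nonneg (hwb0 _) (hwc0 _)
      _ = (∑' k, wt k ^ m * b k) * ∑' k, wt k ^ m * c k := h2
      _ ≤ K * L := mul_le_mul tb tc (tsum_nonneg hwc0) hK0

lemma sym_conv (f g : W) (hf : Sym f) (hg : Sym g) : Sym (conv f g) := by
  intro k
  rw [conv_apply, conv_apply, tsum_star, ← (Equiv.neg ℤ).tsum_eq]
  refine tsum_congr fun j => ?_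
  have h1 : -k - -j = -(k - j) := by ring
  rw [Equiv.neg_apply, star_mul', ← hf j, ← hg (k - j), h1]

lemma conv_cst (a : A) (f : W) (k : ℤ) : conv (cst a) f k = a * f k := by
  rw [conv_apply, tsum_eq_single 0]
  · rw [sub_zero]
    congr 1
  · intro j hj
    have : cst a j = 0 := by
      simp [cst, hj]
    rw [this, zero_mul]

end WConvAux

/-- W1 -/
theorem wConv : WConv :=
  ⟨WConvAux.norm_conv, WConvAux.conv_add_left, WConvAux.conv_add_right, WConvAux.conv_sub_left,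
    WConvAux.conv_sub_right, WConvAux.wbd_conv, WConvAux.sym_conv, WConvAux.conv_cst⟩

end WN

end Pool.Agent.Work.MP_4a14ce_an

end

section

/-!
# W11a: the curve and its derivatives
-/

open Set MeasureTheory Topology Filter
open scoped ContDiff ENNReal

namespace Pool.Agent.Work.MP_4a14ce_an

namespace WN

namespace Cur

/-- the multiplier of the `j`-th derivative -/
noncomputable def cm (j : ℕ) (k : ℤ) : ℂ := (Complex.I * k) ^ j / (wt k : ℂ) ^ 3

lemma one_le_wt (k : ℤ) : 1 ≤ wt k := by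
  unfold wt
  have := abs_nonneg (k : ℝ)
  linarith

lemma abs_le_wt (k : ℤ) : |(k : ℝ)| ≤ wt k := by
  unfold wt
  linarith

lemma norm_wt (k : ℤ) : ‖(wt k : ℂ)‖ = wt k := by
  rw [Complex.norm_real, Real.norm_eq_abs, abs_of_nonneg (by linarith [one_le_wt k])]

lemma norm_cm (j : ℕ) (k : ℤ) : ‖cm j k‖ ≤ 1 * wt k ^ j := by
  unfold cm
  rw [norm_div, norm_pow, norm_pow, norm_mul, Complex.norm_I, one_mul, Complex.norm_intCast,
    norm_wt, one_mul]
  have h1 := one_le_wt k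
  have h2 : |(k : ℝ)| ^ j ≤ wt k ^ j := pow_le_pow_left₀ (abs_nonneg _) (abs_le_wt k) j
  have h3 : 1 ≤ wt k ^ 3 := one_le_pow₀ h1
  rw [div_le_iff₀ (by linarith)]
  have h4 : 0 ≤ wt k ^ j := by positivity
  nlinarith

lemma norm_I_mul (k : ℤ) : ‖(Complex.I * k : ℂ)‖ ≤ 1 * wt k ^ 1 := by
  rw [norm_mul, Complex.norm_I, one_mul, Complex.norm_intCast, one_mul, pow_one]
  exact abs_le_wt k

lemma mul_cm (h1 : WOpsA) (j : ℕ) {f : W} (hf : Rapid f) :
    (∀ k, mulW (cm j) f k = cm j k • f k) ∧ ∃ K, WBd 1 0 (mulW (cm j) f) K := by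
  obtain ⟨K, hK⟩ := hf (1 + j)
  obtain ⟨h2, h3⟩ := h1.2.1 (cm j) 1 j 1 f (norm_cm j) zero_le_one ⟨K, hK⟩
  exact ⟨h2, 1 * K, h3 0 K le_rfl hK⟩

lemma mul_succ (h1 : WOpsA) (j : ℕ) {f : W} (hf : Rapid f) :
    mulW (fun k => Complex.I * k) (mulW (cm j) f) = mulW (cm (j + 1)) f := by
  obtain ⟨h2, K, hK⟩ := mul_cm h1 j hf
  obtain ⟨h3, -⟩ := h1.2.1 (fun k => Complex.I * k) 0 1 1 (mulW (cm j) f) norm_I_mul zero_le_one
    ⟨K, by simpa using hK⟩
  refine ext_W fun k => ?_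
  rw [h3, h2, (mul_cm h1 (j + 1) hf).1, smul_smul]
  congr 1
  unfold cm
  rw [pow_succ]
  ring

end Cur

open Cur

theorem wCur (h1 : WOpsA) (h2 : WEvalA) (h3 : WEvalB) : WCur := by
  intro n U hU t
  have hd : ∀ (j : ℕ) (x : ℝ), HasDerivAt
      (fun y => (fun i => (E (mulW (cm j) (U i)) t y).re : V n))
      (fun i => (E (mulW (cm (j + 1)) (U i)) t x).re) x := by
    intro j x
    rw [hasDerivAt_pi]
    intro i
    have h4 := h3.1 (mulW (cm j) (U i)) t x (mul_cm h1 j (hU i)).2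
    rw [mul_succ h1 j (hU i)] at h4
    exact Complex.reCLM.hasFDerivAt.comp_hasDerivAt x h4
  have hit : ∀ j : ℕ, iteratedDeriv j (cur U t) =
      fun y => (fun i => (E (mulW (cm j) (U i)) t y).re : V n) := by
    intro j
    induction j with
    | zero => rw [iteratedDeriv_zero]; rfl
    | succ j ih =>
      rw [iteratedDeriv_succ, ih]
      funext x
      exact (hd j x).deriv
  refine ⟨?_, fun x => ?_, fun j x i => ?_⟩
  · refine contDiff_of_differentiable_iteratedDeriv fun m _ => ?_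
    rw [hit m]
    exact fun x => (hd m x).differentiableAt
  · funext i
    show (E (DD 0 (U i)) t (x + 2 * Real.pi)).re = (E (DD 0 (U i)) t x).re
    rw [(h2.1 (DD 0 (U i)) (DD 0 (U i)) t x).2.2.2.2.1]
  · rw [hit j]
    rfl

end WN

end Pool.Agent.Work.MP_4a14ce_an

end

section

/-!
# Group W, item W12: Fourier coefficients of the initial data
-/

open Set MeasureTheory Topology Filter
open scoped ContDiff ENNReal

namespace Pool.Agent.Work.MP_4a14ce_an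

namespace WN

theorem WData_coef (f : ℝ → ℂ) (k : ℤ) :
    fourierCoeffOn (Real.two_pi_pos) f k = fco f k := by
  rw [fourierCoeffOn_eq_integral, fco]
  have h1 : ∀ y : ℝ, (fourier (-k) (y : AddCircle (2 * Real.pi - 0)) : ℂ) • f y
      = Wien.ee y (-k) * f y := by
    intro y
    rw [smul_eq_mul, fourier_coe_apply]
    rw [Wien.ee]
    congr 2
    have hpi : (Real.pi : ℂ) ≠ 0 := by exact_mod_cast Real.pi_ne_zero
    push_cast
    rw [sub_zero]
    field_simp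
  simp_rw [h1]
  rw [Complex.real_smul]
  congr 1
  push_cast
  rw [one_div, sub_zero]

/-- Bessel's inequality. -/
theorem WData_bessel {f : ℝ → ℂ} (hf : Continuous f) (s : Finset ℤ) :
    ∑ k ∈ s, ‖fco f k‖ ^ 2 ≤ (2 * Real.pi)⁻¹ * ∫ x in (0 : ℝ)..(2 * Real.pi), ‖f x‖ ^ 2 := by
  have hL2 : MemLp f 2 (volume.restrict (Ioc 0 (2 * Real.pi))) := by
    obtain ⟨C, hC⟩ := (isCompact_Icc (a := (0 : ℝ)) (b := 2 * Real.pi)).exists_bound_of_continuousOn
      hf.continuousOn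
    refine MemLp.of_bound hf.aestronglyMeasurable C ?_
    refine (ae_restrict_iff' measurableSet_Ioc).2 (Eventually.of_forall fun x hx => ?_)
    exact hC x ⟨hx.1.le, hx.2⟩
  have h := hasSum_sq_fourierCoeffOn Real.two_pi_pos hL2
  have h2 := sum_le_hasSum s (fun _ _ => by positivity) h
  simp_rw [WData_coef] at h2
  rw [sub_zero, smul_eq_mul] at h2
  exact h2

/-- Real functions. -/
theorem WData_star (g : ℝ → ℝ) (k : ℤ) :
    fco (fun x => ((g x : ℝ) : ℂ)) (-k) = star (fco (fun x => ((g x : ℝ) : ℂ)) k) := by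
  rw [fco, fco, star_mul', ← starRingEnd_apply (∫ x in (0 : ℝ)..(2 * Real.pi), _),
    ← intervalIntegral.intervalIntegral_conj]
  congr 1
  · simp
  · congr 1
    funext x
    rw [map_mul, Complex.conj_ofReal, Wien.ee, Wien.ee, ← Complex.exp_conj]
    congr 2
    simp

/-- Decay of the coefficients. -/
theorem WData_decay {c d : ℂ} {k : ℤ} {M : ℝ} {m : ℕ} (h0 : ‖c‖ ≤ M) (h6 : ‖d‖ ≤ M)
    (hd : d = (Complex.I * k) ^ (m + 2) * c) :
    wt k ^ m * ‖c‖ ≤ 2 ^ (m + 2) * (2 * M) * (wt k ^ 2)⁻¹ := by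
  have hk : (0 : ℝ) ≤ |(k : ℝ)| := abs_nonneg _
  have h1 : |(k : ℝ)| ^ (m + 2) * ‖c‖ ≤ M := by
    rw [hd, norm_mul, norm_pow, norm_mul, Complex.norm_I, one_mul, Complex.norm_intCast] at h6
    exact h6
  have h2 : wt k ^ (m + 2) ≤ 2 ^ (m + 2) * (1 + |(k : ℝ)| ^ (m + 2)) := by
    have h3 := add_pow_le (zero_le_one) hk (m + 2)
    have h4 : (2 : ℝ) ^ (m + 2 - 1) ≤ 2 ^ (m + 2) :=
      pow_le_pow_right₀ (by norm_num) (by omega)
    calc wt k ^ (m + 2) ≤ 2 ^ (m + 2 - 1) * (1 ^ (m + 2) + |(k : ℝ)| ^ (m + 2)) := h3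
      _ ≤ 2 ^ (m + 2) * (1 ^ (m + 2) + |(k : ℝ)| ^ (m + 2)) := by
          refine mul_le_mul_of_nonneg_right h4 (by positivity)
      _ = _ := by rw [one_pow]
  have h3 : wt k ^ (m + 2) * ‖c‖ ≤ 2 ^ (m + 2) * (2 * M) := by
    calc wt k ^ (m + 2) * ‖c‖ ≤ 2 ^ (m + 2) * (1 + |(k : ℝ)| ^ (m + 2)) * ‖c‖ :=
          mul_le_mul_of_nonneg_right h2 (norm_nonneg _)
      _ = 2 ^ (m + 2) * (‖c‖ + |(k : ℝ)| ^ (m + 2) * ‖c‖) := by ring
      _ ≤ 2 ^ (m + 2) * (2 * M) := by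
          refine mul_le_mul_of_nonneg_left (by linarith) (by positivity)
  have hpos : (0 : ℝ) < wt k ^ 2 := by unfold wt; positivity
  rw [← div_eq_mul_inv, le_div_iff₀ hpos]
  calc wt k ^ m * ‖c‖ * wt k ^ 2 = wt k ^ (m + 2) * ‖c‖ := by ring
    _ ≤ _ := h3

/-- The weighted bound from four derivatives in the mean square. -/
theorem WData_three {c d : ℂ} {k : ℤ} {Q : ℝ} (h0 : ‖c‖ ≤ Q)
    (hd : d = (Complex.I * k) ^ 4 * c) :
    wt k ^ 3 * ‖c‖ ≤ 4 * ‖d‖ ^ 2 + (16 + Q) * (wt k ^ 2)⁻¹ := by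
  have hQ : 0 ≤ Q := (norm_nonneg _).trans h0
  rcases eq_or_ne k 0 with rfl | hk
  · have : wt 0 = 1 := by simp [wt]
    rw [this]
    have := sq_nonneg ‖d‖
    norm_num
    linarith
  · have hk1 : (1 : ℝ) ≤ |(k : ℝ)| := by
      have : (1 : ℤ) ≤ |k| := Int.one_le_abs hk
      exact_mod_cast this
    have hkp : (0 : ℝ) < |(k : ℝ)| := by linarith
    have hw : wt k ≤ 2 * |(k : ℝ)| := by unfold wt; linarith
    have hwp : 0 < wt k := by unfold wt; positivity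
    have h1 : |(k : ℝ)| ^ 4 * ‖c‖ = ‖d‖ := by
      rw [hd, norm_mul, norm_pow, norm_mul, Complex.norm_I, one_mul, Complex.norm_intCast]
    have h2 : wt k ^ 3 * ‖c‖ ≤ 8 * (|(k : ℝ)|⁻¹ * ‖d‖) := by
      calc wt k ^ 3 * ‖c‖ ≤ (2 * |(k : ℝ)|) ^ 3 * ‖c‖ := by
            refine mul_le_mul_of_nonneg_right (pow_le_pow_left₀ hwp.le hw 3) (norm_nonneg _)
        _ = 8 * (|(k : ℝ)|⁻¹ * (|(k : ℝ)| ^ 4 * ‖c‖)) := by
            field_simp
            ring
        _ = _ := by rw [h1]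
    have h3 : |(k : ℝ)|⁻¹ ≤ 2 * (wt k)⁻¹ := by
      rw [← div_eq_mul_inv, le_div_iff₀ hwp, inv_mul_le_iff₀ hkp]
      linarith
    have h4 : |(k : ℝ)|⁻¹ ^ 2 ≤ 4 * (wt k ^ 2)⁻¹ := by
      calc |(k : ℝ)|⁻¹ ^ 2 ≤ (2 * (wt k)⁻¹) ^ 2 := pow_le_pow_left₀ (by positivity) h3 2
        _ = 4 * (wt k ^ 2)⁻¹ := by rw [mul_pow, inv_pow]; norm_num
    have h5 : 0 ≤ Q * (wt k ^ 2)⁻¹ := by positivity
    have h6 := sq_nonneg (|(k : ℝ)|⁻¹ - ‖d‖)
    nlinarith [h2, h4, h5, h6]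

/-- One component of a continuous vector function. -/
theorem WData_comp {n : ℕ} {w : ℝ → V n} (hw : ∀ j, Continuous fun x => w x j)
    (i : Fin (n + 1)) :
    ∫ x in (0 : ℝ)..(2 * Real.pi), ‖((w x i : ℝ) : ℂ)‖ ^ 2 ≤ per (fun x => nsq (w x)) := by
  have h1 : Continuous fun x => ‖((w x i : ℝ) : ℂ)‖ ^ 2 :=
    (Complex.continuous_ofReal.comp (hw i)).norm.pow 2
  have h2 : Continuous fun x => nsq (w x) := continuous_finsetSum _ fun j _ => (hw j).pow 2
  refine intervalIntegral.integral_mono_on Real.two_pi_pos.le (h1.intervalIntegrable _ _)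
    (h2.intervalIntegrable _ _) ?_
  intro x _
  rw [Complex.norm_real, Real.norm_eq_abs, sq_abs]
  exact Finset.single_le_sum (f := fun j => w x j ^ 2)
    (fun j _ => sq_nonneg _) (Finset.mem_univ i)

/-- W12. -/
theorem wData : WData := by
  intro n R
  refine ⟨4 * |R| + (17 + |R|) * ∑' k : ℤ, (wt k ^ 2)⁻¹, ?_⟩
  intro u0 hu hper hbd hL
  have hS : Summable fun k : ℤ => (wt k ^ 2)⁻¹ := SFou_summable
  have hSs : ∀ s : Finset ℤ, ∑ k ∈ s, (wt k ^ 2)⁻¹ ≤ ∑' k : ℤ, (wt k ^ 2)⁻¹ := fun s =>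
    hS.sum_le_tsum s (fun k _ => by unfold wt; positivity)
  have hS0 : 0 ≤ ∑' k : ℤ, (wt k ^ 2)⁻¹ := by simpa using hSs ∅
  have hc : ∀ i (k : ℤ) (j : ℕ),
      fco (fun x => ((iteratedDeriv j u0 x i : ℝ) : ℂ)) k
        = (Complex.I * k) ^ j * fco (fun x => ((u0 x i : ℝ) : ℂ)) k := fun i k j =>
    SFou_fco_iter hu hper i k j
  -- decay of every order
  have hdec : ∀ (m : ℕ) (i : Fin (n + 1)), ∃ K : ℝ, ∀ s : Finset ℤ,
      ∑ k ∈ s, wt k ^ m * ‖fco (fun x => ((u0 x i : ℝ) : ℂ)) k‖ ≤ K := by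
    intro m i
    obtain ⟨M0, h0⟩ := SFou_bdd (SFou_continuous_iter hu 0 i) (SFou_periodic_iter hper 0 i)
    obtain ⟨M1, h1⟩ := SFou_bdd (SFou_continuous_iter hu (m + 2) i)
      (SFou_periodic_iter hper (m + 2) i)
    simp only [iteratedDeriv_zero] at h0
    refine ⟨2 ^ (m + 2) * (2 * max M0 M1) * ∑' k : ℤ, (wt k ^ 2)⁻¹, fun s => ?_⟩
    have hM : 0 ≤ max M0 M1 := (norm_nonneg _).trans ((h0 0).trans (le_max_left _ _))
    calc ∑ k ∈ s, wt k ^ m * ‖fco (fun x => ((u0 x i : ℝ) : ℂ)) k‖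
        ≤ ∑ k ∈ s, 2 ^ (m + 2) * (2 * max M0 M1) * (wt k ^ 2)⁻¹ := by
          refine Finset.sum_le_sum fun k _ => ?_
          exact WData_decay ((SFou_fco_le h0 k).trans (le_max_left _ _))
            ((SFou_fco_le h1 k).trans (le_max_right _ _)) (hc i k (m + 2))
      _ = 2 ^ (m + 2) * (2 * max M0 M1) * ∑ k ∈ s, (wt k ^ 2)⁻¹ := by rw [Finset.mul_sum]
      _ ≤ _ := mul_le_mul_of_nonneg_left (hSs s) (by positivity)
  refine ⟨fun i k => fco (fun x => ((u0 x i : ℝ) : ℂ)) k, ?_, ?_, ?_, ?_⟩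
  · intro i k
    exact WData_star _ k
  · intro i s
    have hb0 : ∀ x, ‖((u0 x i : ℝ) : ℂ)‖ ≤ 1 + |R| := by
      intro x
      rw [Complex.norm_real, Real.norm_eq_abs]
      have h1 : u0 x i ^ 2 ≤ nsq (u0 x) :=
        Finset.single_le_sum (f := fun j => u0 x j ^ 2) (fun j _ => sq_nonneg _)
          (Finset.mem_univ i)
      have h2 : u0 x i ^ 2 ≤ |R| := h1.trans ((hbd x).trans (le_abs_self R))
      have h3 := abs_nonneg (u0 x i)
      rw [← sq_abs] at h2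
      nlinarith [sq_nonneg (|u0 x i| - 1), abs_nonneg R]
    have hb4 : ∑ k ∈ s, ‖fco (fun x => ((iteratedDeriv 4 u0 x i : ℝ) : ℂ)) k‖ ^ 2 ≤ |R| := by
      refine (WData_bessel (SFou_continuous_iter hu 4 i) s).trans ?_
      have h1 : ∫ x in (0 : ℝ)..(2 * Real.pi), ‖((iteratedDeriv 4 u0 x i : ℝ) : ℂ)‖ ^ 2
          ≤ per (fun x => nsq (iteratedDeriv 4 u0 x)) := by
        have hcont : ∀ j, Continuous fun x => iteratedDeriv 4 u0 x j := fun j =>
          Complex.continuous_re.comp (SFou_continuous_iter hu 4 j)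
        exact WData_comp hcont i
      have h2 : (2 * Real.pi)⁻¹ ≤ 1 := by
        apply inv_le_one_of_one_le₀
        nlinarith [Real.pi_gt_three]
      have h3 : (0 : ℝ) ≤ (2 * Real.pi)⁻¹ := by positivity
      calc (2 * Real.pi)⁻¹ *
          ∫ x in (0 : ℝ)..(2 * Real.pi), ‖((iteratedDeriv 4 u0 x i : ℝ) : ℂ)‖ ^ 2
          ≤ (2 * Real.pi)⁻¹ * |R| :=
            mul_le_mul_of_nonneg_left (h1.trans (hL.trans (le_abs_self R))) h3
        _ ≤ 1 * |R| := mul_le_mul_of_nonneg_right h2 (abs_nonneg R)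
        _ = |R| := one_mul _
    calc ∑ k ∈ s, wt k ^ 3 * ‖fco (fun x => ((u0 x i : ℝ) : ℂ)) k‖
        ≤ ∑ k ∈ s, (4 * ‖fco (fun x => ((iteratedDeriv 4 u0 x i : ℝ) : ℂ)) k‖ ^ 2
            + (16 + (1 + |R|)) * (wt k ^ 2)⁻¹) := by
          refine Finset.sum_le_sum fun k _ => ?_
          exact WData_three (SFou_fco_le hb0 k) (hc i k 4)
      _ = 4 * ∑ k ∈ s, ‖fco (fun x => ((iteratedDeriv 4 u0 x i : ℝ) : ℂ)) k‖ ^ 2
            + (17 + |R|) * ∑ k ∈ s, (wt k ^ 2)⁻¹ := by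
          rw [Finset.sum_add_distrib, ← Finset.mul_sum, ← Finset.mul_sum]
          ring
      _ ≤ _ := by
          have h1 := hSs s
          have h2 : 0 ≤ 17 + |R| := by positivity
          have h3 := mul_le_mul_of_nonneg_left h1 h2
          linarith
  · intro m
    choose K hK using hdec m
    refine ⟨∑ i, |K i|, fun i s => ?_⟩
    refine (hK i s).trans ((le_abs_self _).trans ?_)
    exact Finset.single_le_sum (f := fun i => |K i|) (fun j _ => abs_nonneg _) (Finset.mem_univ i)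
  · intro x i
    have hsum : Summable fun k => fco (fun x => ((u0 x i : ℝ) : ℂ)) k := by
      obtain ⟨K, hK⟩ := hdec 0 i
      refine Summable.of_norm (summable_of_sum_le (fun _ => norm_nonneg _) (c := K) fun s => ?_)
      simpa using hK s
    have hcont := SFou_continuous_iter hu 0 i
    have hp := SFou_periodic_iter hper 0 i
    simp only [iteratedDeriv_zero] at hcont hp
    have h := SFou_inv hcont hp hsum x
    refine h.congr_fun ?_
    intro k
    rw [Wien.ee, mul_comm]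

end WN

end Pool.Agent.Work.MP_4a14ce_an

end

section

/-!
# Group W, item W5a: single coefficients
-/

open Set MeasureTheory Topology Filter
open scoped ContDiff ENNReal

namespace Pool.Agent.Work.MP_4a14ce_an

namespace WN

lemma wDuhA_apply (T : ℝ) (k : ℤ) (g : A) (θ : unitInterval) :
    duhK T k g θ = ((T * Real.exp (-(2 * T * (k : ℝ) ^ 4 * θ)) : ℝ) : ℂ) *
      ∫ r in (0 : ℝ)..θ, ((Real.exp (2 * T * (k : ℝ) ^ 4 * r) : ℝ) : ℂ) * ex g r := rfl

lemma wDuhA_ex_le (g : A) (r : ℝ) : ‖ex g r‖ ≤ ‖g‖ := g.norm_coe_le_norm _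

lemma wDuhA_cont (a : ℝ) (g : A) :
    Continuous fun r : ℝ => ((Real.exp (a * r) : ℝ) : ℂ) * ex g r := by
  have := ex_continuous g
  fun_prop

lemma wDuhA_norm1 {T : ℝ} (hT : 0 ≤ T) (k : ℤ) (g : A) : ‖duhK T k g‖ ≤ T * ‖g‖ := by
  rw [ContinuousMap.norm_le _ (by positivity)]
  intro θ
  rw [wDuhA_apply]
  set a : ℝ := 2 * T * (k : ℝ) ^ 4 with ha
  have ha0 : 0 ≤ a := by positivity
  have h1 : ‖∫ r in (0 : ℝ)..θ, ((Real.exp (a * r) : ℝ) : ℂ) * ex g r‖ ≤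
      (Real.exp (a * θ) * ‖g‖) * |(θ : ℝ) - 0| := by
    apply intervalIntegral.norm_integral_le_of_norm_le_const
    intro r hr
    rw [uIoc_of_le θ.2.1] at hr
    rw [norm_mul, Complex.norm_real, Real.norm_eq_abs, Real.abs_exp]
    apply mul_le_mul _ (wDuhA_ex_le g r) (norm_nonneg _) (Real.exp_nonneg _)
    exact Real.exp_le_exp.mpr (mul_le_mul_of_nonneg_left hr.2 ha0)
  rw [norm_mul, Complex.norm_real, Real.norm_eq_abs,
    abs_of_nonneg (mul_nonneg hT (Real.exp_nonneg _))]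
  have h2 : |(θ : ℝ) - 0| ≤ 1 := by
    rw [sub_zero, abs_of_nonneg θ.2.1]
    exact θ.2.2
  calc T * Real.exp (-(a * θ)) * ‖∫ r in (0 : ℝ)..θ, ((Real.exp (a * r) : ℝ) : ℂ) * ex g r‖
      ≤ T * Real.exp (-(a * θ)) * ((Real.exp (a * θ) * ‖g‖) * 1) := by
        apply mul_le_mul_of_nonneg_left _ (by positivity)
        exact h1.trans (mul_le_mul_of_nonneg_left h2 (by positivity))
    _ = T * ‖g‖ * (Real.exp (-(a * θ)) * Real.exp (a * θ)) := by ring
    _ = T * ‖g‖ := by rw [← Real.exp_add, neg_add_cancel, Real.exp_zero, mul_one]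

lemma wDuhA_norm2 {T : ℝ} (hT : 0 < T) {k : ℤ} (hk : k ≠ 0) (g : A) :
    ‖duhK T k g‖ ≤ ‖g‖ / (2 * (k : ℝ) ^ 4) := by
  have hk4 : (0 : ℝ) < (k : ℝ) ^ 4 := by
    have : (k : ℝ) ≠ 0 := by exact_mod_cast hk
    positivity
  rw [ContinuousMap.norm_le _ (by positivity)]
  intro θ
  rw [wDuhA_apply]
  set a : ℝ := 2 * T * (k : ℝ) ^ 4 with ha
  have ha0 : 0 < a := by positivity
  have hc : Continuous fun r : ℝ => Real.exp (a * r) * ‖g‖ := by fun_prop
  have h1 : ‖∫ r in (0 : ℝ)..θ, ((Real.exp (a * r) : ℝ) : ℂ) * ex g r‖ ≤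
      ∫ r in (0 : ℝ)..θ, Real.exp (a * r) * ‖g‖ := by
    apply intervalIntegral.norm_integral_le_of_norm_le θ.2.1 _ (hc.intervalIntegrable _ _)
    refine Filter.Eventually.of_forall fun r _ => ?_
    rw [norm_mul, Complex.norm_real, Real.norm_eq_abs, Real.abs_exp]
    exact mul_le_mul_of_nonneg_left (wDuhA_ex_le g r) (Real.exp_nonneg _)
  have h2 : ∫ r in (0 : ℝ)..θ, Real.exp (a * r) * ‖g‖ =
      Real.exp (a * θ) / a * ‖g‖ - Real.exp (a * 0) / a * ‖g‖ := by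
    refine intervalIntegral.integral_eq_sub_of_hasDerivAt
      (f := fun r : ℝ => Real.exp (a * r) / a * ‖g‖) (f' := fun r : ℝ => Real.exp (a * r) * ‖g‖)
      ?_ ?_
    · intro r _
      have e1 : HasDerivAt (fun r : ℝ => a * r) a r := by
        simpa using (hasDerivAt_id r).const_mul a
      have e2 := (e1.exp.div_const a).mul_const ‖g‖
      have e3 : Real.exp (a * r) * a / a * ‖g‖ = Real.exp (a * r) * ‖g‖ := by
        field_simp
      rwa [e3] at e2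
    · exact hc.intervalIntegrable _ _
  rw [h2] at h1
  rw [norm_mul, Complex.norm_real, Real.norm_eq_abs,
    abs_of_nonneg (mul_nonneg hT.le (Real.exp_nonneg _))]
  calc T * Real.exp (-(a * θ)) * ‖∫ r in (0 : ℝ)..θ, ((Real.exp (a * r) : ℝ) : ℂ) * ex g r‖
      ≤ T * Real.exp (-(a * θ)) * (Real.exp (a * θ) / a * ‖g‖) := by
        apply mul_le_mul_of_nonneg_left _ (by positivity)
        refine h1.trans ?_
        have : 0 ≤ Real.exp (a * 0) / a * ‖g‖ := by positivity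
        linarith
    _ = T / a * ‖g‖ * (Real.exp (-(a * θ)) * Real.exp (a * θ)) := by ring
    _ = T / a * ‖g‖ := by rw [← Real.exp_add, neg_add_cancel, Real.exp_zero, mul_one]
    _ = ‖g‖ / (2 * (k : ℝ) ^ 4) := by
        rw [ha]
        field_simp

lemma wDuhA_wt_pos (k : ℤ) : 0 < wt k := by
  unfold wt
  positivity

lemma wDuhA_wt_le {k : ℤ} (hk : k ≠ 0) : wt k ^ 3 ≤ 8 * |(k : ℝ)| ^ 3 := by
  have h1 : (1 : ℝ) ≤ |(k : ℝ)| := by
    rw [← Int.cast_abs]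
    exact_mod_cast Int.one_le_abs hk
  have h2 : wt k ≤ 2 * |(k : ℝ)| := by
    unfold wt
    linarith
  calc wt k ^ 3 ≤ (2 * |(k : ℝ)|) ^ 3 := pow_le_pow_left₀ (wDuhA_wt_pos k).le h2 3
    _ = 8 * |(k : ℝ)| ^ 3 := by ring

lemma wDuhA_one (τ : ℝ) (k : ℤ) (g : A) (h0 : 0 ≤ τ) (h1 : τ ≤ 1) :
    ‖((wt k ^ 3 : ℝ) : ℂ) • duhK (τ ^ 4) k g‖ ≤ 8 * τ * ‖g‖ := by
  rw [norm_smul, Complex.norm_real, Real.norm_eq_abs,
    abs_of_nonneg (pow_nonneg (wDuhA_wt_pos k).le 3)]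
  have hb1 := wDuhA_norm1 (T := τ ^ 4) (by positivity) k g
  by_cases hk : k = 0
  · subst hk
    have hw : wt 0 = 1 := by simp [wt]
    rw [hw, one_pow, one_mul]
    refine hb1.trans ?_
    apply mul_le_mul_of_nonneg_right _ (norm_nonneg g)
    have : τ ^ 4 ≤ τ := by
      have := pow_le_of_le_one h0 h1 (n := 4) (by norm_num)
      exact this
    linarith
  · have hwt := wDuhA_wt_le hk
    have hk1 : (1 : ℝ) ≤ |(k : ℝ)| := by
      rw [← Int.cast_abs]
      exact_mod_cast Int.one_le_abs hk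
    by_cases hτ : |(k : ℝ)| * τ ≤ 1
    · calc wt k ^ 3 * ‖duhK (τ ^ 4) k g‖ ≤ (8 * |(k : ℝ)| ^ 3) * (τ ^ 4 * ‖g‖) :=
            mul_le_mul hwt hb1 (norm_nonneg _) (by positivity)
        _ = 8 * τ * ((|(k : ℝ)| * τ) ^ 3) * ‖g‖ := by ring
        _ ≤ 8 * τ * 1 * ‖g‖ := by
            apply mul_le_mul_of_nonneg_right _ (norm_nonneg g)
            apply mul_le_mul_of_nonneg_left _ (by positivity)
            exact pow_le_one₀ (by positivity) hτ
        _ = 8 * τ * ‖g‖ := by ring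
    · push Not at hτ
      have hτ0 : 0 < τ := by
        rcases h0.eq_or_lt with h | h
        · rw [← h, mul_zero] at hτ
          linarith
        · exact h
      have hb2 := wDuhA_norm2 (T := τ ^ 4) (by positivity) hk g
      calc wt k ^ 3 * ‖duhK (τ ^ 4) k g‖ ≤ (8 * |(k : ℝ)| ^ 3) * (‖g‖ / (2 * (k : ℝ) ^ 4)) :=
            mul_le_mul hwt hb2 (norm_nonneg _) (by positivity)
        _ = 4 / |(k : ℝ)| * ‖g‖ := by
            have h4 : (k : ℝ) ^ 4 = |(k : ℝ)| ^ 4 := by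
              rw [← abs_pow, abs_of_nonneg (by positivity)]
            have hne : |(k : ℝ)| ≠ 0 := by positivity
            rw [h4]
            field_simp
            ring
        _ ≤ 8 * τ * ‖g‖ := by
            apply mul_le_mul_of_nonneg_right _ (norm_nonneg g)
            rw [div_le_iff₀ (by linarith)]
            nlinarith

lemma wDuhA_sub (T : ℝ) (k : ℤ) (g h : A) : duhK T k (g - h) = duhK T k g - duhK T k h := by
  ext θ
  rw [ContinuousMap.sub_apply, wDuhA_apply, wDuhA_apply, wDuhA_apply, ← mul_sub,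
    ← intervalIntegral.integral_sub ((wDuhA_cont _ g).intervalIntegrable _ _)
      ((wDuhA_cont _ h).intervalIntegrable _ _)]
  congr 1
  apply intervalIntegral.integral_congr
  intro r _
  show _ * (ex g r - ex h r) = _
  ring

lemma wDuhA_neg4 (k : ℤ) : (((-k : ℤ) : ℝ)) ^ 4 = (k : ℝ) ^ 4 := by
  push_cast
  ring

lemma wDuhA_star (T : ℝ) (k : ℤ) (g : A) : star (duhK T k g) = duhK T (-k) (star g) := by
  ext θ
  rw [ContinuousMap.star_apply, wDuhA_apply, wDuhA_apply, wDuhA_neg4, star_mul']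
  congr 1
  · exact Complex.conj_ofReal _
  · rw [intervalIntegral.integral_of_le θ.2.1, intervalIntegral.integral_of_le θ.2.1]
    change (starRingEnd ℂ) _ = _
    rw [← integral_conj]
    congr 1
    funext r
    rw [map_mul, Complex.conj_ofReal]
    rfl

lemma wDuhA_free (T : ℝ) (k : ℤ) (c : ℂ) (hT : 0 ≤ T) : ‖freeK T k c‖ ≤ ‖c‖ ∧
    star (freeK T k c) = freeK T (-k) (star c) := by
  constructor
  · rw [ContinuousMap.norm_le _ (norm_nonneg c)]
    intro θ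
    show ‖((Real.exp (-(2 * T * (k : ℝ) ^ 4 * θ)) : ℝ) : ℂ) * c‖ ≤ ‖c‖
    rw [norm_mul, Complex.norm_real, Real.norm_eq_abs, Real.abs_exp]
    have h1 : Real.exp (-(2 * T * (k : ℝ) ^ 4 * θ)) ≤ 1 := by
      rw [Real.exp_le_one_iff]
      have : 0 ≤ 2 * T * (k : ℝ) ^ 4 * θ := mul_nonneg (by positivity) θ.2.1
      linarith
    exact mul_le_of_le_one_left (norm_nonneg c) h1
  · ext θ
    rw [ContinuousMap.star_apply]
    show star (((Real.exp (-(2 * T * (k : ℝ) ^ 4 * θ)) : ℝ) : ℂ) * c) =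
      ((Real.exp (-(2 * T * ((-k : ℤ) : ℝ) ^ 4 * θ)) : ℝ) : ℂ) * star c
    rw [wDuhA_neg4, star_mul']
    congr 1
    exact Complex.conj_ofReal _

lemma wDuhA_ex_eq (T : ℝ) (k : ℤ) (g : A) {t : ℝ} (ht : t ∈ Icc (0 : ℝ) 1) :
    ex (duhK T k g) t = ((T * Real.exp (-(2 * T * (k : ℝ) ^ 4 * t)) : ℝ) : ℂ) *
      ∫ r in (0 : ℝ)..t, ((Real.exp (2 * T * (k : ℝ) ^ 4 * r) : ℝ) : ℂ) * ex g r := by
  have h : projIcc (0 : ℝ) 1 zero_le_one t = ⟨t, ht⟩ := projIcc_of_mem _ ht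
  unfold ex
  rw [h]
  rfl

lemma wDuhA_deriv (T : ℝ) (k : ℤ) (g : A) {t : ℝ} (ht : t ∈ Icc (0 : ℝ) 1) :
    HasDerivWithinAt (ex (duhK T k g))
      (-(2 * T * (k : ℝ) ^ 4 : ℝ) * ex (duhK T k g) t + T * ex g t) (Icc 0 1) t := by
  set a : ℝ := 2 * T * (k : ℝ) ^ 4 with ha
  have hc := wDuhA_cont a g
  have h1 : HasDerivAt (fun t : ℝ => ∫ r in (0 : ℝ)..t, ((Real.exp (a * r) : ℝ) : ℂ) * ex g r)
      (((Real.exp (a * t) : ℝ) : ℂ) * ex g t) t :=
    intervalIntegral.integral_hasDerivAt_right (hc.intervalIntegrable _ _)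
      (hc.stronglyMeasurableAtFilter _ _) hc.continuousAt
  have h2 : HasDerivAt (fun t : ℝ => T * Real.exp (-(a * t))) (T * (Real.exp (-(a * t)) * (-a)))
      t := by
    have e1 : HasDerivAt (fun r : ℝ => -(a * r)) (-a) t := by
      have e0 := (hasDerivAt_id' t).const_mul a
      rw [mul_one] at e0
      exact e0.neg
    exact e1.exp.const_mul T
  have h3 : HasDerivAt (fun t : ℝ => ((T * Real.exp (-(a * t)) : ℝ) : ℂ))
      ((T * (Real.exp (-(a * t)) * (-a)) : ℝ) : ℂ) t := h2.ofReal_comp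
  have h4 := (h3.mul h1).hasDerivWithinAt (s := Icc (0 : ℝ) 1)
  have h5 : HasDerivWithinAt (ex (duhK T k g))
      (((T * (Real.exp (-(a * t)) * (-a)) : ℝ) : ℂ) *
        (∫ r in (0 : ℝ)..t, ((Real.exp (a * r) : ℝ) : ℂ) * ex g r) +
        ((T * Real.exp (-(a * t)) : ℝ) : ℂ) * (((Real.exp (a * t) : ℝ) : ℂ) * ex g t))
      (Icc 0 1) t := by
    refine h4.congr (fun s hs => ?_) ?_
    · rw [wDuhA_ex_eq T k g hs]
      rfl
    · rw [wDuhA_ex_eq T k g ht]
      rfl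
  refine h5.congr_deriv ?_
  rw [wDuhA_ex_eq T k g ht, ← ha]
  have h6 : ((T * Real.exp (-(a * t)) : ℝ) : ℂ) * (((Real.exp (a * t) : ℝ) : ℂ) * ex g t) =
      T * ex g t := by
    rw [← mul_assoc, ← Complex.ofReal_mul, mul_assoc T, ← Real.exp_add, neg_add_cancel,
      Real.exp_zero, mul_one]
  rw [h6]
  push_cast
  ring

/-- W5a. -/
theorem wDuhA : WDuhA := by
  refine ⟨wDuhA_one, wDuhA_sub, wDuhA_star, wDuhA_free, ?_, ?_⟩
  · intro T k g
    refine ⟨?_, fun t ht => wDuhA_deriv T k g ht⟩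
    rw [wDuhA_ex_eq T k g ⟨le_refl _, zero_le_one⟩, intervalIntegral.integral_same, mul_zero]
  · intro T k c
    have he : ∀ t ∈ Icc (0 : ℝ) 1, ex (freeK T k c) t =
        ((Real.exp (-(2 * T * (k : ℝ) ^ 4 * t)) : ℝ) : ℂ) * c := by
      intro t ht
      have h : projIcc (0 : ℝ) 1 zero_le_one t = ⟨t, ht⟩ := projIcc_of_mem _ ht
      unfold ex
      rw [h]
      rfl
    refine ⟨?_, ?_⟩
    · rw [he 0 ⟨le_refl _, zero_le_one⟩]
      simp
    · intro t ht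
      have e1 : HasDerivAt (fun r : ℝ => -(2 * T * (k : ℝ) ^ 4 * r)) (-(2 * T * (k : ℝ) ^ 4)) t := by
        have e0 := (hasDerivAt_id' t).const_mul (2 * T * (k : ℝ) ^ 4)
        rw [mul_one] at e0
        exact e0.neg
      have e2 : HasDerivAt (fun r : ℝ => ((Real.exp (-(2 * T * (k : ℝ) ^ 4 * r)) : ℝ) : ℂ))
          ((Real.exp (-(2 * T * (k : ℝ) ^ 4 * t)) * (-(2 * T * (k : ℝ) ^ 4)) : ℝ) : ℂ) t :=
        e1.exp.ofReal_comp
      have e3 := (e2.mul_const c).hasDerivWithinAt (s := Icc (0 : ℝ) 1)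
      have e4 := e3.congr (f₁ := ex (freeK T k c)) he (he t ht)
      refine e4.congr_deriv ?_
      rw [he t ht]
      push_cast
      ring

end WN

end Pool.Agent.Work.MP_4a14ce_an

end

section

/-!
# Group W, item W5b: restarting at a later time
-/

open Set MeasureTheory Topology Filter
open scoped ContDiff ENNReal

namespace Pool.Agent.Work.MP_4a14ce_an

namespace WN

lemma wDuhB_apply (T : ℝ) (k : ℤ) (g : A) (θ : unitInterval) :
    duhK T k g θ = ((T * Real.exp (-(2 * T * (k : ℝ) ^ 4 * θ)) : ℝ) : ℂ) *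
      ∫ r in (0 : ℝ)..θ, ((Real.exp (2 * T * (k : ℝ) ^ 4 * r) : ℝ) : ℂ) * ex g r := rfl

lemma wDuhB_free (T : ℝ) (k : ℤ) (c : ℂ) (θ : unitInterval) :
    freeK T k c θ = ((Real.exp (-(2 * T * (k : ℝ) ^ 4 * θ)) : ℝ) : ℂ) * c := rfl

lemma wDuhB_cont (a : ℝ) (g : A) :
    Continuous fun r : ℝ => ((Real.exp (a * r) : ℝ) : ℂ) * ex g r := by
  have := ex_continuous g
  fun_prop

/-- The restarted formula. -/
lemma wDuhB_split (T : ℝ) (k : ℤ) (g : A) (c : ℂ) (θ₀ θ : unitInterval) :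
    freeK T k c θ + duhK T k g θ =
      ((Real.exp (-(2 * T * (k : ℝ) ^ 4 * (θ - θ₀))) : ℝ) : ℂ) *
        (freeK T k c θ₀ + duhK T k g θ₀) +
      ((T * Real.exp (-(2 * T * (k : ℝ) ^ 4 * θ)) : ℝ) : ℂ) *
      ∫ r in (θ₀ : ℝ)..θ, ((Real.exp (2 * T * (k : ℝ) ^ 4 * r) : ℝ) : ℂ) * ex g r := by
  rw [wDuhB_apply, wDuhB_apply, wDuhB_free, wDuhB_free]
  set a : ℝ := 2 * T * (k : ℝ) ^ 4 with ha
  have hc := wDuhB_cont a g
  rw [← intervalIntegral.integral_add_adjacent_intervals (a := (0 : ℝ)) (b := (θ₀ : ℝ))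
    (c := (θ : ℝ)) (hc.intervalIntegrable _ _) (hc.intervalIntegrable _ _)]
  have h1 : Real.exp (-(a * θ)) = Real.exp (-(a * ((θ : ℝ) - θ₀))) * Real.exp (-(a * θ₀)) := by
    rw [← Real.exp_add]
    congr 1
    ring
  have h2 : ((Real.exp (-(a * θ)) : ℝ) : ℂ) =
      ((Real.exp (-(a * ((θ : ℝ) - θ₀))) : ℝ) : ℂ) * ((Real.exp (-(a * θ₀)) : ℝ) : ℂ) := by
    rw [← Complex.ofReal_mul, ← h1]
  have h3 : ((T * Real.exp (-(a * θ)) : ℝ) : ℂ) = (T : ℂ) * ((Real.exp (-(a * θ)) : ℝ) : ℂ) := by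
    rw [← Complex.ofReal_mul]
  have h4 : ((T * Real.exp (-(a * θ₀)) : ℝ) : ℂ) = (T : ℂ) * ((Real.exp (-(a * θ₀)) : ℝ) : ℂ) := by
    rw [← Complex.ofReal_mul]
  rw [h3, h4, mul_add ((T : ℂ) * ((Real.exp (-(a * θ)) : ℝ) : ℂ))]
  generalize (∫ r in (θ₀ : ℝ)..θ, ((Real.exp (a * r) : ℝ) : ℂ) * ex g r) = J
  generalize (∫ r in (0 : ℝ)..θ₀, ((Real.exp (a * r) : ℝ) : ℂ) * ex g r) = I
  rw [h2]
  ring

lemma wDuhB_tail {T d b : ℝ} (k : ℤ) (g : A) (θ₀ θ : unitInterval) (hT : 0 < T) (hT1 : T ≤ 1)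
    (hd : (θ₀ : ℝ) = d) (hb : 0 ≤ b) (hg : ∀ θ : unitInterval, d ≤ θ → ‖g θ‖ ≤ b)
    (hθ : d ≤ θ) :
    ‖((T * Real.exp (-(2 * T * (k : ℝ) ^ 4 * θ)) : ℝ) : ℂ) *
      ∫ r in (θ₀ : ℝ)..θ, ((Real.exp (2 * T * (k : ℝ) ^ 4 * r) : ℝ) : ℂ) * ex g r‖ ≤
      16 * b / wt k ^ 4 := by
  have hw : 0 < wt k := by
    unfold wt
    positivity
  have h0 : (θ₀ : ℝ) ≤ θ := by rw [hd]; exact hθ
  have hgr : ∀ r ∈ Ioc (θ₀ : ℝ) θ, ‖ex g r‖ ≤ b := by
    intro r hr
    have hr' : r ∈ Icc (0 : ℝ) 1 := ⟨θ₀.2.1.trans hr.1.le, hr.2.trans θ.2.2⟩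
    have h : projIcc (0 : ℝ) 1 zero_le_one r = ⟨r, hr'⟩ := projIcc_of_mem _ hr'
    unfold ex
    rw [h]
    apply hg
    rw [← hd]
    exact hr.1.le
  rw [norm_mul, Complex.norm_real, Real.norm_eq_abs,
    abs_of_nonneg (mul_nonneg hT.le (Real.exp_nonneg _))]
  set a : ℝ := 2 * T * (k : ℝ) ^ 4 with ha
  have ha0 : 0 ≤ a := by positivity
  by_cases hk : k = 0
  · have haz : a = 0 := by
      rw [ha, hk]
      simp
    have hw1 : wt k = 1 := by
      rw [hk]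
      simp [wt]
    rw [haz, hw1]
    have h1 : ‖∫ r in (θ₀ : ℝ)..θ, ((Real.exp (0 * r) : ℝ) : ℂ) * ex g r‖ ≤
        b * |(θ : ℝ) - θ₀| := by
      apply intervalIntegral.norm_integral_le_of_norm_le_const
      intro r hr
      rw [uIoc_of_le h0] at hr
      rw [zero_mul, Real.exp_zero, Complex.ofReal_one, one_mul]
      exact hgr r hr
    have h2 : |(θ : ℝ) - θ₀| ≤ 1 := by
      rw [abs_of_nonneg (by linarith)]
      have := θ.2.2
      have := θ₀.2.1
      linarith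
    rw [zero_mul, neg_zero, Real.exp_zero, mul_one, one_pow, div_one]
    calc T * ‖∫ r in (θ₀ : ℝ)..θ, ((Real.exp (0 * r) : ℝ) : ℂ) * ex g r‖
        ≤ 1 * (b * 1) := mul_le_mul hT1 (h1.trans (mul_le_mul_of_nonneg_left h2 hb))
          (norm_nonneg _) zero_le_one
      _ ≤ 16 * b := by linarith
  · have hk4 : (0 : ℝ) < (k : ℝ) ^ 4 := by
      have : (k : ℝ) ≠ 0 := by exact_mod_cast hk
      positivity
    have ha1 : 0 < a := by positivity
    have hk1 : (1 : ℝ) ≤ |(k : ℝ)| := by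
      rw [← Int.cast_abs]
      exact_mod_cast Int.one_le_abs hk
    have hwt : wt k ^ 4 ≤ 16 * (k : ℝ) ^ 4 := by
      have h2 : wt k ≤ 2 * |(k : ℝ)| := by
        unfold wt
        linarith
      calc wt k ^ 4 ≤ (2 * |(k : ℝ)|) ^ 4 := pow_le_pow_left₀ hw.le h2 4
        _ = 16 * |(k : ℝ)| ^ 4 := by ring
        _ = 16 * (k : ℝ) ^ 4 := by rw [← abs_pow, abs_of_nonneg hk4.le]
    have hc : Continuous fun r : ℝ => Real.exp (a * r) * b := by fun_prop
    have h1 : ‖∫ r in (θ₀ : ℝ)..θ, ((Real.exp (a * r) : ℝ) : ℂ) * ex g r‖ ≤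
        ∫ r in (θ₀ : ℝ)..θ, Real.exp (a * r) * b := by
      apply intervalIntegral.norm_integral_le_of_norm_le h0 _ (hc.intervalIntegrable _ _)
      refine Filter.Eventually.of_forall fun r hr => ?_
      rw [norm_mul, Complex.norm_real, Real.norm_eq_abs, Real.abs_exp]
      exact mul_le_mul_of_nonneg_left (hgr r hr) (Real.exp_nonneg _)
    have h2 : ∫ r in (θ₀ : ℝ)..θ, Real.exp (a * r) * b =
        Real.exp (a * θ) / a * b - Real.exp (a * θ₀) / a * b := by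
      refine intervalIntegral.integral_eq_sub_of_hasDerivAt
        (f := fun r : ℝ => Real.exp (a * r) / a * b) (f' := fun r : ℝ => Real.exp (a * r) * b)
        ?_ ?_
      · intro r _
        have e1 : HasDerivAt (fun r : ℝ => a * r) a r := by
          simpa using (hasDerivAt_id r).const_mul a
        have e2 := (e1.exp.div_const a).mul_const b
        have e3 : Real.exp (a * r) * a / a * b = Real.exp (a * r) * b := by
          field_simp
        rwa [e3] at e2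
      · exact hc.intervalIntegrable _ _
    rw [h2] at h1
    calc T * Real.exp (-(a * θ)) *
          ‖∫ r in (θ₀ : ℝ)..θ, ((Real.exp (a * r) : ℝ) : ℂ) * ex g r‖
        ≤ T * Real.exp (-(a * θ)) * (Real.exp (a * θ) / a * b) := by
          apply mul_le_mul_of_nonneg_left _ (by positivity)
          refine h1.trans ?_
          have : 0 ≤ Real.exp (a * θ₀) / a * b := by positivity
          linarith
      _ = T / a * b * (Real.exp (-(a * θ)) * Real.exp (a * θ)) := by ring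
      _ = T / a * b := by rw [← Real.exp_add, neg_add_cancel, Real.exp_zero, mul_one]
      _ = b / (2 * (k : ℝ) ^ 4) := by
          rw [ha]
          field_simp
      _ ≤ 16 * b / wt k ^ 4 := by
          rw [div_le_div_iff₀ (by positivity) (by positivity)]
          nlinarith [mul_le_mul_of_nonneg_left hwt hb, mul_nonneg hb hk4.le]

/-- W5b. -/
theorem wDuhB : WDuhB := by
  intro T d b a k g c θ₀ hT hT1 _ hd hb hg ha θ hθ
  rw [wDuhB_split T k g c θ₀ θ]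
  refine (norm_add_le _ _).trans (add_le_add ?_ (wDuhB_tail k g θ₀ θ hT hT1 hd hb hg hθ))
  rw [norm_mul, Complex.norm_real, Real.norm_eq_abs, Real.abs_exp, hd]
  exact mul_le_mul_of_nonneg_left ha (Real.exp_nonneg _)

end WN

end Pool.Agent.Work.MP_4a14ce_an

end

section

/-!
# W9a: evaluation of the Fourier series is a ring homomorphism
-/

open Set MeasureTheory Topology Filter
open scoped ContDiff ENNReal

namespace Pool.Agent.Work.MP_4a14ce_an

namespace WN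

namespace EvalA

lemma ex_norm_le (g : A) (t : ℝ) : ‖ex g t‖ ≤ ‖g‖ := g.norm_coe_le_norm _

lemma ex_add (a b : A) (t : ℝ) : ex (a + b) t = ex a t + ex b t := rfl

lemma ex_sub (a b : A) (t : ℝ) : ex (a - b) t = ex a t - ex b t := rfl

lemma ex_mul (a b : A) (t : ℝ) : ex (a * b) t = ex a t * ex b t := rfl

lemma ex_smul (c : ℂ) (a : A) (t : ℝ) : ex (c • a) t = c * ex a t := rfl

lemma ex_star (a : A) (t : ℝ) : ex (star a) t = star (ex a t) := rfl

lemma ex_zero (t : ℝ) : ex (0 : A) t = 0 := rfl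

lemma ex_tsum {ι : Type*} {f : ι → A} (hf : Summable f) (t : ℝ) :
    ex (∑' i, f i) t = ∑' i, ex (f i) t :=
  (ContinuousMap.tsum_apply hf _).symm

/-- the exponential -/
noncomputable def em (k : ℤ) (x : ℝ) : ℂ := Complex.exp (Complex.I * k * x)

lemma norm_em (k : ℤ) (x : ℝ) : ‖em k x‖ = 1 := by
  have h : em k x = Complex.exp (((k : ℝ) * x : ℝ) * Complex.I) := by
    unfold em
    congr 1
    push_cast
    ring
  rw [h, Complex.norm_exp_ofReal_mul_I]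

lemma em_add (j k : ℤ) (x : ℝ) : em j x * em k x = em (j + k) x := by
  unfold em
  rw [← Complex.exp_add]
  congr 1
  push_cast
  ring

lemma em_period (k : ℤ) (x : ℝ) : em k (x + 2 * Real.pi) = em k x := by
  unfold em
  have h : Complex.I * (k : ℂ) * ((x + 2 * Real.pi : ℝ) : ℂ) =
      Complex.I * k * x + k * (2 * Real.pi * Complex.I) := by
    push_cast
    ring
  rw [h, Complex.exp_add, Complex.exp_int_mul_two_pi_mul_I, mul_one]

lemma em_star (k : ℤ) (x : ℝ) : star (em k x) = em (-k) x := by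
  unfold em
  rw [← starRingEnd_apply, ← Complex.exp_conj]
  congr 1
  simp

lemma em_zero_left (x : ℝ) : em 0 x = 1 := by simp [em]

lemma em_zero_right (k : ℤ) : em k 0 = 1 := by simp [em]

/-- the terms of the series -/
noncomputable def tm (f : W) (t x : ℝ) (k : ℤ) : ℂ := ex (f k) t * em k x

lemma E_eq (f : W) (t x : ℝ) : E f t x = ∑' k, tm f t x k := rfl

lemma tm_norm (f : W) (t x : ℝ) (k : ℤ) : ‖tm f t x k‖ ≤ ‖f k‖ := by
  unfold tm
  rw [norm_mul, norm_em, mul_one]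
  exact ex_norm_le _ _

lemma tm_summable_norm (f : W) (t x : ℝ) : Summable fun k => ‖tm f t x k‖ :=
  Summable.of_nonneg_of_le (fun _ => norm_nonneg _) (fun k => tm_norm f t x k) (summable_norm f)

lemma tm_summable (f : W) (t x : ℝ) : Summable fun k => tm f t x k :=
  (tm_summable_norm f t x).of_norm

lemma E_norm (f : W) (t x : ℝ) : ‖E f t x‖ ≤ ‖f‖ := by
  rw [E_eq, norm_eq]
  exact tsum_of_norm_bounded (g := fun k => ‖f k‖) (summable_norm f).hasSum
    (fun k => tm_norm f t x k)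

lemma E_conv (f g : W) (t x : ℝ) : E (conv f g) t x = E f t x * E g t x := by
  have hS : Summable fun p : ℤ × ℤ => tm f t x p.1 * tm g t x p.2 :=
    summable_mul_of_summable_norm (tm_summable_norm f t x) (tm_summable_norm g t x)
  let e : ℤ × ℤ ≃ ℤ × ℤ :=
    { toFun := fun p => (p.2, p.1 - p.2)
      invFun := fun q => (q.1 + q.2, q.1)
      left_inv := fun p => by simp
      right_inv := fun q => by simp }
  have hS' : Summable fun p : ℤ × ℤ => tm f t x p.2 * tm g t x (p.1 - p.2) :=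
    (e.summable_iff (f := fun q : ℤ × ℤ => tm f t x q.1 * tm g t x q.2)).mpr hS
  have h1 : E f t x * E g t x = ∑' p : ℤ × ℤ, tm f t x p.1 * tm g t x p.2 := by
    rw [E_eq, E_eq]
    exact tsum_mul_tsum_of_summable_norm (tm_summable_norm f t x) (tm_summable_norm g t x)
  have h2 : ∑' p : ℤ × ℤ, tm f t x p.1 * tm g t x p.2 =
      ∑' p : ℤ × ℤ, tm f t x p.2 * tm g t x (p.1 - p.2) :=
    (e.tsum_eq (fun q : ℤ × ℤ => tm f t x q.1 * tm g t x q.2)).symm
  rw [h1, h2, hS'.tsum_prod, E_eq]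
  refine tsum_congr fun k => ?_
  unfold tm
  rw [conv_apply, ex_tsum (conv_row_summable' f g k), ← tsum_mul_right]
  refine tsum_congr fun j => ?_
  have h3 : em k x = em j x * em (k - j) x := by
    rw [em_add]
    congr 1
    ring
  rw [ex_mul, h3]
  ring

lemma E_add (f g : W) (t x : ℝ) : E (f + g) t x = E f t x + E g t x := by
  rw [E_eq, E_eq, E_eq, ← (tm_summable f t x).tsum_add (tm_summable g t x)]
  refine tsum_congr fun k => ?_
  unfold tm
  rw [lp.coeFn_add, Pi.add_apply, ex_add, add_mul]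

lemma E_sub (f g : W) (t x : ℝ) : E (f - g) t x = E f t x - E g t x := by
  rw [E_eq, E_eq, E_eq, ← (tm_summable f t x).tsum_sub (tm_summable g t x)]
  refine tsum_congr fun k => ?_
  unfold tm
  rw [lp.coeFn_sub, Pi.sub_apply, ex_sub, sub_mul]

lemma E_smul (c : ℂ) (f : W) (t x : ℝ) : E (c • f) t x = c * E f t x := by
  rw [E_eq, E_eq, ← tsum_mul_left]
  refine tsum_congr fun k => ?_
  unfold tm
  rw [lp.coeFn_smul, Pi.smul_apply, ex_smul, mul_assoc]

lemma E_period (f : W) (t x : ℝ) : E f t (x + 2 * Real.pi) = E f t x := by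
  rw [E_eq, E_eq]
  refine tsum_congr fun k => ?_
  unfold tm
  rw [em_period]

lemma E_zero (f : W) (t : ℝ) : E f t 0 = ex (ev0 f) t := by
  unfold ev0
  rw [E_eq, ex_tsum (summable_norm f).of_norm]
  refine tsum_congr fun k => ?_
  unfold tm
  rw [em_zero_right, mul_one]

lemma E_star (f : W) (t x : ℝ) (hf : Sym f) : star (E f t x) = E f t x := by
  rw [E_eq, tsum_star]
  have h : ∀ k, star (tm f t x k) = tm f t x (-k) := by
    intro k
    unfold tm
    rw [star_mul', em_star, ← ex_star, hf k]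
  simp_rw [h]
  exact (Equiv.neg ℤ).tsum_eq (fun k => tm f t x k)

lemma E_cont (f : W) : Continuous fun z : ℝ × ℝ => E f z.1 z.2 := by
  refine continuous_tsum (u := fun k => ‖f k‖) (fun k => ?_) (summable_norm f)
    (fun k z => tm_norm f z.1 z.2 k)
  have h1 : Continuous fun z : ℝ × ℝ => ex (f k) z.1 := (ex_continuous (f k)).comp continuous_fst
  have h2 : Continuous fun z : ℝ × ℝ => Complex.exp (Complex.I * k * (z.2 : ℂ)) := by fun_prop
  exact h1.mul h2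

end EvalA

open EvalA

theorem wEvalA (h : WOpsB) : WEvalA := by
  refine ⟨fun f g t x => ⟨E_conv f g t x, E_add f g t x, E_sub f g t x, E_norm f t x,
    E_period f t x, E_zero f t⟩, fun c f t x => E_smul c f t x, fun a t x => ?_,
    fun f t x hf => ?_, fun f => E_cont f⟩
  · have hc : ∀ k : ℤ, cst a k = if k = 0 then a else 0 := (h.2.1 a a).2.2.2.1
    rw [E_eq, tsum_eq_single 0 (fun k hk => ?_)]
    · unfold tm
      rw [hc, if_pos rfl, em_zero_left, mul_one]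
    · unfold tm
      rw [hc, if_neg hk, ex_zero, zero_mul]
  · exact Complex.conj_eq_iff_re.mp (E_star f t x hf)

end WN

end Pool.Agent.Work.MP_4a14ce_an

end

section

/-!
# Group W: the fixed point
-/

open Set MeasureTheory Topology Filter
open scoped ContDiff ENNReal

namespace Pool.Agent.Work.MP_4a14ce_an

namespace WN

variable {n : ℕ}

lemma wt_pos (k : ℤ) : 0 < wt k := by
  unfold wt
  linarith [abs_nonneg (k : ℝ)]

lemma wt_neg (k : ℤ) : wt (-k) = wt k := by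
  unfold wt
  simp

lemma norm_wt_smul (k : ℤ) (a : A) : ‖((wt k ^ 3 : ℝ) : ℂ) • a‖ = wt k ^ 3 * ‖a‖ := by
  rw [norm_smul, Complex.norm_real, Real.norm_of_nonneg (pow_nonneg (wt_pos k).le 3)]

lemma free_summable (h6 : WDuhA) {T R : ℝ} (hT : 0 ≤ T) {c : ℤ → ℂ}
    (hc : ∀ s : Finset ℤ, ∑ k ∈ s, wt k ^ 3 * ‖c k‖ ≤ R) :
    Summable fun k => ‖((wt k ^ 3 : ℝ) : ℂ) • freeK T k (c k)‖ := by
  have h1 : Summable fun k => wt k ^ 3 * ‖c k‖ :=
    summable_of_sum_le (fun k => mul_nonneg (pow_nonneg (wt_pos k).le 3) (norm_nonneg _)) hc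
  refine Summable.of_nonneg_of_le (fun k => norm_nonneg _) (fun k => ?_) h1
  rw [norm_wt_smul]
  exact mul_le_mul_of_nonneg_left (h6.2.2.2.1 T k (c k) hT).1 (pow_nonneg (wt_pos k).le 3)

lemma free_apply (h6 : WDuhA) {T R : ℝ} (hT : 0 ≤ T) {c : ℤ → ℂ}
    (hc : ∀ s : Finset ℤ, ∑ k ∈ s, wt k ^ 3 * ‖c k‖ ≤ R) (k : ℤ) :
    Free T c k = ((wt k ^ 3 : ℝ) : ℂ) • freeK T k (c k) := by
  unfold Free
  rw [dif_pos (free_summable h6 hT hc)]
  rfl

lemma free_norm (h6 : WDuhA) {T R : ℝ} (hT : 0 ≤ T) {c : ℤ → ℂ}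
    (hc : ∀ s : Finset ℤ, ∑ k ∈ s, wt k ^ 3 * ‖c k‖ ≤ R) : ‖Free T c‖ ≤ R := by
  apply norm_le_of_sum
  intro s
  refine (Finset.sum_le_sum fun k _ => ?_).trans (hc s)
  rw [free_apply h6 hT hc, norm_wt_smul]
  exact mul_le_mul_of_nonneg_left (h6.2.2.2.1 T k (c k) hT).1 (pow_nonneg (wt_pos k).le 3)

lemma free_sym (h6 : WDuhA) {T R : ℝ} (hT : 0 ≤ T) {c : ℤ → ℂ}
    (hc : ∀ s : Finset ℤ, ∑ k ∈ s, wt k ^ 3 * ‖c k‖ ≤ R) (hs : ∀ k, c (-k) = star (c k)) :
    Sym (Free T c) := by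
  intro k
  rw [free_apply h6 hT hc, free_apply h6 hT hc, wt_neg, hs k,
    ← (h6.2.2.2.1 T k (c k) hT).2, star_smul]
  congr 1
  simp

lemma duh_facts (h2 : WOpsA) (h6 : WDuhA) {τ : ℝ} (h0 : 0 ≤ τ) (h1 : τ ≤ 1) (f g : W) :
    (∀ k, Duh (τ ^ 4) f k = ((wt k ^ 3 : ℝ) : ℂ) • duhK (τ ^ 4) k (f k)) ∧
    ‖Duh (τ ^ 4) f‖ ≤ 8 * τ * ‖f‖ ∧ Duh (τ ^ 4) f - Duh (τ ^ 4) g = Duh (τ ^ 4) (f - g) ∧
    (Sym f → Sym (Duh (τ ^ 4) f)) := by
  have h3 := fun f : W => h2.1 (fun k a => ((wt k ^ 3 : ℝ) : ℂ) • duhK (τ ^ 4) k a) (8 * τ) f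
    (fun k a => h6.1 τ k a h0 h1)
  refine ⟨(h3 f).1, (h3 f).2, ?_, ?_⟩
  · apply ext_W
    intro k
    show Duh (τ ^ 4) f k - Duh (τ ^ 4) g k = Duh (τ ^ 4) (f - g) k
    have e1 : Duh (τ ^ 4) f k = ((wt k ^ 3 : ℝ) : ℂ) • duhK (τ ^ 4) k (f k) := (h3 f).1 k
    have e2 : Duh (τ ^ 4) g k = ((wt k ^ 3 : ℝ) : ℂ) • duhK (τ ^ 4) k (g k) := (h3 g).1 k
    have e3 : Duh (τ ^ 4) (f - g) k = ((wt k ^ 3 : ℝ) : ℂ) • duhK (τ ^ 4) k (f k - g k) :=
      (h3 (f - g)).1 k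
    rw [e1, e2, e3, h6.2.1, smul_sub]
  · intro hf k
    have e1 : ∀ k, Duh (τ ^ 4) f k = ((wt k ^ 3 : ℝ) : ℂ) • duhK (τ ^ 4) k (f k) := (h3 f).1
    rw [e1, e1, wt_neg, hf k, ← h6.2.2.1, star_smul]
    congr 1
    simp

lemma duh0_norm (h6 : WDuhA) {τ : ℝ} (h0 : 0 ≤ τ) (h1 : τ ≤ 1) (g : A) :
    ‖duhK (τ ^ 4) 0 g‖ ≤ 8 * τ * ‖g‖ := by
  have h := h6.1 τ 0 g h0 h1
  have hw : wt 0 = 1 := by unfold wt; simp
  simpa [hw] using h

lemma sym_closed : IsClosed {f : W | Sym f} := by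
  have h : {f : W | Sym f} = ⋂ k : ℤ, {f : W | f (-k) = star (f k)} := by
    ext f
    simp [Sym]
  rw [h]
  apply isClosed_iInter
  intro k
  have hc : ∀ j : ℤ, Continuous fun f : W => f j := by
    intro j
    have hl : LipschitzWith 1 fun f : W => f j := by
      apply LipschitzWith.of_dist_le_mul
      intro f g
      rw [dist_eq_norm, dist_eq_norm]
      have := apply_le_norm (f - g) j
      simpa using this
    exact hl.continuous
  exact isClosed_eq (hc (-k)) (continuous_star.comp (hc k))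

/-- the state space -/
abbrev XX (n : ℕ) : Type := (Fin (n + 1) → W) × (A × A)

noncomputable def Phi (σ T : ℝ) (c : Fin (n + 1) → ℤ → ℂ) (p0 m0 : ℝ) (z : XX n) : XX n :=
  (fun i => Free T (c i) + Duh T (NW σ z.2.1 z.2.2 z.1 i),
   (algebraMap ℂ A (p0 : ℂ) + duhK T 0 ((-2 : ℂ) • (z.2.1 * muA σ z.2.1 z.2.2 z.1)),
    algebraMap ℂ A (m0 : ℂ) + duhK T 0 ((2 : ℂ) • (z.2.2 * muA σ z.2.1 z.2.2 z.1))))

def SS (n : ℕ) (K : ℝ) : Set (XX n) :=
  {z | (∀ i, ‖z.1 i‖ ≤ K ∧ Sym (z.1 i)) ∧ ‖z.2.1‖ ≤ K ∧ ‖z.2.2‖ ≤ K ∧ star z.2.1 = z.2.1 ∧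
    star z.2.2 = z.2.2}

lemma SS_closed (n : ℕ) (K : ℝ) : IsClosed (SS n K) := by
  have h1 : ∀ i : Fin (n + 1), Continuous fun z : XX n => z.1 i := fun i =>
    (continuous_apply i).comp continuous_fst
  have h2 : Continuous fun z : XX n => z.2.1 := continuous_fst.comp continuous_snd
  have h3 : Continuous fun z : XX n => z.2.2 := continuous_snd.comp continuous_snd
  have e : SS n K = (⋂ i, ({z : XX n | ‖z.1 i‖ ≤ K} ∩ (fun z : XX n => z.1 i) ⁻¹' {f | Sym f})) ∩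
      ({z : XX n | ‖z.2.1‖ ≤ K} ∩ ({z : XX n | ‖z.2.2‖ ≤ K} ∩ ({z : XX n | star z.2.1 = z.2.1} ∩
        {z : XX n | star z.2.2 = z.2.2}))) := by
    ext z
    simp [SS]
  rw [e]
  refine IsClosed.inter (isClosed_iInter fun i => IsClosed.inter ?_ ?_) (IsClosed.inter ?_
    (IsClosed.inter ?_ (IsClosed.inter ?_ ?_)))
  · exact isClosed_le (h1 i).norm continuous_const
  · exact sym_closed.preimage (h1 i)
  · exact isClosed_le h2.norm continuous_const
  · exact isClosed_le h3.norm continuous_const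
  · exact isClosed_eq (continuous_star.comp h2) h2
  · exact isClosed_eq (continuous_star.comp h3) h3

lemma norm_two_smul (a : A) : ‖(2 : ℂ) • a‖ = 2 * ‖a‖ ∧ ‖(-2 : ℂ) • a‖ = 2 * ‖a‖ := by
  constructor <;> rw [norm_smul] <;> simp

lemma smul_sub_A (c : ℂ) (a b : A) : c • a - c • b = c • (a - b) := by
  ext θ
  simp [mul_sub]

theorem wFix (h2 : WOpsA) (h4 : WLip) (h5 : WNon) (h6 : WDuhA) : WFix := by
  intro n σ R
  set K : ℝ := max R 0 + 1 with hK
  have hR0 : 0 ≤ max R 0 := le_max_right _ _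
  have hK0 : 0 ≤ K := by rw [hK]; linarith
  obtain ⟨L, hL0, hL⟩ := h4 n σ K hK0
  set τ : ℝ := 1 / (32 * (L + 1)) with hτ
  have hτ0 : 0 < τ := by rw [hτ]; positivity
  have hτL : 32 * τ * (L + 1) = 1 := by
    rw [hτ]; field_simp
  have hτL' : 32 * τ * L ≤ 1 := by nlinarith
  have hτ1 : τ ≤ 1 := by nlinarith
  refine ⟨τ ^ 4, K, by positivity, pow_le_one₀ hτ0.le hτ1, hK0, ?_⟩
  intro c p0 m0 hc hcs hp0 hm0
  have hc' : ∀ i (s : Finset ℤ), ∑ k ∈ s, wt k ^ 3 * ‖c i k‖ ≤ max R 0 :=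
    fun i s => (hc i s).trans (le_max_left _ _)
  have hT0 : (0 : ℝ) ≤ τ ^ 4 := by positivity
  -- bounds on the set
  have hb : ∀ z ∈ SS n K, (∀ i, ‖NW σ z.2.1 z.2.2 z.1 i‖ ≤ L) ∧
      ‖z.2.1 * muA σ z.2.1 z.2.2 z.1‖ ≤ L ∧ ‖z.2.2 * muA σ z.2.1 z.2.2 z.1‖ ≤ L := by
    intro z hz
    have h := hL z.1 z.1 z.2.1 z.2.2 z.2.1 z.2.2 0 le_rfl
      (fun i => ⟨(hz.1 i).1, (hz.1 i).1, by simp⟩) hz.2.1 hz.2.2.1 hz.2.1 hz.2.2.1 (by simp)
      (by simp)
    exact ⟨fun i => (h.1 i).1, h.2.1, h.2.2.2.1⟩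
  have hmaps : MapsTo (Phi σ (τ ^ 4) c p0 m0) (SS n K) (SS n K) := by
    intro z hz
    obtain ⟨hb1, hb2, hb3⟩ := hb z hz
    have hsym := h5.2 n σ z.1 z.2.1 z.2.2 (fun i => (hz.1 i).2) hz.2.2.2.1 hz.2.2.2.2
    refine ⟨fun i => ⟨?_, ?_⟩, ?_, ?_, ?_, ?_⟩
    · show ‖Free (τ ^ 4) (c i) + Duh (τ ^ 4) (NW σ z.2.1 z.2.2 z.1 i)‖ ≤ K
      refine (norm_add_le _ _).trans ?_
      have e1 := free_norm h6 hT0 (hc' i)
      have e2 := (duh_facts h2 h6 hτ0.le hτ1 (NW σ z.2.1 z.2.2 z.1 i) 0).2.1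
      have e3 : 8 * τ * ‖NW σ z.2.1 z.2.2 z.1 i‖ ≤ 8 * τ * L :=
        mul_le_mul_of_nonneg_left (hb1 i) (by positivity)
      rw [hK]
      linarith
    · show Sym (Free (τ ^ 4) (c i) + Duh (τ ^ 4) (NW σ z.2.1 z.2.2 z.1 i))
      have e1 := free_sym h6 hT0 (hc' i) (hcs i)
      have e2 := (duh_facts h2 h6 hτ0.le hτ1 (NW σ z.2.1 z.2.2 z.1 i) 0).2.2.2 (hsym.1 i)
      intro k
      show Free (τ ^ 4) (c i) (-k) + Duh (τ ^ 4) (NW σ z.2.1 z.2.2 z.1 i) (-k) =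
        star (Free (τ ^ 4) (c i) k + Duh (τ ^ 4) (NW σ z.2.1 z.2.2 z.1 i) k)
      rw [e1 k, e2 k, star_add]
    · show ‖algebraMap ℂ A (p0 : ℂ) + duhK (τ ^ 4) 0 ((-2 : ℂ) •
        (z.2.1 * muA σ z.2.1 z.2.2 z.1))‖ ≤ K
      refine (norm_add_le _ _).trans ?_
      have e1 := duh0_norm h6 hτ0.le hτ1 ((-2 : ℂ) • (z.2.1 * muA σ z.2.1 z.2.2 z.1))
      rw [(norm_two_smul _).2] at e1
      have e3 : 8 * τ * (2 * ‖z.2.1 * muA σ z.2.1 z.2.2 z.1‖) ≤ 8 * τ * (2 * L) :=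
        mul_le_mul_of_nonneg_left (by linarith) (by positivity)
      rw [norm_algebraMap', Complex.norm_real, Real.norm_eq_abs, hK]
      have := hp0.trans (le_max_left R 0)
      nlinarith
    · show ‖algebraMap ℂ A (m0 : ℂ) + duhK (τ ^ 4) 0 ((2 : ℂ) •
        (z.2.2 * muA σ z.2.1 z.2.2 z.1))‖ ≤ K
      refine (norm_add_le _ _).trans ?_
      have e1 := duh0_norm h6 hτ0.le hτ1 ((2 : ℂ) • (z.2.2 * muA σ z.2.1 z.2.2 z.1))
      rw [(norm_two_smul _).1] at e1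
      have e3 : 8 * τ * (2 * ‖z.2.2 * muA σ z.2.1 z.2.2 z.1‖) ≤ 8 * τ * (2 * L) :=
        mul_le_mul_of_nonneg_left (by linarith) (by positivity)
      rw [norm_algebraMap', Complex.norm_real, Real.norm_eq_abs, hK]
      have := hm0.trans (le_max_left R 0)
      nlinarith
    · show star (algebraMap ℂ A (p0 : ℂ) + duhK (τ ^ 4) 0 ((-2 : ℂ) •
        (z.2.1 * muA σ z.2.1 z.2.2 z.1))) = _
      have e1 : star (algebraMap ℂ A (p0 : ℂ)) = algebraMap ℂ A (p0 : ℂ) := by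
        rw [← algebraMap_star_comm]; simp
      have e2 := h6.2.2.1 (τ ^ 4) 0 ((-2 : ℂ) • (z.2.1 * muA σ z.2.1 z.2.2 z.1))
      rw [neg_zero, star_smul, star_mul', hz.2.2.2.1, hsym.2] at e2
      have e3 : star (-2 : ℂ) = -2 := by simp
      rw [e3] at e2
      rw [star_add, e1, e2]
      rfl
    · show star (algebraMap ℂ A (m0 : ℂ) + duhK (τ ^ 4) 0 ((2 : ℂ) •
        (z.2.2 * muA σ z.2.1 z.2.2 z.1))) = _
      have e1 : star (algebraMap ℂ A (m0 : ℂ)) = algebraMap ℂ A (m0 : ℂ) := by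
        rw [← algebraMap_star_comm]; simp
      have e2 := h6.2.2.1 (τ ^ 4) 0 ((2 : ℂ) • (z.2.2 * muA σ z.2.1 z.2.2 z.1))
      rw [neg_zero, star_smul, star_mul', hz.2.2.2.2, hsym.2] at e2
      have e3 : star (2 : ℂ) = 2 := by simp
      rw [e3] at e2
      rw [star_add, e1, e2]
      rfl
  have hlip : ∀ z ∈ SS n K, ∀ w ∈ SS n K,
      ‖Phi σ (τ ^ 4) c p0 m0 z - Phi σ (τ ^ 4) c p0 m0 w‖ ≤ 1 / 2 * ‖z - w‖ := by
    intro z hz w hw
    set S := ‖z - w‖ with hS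
    have hS0 : 0 ≤ S := norm_nonneg _
    have d1 : ∀ i, ‖z.1 i - w.1 i‖ ≤ S := by
      intro i
      exact (norm_le_pi_norm (z.1 - w.1) i).trans (norm_fst_le (z - w))
    have d2 : ‖z.2.1 - w.2.1‖ ≤ S := (norm_fst_le (z.2 - w.2)).trans (norm_snd_le (z - w))
    have d3 : ‖z.2.2 - w.2.2‖ ≤ S := (norm_snd_le (z.2 - w.2)).trans (norm_snd_le (z - w))
    have h := hL z.1 w.1 z.2.1 z.2.2 w.2.1 w.2.2 S hS0
      (fun i => ⟨(hz.1 i).1, (hw.1 i).1, d1 i⟩) hz.2.1 hz.2.2.1 hw.2.1 hw.2.2.1 d2 d3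
    have hkey : 8 * τ * (2 * (L * S)) ≤ 1 / 2 * S := by nlinarith
    refine max_le ?_ (max_le ?_ ?_)
    · refine (pi_norm_le_iff_of_nonneg (by positivity)).mpr fun i => ?_
      show ‖(Free (τ ^ 4) (c i) + Duh (τ ^ 4) (NW σ z.2.1 z.2.2 z.1 i)) -
        (Free (τ ^ 4) (c i) + Duh (τ ^ 4) (NW σ w.2.1 w.2.2 w.1 i))‖ ≤ _
      rw [add_sub_add_left_eq_sub,
        (duh_facts h2 h6 hτ0.le hτ1 (NW σ z.2.1 z.2.2 z.1 i) (NW σ w.2.1 w.2.2 w.1 i)).2.2.1]
      refine ((duh_facts h2 h6 hτ0.le hτ1 _ 0).2.1).trans ?_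
      have e3 : 8 * τ * ‖NW σ z.2.1 z.2.2 z.1 i - NW σ w.2.1 w.2.2 w.1 i‖ ≤ 8 * τ * (L * S) :=
        mul_le_mul_of_nonneg_left (h.1 i).2 (by positivity)
      have e4 : 8 * τ * (L * S) ≤ 8 * τ * (2 * (L * S)) :=
        mul_le_mul_of_nonneg_left (by nlinarith [mul_nonneg hL0 hS0]) (by positivity)
      exact e3.trans (e4.trans hkey)
    · show ‖(algebraMap ℂ A (p0 : ℂ) + duhK (τ ^ 4) 0 ((-2 : ℂ) •
        (z.2.1 * muA σ z.2.1 z.2.2 z.1))) - (algebraMap ℂ A (p0 : ℂ) + duhK (τ ^ 4) 0 ((-2 : ℂ) •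
        (w.2.1 * muA σ w.2.1 w.2.2 w.1)))‖ ≤ _
      rw [add_sub_add_left_eq_sub, ← h6.2.1, smul_sub_A]
      refine (duh0_norm h6 hτ0.le hτ1 _).trans ?_
      rw [(norm_two_smul _).2]
      have e3 := h.2.2.1
      refine le_trans ?_ hkey
      exact mul_le_mul_of_nonneg_left (by linarith) (by positivity)
    · show ‖(algebraMap ℂ A (m0 : ℂ) + duhK (τ ^ 4) 0 ((2 : ℂ) •
        (z.2.2 * muA σ z.2.1 z.2.2 z.1))) - (algebraMap ℂ A (m0 : ℂ) + duhK (τ ^ 4) 0 ((2 : ℂ) •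
        (w.2.2 * muA σ w.2.1 w.2.2 w.1)))‖ ≤ _
      rw [add_sub_add_left_eq_sub, ← h6.2.1, smul_sub_A]
      refine (duh0_norm h6 hτ0.le hτ1 _).trans ?_
      rw [(norm_two_smul _).1]
      have e3 := h.2.2.2.2
      refine le_trans ?_ hkey
      exact mul_le_mul_of_nonneg_left (by linarith) (by positivity)
  have hzero : (0 : XX n) ∈ SS n K := by
    refine ⟨fun i => ⟨?_, ?_⟩, ?_, ?_, ?_, ?_⟩
    · show ‖(0 : W)‖ ≤ K
      simpa using hK0
    · intro k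
      show (0 : A) = star (0 : A)
      simp
    · show ‖(0 : A)‖ ≤ K
      simpa using hK0
    · show ‖(0 : A)‖ ≤ K
      simpa using hK0
    · show star (0 : A) = 0
      simp
    · show star (0 : A) = 0
      simp
  have hcon : ContractingWith (1 / 2) (hmaps.restrict (Phi σ (τ ^ 4) c p0 m0) (SS n K) (SS n K)) := by
    refine ⟨by norm_num, LipschitzWith.of_dist_le_mul ?_⟩
    rintro ⟨z, hz⟩ ⟨w, hw⟩
    have := hlip z hz w hw
    rw [← dist_eq_norm, ← dist_eq_norm] at this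
    have e : ((1 / 2 : NNReal) : ℝ) = 1 / 2 := by norm_num
    rw [e]
    exact this
  obtain ⟨z, hz, hfix, -⟩ := hcon.exists_fixedPoint' (SS_closed n K).isComplete hmaps hzero
    (edist_ne_top _ _)
  have hfix' : Phi σ (τ ^ 4) c p0 m0 z = z := hfix
  refine ⟨z.1, z.2.1, z.2.2, ⟨?_, ?_, ?_⟩, hz.1, hz.2.1, hz.2.2.1, hz.2.2.2.1, hz.2.2.2.2⟩
  · intro i
    have := congrFun (congrArg Prod.fst hfix') i
    exact this.symm
  · exact (congrArg (fun z : XX n => z.2.1) hfix').symm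
  · exact (congrArg (fun z : XX n => z.2.2) hfix').symm

end WN

end Pool.Agent.Work.MP_4a14ce_an

end

section

/-!
# Group W, item W10: joint smoothness
-/

open Set MeasureTheory Topology Filter
open scoped ContDiff ENNReal

namespace Pool.Agent.Work.MP_4a14ce_an

namespace WN

lemma wj_ext {a b : A} (h : ∀ t ∈ Icc (0 : ℝ) 1, ex a t = ex b t) : a = b := by
  ext θ
  have h1 := h θ θ.2
  unfold ex at h1
  rwa [projIcc_of_mem zero_le_one θ.2] at h1

lemma wj_unique {f a b : A} (ha : TDA f a) (hb : TDA f b) : a = b :=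
  wj_ext fun t ht => (uniqueDiffOn_Icc (zero_lt_one' ℝ) t ht).eq_deriv _ (ha t ht) (hb t ht)

lemma wj_RW_next {f : W} (h : ∀ r, RW r f) : ∃ g : W, (∀ r, RW r g) ∧ TD f g := by
  obtain ⟨_, g, _, hg⟩ := h 1
  refine ⟨g, fun r => ?_, hg⟩
  obtain ⟨_, g', hr, hg'⟩ := h (r + 1)
  have he : g = g' := ext_W fun k => wj_unique (hg k) (hg' k)
  rw [he]
  exact hr

lemma wj_RA_next {a : A} (h : ∀ r, RA r a) : ∃ b : A, (∀ r, RA r b) ∧ TDA a b := by
  obtain ⟨g, _, hg⟩ := h 1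
  refine ⟨g, fun r => ?_, hg⟩
  obtain ⟨g', hr, hg'⟩ := h (r + 1)
  have he : g = g' := wj_unique hg hg'
  rw [he]
  exact hr

lemma wj_mult (k : ℤ) : ‖Complex.I * (k : ℂ)‖ ≤ 1 * wt k ^ 1 := by
  rw [norm_mul, Complex.norm_I, Complex.norm_intCast, one_mul, one_mul, pow_one]
  unfold wt
  linarith

lemma wj_re_deriv {f : ℝ → ℂ} {f' : ℂ} {s : Set ℝ} {t : ℝ} (h : HasDerivWithinAt f f' s t) :
    HasDerivWithinAt (fun u => (f u).re) f'.re s t :=
  (Complex.reCLM.hasFDerivAt (x := f t)).comp_hasDerivWithinAt t h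

lemma wj_re_deriv' {f : ℝ → ℂ} {f' : ℂ} {t : ℝ} (h : HasDerivAt f f' t) :
    HasDerivAt (fun u => (f u).re) f'.re t :=
  (Complex.reCLM.hasFDerivAt (x := f t)).comp_hasDerivAt t h

lemma wj_main (h0 : PartialsC1) (h2 : WClos) (h3 : WEvalA) (h4 : WEvalB) :
    ∀ (k : ℕ) (f : W), (∀ r, RW r f) →
      ContDiffOn ℝ k (fun z : ℝ × ℝ => (E f z.1 z.2).re) (Icc 0 1 ×ˢ univ)
  | 0, f, _ => by
    rw [Nat.cast_zero, contDiffOn_zero]
    exact (Complex.continuous_re.comp (h3.2.2.2.2 f)).continuousOn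
  | k + 1, f, hf => by
    obtain ⟨g, hg, hfg⟩ := wj_RW_next hf
    have hm : ∀ r, RW r (mulW (fun k => Complex.I * k) f) := fun r =>
      (h2.2.2.1 r 1 (fun k => Complex.I * k) 1 f wj_mult (hf r)).1
    have hR : Rapid f := hf 0
    have hI : Itv (Icc (0 : ℝ) 1) := Or.inr ⟨0, 1, zero_lt_one, rfl⟩
    have h5 := h0 k (Icc 0 1) (fun t x => (E f t x).re) (fun t x => (E g t x).re)
      (fun t x => (E (mulW (fun k => Complex.I * k) f) t x).re) hI
      (fun t ht x => wj_re_deriv (h4.2.1 f g hfg t ht x))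
      (fun t _ x => wj_re_deriv' (h4.1 f t x (hR 1)))
      (wj_main h0 h2 h3 h4 k g hg) (wj_main h0 h2 h3 h4 k _ hm)
    exact_mod_cast h5

lemma wj_mainA : ∀ (k : ℕ) (a : A), (∀ r, RA r a) →
      ContDiffOn ℝ k (fun t => (ex a t).re) (Icc 0 1)
  | 0, a, _ => by
    rw [Nat.cast_zero, contDiffOn_zero]
    exact (Complex.continuous_re.comp (ex_continuous a)).continuousOn
  | k + 1, a, ha => by
    obtain ⟨b, hb, hab⟩ := wj_RA_next ha
    have hd : ∀ t ∈ Icc (0 : ℝ) 1,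
        HasDerivWithinAt (fun t => (ex a t).re) (ex b t).re (Icc 0 1) t := fun t ht =>
      wj_re_deriv (hab t ht)
    have hu := uniqueDiffOn_Icc (zero_lt_one' ℝ)
    have h5 : ContDiffOn ℝ ((k : WithTop ℕ∞) + 1) (fun t => (ex a t).re) (Icc 0 1) := by
      rw [contDiffOn_succ_iff_derivWithin hu]
      refine ⟨fun t ht => (hd t ht).differentiableWithinAt, ?_, ?_⟩
      · intro h
        exact absurd h (by simp)
      · exact (wj_mainA k b hb).congr fun t ht => (hd t ht).derivWithin (hu t ht)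
    exact_mod_cast h5

theorem wJS (h0 : PartialsC1) (_h1 : WOpsA) (h2 : WClos) (h3 : WEvalA) (h4 : WEvalB) : WJS := by
  refine ⟨fun f hf => ?_, fun a ha => ?_⟩
  · rw [contDiffOn_infty]
    exact fun k => wj_main h0 h2 h3 h4 k f hf
  · rw [contDiffOn_infty]
    exact fun k => wj_mainA k a ha

end WN

end Pool.Agent.Work.MP_4a14ce_an

end

section

/-!
# Group W: the nonlinearity is bounded and Lipschitz on bounded sets
-/

open Set MeasureTheory Topology Filter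
open scoped ContDiff ENNReal

namespace Pool.Agent.Work.MP_4a14ce_an

namespace WN

/-- the data `(U, P, M)` -/
abbrev Dat (n : ℕ) : Type := (Fin (n + 1) → W) × (A × A)

def DomK {n : ℕ} (K : ℝ) (z : Dat n) : Prop := (∀ i, ‖z.1 i‖ ≤ K) ∧ ‖z.2.1‖ ≤ K ∧ ‖z.2.2‖ ≤ K

def DistS {n : ℕ} (S : ℝ) (z w : Dat n) : Prop :=
  (∀ i, ‖z.1 i - w.1 i‖ ≤ S) ∧ ‖z.2.1 - w.2.1‖ ≤ S ∧ ‖z.2.2 - w.2.2‖ ≤ S

/-- bounded and Lipschitz on bounded sets -/
def GoodL {n : ℕ} (K : ℝ) {N : Type} [NormedAddCommGroup N] (F : Dat n → N) : Prop :=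
  ∃ C, 0 ≤ C ∧ (∀ z, DomK K z → ‖F z‖ ≤ C) ∧
    ∀ z w S, 0 ≤ S → DomK K z → DomK K w → DistS S z w → ‖F z - F w‖ ≤ C * S

section

variable {n : ℕ} {K : ℝ} {N N1 N2 : Type} [NormedAddCommGroup N] [NormedAddCommGroup N1]
  [NormedAddCommGroup N2]

lemma GoodL.add {F G : Dat n → N} (hF : GoodL K F) (hG : GoodL K G) :
    GoodL K (fun z => F z + G z) := by
  obtain ⟨C, hC, h1, h2⟩ := hF
  obtain ⟨D, hD, g1, g2⟩ := hG
  refine ⟨C + D, add_nonneg hC hD, fun z hz => (norm_add_le _ _).trans (add_le_add (h1 z hz)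
    (g1 z hz)), fun z w S hS hz hw hd => ?_⟩
  have e : F z + G z - (F w + G w) = (F z - F w) + (G z - G w) := by abel
  rw [e, add_mul]
  exact (norm_add_le _ _).trans (add_le_add (h2 z w S hS hz hw hd) (g2 z w S hS hz hw hd))

lemma GoodL.sub {F G : Dat n → N} (hF : GoodL K F) (hG : GoodL K G) :
    GoodL K (fun z => F z - G z) := by
  obtain ⟨C, hC, h1, h2⟩ := hF
  obtain ⟨D, hD, g1, g2⟩ := hG
  refine ⟨C + D, add_nonneg hC hD, fun z hz => (norm_sub_le _ _).trans (add_le_add (h1 z hz)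
    (g1 z hz)), fun z w S hS hz hw hd => ?_⟩
  have e : F z - G z - (F w - G w) = (F z - F w) - (G z - G w) := by abel
  rw [e, add_mul]
  exact (norm_sub_le _ _).trans (add_le_add (h2 z w S hS hz hw hd) (g2 z w S hS hz hw hd))

lemma GoodL.lin {F : Dat n → N} (hF : GoodL K F) (Φ : N → N1) (c : ℝ) (hc : 0 ≤ c)
    (h1 : ∀ x, ‖Φ x‖ ≤ c * ‖x‖) (h2 : ∀ x y, Φ (x - y) = Φ x - Φ y) :
    GoodL K (fun z => Φ (F z)) := by
  obtain ⟨C, hC, f1, f2⟩ := hF
  refine ⟨c * C, mul_nonneg hc hC, fun z hz => (h1 _).trans (mul_le_mul_of_nonneg_left (f1 z hz)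
    hc), fun z w S hS hz hw hd => ?_⟩
  rw [← h2, mul_assoc]
  exact (h1 _).trans (mul_le_mul_of_nonneg_left (f2 z w S hS hz hw hd) hc)

lemma GoodL.bil {F : Dat n → N} {G : Dat n → N1} (hF : GoodL K F) (hG : GoodL K G)
    (Ψ : N → N1 → N2) (h1 : ∀ x y, ‖Ψ x y‖ ≤ ‖x‖ * ‖y‖)
    (h2 : ∀ x x' y, Ψ (x - x') y = Ψ x y - Ψ x' y) (h3 : ∀ x y y', Ψ x (y - y') = Ψ x y - Ψ x y') :
    GoodL K (fun z => Ψ (F z) (G z)) := by
  obtain ⟨C, hC, f1, f2⟩ := hF
  obtain ⟨D, hD, g1, g2⟩ := hG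
  refine ⟨2 * (C * D) , by positivity, fun z hz => ?_, fun z w S hS hz hw hd => ?_⟩
  · have := (h1 (F z) (G z)).trans (mul_le_mul (f1 z hz) (g1 z hz) (norm_nonneg _) hC)
    nlinarith [mul_nonneg hC hD]
  · have e : Ψ (F z) (G z) - Ψ (F w) (G w) = Ψ (F z - F w) (G z) + Ψ (F w) (G z - G w) := by
      rw [h2, h3]; abel
    rw [e]
    have e1 := (h1 (F z - F w) (G z)).trans (mul_le_mul (f2 z w S hS hz hw hd) (g1 z hz)
      (norm_nonneg _) (mul_nonneg hC hS))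
    have e2 := (h1 (F w) (G z - G w)).trans (mul_le_mul (f1 w hw) (g2 z w S hS hz hw hd)
      (norm_nonneg _) hC)
    refine (norm_add_le _ _).trans ((add_le_add e1 e2).trans (le_of_eq ?_))
    ring

lemma GoodL.zero : GoodL K (fun _ : Dat n => (0 : N)) :=
  ⟨0, le_rfl, fun _ _ => by simp, fun _ _ _ _ _ _ _ => by simp⟩

lemma GoodL.sum {ι : Type} (s : Finset ι) {F : ι → Dat n → N} (hF : ∀ i, GoodL K (F i)) :
    GoodL K (fun z => ∑ i ∈ s, F i z) := by
  classical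
  induction s using Finset.induction_on with
  | empty => simpa using (GoodL.zero (K := K) (n := n) (N := N))
  | insert i s hi ih =>
    simp only [Finset.sum_insert hi]
    exact (hF i).add ih

end

section

variable {n : ℕ} {K : ℝ}

lemma GoodL.conv (h1 : WConv) {F G : Dat n → W} (hF : GoodL K F) (hG : GoodL K G) :
    GoodL K (fun z => WN.conv (F z) (G z)) :=
  hF.bil hG WN.conv h1.1 h1.2.2.2.1 h1.2.2.2.2.1

lemma GoodL.smulW {F : Dat n → W} (c : ℂ) (hF : GoodL K F) : GoodL K (fun z => c • F z) :=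
  hF.lin (fun x => c • x) ‖c‖ (norm_nonneg _) (fun x => (norm_smul c x).le) (fun x y => smul_sub c x y)

lemma GoodL.cst (h3 : WOpsB) {F : Dat n → A} (hF : GoodL K F) : GoodL K (fun z => WN.cst (F z)) :=
  hF.lin WN.cst 1 zero_le_one (fun x => by rw [one_mul]; exact (h3.2.1 x x).1)
    (fun x y => (h3.2.1 x y).2.1)

lemma GoodL.ev0 (h3 : WOpsB) {F : Dat n → W} (hF : GoodL K F) : GoodL K (fun z => WN.ev0 (F z)) :=
  hF.lin WN.ev0 1 zero_le_one (fun x => by rw [one_mul]; exact (h3.2.2.1 x x).1)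
    (fun x y => (h3.2.2.1 x y).2.1)

lemma GoodL.anti (h3 : WOpsB) {F : Dat n → W} (hF : GoodL K F) :
    GoodL K (fun z => WN.anti (F z)) :=
  hF.lin WN.anti 2 zero_le_two (fun x => (h3.1 x x).1) (fun x y => (h3.1 x y).2.1)

lemma GoodL.coef {F : Dat n → W} (hF : GoodL K F) (k : ℤ) : GoodL K (fun z => F z k) :=
  hF.lin (fun f : W => f k) 1 zero_le_one (fun x => by rw [one_mul]; exact apply_le_norm x k)
    (fun _ _ => rfl)

lemma GoodL.mul {F G : Dat n → A} (hF : GoodL K F) (hG : GoodL K G) :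
    GoodL K (fun z => F z * G z) :=
  hF.bil hG (fun x y => x * y) (fun x y => norm_mul_le x y) (fun x x' y => sub_mul x x' y)
    (fun x y y' => mul_sub x y y')

lemma goodP (hK : 0 ≤ K) : GoodL K (fun z : Dat n => z.2.1) :=
  ⟨K + 1, by linarith, fun z hz => by linarith [hz.2.1], fun z w S hS _ _ hd => by
    nlinarith [hd.2.1]⟩

lemma goodM (hK : 0 ≤ K) : GoodL K (fun z : Dat n => z.2.2) :=
  ⟨K + 1, by linarith, fun z hz => by linarith [hz.2.2], fun z w S hS _ _ hd => by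
    nlinarith [hd.2.2]⟩

lemma goodU (hK : 0 ≤ K) (i : Fin (n + 1)) : GoodL K (fun z : Dat n => z.1 i) :=
  ⟨K + 1, by linarith, fun z hz => by linarith [hz.1 i], fun z w S hS _ _ hd => by
    nlinarith [hd.1 i]⟩

lemma goodD (hK : 0 ≤ K) (h2 : WOpsA) {j : ℕ} (hj : j ≤ 3) (i : Fin (n + 1)) :
    GoodL K (fun z : Dat n => DD j (z.1 i)) :=
  (goodU hK i).lin (DD j) 1 zero_le_one
    (fun x => by rw [one_mul]; exact (h2.2.2 j hj x x).1) (fun x y => (h2.2.2 j hj x y).2.1)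

lemma GoodL.BWd (h1 : WConv) (σ : ℝ) {F G : Fin (n + 1) → Dat n → W} (hF : ∀ i, GoodL K (F i))
    (hG : ∀ i, GoodL K (G i)) : GoodL K (fun z => WN.BWd σ (fun i => F i z) (fun i => G i z)) :=
  (((hF 0).conv h1 (hG 0)).smulW (σ : ℂ)).add
    (GoodL.sum Finset.univ (F := fun (i : Fin n) z => WN.conv (F i.succ z) (G i.succ z))
      fun i => (hF i.succ).conv h1 (hG i.succ))

lemma good_rho (h1 : WConv) (h2 : WOpsA) (h3 : WOpsB) (hK : 0 ≤ K) (σ : ℝ) :
    GoodL K (fun z : Dat n => rhoW σ z.2.1 z.1) :=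
  (GoodL.BWd h1 σ (fun i => goodD hK h2 (by norm_num) i) (fun i => goodD hK h2 (by norm_num) i)).sub
    ((((goodP hK).mul (goodP hK)).cst h3).smulW (σ : ℂ))

lemma good_rhox (h1 : WConv) (h2 : WOpsA) (hK : 0 ≤ K) (σ : ℝ) :
    GoodL K (fun z : Dat n => rhoxW σ z.1) :=
  (GoodL.BWd h1 σ (fun i => goodD hK h2 (by norm_num) i)
    (fun i => goodD hK h2 (by norm_num) i)).smulW (2 : ℂ)

lemma good_eta (h1 : WConv) (h2 : WOpsA) (h3 : WOpsB) (hK : 0 ≤ K) (σ : ℝ) :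
    GoodL K (fun z : Dat n => etaW σ z.2.1 z.1) :=
  ((GoodL.BWd h1 σ (fun i => goodD hK h2 (by norm_num) i)
    (fun i => goodD hK h2 (by norm_num) i)).sub
    ((((goodP hK).cst h3).conv h1 (GoodL.BWd h1 σ (fun i => goodD hK h2 (by norm_num) i)
    (fun i => goodD hK h2 (by norm_num) i))).smulW ((2 * σ : ℝ) : ℂ))).add
    (((goodP hK).mul ((goodP hK).mul (goodP hK))).cst h3)

lemma good_beta (h1 : WConv) (h2 : WOpsA) (h3 : WOpsB) (hK : 0 ≤ K) (σ : ℝ) :
    GoodL K (fun z : Dat n => betaW σ z.2.1 z.2.2 z.1) :=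
  ((((goodM hK).cst h3).conv h1 (good_rho h1 h2 h3 hK σ)).smulW (3 : ℂ)).add
    (((goodP hK).cst h3).smulW ((2 * σ - 1 : ℝ) : ℂ))

lemma good_hh (h1 : WConv) (h2 : WOpsA) (h3 : WOpsB) (hK : 0 ≤ K) (σ : ℝ) :
    GoodL K (fun z : Dat n => hhW σ z.2.1 z.2.2 z.1) :=
  (((((goodM hK).cst h3).conv h1 (good_eta h1 h2 h3 hK σ)).smulW (2 : ℂ)).sub
    (((((goodM hK).mul (goodM hK)).cst h3).conv h1 ((good_rho h1 h2 h3 hK σ).conv h1
      (good_rho h1 h2 h3 hK σ))).smulW (3 : ℂ))).sub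
    ((good_rho h1 h2 h3 hK σ).smulW ((2 * σ - 1 : ℝ) : ℂ))

lemma good_mu (h1 : WConv) (h2 : WOpsA) (h3 : WOpsB) (hK : 0 ≤ K) (σ : ℝ) :
    GoodL K (fun z : Dat n => muA σ z.2.1 z.2.2 z.1) :=
  (good_hh h1 h2 h3 hK σ).coef 0

lemma good_alpha (h1 : WConv) (h2 : WOpsA) (h3 : WOpsB) (hK : 0 ≤ K) (σ : ℝ) :
    GoodL K (fun z : Dat n => alphaW σ z.2.1 z.2.2 z.1) :=
  (((((goodM hK).cst h3).conv h1 (good_rhox h1 h2 hK σ)).smulW (-4 : ℂ)).add
    (((goodM hK).mul ((good_rhox h1 h2 hK σ).ev0 h3)).cst h3)).add ((good_hh h1 h2 h3 hK σ).anti h3)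

lemma good_N (h1 : WConv) (h2 : WOpsA) (h3 : WOpsB) (hK : 0 ≤ K) (σ : ℝ) (i : Fin (n + 1)) :
    GoodL K (fun z : Dat n => NW σ z.2.1 z.2.2 z.1 i) :=
  ((((((goodP hK).cst h3).conv h1 (goodD hK h2 (by norm_num) i)).smulW
      ((-(2 * σ) : ℝ) : ℂ)).add
    ((good_alpha h1 h2 h3 hK σ).conv h1 (goodD hK h2 (by norm_num) i))).add
    (((good_rho h1 h2 h3 hK σ).conv h1 (goodD hK h2 (by norm_num) i)).smulW
      ((2 * σ : ℝ) : ℂ))).sub
    ((good_beta h1 h2 h3 hK σ).conv h1 ((goodD hK h2 (by norm_num) i).add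
      ((((goodP hK).cst h3).conv h1 (goodD hK h2 (by norm_num) i)).smulW (σ : ℂ))))

end

theorem wLip (h1 : WConv) (h2 : WOpsA) (h3 : WOpsB) : WLip := by
  intro n σ K hK
  have hN := fun i : Fin (n + 1) => good_N h1 h2 h3 hK σ i
  choose CN hCN using hN
  obtain ⟨CP, hCP⟩ := (goodP (n := n) hK).mul (good_mu h1 h2 h3 hK σ)
  obtain ⟨CM, hCM⟩ := (goodM (n := n) hK).mul (good_mu h1 h2 h3 hK σ)
  set L : ℝ := (∑ i, CN i) + CP + CM with hL
  have hs0 : ∀ i, CN i ≤ ∑ j, CN j := fun i =>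
    Finset.single_le_sum (f := CN) (fun j _ => (hCN j).1) (Finset.mem_univ i)
  have hsn : 0 ≤ ∑ j, CN j := Finset.sum_nonneg fun j _ => (hCN j).1
  have hP0 := hCP.1
  have hM0 := hCM.1
  have hLN : ∀ i, CN i ≤ L := fun i => by rw [hL]; linarith [hs0 i]
  have hLP : CP ≤ L := by rw [hL]; linarith
  have hLM : CM ≤ L := by rw [hL]; linarith
  refine ⟨L, by rw [hL]; linarith, ?_⟩
  intro U V P M Q N S hS hUV hP hM hQ hN hPQ hMN
  have d1 : DomK K ((U, (P, M)) : Dat n) := ⟨fun i => (hUV i).1, hP, hM⟩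
  have d2 : DomK K ((V, (Q, N)) : Dat n) := ⟨fun i => (hUV i).2.1, hQ, hN⟩
  have d3 : DistS S ((U, (P, M)) : Dat n) (V, (Q, N)) := ⟨fun i => (hUV i).2.2, hPQ, hMN⟩
  refine ⟨fun i => ⟨((hCN i).2.1 _ d1).trans (hLN i), ?_⟩, (hCP.2.1 _ d1).trans hLP, ?_,
    (hCM.2.1 _ d1).trans hLM, ?_⟩
  · exact ((hCN i).2.2 _ _ S hS d1 d2 d3).trans (mul_le_mul_of_nonneg_right (hLN i) hS)
  · exact (hCP.2.2 _ _ S hS d1 d2 d3).trans (mul_le_mul_of_nonneg_right hLP hS)
  · exact (hCM.2.2 _ _ S hS d1 d2 d3).trans (mul_le_mul_of_nonneg_right hLM hS)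

end WN

end Pool.Agent.Work.MP_4a14ce_an

end

section

/-!
# Group W: the nonlinearity preserves weights and symmetry
-/

open Set MeasureTheory Topology Filter
open scoped ContDiff ENNReal

namespace Pool.Agent.Work.MP_4a14ce_an

namespace WN

/-- the data `(U, P, M)` -/
abbrev DatN (n : ℕ) : Type := (Fin (n + 1) → W) × (A × A)

def DomW {n : ℕ} (m : ℕ) (K d : ℝ) (z : DatN n) : Prop :=
  (∀ i, WBd m d (z.1 i) K) ∧ ‖z.2.1‖ ≤ K ∧ ‖z.2.2‖ ≤ K

def GoodW {n : ℕ} (m : ℕ) (K : ℝ) (F : DatN n → W) : Prop :=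
  ∃ C, 0 ≤ C ∧ ∀ d z, DomW m K d z → WBd m d (F z) C

def GoodA {n : ℕ} (m : ℕ) (K : ℝ) (F : DatN n → A) : Prop :=
  ∃ C, 0 ≤ C ∧ ∀ d z, DomW m K d z → ∀ θ : unitInterval, d ≤ θ → ‖F z θ‖ ≤ C

section

variable {n m : ℕ} {K : ℝ}

lemma GoodW.add (h3 : WOpsB) {F G : DatN n → W} (hF : GoodW m K F) (hG : GoodW m K G) :
    GoodW m K (fun z => F z + G z) := by
  obtain ⟨C, hC, h1⟩ := hF
  obtain ⟨D, hD, g1⟩ := hG
  exact ⟨C + D, add_nonneg hC hD, fun d z hz =>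
    (h3.2.2.2.1 m d C D (F z) (G z) (h1 d z hz) (g1 d z hz)).1⟩

lemma GoodW.sub (h3 : WOpsB) {F G : DatN n → W} (hF : GoodW m K F) (hG : GoodW m K G) :
    GoodW m K (fun z => F z - G z) := by
  obtain ⟨C, hC, h1⟩ := hF
  obtain ⟨D, hD, g1⟩ := hG
  exact ⟨C + D, add_nonneg hC hD, fun d z hz =>
    (h3.2.2.2.1 m d C D (F z) (G z) (h1 d z hz) (g1 d z hz)).2⟩

lemma GoodW.smul (h3 : WOpsB) {F : DatN n → W} (c : ℂ) (hF : GoodW m K F) :
    GoodW m K (fun z => c • F z) := by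
  obtain ⟨C, hC, h1⟩ := hF
  exact ⟨‖c‖ * C, mul_nonneg (norm_nonneg _) hC, fun d z hz =>
    h3.2.2.2.2.1 m d C c (F z) (h1 d z hz)⟩

lemma GoodW.conv (h1 : WConv) {F G : DatN n → W} (hF : GoodW m K F) (hG : GoodW m K G) :
    GoodW m K (fun z => WN.conv (F z) (G z)) := by
  obtain ⟨C, hC, f1⟩ := hF
  obtain ⟨D, hD, g1⟩ := hG
  exact ⟨C * D, mul_nonneg hC hD, fun d z hz =>
    h1.2.2.2.2.2.1 m d C D (F z) (G z) (f1 d z hz) (g1 d z hz)⟩

lemma GoodW.anti (h3 : WOpsB) {F : DatN n → W} (hF : GoodW m K F) :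
    GoodW m K (fun z => WN.anti (F z)) := by
  obtain ⟨C, hC, h1⟩ := hF
  exact ⟨2 * C, by positivity, fun d z hz => (h3.1 (F z) 0).2.2.2.2.2 m d C (h1 d z hz)⟩

lemma GoodW.ev0 (h3 : WOpsB) {F : DatN n → W} (hF : GoodW m K F) :
    GoodA m K (fun z => WN.ev0 (F z)) := by
  obtain ⟨C, hC, h1⟩ := hF
  exact ⟨C, hC, fun d z hz => (h3.2.2.1 (F z) 0).2.2.2 m d C (h1 d z hz)⟩

lemma GoodA.cst (h3 : WOpsB) {F : DatN n → A} (hF : GoodA m K F) :
    GoodW m K (fun z => WN.cst (F z)) := by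
  obtain ⟨C, hC, h1⟩ := hF
  exact ⟨C, hC, fun d z hz => (h3.2.1 (F z) 0).2.2.2.2 m d C hC (h1 d z hz)⟩

lemma GoodA.mul {F G : DatN n → A} (hF : GoodA m K F) (hG : GoodA m K G) :
    GoodA m K (fun z => F z * G z) := by
  obtain ⟨C, hC, f1⟩ := hF
  obtain ⟨D, hD, g1⟩ := hG
  refine ⟨C * D, mul_nonneg hC hD, fun d z hz θ hθ => ?_⟩
  show ‖F z θ * G z θ‖ ≤ C * D
  rw [norm_mul]
  exact mul_le_mul (f1 d z hz θ hθ) (g1 d z hz θ hθ) (norm_nonneg _) hC

lemma goodWP (hK : 0 ≤ K) : GoodA m K (fun z : DatN n => z.2.1) :=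
  ⟨K, hK, fun _ z hz θ _ => (z.2.1.norm_coe_le_norm θ).trans hz.2.1⟩

lemma goodWM (hK : 0 ≤ K) : GoodA m K (fun z : DatN n => z.2.2) :=
  ⟨K, hK, fun _ z hz θ _ => (z.2.2.norm_coe_le_norm θ).trans hz.2.2⟩

lemma goodWD (hK : 0 ≤ K) (h2 : WOpsA) {j : ℕ} (hj : j ≤ 3) (i : Fin (n + 1)) :
    GoodW m K (fun z : DatN n => DD j (z.1 i)) :=
  ⟨K, hK, fun d z hz => (h2.2.2 j hj (z.1 i) 0).2.2.2.2 m d K (hz.1 i)⟩

lemma goodW_zero : GoodW m K (fun _ : DatN n => (0 : W)) := by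
  refine ⟨0, le_rfl, fun d z _ => ⟨fun _ => 0, fun _ => le_rfl, fun k θ _ => ?_, fun s => ?_⟩⟩
  · show ‖(0 : A) θ‖ ≤ 0
    simp
  · simp

lemma GoodW.sum (h3 : WOpsB) {ι : Type} (s : Finset ι) {F : ι → DatN n → W}
    (hF : ∀ i, GoodW m K (F i)) : GoodW m K (fun z => ∑ i ∈ s, F i z) := by
  classical
  induction s using Finset.induction_on with
  | empty => simpa using (goodW_zero (K := K) (n := n) (m := m))
  | insert i s hi ih =>
    simp only [Finset.sum_insert hi]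
    exact (hF i).add h3 ih

lemma GoodW.BWd (h1 : WConv) (h3 : WOpsB) (σ : ℝ) {F G : Fin (n + 1) → DatN n → W}
    (hF : ∀ i, GoodW m K (F i))
    (hG : ∀ i, GoodW m K (G i)) : GoodW m K (fun z => WN.BWd σ (fun i => F i z) (fun i => G i z)) :=
  (((hF 0).conv h1 (hG 0)).smul h3 (σ : ℂ)).add h3
    (GoodW.sum h3 Finset.univ (F := fun (i : Fin n) z => WN.conv (F i.succ z) (G i.succ z))
      fun i => (hF i.succ).conv h1 (hG i.succ))

lemma goodW_rho (h1 : WConv) (h2 : WOpsA) (h3 : WOpsB) (hK : 0 ≤ K) (σ : ℝ) :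
    GoodW m K (fun z : DatN n => rhoW σ z.2.1 z.1) :=
  (GoodW.BWd h1 h3 σ (fun i => goodWD hK h2 (by norm_num) i)
    (fun i => goodWD hK h2 (by norm_num) i)).sub h3
    ((((goodWP hK).mul (goodWP hK)).cst h3).smul h3 (σ : ℂ))

lemma goodW_rhox (h1 : WConv) (h2 : WOpsA) (h3 : WOpsB) (hK : 0 ≤ K) (σ : ℝ) :
    GoodW m K (fun z : DatN n => rhoxW σ z.1) :=
  (GoodW.BWd h1 h3 σ (fun i => goodWD hK h2 (by norm_num) i)
    (fun i => goodWD hK h2 (by norm_num) i)).smul h3 (2 : ℂ)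

lemma goodW_eta (h1 : WConv) (h2 : WOpsA) (h3 : WOpsB) (hK : 0 ≤ K) (σ : ℝ) :
    GoodW m K (fun z : DatN n => etaW σ z.2.1 z.1) :=
  ((GoodW.BWd h1 h3 σ (fun i => goodWD hK h2 (by norm_num) i)
    (fun i => goodWD hK h2 (by norm_num) i)).sub h3
    ((((goodWP hK).cst h3).conv h1 (GoodW.BWd h1 h3 σ (fun i => goodWD hK h2 (by norm_num) i)
    (fun i => goodWD hK h2 (by norm_num) i))).smul h3 ((2 * σ : ℝ) : ℂ))).add h3
    (((goodWP hK).mul ((goodWP hK).mul (goodWP hK))).cst h3)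

lemma goodW_beta (h1 : WConv) (h2 : WOpsA) (h3 : WOpsB) (hK : 0 ≤ K) (σ : ℝ) :
    GoodW m K (fun z : DatN n => betaW σ z.2.1 z.2.2 z.1) :=
  ((((goodWM hK).cst h3).conv h1 (goodW_rho h1 h2 h3 hK σ)).smul h3 (3 : ℂ)).add h3
    (((goodWP hK).cst h3).smul h3 ((2 * σ - 1 : ℝ) : ℂ))

lemma goodW_hh (h1 : WConv) (h2 : WOpsA) (h3 : WOpsB) (hK : 0 ≤ K) (σ : ℝ) :
    GoodW m K (fun z : DatN n => hhW σ z.2.1 z.2.2 z.1) :=
  (((((goodWM hK).cst h3).conv h1 (goodW_eta h1 h2 h3 hK σ)).smul h3 (2 : ℂ)).sub h3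
    (((((goodWM hK).mul (goodWM hK)).cst h3).conv h1 ((goodW_rho h1 h2 h3 hK σ).conv h1
      (goodW_rho h1 h2 h3 hK σ))).smul h3 (3 : ℂ))).sub h3
    ((goodW_rho h1 h2 h3 hK σ).smul h3 ((2 * σ - 1 : ℝ) : ℂ))

lemma goodW_alpha (h1 : WConv) (h2 : WOpsA) (h3 : WOpsB) (hK : 0 ≤ K) (σ : ℝ) :
    GoodW m K (fun z : DatN n => alphaW σ z.2.1 z.2.2 z.1) :=
  (((((goodWM hK).cst h3).conv h1 (goodW_rhox h1 h2 h3 hK σ)).smul h3 (-4 : ℂ)).add h3
    (((goodWM hK).mul ((goodW_rhox h1 h2 h3 hK σ).ev0 h3)).cst h3)).add h3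
    ((goodW_hh h1 h2 h3 hK σ).anti h3)

lemma goodW_N (h1 : WConv) (h2 : WOpsA) (h3 : WOpsB) (hK : 0 ≤ K) (σ : ℝ) (i : Fin (n + 1)) :
    GoodW m K (fun z : DatN n => NW σ z.2.1 z.2.2 z.1 i) :=
  ((((((goodWP hK).cst h3).conv h1 (goodWD hK h2 (by norm_num) i)).smul h3
      ((-(2 * σ) : ℝ) : ℂ)).add h3
    ((goodW_alpha h1 h2 h3 hK σ).conv h1 (goodWD hK h2 (by norm_num) i))).add h3
    (((goodW_rho h1 h2 h3 hK σ).conv h1 (goodWD hK h2 (by norm_num) i)).smul h3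
      ((2 * σ : ℝ) : ℂ))).sub h3
    ((goodW_beta h1 h2 h3 hK σ).conv h1 ((goodWD hK h2 (by norm_num) i).add h3
      ((((goodWP hK).cst h3).conv h1 (goodWD hK h2 (by norm_num) i)).smul h3 (σ : ℂ))))

/-! ### symmetry -/

lemma Sym.conv (h1 : WConv) {f g : W} (hf : Sym f) (hg : Sym g) : Sym (WN.conv f g) :=
  h1.2.2.2.2.2.2.1 f g hf hg

lemma Sym.add (h3 : WOpsB) {f g : W} (hf : Sym f) (hg : Sym g) : Sym (f + g) :=
  (h3.2.2.2.2.2.1 f g 0 hf hg).1

lemma Sym.sub (h3 : WOpsB) {f g : W} (hf : Sym f) (hg : Sym g) : Sym (f - g) :=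
  (h3.2.2.2.2.2.1 f g 0 hf hg).2.1

lemma Sym.smul (h3 : WOpsB) {f : W} (c : ℝ) (hf : Sym f) : Sym ((c : ℂ) • f) :=
  (h3.2.2.2.2.2.1 f f c hf hf).2.2

lemma Sym.smul' (h3 : WOpsB) {f : W} (c : ℂ) (hc : star c = c) (hf : Sym f) : Sym (c • f) := by
  have h : ((c.re : ℝ) : ℂ) = c := Complex.conj_eq_iff_re.mp hc
  rw [← h]
  exact hf.smul h3 c.re

lemma Sym.cst (h3 : WOpsB) {a : A} (ha : star a = a) : Sym (WN.cst a) := (h3.2.1 a a).2.2.1 ha

lemma Sym.sum (h3 : WOpsB) {ι : Type} (s : Finset ι) {F : ι → W}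
    (hF : ∀ i, Sym (F i)) : Sym (∑ i ∈ s, F i) := by
  classical
  induction s using Finset.induction_on with
  | empty =>
    rw [Finset.sum_empty]
    intro k
    show (0 : A) = star (0 : A)
    simp
  | insert i s hi ih =>
    rw [Finset.sum_insert hi]
    exact (hF i).add h3 ih

lemma Sym.BWd (h1 : WConv) (h3 : WOpsB) (σ : ℝ) {F G : Fin (n + 1) → W}
    (hF : ∀ i, Sym (F i)) (hG : ∀ i, Sym (G i)) : Sym (WN.BWd σ F G) :=
  (((hF 0).conv h1 (hG 0)).smul h3 σ).add h3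
    (Sym.sum h3 Finset.univ (F := fun i : Fin n => WN.conv (F i.succ) (G i.succ))
      fun i => (hF i.succ).conv h1 (hG i.succ))

lemma star_mul_A {a b : A} (ha : star a = a) (hb : star b = b) : star (a * b) = a * b := by
  rw [star_mul', ha, hb]

end

theorem wNon (h1 : WConv) (h2 : WOpsA) (h3 : WOpsB) : WNon := by
  refine ⟨?_, ?_⟩
  · intro n σ K m hK
    have hN := fun i : Fin (n + 1) => goodW_N (m := m) h1 h2 h3 hK σ i
    choose CN hCN using hN
    refine ⟨∑ i, CN i, ?_⟩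
    intro d U P M hU hP hM i
    obtain ⟨b, hb0, hb1, hb2⟩ := (hCN i).2 d (U, (P, M)) ⟨hU, hP, hM⟩
    exact ⟨b, hb0, hb1, fun s => (hb2 s).trans
      (Finset.single_le_sum (f := CN) (fun j _ => (hCN j).1) (Finset.mem_univ i))⟩
  · intro n σ U P M hU hP hM
    have hD : ∀ j ≤ 3, ∀ i, Sym (DD j (U i)) := fun j hj i =>
      (h2.2.2 j hj (U i) (U i)).2.2.2.1 (hU i)
    have s2 : star (2 : ℂ) = 2 := by simp
    have s3 : star (3 : ℂ) = 3 := by simp
    have s4 : star (-4 : ℂ) = -4 := by simp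
    have hrho : Sym (rhoW σ P U) :=
      (Sym.BWd h1 h3 σ (fun i => hD 2 (by norm_num) i) (fun i => hD 2 (by norm_num) i)).sub h3
        ((Sym.cst h3 (star_mul_A hP hP)).smul h3 σ)
    have hrhox : Sym (rhoxW σ U) :=
      (Sym.BWd h1 h3 σ (fun i => hD 2 (by norm_num) i) (fun i => hD 3 (by norm_num) i)).smul' h3 2
        s2
    have heta : Sym (etaW σ P U) :=
      ((Sym.BWd h1 h3 σ (fun i => hD 3 (by norm_num) i) (fun i => hD 3 (by norm_num) i)).sub h3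
        (((Sym.cst h3 hP).conv h1 (Sym.BWd h1 h3 σ (fun i => hD 2 (by norm_num) i)
          (fun i => hD 2 (by norm_num) i))).smul h3 (2 * σ))).add h3
        (Sym.cst h3 (star_mul_A hP (star_mul_A hP hP)))
    have hbeta : Sym (betaW σ P M U) :=
      (((Sym.cst h3 hM).conv h1 hrho).smul' h3 3 s3).add h3
        ((Sym.cst h3 hP).smul h3 (2 * σ - 1))
    have hhh : Sym (hhW σ P M U) :=
      ((((Sym.cst h3 hM).conv h1 heta).smul' h3 2 s2).sub h3
        (((Sym.cst h3 (star_mul_A hM hM)).conv h1 (hrho.conv h1 hrho)).smul' h3 3 s3)).sub h3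
        (hrho.smul h3 (2 * σ - 1))
    have hmu : star (muA σ P M U) = muA σ P M U := by
      have h := hhh 0
      rw [neg_zero] at h
      exact h.symm
    have hev : star (ev0 (rhoxW σ U)) = ev0 (rhoxW σ U) :=
      (h3.2.2.1 (rhoxW σ U) 0).2.2.1 hrhox
    have halpha : Sym (alphaW σ P M U) :=
      ((((Sym.cst h3 hM).conv h1 hrhox).smul' h3 (-4) s4).add h3
        (Sym.cst h3 (star_mul_A hM hev))).add h3 ((h3.1 (hhW σ P M U) 0).2.2.1 hhh)
    refine ⟨fun i => ?_, hmu⟩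
    exact (((((Sym.cst h3 hP).conv h1 (hD 2 (by norm_num) i)).smul h3 (-(2 * σ))).add h3
      (halpha.conv h1 (hD 1 (by norm_num) i))).add h3
      ((hrho.conv h1 (hD 0 (by norm_num) i)).smul h3 (2 * σ))).sub h3
      (hbeta.conv h1 ((hD 2 (by norm_num) i).add h3
        (((Sym.cst h3 hP).conv h1 (hD 0 (by norm_num) i)).smul h3 σ)))

end WN

end Pool.Agent.Work.MP_4a14ce_an

end

section

/-!
# W2a: coefficientwise operators
-/

open Set MeasureTheory Topology Filter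
open scoped ContDiff ENNReal

namespace Pool.Agent.Work.MP_4a14ce_an

namespace WN

namespace WOpsAAux

lemma wt_ge (k : ℤ) : 1 ≤ wt k := by
  unfold wt
  have := abs_nonneg (k : ℝ)
  linarith

lemma wt_pow_ge (k : ℤ) (m : ℕ) : 1 ≤ wt k ^ m := one_le_pow₀ (wt_ge k)

lemma opW_apply (L : ℤ → A → A) (f : W) (h : Summable fun k => ‖L k (f k)‖) (k : ℤ) :
    opW L f k = L k (f k) := by
  unfold opW
  rw [dif_pos h, mkW_apply]

lemma opW_main (L : ℤ → A → A) (C : ℝ) (f : W) (hL : ∀ k a, ‖L k a‖ ≤ C * ‖a‖) :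
    (∀ k, opW L f k = L k (f k)) ∧ ‖opW L f‖ ≤ C * ‖f‖ := by
  have hs : Summable fun k => ‖L k (f k)‖ :=
    Summable.of_nonneg_of_le (fun _ => norm_nonneg _) (fun k => hL k (f k))
      ((summable_norm f).mul_left C)
  have hC : 0 ≤ C := by
    have h := hL 0 1
    rw [norm_one, mul_one] at h
    exact le_trans (norm_nonneg _) h
  refine ⟨opW_apply L f hs, norm_le_of_sum fun s => ?_⟩
  calc ∑ k ∈ s, ‖opW L f k‖ ≤ ∑ k ∈ s, C * ‖f k‖ :=
        Finset.sum_le_sum fun k _ => by rw [opW_apply L f hs]; exact hL k (f k)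
    _ = C * ∑ k ∈ s, ‖f k‖ := by rw [Finset.mul_sum]
    _ ≤ C * ‖f‖ := mul_le_mul_of_nonneg_left (sum_le_norm f s) hC

lemma mulW_main (c : ℤ → ℂ) (m l : ℕ) (C : ℝ) (f : W) (hc : ∀ k, ‖c k‖ ≤ C * wt k ^ l)
    (hC : 0 ≤ C) (hK : ∃ K, WBd (m + l) 0 f K) : (∀ k, mulW c f k = c k • f k) ∧
      ∀ (d K : ℝ), 0 ≤ d → WBd (m + l) d f K → WBd m d (mulW c f) (C * K) := by
  have hs : Summable fun k => ‖c k • f k‖ := by
    obtain ⟨K, b, hb0, hbf, hbK⟩ := hK
    have h0 : ∀ k, 0 ≤ wt k ^ (m + l) * b k := fun k =>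
      mul_nonneg (le_trans zero_le_one (wt_pow_ge k _)) (hb0 k)
    have h1 : Summable fun k => wt k ^ (m + l) * b k := summable_of_sum_le h0 hbK
    refine Summable.of_nonneg_of_le (fun _ => norm_nonneg _) (fun k => ?_) (h1.mul_left C)
    have h2 : ‖f k‖ ≤ b k := (ContinuousMap.norm_le _ (hb0 k)).2 fun θ => hbf k θ θ.2.1
    have h3 : wt k ^ l ≤ wt k ^ (m + l) := pow_le_pow_right₀ (wt_ge k) (Nat.le_add_left l m)
    calc ‖c k • f k‖ = ‖c k‖ * ‖f k‖ := norm_smul _ _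
      _ ≤ (C * wt k ^ l) * b k := mul_le_mul (hc k) h2 (norm_nonneg _)
          (mul_nonneg hC (le_trans zero_le_one (wt_pow_ge k l)))
      _ ≤ (C * wt k ^ (m + l)) * b k :=
          mul_le_mul_of_nonneg_right (mul_le_mul_of_nonneg_left h3 hC) (hb0 k)
      _ = C * (wt k ^ (m + l) * b k) := by ring
  have happ : ∀ k, mulW c f k = c k • f k := fun k => opW_apply _ f hs k
  refine ⟨happ, fun d K _ hd => ?_⟩
  obtain ⟨b, hb0, hbf, hbK⟩ := hd
  refine ⟨fun k => C * wt k ^ l * b k, fun k => ?_, fun k θ hθ => ?_, fun s => ?_⟩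
  · exact mul_nonneg (mul_nonneg hC (le_trans zero_le_one (wt_pow_ge k l))) (hb0 k)
  · rw [happ, ContinuousMap.smul_apply, norm_smul]
    exact mul_le_mul (hc k) (hbf k θ hθ) (norm_nonneg _)
      (mul_nonneg hC (le_trans zero_le_one (wt_pow_ge k l)))
  · calc ∑ k ∈ s, wt k ^ m * (C * wt k ^ l * b k) = C * ∑ k ∈ s, wt k ^ (m + l) * b k := by
          rw [Finset.mul_sum]
          refine Finset.sum_congr rfl fun k _ => ?_
          rw [pow_add]
          ring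
      _ ≤ C * K := mul_le_mul_of_nonneg_left (hbK s) hC

lemma c_bound (j : ℕ) (hj : j ≤ 3) (k : ℤ) :
    ‖(Complex.I * k) ^ j / (wt k : ℂ) ^ 3‖ ≤ 1 := by
  rw [norm_div, norm_pow, norm_pow, norm_mul, Complex.norm_I, one_mul, Complex.norm_intCast,
    Complex.norm_real, Real.norm_eq_abs, abs_of_pos (lt_of_lt_of_le one_pos (wt_ge k))]
  rw [div_le_one (pow_pos (lt_of_lt_of_le one_pos (wt_ge k)) 3)]
  have h1 : |(k : ℝ)| ≤ wt k := by unfold wt; linarith
  calc |(k : ℝ)| ^ j ≤ wt k ^ j := pow_le_pow_left₀ (abs_nonneg _) h1 j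
    _ ≤ wt k ^ 3 := pow_le_pow_right₀ (wt_ge k) hj

lemma c_star (j : ℕ) (k : ℤ) : (Complex.I * ((-k : ℤ) : ℂ)) ^ j / (wt (-k) : ℂ) ^ 3 =
    star ((Complex.I * k) ^ j / (wt k : ℂ) ^ 3) := by
  have h1 : wt (-k) = wt k := by unfold wt; push_cast; rw [abs_neg]
  rw [h1, Complex.star_def, map_div₀, map_pow, map_pow, map_mul, Complex.conj_I,
    Complex.conj_ofReal]
  have h2 : (starRingEnd ℂ) (k : ℂ) = (k : ℂ) := by
    rw [← Complex.ofReal_intCast, Complex.conj_ofReal]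
  rw [h2]
  push_cast
  ring

lemma dd_main (j : ℕ) (hj : j ≤ 3) (f g : W) : ‖DD j f‖ ≤ ‖f‖ ∧ DD j (f - g) = DD j f - DD j g ∧
    (∀ k, DD j f k = ((Complex.I * k) ^ j / (wt k : ℂ) ^ 3) • f k) ∧ (Sym f → Sym (DD j f)) ∧
    ∀ (m : ℕ) (d K : ℝ), WBd m d f K → WBd m d (DD j f) K := by
  have hL : ∀ (k : ℤ) (a : A), ‖((Complex.I * k) ^ j / (wt k : ℂ) ^ 3) • a‖ ≤ 1 * ‖a‖ := by
    intro k a
    rw [norm_smul]
    exact mul_le_mul_of_nonneg_right (c_bound j hj k) (norm_nonneg _)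
  have hM : ∀ f : W, (∀ k, DD j f k = ((Complex.I * k) ^ j / (wt k : ℂ) ^ 3) • f k) ∧
      ‖DD j f‖ ≤ 1 * ‖f‖ := fun f => opW_main _ 1 f hL
  refine ⟨by simpa using (hM f).2, ext_W fun k => ?_, (hM f).1, fun hS k => ?_, ?_⟩
  · rw [lp.coeFn_sub, Pi.sub_apply, (hM (f - g)).1, (hM f).1, (hM g).1, lp.coeFn_sub, Pi.sub_apply,
      smul_sub]
  · rw [(hM f).1, (hM f).1, hS k, c_star, star_smul]
  · rintro m d K ⟨b, hb0, hbf, hbK⟩
    refine ⟨b, hb0, fun k θ hθ => ?_, hbK⟩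
    rw [(hM f).1, ContinuousMap.smul_apply, norm_smul]
    calc _ ≤ 1 * ‖f k θ‖ := mul_le_mul_of_nonneg_right (c_bound j hj k) (norm_nonneg _)
      _ = ‖f k θ‖ := one_mul _
      _ ≤ b k := hbf k θ hθ

end WOpsAAux

/-- W2a -/
theorem wOpsA : WOpsA :=
  ⟨WOpsAAux.opW_main, WOpsAAux.mulW_main, WOpsAAux.dd_main⟩

end WN

end Pool.Agent.Work.MP_4a14ce_an

end

section

/-!
# Group W, item W7: smoothing
-/

open Set MeasureTheory Topology Filter
open scoped ContDiff ENNReal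

namespace Pool.Agent.Work.MP_4a14ce_an

namespace WN

lemma wr_wt_one_le (k : ℤ) : 1 ≤ wt k := by
  unfold wt
  linarith [abs_nonneg (k : ℝ)]

lemma wr_wt_pos (k : ℤ) : 0 < wt k := lt_of_lt_of_le one_pos (wr_wt_one_le k)

lemma wr_mono {m : ℕ} {d K K' : ℝ} {f : W} (h : WBd m d f K) (hK : K ≤ K') : WBd m d f K' := by
  obtain ⟨b, h1, h2, h3⟩ := h
  exact ⟨b, h1, h2, fun s => (h3 s).trans hK⟩

/-- the coefficients of a solution -/
lemma wr_coeff (h1 : WOpsA) (h4 : WDuhA) {T R : ℝ} (hT : 0 < T) (hT1 : T ≤ 1) {c : ℤ → ℂ}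
    (hc : ∀ s : Finset ℤ, ∑ k ∈ s, wt k ^ 3 * ‖c k‖ ≤ R) (N : W) (k : ℤ) :
    (Free T c + Duh T N) k = ((wt k ^ 3 : ℝ) : ℂ) • (freeK T k (c k) + duhK T k (N k)) := by
  have hs1 : Summable fun k => wt k ^ 3 * ‖c k‖ :=
    summable_of_sum_le (fun k => mul_nonneg (pow_nonneg (wr_wt_pos k).le 3) (norm_nonneg _)) hc
  have hs2 : Summable fun k => ‖((wt k ^ 3 : ℝ) : ℂ) • freeK T k (c k)‖ := by
    refine Summable.of_nonneg_of_le (fun k => norm_nonneg _) (fun k => ?_) hs1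
    rw [norm_smul, Complex.norm_real, Real.norm_of_nonneg (pow_nonneg (wr_wt_pos k).le 3)]
    exact mul_le_mul_of_nonneg_left (h4.2.2.2.1 T k (c k) hT.le).1
      (pow_nonneg (wr_wt_pos k).le 3)
  have e1 : Free T c k = ((wt k ^ 3 : ℝ) : ℂ) • freeK T k (c k) := by
    unfold Free
    rw [dif_pos hs2]
    rfl
  have hτ : ∃ τ : ℝ, 0 ≤ τ ∧ τ ≤ 1 ∧ τ ^ 4 = T := by
    refine ⟨T ^ ((1 : ℝ) / 4), Real.rpow_nonneg hT.le _, Real.rpow_le_one hT.le hT1 (by norm_num),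
      ?_⟩
    rw [← Real.rpow_natCast, ← Real.rpow_mul hT.le]
    norm_num
  obtain ⟨τ, hτ0, hτ1, hτT⟩ := hτ
  have e2 : Duh T N k = ((wt k ^ 3 : ℝ) : ℂ) • duhK T k (N k) := by
    have h := (h1.1 (fun k a => ((wt k ^ 3 : ℝ) : ℂ) • duhK T k a) (8 * τ) N (fun k a => by
      rw [← hτT]
      exact h4.1 τ k a hτ0 hτ1)).1 k
    exact h
  have e3 : (Free T c + Duh T N) k = Free T c k + Duh T N k := rfl
  have e4 : ((wt k ^ 3 : ℝ) : ℂ) • (freeK T k (c k) + duhK T k (N k)) =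
      ((wt k ^ 3 : ℝ) : ℂ) • freeK T k (c k) + ((wt k ^ 3 : ℝ) : ℂ) • duhK T k (N k) := by
    ext θ
    exact mul_add _ _ _
  exact e3.trans ((congrArg₂ (fun x y : A => x + y) e1 e2).trans e4.symm)

/-- restarting at time `d` -/
lemma wr_step (h5 : WDuhB) {T d d' : ℝ} (hT : 0 < T) (hT1 : T ≤ 1) (hd : 0 ≤ d) (hd1 : d ≤ 1)
    (hdd : d ≤ d') {f N : W} {c : ℤ → ℂ}
    (hf : ∀ k, f k = ((wt k ^ 3 : ℝ) : ℂ) • (freeK T k (c k) + duhK T k (N k)))
    {m : ℕ} {K S : ℝ} (hN : WBd m d N K) (a : ℤ → ℝ) (ha : ∀ k, ‖f k ⟨d, hd, hd1⟩‖ ≤ a k)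
    (hS : ∀ s : Finset ℤ, ∑ k ∈ s, wt k ^ (m + 1) *
      (Real.exp (-(2 * T * (k : ℝ) ^ 4 * (d' - d))) * a k) ≤ S) :
    WBd (m + 1) d' f (S + 16 * K) := by
  obtain ⟨b, hb0, hb1, hb2⟩ := hN
  refine ⟨fun k => Real.exp (-(2 * T * (k : ℝ) ^ 4 * (d' - d))) * a k + 16 * b k / wt k,
    fun k => ?_, fun k θ hθ => ?_, fun s => ?_⟩
  · have h1 : 0 ≤ a k := (norm_nonneg _).trans (ha k)
    have h2 := hb0 k
    have h3 := wr_wt_pos k
    positivity
  · have hw := wr_wt_pos k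
    have hw3 : 0 < wt k ^ 3 := pow_pos hw 3
    have hn : ∀ θ : unitInterval, ‖f k θ‖ = wt k ^ 3 *
        ‖freeK T k (c k) θ + duhK T k (N k) θ‖ := by
      intro θ
      rw [hf k]
      have : (((wt k ^ 3 : ℝ) : ℂ) • (freeK T k (c k) + duhK T k (N k))) θ =
        ((wt k ^ 3 : ℝ) : ℂ) * (freeK T k (c k) θ + duhK T k (N k) θ) := rfl
      rw [this, norm_mul, Complex.norm_real, Real.norm_of_nonneg hw3.le]
    have ha' : ‖freeK T k (c k) ⟨d, hd, hd1⟩ + duhK T k (N k) ⟨d, hd, hd1⟩‖ ≤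
        a k / wt k ^ 3 := by
      rw [le_div_iff₀ hw3, mul_comm, ← hn]
      exact ha k
    have h6 := h5 T d (b k) (a k / wt k ^ 3) k (N k) (c k) ⟨d, hd, hd1⟩ hT hT1 hd rfl (hb0 k)
      (fun θ hθ => hb1 k θ hθ) ha' θ (hdd.trans hθ)
    have hak : 0 ≤ a k := (norm_nonneg _).trans (ha k)
    have h7 : Real.exp (-(2 * T * (k : ℝ) ^ 4 * (θ - d))) ≤
        Real.exp (-(2 * T * (k : ℝ) ^ 4 * (d' - d))) := by
      apply Real.exp_le_exp.mpr
      have h8 : 0 ≤ 2 * T * (k : ℝ) ^ 4 := by positivity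
      nlinarith [mul_le_mul_of_nonneg_left (sub_le_sub_right hθ d) h8]
    rw [hn θ]
    calc wt k ^ 3 * ‖freeK T k (c k) θ + duhK T k (N k) θ‖
        ≤ wt k ^ 3 * (Real.exp (-(2 * T * (k : ℝ) ^ 4 * (θ - d))) * (a k / wt k ^ 3) +
          16 * b k / wt k ^ 4) := mul_le_mul_of_nonneg_left h6 hw3.le
      _ = Real.exp (-(2 * T * (k : ℝ) ^ 4 * (θ - d))) * a k + 16 * b k / wt k := by
          field_simp
      _ ≤ _ := by
          have := mul_le_mul_of_nonneg_right h7 hak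
          linarith
  · have h9 : ∀ k ∈ s, wt k ^ (m + 1) *
        (Real.exp (-(2 * T * (k : ℝ) ^ 4 * (d' - d))) * a k + 16 * b k / wt k) =
        wt k ^ (m + 1) * (Real.exp (-(2 * T * (k : ℝ) ^ 4 * (d' - d))) * a k) +
        16 * (wt k ^ m * b k) := by
      intro k _
      have hw := wr_wt_pos k
      rw [pow_succ]
      field_simp
    rw [Finset.sum_congr rfl h9, Finset.sum_add_distrib, ← Finset.mul_sum]
    have h10 := hS s
    have h11 := hb2 s
    linarith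

lemma wr_exp_bound (c : ℝ) (hc : 0 < c) (m : ℕ) (k : ℤ) :
    wt k ^ m * Real.exp (-(c * (k : ℝ) ^ 4)) ≤ (m.factorial : ℝ) * Real.exp c / c ^ m := by
  have h1 : |(k : ℝ)| ≤ (k : ℝ) ^ 4 := by
    have h2 : |(k : ℝ)| = ((|k| : ℤ) : ℝ) := by push_cast; rfl
    have h3 : (k : ℝ) ^ 4 = ((|k| : ℤ) : ℝ) ^ 4 := by
      rw [← h2]
      have : |(k : ℝ)| ^ 4 = (k : ℝ) ^ 4 := by
        rw [← abs_pow, abs_of_nonneg (by positivity)]
      exact this.symm
    rw [h2, h3]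
    have h4 : (0 : ℤ) ≤ |k| := abs_nonneg k
    have h5 : |k| ≤ |k| ^ 4 := by
      rcases h4.eq_or_lt with h | h
      · rw [← h]; norm_num
      · have h6 : 1 ≤ |k| := h
        calc |k| = |k| ^ 1 := (pow_one _).symm
          _ ≤ |k| ^ 4 := pow_le_pow_right₀ h6 (by norm_num)
    exact_mod_cast h5
  have h2 : (c * wt k) ^ m / (m.factorial : ℝ) ≤ Real.exp (c * wt k) :=
    Real.pow_div_factorial_le_exp (c * wt k) (mul_nonneg hc.le (wr_wt_pos k).le) m
  have h3 : Real.exp (c * wt k) = Real.exp c * Real.exp (c * |(k : ℝ)|) := by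
    rw [← Real.exp_add]
    congr 1
    unfold wt
    ring
  have hf : (0 : ℝ) < (m.factorial : ℝ) := by exact_mod_cast m.factorial_pos
  rw [div_le_iff₀ hf, h3, mul_pow] at h2
  rw [le_div_iff₀ (pow_pos hc m)]
  have h4 : Real.exp (-(c * (k : ℝ) ^ 4)) ≤ Real.exp (-(c * |(k : ℝ)|)) := by
    apply Real.exp_le_exp.mpr
    have := mul_le_mul_of_nonneg_left h1 hc.le
    linarith
  have h5 : Real.exp (c * |(k : ℝ)|) * Real.exp (-(c * |(k : ℝ)|)) = 1 := by
    rw [← Real.exp_add, add_neg_cancel, Real.exp_zero]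
  have hw : 0 ≤ wt k ^ m := pow_nonneg (wr_wt_pos k).le m
  calc wt k ^ m * Real.exp (-(c * (k : ℝ) ^ 4)) * c ^ m
      ≤ wt k ^ m * Real.exp (-(c * |(k : ℝ)|)) * c ^ m := by
        apply mul_le_mul_of_nonneg_right _ (pow_pos hc m).le
        exact mul_le_mul_of_nonneg_left h4 hw
    _ = (c ^ m * wt k ^ m) * Real.exp (-(c * |(k : ℝ)|)) := by ring
    _ ≤ (Real.exp c * Real.exp (c * |(k : ℝ)|) * (m.factorial : ℝ)) *
        Real.exp (-(c * |(k : ℝ)|)) :=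
        mul_le_mul_of_nonneg_right h2 (Real.exp_pos _).le
    _ = (m.factorial : ℝ) * Real.exp c *
        (Real.exp (c * |(k : ℝ)|) * Real.exp (-(c * |(k : ℝ)|))) := by ring
    _ = (m.factorial : ℝ) * Real.exp c := by rw [h5, mul_one]

theorem wReg (h1 : WOpsA) (h2 : WOpsB) (h3 : WNon) (h4 : WDuhA) (h5 : WDuhB) : WReg := by
  intro n σ T K R hT hT1 hK
  constructor
  · intro m
    induction m with
    | zero =>
      intro d hd hd1
      refine ⟨K, fun c p0 m0 U P M hc hFx hU hP hM i => ?_⟩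
      exact wr_mono (h2.2.2.2.2.2.2 (U i) d) (hU i)
    | succ m ih =>
      intro d hd hd1
      obtain ⟨K1, hK1⟩ := ih (d / 2) (by linarith) (by linarith)
      obtain ⟨K2, hK2⟩ := h3.1 n σ (max K1 K) m (hK.trans (le_max_right _ _))
      refine ⟨((m + 1).factorial : ℝ) * Real.exp (T * d) / (T * d) ^ (m + 1) * K + 16 * K2,
        fun c p0 m0 U P M hc hFx hU hP hM i => ?_⟩
      have hU1 : ∀ i, WBd m (d / 2) (U i) (max K1 K) := fun i =>
        wr_mono (hK1 c p0 m0 U P M hc hFx hU hP hM i) (le_max_left _ _)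
      have hN := hK2 (d / 2) U P M hU1 (hP.trans (le_max_right _ _))
        (hM.trans (le_max_right _ _)) i
      have hf : ∀ k, U i k = ((wt k ^ 3 : ℝ) : ℂ) •
          (freeK T k (c i k) + duhK T k (NW σ P M U i k)) := by
        intro k
        conv_lhs => rw [hFx.u i]
        exact wr_coeff h1 h4 hT hT1 (hc i) (NW σ P M U i) k
      refine wr_step h5 hT hT1 (by linarith : 0 ≤ d / 2) (by linarith) (by linarith) hf hN
        (fun k => ‖U i k‖) (fun k => (U i k).norm_coe_le_norm _) ?_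
      intro s
      have hTd : 0 < T * d := mul_pos hT hd
      have h6 : ∀ k ∈ s, wt k ^ (m + 1) *
          (Real.exp (-(2 * T * (k : ℝ) ^ 4 * (d - d / 2))) * ‖U i k‖) ≤
          ((m + 1).factorial : ℝ) * Real.exp (T * d) / (T * d) ^ (m + 1) * ‖U i k‖ := by
        intro k _
        have h7 := wr_exp_bound (T * d) hTd (m + 1) k
        have h8 : -(2 * T * (k : ℝ) ^ 4 * (d - d / 2)) = -(T * d * (k : ℝ) ^ 4) := by ring
        rw [h8, ← mul_assoc]
        exact mul_le_mul_of_nonneg_right h7 (norm_nonneg _)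
      refine (Finset.sum_le_sum h6).trans ?_
      rw [← Finset.mul_sum]
      apply mul_le_mul_of_nonneg_left _ (by positivity)
      exact (sum_le_norm (U i) s).trans (hU i)
  · intro c p0 m0 U P M hFx hc
    have key : ∀ m : ℕ, ∃ K1, ∀ i, WBd m 0 (U i) K1 := by
      intro m
      induction m with
      | zero =>
        refine ⟨∑ j, ‖U j‖, fun i => wr_mono (h2.2.2.2.2.2.2 (U i) 0) ?_⟩
        exact Finset.single_le_sum (f := fun j => ‖U j‖) (fun j _ => norm_nonneg _)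
          (Finset.mem_univ i)
      | succ m ih =>
        obtain ⟨K1, hK1⟩ := ih
        obtain ⟨K2, hK2⟩ := h3.1 n σ (max K1 (max ‖P‖ ‖M‖)) m
          ((norm_nonneg P).trans ((le_max_left _ _).trans (le_max_right _ _)))
        obtain ⟨K3, hK3⟩ := hc 3
        obtain ⟨K4, hK4⟩ := hc (m + 4)
        refine ⟨K4 + 16 * K2, fun i => ?_⟩
        have hN := hK2 0 U P M (fun i => wr_mono (hK1 i) (le_max_left _ _))
          ((le_max_left _ _).trans (le_max_right _ _)) ((le_max_right _ _).trans (le_max_right _ _)) i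
        have hf : ∀ k, U i k = ((wt k ^ 3 : ℝ) : ℂ) •
            (freeK T k (c i k) + duhK T k (NW σ P M U i k)) := by
          intro k
          conv_lhs => rw [hFx.u i]
          exact wr_coeff h1 h4 hT hT1 (hK3 i) (NW σ P M U i) k
        refine wr_step h5 hT hT1 le_rfl zero_le_one le_rfl hf hN
          (fun k => wt k ^ 3 * ‖c i k‖) (fun k => ?_) (fun s => ?_)
        · have e0 : (projIcc (0 : ℝ) 1 zero_le_one 0) = ⟨0, le_rfl, zero_le_one⟩ :=
            projIcc_of_mem zero_le_one ⟨le_rfl, zero_le_one⟩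
          have e1 : duhK T k (NW σ P M U i k) ⟨0, le_rfl, zero_le_one⟩ = 0 := by
            have h := (h4.2.2.2.2.1 T k (NW σ P M U i k)).1
            unfold ex at h
            rwa [e0] at h
          have e2 : freeK T k (c i k) ⟨0, le_rfl, zero_le_one⟩ = c i k := by
            have h := (h4.2.2.2.2.2 T k (c i k)).1
            unfold ex at h
            rwa [e0] at h
          have hw3 : 0 ≤ wt k ^ 3 := pow_nonneg (wr_wt_pos k).le 3
          rw [hf k]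
          have e3 : (((wt k ^ 3 : ℝ) : ℂ) • (freeK T k (c i k) + duhK T k (NW σ P M U i k)))
              ⟨0, le_rfl, zero_le_one⟩ = ((wt k ^ 3 : ℝ) : ℂ) *
              (freeK T k (c i k) ⟨0, le_rfl, zero_le_one⟩ +
                duhK T k (NW σ P M U i k) ⟨0, le_rfl, zero_le_one⟩) := rfl
          rw [e3, e1, e2, add_zero, norm_mul, Complex.norm_real, Real.norm_of_nonneg hw3]
        · have h6 : ∀ k ∈ s, wt k ^ (m + 1) *
              (Real.exp (-(2 * T * (k : ℝ) ^ 4 * (0 - 0))) * (wt k ^ 3 * ‖c i k‖)) =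
              wt k ^ (m + 4) * ‖c i k‖ := by
            intro k _
            rw [sub_zero, mul_zero, neg_zero, Real.exp_zero]
            ring
          rw [Finset.sum_congr rfl h6]
          exact hK4 i s
    intro i m
    obtain ⟨K1, hK1⟩ := key m
    exact ⟨K1, hK1 i⟩

end WN

end Pool.Agent.Work.MP_4a14ce_an

end

section

/-!
# Group W: dictionary between the Wiener algebra and functions
-/

open Set MeasureTheory Topology Filter
open scoped ContDiff ENNReal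

namespace Pool.Agent.Work.MP_4a14ce_an

namespace WN

/-- at the time `t` the element `f` represents the real function `φ` -/
def Rep (t : ℝ) (f : W) (φ : ℝ → ℝ) : Prop := ∀ x, E f t x = ((φ x : ℝ) : ℂ)

lemma ex_mul (a b : A) (t : ℝ) : ex (a * b) t = ex a t * ex b t := rfl

lemma E_zero (h4 : WEvalA) (t x : ℝ) : E 0 t x = 0 := by
  have h := (h4.1 0 0 t x).2.1
  rw [add_zero] at h
  exact left_eq_add.mp h

lemma Rep.conv (h4 : WEvalA) {t : ℝ} {f g : W} {φ ψ : ℝ → ℝ} (hf : Rep t f φ) (hg : Rep t g ψ) :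
    Rep t (WN.conv f g) (fun x => φ x * ψ x) := by
  intro x
  rw [(h4.1 f g t x).1, hf x, hg x]
  push_cast
  rfl

lemma Rep.add (h4 : WEvalA) {t : ℝ} {f g : W} {φ ψ : ℝ → ℝ} (hf : Rep t f φ) (hg : Rep t g ψ) :
    Rep t (f + g) (fun x => φ x + ψ x) := by
  intro x
  rw [(h4.1 f g t x).2.1, hf x, hg x]
  push_cast
  rfl

lemma Rep.sub (h4 : WEvalA) {t : ℝ} {f g : W} {φ ψ : ℝ → ℝ} (hf : Rep t f φ) (hg : Rep t g ψ) :
    Rep t (f - g) (fun x => φ x - ψ x) := by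
  intro x
  rw [(h4.1 f g t x).2.2.1, hf x, hg x]
  push_cast
  rfl

lemma Rep.smul (h4 : WEvalA) {t : ℝ} {f : W} {φ : ℝ → ℝ} (c : ℝ) (hf : Rep t f φ) :
    Rep t ((c : ℂ) • f) (fun x => c * φ x) := by
  intro x
  rw [h4.2.1 (c : ℂ) f t x, hf x]
  push_cast
  rfl

lemma Rep.cst (h4 : WEvalA) {t : ℝ} {a : A} {p : ℝ} (ha : ex a t = (p : ℂ)) :
    Rep t (WN.cst a) (fun _ => p) := by
  intro x
  rw [h4.2.2.1 a t x, ha]

lemma Rep.sum (h4 : WEvalA) {t : ℝ} {ι : Type*} (s : Finset ι) {f : ι → W} {φ : ι → ℝ → ℝ}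
    (hf : ∀ i, Rep t (f i) (φ i)) : Rep t (∑ i ∈ s, f i) (fun x => ∑ i ∈ s, φ i x) := by
  classical
  induction s using Finset.induction_on with
  | empty =>
    intro x
    simp only [Finset.sum_empty]
    rw [E_zero h4]
    simp
  | insert i s hi ih =>
    intro x
    rw [Finset.sum_insert hi, (h4.1 _ _ t x).2.1, hf i x, ih x]
    simp only [Finset.sum_insert hi]
    push_cast
    rfl

lemma Rep.BWd (h4 : WEvalA) {n : ℕ} {t : ℝ} (σ : ℝ) {f g : Fin (n + 1) → W} {φ ψ : ℝ → V n}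
    (hf : ∀ i, Rep t (f i) (fun x => φ x i)) (hg : ∀ i, Rep t (g i) (fun x => ψ x i)) :
    Rep t (WN.BWd σ f g) (fun x => B σ (φ x) (ψ x)) := by
  have h1 := ((hf 0).conv h4 (hg 0)).smul h4 σ
  have h2 := Rep.sum h4 Finset.univ (f := fun i : Fin n => WN.conv (f i.succ) (g i.succ))
    (φ := fun i x => φ x i.succ * ψ x i.succ) fun i => (hf i.succ).conv h4 (hg i.succ)
  exact h1.add h4 h2

lemma Rep.coeff (h5 : WEvalB) {t : ℝ} {f : W} {φ : ℝ → ℝ} (hf : Rep t f φ) :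
    ex (f 0) t = (((2 * Real.pi)⁻¹ * per φ : ℝ) : ℂ) := by
  have h := h5.2.2.1 f t
  have h1 : ∫ x in (0 : ℝ)..(2 * Real.pi), E f t x = ((per φ : ℝ) : ℂ) := by
    unfold per
    rw [← intervalIntegral.integral_ofReal]
    exact intervalIntegral.integral_congr fun x _ => hf x
  rw [h1] at h
  have hpi : (2 * (Real.pi : ℂ)) ≠ 0 := by
    have := Real.pi_ne_zero
    have h2 : (Real.pi : ℂ) ≠ 0 := by exact_mod_cast this
    simp [h2]
  rw [Complex.ofReal_mul, h]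
  push_cast
  field_simp

lemma Rep.anti (h5 : WEvalB) {t : ℝ} {f : W} {φ : ℝ → ℝ} (hf : Rep t f φ) :
    Rep t (WN.anti f) (fun x => ∫ y in (0 : ℝ)..x, (φ y - (2 * Real.pi)⁻¹ * per φ)) := by
  intro x
  rw [h5.2.2.2 f t x, ← intervalIntegral.integral_ofReal]
  apply intervalIntegral.integral_congr
  intro y _
  show E f t y - ex (f 0) t = _
  rw [hf y, hf.coeff h5]
  push_cast
  rfl

theorem wRhs (h1 : WOpsA) (h4 : WEvalA) (h5 : WEvalB) (h6 : WCur) : WRhs := by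
  intro n σ U P M hRap hSym hPs hMs t
  have hreal : ∀ (a : A), star a = a → ex a t = (((ex a t).re : ℝ) : ℂ) := by
    intro a ha
    have h1 : star (ex a t) = ex a t := by
      unfold ex
      rw [← ContinuousMap.star_apply, ha]
    exact (Complex.conj_eq_iff_re.mp h1).symm
  set p := (ex P t).re with hp
  set m := (ex M t).re with hm
  have hP : ex P t = (p : ℂ) := hreal P hPs
  have hM : ex M t = (m : ℂ) := hreal M hMs
  set u := cur U t with hu
  have hD : ∀ j ≤ 3, ∀ i, Rep t (DD j (U i)) (fun x => iteratedDeriv j u x i) := by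
    intro j hj i x
    have h2 := (h6 n U hRap t).2.2 j x i
    have h3 := h4.2.2.2.1 (DD j (U i)) t x ((h1.2.2 j hj (U i) (U i)).2.2.2.1 (hSym i))
    rw [← h3]
    show (((E (mulW (fun k => (Complex.I * k) ^ j / (wt k : ℂ) ^ 3) (U i)) t x).re : ℝ) : ℂ) = _
    rw [← h2]
  have hB22 : Rep t (BWd σ (fun i => DD 2 (U i)) (fun i => DD 2 (U i)))
      (fun x => B σ (iteratedDeriv 2 u x) (iteratedDeriv 2 u x)) :=
    Rep.BWd h4 σ (fun i => hD 2 (by norm_num) i) (fun i => hD 2 (by norm_num) i)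
  have hB23 : Rep t (BWd σ (fun i => DD 2 (U i)) (fun i => DD 3 (U i)))
      (fun x => B σ (iteratedDeriv 2 u x) (iteratedDeriv 3 u x)) :=
    Rep.BWd h4 σ (fun i => hD 2 (by norm_num) i) (fun i => hD 3 (by norm_num) i)
  have hB33 : Rep t (BWd σ (fun i => DD 3 (U i)) (fun i => DD 3 (U i)))
      (fun x => B σ (iteratedDeriv 3 u x) (iteratedDeriv 3 u x)) :=
    Rep.BWd h4 σ (fun i => hD 3 (by norm_num) i) (fun i => hD 3 (by norm_num) i)
  have hPP : ex (P * P) t = ((p ^ 2 : ℝ) : ℂ) := by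
    rw [ex_mul, hP]; push_cast; ring
  have hPPP : ex (P * (P * P)) t = ((p ^ 3 : ℝ) : ℂ) := by
    rw [ex_mul, ex_mul, hP]; push_cast; ring
  have hMM : ex (M * M) t = ((m ^ 2 : ℝ) : ℂ) := by
    rw [ex_mul, hM]; push_cast; ring
  have hrho : Rep t (rhoW σ P U) (rho σ p u) :=
    hB22.sub h4 ((Rep.cst h4 hPP).smul h4 σ)
  have hrhox : Rep t (rhoxW σ U) (rhox σ u) := by
    have := hB23.smul h4 2
    intro x
    have h2 := this x
    have h6 : ((2 : ℝ) : ℂ) = (2 : ℂ) := by norm_num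
    rw [h6] at h2
    exact h2
  have heta : Rep t (etaW σ P U) (eta σ p u) := by
    have h2 := (hB33.sub h4 (((Rep.cst h4 hP).conv h4 hB22).smul h4 (2 * σ))).add h4
      (Rep.cst h4 hPPP)
    intro x
    have h3 := h2 x
    unfold etaW eta
    rw [h3]
    congr 1
    ring
  have hbeta : Rep t (betaW σ P M U) (beta σ p m u) := by
    have h2 := (((Rep.cst h4 hM).conv h4 hrho).smul h4 3).add h4
      ((Rep.cst h4 hP).smul h4 (2 * σ - 1))
    intro x
    have h3 := h2 x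
    unfold betaW beta
    have h5 : ((3 : ℝ) : ℂ) = (3 : ℂ) := by norm_num
    rw [h5] at h3
    rw [h3]
    congr 1
    ring
  have hhh : Rep t (hhW σ P M U) (hh σ p m u) := by
    have h2 := ((((Rep.cst h4 hM).conv h4 heta).smul h4 2).sub h4
      (((Rep.cst h4 hMM).conv h4 (hrho.conv h4 hrho)).smul h4 3)).sub h4
      (hrho.smul h4 (2 * σ - 1))
    intro x
    have h3 := h2 x
    unfold hhW hh
    have h5 : ((3 : ℝ) : ℂ) = (3 : ℂ) := by norm_num
    have h6 : ((2 : ℝ) : ℂ) = (2 : ℂ) := by norm_num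
    rw [h5, h6] at h3
    rw [h3]
    congr 1
    ring
  have hmu : ex (muA σ P M U) t = ((mu σ p m u : ℝ) : ℂ) := hhh.coeff h5
  have hev : ex (M * ev0 (rhoxW σ U)) t = ((m * rhox σ u 0 : ℝ) : ℂ) := by
    rw [ex_mul, hM, ← ((h4.1 (rhoxW σ U) (rhoxW σ U) t 0).2.2.2.2.2), hrhox 0]
    push_cast
    rfl
  have halpha : Rep t (alphaW σ P M U) (alpha σ p m u) := by
    have h2 := ((((Rep.cst h4 hM).conv h4 hrhox).smul h4 (-4)).add h4 (Rep.cst h4 hev)).add h4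
      (hhh.anti h5)
    intro x
    have h3 := h2 x
    unfold alphaW alpha mu
    have h5 : ((-4 : ℝ) : ℂ) = (-4 : ℂ) := by norm_num
    rw [h5] at h3
    rw [h3]
    congr 1
    ring
  refine ⟨?_, ?_⟩
  · rw [hmu, Complex.ofReal_re]
  · intro x i
    have hD0 := hD 0 (by norm_num) i
    have hD1 := hD 1 (by norm_num) i
    have hD2 := hD 2 (by norm_num) i
    have h2 := ((((((Rep.cst h4 hP).conv h4 hD2).smul h4 (-(2 * σ))).add h4
      (halpha.conv h4 hD1)).add h4 ((hrho.conv h4 hD0).smul h4 (2 * σ))).sub h4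
      (hbeta.conv h4 (hD2.add h4 (((Rep.cst h4 hP).conv h4 hD0).smul h4 σ))))
    have h3 : E (NW σ P M U i) t x = _ := h2 x
    rw [h3, Complex.ofReal_re]
    simp only [rhs, Pi.add_apply, Pi.sub_apply, Pi.smul_apply, smul_eq_mul,
      iteratedDeriv_zero]
    ring

end WN

end Pool.Agent.Work.MP_4a14ce_an

end

section

/-!
# W8b: the time derivative
-/

open Set MeasureTheory Topology Filter
open scoped ContDiff ENNReal

namespace Pool.Agent.Work.MP_4a14ce_an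

namespace WN

namespace WTimeAux

variable {n : ℕ}

lemma wt_ge (k : ℤ) : 1 ≤ wt k := by
  unfold wt
  have := abs_nonneg (k : ℝ)
  linarith

lemma wt_ne (k : ℤ) : (wt k : ℂ) ≠ 0 := by
  have := wt_ge k
  exact_mod_cast (by linarith : (0 : ℝ) < wt k).ne'

lemma ex_add (a b : A) (t : ℝ) : ex (a + b) t = ex a t + ex b t := rfl

lemma ex_sub (a b : A) (t : ℝ) : ex (a - b) t = ex a t - ex b t := rfl

lemma ex_smul (z : ℂ) (a : A) (t : ℝ) : ex (z • a) t = z * ex a t := rfl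

lemma ex_algebraMap (z : ℂ) (t : ℝ) : ex (algebraMap ℂ A z) t = z := rfl

/-! ### closure of the class `RW r` -/

section clos

variable (hc : WClos) {r : ℕ} {σ : ℝ} {P M : A} {U : Fin (n + 1) → W}

include hc

lemma rw_zero {f : W} (hf : RW r f) : RW r (0 : W) := by
  have := (hc.1 r f f hf hf).2.2
  rwa [sub_self] at this

lemma rw_BWd (f g : Fin (n + 1) → W) (hf : ∀ i, RW r (f i)) (hg : ∀ i, RW r (g i)) :
    RW r (BWd σ f g) := by
  unfold BWd
  have h1 : ∀ i, RW r (conv (f i) (g i)) := fun i => (hc.1 r _ _ (hf i) (hg i)).1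
  refine (hc.1 r _ _ (hc.2.1 r _ _ (h1 0)).1 ?_).2.1
  refine Finset.sum_induction _ (RW r) (fun a b ha hb => (hc.1 r a b ha hb).2.1)
    (rw_zero hc (hf 0)) (fun i _ => h1 i.succ)

lemma rw_cst {a : A} (ha : RA r a) : RW r (cst a) :=
  (hc.2.2.2.1 r a a 1 ha ha).2.2.2.2

lemma ra_mul {a b : A} (ha : RA r a) (hb : RA r b) : RA r (a * b) :=
  (hc.2.2.2.1 r a b 1 ha hb).1

lemma ra_smul (z : ℂ) {a : A} (ha : RA r a) : RA r (z • a) :=
  (hc.2.2.2.1 r a a z ha ha).2.2.2.1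

lemma rw_conv {f g : W} (hf : RW r f) (hg : RW r g) : RW r (conv f g) := (hc.1 r f g hf hg).1

lemma rw_add {f g : W} (hf : RW r f) (hg : RW r g) : RW r (f + g) := (hc.1 r f g hf hg).2.1

lemma rw_sub {f g : W} (hf : RW r f) (hg : RW r g) : RW r (f - g) := (hc.1 r f g hf hg).2.2

lemma rw_smul (z : ℂ) {f : W} (hf : RW r f) : RW r (z • f) := (hc.2.1 r f z hf).1

lemma rw_rho (hP : RA r P) (hU : ∀ j ≤ 3, ∀ i, RW r (DD j (U i))) : RW r (rhoW σ P U) :=
  rw_sub hc (rw_BWd hc _ _ (hU 2 (by norm_num)) (hU 2 (by norm_num)))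
    (rw_smul hc _ (rw_cst hc (ra_mul hc hP hP)))

lemma rw_rhox (hU : ∀ j ≤ 3, ∀ i, RW r (DD j (U i))) : RW r (rhoxW σ U) :=
  rw_smul hc _ (rw_BWd hc _ _ (hU 2 (by norm_num)) (hU 3 le_rfl))

lemma rw_eta (hP : RA r P) (hU : ∀ j ≤ 3, ∀ i, RW r (DD j (U i))) : RW r (etaW σ P U) :=
  rw_add hc (rw_sub hc (rw_BWd hc _ _ (hU 3 le_rfl) (hU 3 le_rfl))
    (rw_smul hc _ (rw_conv hc (rw_cst hc hP)
      (rw_BWd hc _ _ (hU 2 (by norm_num)) (hU 2 (by norm_num))))))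
    (rw_cst hc (ra_mul hc hP (ra_mul hc hP hP)))

lemma rw_beta (hP : RA r P) (hM : RA r M) (hU : ∀ j ≤ 3, ∀ i, RW r (DD j (U i))) :
    RW r (betaW σ P M U) :=
  rw_add hc (rw_smul hc _ (rw_conv hc (rw_cst hc hM) (rw_rho hc hP hU)))
    (rw_smul hc _ (rw_cst hc hP))

lemma rw_hh (hP : RA r P) (hM : RA r M) (hU : ∀ j ≤ 3, ∀ i, RW r (DD j (U i))) :
    RW r (hhW σ P M U) :=
  rw_sub hc (rw_sub hc (rw_smul hc _ (rw_conv hc (rw_cst hc hM) (rw_eta hc hP hU)))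
    (rw_smul hc _ (rw_conv hc (rw_cst hc (ra_mul hc hM hM))
      (rw_conv hc (rw_rho hc hP hU) (rw_rho hc hP hU)))))
    (rw_smul hc _ (rw_rho hc hP hU))

lemma rw_alpha (hP : RA r P) (hM : RA r M) (hU : ∀ j ≤ 3, ∀ i, RW r (DD j (U i))) :
    RW r (alphaW σ P M U) := by
  have h1 : RW r (rhoxW σ U) := rw_rhox hc hU
  have h2 : RA r (ev0 (rhoxW σ U)) := (hc.2.1 r _ 1 h1).2.2.1
  exact rw_add hc (rw_add hc (rw_smul hc _ (rw_conv hc (rw_cst hc hM) h1))
    (rw_cst hc (ra_mul hc hM h2))) (hc.2.1 r _ 1 (rw_hh hc hP hM hU)).2.1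

lemma rw_NW (hP : RA r P) (hM : RA r M) (hU : ∀ j ≤ 3, ∀ i, RW r (DD j (U i)))
    (i : Fin (n + 1)) : RW r (NW σ P M U i) :=
  rw_sub hc (rw_add hc (rw_add hc
    (rw_smul hc _ (rw_conv hc (rw_cst hc hP) (hU 2 (by norm_num) i)))
    (rw_conv hc (rw_alpha hc hP hM hU) (hU 1 (by norm_num) i)))
    (rw_smul hc _ (rw_conv hc (rw_rho hc hP hU) (hU 0 (by norm_num) i))))
    (rw_conv hc (rw_beta hc hP hM hU) (rw_add hc (hU 2 (by norm_num) i)
      (rw_smul hc _ (rw_conv hc (rw_cst hc hP) (hU 0 (by norm_num) i)))))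

lemma ra_mu (hP : RA r P) (hM : RA r M) (hU : ∀ j ≤ 3, ∀ i, RW r (DD j (U i))) :
    RA r (muA σ P M U) :=
  (hc.2.1 r _ 1 (rw_hh hc hP hM hU)).2.2.2.1 0

end clos

/-! ### coefficients of the solution -/

lemma free_apply (h3 : WDuhA) {T : ℝ} (hT : 0 < T) {c : ℤ → ℂ}
    (hc : ∃ K', ∀ s : Finset ℤ, ∑ k ∈ s, wt k ^ 3 * ‖c k‖ ≤ K') (k : ℤ) :
    Free T c k = ((wt k ^ 3 : ℝ) : ℂ) • freeK T k (c k) := by
  have hs : Summable fun k => ‖((wt k ^ 3 : ℝ) : ℂ) • freeK T k (c k)‖ := by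
    obtain ⟨K', hK'⟩ := hc
    refine summable_of_sum_le (fun _ => norm_nonneg _) (c := K') fun s => ?_
    refine le_trans (Finset.sum_le_sum fun k _ => ?_) (hK' s)
    have hw : (0 : ℝ) ≤ wt k ^ 3 := pow_nonneg (le_trans zero_le_one (wt_ge k)) 3
    rw [norm_smul, Complex.norm_real, Real.norm_eq_abs, abs_of_nonneg hw]
    exact mul_le_mul_of_nonneg_left (h3.2.2.2.1 T k (c k) hT.le).1 hw
  unfold Free
  rw [dif_pos hs, mkW_apply]

lemma duh_apply (h1 : WOpsA) (h3 : WDuhA) {T : ℝ} (hT : 0 < T) (hT1 : T ≤ 1) (f : W) (k : ℤ) :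
    Duh T f k = ((wt k ^ 3 : ℝ) : ℂ) • duhK T k (f k) := by
  have hτ : (Real.sqrt (Real.sqrt T)) ^ 4 = T := by
    have h4 : (Real.sqrt (Real.sqrt T)) ^ 4 = ((Real.sqrt (Real.sqrt T)) ^ 2) ^ 2 := by ring
    rw [h4, Real.sq_sqrt (Real.sqrt_nonneg _), Real.sq_sqrt hT.le]
  have hτ1 : Real.sqrt (Real.sqrt T) ≤ 1 := by
    rw [Real.sqrt_le_one, Real.sqrt_le_one]
    exact hT1
  have h := (h1.1 (fun k a => ((wt k ^ 3 : ℝ) : ℂ) • duhK T k a) (8 * Real.sqrt (Real.sqrt T)) f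
    (fun k a => by
      have := h3.1 (Real.sqrt (Real.sqrt T)) k a (Real.sqrt_nonneg _) hτ1
      rwa [hτ] at this)).1 k
  exact h

lemma dd0_apply (h1 : WOpsA) (f : W) (k : ℤ) : DD 0 f k = ((wt k ^ 3 : ℝ) : ℂ)⁻¹ • f k := by
  rw [(h1.2.2 0 (by norm_num) f f).2.2.1 k, pow_zero, one_div]
  push_cast
  rfl

lemma smul_aux (z : ℂ) (hz : z ≠ 0) (a b : A) : z⁻¹ • (z • a + z • b) = a + b := by
  refine ContinuousMap.ext fun θ => ?_
  show z⁻¹ * (z * a θ + z * b θ) = a θ + b θ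
  field_simp

lemma dd0_sol (h1 : WOpsA) (h3 : WDuhA) {σ T : ℝ} {c : Fin (n + 1) → ℤ → ℂ} {p0 m0 : ℝ}
    {U : Fin (n + 1) → W} {P M : A} (hT : 0 < T) (hT1 : T ≤ 1) (hF : Fx σ T c p0 m0 U P M)
    (hc : ∀ m : ℕ, ∃ K', ∀ i (s : Finset ℤ), ∑ k ∈ s, wt k ^ m * ‖c i k‖ ≤ K')
    (i : Fin (n + 1)) (k : ℤ) :
    DD 0 (U i) k = freeK T k (c i k) + duhK T k (NW σ P M U i k) := by
  have hw : ((wt k ^ 3 : ℝ) : ℂ) ≠ 0 := by
    push_cast
    exact pow_ne_zero 3 (wt_ne k)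
  obtain ⟨K', hK'⟩ := hc 3
  rw [dd0_apply h1, hF.u i, lp.coeFn_add, Pi.add_apply, free_apply h3 hT ⟨K', hK' i⟩,
    duh_apply h1 h3 hT hT1]
  exact smul_aux _ hw _ _

lemma mul4_apply (h1 : WOpsA) {f : W} (hf : Rapid f) (k : ℤ) :
    mulW (fun k => (Complex.I * k) ^ 4 / (wt k : ℂ) ^ 3) f k =
      ((Complex.I * k) ^ 4 / (wt k : ℂ) ^ 3) • f k := by
  refine (h1.2.1 (fun k => (Complex.I * k) ^ 4 / (wt k : ℂ) ^ 3) 0 1 1 f (fun k => ?_)
    zero_le_one (hf (0 + 1))).1 k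
  have hw := wt_ge k
  have hw0 : 0 < wt k := by linarith
  rw [norm_div, norm_pow, norm_pow, norm_mul, Complex.norm_I, one_mul, Complex.norm_intCast,
    Complex.norm_real, Real.norm_eq_abs, abs_of_pos hw0, div_le_iff₀ (pow_pos hw0 3)]
  have h2 : |(k : ℝ)| ≤ wt k := by unfold wt; linarith
  calc |(k : ℝ)| ^ 4 ≤ wt k ^ 4 := pow_le_pow_left₀ (abs_nonneg _) h2 4
    _ = _ := by ring

lemma I4 (k : ℤ) : (Complex.I * (k : ℂ)) ^ 4 = (k : ℂ) ^ 4 := by
  rw [mul_pow, Complex.I_pow_four, one_mul]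

lemma td_main (h1 : WOpsA) (h3 : WDuhA) {σ T : ℝ} {c : Fin (n + 1) → ℤ → ℂ} {p0 m0 : ℝ}
    {U : Fin (n + 1) → W} {P M : A} (hT : 0 < T) (hT1 : T ≤ 1) (hF : Fx σ T c p0 m0 U P M)
    (hc : ∀ m : ℕ, ∃ K', ∀ i (s : Finset ℤ), ∑ k ∈ s, wt k ^ m * ‖c i k‖ ≤ K')
    (hR : ∀ i, Rapid (U i)) (i : Fin (n + 1)) :
    TD (DD 0 (U i)) ((T : ℂ) • (NW σ P M U i -
      (2 : ℂ) • mulW (fun k => (Complex.I * k) ^ 4 / (wt k : ℂ) ^ 3) (U i))) := by
  intro k t ht
  have hs := dd0_sol h1 h3 hT hT1 hF hc i k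
  have hd1 := ((h3.2.2.2.2.2 T k (c i k)).2 t ht).add
    ((h3.2.2.2.2.1 T k (NW σ P M U i k)).2 t ht)
  have he : ex (DD 0 (U i) k) = ex (freeK T k (c i k)) + ex (duhK T k (NW σ P M U i k)) := by
    rw [hs]; rfl
  rw [he]
  refine hd1.congr_deriv ?_
  rw [lp.coeFn_smul, Pi.smul_apply, lp.coeFn_sub, Pi.sub_apply, lp.coeFn_smul, Pi.smul_apply,
    mul4_apply h1 (hR i), ex_smul, ex_sub, ex_smul, ex_smul, I4]
  have hU : ex (U i k) t = (wt k : ℂ) ^ 3 * (ex (freeK T k (c i k)) t +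
      ex (duhK T k (NW σ P M U i k)) t) := by
    have h5 : ex (DD 0 (U i) k) t = ((wt k ^ 3 : ℝ) : ℂ)⁻¹ * ex (U i k) t := by
      rw [dd0_apply h1, ex_smul]
    have h6 : ex (freeK T k (c i k)) t + ex (duhK T k (NW σ P M U i k)) t =
        ((wt k ^ 3 : ℝ) : ℂ)⁻¹ * ex (U i k) t := by
      rw [← h5, hs]; rfl
    rw [h6]
    push_cast
    field_simp [wt_ne k]
  rw [hU]
  have hw := wt_ne k
  push_cast
  field_simp
  ring

lemma dd_eq (h1 : WOpsA) (hcl : WClos) {f : W} (hf : RW 0 (DD 0 f)) (j : ℕ) (hj : j ≤ 3) :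
    DD j f = mulW (fun k => (Complex.I * k) ^ j) (DD 0 f) := by
  have hb : ∀ k : ℤ, ‖(Complex.I * (k : ℂ)) ^ j‖ ≤ 1 * wt k ^ j := by
    intro k
    rw [norm_pow, norm_mul, Complex.norm_I, one_mul, Complex.norm_intCast, one_mul]
    have h2 : |(k : ℝ)| ≤ wt k := by unfold wt; linarith
    exact pow_le_pow_left₀ (abs_nonneg _) h2 j
  refine ext_W fun k => ?_
  rw [(hcl.2.2.1 0 j _ 1 (DD 0 f) hb hf).2 k, (h1.2.2 j hj f f).2.2.1 k,
    (h1.2.2 0 (by norm_num) f f).2.2.1 k, smul_smul]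
  congr 1
  rw [pow_zero]
  ring

lemma m4_eq (h1 : WOpsA) (hcl : WClos) {f : W} (hR : Rapid f) (hf : RW 0 (DD 0 f)) :
    mulW (fun k => (Complex.I * k) ^ 4 / (wt k : ℂ) ^ 3) f =
      mulW (fun k => (Complex.I * k) ^ 4) (DD 0 f) := by
  have hb : ∀ k : ℤ, ‖(Complex.I * (k : ℂ)) ^ 4‖ ≤ 1 * wt k ^ 4 := by
    intro k
    rw [norm_pow, norm_mul, Complex.norm_I, one_mul, Complex.norm_intCast, one_mul]
    have h2 : |(k : ℝ)| ≤ wt k := by unfold wt; linarith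
    exact pow_le_pow_left₀ (abs_nonneg _) h2 4
  refine ext_W fun k => ?_
  rw [(hcl.2.2.1 0 4 _ 1 (DD 0 f) hb hf).2 k, mul4_apply h1 hR,
    (h1.2.2 0 (by norm_num) f f).2.2.1 k, smul_smul]
  congr 1
  rw [pow_zero]
  ring

lemma tda_P (h3 : WDuhA) {T : ℝ} {g a : A} {z : ℝ} (w : ℂ)
    (hP : a = algebraMap ℂ A (z : ℂ) + duhK T 0 (w • g)) :
    TDA a (((T : ℂ) * w) • g) ∧ ex a 0 = z := by
  constructor
  · intro t ht
    have hd := (h3.2.2.2.2.1 T 0 (w • g)).2 t ht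
    have he : ex a = fun t => (z : ℂ) + ex (duhK T 0 (w • g)) t := by
      funext t
      rw [hP]; rfl
    rw [he]
    refine (hd.const_add (z : ℂ)).congr_deriv ?_
    rw [ex_smul, ex_smul]
    push_cast
    ring
  · have : ex a 0 = (z : ℂ) + ex (duhK T 0 (w • g)) 0 := by rw [hP]; rfl
    rw [this, (h3.2.2.2.2.1 T 0 (w • g)).1, add_zero]

end WTimeAux

open WTimeAux in
/-- W8b -/
theorem wTime (h1 : WOpsA) (h3 : WDuhA) (h4 : WClos) : WTime := by
  intro n σ T c p0 m0 U P M hT hT1 hF hc hR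
  have hTD := td_main h1 h3 hT hT1 hF hc hR
  have hP : TDA P ((-(2 * T) : ℂ) • (P * muA σ P M U)) ∧ ex P 0 = p0 := by
    have := tda_P h3 (-2 : ℂ) hF.p
    have h5 : (T : ℂ) * (-2) = -(2 * T) := by ring
    rwa [h5] at this
  have hM : TDA M ((2 * T : ℂ) • (M * muA σ P M U)) ∧ ex M 0 = m0 := by
    have := tda_P h3 (2 : ℂ) hF.m
    have h5 : (T : ℂ) * 2 = 2 * T := by ring
    rwa [h5] at this
  have hRap : ∀ i, Rapid (DD 0 (U i)) := by
    intro i m
    obtain ⟨K, hK⟩ := hR i m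
    exact ⟨K, (h1.2.2 0 (by norm_num) (U i) (U i)).2.2.2.2 m 0 K hK⟩
  have hRW0 : ∀ i, RW 0 (DD 0 (U i)) := fun i => hRap i
  have hind : ∀ r, (∀ i, RW r (DD 0 (U i))) ∧ RA r P ∧ RA r M := by
    intro r
    induction r with
    | zero => exact ⟨hRW0, trivial, trivial⟩
    | succ r ih =>
      obtain ⟨ihU, ihP, ihM⟩ := ih
      have hDD : ∀ j ≤ 3, ∀ i, RW r (DD j (U i)) := by
        intro j hj i
        rw [dd_eq h1 h4 (hRW0 i) j hj]
        refine (h4.2.2.1 r j _ 1 (DD 0 (U i)) (fun k => ?_) (ihU i)).1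
        rw [norm_pow, norm_mul, Complex.norm_I, one_mul, Complex.norm_intCast, one_mul]
        have h2 : |(k : ℝ)| ≤ wt k := by unfold wt; linarith
        exact pow_le_pow_left₀ (abs_nonneg _) h2 j
      have h4m : ∀ i, RW r (mulW (fun k => (Complex.I * k) ^ 4 / (wt k : ℂ) ^ 3) (U i)) := by
        intro i
        rw [m4_eq h1 h4 (hR i) (hRW0 i)]
        refine (h4.2.2.1 r 4 _ 1 (DD 0 (U i)) (fun k => ?_) (ihU i)).1
        rw [norm_pow, norm_mul, Complex.norm_I, one_mul, Complex.norm_intCast, one_mul]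
        have h2 : |(k : ℝ)| ≤ wt k := by unfold wt; linarith
        exact pow_le_pow_left₀ (abs_nonneg _) h2 4
      have hmu : RA r (muA σ P M U) := ra_mu h4 ihP ihM hDD
      refine ⟨fun i => ⟨hRap i, _, ?_, hTD i⟩, ⟨_, ?_, hP.1⟩, ⟨_, ?_, hM.1⟩⟩
      · exact rw_smul h4 _ (rw_sub h4 (rw_NW h4 ihP ihM hDD i) (rw_smul h4 _ (h4m i)))
      · exact ra_smul h4 _ (ra_mul h4 ihP hmu)
      · exact ra_smul h4 _ (ra_mul h4 ihM hmu)
  refine ⟨hind, hTD, ?_, hP.1, hM.1, hP.2, hM.2⟩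
  intro i k
  rw [dd0_sol h1 h3 hT hT1 hF hc i k, ex_add, (h3.2.2.2.2.2 T k (c i k)).1,
    (h3.2.2.2.2.1 T k (NW σ P M U i k)).1, add_zero]

end WN

end Pool.Agent.Work.MP_4a14ce_an

end

section

/-!
# E6 part D: the transformed solution stays close to the critical point
-/

open Set MeasureTheory Topology Filter
open scoped ContDiff

namespace Pool.Agent.Work.MP_4a14ce_an

variable {n : ℕ}

theorem Conv_unif_nsq {ι : Type*} {l : Filter ι} {F : ι → ℝ → V n} {f : ℝ → V n}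
    (h : TendstoUniformly F f l) {δ : ℝ} (hδ : 0 < δ) :
    ∀ᶠ i in l, ∀ x, nsq (F i x - f x) < δ := by
  have hn : (0 : ℝ) < n + 1 := by positivity
  have h1 := (Metric.tendstoUniformly_iff.1 h) (Real.sqrt (δ / (n + 1)))
    (Real.sqrt_pos.2 (by positivity))
  filter_upwards [h1] with i hi x
  have h2 := hi x
  rw [dist_comm, dist_eq_norm] at h2
  have h3 : ‖F i x - f x‖ ^ 2 < δ / (n + 1) := by
    have h4 := pow_lt_pow_left₀ h2 (norm_nonneg _) two_ne_zero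
    rwa [Real.sq_sqrt (by positivity)] at h4
  rw [lt_div_iff₀ hn] at h3
  have := Conv_nsq_le_norm (F i x - f x)
  linarith

theorem Conv_unif_of_nsq {ι : Type*} {l : Filter ι} {F : ι → ℝ → V n} {f : ℝ → V n}
    (h : ∀ δ > 0, ∀ᶠ i in l, ∀ x, nsq (F i x - f x) ≤ δ) : TendstoUniformly F f l := by
  rw [Metric.tendstoUniformly_iff]
  intro ε hε
  filter_upwards [h ((ε / 2) ^ 2) (by positivity)] with i hi x
  rw [dist_comm, dist_eq_norm]
  have h1 := (Conv_norm_sq_le _).trans (hi x)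
  have h2 : ‖F i x - f x‖ ≤ ε / 2 := (sq_le_sq₀ (norm_nonneg _) (by positivity)).1 h1
  linarith

theorem Conv_bdd {v : ℝ → V n} (hv : ContDiff ℝ ∞ v) (hp : Function.Periodic v (2 * Real.pi))
    (j : ℕ) : ∃ K, 0 ≤ K ∧ ∀ x, nsq (iteratedDeriv j v x) ≤ K := by
  have hc : Continuous (fun x => nsq (iteratedDeriv j v x)) := by
    have := Conv_cont_iter hv j
    fun_prop
  obtain ⟨C, hC⟩ := isCompact_Icc (a := (0 : ℝ)) (b := 2 * Real.pi)
    |>.exists_bound_of_continuousOn hc.continuousOn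
  refine ⟨|C|, abs_nonneg _, fun x => ?_⟩
  have hper : Function.Periodic (fun x => nsq (iteratedDeriv j v x)) (2 * Real.pi) := by
    intro x
    simp only [(Conv_per_iter hp j) x]
  obtain ⟨y, hy, hxy⟩ := hper.exists_mem_Ico₀ (by positivity) x
  have hxy' : nsq (iteratedDeriv j v x) = nsq (iteratedDeriv j v y) := hxy
  rw [hxy']
  have h1 := hC y ⟨hy.1, hy.2.le⟩
  rw [Real.norm_eq_abs, abs_of_nonneg (Conv_nsq_nonneg _)] at h1
  exact h1.trans (le_abs_self C)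

theorem Conv_max (K : ℕ → ℝ) (N : ℕ) : ∃ M, 0 < M ∧ ∀ j ≤ N, K j ≤ M := by
  refine ⟨1 + ∑ j ∈ Finset.range (N + 1), |K j|, by positivity, fun j hj => ?_⟩
  have h1 : |K j| ≤ ∑ j ∈ Finset.range (N + 1), |K j| :=
    Finset.single_le_sum (f := fun j => |K j|) (fun i _ => abs_nonneg _)
      (Finset.mem_range.2 (by omega))
  linarith [le_abs_self (K j)]

theorem Conv_iter_sub {f g : ℝ → V n} (hf : ContDiff ℝ ∞ f) (hg : ContDiff ℝ ∞ g) (j : ℕ)
    (x : ℝ) : iteratedDeriv j (fun y => f y - g y) x = iteratedDeriv j f x - iteratedDeriv j g x :=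
  iteratedDeriv_fun_sub (hf.contDiffAt.of_le (by exact_mod_cast le_top))
    (hg.contDiffAt.of_le (by exact_mod_cast le_top))

theorem Conv_dis_nonneg (hT : ClaimTan) (hV : ClaimVelTan) {σ p : ℝ} {u : ℝ → V n}
    (hσ : Sgn σ) (h : Con σ p u) : 0 ≤ dis σ p u :=
  Conv_per_nonneg fun x => (hT n σ 0 hσ).1 (u x) (h.mem x) _ (hV n σ p u hσ h x).1

theorem Conv_en_anti (hT : ClaimTan) (hV : ClaimVelTan) (hEn : ClaimEnergy) {σ : ℝ}
    (hσ : Sgn σ) {u : ℝ → ℝ → V n} {p : ℝ → ℝ} (hS : CSol σ (Ici 0) u p) :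
    AntitoneOn (fun t => en σ (p t) (u t)) (Ici 0) := by
  have hI : Itv (Ici (0 : ℝ)) := Or.inl ⟨0, rfl⟩
  have hd := hEn n σ (Ici 0) u p hσ hI hS
  refine antitoneOn_of_hasDerivWithinAt_nonpos (convex_Ici 0)
    (fun t ht => (hd t ht).continuousWithinAt)
    (f' := fun t => -((p t * Real.sqrt (p t))⁻¹ * dis σ (p t) (u t))) ?_ ?_
  · intro t ht
    exact (hd t (interior_subset ht)).mono interior_subset
  · intro t ht
    have ht' := interior_subset ht
    have h1 := Conv_dis_nonneg hT hV hσ (hS.con t ht')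
    have h2 := (hS.con t ht').pos
    have : 0 ≤ (p t * Real.sqrt (p t))⁻¹ * dis σ (p t) (u t) := by positivity
    linarith

theorem Conv_stay (hCS : PerCS) (hSl : JSSlice) (hDt : JSDt) (hPer : JSPer) (hItv : ItvBasic)
    (hBr : BRules) (hEn : ClaimEnergy) (hT : ClaimTan) (hV : ClaimVelTan) (hX : ClaimXi)
    (hIso : ClaimIso) (hInv : ClaimInv) (hBd : ClaimBounds) (hSub : ClaimSub)
    (hIn : ClaimInterp) (hLS : ClaimLS)
    (n : ℕ) (σ : ℝ) (hσ : Sgn σ) (u : ℝ → ℝ → V n) (p : ℝ → ℝ) (hS : CSol σ (Ici 0) u p) :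
    ∃ (g : V n →ₗ[ℝ] V n) (t₁ A θ E : ℝ) (s : ℕ → ℝ), 0 ≤ t₁ ∧ 0 ≤ A ∧ θ ∈ Ioo (0 : ℝ) 1 ∧
      IsIso σ g ∧ (∀ t ≥ t₁, E ≤ en σ (p t) (u t)) ∧
      Tendsto (fun t => en σ (p t) (u t)) atTop (𝓝 E) ∧
      (∀ j : ℕ, ∃ M, ∀ t ≥ t₁, ∀ x, nsq (iteratedDeriv j (fun y => g (u t y)) x) ≤ M) ∧
      (∀ a b, t₁ ≤ a → a ≤ b → Real.sqrt (per (fun x => nsq (g (u b x) - g (u a x)))) ≤
        A * (en σ (p a) (u a) - E) ^ (1 - θ)) ∧
      Tendsto s atTop atTop ∧ (∀ k, 0 ≤ s k) ∧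
      Tendsto (fun k => dis σ (p (s k)) (u (s k))) atTop (𝓝 0) := by
  obtain ⟨s, g, v, q, hs, hg, hv, hvel, hlim⟩ := hSub n σ u p hσ hS
  have hpi := Real.pi_pos
  -- transformed curves
  have hcon : ∀ t ∈ Ici (0 : ℝ), ∀ k, Con σ (p t) (fun y => g k (u t y)) ∧
      en σ (p t) (fun y => g k (u t y)) = en σ (p t) (u t) ∧
      dis σ (p t) (fun y => g k (u t y)) = dis σ (p t) (u t) := by
    intro t ht k
    obtain ⟨h1, h2, h3, -⟩ := (hInv n σ (g k) hσ (hg k).2).2.1 (u t) (p t) (hS.con t ht)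
    exact ⟨h1, h2, h3⟩
  have hqpos := hv.pos
  -- limits along the sequence
  have hpt : ∀ j : ℕ, ∀ x, Tendsto (fun k => iteratedDeriv j (fun y => g k (u (s k) y)) x) atTop
      (𝓝 (iteratedDeriv j v x)) := fun j x => (hlim j).tendsto_at x
  have hPq : Tendsto (fun k => p (s k)) atTop (𝓝 q) := by
    have h1 := ((Conv_B_cont (n := n) σ).tendsto (iteratedDeriv 1 v 0, iteratedDeriv 1 v 0)).comp
      ((hpt 1 0).prodMk_nhds (hpt 1 0))
    have h2 : B σ (iteratedDeriv 1 v 0) (iteratedDeriv 1 v 0) = q := by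
      rw [iteratedDeriv_one]
      exact hv.speed 0
    have h3 : ∀ k, B σ (iteratedDeriv 1 (fun y => g k (u (s k) y)) 0)
        (iteratedDeriv 1 (fun y => g k (u (s k) y)) 0) = p (s k) := by
      intro k
      rw [iteratedDeriv_one]
      exact (hcon (s k) (hg k).1 k).1.speed 0
    simp only [h2] at h1
    refine h1.congr fun k => ?_
    exact h3 k
  have hKseq : ∃ K, ∀ᶠ k in atTop, ∀ j ≤ 4, ∀ x,
      nsq (iteratedDeriv j (fun y => g k (u (s k) y)) x) ≤ K := by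
    have h1 : ∀ j : ℕ, ∃ K, ∀ᶠ k in atTop, ∀ x,
        nsq (iteratedDeriv j (fun y => g k (u (s k) y)) x) ≤ K := by
      intro j
      obtain ⟨Kj, -, hKj⟩ := Conv_bdd hv.smooth hv.periodic j
      refine ⟨2 * 1 + 2 * Kj, ?_⟩
      filter_upwards [Conv_unif_nsq (hlim j) one_pos] with k hk x
      have h2 := Conv_nsq_add_le (iteratedDeriv j (fun y => g k (u (s k) y)) x -
        iteratedDeriv j v x) (iteratedDeriv j v x)
      rw [sub_add_cancel] at h2
      linarith [hk x, hKj x]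
    choose Kj hKj using h1
    obtain ⟨M, -, hM⟩ := Conv_max Kj 4
    refine ⟨M, ?_⟩
    have h2 : ∀ j ∈ Finset.range 5, ∀ᶠ k in atTop, ∀ x,
        nsq (iteratedDeriv j (fun y => g k (u (s k) y)) x) ≤ M := by
      intro j hj
      have hj' : j ≤ 4 := by
        have := Finset.mem_range.1 hj
        omega
      filter_upwards [hKj j] with k hk x
      exact (hk x).trans (hM j hj')
    filter_upwards [(Filter.eventually_all_finset _).2 h2] with k hk j hj x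
    exact hk j (Finset.mem_range.2 (by omega)) x
  obtain ⟨Ks, hKs⟩ := hKseq
  set E := en σ q v with hE
  have hEs : Tendsto (fun k => en σ (p (s k)) (u (s k))) atTop (𝓝 E) := by
    have h1 := Conv_lim_en σ (fun k y => g k (u (s k) y)) (fun k => p (s k)) v q hqpos
      (fun k => (hcon (s k) (hg k).1 k).1.smooth) hPq (fun j _ x => hpt j x) Ks hKs
    refine h1.congr fun k => ?_
    exact (hcon (s k) (hg k).1 k).2.1
  have hDs : Tendsto (fun k => dis σ (p (s k)) (u (s k))) atTop (𝓝 0) := by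
    have h1 := Conv_lim_dis σ (fun k y => g k (u (s k) y)) (fun k => p (s k)) v q hqpos.ne'
      (fun k => (hcon (s k) (hg k).1 k).1.smooth) hPq (fun j _ x => hpt j x) Ks hKs
    have h2 : dis σ q v = 0 := by
      unfold dis
      simp [hvel, B, per]
    rw [h2] at h1
    refine h1.congr fun k => ?_
    exact (hcon (s k) (hg k).1 k).2.2
  have hanti := Conv_en_anti hT hV hEn hσ hS
  have hEle : ∀ t ∈ Ici (0 : ℝ), E ≤ en σ (p t) (u t) := by
    intro t ht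
    refine le_of_tendsto hEs ?_
    filter_upwards [hs.eventually_ge_atTop t] with k hk
    exact hanti ht (hg k).1 hk
  have hElim : Tendsto (fun t => en σ (p t) (u t)) atTop (𝓝 E) := by
    rw [tendsto_order]
    constructor
    · intro a ha
      filter_upwards [eventually_ge_atTop (0 : ℝ)] with t ht
      exact ha.trans_le (hEle t ht)
    · intro a ha
      obtain ⟨k, hk⟩ := (hEs.eventually (eventually_lt_nhds ha)).exists
      filter_upwards [eventually_ge_atTop (s k)] with t ht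
      exact (hanti (hg k).1 ((hg k).1.trans ht) ht).trans_lt hk
  -- constants
  obtain ⟨θ, hθ, N, hLS1⟩ := hLS n σ v q hσ hv hvel
  have h1θ : 0 < 1 - θ := by linarith [hθ.2]
  have hM := Conv_bd hIso hInv hBd n σ hσ u p hS (2 * nsq (v 0) + 2)
  choose M hM using hM
  obtain ⟨M0, hM0, hM0'⟩ := Conv_max M (N + 8)
  obtain ⟨⟨Kp, hKp, hKp'⟩, -⟩ := hBd n σ u p hσ hS
  set K := max M0 Kp with hK
  have hKpos : 0 < K := lt_max_of_lt_left hM0
  have hKp1 : ∀ t ∈ Ici (0 : ℝ), K⁻¹ ≤ p t ∧ p t ≤ K := fun t ht =>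
    ⟨(inv_anti₀ hKp (le_max_right _ _)).trans (hKp' t ht).1,
      (hKp' t ht).2.trans (le_max_right _ _)⟩
  have hMK : ∀ j ≤ N + 8, M j ≤ K := fun j hj => (hM0' j hj).trans (le_max_left _ _)
  obtain ⟨C, hC, δ0, hδ0, hLS2⟩ := hLS1 K
  obtain ⟨Cv, hCv, hrhs⟩ := Conv_rhs_le hT hV hBr hX hCS n σ K hσ hKpos
  set c₀ := (K * Real.sqrt K)⁻¹ with hc₀
  have hc₀pos : 0 < c₀ := by positivity
  set A := C / ((1 - θ) * c₀) * Real.sqrt Cv with hA
  have hA0 : 0 ≤ A := by positivity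
  set δ := min δ0 1 with hδ
  have hδpos : 0 < δ := lt_min hδ0 one_pos
  obtain ⟨Kv, hKv0, hKv⟩ := Conv_bdd hv.smooth hv.periodic 8
  obtain ⟨ε, hε, hint⟩ := hIn n 6 (2 * K + 2 * Kv) (δ / 2) (by positivity)
  -- choice of k
  have hex : ∃ k, Conv_close v δ (fun y => g k (u (s k) y)) ∧
      A * (en σ (p (s k)) (u (s k)) - E) ^ (1 - θ) ≤ Real.sqrt ε / 2 ∧
      ∀ x, nsq (g k (u (s k) x) - v x) ≤ ε / (8 * Real.pi) := by
    have h1 : ∀ᶠ k in atTop, Conv_close v δ (fun y => g k (u (s k) y)) := by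
      have h2 : ∀ j ∈ Finset.range 7, ∀ᶠ k in atTop, ∀ x,
          nsq (iteratedDeriv j (fun y => g k (u (s k) y)) x - iteratedDeriv j v x) < δ :=
        fun j _ => Conv_unif_nsq (hlim j) hδpos
      filter_upwards [(Filter.eventually_all_finset _).2 h2] with k hk j hj x
      exact hk j (Finset.mem_range.2 (by omega)) x
    have h2 : Tendsto (fun k => A * (en σ (p (s k)) (u (s k)) - E) ^ (1 - θ)) atTop (𝓝 0) := by
      have h3 : Tendsto (fun k => en σ (p (s k)) (u (s k)) - E) atTop (𝓝 0) := by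
        have := hEs.sub_const E
        rwa [sub_self] at this
      have h4 := (h3.rpow_const (p := 1 - θ) (Or.inr h1θ.le)).const_mul A
      rwa [Real.zero_rpow h1θ.ne', mul_zero] at h4
    have h3 := h2.eventually (eventually_le_nhds (show 0 < Real.sqrt ε / 2 by positivity))
    have h4 := Conv_unif_nsq (hlim 0) (show 0 < ε / (8 * Real.pi) by positivity)
    simp only [iteratedDeriv_zero] at h4
    obtain ⟨k, hk1, hk2, hk3⟩ := (h1.and (h3.and h4)).exists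
    exact ⟨k, hk1, hk2, fun x => (hk3 x).le⟩
  obtain ⟨k, hk1, hk2, hk3⟩ := hex
  set t₁ := s k with ht₁
  have ht₁0 : 0 ≤ t₁ := (hg k).1
  have hSw : CSol σ (Ici 0) (fun t y => g k (u t y)) p :=
    (hInv n σ (g k) hσ (hg k).2).2.2 _ u p hS
  set w : ℝ → ℝ → V n := fun t y => g k (u t y) with hw
  -- consequences of closeness
  have hclose : ∀ t ∈ Ici (0 : ℝ), (∀ j ≤ 6, ∀ x,
      nsq (iteratedDeriv j (w t) x - iteratedDeriv j v x) ≤ δ) →
      (∀ j x, nsq (iteratedDeriv j (w t) x) ≤ M j) ∧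
      (en σ (p t) (w t) - E) ^ θ ≤ C * Real.sqrt (dis σ (p t) (w t)) ∧
      (Continuous (rhs σ (p t) (p t)⁻¹ (w t)) ∧
        per (fun x => nsq (rhs σ (p t) (p t)⁻¹ (w t) x)) ≤ Cv * dis σ (p t) (w t)) := by
    intro t ht hcl
    have h0 : nsq (w t 0) ≤ 2 * nsq (v 0) + 2 := by
      have h1 := hcl 0 (by norm_num) 0
      simp only [iteratedDeriv_zero] at h1
      have h2 := Conv_nsq_add_le (w t 0 - v 0) (v 0)
      rw [sub_add_cancel] at h2
      have : δ ≤ 1 := min_le_right _ _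
      linarith
    have hb : ∀ j x, nsq (iteratedDeriv j (w t) x) ≤ M j := fun j x =>
      hM j t ht (g k) (hg k).2 h0 x
    have hconw : Con σ (p t) (w t) := hSw.con t ht
    refine ⟨hb, ?_, ?_⟩
    · have h1 := hLS2 (w t) (p t) hconw
        (fun j hj x => (hb j x).trans (hMK j (by omega)))
        (fun j hj x => (hcl j hj x).trans (min_le_left _ _))
      have h2 : 0 ≤ en σ (p t) (w t) - E := by
        have h3 : en σ (p t) (w t) = en σ (p t) (u t) := (hcon t ht k).2.1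
        rw [h3]
        linarith [hEle t ht]
      rwa [abs_of_nonneg h2] at h1
    · exact hrhs (w t) (p t) hconw (hKp1 t ht).1 (hKp1 t ht).2
        (fun j hj x => (hb j x).trans (hMK j (by omega)))
  -- length estimate
  have hlen : ∀ a b, 0 ≤ a → a ≤ b → (∀ t ∈ Icc a b, ∀ j ≤ 6, ∀ x,
      nsq (iteratedDeriv j (w t) x - iteratedDeriv j v x) ≤ δ) →
      Real.sqrt (per (fun x => nsq (w b x - w a x))) ≤
        A * (en σ (p a) (u a) - E) ^ (1 - θ) := by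
    intro a b ha hab hcl
    have hmem : ∀ t ∈ Icc a b, t ∈ Ici (0 : ℝ) := fun t ht => ha.trans ht.1
    have h := Conv_length hCS hSl hDt hPer hItv hEn n σ hσ w p hSw a b θ C c₀ Cv E ha hab hθ hC
      hc₀pos hCv
      (fun t ht => by
        have h1 := (hKp1 t (hmem t ht)).2
        have h2 := (hS.con t (hmem t ht)).pos
        refine inv_anti₀ (by positivity) ?_
        exact mul_le_mul h1 (Real.sqrt_le_sqrt h1) (Real.sqrt_nonneg _) hKpos.le)
      (fun t ht => by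
        have h3 : en σ (p t) (w t) = en σ (p t) (u t) := (hcon t (hmem t ht) k).2.1
        rw [h3]
        exact hEle t (hmem t ht))
      (fun t ht => (hclose t (hmem t ht) (hcl t ht)).2.1)
      (fun t ht => (hclose t (hmem t ht) (hcl t ht)).2.2)
      (fun t ht => Conv_dis_nonneg hT hV hσ (hSw.con t (hmem t ht)))
    have h3 : en σ (p a) (w a) = en σ (p a) (u a) := (hcon a ha k).2.1
    rw [h3] at h
    exact h
  -- continuation
  have hper0 : per (fun x => nsq (w t₁ x - v x)) ≤ ε / 4 := by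
    have hc : Continuous (fun x => nsq (w t₁ x - v x)) := by
      have h1 := (hSw.con t₁ ht₁0).smooth.continuous
      have h2 := hv.smooth.continuous
      fun_prop
    have := Conv_per_mono hc (continuous_const (y := ε / (8 * Real.pi))) fun x _ => hk3 x
    rw [Conv_per_const] at this
    refine this.trans (le_of_eq ?_)
    field_simp
    ring
  have hstay : ∀ t ≥ t₁, Conv_close v δ (w t) := by
    refine Conv_contArg (fun t => Conv_close v δ (w t)) t₁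
      (Conv_close_closed hSl w hSw.sol.smooth hSw.sol.periodic v hv.smooth hv.periodic δ t₁ ht₁0)
      hk1 ?_
    intro T hT' hPT
    have hT0 : 0 < T := lt_of_le_of_lt ht₁0 hT'
    -- non strict closeness on the closed interval
    have hclT : ∀ t ∈ Icc t₁ T, ∀ j ≤ 6, ∀ x,
        nsq (iteratedDeriv j (w t) x - iteratedDeriv j v x) ≤ δ := by
      intro t ht j hj x
      rcases ht.2.lt_or_eq with h | h
      · exact (hPT t ⟨ht.1, h⟩ j hj x).le
      · rw [h]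
        obtain ⟨ut, -, hutd⟩ := hDt (n + 1) (Ici 0) w (Or.inl ⟨0, rfl⟩) hSw.sol.smooth
        have h1 : ContinuousAt (fun s => iteratedDeriv j (w s) x) T :=
          (hutd j T hT0.le x).continuousWithinAt.continuousAt (Ici_mem_nhds hT0)
        have h2 : Tendsto (fun s => nsq (iteratedDeriv j (w s) x - iteratedDeriv j v x)) (𝓝[<] T)
            (𝓝 (nsq (iteratedDeriv j (w T) x - iteratedDeriv j v x))) :=
          ((Conv_nsq_cont.tendsto _).comp (h1.tendsto.sub_const _)).mono_left nhdsWithin_le_nhds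
        refine le_of_tendsto h2 ?_
        filter_upwards [Ico_mem_nhdsLT hT'] with s hs
        exact (hPT s hs j hj x).le
    have h1 := (hlen t₁ T ht₁0 hT'.le hclT).trans hk2
    have hwT := (hSw.con T hT0.le).smooth
    have hwt := (hSw.con t₁ ht₁0).smooth
    have h2 : per (fun x => nsq (w T x - w t₁ x)) ≤ ε / 4 := by
      have h3 : 0 ≤ per (fun x => nsq (w T x - w t₁ x)) :=
        Conv_per_nonneg fun x => Conv_nsq_nonneg _
      have h4 := pow_le_pow_left₀ (Real.sqrt_nonneg _) h1 2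
      rw [Real.sq_sqrt h3, div_pow, Real.sq_sqrt hε.le] at h4
      linarith
    have h3 : per (fun x => nsq (w T x - v x)) ≤ ε := by
      have h4 : ∀ x ∈ Icc (0 : ℝ) (2 * Real.pi), nsq (w T x - v x) ≤
          2 * nsq (w T x - w t₁ x) + 2 * nsq (w t₁ x - v x) := by
        intro x _
        have := Conv_nsq_add_le (w T x - w t₁ x) (w t₁ x - v x)
        rwa [sub_add_sub_cancel] at this
      have hc1 := hwT.continuous
      have hc2 := hwt.continuous
      have hc3 := hv.smooth.continuous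
      have h5 := Conv_per_mono (by fun_prop) (by fun_prop) h4
      rw [Conv_per_add (by fun_prop) (by fun_prop), Conv_per_mul, Conv_per_mul] at h5
      linarith
    have hbT := (hclose T hT0.le (hclT T (right_mem_Icc.2 hT'.le))).1
    have h4 := hint (fun x => w T x - v x) (hwT.sub hv.smooth)
      (fun x => by
        show w T (x + 2 * Real.pi) - v (x + 2 * Real.pi) = w T x - v x
        rw [(hSw.sol.periodic T hT0.le) x, hv.periodic x])
      (fun x => by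
        rw [Conv_iter_sub hwT hv.smooth]
        have h5 := Conv_nsq_sub_le (iteratedDeriv (6 + 2) (w T) x) (iteratedDeriv (6 + 2) v x)
        have h6 := (hbT (6 + 2) x).trans (hMK (6 + 2) (by omega))
        have h7 := hKv x
        linarith)
      h3
    intro j hj x
    have h5 := h4 j hj x
    rw [Conv_iter_sub hwT hv.smooth] at h5
    linarith
  refine ⟨g k, t₁, A, θ, E, s, ht₁0, hA0, hθ, (hg k).2, fun t ht => hEle t (ht₁0.trans ht),
    hElim, ?_, ?_, hs, fun k => (hg k).1, hDs⟩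
  · intro j
    refine ⟨M j, fun t ht x => ?_⟩
    exact (hclose t (ht₁0.trans ht) fun j hj x => (hstay t ht j hj x).le).1 j x
  · intro a b ha hab
    exact hlen a b (ht₁0.trans ha) hab fun t ht j hj x => (hstay t (ha.trans ht.1) j hj x).le

end Pool.Agent.Work.MP_4a14ce_an

end

section

/-!
# Product estimates: the final statement
-/

open Set MeasureTheory Topology Filter
open scoped ContDiff

set_option autoImplicit false

namespace Pool.Agent.Work.MP_4a14ce_an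

variable {n : ℕ}

theorem H4a_Bcont (hB : BRules) {σ : ℝ} {u : ℝ → V n} (hu : ContDiff ℝ ∞ u) (i j : ℕ) :
    Continuous fun x => B σ (iteratedDeriv i u x) (iteratedDeriv j u x) :=
  continuous_iff_continuousAt.2 fun x => (H4a_Bder hB hu i j x).continuousAt

theorem H4a_N2cont (hB : BRules) {σ : ℝ} (p m : ℝ) {u : ℝ → V n} (hu : ContDiff ℝ ∞ u) :
    Continuous (H4a_N2 σ p m u) := by
  have hd : ∀ j, Continuous (iteratedDeriv j u) := fun j => (H4a_smooth hu j).continuous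
  have hb : ∀ i j, Continuous fun x => B σ (iteratedDeriv i u x) (iteratedDeriv j u x) :=
    fun i j => H4a_Bcont hB hu i j
  have hρ : Continuous (rho σ p u) :=
    continuous_iff_continuousAt.2 fun x => (H4a_rho' hB p hu x).continuousAt
  have hρx : Continuous (rhox σ u) :=
    continuous_iff_continuousAt.2 fun x => (H4a_rhox' hB hu x).continuousAt
  have hr2 : Continuous (H4a_r2 σ u) :=
    continuous_iff_continuousAt.2 fun x => (H4a_r2' hB hu x).continuousAt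
  have hα : Continuous (alpha σ p m u) :=
    continuous_iff_continuousAt.2 fun x => (H4a_alpha' hB p m hu x).continuousAt
  have ha1 : Continuous (H4a_a1 σ p m u) :=
    continuous_iff_continuousAt.2 fun x => (H4a_a1' hB p m hu x).continuousAt
  have hβ : Continuous (beta σ p m u) :=
    continuous_iff_continuousAt.2 fun x => (H4a_beta' hB p m hu x).continuousAt
  have hr3 : Continuous (H4a_r3 σ u) := by
    unfold H4a_r3
    exact continuous_const.mul ((continuous_const.mul (hb 3 4)).add (hb 2 5))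
  have hex : Continuous (H4a_ex σ p u) := by
    unfold H4a_ex
    exact (continuous_const.mul (hb 3 4)).sub (continuous_const.mul (hb 2 3))
  have hhx : Continuous (H4a_hx σ p m u) := by
    unfold H4a_hx
    exact ((continuous_const.mul hex).sub (continuous_const.mul (hρ.mul hρx))).sub
      (continuous_const.mul hρx)
  have ha2 : Continuous (H4a_a2 σ p m u) := by
    unfold H4a_a2
    exact (continuous_const.mul hr3).add hhx
  have hu0 : Continuous u := hu.continuous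
  unfold H4a_N2
  have d1 := hd 1
  have d2 := hd 2
  have d3 := hd 3
  have d4 := hd 4
  fun_prop

theorem H4a_nsqcont {f : ℝ → V n} (hf : Continuous f) : Continuous fun x => nsq (f x) := by
  unfold nsq
  exact continuous_finsetSum _ fun i _ => ((continuous_apply i).comp hf).pow 2

theorem H4a_per_mono {f g : ℝ → ℝ} (hf : Continuous f) (hg : Continuous g)
    (h : ∀ x ∈ Icc 0 (2 * Real.pi), f x ≤ g x) : per f ≤ per g :=
  intervalIntegral.integral_mono_on (by positivity) (hf.intervalIntegrable _ _)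
    (hg.intervalIntegrable _ _) h

theorem H4a_per_const (c : ℝ) : per (fun _ => c) = 2 * Real.pi * c := by
  unfold per
  rw [intervalIntegral.integral_const, sub_zero, smul_eq_mul]

theorem H4a_final (hB : BRules) {σ p m K L y : ℝ} {u : ℝ → V n}
    (hu : ContDiff ℝ ∞ u) (hK : 1 ≤ K) (hKL : K ≤ L)
    (H : ∀ x, H4a_Hyp σ p m L y u x) (h3 : H4a_a u 3 ≤ K * y ^ 4) (h4 : H4a_a u 4 ≤ K * y ^ 8)
    (h5 : H4a_a u 5 ≤ K * y ^ 12) :
    per (fun x => nsq (H4a_N2 σ p m u x)) ≤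
      (n + 1) * (500 * L ^ 9) ^ 2 * 4 * (7 + 3 * K) * y ^ 14 := by
  have hL1 := (H 0).L1
  have hy1 := (H 0).y1
  have hL0 : 0 < L := lt_of_lt_of_le one_pos hL1
  have hy0 : 0 < y := lt_of_lt_of_le one_pos hy1
  have hpi : Real.pi < 3.15 := Real.pi_lt_d2
  have hpi3 : 3 < Real.pi := Real.pi_gt_three
  have hd : ∀ j, Continuous (iteratedDeriv j u) := fun j => (H4a_smooth hu j).continuous
  have hn : ∀ j, Continuous fun x => nsq (iteratedDeriv j u x) := fun j => H4a_nsqcont (hd j)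
  have hhc := H4a_hhcont hB (σ := σ) p m hu
  -- integral of |hh|
  have hhh : per (fun x => |hh σ p m u x|) ≤ 154 * (L ^ 8 * y ^ 4) := by
    have e : per (fun x => |hh σ p m u x|) ≤
        per (fun x => 2 * L ^ 2 * nsq (iteratedDeriv 3 u x) + 24 * (L ^ 8 * y ^ 4)) := by
      refine H4a_per_mono hhc.abs ((continuous_const.mul (hn 3)).add continuous_const) fun x _ => ?_
      have h1 := H4a_bhh (H x)
      have h2 := H4a_normsq_le (iteratedDeriv 3 u x)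
      have h3 : L ^ 2 * ‖iteratedDeriv 3 u x‖ ^ 2 ≤ L ^ 2 * nsq (iteratedDeriv 3 u x) := by gcongr
      linarith
    have e2 : per (fun x => 2 * L ^ 2 * nsq (iteratedDeriv 3 u x) + 24 * (L ^ 8 * y ^ 4)) =
        2 * L ^ 2 * H4a_a u 3 + 2 * Real.pi * (24 * (L ^ 8 * y ^ 4)) := by
      rw [← H4a_per_const]
      unfold H4a_a per
      beta_reduce
      have hn3 := hn 3
      rw [intervalIntegral.integral_add, intervalIntegral.integral_const_mul]
      · exact Continuous.intervalIntegrable (by fun_prop) _ _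
      · exact Continuous.intervalIntegrable (by fun_prop) _ _
    have e3 : 2 * L ^ 2 * H4a_a u 3 ≤ 2 * (L ^ 8 * y ^ 4) := by
      have m1 := H4a_mono hL1 hy1 (show 3 ≤ 8 by norm_num) (show 4 ≤ 4 by norm_num)
      calc 2 * L ^ 2 * H4a_a u 3 ≤ 2 * L ^ 2 * (L * y ^ 4) := by
            have : H4a_a u 3 ≤ L * y ^ 4 := h3.trans (by gcongr)
            gcongr
        _ = 2 * (L ^ 3 * y ^ 4) := by ring
        _ ≤ 2 * (L ^ 8 * y ^ 4) := by linarith
    have e4 : 0 ≤ L ^ 8 * y ^ 4 := by positivity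
    nlinarith
  have hperabs : |per (hh σ p m u)| ≤ per (fun x => |hh σ p m u x|) :=
    intervalIntegral.abs_integral_le_integral_abs (by positivity)
  have hμ' : 2 * Real.pi * |mu σ p m u| ≤ 154 * (L ^ 8 * y ^ 4) := by
    unfold mu
    rw [abs_mul, abs_inv, abs_of_pos (by positivity : 0 < 2 * Real.pi),
      mul_inv_cancel_left₀ (by positivity)]
    exact hperabs.trans hhh
  have hμ : |mu σ p m u| ≤ 154 * (L ^ 8 * y ^ 4) := by
    have := abs_nonneg (mu σ p m u)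
    nlinarith
  have hα : ∀ x ∈ Icc 0 (2 * Real.pi), |alpha σ p m u x| ≤ 318 * (L ^ 8 * y ^ 4) := by
    intro x hx
    have hcont : Continuous fun z => hh σ p m u z - mu σ p m u := hhc.sub continuous_const
    have i1 : |∫ z in (0 : ℝ)..x, (hh σ p m u z - mu σ p m u)| ≤ 308 * (L ^ 8 * y ^ 4) := by
      calc |∫ z in (0 : ℝ)..x, (hh σ p m u z - mu σ p m u)|
          ≤ ∫ z in (0 : ℝ)..x, |hh σ p m u z - mu σ p m u| :=
            intervalIntegral.abs_integral_le_integral_abs hx.1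
        _ ≤ ∫ z in (0 : ℝ)..(2 * Real.pi), |hh σ p m u z - mu σ p m u| := by
            refine intervalIntegral.integral_mono_interval le_rfl hx.1 hx.2 ?_
              (hcont.abs.intervalIntegrable _ _)
            exact Eventually.of_forall fun z => abs_nonneg _
        _ ≤ per (fun z => |hh σ p m u z| + |mu σ p m u|) :=
            H4a_per_mono hcont.abs (hhc.abs.add continuous_const) fun z _ => abs_sub _ _
        _ = per (fun z => |hh σ p m u z|) + 2 * Real.pi * |mu σ p m u| := by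
            rw [← H4a_per_const]
            unfold per
            beta_reduce
            rw [intervalIntegral.integral_add]
            · exact Continuous.intervalIntegrable (by fun_prop) _ _
            · exact Continuous.intervalIntegrable (by fun_prop) _ _
        _ ≤ 308 * (L ^ 8 * y ^ 4) := by linarith
    unfold alpha
    have i2 := abs_add_le (-4 * m * rhox σ u x + m * rhox σ u 0)
      (∫ z in (0 : ℝ)..x, (hh σ p m u z - mu σ p m u))
    have i3 := abs_add_le (-4 * m * rhox σ u x) (m * rhox σ u 0)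
    have hm := (H 0).m
    have i4 : |-4 * m * rhox σ u x| ≤ 4 * L * (2 * (L ^ 3 * y ^ 4)) := by
      rw [abs_mul, abs_mul, show |(-4 : ℝ)| = 4 by norm_num]
      have := H4a_brhox' (H x)
      gcongr
    have i5 : |m * rhox σ u 0| ≤ L * (2 * (L ^ 3 * y ^ 4)) := by
      rw [abs_mul]
      have := H4a_brhox' (H 0)
      gcongr
    have m1 := H4a_mono hL1 hy1 (show 4 ≤ 8 by norm_num) (show 4 ≤ 4 by norm_num)
    linarith
  -- the square
  have hsq : ∀ x ∈ Icc 0 (2 * Real.pi), nsq (H4a_N2 σ p m u x) ≤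
      (n + 1) * (500 * L ^ 9) ^ 2 * 4 * (y ^ 10 + y ^ 8 * nsq (iteratedDeriv 3 u x)
        + y ^ 6 * nsq (iteratedDeriv 4 u x) + y ^ 2 * nsq (iteratedDeriv 5 u x)) := by
    intro x hx
    have b := H4a_bN2 (H x) hμ (hα x hx)
    have n3 := H4a_normsq_le (iteratedDeriv 3 u x)
    have n4 := H4a_normsq_le (iteratedDeriv 4 u x)
    have n5 := H4a_normsq_le (iteratedDeriv 5 u x)
    have c1 := H4a_nsq_le (H4a_N2 σ p m u x)
    have c2 : ‖H4a_N2 σ p m u x‖ ^ 2 ≤ (500 * L ^ 9) ^ 2 * (4 * (y ^ 10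
        + y ^ 8 * ‖iteratedDeriv 3 u x‖ ^ 2 + y ^ 6 * ‖iteratedDeriv 4 u x‖ ^ 2
        + y ^ 2 * ‖iteratedDeriv 5 u x‖ ^ 2)) := by
      refine (pow_le_pow_left₀ (norm_nonneg _) b 2).trans ?_
      rw [mul_pow]
      refine mul_le_mul_of_nonneg_left ?_ (by positivity)
      have q : ∀ a b c d : ℝ, (a + b + c + d) ^ 2 ≤ 4 * (a ^ 2 + b ^ 2 + c ^ 2 + d ^ 2) := by
        intro a b c d
        nlinarith [sq_nonneg (a - b), sq_nonneg (a - c), sq_nonneg (a - d), sq_nonneg (b - c),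
          sq_nonneg (b - d), sq_nonneg (c - d)]
      refine (q _ _ _ _).trans (le_of_eq ?_)
      ring
    calc nsq (H4a_N2 σ p m u x) ≤ (n + 1) * ‖H4a_N2 σ p m u x‖ ^ 2 := c1
      _ ≤ (n + 1) * ((500 * L ^ 9) ^ 2 * (4 * (y ^ 10
        + y ^ 8 * ‖iteratedDeriv 3 u x‖ ^ 2 + y ^ 6 * ‖iteratedDeriv 4 u x‖ ^ 2
        + y ^ 2 * ‖iteratedDeriv 5 u x‖ ^ 2))) := by gcongr
      _ ≤ (n + 1) * ((500 * L ^ 9) ^ 2 * (4 * (y ^ 10 + y ^ 8 * nsq (iteratedDeriv 3 u x)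
        + y ^ 6 * nsq (iteratedDeriv 4 u x) + y ^ 2 * nsq (iteratedDeriv 5 u x)))) := by gcongr
      _ = _ := by ring
  have hint : per (fun x => (n + 1) * (500 * L ^ 9) ^ 2 * 4 *
      (y ^ 10 + y ^ 8 * nsq (iteratedDeriv 3 u x)
        + y ^ 6 * nsq (iteratedDeriv 4 u x) + y ^ 2 * nsq (iteratedDeriv 5 u x))) =
      (n + 1) * (500 * L ^ 9) ^ 2 * 4 * (2 * Real.pi * y ^ 10 + y ^ 8 * H4a_a u 3
        + y ^ 6 * H4a_a u 4 + y ^ 2 * H4a_a u 5) := by
    rw [← H4a_per_const]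
    have hn3 := hn 3
    have hn4 := hn 4
    have hn5 := hn 5
    unfold H4a_a per
    beta_reduce
    rw [intervalIntegral.integral_const_mul, intervalIntegral.integral_add,
      intervalIntegral.integral_add, intervalIntegral.integral_add,
      intervalIntegral.integral_const_mul, intervalIntegral.integral_const_mul,
      intervalIntegral.integral_const_mul]
    all_goals exact Continuous.intervalIntegrable (by fun_prop) _ _
  calc per (fun x => nsq (H4a_N2 σ p m u x)) ≤ _ :=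
        H4a_per_mono (H4a_nsqcont (H4a_N2cont hB p m hu))
          (continuous_const.mul (((continuous_const.add (continuous_const.mul (hn 3))).add
            (continuous_const.mul (hn 4))).add (continuous_const.mul (hn 5)))) hsq
    _ = _ := hint
    _ ≤ (n + 1) * (500 * L ^ 9) ^ 2 * 4 * ((7 + 3 * K) * y ^ 14) := by
        refine mul_le_mul_of_nonneg_left ?_ (by positivity)
        have p1 : y ^ 8 * H4a_a u 3 ≤ K * y ^ 14 := by
          calc y ^ 8 * H4a_a u 3 ≤ y ^ 8 * (K * y ^ 4) := by gcongr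
            _ = K * y ^ 12 := by ring
            _ ≤ K * y ^ 14 := by
                have := pow_le_pow_right₀ hy1 (show 12 ≤ 14 by norm_num)
                gcongr
        have p2 : y ^ 6 * H4a_a u 4 ≤ K * y ^ 14 := by
          calc y ^ 6 * H4a_a u 4 ≤ y ^ 6 * (K * y ^ 8) := by gcongr
            _ = K * y ^ 14 := by ring
        have p3 : y ^ 2 * H4a_a u 5 ≤ K * y ^ 14 := by
          calc y ^ 2 * H4a_a u 5 ≤ y ^ 2 * (K * y ^ 12) := by gcongr
            _ = K * y ^ 14 := by ring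
        have p4 : 2 * Real.pi * y ^ 10 ≤ 7 * y ^ 14 := by
          have h14 := pow_le_pow_right₀ hy1 (show 10 ≤ 14 by norm_num)
          have h10 : 0 ≤ y ^ 10 := by positivity
          nlinarith
        linarith
    _ = _ := by ring

theorem claimH4a (hB : BRules) (hI : PerInterp) (hA : Agmon) : ClaimH4a := by
  intro n σ K hσ hK0
  rcases lt_or_ge K 1 with hK | hK
  · refine ⟨0, fun u p hu hp h1 h2 => ?_⟩
    exfalso
    have : 1 < K⁻¹ := (one_lt_inv₀ hK0).2 hK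
    linarith
  · refine ⟨(n + 1) * (500 * ((n + 1) * (2 * K)) ^ 9) ^ 2 * 4 * (7 + 3 * K),
      fun u p hu hper h1 h2 h0 hd2 => ?_⟩
    have ha6 := H4a_a_nonneg u 6
    set Y : ℝ := 1 + per (fun x => nsq (iteratedDeriv 6 u x)) with hY
    have hY1 : 1 ≤ Y := by
      have : Y = 1 + H4a_a u 6 := rfl
      rw [this]; linarith
    set y : ℝ := Y ^ ((1 : ℝ) / 16) with hy
    have hy1 : 1 ≤ y := Real.one_le_rpow hY1 (by norm_num)
    have hy16 : y ^ 16 = Y := by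
      rw [hy, ← Real.rpow_natCast, ← Real.rpow_mul (by linarith)]
      norm_num
    have hy14 : y ^ 14 = Y ^ ((7 : ℝ) / 8) := by
      rw [hy, ← Real.rpow_natCast, ← Real.rpow_mul (by linarith)]
      norm_num
    have h6 : H4a_a u 6 ≤ y ^ 16 := by
      rw [hy16, hY]; unfold H4a_a; linarith
    obtain ⟨b3, b4, b5, bs⟩ := H4a_bounds hI hA hu hper hK hy1 h0 hd2 h6
    have hn1 : (1 : ℝ) ≤ n + 1 := by
      have : (0 : ℝ) ≤ n := Nat.cast_nonneg n
      linarith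
    have hn0 : (0 : ℝ) ≤ n := Nat.cast_nonneg n
    have hL2 : 2 * K ≤ (n + 1) * (2 * K) := by nlinarith
    have hLn : (n + 1 : ℝ) ≤ (n + 1) * (2 * K) := by nlinarith
    have hKL : K ≤ (n + 1) * (2 * K) := by nlinarith
    have hppos : 0 < p := lt_of_lt_of_le (inv_pos.2 hK0) h1
    have hH : ∀ x, H4a_Hyp σ p p⁻¹ ((n + 1) * (2 * K)) y u x := by
      intro x
      obtain ⟨c0, c1, c2, c3⟩ := bs x
      refine ⟨?_, ?_, hy1, ?_, ?_, ?_, ?_, ?_, ?_, ?_⟩
      · rcases hσ with h | h <;> simp [h]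
      · linarith
      · rw [abs_of_pos hppos]; linarith
      · rw [abs_of_pos (inv_pos.2 hppos)]
        have : p⁻¹ ≤ K := inv_le_of_inv_le₀ hK0 h1
        linarith
      · intro a b
        refine (H4a_B_le hσ a b).trans ?_
        gcongr
      · linarith
      · linarith
      · refine c2.trans ?_
        gcongr
      · refine c3.trans ?_
        gcongr
    have hfin := H4a_final hB hu hK hKL hH b3 b4 b5
    rw [H4a_D2N hB p p⁻¹ hu, ← hy14]
    exact hfin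

end Pool.Agent.Work.MP_4a14ce_an

end
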