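import Pool.Agent.Work.MP_4a14ce_an.Bd.B05
import Pool.Agent.Work.MP_4a14ce_an.Bd.B06
import Pool.Agent.Work.MP_4a14ce_an.Bd.B01
import Pool.Agent.Work.MP_4a14ce_an.Bd.B03
import Pool.Agent.Work.MP_4a14ce_an.Bd.B02
import Pool.Agent.Work.MP_4a14ce_an.Bd.B04
import Pool.Agent.Work.MP_4a14ce_an.Uniq0

/-! Bundle of small proof modules (one section per former module). -/

section

/-!
# W9b: calculus for the evaluation of the Fourier series
-/

open Set MeasureTheory Topology Filter
open scoped ContDiff ENNReal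

namespace Pool.Agent.Work.MP_4a14ce_an

namespace WN

namespace EvalB

open EvalA

/-- termwise integration -/
lemma int_tsum {F : ℤ → ℝ → ℂ} {u : ℤ → ℝ} (hu : Summable u) (hF : ∀ k, Continuous (F k))
    (hb : ∀ k t, ‖F k t‖ ≤ u k) (a b : ℝ) :
    HasSum (fun k => ∫ t in a..b, F k t) (∫ t in a..b, ∑' k, F k t) := by
  refine intervalIntegral.hasSum_integral_of_dominated_convergence (fun k _ => u k)
    (fun k => (hF k).aestronglyMeasurable) (fun k => ?_) ?_ ?_ ?_
  · exact Filter.Eventually.of_forall fun t _ => hb k t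
  · exact Filter.Eventually.of_forall fun t _ => hu
  · exact intervalIntegrable_const
  · exact Filter.Eventually.of_forall fun t _ =>
      (Summable.of_norm_bounded hu fun k => hb k t).hasSum

lemma wt_pos (k : ℤ) : 0 < wt k := by
  unfold wt
  positivity

lemma em_hasDerivAt (k : ℤ) (x : ℝ) : HasDerivAt (EvalA.em k) (Complex.I * k * EvalA.em k x) x := by
  have h1 : HasDerivAt (fun x : ℝ => Complex.I * k * (x : ℂ)) (Complex.I * k * 1) x :=
    (Complex.ofRealCLM.hasDerivAt (x := x)).const_mul (Complex.I * (k : ℂ))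
  have h2 := h1.cexp
  unfold EvalA.em
  convert h2 using 1
  ring

lemma em_cont (k : ℤ) : Continuous (EvalA.em k) :=
  continuous_iff_continuousAt.mpr fun x => (em_hasDerivAt k x).continuousAt

/-- the integral of the exponential -/
lemma int_em {k : ℤ} (hk : k ≠ 0) (x : ℝ) :
    ∫ y in (0 : ℝ)..x, EvalA.em k y = (Complex.I * k)⁻¹ * (EvalA.em k x - 1) := by
  have hc : Complex.I * (k : ℂ) ≠ 0 := mul_ne_zero Complex.I_ne_zero (by exact_mod_cast hk)
  have h := integral_exp_mul_complex (a := 0) (b := x) hc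
  unfold EvalA.em
  rw [h]
  simp only [Complex.ofReal_zero, mul_zero, Complex.exp_zero]
  rw [div_eq_inv_mul]

lemma part1 (h1 : WOpsA) (f : W) (t x : ℝ) (hf : ∃ K, WBd 1 0 f K) :
    HasDerivAt (E f t) (E (mulW (fun k => Complex.I * k) f) t x) x := by
  have hm : ∀ k, mulW (fun k => Complex.I * k) f k = (Complex.I * k : ℂ) • f k := by
    refine (h1.2.1 (fun k => Complex.I * k) 0 1 1 f (fun k => ?_) zero_le_one ?_).1
    · rw [norm_mul, Complex.norm_I, one_mul, one_mul, pow_one, Complex.norm_intCast]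
      unfold wt
      linarith
    · simpa using hf
  obtain ⟨K, b, hb0, hbf, hbK⟩ := hf
  have hfb : ∀ k, ‖f k‖ ≤ b k := fun k =>
    (ContinuousMap.norm_le _ (hb0 k)).mpr fun θ => hbf k θ θ.2.1
  have hsum : Summable fun k => wt k * b k := by
    refine summable_of_sum_le (c := K) (fun k => mul_nonneg (wt_pos k).le (hb0 k)) fun s => ?_
    have := hbK s
    simpa only [pow_one] using this
  have hE : E (mulW (fun k => Complex.I * k) f) t x =
      ∑' k : ℤ, ex (f k) t * (Complex.I * k * EvalA.em k x) := by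
    rw [E_eq]
    refine tsum_congr fun k => ?_
    unfold tm
    rw [hm, ex_smul]
    ring
  rw [hE]
  refine hasDerivAt_tsum (g := fun (k : ℤ) (y : ℝ) => ex (f k) t * EvalA.em k y)
    (g' := fun (k : ℤ) (y : ℝ) => ex (f k) t * (Complex.I * k * EvalA.em k y)) hsum
    (fun k y => (em_hasDerivAt k y).const_mul _) (fun k y => ?_) (tm_summable f t x) x
  rw [norm_mul, norm_mul, norm_mul, norm_em, Complex.norm_I, one_mul, mul_one,
    Complex.norm_intCast]
  calc ‖ex (f k) t‖ * |(k : ℝ)| ≤ b k * wt k := by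
        refine mul_le_mul ((ex_norm_le _ _).trans (hfb k)) ?_ (abs_nonneg _) (hb0 k)
        unfold wt
        linarith
    _ = wt k * b k := mul_comm _ _

lemma part2 (f g : W) (h : TD f g) (t : ℝ) (ht : t ∈ Icc (0 : ℝ) 1) (x : ℝ) :
    HasDerivWithinAt (fun s => E f s x) (E g t x) (Icc 0 1) t := by
  have hgc : Continuous fun s => E g s x :=
    (E_cont g).comp (continuous_id.prodMk continuous_const)
  have hF : HasDerivAt (fun s => E f 0 x + ∫ r in (0 : ℝ)..s, E g r x) (E g t x) t :=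
    ((hgc.integral_hasStrictDerivAt 0 t).hasDerivAt).const_add _
  have hk : ∀ k : ℤ, ∀ s ∈ Icc (0 : ℝ) 1, ∫ r in (0 : ℝ)..s, ex (g k) r =
      ex (f k) s - ex (f k) 0 := by
    intro k s hs
    refine intervalIntegral.integral_eq_sub_of_hasDerivAt_of_le hs.1
      (ex_continuous (f k)).continuousOn (fun r hr => ?_)
      ((ex_continuous (g k)).intervalIntegrable _ _)
    exact (h k r ⟨hr.1.le, hr.2.le.trans hs.2⟩).hasDerivAt
      (Icc_mem_nhds hr.1 (hr.2.trans_le hs.2))
  have hE : ∀ s ∈ Icc (0 : ℝ) 1, E f s x = E f 0 x + ∫ r in (0 : ℝ)..s, E g r x := by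
    intro s hs
    have h1 : HasSum (fun k : ℤ => ∫ r in (0 : ℝ)..s, tm g r x k)
        (∫ r in (0 : ℝ)..s, ∑' k, tm g r x k) :=
      int_tsum (F := fun k r => tm g r x k) (u := fun k => ‖g k‖) (summable_norm g)
        (fun k => (ex_continuous (g k)).mul continuous_const) (fun k r => tm_norm g r x k) 0 s
    have h2 : ∀ k, ∫ r in (0 : ℝ)..s, tm g r x k = tm f s x k - tm f 0 x k := by
      intro k
      unfold tm
      rw [intervalIntegral.integral_mul_const, hk k s hs, sub_mul]
    simp_rw [h2] at h1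
    have h3 := h1.tsum_eq
    rw [(tm_summable f s x).tsum_sub (tm_summable f 0 x)] at h3
    have h4 : (∫ r in (0 : ℝ)..s, ∑' k, tm g r x k) = ∫ r in (0 : ℝ)..s, E g r x := rfl
    rw [h4] at h3
    rw [← h3, E_eq, E_eq]
    ring
  exact hF.hasDerivWithinAt.congr hE (hE t ht)

lemma tm_cont (f : W) (t : ℝ) (k : ℤ) : Continuous fun y => tm f t y k :=
  continuous_const.mul (em_cont k)

lemma part3 (f : W) (t : ℝ) : ∫ x in (0 : ℝ)..(2 * Real.pi), E f t x =
    2 * Real.pi * ex (f 0) t := by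
  have h1 : HasSum (fun k : ℤ => ∫ y in (0 : ℝ)..(2 * Real.pi), tm f t y k)
      (∫ y in (0 : ℝ)..(2 * Real.pi), ∑' k, tm f t y k) :=
    int_tsum (F := fun k y => tm f t y k) (u := fun k => ‖f k‖) (summable_norm f)
      (fun k => tm_cont f t k) (fun k y => tm_norm f t y k) 0 (2 * Real.pi)
  have h2 : ∀ k : ℤ, ∫ y in (0 : ℝ)..(2 * Real.pi), tm f t y k =
      if k = 0 then 2 * Real.pi * ex (f 0) t else 0 := by
    intro k
    unfold tm
    rw [intervalIntegral.integral_const_mul]
    split_ifs with hk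
    · subst hk
      simp only [em_zero_left]
      rw [intervalIntegral.integral_const, sub_zero, Complex.real_smul]
      push_cast
      ring
    · rw [int_em hk]
      have h3 := em_period k 0
      rw [zero_add, em_zero_right] at h3
      rw [h3]
      ring
  simp_rw [h2] at h1
  have h3 := h1.tsum_eq
  rw [tsum_ite_eq] at h3
  exact h3.symm

lemma part4 (h2 : WOpsB) (f : W) (t x : ℝ) :
    E (anti f) t x = ∫ y in (0 : ℝ)..x, (E f t y - ex (f 0) t) := by
  obtain ⟨-, -, -, ha1, ha2, -⟩ := h2.1 f f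
  have hb : ∀ (k : ℤ) (y : ℝ), ‖(if k = 0 then 0 else tm f t y k : ℂ)‖ ≤ ‖f k‖ := by
    intro k y
    split_ifs
    · rw [norm_zero]
      exact norm_nonneg _
    · exact tm_norm f t y k
  have e1 : ∀ y, ∑' k : ℤ, (if k = 0 then 0 else tm f t y k : ℂ) = E f t y - ex (f 0) t := by
    intro y
    have h3 := hasSum_ite_sub_hasSum (tm_summable f t y).hasSum 0
    have h4 : tm f t y 0 = ex (f 0) t := by
      unfold tm
      rw [em_zero_left, mul_one]
    rw [h4] at h3
    exact h3.tsum_eq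
  have h5 : HasSum (fun k : ℤ => ∫ y in (0 : ℝ)..x, (if k = 0 then 0 else tm f t y k : ℂ))
      (∫ y in (0 : ℝ)..x, ∑' k : ℤ, (if k = 0 then 0 else tm f t y k : ℂ)) := by
    refine int_tsum (F := fun k y => (if k = 0 then 0 else tm f t y k : ℂ)) (u := fun k => ‖f k‖)
      (summable_norm f) (fun k => ?_) hb 0 x
    by_cases hk : k = 0
    · simp only [hk, if_true]
      exact continuous_const
    · simp only [hk, if_false]
      exact tm_cont f t k
  have e2 : (∫ y in (0 : ℝ)..x, ∑' k : ℤ, (if k = 0 then 0 else tm f t y k : ℂ)) =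
      ∫ y in (0 : ℝ)..x, (E f t y - ex (f 0) t) := by
    congr 1
    funext y
    exact e1 y
  have e3 : ∀ k : ℤ, ∫ y in (0 : ℝ)..x, (if k = 0 then 0 else tm f t y k : ℂ) =
      tm (anti f) t x k - tm (anti f) t 0 k := by
    intro k
    by_cases hk : k = 0
    · subst hk
      unfold tm
      simp only [if_true, em_zero_left, intervalIntegral.integral_zero, sub_self]
    · simp only [hk, if_false]
      unfold tm
      rw [intervalIntegral.integral_const_mul, int_em hk, ha1 k hk, ex_smul, em_zero_right]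
      ring
  simp_rw [e3] at h5
  rw [e2] at h5
  have h6 := h5.tsum_eq
  rw [(tm_summable (anti f) t x).tsum_sub (tm_summable (anti f) t 0), ← E_eq, ← E_eq, EvalA.E_zero,
    ha2, ex_zero, sub_zero] at h6
  exact h6

end EvalB

open EvalB

theorem wEvalB (h1 : WOpsA) (h2 : WOpsB) (_h3 : WEvalA) : WEvalB :=
  ⟨fun f t x hf => part1 h1 f t x hf, fun f g h t ht x => part2 f g h t ht x,
    fun f t => part3 f t, fun f t x => part4 h2 f t x⟩

end WN

end Pool.Agent.Work.MP_4a14ce_an

end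

section

/-!
# W2b: antiderivative, constants, value at 0, sums
-/

open Set MeasureTheory Topology Filter
open scoped ContDiff ENNReal

namespace Pool.Agent.Work.MP_4a14ce_an

namespace WN

namespace WOpsBAux

open WOpsAAux

lemma cst_apply (a : A) (k : ℤ) : cst a k = if k = 0 then a else 0 := by
  by_cases hk : k = 0
  · subst hk
    simp [cst]
  · simp [cst, hk]

lemma norm_cst (a : A) : ‖cst a‖ ≤ ‖a‖ := by
  refine norm_le_of_sum fun s => ?_
  have h : ∀ k : ℤ, ‖cst a k‖ = if k = 0 then ‖a‖ else 0 := by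
    intro k
    rw [cst_apply]
    split_ifs <;> simp
  simp only [h]
  rw [Finset.sum_ite_eq']
  split_ifs
  · exact le_rfl
  · exact norm_nonneg _

lemma cst_sub (a b : A) : cst (a - b) = cst a - cst b := by
  refine ext_W fun k => ?_
  rw [lp.coeFn_sub, Pi.sub_apply, cst_apply, cst_apply, cst_apply]
  split_ifs <;> simp

lemma sym_cst (a : A) (ha : star a = a) : Sym (cst a) := by
  intro k
  rw [cst_apply, cst_apply]
  by_cases hk : k = 0
  · simp [hk, ha]
  · simp [hk]

lemma wt_zero : wt 0 = 1 := by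
  unfold wt; simp

lemma wbd_cst (a : A) (m : ℕ) (d K : ℝ) (hK : 0 ≤ K)
    (h : ∀ θ : unitInterval, d ≤ θ → ‖a θ‖ ≤ K) : WBd m d (cst a) K := by
  refine ⟨fun k => if k = 0 then K else 0, fun k => ?_, fun k θ hθ => ?_, fun s => ?_⟩
  · show 0 ≤ if k = 0 then K else 0
    split_ifs
    · exact hK
    · exact le_rfl
  · rw [cst_apply]
    show ‖(if k = 0 then a else 0 : A) θ‖ ≤ if k = 0 then K else 0
    split_ifs
    · exact h θ hθ
    · simp
  · have h1 : ∀ k ∈ s, wt k ^ m * (if k = 0 then K else 0) = if k = 0 then K else 0 := by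
      intro k _
      split_ifs with h0
      · rw [h0, wt_zero, one_pow, one_mul]
      · rw [mul_zero]
    rw [Finset.sum_congr rfl h1, Finset.sum_ite_eq']
    split_ifs
    · exact le_rfl
    · exact hK

lemma summable_W (f : W) : Summable fun k => f k := (summable_norm f).of_norm

lemma norm_ev0 (f : W) : ‖ev0 f‖ ≤ ‖f‖ := by
  rw [norm_eq f]
  exact norm_tsum_le_tsum_norm (summable_norm f)

lemma ev0_sub (f g : W) : ev0 (f - g) = ev0 f - ev0 g := by
  unfold ev0
  rw [← (summable_W f).tsum_sub (summable_W g)]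
  refine tsum_congr fun k => ?_
  rw [lp.coeFn_sub, Pi.sub_apply]

lemma star_ev0 (f : W) (hf : Sym f) : star (ev0 f) = ev0 f := by
  unfold ev0
  rw [tsum_star, ← (Equiv.neg ℤ).tsum_eq (fun k => f k)]
  refine tsum_congr fun k => ?_
  rw [Equiv.neg_apply, hf k]

lemma wbd_nonneg {m : ℕ} {d K : ℝ} {f : W} (h : WBd m d f K) : 0 ≤ K := by
  obtain ⟨b, _, _, hK⟩ := h
  have := hK ∅
  simpa using this

lemma sum_of_wb {m : ℕ} {b : ℤ → ℝ} {K : ℝ} (hb : ∀ k, 0 ≤ b k)
    (hK : ∀ s : Finset ℤ, ∑ k ∈ s, wt k ^ m * b k ≤ K) : Summable b ∧ ∑' k, b k ≤ K := by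
  have h1 : ∀ s : Finset ℤ, ∑ k ∈ s, b k ≤ K := by
    intro s
    refine le_trans (Finset.sum_le_sum fun k _ => ?_) (hK s)
    calc b k = 1 * b k := (one_mul _).symm
      _ ≤ wt k ^ m * b k := mul_le_mul_of_nonneg_right (wt_pow_ge k m) (hb k)
  have h2 : Summable b := summable_of_sum_le hb h1
  exact ⟨h2, h2.tsum_le_of_sum_le h1⟩

lemma ev0_eval (f : W) (θ : unitInterval) : HasSum (fun k => f k θ) (ev0 f θ) := by
  have h := (summable_W f).hasSum
  have h2 := h.mapL (ContinuousMap.evalCLM ℂ θ)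
  unfold ev0
  simpa [Function.comp_def] using h2

lemma wbd_ev0 (f : W) (m : ℕ) (d K : ℝ) (h : WBd m d f K) (θ : unitInterval) (hθ : d ≤ θ) :
    ‖ev0 f θ‖ ≤ K := by
  obtain ⟨b, hb0, hbf, hbK⟩ := h
  obtain ⟨h1, h2⟩ := sum_of_wb hb0 hbK
  rw [← (ev0_eval f θ).tsum_eq]
  exact le_trans (tsum_of_norm_bounded h1.hasSum fun k => hbf k θ hθ) h2

lemma wbd_add_sub (m : ℕ) (d K L : ℝ) (f g : W) (hf : WBd m d f K) (hg : WBd m d g L) :
    WBd m d (f + g) (K + L) ∧ WBd m d (f - g) (K + L) := by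
  obtain ⟨b, hb0, hbf, hbK⟩ := hf
  obtain ⟨c, hc0, hcg, hcL⟩ := hg
  have hs : ∀ s : Finset ℤ, ∑ k ∈ s, wt k ^ m * (b k + c k) ≤ K + L := by
    intro s
    have : ∑ k ∈ s, wt k ^ m * (b k + c k) =
        ∑ k ∈ s, wt k ^ m * b k + ∑ k ∈ s, wt k ^ m * c k := by
      rw [← Finset.sum_add_distrib]
      exact Finset.sum_congr rfl fun k _ => by ring
    rw [this]
    exact add_le_add (hbK s) (hcL s)
  refine ⟨⟨fun k => b k + c k, fun k => add_nonneg (hb0 k) (hc0 k), fun k θ hθ => ?_, hs⟩,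
    ⟨fun k => b k + c k, fun k => add_nonneg (hb0 k) (hc0 k), fun k θ hθ => ?_, hs⟩⟩
  · rw [lp.coeFn_add, Pi.add_apply, ContinuousMap.add_apply]
    exact le_trans (norm_add_le _ _) (add_le_add (hbf k θ hθ) (hcg k θ hθ))
  · rw [lp.coeFn_sub, Pi.sub_apply, ContinuousMap.sub_apply]
    exact le_trans (norm_sub_le _ _) (add_le_add (hbf k θ hθ) (hcg k θ hθ))

lemma wbd_smul (m : ℕ) (d K : ℝ) (c : ℂ) (f : W) (hf : WBd m d f K) :
    WBd m d (c • f) (‖c‖ * K) := by
  obtain ⟨b, hb0, hbf, hbK⟩ := hf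
  refine ⟨fun k => ‖c‖ * b k, fun k => mul_nonneg (norm_nonneg _) (hb0 k), fun k θ hθ => ?_,
    fun s => ?_⟩
  · rw [lp.coeFn_smul, Pi.smul_apply, ContinuousMap.smul_apply, norm_smul]
    exact mul_le_mul_of_nonneg_left (hbf k θ hθ) (norm_nonneg _)
  · calc ∑ k ∈ s, wt k ^ m * (‖c‖ * b k) = ‖c‖ * ∑ k ∈ s, wt k ^ m * b k := by
          rw [Finset.mul_sum]
          exact Finset.sum_congr rfl fun k _ => by ring
      _ ≤ ‖c‖ * K := mul_le_mul_of_nonneg_left (hbK s) (norm_nonneg _)

lemma sym_ops (f g : W) (c : ℝ) (hf : Sym f) (hg : Sym g) :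
    Sym (f + g) ∧ Sym (f - g) ∧ Sym ((c : ℂ) • f) := by
  refine ⟨fun k => ?_, fun k => ?_, fun k => ?_⟩
  · rw [lp.coeFn_add, Pi.add_apply, Pi.add_apply, hf, hg, star_add]
  · rw [lp.coeFn_sub, Pi.sub_apply, Pi.sub_apply, hf, hg, star_sub]
  · rw [lp.coeFn_smul, Pi.smul_apply, Pi.smul_apply, hf, star_smul]
    congr 1
    rw [Complex.star_def, Complex.conj_ofReal]

lemma wbd_norm (f : W) (d : ℝ) : WBd 0 d f ‖f‖ := by
  refine ⟨fun k => ‖f k‖, fun k => norm_nonneg _, fun k θ _ => ContinuousMap.norm_coe_le_norm _ _,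
    fun s => ?_⟩
  simpa using sum_le_norm f s

/-! ### the antiderivative -/

lemma ck_bound (k : ℤ) : ‖(Complex.I * k)⁻¹‖ ≤ 1 := by
  rw [norm_inv, norm_mul, Complex.norm_I, one_mul, Complex.norm_intCast]
  by_cases hk : k = 0
  · simp [hk]
  · have h1 : (1 : ℝ) ≤ |(k : ℝ)| := by
      have : (1 : ℤ) ≤ |k| := Int.one_le_abs hk
      exact_mod_cast this
    exact inv_le_one_of_one_le₀ h1

lemma M_main (f : W) : (∀ k : ℤ, mulW (fun k => (Complex.I * k)⁻¹) f k = (Complex.I * k)⁻¹ • f k) ∧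
    ‖mulW (fun k => (Complex.I * k)⁻¹) f‖ ≤ 1 * ‖f‖ := by
  refine opW_main (fun (k : ℤ) a => (Complex.I * k)⁻¹ • a) 1 f fun k a => ?_
  rw [norm_smul]
  exact mul_le_mul_of_nonneg_right (ck_bound k) (norm_nonneg _)

lemma M_sub (f g : W) : mulW (fun k => (Complex.I * k)⁻¹) (f - g) =
    mulW (fun k => (Complex.I * k)⁻¹) f - mulW (fun k => (Complex.I * k)⁻¹) g := by
  refine ext_W fun k => ?_
  rw [lp.coeFn_sub, Pi.sub_apply, (M_main _).1, (M_main _).1, (M_main _).1, lp.coeFn_sub,
    Pi.sub_apply, smul_sub]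

lemma M_sym (f : W) (hf : Sym f) : Sym (mulW (fun k => (Complex.I * k)⁻¹) f) := by
  intro k
  rw [(M_main _).1, (M_main _).1, hf, star_smul]
  congr 1
  rw [Complex.star_def, map_inv₀, map_mul, Complex.conj_I]
  have h2 : (starRingEnd ℂ) (k : ℂ) = (k : ℂ) := by
    rw [← Complex.ofReal_intCast, Complex.conj_ofReal]
  rw [h2]
  push_cast
  ring

lemma M_wbd (f : W) (m : ℕ) (d K : ℝ) (h : WBd m d f K) :
    WBd m d (mulW (fun k => (Complex.I * k)⁻¹) f) K := by
  obtain ⟨b, hb0, hbf, hbK⟩ := h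
  refine ⟨b, hb0, fun k θ hθ => ?_, hbK⟩
  rw [(M_main _).1, ContinuousMap.smul_apply, norm_smul]
  calc _ ≤ 1 * ‖f k θ‖ := mul_le_mul_of_nonneg_right (ck_bound k) (norm_nonneg _)
    _ = ‖f k θ‖ := one_mul _
    _ ≤ b k := hbf k θ hθ

lemma ev0_cst (a : A) : ev0 (cst a) = a := by
  unfold ev0
  rw [tsum_eq_single 0]
  · rw [cst_apply, if_pos rfl]
  · intro k hk
    rw [cst_apply, if_neg hk]

lemma anti_main (f g : W) : ‖anti f‖ ≤ 2 * ‖f‖ ∧ anti (f - g) = anti f - anti g ∧
    (Sym f → Sym (anti f)) ∧ (∀ k : ℤ, k ≠ 0 → anti f k = (Complex.I * k)⁻¹ • f k) ∧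
    ev0 (anti f) = 0 ∧ ∀ (m : ℕ) (d K : ℝ), WBd m d f K → WBd m d (anti f) (2 * K) := by
  refine ⟨?_, ?_, ?_, ?_, ?_, ?_⟩
  · have h1 := (M_main f).2
    have h2 : ‖cst (ev0 (mulW (fun k => (Complex.I * k)⁻¹) f))‖ ≤ 1 * ‖f‖ :=
      le_trans (norm_cst _) (le_trans (norm_ev0 _) h1)
    calc ‖anti f‖ ≤ _ := norm_sub_le _ _
      _ ≤ 1 * ‖f‖ + 1 * ‖f‖ := add_le_add h1 h2
      _ = 2 * ‖f‖ := by ring
  · unfold anti
    rw [M_sub, ev0_sub, cst_sub]
    abel
  · intro hf
    have h1 := M_sym f hf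
    exact (sym_ops _ _ 1 h1 (sym_cst _ (star_ev0 _ h1))).2.1
  · intro k hk
    unfold anti
    rw [lp.coeFn_sub, Pi.sub_apply, (M_main _).1, cst_apply, if_neg hk, sub_zero]
  · unfold anti
    rw [ev0_sub, ev0_cst, sub_self]
  · intro m d K h
    have h1 := M_wbd f m d K h
    have h2 := wbd_cst _ m d K (wbd_nonneg h) (wbd_ev0 _ m d K h1)
    have h3 := (wbd_add_sub m d K K _ _ h1 h2).2
    rw [two_mul]
    exact h3

end WOpsBAux

/-- W2b -/
theorem wOpsB : WOpsB :=
  ⟨WOpsBAux.anti_main,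
    fun a b => ⟨WOpsBAux.norm_cst a, WOpsBAux.cst_sub a b, WOpsBAux.sym_cst a,
      WOpsBAux.cst_apply a, WOpsBAux.wbd_cst a⟩,
    fun f g => ⟨WOpsBAux.norm_ev0 f, WOpsBAux.ev0_sub f g, WOpsBAux.star_ev0 f,
      WOpsBAux.wbd_ev0 f⟩,
    WOpsBAux.wbd_add_sub, WOpsBAux.wbd_smul, WOpsBAux.sym_ops, WOpsBAux.wbd_norm⟩

end WN

end Pool.Agent.Work.MP_4a14ce_an

end

section

/-!
# Everything except local existence, Lojasiewicz-Simon and the convergence argument
-/

namespace Pool.Agent.Work.MP_4a14ce_an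

theorem aJP : JSPer := jsPer partialsC1 jsDt1
theorem aInt : JSInt0x := jsInt0x partialsC1 jsDt1
theorem aEnergy : ClaimEnergy := claimEnergy claimVelTan claimXi itvBasic jsSlice jsDt aJP conIds
theorem aStatic : ClaimStatic := claimStatic claimTan bRules conIds perDeriv perCS poincare
theorem aStatic2 : ClaimStatic2 := claimStatic2 claimTan bRules conIds
theorem aDrift : ClaimDrift :=
  claimDrift bRules conIds claimVelTan claimXi aEnergy aStatic itvBasic jsDt aJP
theorem aH4a : ClaimH4a := claimH4a bRules perInterp agmon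
theorem aH4 : ClaimH4 := claimH4 aH4a itvBasic jsSlice jsDt aJP perIbp
theorem aApriori : ClaimApriori :=
  claimApriori aEnergy aStatic aStatic2 claimIso claimInv aDrift aH4 claimTan claimVelTan
theorem aUniq0 : ClaimUniq0 := claimUniq0 jsSlice1 jsDt1 aJP perIbp perInterp agmon supLe
theorem aUnique : ClaimUnique := claimUnique aUniq0 claimLip jsSlice
theorem aLin : ClaimLin := claimLin jsSlice jsDt aJP perIbp perInterp
theorem aConstraint : ClaimConstraint := claimConstraint aLin jsSlice jsDt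
theorem aArc : ClaimArc := claimArc aInt aJP bRules claimTan
theorem aGradCon : ClaimGradCon :=
  claimGradCon bRules claimTan claimVelTan conIds jsSlice jsDt jsDt1 aJP perDeriv
theorem aGradUnique : ClaimGradUnique := claimGradUnique claimTan
theorem aFlowToT : ClaimFlowToT :=
  claimFlowToT aArc aGradCon claimGradRep aGradUnique claimXi claimVelTan claimEnergyForm
    jsSlice jsSlice1 jsDt jsDt1 jsComp
theorem aODE : ClaimODE := claimODE jsSlice1 partialsC1 (intTC partialsC1)
theorem aODEUnique : ClaimODEUnique := claimODEUnique jsSlice1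
theorem aTToFlow : ClaimTToFlow :=
  claimTToFlow itvBasic jsSlice jsDt1 aJP aInt jsComp aODE aGradCon claimGradRep claimEnergyForm
theorem aTUnique : ClaimTUnique :=
  claimTUnique aUnique claimTimeIcc claimXi claimVelTan conIds bRules jsSlice jsDt
theorem aGlobal (hL : ClaimLocal) : ClaimGlobal :=
  claimGlobal hL aUnique aConstraint aApriori aStatic claimIso claimInv aEnergy claimVelTan
    claimTan jsLocal
theorem aBounds (hL : ClaimLocal) : ClaimBounds :=
  claimBounds hL aUnique aApriori aStatic claimIso claimInv aEnergy claimVelTan claimTan jsSlice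
theorem aSub (hL : ClaimLocal) : ClaimSub :=
  claimSub claimTan claimVelTan aEnergy aStatic (aBounds hL) claimCompact claimInv claimIso
theorem aInterp : ClaimInterp := claimInterp perInterp supLe
theorem aStep : LStep := lStep (lNormal lHad) lCore (lFactor lHad) (lDom lHad) lDomain
theorem aLoja : ClaimLoja := claimLoja_of aStep lTransfer

/-- the main theorem from the three remaining claims -/
theorem aMain (hL : ClaimLocal) (hC : ClaimConv) : ClaimMain :=
  claimMain aArc (claimTGlobal (aGlobal hL) (aBounds hL) hC claimTimeIci) aTToFlow aFlowToT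
    aTUnique aODEUnique aGradCon claimEnergyForm jsSlice jsDt1 aJP aInt

end Pool.Agent.Work.MP_4a14ce_an

end

section

/-!
# E6: full convergence in the constant speed gauge
-/

open Set MeasureTheory Topology Filter
open scoped ContDiff

namespace Pool.Agent.Work.MP_4a14ce_an

variable {n : ℕ}

/-- the closed space condition passes to pointwise limits -/
theorem Conv_space_lim {σ : ℝ} (hσ : Sgn σ) {ι : Type*} {l : Filter ι} [l.NeBot] {f : ι → V n}
    {a : V n} (h : Tendsto f l (𝓝 a)) (hf : ∀ᶠ i in l, f i ∈ space σ n) : a ∈ space σ n := by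
  have h1 : B σ a a = σ := by
    have h2 := ((Conv_B_cont (n := n) σ).tendsto (a, a)).comp (h.prodMk_nhds h)
    have h3 : Tendsto (fun i => B σ (f i) (f i)) l (𝓝 σ) := by
      refine tendsto_const_nhds.congr' ?_
      filter_upwards [hf] with i hi
      exact hi.1.symm
    exact tendsto_nhds_unique h2 h3
  refine ⟨h1, fun hneg => ?_⟩
  have hm : σ = -1 := by
    rcases hσ with h | h
    · linarith
    · exact h
  have h4 : 0 ≤ a 0 := by
    refine ge_of_tendsto ((continuous_apply (0 : Fin (n + 1))).tendsto a |>.comp h) ?_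
    filter_upwards [hf] with i hi
    exact (hi.2 hneg).le
  have h5 : 1 ≤ a 0 ^ 2 := by
    unfold B at h1
    rw [hm] at h1
    have : 0 ≤ ∑ i : Fin n, a i.succ * a i.succ :=
      Finset.sum_nonneg fun i _ => mul_self_nonneg _
    nlinarith
  rcases h4.eq_or_lt with h6 | h6
  · rw [← h6] at h5
    norm_num at h5
  · exact h6

/-- zero dissipation means zero velocity -/
theorem Conv_vel_zero (hT : ClaimTan) (hV : ClaimVelTan) {σ p : ℝ} {u : ℝ → V n}
    (hσ : Sgn σ) (h : Con σ p u) (hd : dis σ p u = 0) (x : ℝ) : vel σ p p⁻¹ u x = 0 := by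
  have hvc := Conv_vel_cont σ p h.smooth
  have hBc : Continuous (fun x => B σ (vel σ p p⁻¹ u x) (vel σ p p⁻¹ u x)) :=
    Conv_B_cont2 σ hvc hvc
  have hnn : ∀ y, 0 ≤ B σ (vel σ p p⁻¹ u y) (vel σ p p⁻¹ u y) := fun y =>
    (hT n σ 0 hσ).1 (u y) (h.mem y) _ (hV n σ p u hσ h y).1
  have hpi : (0 : ℝ) < 2 * Real.pi := by positivity
  have hzero : ∀ y ∈ Ico (0 : ℝ) (2 * Real.pi),
      B σ (vel σ p p⁻¹ u y) (vel σ p p⁻¹ u y) = 0 := by
    intro y hy
    by_contra hne
    have hpos : 0 < B σ (vel σ p p⁻¹ u y) (vel σ p p⁻¹ u y) := lt_of_le_of_ne (hnn y) (Ne.symm hne)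
    have h1 : 0 < ∫ x in (0 : ℝ)..(2 * Real.pi), B σ (vel σ p p⁻¹ u x) (vel σ p p⁻¹ u x) :=
      intervalIntegral.integral_pos hpi hBc.continuousOn (fun x _ => hnn x)
        ⟨y, ⟨hy.1, hy.2.le⟩, hpos⟩
    unfold dis per at hd
    linarith
  have hper : Function.Periodic (vel σ p p⁻¹ u) (2 * Real.pi) := by
    intro y
    rw [Conv_vel_eq, Conv_vel_eq]
    congr 1
    unfold Conv_dat
    rw [h.periodic y, Conv_per_iter h.periodic 1 y, Conv_per_iter h.periodic 2 y,
      Conv_per_iter h.periodic 3 y, Conv_per_iter h.periodic 4 y]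
  obtain ⟨y, hy, hxy⟩ := hper.exists_mem_Ico₀ hpi x
  rw [hxy]
  obtain ⟨C, hC, hC2⟩ := (hT n σ (nsq (u y)) hσ).2
  have h2 := hC2 (u y) (h.mem y) le_rfl _ (hV n σ p u hσ h y).1
  rw [hzero y hy, mul_zero] at h2
  exact Conv_nsq_eq_zero h2

/-- Full convergence in the constant speed gauge. -/
theorem claimConv (hCS : PerCS) (hSl : JSSlice) (hDt : JSDt) (hPer : JSPer) (hItv : ItvBasic)
    (hBr : BRules) (hEn : ClaimEnergy) (hT : ClaimTan) (hV : ClaimVelTan) (hX : ClaimXi)
    (hIso : ClaimIso) (hInv : ClaimInv) (hBd : ClaimBounds) (hCo : ClaimCompact)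
    (hSub : ClaimSub) (hIn : ClaimInterp) (hLS : ClaimLS) : ClaimConv := by
  intro n σ u p hσ hS
  obtain ⟨g, t₁, A, θ, E, s, ht₁, hA, hθ, hg, hEle, hElim, hM, hlen, hs, hs0, hDs⟩ :=
    Conv_stay hCS hSl hDt hPer hItv hBr hEn hT hV hX hIso hInv hBd hSub hIn hLS n σ hσ u p hS
  have h1θ : 0 < 1 - θ := by linarith [hθ.2]
  choose M hM using hM
  -- transformed solution
  have hSw : CSol σ (Ici 0) (fun t y => g (u t y)) p := (hInv n σ g hσ hg).2.2 _ u p hS
  set w : ℝ → ℝ → V n := fun t y => g (u t y) with hw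
  -- the limit along integers
  have ht1m : ∀ m : ℕ, t₁ ≤ t₁ + m := fun m => by
    have : (0 : ℝ) ≤ m := by positivity
    linarith
  obtain ⟨φ, vi, hφ, hvi, hvip, hlim⟩ := hCo n (fun m => w (t₁ + m))
    (fun m => (hSw.con _ (ht₁.trans (ht1m m))).smooth)
    (fun m => (hSw.con _ (ht₁.trans (ht1m m))).periodic)
    (fun j => ⟨M j, fun k x => hM j _ (ht1m k) x⟩)
  -- L² convergence
  set H : ℝ → ℝ := fun t => (A * (en σ (p t) (u t) - E) ^ (1 - θ)) ^ 2 with hH
  have hL2 : ∀ t ≥ t₁, per (fun x => nsq (w t x - vi x)) ≤ 2 * H t := by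
    intro t ht
    have ht0 : t ∈ Ici (0 : ℝ) := ht₁.trans ht
    have hH0 : 0 ≤ H t := sq_nonneg _
    refine le_of_forall_pos_le_add fun ε hε => ?_
    have h1 := Conv_unif_nsq (hlim 0) (show 0 < ε / (4 * Real.pi) by positivity)
    have h2 : ∀ᶠ k in atTop, t ≤ t₁ + (φ k : ℕ) := by
      have : Tendsto (fun k => t₁ + ((φ k : ℕ) : ℝ)) atTop atTop :=
        tendsto_atTop_add_const_left _ _ (tendsto_natCast_atTop_atTop.comp hφ.tendsto_atTop)
      exact this.eventually_ge_atTop t
    obtain ⟨k, hk1, hk2⟩ := (h1.and h2).exists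
    simp only [iteratedDeriv_zero] at hk1
    set b := t₁ + (φ k : ℕ) with hb
    have h3 := hlen t b ht hk2
    have h4 : per (fun x => nsq (w b x - w t x)) ≤ H t := by
      have h5 : 0 ≤ per (fun x => nsq (w b x - w t x)) :=
        Conv_per_nonneg fun x => Conv_nsq_nonneg _
      have h6 := pow_le_pow_left₀ (Real.sqrt_nonneg _) h3 2
      rw [Real.sq_sqrt h5] at h6
      exact h6
    have hc1 := (hSw.con t ht0).smooth.continuous
    have hc2 := (hSw.con b (ht₁.trans (ht1m _))).smooth.continuous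
    have hc3 := hvi.continuous
    have h5 : ∀ x ∈ Icc (0 : ℝ) (2 * Real.pi), nsq (w t x - vi x) ≤
        2 * nsq (w b x - w t x) + 2 * (ε / (4 * Real.pi)) := by
      intro x _
      have h6 := Conv_nsq_add_le (-(w b x - w t x)) (w b x - vi x)
      rw [Conv_nsq_neg, neg_sub, sub_add_sub_cancel] at h6
      have := (hk1 x).le
      linarith
    have h6 := Conv_per_mono (by fun_prop) (by fun_prop) h5
    rw [Conv_per_add (by fun_prop) (by fun_prop), Conv_per_mul, Conv_per_const] at h6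
    have h7 : 2 * Real.pi * (2 * (ε / (4 * Real.pi))) = ε := by
      have := Real.pi_ne_zero
      field_simp
      ring
    rw [h7] at h6
    linarith
  have hHlim : Tendsto (fun t => 2 * H t) atTop (𝓝 0) := by
    have h3 : Tendsto (fun t => en σ (p t) (u t) - E) atTop (𝓝 0) := by
      have := hElim.sub_const E
      rwa [sub_self] at this
    have h4 := ((((h3.rpow_const (p := 1 - θ) (Or.inr h1θ.le)).const_mul A).pow 2).const_mul 2)
    rw [Real.zero_rpow h1θ.ne'] at h4
    simpa using h4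
  -- uniform convergence of all derivatives
  have hunif : ∀ j : ℕ, TendstoUniformly (fun t x => iteratedDeriv j (w t) x)
      (iteratedDeriv j vi) atTop := by
    intro j
    refine Conv_unif_of_nsq fun δ hδ => ?_
    obtain ⟨Kv, -, hKv⟩ := Conv_bdd hvi hvip (j + 2)
    obtain ⟨ε, hε, hint⟩ := hIn n j (2 * M (j + 2) + 2 * Kv) δ hδ
    filter_upwards [hHlim.eventually (eventually_le_nhds hε), eventually_ge_atTop t₁]
      with t ht1 ht2 x
    have hcon := hSw.con t (ht₁.trans ht2)
    have h1 := hint (fun x => w t x - vi x) (hcon.smooth.sub hvi)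
      (fun x => by
        show w t (x + 2 * Real.pi) - vi (x + 2 * Real.pi) = w t x - vi x
        rw [hcon.periodic x, hvip x])
      (fun x => by
        rw [Conv_iter_sub hcon.smooth hvi]
        have h5 := Conv_nsq_sub_le (iteratedDeriv (j + 2) (w t) x) (iteratedDeriv (j + 2) vi x)
        have h6 := hM (j + 2) t ht2 x
        have h7 := hKv x
        have h8 : nsq (iteratedDeriv (j + 2) (w t) x) ≤ M (j + 2) := h6
        linarith)
      ((hL2 t ht2).trans ht1) j le_rfl x
    rwa [Conv_iter_sub hcon.smooth hvi] at h1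
  -- transform back
  obtain ⟨h, hh, hhl, hhr⟩ := (hIso n σ 0 hσ).2.1 g hg
  have hhs : ∀ f : ℝ → V n, ContDiff ℝ ∞ f → ∀ (j : ℕ) (x : ℝ),
      iteratedDeriv j (fun y => h (f y)) x = h (iteratedDeriv j f x) := (hInv n σ h hσ hh).1
  have hhc : Continuous h := h.continuous_of_finiteDimensional
  have hhu : UniformContinuous h := (LinearMap.toContinuousLinearMap h).uniformContinuous
  set v : ℝ → V n := fun y => h (vi y) with hv
  have hvs : ContDiff ℝ ∞ v := (LinearMap.toContinuousLinearMap h).contDiff.comp hvi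
  have hvp : Function.Periodic v (2 * Real.pi) := fun x => by
    show h (vi (x + 2 * Real.pi)) = h (vi x)
    rw [hvip x]
  have hunif2 : ∀ j : ℕ, TendstoUniformly (fun t x => iteratedDeriv j (u t) x)
      (iteratedDeriv j v) atTop := by
    intro j
    have h1 : TendstoUniformly (fun t => h ∘ fun x => iteratedDeriv j (w t) x)
        (h ∘ iteratedDeriv j vi) atTop := hhu.comp_tendstoUniformly (hunif j)
    have e2 : h ∘ iteratedDeriv j vi = iteratedDeriv j v := by
      funext x
      exact (hhs vi hvi j x).symm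
    rw [e2] at h1
    intro U hU
    filter_upwards [h1 U hU, eventually_ge_atTop (0 : ℝ)] with t ht1 ht x
    have h2 := hhs (w t) (hSw.con t ht).smooth j x
    have h3 : (fun y => h (w t y)) = u t := by
      funext y
      exact hhl _
    rw [h3] at h2
    have h4 := ht1 x
    simp only [Function.comp_apply] at h4
    rw [← h2] at h4
    exact h4
  have hpt : ∀ j : ℕ, ∀ x, Tendsto (fun t => iteratedDeriv j (u t) x) atTop
      (𝓝 (iteratedDeriv j v x)) := fun j x => (hunif2 j).tendsto_at x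
  -- convergence of the speed
  have hpl : ∀ x, Tendsto p atTop (𝓝 (B σ (deriv v x) (deriv v x))) := by
    intro x
    have h1 := ((Conv_B_cont (n := n) σ).tendsto (iteratedDeriv 1 v x, iteratedDeriv 1 v x)).comp
      ((hpt 1 x).prodMk_nhds (hpt 1 x))
    simp only [iteratedDeriv_one] at h1
    refine h1.congr' ?_
    filter_upwards [eventually_ge_atTop (0 : ℝ)] with t ht
    exact (hS.con t ht).speed x
  set q := B σ (deriv v 0) (deriv v 0) with hq
  have hpq : Tendsto p atTop (𝓝 q) := hpl 0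
  obtain ⟨⟨Kp, hKp, hKp'⟩, -⟩ := hBd n σ u p hσ hS
  have hq0 : 0 < q := by
    have : Kp⁻¹ ≤ q := by
      refine ge_of_tendsto hpq ?_
      filter_upwards [eventually_ge_atTop (0 : ℝ)] with t ht
      exact (hKp' t ht).1
    exact (inv_pos.2 hKp).trans_le this
  have hcon : Con σ q v := by
    refine ⟨hvs, hvp, fun x => ?_, fun x => tendsto_nhds_unique (hpl x) hpq, hq0⟩
    have h1 := hpt 0 x
    simp only [iteratedDeriv_zero] at h1
    refine Conv_space_lim hσ h1 ?_
    filter_upwards [eventually_ge_atTop (0 : ℝ)] with t ht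
    exact (hS.con t ht).mem x
  refine ⟨v, q, hcon, ?_, hunif2⟩
  -- the velocity of the limit vanishes
  have hKb : ∃ K, ∀ᶠ k in atTop, ∀ j ≤ 4, ∀ x, nsq (iteratedDeriv j (u (s k)) x) ≤ K := by
    have h1 : ∀ j : ℕ, ∃ K, ∀ᶠ k in atTop, ∀ x, nsq (iteratedDeriv j (u (s k)) x) ≤ K := by
      intro j
      obtain ⟨Kj, -, hKj⟩ := Conv_bdd hvs hvp j
      refine ⟨2 * 1 + 2 * Kj, ?_⟩
      filter_upwards [hs.eventually (Conv_unif_nsq (hunif2 j) one_pos)] with k hk x
      have h2 := Conv_nsq_add_le (iteratedDeriv j (u (s k)) x - iteratedDeriv j v x)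
        (iteratedDeriv j v x)
      rw [sub_add_cancel] at h2
      linarith [hk x, hKj x]
    choose Kj hKj using h1
    obtain ⟨M', -, hM'⟩ := Conv_max Kj 4
    refine ⟨M', ?_⟩
    have h2 : ∀ j ∈ Finset.range 5, ∀ᶠ k in atTop, ∀ x,
        nsq (iteratedDeriv j (u (s k)) x) ≤ M' := by
      intro j hj
      have hj' : j ≤ 4 := by
        have := Finset.mem_range.1 hj
        omega
      filter_upwards [hKj j] with k hk x
      exact (hk x).trans (hM' j hj')
    filter_upwards [(Filter.eventually_all_finset _).2 h2] with k hk j hj x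
    exact hk j (Finset.mem_range.2 (by omega)) x
  obtain ⟨Kb, hKb⟩ := hKb
  have hd := Conv_lim_dis σ (fun k => u (s k)) (fun k => p (s k)) v q hq0.ne'
    (fun k => (hS.con _ (hs0 k)).smooth) (hpq.comp hs) (fun j _ x => (hpt j x).comp hs) Kb hKb
  have hd0 : dis σ q v = 0 := tendsto_nhds_unique hd hDs
  exact fun x => Conv_vel_zero hT hV hσ hcon hd0 x

end Pool.Agent.Work.MP_4a14ce_an

end

section

/-!
# Local existence
-/

namespace Pool.Agent.Work.MP_4a14ce_an

open WN in
theorem claimLocal (h : PartialsC1) : ClaimLocal := by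
  have hN : WNon := wNon wConv wOpsA wOpsB
  have hEA : WEvalA := wEvalA wOpsB
  have hEB : WEvalB := wEvalB wOpsA wOpsB hEA
  have hC : WClos := wClos wConv wOpsA wOpsB
  have hTime : WTime := wTime wOpsA wDuhA hC
  have hCur : WCur := wCur wOpsA hEA hEB
  exact local_of wOpsA (wFix wOpsA (wLip wConv wOpsA wOpsB) hN wDuhA)
    (wReg wOpsA wOpsB hN wDuhA wDuhB) hTime hEA hEB (wJS h wOpsA hC hEA hEB) hCur
    (wRhs wOpsA hEA hEB hCur) wData

end Pool.Agent.Work.MP_4a14ce_an

end

section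

/-!
# The main theorem from local existence
-/

namespace Pool.Agent.Work.MP_4a14ce_an

theorem aLS : ClaimLS := claimLS_final aLoja conIds claimTan claimVelTan

theorem aConv (hL : ClaimLocal) : ClaimConv :=
  claimConv perCS jsSlice jsDt aJP itvBasic bRules aEnergy claimTan claimVelTan claimXi claimIso
    claimInv (aBounds hL) claimCompact (aSub hL) aInterp aLS

theorem aFinal (hL : ClaimLocal) : ClaimMain := aMain hL (aConv hL)

end Pool.Agent.Work.MP_4a14ce_an

end
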